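import Pool.Agent.RFL.Nab1

/-!
# RFL-C2 : equivariance of the connection

`(g θ)(x) = ρ(g) θ(ρ(g)⁻¹ x)`. By `exists_perm` the group permutes the root lines and
`ip (a) · a` only depends on the line of the unit vector `a`; check the identity
`∇_{g v} (g θ) = g ∇_v θ` at regular points with `eval_nab` (chain rule: `dv_sbt`).
-/

open MvPolynomial Matrix Finset

noncomputable section

namespace RFL

namespace RD

variable {n : ℕ} (D : RD n)

private theorem vf_ext {θ η : VF n}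
    (h : ∀ x, (fun l => eval x (θ l)) = (fun l => eval x (η l))) : θ = η := by
  funext l
  apply MvPolynomial.funext
  intro x
  exact congrFun (h x) l

theorem eval_actV (g : D.G) (θ : VF n) (x : Vec n) :
    (fun l => eval x (D.actV g θ l)) = D.ρ g *ᵥ (fun l => eval (D.ρ g⁻¹ *ᵥ x) (θ l)) := by
  funext l
  simp only [actV, map_sum, map_mul, eval_C, D.eval_act, Matrix.mulVec, dotProduct]

theorem actV_add (g : D.G) (θ η : VF n) : D.actV g (θ + η) = D.actV g θ + D.actV g η := by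
  funext l
  simp only [actV, Pi.add_apply, map_add, mul_add, Finset.sum_add_distrib]

theorem actV_smul (g : D.G) (f : Pol n) (θ : VF n) :
    D.actV g (f • θ) = D.act g f • D.actV g θ := by
  funext l
  simp only [actV, Pi.smul_apply, smul_eq_mul, map_mul, Finset.mul_sum]
  refine Finset.sum_congr rfl fun j _ => ?_
  ring

theorem actV_actV (g g' : D.G) (θ : VF n) : D.actV g (D.actV g' θ) = D.actV (g * g') θ := by
  apply vf_ext
  intro x
  rw [D.eval_actV, D.eval_actV, D.eval_actV, Matrix.mulVec_mulVec, Matrix.mulVec_mulVec,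
    _root_.mul_inv_rev, map_mul, map_mul]

theorem actV_one (θ : VF n) : D.actV 1 θ = θ := by
  apply vf_ext
  intro x
  rw [D.eval_actV, inv_one, map_one, Matrix.one_mulVec, Matrix.one_mulVec]

theorem actV_hom (g : D.G) (θ : VF n) (d : ℕ) (h : ∀ l, (θ l).IsHomogeneous d) (l : Fin n) :
    (D.actV g θ l).IsHomogeneous d := by
  unfold actV
  apply IsHomogeneous.sum
  intro j _
  have h1 := (isHomogeneous_C (Fin n) (D.ρ g l j)).mul (D.act_hom g (θ j) d (h j))
  rwa [zero_add] at h1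

private theorem ip_rho' (g : D.G) (v w : Vec n) : ip v (D.ρ g *ᵥ w) = ip (D.ρ g⁻¹ *ᵥ v) w := by
  have h := D.ip_rho_inv g⁻¹ v w
  rwa [inv_inv] at h

private theorem c_ne {c : ℂ} (h : star c * c = 1) : star c ≠ 0 := by
  intro h0
  rw [h0, zero_mul] at h
  exact zero_ne_one h

theorem actV_mem_Der (g : D.G) {θ : VF n} (hθ : θ ∈ D.Der) : D.actV g θ ∈ D.Der := by
  rw [D.mem_Der_iff] at hθ ⊢
  intro i x hx
  obtain ⟨σ, c, hc, hσ⟩ := D.exists_perm g⁻¹
  rw [D.eval_actV, D.ip_rho', hσ, ip_smul_left]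
  have h1 : ip (D.a (σ i)) (D.ρ g⁻¹ *ᵥ x) = 0 := by
    have h2 := D.ip_rho g⁻¹ (D.a i) x
    rw [hσ, ip_smul_left, hx] at h2
    exact (mul_eq_zero.1 h2).resolve_left (c_ne (hc i))
  rw [hθ (σ i) _ h1, mul_zero]

private theorem al_ne' (i : D.ι) : D.al i ≠ 0 := by
  intro h
  have h1 := D.unit i
  rw [lin_eq_zero.1 h] at h1
  simp at h1

private theorem Q_ne' : D.Q ≠ 0 := by
  unfold Q
  exact Finset.prod_ne_zero_iff.2 fun i _ => D.al_ne' i

private theorem eval_Q_ne' {x : Vec n} (h : eval x D.Q ≠ 0) (i : D.ι) : ip (D.a i) x ≠ 0 := by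
  intro h0
  apply h
  unfold Q
  rw [map_prod]
  apply Finset.prod_eq_zero (Finset.mem_univ i)
  unfold al
  rw [eval_lin, h0]

private theorem eval_dv_actV (g : D.G) (v : Vec n) (θ : VF n) (x : Vec n) (l : Fin n) :
    eval x (dv (D.ρ g *ᵥ v) (D.actV g θ l)) =
      ∑ j, D.ρ g l j * eval (D.ρ g⁻¹ *ᵥ x) (dv v (θ j)) := by
  have hsum : ∀ (S : Finset (Fin n)) (F : Fin n → Pol n) (u : Vec n),
      dv u (∑ j ∈ S, F j) = ∑ j ∈ S, dv u (F j) := by
    intro S F u
    classical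
    induction S using Finset.induction_on with
    | empty =>
      rw [Finset.sum_empty, Finset.sum_empty]
      have := dv_C u (0 : ℂ)
      rwa [map_zero] at this
    | insert a S ha ih => rw [Finset.sum_insert ha, Finset.sum_insert ha, dv_add, ih]
  unfold actV
  rw [hsum, map_sum]
  refine Finset.sum_congr rfl fun j _ => ?_
  rw [dv_mul, dv_C, zero_mul, zero_add, map_mul, eval_C]
  congr 1
  unfold act
  rw [dv_sbt, D.rho_inv_mul, eval_sbt]

theorem nab_actV (g : D.G) (v : Vec n) {θ : VF n} (hθ : θ ∈ D.Der) :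
    D.nab (D.ρ g *ᵥ v) (D.actV g θ) = D.actV g (D.nab v θ) := by
  funext l
  rw [← sub_eq_zero]
  apply eq_zero_of_eval D.Q_ne'
  intro x hx
  have hreg := fun i => D.eval_Q_ne' hx i
  set y := D.ρ g⁻¹ *ᵥ x with hy
  have hxy : D.ρ g *ᵥ y = x := D.rho_mul_inv g x
  obtain ⟨σ, c, hc, hσ⟩ := D.exists_perm g
  have hcne : ∀ i, star (c i) ≠ 0 := fun i => c_ne (hc i)
  have key : ∀ i w, star (c i) * ip (D.a (σ i)) (D.ρ g *ᵥ w) = ip (D.a i) w := by
    intro i w
    rw [← ip_smul_left, ← hσ, D.ip_rho]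
  have hregy : ∀ i, ip (D.a i) y ≠ 0 := by
    intro i
    rw [← key i y, hxy]
    exact mul_ne_zero (hcne i) (hreg _)
  rw [map_sub, sub_eq_zero]
  have hR : eval x (D.actV g (D.nab v θ) l) = ∑ j, D.ρ g l j * eval y (D.nab v θ j) :=
    congrFun (D.eval_actV g (D.nab v θ) x) l
  rw [D.eval_nab _ (D.actV_mem_Der g hθ) x hreg, hR, D.eval_dv_actV, ← hy]
  have hT : (fun j => eval x (D.actV g θ j)) = D.ρ g *ᵥ (fun j => eval y (θ j)) :=
    D.eval_actV g θ x
  rw [hT]
  have hS : ∑ i, ip (D.a i) (D.ρ g *ᵥ v) * ip (D.a i) (D.ρ g *ᵥ fun j => eval y (θ j)) /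
      ip (D.a i) x * D.a i l =
      ∑ i, ip (D.a i) v * ip (D.a i) (fun j => eval y (θ j)) / ip (D.a i) y *
        (D.ρ g *ᵥ D.a i) l := by
    rw [← Equiv.sum_comp σ]
    refine Finset.sum_congr rfl fun i _ => ?_
    have h1 := key i v
    have h2 := key i (fun j => eval y (θ j))
    have h3 := key i y
    rw [hxy] at h3
    have h4 : (D.ρ g *ᵥ D.a i) l = c i * D.a (σ i) l := by
      rw [hσ]
      rfl
    rw [← h1, ← h2, ← h3, h4]
    have h5 := hreg (σ i)
    have h6 := hcne i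
    have h7 := hc i
    rw [div_mul_eq_mul_div, div_mul_eq_mul_div, div_eq_div_iff h5 (mul_ne_zero h6 h5)]
    linear_combination (-(ip (D.a (σ i)) (D.ρ g *ᵥ v) *
      ip (D.a (σ i)) (D.ρ g *ᵥ fun j => eval y (θ j)) * D.a (σ i) l * ip (D.a (σ i)) x *
      star (c i))) * h7
  rw [hS]
  have hE : ∀ j, eval y (D.nab v θ j) = eval y (dv v (θ j)) -
      2 * ∑ i, ip (D.a i) v * ip (D.a i) (fun j => eval y (θ j)) / ip (D.a i) y * D.a i j :=
    fun j => D.eval_nab v hθ y hregy j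
  simp only [hE, mul_sub, Finset.sum_sub_distrib]
  congr 1
  simp only [Matrix.mulVec, dotProduct, Finset.mul_sum]
  rw [Finset.sum_comm]
  refine Finset.sum_congr rfl fun j _ => Finset.sum_congr rfl fun i _ => ?_
  ring

theorem actV_mem_M (g : D.G) {θ : VF n} (hθ : θ ∈ D.M) : D.actV g θ ∈ D.M := by
  refine ⟨D.actV_mem_Der g hθ.1, ?_⟩
  intro v
  have h := D.nab_actV g (D.ρ g⁻¹ *ᵥ v) hθ.1
  rw [D.rho_mul_inv] at h
  rw [h]
  exact D.actV_mem_Der g (hθ.2 _)

end RD

end RFL
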