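import Pool.Agent.RFL.Chev
import Pool.Agent.RFL.Nab2

/-!
# RFL-E1b : the Reynolds operator on vector fields

`avV θ = (1/|G|) ∑_g actV g θ`. For an invariant field `θ` and `x ∈ H_i`: `θ(x) = ρ(s i) θ(x)`, so
`ip (a i) (θ x) = 0` (`smul_refl`, `ζ ≠ 1`): `θ ∈ Der`.
-/

open MvPolynomial Matrix Finset

noncomputable section

namespace RFL

namespace RD

variable {n : ℕ} (D : RD n)

private theorem actV_zero' (g : D.G) : D.actV g (0 : VF n) = 0 := by
  have h := D.actV_smul g 0 (0 : VF n)
  rw [map_zero, zero_smul, zero_smul] at h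
  exact h

private theorem actV_sum' {T : Type} (g : D.G) (S : Finset T) (θ : T → VF n) :
    D.actV g (∑ s ∈ S, θ s) = ∑ s ∈ S, D.actV g (θ s) := by
  classical
  induction S using Finset.induction_on with
  | empty => simp only [Finset.sum_empty]; exact actV_zero' D g
  | insert a S ha ih => rw [Finset.sum_insert ha, Finset.sum_insert ha, D.actV_add, ih]

private theorem avV_eq (θ : VF n) :
    D.avV θ = (C ((Fintype.card D.G : ℂ)⁻¹) : Pol n) • ∑ g, D.actV g θ := by
  funext l
  simp only [avV, Pi.smul_apply, Finset.sum_apply, smul_eq_mul]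

private theorem card_ne : (Fintype.card D.G : ℂ) ≠ 0 := by
  have : 0 < Fintype.card D.G := Fintype.card_pos_iff.mpr ⟨1⟩
  exact_mod_cast this.ne'

theorem avV_inv (θ : VF n) : D.avV θ ∈ D.inv := by
  intro g
  rw [avV_eq, D.actV_smul, actV_sum']
  have h1 : D.act g (C ((Fintype.card D.G : ℂ)⁻¹)) = C ((Fintype.card D.G : ℂ)⁻¹) := by
    rw [MvPolynomial.algHom_C, MvPolynomial.algebraMap_eq]
  have h2 : ∑ g', D.actV g (D.actV g' θ) = ∑ g', D.actV g' θ := by
    have h3 : ∀ g', D.actV g (D.actV g' θ) = (fun g'' => D.actV g'' θ) (Equiv.mulLeft g g') := by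
      intro g'
      rw [D.actV_actV]
      rfl
    rw [Finset.sum_congr rfl (fun g' _ => h3 g')]
    exact Equiv.sum_comp (Equiv.mulLeft g) (fun g'' => D.actV g'' θ)
  rw [h1, h2]

theorem avV_of_inv {θ : VF n} (hθ : θ ∈ D.inv) : D.avV θ = θ := by
  rw [avV_eq]
  have h1 : ∀ g, D.actV g θ = θ := hθ
  simp only [h1, Finset.sum_const, Finset.card_univ]
  funext l
  rw [Pi.smul_apply, Pi.smul_apply, smul_eq_mul, nsmul_eq_mul]
  have h2 : (C ((Fintype.card D.G : ℂ)⁻¹) : Pol n) * ((Fintype.card D.G : Pol n)) = 1 := by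
    rw [← map_natCast (C : ℂ →+* Pol n), ← C_mul, inv_mul_cancel₀ (card_ne D), C_1]
  rw [← mul_assoc, h2, one_mul]

theorem avV_smul (f : Pol n) (hf : ∀ g, D.act g f = f) (θ : VF n) :
    D.avV (f • θ) = f • D.avV θ := by
  rw [avV_eq, avV_eq]
  simp only [D.actV_smul, hf]
  rw [← Finset.smul_sum, smul_comm]

theorem avV_smul_inv (p : Pol n) {δ : VF n} (hδ : δ ∈ D.inv) :
    D.avV (p • δ) = D.av p • δ := by
  rw [avV_eq]
  have h1 : ∀ g, D.actV g δ = δ := hδ
  simp only [D.actV_smul, h1]
  rw [← Finset.sum_smul, smul_smul]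
  rfl

theorem avV_add (θ η : VF n) : D.avV (θ + η) = D.avV θ + D.avV η := by
  rw [avV_eq, avV_eq, avV_eq]
  simp only [D.actV_add]
  rw [Finset.sum_add_distrib, smul_add]

theorem avV_sum {T : Type} (S : Finset T) (θ : T → VF n) :
    D.avV (∑ s ∈ S, θ s) = ∑ s ∈ S, D.avV (θ s) := by
  classical
  induction S using Finset.induction_on with
  | empty =>
    simp only [Finset.sum_empty]
    rw [avV_eq]
    simp only [actV_zero' D, Finset.sum_const_zero, smul_zero]
  | insert a S ha ih => rw [Finset.sum_insert ha, Finset.sum_insert ha, D.avV_add, ih]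

theorem avV_hom (θ : VF n) (d : ℕ) (hθ : ∀ l, (θ l).IsHomogeneous d) (l : Fin n) :
    (D.avV θ l).IsHomogeneous d := by
  unfold avV
  have h1 : (∑ g, D.actV g θ l).IsHomogeneous d :=
    IsHomogeneous.sum _ _ _ (fun g _ => D.actV_hom g θ d hθ l)
  exact h1.C_mul _

private theorem hc_act (g : D.G) (f : Pol n) (d : ℕ) :
    homogeneousComponent d (D.act g f) = D.act g (homogeneousComponent d f) := by
  classical
  have h1 : ∀ i, homogeneousComponent d (D.act g (homogeneousComponent i f)) =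
      if d = i then D.act g (homogeneousComponent i f) else 0 := by
    intro i
    have h2 := homogeneousComponent_of_mem (m := d)
      ((mem_homogeneousSubmodule i _).2
        (D.act_hom g _ i (homogeneousComponent_isHomogeneous i f)))
    exact h2
  conv_lhs => rw [← sum_homogeneousComponent f]
  rw [map_sum, map_sum]
  simp only [h1]
  rw [Finset.sum_ite_eq]
  split_ifs with h
  · rfl
  · have h3 : f.totalDegree < d := by
      simp only [Finset.mem_range, not_lt] at h
      omega
    rw [homogeneousComponent_eq_zero _ _ h3, map_zero]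

theorem hc_inv {θ : VF n} (hθ : θ ∈ D.inv) (d : ℕ) :
    (fun l => homogeneousComponent d (θ l)) ∈ D.inv := by
  intro g
  funext l
  have h1 : D.actV g θ l = θ l := by rw [hθ g]
  have h2 : homogeneousComponent d (D.actV g θ l) = homogeneousComponent d (θ l) := by rw [h1]
  rw [← h2]
  unfold actV
  rw [map_sum]
  refine Finset.sum_congr rfl fun j _ => ?_
  rw [homogeneousComponent_C_mul, hc_act]

theorem inv_le_Der {θ : VF n} (hθ : θ ∈ D.inv) : θ ∈ D.Der := by
  rw [D.mem_Der_iff]
  intro i x hx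
  have h1 := D.eval_actV (D.s i) θ x
  have h2 : D.actV (D.s i) θ = θ := hθ (D.s i)
  have h3 : D.ρ (D.s i) *ᵥ x = x := by
    rw [D.smul_refl, hx, mul_zero, zero_smul, sub_zero]
  have h4 : D.ρ (D.s i)⁻¹ *ᵥ x = x := by
    have h5 := D.rho_inv_mul (D.s i) x
    rwa [h3] at h5
  rw [h2, h4, D.smul_refl] at h1
  have h6 : ((1 - D.ζ i) * ip (D.a i) (fun l => eval x (θ l))) • D.a i = 0 := by
    have h7 := sub_eq_self.mp h1.symm
    exact h7
  have h8 : D.a i ≠ 0 := by
    intro h
    have := D.unit i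
    rw [h] at this
    simp at this
  have h9 := (smul_eq_zero.mp h6).resolve_right h8
  have h10 : (1 - D.ζ i) ≠ 0 := sub_ne_zero.mpr (D.ζne i).symm
  exact (mul_eq_zero.mp h9).resolve_left h10

end RD

end RFL
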