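import Pool.Agent.RFL.BaseA

/-!
# RFL-B0 : elementary facts about reflection data

* `smul_refl`: `ρ (s i) v = v - (1 - ζ i) ip (a i) v a i`;
* `perm`: `g (s i) g⁻¹` has matrix `1 - (1-ζ) P_{g a i}` (unitarity), so it fixes `(g a_i)^⊥`
  pointwise and is not `1`; by `full`, `ρ g (a i) ∈ span {a j}`; norms give `|c| = 1`.
* `sum_conj`: `∑_k P_k` commutes with `G`; more generally for a function `F` of the *lines*.
-/

open MvPolynomial Matrix Finset

noncomputable section

namespace RFL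

namespace RD

variable {n : ℕ} (D : RD n)

theorem smul_refl (i : D.ι) (v : Vec n) :
    D.ρ (D.s i) *ᵥ v = v - ((1 - D.ζ i) * ip (D.a i) v) • D.a i := by
  rw [D.refl i, Matrix.sub_mulVec, Matrix.one_mulVec, Matrix.smul_mulVec, mul_smul]
  congr 2
  funext k
  simp only [Matrix.mulVec, dotProduct, Matrix.vecMulVec_apply, Pi.smul_apply, smul_eq_mul, ip,
    Pi.star_apply, Finset.sum_mul]
  exact Finset.sum_congr rfl fun j _ => by ring

theorem BaseB_ip_eq (v w : Vec n) : ip v w = star v ⬝ᵥ w := rfl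

theorem ip_rho (g : D.G) (v w : Vec n) : ip (D.ρ g *ᵥ v) (D.ρ g *ᵥ w) = ip v w := by
  rw [BaseB_ip_eq, BaseB_ip_eq, Matrix.star_mulVec, ← Matrix.dotProduct_mulVec,
    Matrix.mulVec_mulVec, D.uni g, Matrix.one_mulVec]

theorem rho_inv_mul (g : D.G) (v : Vec n) : D.ρ g⁻¹ *ᵥ (D.ρ g *ᵥ v) = v := by
  rw [Matrix.mulVec_mulVec, ← map_mul, inv_mul_cancel, map_one, Matrix.one_mulVec]

theorem rho_mul_inv (g : D.G) (v : Vec n) : D.ρ g *ᵥ (D.ρ g⁻¹ *ᵥ v) = v := by
  rw [Matrix.mulVec_mulVec, ← map_mul, mul_inv_cancel, map_one, Matrix.one_mulVec]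

theorem ip_rho_inv (g : D.G) (v w : Vec n) : ip v (D.ρ g⁻¹ *ᵥ w) = ip (D.ρ g *ᵥ v) w := by
  rw [← D.ip_rho g v (D.ρ g⁻¹ *ᵥ w), rho_mul_inv]

theorem rho_inv_eq (g : D.G) : D.ρ g⁻¹ = (D.ρ g)ᴴ := by
  have h1 : D.ρ g * D.ρ g⁻¹ = 1 := by rw [← map_mul, mul_inv_cancel, map_one]
  calc D.ρ g⁻¹ = ((D.ρ g)ᴴ * D.ρ g) * D.ρ g⁻¹ := by rw [D.uni g, one_mul]
    _ = (D.ρ g)ᴴ := by rw [mul_assoc, h1, mul_one]

theorem BaseB_refl_a (i : D.ι) : D.ρ (D.s i) *ᵥ D.a i = D.ζ i • D.a i := by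
  rw [smul_refl, D.unit i, mul_one, sub_smul, one_smul, sub_sub_cancel]

theorem zeta_unit (i : D.ι) : star (D.ζ i) * D.ζ i = 1 := by
  have h1 := D.ip_rho (D.s i) (D.a i) (D.a i)
  rw [BaseB_refl_a, ip_smul_left, ip_smul_right, D.unit i, mul_one] at h1
  exact h1

theorem zeta_ne_zero (i : D.ι) : D.ζ i ≠ 0 := by
  intro h
  have h1 := D.zeta_unit i
  rw [h, mul_zero] at h1
  exact zero_ne_one h1

theorem BaseB_exists (g : D.G) (i : D.ι) : ∃ (j : D.ι) (c : ℂ), star c * c = 1 ∧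
    D.ρ g *ᵥ D.a i = c • D.a j := by
  have hs : D.s i ≠ 1 := by
    intro h
    have h1 := D.BaseB_refl_a i
    rw [h, map_one, Matrix.one_mulVec] at h1
    have h2 : (1 - D.ζ i) • D.a i = 0 := by rw [sub_smul, one_smul, ← h1, sub_self]
    rcases smul_eq_zero.mp h2 with h3 | h3
    · exact D.ζne i (sub_eq_zero.mp h3).symm
    · exact D.a_ne i h3
  have hg : g * D.s i * g⁻¹ ≠ 1 := by
    intro h
    apply hs
    have : g * D.s i = g := by
      rw [mul_inv_eq_one] at h
      exact h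
    exact mul_eq_left.mp this
  obtain ⟨j, hj⟩ := D.full (g * D.s i * g⁻¹) hg (D.ρ g *ᵥ D.a i) (by
    intro x hx
    rw [map_mul, map_mul, ← Matrix.mulVec_mulVec, ← Matrix.mulVec_mulVec, smul_refl, ip_rho_inv, hx,
      mul_zero, zero_smul, sub_zero, rho_mul_inv])
  obtain ⟨c, hc⟩ := Submodule.mem_span_singleton.mp hj
  refine ⟨j, c, ?_, hc.symm⟩
  have h1 := D.ip_rho g (D.a i) (D.a i)
  rw [← hc, ip_smul_left, ip_smul_right, D.unit i, D.unit j, mul_one] at h1
  exact h1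

/-- `G` permutes the root lines -/
theorem exists_perm (g : D.G) : ∃ (σ : Equiv.Perm D.ι) (c : D.ι → ℂ),
    (∀ i, star (c i) * c i = 1) ∧ ∀ i, D.ρ g *ᵥ D.a i = c i • D.a (σ i) := by
  choose τ c hc h using D.BaseB_exists g
  have hinj : Function.Injective τ := by
    intro i i' hii
    by_contra hne
    have hci : c i' ≠ 0 := by
      intro h0
      have := hc i'
      rw [h0, mul_zero] at this
      exact zero_ne_one this
    have h1 : D.ρ g *ᵥ D.a i = (c i * (c i')⁻¹) • (D.ρ g *ᵥ D.a i') := by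
      rw [h i, h i', hii, smul_smul, mul_assoc, inv_mul_cancel₀ hci, mul_one]
    have h2 : D.a i = (c i * (c i')⁻¹) • D.a i' := by
      have h3 := congrArg (fun v => D.ρ g⁻¹ *ᵥ v) h1
      simp only [Matrix.mulVec_smul, rho_inv_mul] at h3
      exact h3
    have h4 : D.a i ∈ Submodule.span ℂ {D.a i'} :=
      Submodule.mem_span_singleton.mpr ⟨_, h2.symm⟩
    exact D.a_notMem (Ne.symm hne) h4
  refine ⟨Equiv.ofBijective τ (Finite.injective_iff_bijective.mp hinj), c, hc, fun i => ?_⟩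
  exact h i

/-- the form `al` under the group -/
theorem act_al (g : D.G) : ∃ (σ : Equiv.Perm D.ι) (c : D.ι → ℂ),
    (∀ i, c i ≠ 0) ∧ (∀ i, D.ρ g *ᵥ D.a i = c i • D.a (σ i)) ∧
    ∀ i, D.act g (D.al i) = C (star (c i)) * D.al (σ i) := by
  obtain ⟨σ, c, hc, h⟩ := D.exists_perm g
  refine ⟨σ, c, ?_, h, fun i => ?_⟩
  · intro i h0
    have := hc i
    rw [h0, mul_zero] at this
    exact zero_ne_one this
  · unfold act al
    rw [sbt_lin, rho_inv_eq, Matrix.conjTranspose_conjTranspose, h i, lin_smul]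

theorem act_act (g g' : D.G) (f : Pol n) : D.act g (D.act g' f) = D.act (g * g') f := by
  unfold act
  rw [sbt_sbt, ← map_mul, _root_.mul_inv_rev]

theorem act_one (f : Pol n) : D.act 1 f = f := by
  unfold act
  rw [inv_one, map_one, sbt_one]

theorem eval_act (g : D.G) (f : Pol n) (x : Vec n) :
    eval x (D.act g f) = eval (D.ρ g⁻¹ *ᵥ x) f := by
  unfold act
  rw [eval_sbt]

theorem act_hom (g : D.G) (f : Pol n) (d : ℕ) (hf : f.IsHomogeneous d) :
    (D.act g f).IsHomogeneous d := sbt_hom _ _ _ hf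

/-- a subspace stable under the projections to the roots is stable under `G` -/
theorem stable_of_proj (W : Submodule ℂ (Vec n))
    (h : ∀ i, ∀ w ∈ W, ip (D.a i) w • D.a i ∈ W) (g : D.G) (w : Vec n) (hw : w ∈ W) :
    D.ρ g *ᵥ w ∈ W := by
  have hg : g ∈ Subgroup.closure (Set.range D.s) := by rw [D.gen]; trivial
  have key : ∀ g ∈ Subgroup.closure (Set.range D.s), ∀ w ∈ W, D.ρ g *ᵥ w ∈ W := by
    intro g hg
    induction hg using Subgroup.closure_induction with
    | mem x hx =>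
      obtain ⟨i, rfl⟩ := hx
      intro w hw
      rw [smul_refl, mul_smul]
      exact W.sub_mem hw (W.smul_mem _ (h i w hw))
    | one => intro w hw; rwa [map_one, Matrix.one_mulVec]
    | mul x y _ _ hx hy =>
      intro w hw
      rw [map_mul, ← Matrix.mulVec_mulVec]
      exact hx _ (hy w hw)
    | inv x _ hx =>
      intro w hw
      -- finite order: `x⁻¹` is a power of `x`
      have hpow : ∀ k : ℕ, ∀ w ∈ W, D.ρ (x ^ k) *ᵥ w ∈ W := by
        intro k
        induction k with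
        | zero => intro w hw; rwa [pow_zero, map_one, Matrix.one_mulVec]
        | succ k ih =>
          intro w hw
          rw [pow_succ, map_mul, ← Matrix.mulVec_mulVec]
          exact ih _ (hx w hw)
      have h1 : x⁻¹ = x ^ (orderOf x - 1) := by
        have h2 : 0 < orderOf x := orderOf_pos x
        rw [inv_eq_iff_mul_eq_one, ← pow_succ', Nat.sub_add_cancel h2, pow_orderOf_eq_one]
      rw [h1]
      exact hpow _ w hw
  exact key g hg w hw

end RD

end RFL
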