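import Pool.Agent.RFL.Lin1

/-!
# RFL-B0 : elementary facts about reflection data

* `smul_refl`: `ρ (s i) v = v - (1 - ζ i) ip (a i) v a i`;
* `perm`: `g (s i) g⁻¹` has matrix `1 - (1-ζ) P_{g a i}` (unitarity), so it fixes `(g a_i)^⊥`
  pointwise and is not `1`; by `full`, `ρ g (a i) ∈ span {a j}`; norms give `|c| = 1`.
* `sum_conj`: `∑_k P_k` commutes with `G`; more generally for a function `F` of the *lines*.
-/

open MvPolynomial Matrix Finset

noncomputable section

namespace RFL

namespace RD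

variable {n : ℕ} (D : RD n)

theorem a_ne (i : D.ι) : D.a i ≠ 0 := by
  intro h
  have h1 := D.unit i
  rw [h, ip_zero_left] at h1
  exact zero_ne_one h1

theorem al_ne (i : D.ι) : D.al i ≠ 0 := by
  intro h
  exact D.a_ne i (lin_eq_zero.1 h)

theorem al_prime (i : D.ι) : Prime (D.al i) := lin_prime (D.a_ne i)

theorem al_dvd_iff (i : D.ι) (f : Pol n) :
    D.al i ∣ f ↔ ∀ x, ip (D.a i) x = 0 → eval x f = 0 := lin_dvd_iff (D.a_ne i) f

theorem BaseA_notMem {i j : D.ι} (h : i ≠ j) : D.a j ∉ Submodule.span ℂ {D.a i} := by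
  intro hj
  obtain ⟨c, hc⟩ := Submodule.mem_span_singleton.1 hj
  have h1 := LinearIndependent.pair_iff.1 (D.indep i j h) c (-1) (by rw [hc]; simp)
  exact one_ne_zero (neg_eq_zero.1 h1.2)

theorem al_not_dvd {i j : D.ι} (h : i ≠ j) : ¬ D.al i ∣ D.al j := by
  intro hd
  exact D.BaseA_notMem h ((lin_dvd_lin (D.a_ne i)).1 hd)

theorem a_notMem {i j : D.ι} (h : i ≠ j) : D.a j ∉ Submodule.span ℂ {D.a i} :=
  D.BaseA_notMem h

theorem Q_ne : D.Q ≠ 0 := by
  unfold Q
  exact Finset.prod_ne_zero_iff.2 (fun i _ => D.al_ne i)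

theorem Q_hom : D.Q.IsHomogeneous D.N := by
  unfold Q
  have h := MvPolynomial.IsHomogeneous.prod (Finset.univ : Finset D.ι) (fun i => D.al i)
    (fun _ => 1) (fun i _ => lin_hom (D.a i))
  have e : ∑ _i : D.ι, 1 = D.N := by
    simp [N]
  rw [e] at h
  exact h

/-- all forms divide ⇒ `Q` divides -/
theorem Q_dvd (f : Pol n) (h : ∀ i, D.al i ∣ f) : D.Q ∣ f := by
  classical
  unfold Q
  have key : ∀ s : Finset D.ι, (∏ i ∈ s, D.al i) ∣ f := by
    intro s
    induction s using Finset.induction_on with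
    | empty => simp
    | insert j s hj ih =>
      obtain ⟨g, hg⟩ := ih
      have h1 := h j
      rw [hg] at h1
      rcases (D.al_prime j).dvd_or_dvd h1 with h2 | h2
      · exfalso
        obtain ⟨i, hi, h3⟩ := ((D.al_prime j).dvd_finsetProd_iff _).1 h2
        exact D.al_not_dvd (fun e => hj (by rw [e]; exact hi)) h3
      · obtain ⟨g', hg'⟩ := h2
        refine ⟨g', ?_⟩
        rw [Finset.prod_insert hj, hg, hg']
        ring
  exact key _

theorem eval_Q_ne (x : Vec n) : eval x D.Q ≠ 0 ↔ ∀ i, ip (D.a i) x ≠ 0 := by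
  unfold Q
  rw [map_prod, Finset.prod_ne_zero_iff]
  constructor
  · intro h i
    have := h i (Finset.mem_univ i)
    rw [al, eval_lin] at this
    exact this
  · intro h i _
    rw [al, eval_lin]
    exact h i

/-- a generic point of the hyperplane `H_i` -/
theorem exists_generic (i : D.ι) (q : Pol n) (hq : ¬ D.al i ∣ q) :
    ∃ x, ip (D.a i) x = 0 ∧ eval x q ≠ 0 := by
  rw [D.al_dvd_iff] at hq
  push Not at hq
  exact hq

end RD

end RFL
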