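import Pool.Agent.RFL.ChaseA

/-!
# RFL-G3 : the (δ-twisted) Koszul chase

`A = PT (m+1)`, `y i = C (lin (v i))`, `v : Fin k → Vec` independent, `r, c, δ` as in `exists_elim'`,
`R₁ = image r`. For a finset `R₂` of rows disjoint from `R₁` such that all `idL (R₁ ∪ R')`, `R' ⊂ R₂`
proper, are prime and `L_j ∉ idL (R₁ ∪ R')` for `j ∈ R₂ \ R'`:

if `p + |R₂| < k`, `P` is a cochain in degree `p` with all `kd y P I ∈ idL (R₁ ∪ R₂)`, then there are
`N` and a cochain `P'` in degree `p - 1` with `δ^N P - kd y P' ∈ idL (R₁ ∪ R₂)`.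

Induction on `R₂`. `R₂ = ∅`: for each `T`-degree `e` (components: `idL_hc`, `kd` commutes with
`homogeneousComponent e`) `ψ P_e` is a cocycle (`ψ` is a `Pol`-algebra map, kills `idL R₁`), so
`ψ P_e = kd P'_e` (`kosT_exact`), and `δ^e P_e ≡ ψ P_e`. Multiply by `δ^{N-e}`, sum over `e ≤ N`.
`R₂ = insert j R`: `kd P I = L_j W I + idL (R₁ ∪ R)` (`mem_idL_insert`), choose `W` a cochain in degree
`p + 1`. `0 = kd (kd P) ≡ L_j kd W`, prime: `kd W ∈ idL (R₁ ∪ R)`; `δ^N W ≡ kd W'` by induction
(`p + 1 + |R| < k`); `kd (δ^N P - L_j W') ∈ idL (R₁ ∪ R)`, induction again with `p + |R| < k`.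
-/

open MvPolynomial Matrix Finset

noncomputable section

namespace RFL

/-- the untwisted version (`t = 0`) -/
theorem chase₀ {m k : ℕ} (b : Fin m → Fin (m + 1) → Pol (m + 1))
    (v : Fin k → Vec (m + 1)) (hv : LinearIndependent ℂ v)
    (R₂ : Finset (Fin m))
    (hprime : ∀ R' ⊂ R₂, (idL b R').IsPrime)
    (hnot : ∀ R' ⊂ R₂, ∀ j ∈ R₂, j ∉ R' → Lf b j ∉ idL b R')
    (p : ℕ) (hp : p + R₂.card < k) (P : Finset (Fin k) → PT (m + 1))
    (hP : ∀ I, I.card ≠ p → P I = 0)
    (hd : ∀ I, kd (fun i => (C (lin (v i)) : PT (m + 1))) P I ∈ idL b R₂) :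
    ∃ (P' : Finset (Fin k) → PT (m + 1)), (∀ I, I.card + 1 ≠ p → P' I = 0) ∧
      ∀ I, P I - kd (fun i => (C (lin (v i)) : PT (m + 1))) P' I ∈ idL b R₂ := by
  have himg : ∀ R : Finset (Fin m),
      (Finset.univ.image (fun i : Fin 0 => (i.elim0 : Fin m))) ∪ R = R := by
    intro R
    rw [Finset.univ_eq_empty, Finset.image_empty, Finset.empty_union]
  obtain ⟨N, P', h1, h2⟩ := chase (t := 0) b (fun i => i.elim0) (fun i => i.elim0) v hv R₂
    (by rw [Finset.univ_eq_empty, Finset.image_empty]; exact Finset.disjoint_empty_left _)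
    (by
      intro R' hR'
      rw [himg]
      exact hprime R' hR')
    (by
      intro R' hR' j hj hj'
      rw [himg]
      exact hnot R' hR' j hj hj')
    p hp P hP (by
      intro I
      rw [himg]
      exact hd I)
  refine ⟨P', h1, fun I => ?_⟩
  have h3 := h2 I
  rw [himg, Matrix.det_isEmpty, one_pow, C_1, one_mul] at h3
  exact h3

/-- degree zero case: an element killed by powers of `k > |R₂|` independent linear forms is
`δ`-torsion. (Induction on the sum of the exponents; `chase` with `p = 0`.) -/
theorem chase_zero {m t k : ℕ} (b : Fin m → Fin (m + 1) → Pol (m + 1)) (r : Fin t → Fin m)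
    (c : Fin t → Fin (m + 1)) (v : Fin k → Vec (m + 1)) (hv : LinearIndependent ℂ v)
    (R₂ : Finset (Fin m)) (hdisj : Disjoint (univ.image r) R₂)
    (hprime : ∀ R' ⊂ R₂, (idL b (univ.image r ∪ R')).IsPrime)
    (hnot : ∀ R' ⊂ R₂, ∀ j ∈ R₂, j ∉ R' → Lf b j ∉ idL b (univ.image r ∪ R'))
    (hp : R₂.card < k) (P : PT (m + 1)) (M : ℕ)
    (hd : ∀ i, C (lin (v i) ^ M) * P ∈ idL b (univ.image r ∪ R₂)) :
    ∃ N : ℕ, C ((Matrix.of fun i j => b (r i) (c j)).det ^ N) * P ∈
      idL b (univ.image r ∪ R₂) := by
  classical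
  obtain ⟨δ, hδ⟩ : ∃ δ, δ = (Matrix.of fun i j => b (r i) (c j)).det := ⟨_, rfl⟩
  rw [← hδ]
  -- the case of exponents one
  have base : ∀ P : PT (m + 1), (∀ i, C (lin (v i)) * P ∈ idL b (univ.image r ∪ R₂)) →
      ∃ N : ℕ, C (δ ^ N) * P ∈ idL b (univ.image r ∪ R₂) := by
    intro P hP
    obtain ⟨N, P', h1, h2⟩ := chase b r c v hv R₂ hdisj hprime hnot 0 (by omega)
      (fun I => if I = ∅ then P else 0) (by
        intro I hI
        have : I ≠ ∅ := by
          rintro rfl
          exact hI Finset.card_empty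
        show (if I = ∅ then P else 0) = 0
        rw [if_neg this]) (by
        intro I
        unfold kd
        apply Ideal.sum_mem
        intro i hi
        show ((sg i I : ℤ) : PT (m + 1)) * C (lin (v i)) * (if I.erase i = ∅ then P else 0) ∈ _
        split_ifs with h
        · rw [mul_assoc]
          exact Ideal.mul_mem_left _ _ (hP i)
        · rw [mul_zero]
          exact Ideal.zero_mem _)
    refine ⟨N, ?_⟩
    have h3 := h2 ∅
    rw [← hδ] at h3
    have h4 : kd (fun i => (C (lin (v i)) : PT (m + 1))) P' ∅ = 0 := by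
      unfold kd
      exact Finset.sum_empty
    rw [h4, sub_zero] at h3
    simpa using h3
  -- the general case
  have main : ∀ s : ℕ, ∀ (e : Fin k → ℕ) (P : PT (m + 1)), ∑ i, e i = s →
      (∀ i, C (lin (v i) ^ e i) * P ∈ idL b (univ.image r ∪ R₂)) →
      ∃ N : ℕ, C (δ ^ N) * P ∈ idL b (univ.image r ∪ R₂) := by
    intro s
    induction s using Nat.strong_induction_on with
    | _ s ih =>
      intro e P hs hP
      by_cases h0 : ∃ i, e i = 0
      · obtain ⟨i, hi⟩ := h0
        refine ⟨0, ?_⟩
        have := hP i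
        rw [hi] at this
        simpa using this
      · have hpos : ∀ i, 1 ≤ e i := fun i => Nat.one_le_iff_ne_zero.2 (fun h => h0 ⟨i, h⟩)
        have hN : ∀ i, ∃ N : ℕ, C (δ ^ N) * (C (lin (v i)) * P) ∈
            idL b (univ.image r ∪ R₂) := by
          intro i
          have hlt : ∑ j, (Function.update e i (e i - 1)) j < s := by
            rw [← hs]
            apply Finset.sum_lt_sum
            · intro j _
              by_cases hj : j = i
              · subst hj
                rw [Function.update_self]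
                omega
              · rw [Function.update_of_ne hj]
            · refine ⟨i, Finset.mem_univ i, ?_⟩
              rw [Function.update_self]
              have := hpos i
              omega
          apply ih _ hlt (Function.update e i (e i - 1)) _ rfl
          intro j
          by_cases hj : j = i
          · subst hj
            rw [Function.update_self, ← mul_assoc, ← C_mul, ← pow_succ,
              Nat.sub_add_cancel (hpos j)]
            exact hP j
          · rw [Function.update_of_ne hj]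
            have e1 : C (lin (v j) ^ e j) * (C (lin (v i)) * P) =
                C (lin (v i)) * (C (lin (v j) ^ e j) * P) := by ring
            rw [e1]
            exact Ideal.mul_mem_left _ _ (hP j)
        choose N hN using hN
        obtain ⟨N', hN'⟩ := base (C (δ ^ (∑ i, N i)) * P) (by
          intro i
          have e1 : (∑ j, N j) = N i + ∑ j ∈ Finset.univ.erase i, N j :=
            (Finset.add_sum_erase _ _ (Finset.mem_univ i)).symm
          have e2 : C (lin (v i)) * (C (δ ^ (∑ j, N j)) * P) =
              C (δ ^ (∑ j ∈ Finset.univ.erase i, N j)) *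
                (C (δ ^ N i) * (C (lin (v i)) * P)) := by
            rw [e1, pow_add, C_mul]
            ring
          rw [e2]
          exact Ideal.mul_mem_left _ _ (hN i))
        refine ⟨N' + ∑ i, N i, ?_⟩
        rw [pow_add, C_mul, mul_assoc]
        exact hN'
  exact main _ (fun _ => M) P rfl hd

end RFL
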