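import Pool.Agent.RFL.Elim

/-!
# RFL-G3 : the (δ-twisted) Koszul chase

`A = PT (m+1)`, `y i = C (lin (v i))`, `v : Fin k → Vec` independent, `r, c, δ` as in `exists_elim'`,
`R₁ = image r`. For a finset `R₂` of rows disjoint from `R₁` such that all `idL (R₁ ∪ R')`, `R' ⊂ R₂`
proper, are prime and `L_j ∉ idL (R₁ ∪ R')` for `j ∈ R₂ \ R'`:

if `p + |R₂| < k`, `P` is a cochain in degree `p` with all `kd y P I ∈ idL (R₁ ∪ R₂)`, then there are
`N` and a cochain `P'` in degree `p - 1` with `δ^N P - kd y P' ∈ idL (R₁ ∪ R₂)`.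

Induction on `R₂`. `R₂ = ∅`: for each `T`-degree `e` (components: `idL_hc`, `kd` commutes with
`homogeneousComponent e`) `ψ P_e` is a cocycle (`ψ` is a `Pol`-algebra map, kills `idL R₁`), so
`ψ P_e = kd P'_e` (`kosT_exact`), and `δ^e P_e ≡ ψ P_e`. Multiply by `δ^{N-e}`, sum over `e ≤ N`.
`R₂ = insert j R`: `kd P I = L_j W I + idL (R₁ ∪ R)` (`mem_idL_insert`), choose `W` a cochain in degree
`p + 1`. `0 = kd (kd P) ≡ L_j kd W`, prime: `kd W ∈ idL (R₁ ∪ R)`; `δ^N W ≡ kd W'` by induction
(`p + 1 + |R| < k`); `kd (δ^N P - L_j W') ∈ idL (R₁ ∪ R)`, induction again with `p + |R| < k`.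
-/

open MvPolynomial Matrix Finset

noncomputable section

namespace RFL

namespace ChaseA

/-- `kd` commutes with `Pol`-linear maps of `PT`. -/
theorem kd_lin {n k : ℕ} (φ : PT n →ₗ[Pol n] PT n) (y : Fin k → Pol n) (P : Finset (Fin k) → PT n)
    (I : Finset (Fin k)) :
    kd (fun i => (C (y i) : PT n)) (fun I => φ (P I)) I = φ (kd (fun i => (C (y i) : PT n)) P I) := by
  simp only [kd, map_sum]
  refine Finset.sum_congr rfl fun i _ => ?_
  have h : ∀ (z : ℤ) (a : Pol n) (q : PT n), (z : PT n) * C a * q = ((z : Pol n) * a) • q := by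
    intro z a q
    rw [MvPolynomial.smul_eq_C_mul, C_mul, map_intCast]
  rw [h, h, map_smul]

/-- the base of the induction. -/
theorem base {m t k : ℕ} (b : Fin m → Fin (m + 1) → Pol (m + 1)) (r : Fin t → Fin m)
    (c : Fin t → Fin (m + 1)) (v : Fin k → Vec (m + 1)) (hv : LinearIndependent ℂ v)
    (p : ℕ) (hp : p < k) (P : Finset (Fin k) → PT (m + 1))
    (hP : ∀ I, I.card ≠ p → P I = 0)
    (hd : ∀ I, kd (fun i => (C (lin (v i)) : PT (m + 1))) P I ∈ idL b (univ.image r)) :
    ∃ (N : ℕ) (P' : Finset (Fin k) → PT (m + 1)), (∀ I, I.card + 1 ≠ p → P' I = 0) ∧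
      ∀ I, C ((Matrix.of fun i j => b (r i) (c j)).det ^ N) * P I -
        kd (fun i => (C (lin (v i)) : PT (m + 1))) P' I ∈ idL b (univ.image r) := by
  obtain ⟨ψ, hψ0, _, hψ⟩ := exists_elim' b r c
  set δ := (Matrix.of fun i j => b (r i) (c j)).det with hδ
  set N : ℕ := univ.sup (fun I => (P I).totalDegree) with hN
  have hsum : ∀ I, P I = ∑ e ∈ range (N + 1), homogeneousComponent e (P I) := by
    intro I
    have hle : (P I).totalDegree ≤ N := Finset.le_sup (f := fun I => (P I).totalDegree) (mem_univ I)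
    conv_lhs => rw [← sum_homogeneousComponent (P I)]
    refine Finset.sum_subset (Finset.range_mono (by omega)) fun e _ he => ?_
    refine homogeneousComponent_eq_zero _ _ ?_
    simpa using he
  -- the linear map `Q ↦ ψ (∑ δ^(N-e) Q_e)`
  let φ : PT (m + 1) →ₗ[Pol (m + 1)] PT (m + 1) :=
    ψ.toLinearMap ∘ₗ (∑ e ∈ range (N + 1), (δ ^ (N - e)) • homogeneousComponent e)
  have hφ : ∀ q, φ q = ∑ e ∈ range (N + 1), C (δ ^ (N - e)) * ψ (homogeneousComponent e q) := by
    intro q
    simp only [φ, LinearMap.comp_apply, LinearMap.sum_apply, LinearMap.smul_apply, map_sum]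
    refine Finset.sum_congr rfl fun e _ => ?_
    rw [AlgHom.toLinearMap_apply, map_smul, MvPolynomial.smul_eq_C_mul]
  have hψker : ∀ q ∈ idL b (univ.image r), ψ q = 0 := by
    intro q hq
    have hle : idL b (univ.image r) ≤ RingHom.ker ψ.toRingHom := by
      rw [idL, Ideal.span_le]
      rintro _ ⟨j, hj, rfl⟩
      simp only [coe_image, coe_univ, Set.image_univ, Set.mem_range] at hj
      obtain ⟨i, rfl⟩ := hj
      exact hψ0 i
    exact hle hq
  have hφker : ∀ q ∈ idL b (univ.image r), φ q = 0 := by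
    intro q hq
    rw [hφ]
    refine Finset.sum_eq_zero fun e _ => ?_
    rw [hψker _ (idL_hc b _ q hq e), mul_zero]
  have hex := kosT_exact v hv p hp (fun I => φ (P I)) (fun I hI => by simp only [hP I hI, map_zero]) (by
    funext I
    rw [kd_lin φ (fun i => lin (v i)) P I, hφker _ (hd I)]
    rfl)
  obtain ⟨P', hP', hkd⟩ := hex
  refine ⟨N, P', hP', fun I => ?_⟩
  rw [hkd]
  have h1 : C (δ ^ N) * P I - φ (P I) = ∑ e ∈ range (N + 1), C (δ ^ (N - e)) *
      (C (δ ^ e) * homogeneousComponent e (P I) - ψ (homogeneousComponent e (P I))) := by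
    have h2 : C (δ ^ N) * P I =
        ∑ e ∈ range (N + 1), C (δ ^ (N - e)) * (C (δ ^ e) * homogeneousComponent e (P I)) := by
      calc C (δ ^ N) * P I = C (δ ^ N) * ∑ e ∈ range (N + 1), homogeneousComponent e (P I) := by rw [← hsum I]
        _ = _ := by
          rw [Finset.mul_sum]
          refine Finset.sum_congr rfl fun e he => ?_
          have he' : e ≤ N := by
            have := Finset.mem_range.1 he
            omega
          rw [← mul_assoc, ← C_mul, ← pow_add, Nat.sub_add_cancel he']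
    rw [hφ, h2, ← Finset.sum_sub_distrib]
    refine Finset.sum_congr rfl fun e _ => ?_
    rw [mul_sub]
  rw [h1]
  refine Ideal.sum_mem _ fun e _ => Ideal.mul_mem_left _ _ (hψ e _ (homogeneousComponent_isHomogeneous e _))

end ChaseA

theorem chase {m t k : ℕ} (b : Fin m → Fin (m + 1) → Pol (m + 1)) (r : Fin t → Fin m)
    (c : Fin t → Fin (m + 1)) (v : Fin k → Vec (m + 1)) (hv : LinearIndependent ℂ v)
    (R₂ : Finset (Fin m)) (hdisj : Disjoint (univ.image r) R₂)
    (hprime : ∀ R' ⊂ R₂, (idL b (univ.image r ∪ R')).IsPrime)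
    (hnot : ∀ R' ⊂ R₂, ∀ j ∈ R₂, j ∉ R' → Lf b j ∉ idL b (univ.image r ∪ R'))
    (p : ℕ) (hp : p + R₂.card < k) (P : Finset (Fin k) → PT (m + 1))
    (hP : ∀ I, I.card ≠ p → P I = 0)
    (hd : ∀ I, kd (fun i => (C (lin (v i)) : PT (m + 1))) P I ∈ idL b (univ.image r ∪ R₂)) :
    ∃ (N : ℕ) (P' : Finset (Fin k) → PT (m + 1)), (∀ I, I.card + 1 ≠ p → P' I = 0) ∧
      ∀ I, C ((Matrix.of fun i j => b (r i) (c j)).det ^ N) * P I -
        kd (fun i => (C (lin (v i)) : PT (m + 1))) P' I ∈ idL b (univ.image r ∪ R₂) := by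
  induction R₂ using Finset.induction_on generalizing p P with
  | empty =>
    simp only [Finset.union_empty] at hd ⊢
    exact ChaseA.base b r c v hv p (by simpa using hp) P hP hd
  | insert j R hj ih =>
    set δ := (Matrix.of fun i j => b (r i) (c j)).det with hδ
    set y : Fin k → PT (m + 1) := fun i => (C (lin (v i)) : PT (m + 1)) with hy
    rw [Finset.card_insert_of_notMem hj] at hp
    have hss : R ⊂ insert j R := Finset.ssubset_insert hj
    have hpr : (idL b (univ.image r ∪ R)).IsPrime := hprime R hss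
    have hn : Lf b j ∉ idL b (univ.image r ∪ R) := hnot R hss j (Finset.mem_insert_self j R) hj
    have hins : univ.image r ∪ insert j R = insert j (univ.image r ∪ R) := by
      rw [Finset.union_insert]
    have hIH := ih (hdisj.mono_right (Finset.subset_insert j R))
      (fun R' h => hprime R' (h.trans hss))
      (fun R' h i hi => hnot R' (h.trans hss) i (Finset.mem_insert_of_mem hi))
    have hW : ∀ I, ∃ W, (I.card ≠ p + 1 → W = 0) ∧ kd y P I - Lf b j * W ∈ idL b (univ.image r ∪ R) := by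
      intro I
      by_cases hI : I.card = p + 1
      · have h1 := hd I
        rw [hins, mem_idL_insert] at h1
        obtain ⟨W, hW⟩ := h1
        exact ⟨W, fun h => absurd hI h, hW⟩
      · refine ⟨0, fun _ => rfl, ?_⟩
        rw [kd_supp y p P hP I hI]
        simp
    choose W hW0 hW using hW
    have hsm : ∀ (a : PT (m + 1)) (Q : Finset (Fin k) → PT (m + 1)) (I : Finset (Fin k)),
        kd y (fun I => a * Q I) I = a * kd y Q I := fun a Q I => congrFun (kd_smul y a Q) I
    have hkW : ∀ I, kd y W I ∈ idL b (univ.image r ∪ R) := by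
      intro I
      have h1 : Lf b j * kd y W I ∈ idL b (univ.image r ∪ R) := by
        have h2 := kd_mem y (idL b (univ.image r ∪ R)) (kd y P - fun I => Lf b j * W I) hW I
        rw [kd_sub, kd_kd] at h2
        simp only [Pi.sub_apply, Pi.zero_apply, zero_sub, hsm] at h2
        exact (Ideal.neg_mem_iff _).1 h2
      exact (hpr.mem_or_mem h1).resolve_left hn
    obtain ⟨N₁, W', hW'0, hW'⟩ := hIH (p + 1) (by omega) W hW0 hkW
    have hW'0' : ∀ I, I.card ≠ p → W' I = 0 := fun I hI => hW'0 I (by omega)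
    have hP1 : ∀ I : Finset (Fin k), I.card ≠ p → C (δ ^ N₁) * P I - Lf b j * W' I = 0 := by
      intro I hI
      rw [hP I hI, hW'0' I hI]
      simp
    have hkP1 : ∀ I, kd y (fun I => C (δ ^ N₁) * P I - Lf b j * W' I) I ∈ idL b (univ.image r ∪ R) := by
      intro I
      have h2 : kd y (fun I => C (δ ^ N₁) * P I - Lf b j * W' I) I =
          C (δ ^ N₁) * (kd y P I - Lf b j * W I) + Lf b j * (C (δ ^ N₁) * W I - kd y W' I) := by
        have h3 := congrFun (kd_sub y (fun I => C (δ ^ N₁) * P I) (fun I => Lf b j * W' I)) I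
        rw [Pi.sub_apply, hsm, hsm] at h3
        refine Eq.trans h3 ?_
        ring
      rw [h2]
      exact Ideal.add_mem _ (Ideal.mul_mem_left _ _ (hW I)) (Ideal.mul_mem_left _ _ (hW' I))
    obtain ⟨N₂, P', hP'0, hP'⟩ := hIH p (by omega) _ hP1 hkP1
    refine ⟨N₁ + N₂, P', hP'0, fun I => ?_⟩
    rw [hins, mem_idL_insert]
    refine ⟨C (δ ^ N₂) * W' I, ?_⟩
    have h4 := hP' I
    have h5 : C (δ ^ (N₁ + N₂)) * P I - kd y P' I - Lf b j * (C (δ ^ N₂) * W' I) =
        C (δ ^ N₂) * (C (δ ^ N₁) * P I - Lf b j * W' I) - kd y P' I := by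
      rw [pow_add, C_mul]
      ring
    rw [h5]
    exact h4

end RFL
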