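import Pool.Agent.RFL.Base

/-!
# RFL-E1 : Chevalley's lemma

`dvd_act_sub`: for the reflection `s i`: `act (s i) f - f` vanishes on `H_i`, so `al i` divides it.

`chevalley`: `r j` invariant, `u j ∈ Pol n`, `∑ r_j u_j = 0`, `u_{j₀}` homogeneous of degree `d`,
`r_{j₀} ∉ Ideal.span {r j | j ≠ j₀}`. Then `u_{j₀} ∈ Ip`. Induction on `d` (for all `u`).
`d = 0`: `u_{j₀} = c`; `c ≠ 0` would give `r_{j₀} ∈ span`. So `u_{j₀} = 0`.
`d > 0`: for each `i` let `Δ f = quo (al i) (act (s i) f - f)` (linear in `f`, kills invariants: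
`Δ (r f) = r Δ f`). `∑ r_j Δ u_j = 0`, `Δ u_{j₀}` homogeneous of degree `d-1`, so in `Ip`; so
`act (s i) u_{j₀} - u_{j₀} ∈ Ip`. `Ip` is stable under `act g`. As the `s i` generate `G` (`gen`),
`act g u - u ∈ Ip` for all `g`; averaging `u ≡ av u mod Ip`, and `av u` is invariant, homogeneous of
degree `d > 0`, so in `Ip`.
-/

open MvPolynomial Matrix Finset

noncomputable section

namespace RFL

namespace Chev

/-- a factor of a homogeneous polynomial by a homogeneous polynomial. -/
theorem hom_of_mul {n : ℕ} {a f : Pol n} {d e : ℕ} (ha : a.IsHomogeneous e) (ha0 : a ≠ 0)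
    (h : (a * f).IsHomogeneous (e + d)) : f.IsHomogeneous d := by
  have h1 : homogeneousComponent (e + d) (a * f) = a * homogeneousComponent d f := by
    conv_lhs => rw [← sum_homogeneousComponent f, Finset.mul_sum, map_sum]
    have h2 : ∀ k, homogeneousComponent (e + d) (a * homogeneousComponent k f) =
        if k = d then a * homogeneousComponent k f else 0 := by
      intro k
      rw [homogeneousComponent_of_mem ((mem_homogeneousSubmodule _ _).2
        (ha.mul (homogeneousComponent_isHomogeneous k f)))]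
      by_cases hk : k = d
      · simp [hk]
      · rw [if_neg hk, if_neg (by omega)]
    rw [Finset.sum_congr rfl fun k _ => h2 k, Finset.sum_ite_eq' (range (f.totalDegree + 1)) d]
    split_ifs with hd
    · rfl
    · rw [homogeneousComponent_eq_zero, mul_zero]
      simpa using hd
  have h3 : homogeneousComponent (e + d) (a * f) = a * f := by
    rw [homogeneousComponent_of_mem ((mem_homogeneousSubmodule _ _).2 h), if_pos rfl]
  rw [h3] at h1
  rw [mul_left_cancel₀ ha0 h1]
  exact homogeneousComponent_isHomogeneous d f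

end Chev

namespace RD

variable {n : ℕ} (D : RD n)

theorem dvd_act_sub (i : D.ι) (f : Pol n) : D.al i ∣ D.act (D.s i) f - f := by
  rw [al_dvd_iff]
  intro x hx
  have h1 : D.ρ (D.s i) *ᵥ x = x := by
    rw [smul_refl, hx]
    simp
  have h2 : D.ρ (D.s i)⁻¹ *ᵥ x = x := by
    have := D.rho_inv_mul (D.s i) x
    rwa [h1] at this
  rw [map_sub, eval_act, h2, sub_self]

theorem av_inv (f : Pol n) (g : D.G) : D.act g (D.av f) = D.av f := by
  have h1 : D.act g (C ((Fintype.card D.G : ℂ)⁻¹)) = C ((Fintype.card D.G : ℂ)⁻¹) := (D.act g).commutes _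
  have h2 : ∑ g', D.act g (D.act g' f) = ∑ g', D.act g' f := by
    rw [← Equiv.sum_comp (Equiv.mulLeft g) (fun g' => D.act g' f)]
    exact Finset.sum_congr rfl fun g' _ => D.act_act g g' f
  rw [av, map_mul, map_sum, h1, h2]

theorem av_of_inv (f : Pol n) (hf : ∀ g, D.act g f = f) : D.av f = f := by
  have hc : (Fintype.card D.G : ℂ) ≠ 0 := Nat.cast_ne_zero.2 Fintype.card_ne_zero
  rw [av]
  simp only [hf, Finset.sum_const, Finset.card_univ, nsmul_eq_mul]
  rw [← map_natCast (C : ℂ →+* Pol n), ← mul_assoc, ← C_mul, inv_mul_cancel₀ hc, C_1, one_mul]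

theorem av_mul_inv (f u : Pol n) (hf : ∀ g, D.act g f = f) : D.av (f * u) = f * D.av u := by
  rw [av, av]
  simp only [map_mul, hf]
  rw [← Finset.mul_sum]
  ring

theorem av_hom (f : Pol n) (d : ℕ) (hf : f.IsHomogeneous d) : (D.av f).IsHomogeneous d := by
  rw [av]
  have h1 := IsHomogeneous.sum (univ : Finset D.G) (fun g => D.act g f) d (fun g _ => D.act_hom g f d hf)
  have h2 := (isHomogeneous_C (Fin n) ((Fintype.card D.G : ℂ)⁻¹)).mul h1
  rwa [zero_add] at h2

theorem Ip_stable (g : D.G) {f : Pol n} (hf : f ∈ D.Ip) : D.act g f ∈ D.Ip := by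
  have hle : D.Ip ≤ D.Ip.comap (D.act g).toRingHom := by
    conv_lhs => rw [Ip]
    rw [Ideal.span_le]
    rintro f ⟨d, hd, hf, hg⟩
    refine Ideal.mem_comap.2 (Ideal.subset_span ?_)
    change ∃ d, 0 < d ∧ (D.act g f).IsHomogeneous d ∧ ∀ g', D.act g' (D.act g f) = D.act g f
    rw [hg g]
    exact ⟨d, hd, hf, hg⟩
  exact hle hf

theorem chevalley {T : Type} [Fintype T] [DecidableEq T] (r u : T → Pol n)
    (hr : ∀ j g, D.act g (r j) = r j) (hru : ∑ j, r j * u j = 0) (j₀ : T) (d : ℕ)
    (hd : (u j₀).IsHomogeneous d) (hj : r j₀ ∉ Ideal.span (r '' {j | j ≠ j₀})) :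
    u j₀ ∈ D.Ip := by
  induction d generalizing u with
  | zero =>
    obtain ⟨c, h1⟩ : ∃ c, u j₀ = C c := by
      refine ⟨coeff 0 (u j₀), ?_⟩
      rw [← totalDegree_eq_zero_iff_eq_C]
      exact Nat.le_zero.1 hd.totalDegree_le
    have h2 : c = 0 := by
      by_contra hc
      apply hj
      have h3 : r j₀ = - C c⁻¹ * ∑ j ∈ univ.erase j₀, r j * u j := by
        have h4 : r j₀ * C c + ∑ j ∈ univ.erase j₀, r j * u j = 0 := by
          rw [← h1, Finset.add_sum_erase _ (fun j => r j * u j) (mem_univ j₀)]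
          exact hru
        have h6 : (C c⁻¹ : Pol n) * C c = 1 := by
          rw [← C_mul, inv_mul_cancel₀ hc, C_1]
        generalize (∑ j ∈ univ.erase j₀, r j * u j) = S at h4 ⊢
        generalize (C c : Pol n) = c' at h4 h6
        generalize (C c⁻¹ : Pol n) = c'' at h6 ⊢
        generalize r j₀ = r' at h4 ⊢
        linear_combination c'' * h4 - r' * h6
      rw [h3]
      refine Ideal.mul_mem_left _ _ (Ideal.sum_mem _ fun j hj' => Ideal.mul_mem_right _ _ (Ideal.subset_span ?_))
      exact ⟨j, (Finset.mem_erase.1 hj').1, rfl⟩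
    rw [h1, h2, C_0]
    exact zero_mem _
  | succ d ih =>
    have hs : ∀ i, D.act (D.s i) (u j₀) - u j₀ ∈ D.Ip := by
      intro i
      have hq : ∀ j, D.al i * quo (D.al i) (D.act (D.s i) (u j) - u j) = D.act (D.s i) (u j) - u j :=
        fun j => quo_spec (D.dvd_act_sub i (u j))
      have h1 : ∑ j, r j * quo (D.al i) (D.act (D.s i) (u j) - u j) = 0 := by
        refine mul_left_cancel₀ (D.al_ne i) ?_
        rw [mul_zero, Finset.mul_sum]
        calc ∑ j, D.al i * (r j * quo (D.al i) (D.act (D.s i) (u j) - u j))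
            = ∑ j, (D.act (D.s i) (r j * u j) - r j * u j) := by
              refine Finset.sum_congr rfl fun j _ => ?_
              rw [map_mul, hr, mul_left_comm, hq j, mul_sub]
          _ = 0 := by
              rw [Finset.sum_sub_distrib, ← map_sum, hru, map_zero, sub_zero]
      have h2 : (quo (D.al i) (D.act (D.s i) (u j₀) - u j₀)).IsHomogeneous d := by
        refine Chev.hom_of_mul (lin_hom (D.a i)) (D.al_ne i) ?_
        have h3 := hq j₀
        rw [show lin (D.a i) = D.al i from rfl, h3, add_comm 1 d]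
        exact (D.act_hom _ _ _ hd).sub hd
      have h3 := ih (fun j => quo (D.al i) (D.act (D.s i) (u j) - u j)) h1 h2
      rw [← hq j₀]
      exact Ideal.mul_mem_left _ _ h3
    let H : Subgroup D.G :=
      { carrier := {g | D.act g (u j₀) - u j₀ ∈ D.Ip}
        mul_mem' := by
          intro g g' hg hg'
          change D.act (g * g') (u j₀) - u j₀ ∈ D.Ip
          rw [← act_act]
          have h1 := Ideal.add_mem _ (D.Ip_stable g hg') hg
          rw [map_sub] at h1
          simpa using h1
        one_mem' := by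
          change D.act 1 (u j₀) - u j₀ ∈ D.Ip
          rw [act_one, sub_self]
          exact zero_mem _
        inv_mem' := by
          intro g hg
          change D.act g⁻¹ (u j₀) - u j₀ ∈ D.Ip
          have h1 := D.Ip_stable g⁻¹ hg
          rw [map_sub, act_act, inv_mul_cancel, act_one] at h1
          rw [← neg_sub]
          exact (Ideal.neg_mem_iff _).2 h1 }
    have hH : ∀ g, D.act g (u j₀) - u j₀ ∈ D.Ip := by
      intro g
      have h1 : Subgroup.closure (Set.range D.s) ≤ H := by
        rw [Subgroup.closure_le]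
        rintro _ ⟨i, rfl⟩
        exact hs i
      rw [D.gen] at h1
      exact h1 (Subgroup.mem_top g)
    have hav : D.av (u j₀) ∈ D.Ip :=
      Ideal.subset_span ⟨d + 1, Nat.succ_pos d, D.av_hom _ _ hd, fun g => D.av_inv _ g⟩
    have hdiff : D.av (u j₀) - u j₀ ∈ D.Ip := by
      have hc : (Fintype.card D.G : ℂ) ≠ 0 := Nat.cast_ne_zero.2 Fintype.card_ne_zero
      have h1 : D.av (u j₀) - u j₀ = C ((Fintype.card D.G : ℂ)⁻¹) * ∑ g, (D.act g (u j₀) - u j₀) := by
        rw [Finset.sum_sub_distrib, mul_sub, av]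
        simp only [Finset.sum_const, Finset.card_univ, nsmul_eq_mul]
        rw [← map_natCast (C : ℂ →+* Pol n), ← mul_assoc, ← C_mul, inv_mul_cancel₀ hc, C_1, one_mul]
      rw [h1]
      exact Ideal.mul_mem_left _ _ (Ideal.sum_mem _ fun g _ => hH g)
    have h2 := Ideal.sub_mem _ hav hdiff
    rwa [sub_sub_cancel] at h2

end RD

end RFL
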