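import Pool.Agent.RFL.Base

/-!
# RFL-B3 : combinatorics of lines (rank two flats) and the numerical identities

Lines: for `k ∈ line i j`, `k ≠ i` (`i ≠ j`) one has `line i k = line i j`. Hence the sets
`L.erase i`, `L ∈ lines i`, partition `univ.erase i`.

Irreducible case: `T = ∑_k P_k` commutes with all `ρ g`, hence with all `P_k`; an eigenspace of `T`
is stable under all `P_k`, so it is everything: `T = λ`, trace: `n λ = N` (`Irr_T`).
Applying `ip (a i)` to `T (a i) = (N/n) a i`: `∑_k |ip (a k) (a i)|^2 = N/n`; by `TX`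
`∑_{k ∈ L} |ip (a k) (a i)|^2 = |L|/2` for `L ∈ lines i`; so
`N/n - 1 = ∑_{L ∈ lines i} (|L|/2 - 1)`, `N - 1 = ∑_{L ∈ lines i} (|L| - 1)` and
`|lines i| = N + 1 - 2N/n`.
-/

open MvPolynomial Matrix Finset

noncomputable section

namespace RFL

namespace RD

variable {n : ℕ} (D : RD n)

theorem mem_line_iff {i j k : D.ι} :
    k ∈ D.line i j ↔ D.a k ∈ Submodule.span ℂ {D.a i, D.a j} := by
  simp [line]

theorem mem_line_left (i j : D.ι) : i ∈ D.line i j := by
  rw [mem_line_iff]
  exact Submodule.subset_span (by simp)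

theorem mem_line_right (i j : D.ι) : j ∈ D.line i j := by
  rw [mem_line_iff]
  exact Submodule.subset_span (by simp)

theorem line_span {i j k : D.ι} (hij : i ≠ j) (hk : k ∈ D.line i j) (hki : k ≠ i) :
    Submodule.span ℂ {D.a i, D.a k} = Submodule.span ℂ {D.a i, D.a j} := by
  rw [mem_line_iff] at hk
  have hi1 : D.a i ∈ Submodule.span ℂ {D.a i, D.a k} := Submodule.subset_span (by simp)
  have hk1 : D.a k ∈ Submodule.span ℂ {D.a i, D.a k} := Submodule.subset_span (by simp)
  have hi2 : D.a i ∈ Submodule.span ℂ {D.a i, D.a j} := Submodule.subset_span (by simp)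
  obtain ⟨x, y, hxy⟩ := Submodule.mem_span_pair.mp hk
  have hy : y ≠ 0 := by
    rintro rfl
    apply D.a_notMem (Ne.symm hki)
    rw [← hxy]
    simp only [zero_smul, add_zero]
    exact Submodule.smul_mem _ _ (Submodule.mem_span_singleton_self _)
  have hj : D.a j ∈ Submodule.span ℂ {D.a i, D.a k} := by
    have h1 : D.a j = y⁻¹ • (D.a k - x • D.a i) := by
      rw [← hxy, add_sub_cancel_left, smul_smul, inv_mul_cancel₀ hy, one_smul]
    rw [h1]
    exact Submodule.smul_mem _ _ (Submodule.sub_mem _ hk1 (Submodule.smul_mem _ _ hi1))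
  apply le_antisymm
  · apply Submodule.span_le.mpr
    intro v hv
    rcases hv with hv | hv
    · rw [hv]; exact hi2
    · rw [Set.mem_singleton_iff.mp hv]; exact hk
  · apply Submodule.span_le.mpr
    intro v hv
    rcases hv with hv | hv
    · rw [hv]; exact hi1
    · rw [Set.mem_singleton_iff.mp hv]; exact hj

theorem line_eq {i j k : D.ι} (hij : i ≠ j) (hk : k ∈ D.line i j) (hki : k ≠ i) :
    D.line i k = D.line i j := by
  ext l
  rw [mem_line_iff, mem_line_iff, D.line_span hij hk hki]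

theorem line_comm (i j : D.ι) : D.line i j = D.line j i := by
  ext l
  rw [mem_line_iff, mem_line_iff, Set.pair_comm]

/-- two different elements determine the line -/
theorem line_eq' {i j k l : D.ι} (hij : i ≠ j) (hk : k ∈ D.line i j) (hl : l ∈ D.line i j)
    (hkl : k ≠ l) : D.line k l = D.line i j := by
  by_cases hki : k = i
  · subst hki
    exact D.line_eq hij hl (Ne.symm hkl)
  · have h1 : D.line i k = D.line i j := D.line_eq hij hk hki
    by_cases hli : l = i
    · subst hli
      rw [D.line_comm, h1]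
    · have h2 : l ∈ D.line k i := by rw [D.line_comm, h1]; exact hl
      rw [D.line_eq hki h2 (Ne.symm hkl), D.line_comm, h1]

theorem mem_lines {i : D.ι} {L : Finset D.ι} (hL : L ∈ D.lines i) :
    ∃ j, i ≠ j ∧ L = D.line i j := by
  classical
  simp only [lines, Finset.mem_image, Finset.mem_erase, Finset.mem_univ, and_true] at hL
  obtain ⟨j, hj, rfl⟩ := hL
  exact ⟨j, Ne.symm hj, rfl⟩

theorem line_mem_lines {i j : D.ι} (hij : i ≠ j) : D.line i j ∈ D.lines i := by
  classical
  simp only [lines, Finset.mem_image, Finset.mem_erase, Finset.mem_univ, and_true]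
  exact ⟨j, Ne.symm hij, rfl⟩

theorem rp_spec {i : D.ι} {L : Finset D.ι} (hL : L ∈ D.lines i) :
    D.rp i L ∈ L ∧ D.rp i L ≠ i := by
  obtain ⟨j, hij, rfl⟩ := D.mem_lines hL
  have h : ∃ k ∈ D.line i j, k ≠ i := ⟨j, D.mem_line_right i j, Ne.symm hij⟩
  have e : D.rp i (D.line i j) = h.choose := by
    rw [rp, dif_pos h]
  rw [e]
  exact h.choose_spec

theorem rp_mem {i : D.ι} {L : Finset D.ι} (hL : L ∈ D.lines i) : D.rp i L ∈ L :=
  (D.rp_spec hL).1

theorem rp_ne {i : D.ι} {L : Finset D.ι} (hL : L ∈ D.lines i) : i ≠ D.rp i L :=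
  Ne.symm (D.rp_spec hL).2

theorem line_rp {i : D.ι} {L : Finset D.ι} (hL : L ∈ D.lines i) : D.line i (D.rp i L) = L := by
  have h1 := D.rp_mem hL
  have h2 := D.rp_ne hL
  obtain ⟨j, hij, hLj⟩ := D.mem_lines hL
  rw [hLj] at h1 h2 ⊢
  exact D.line_eq hij h1 (Ne.symm h2)

theorem two_le_card {i : D.ι} {L : Finset D.ι} (hL : L ∈ D.lines i) : 2 ≤ L.card := by
  obtain ⟨j, hij, rfl⟩ := D.mem_lines hL
  exact Finset.one_lt_card.mpr ⟨i, D.mem_line_left i j, j, D.mem_line_right i j, hij⟩

theorem filter_line {i : D.ι} {L : Finset D.ι} (hL : L ∈ D.lines i) :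
    (univ.erase i).filter (fun j => D.line i j = L) = L.erase i := by
  obtain ⟨j, hij, rfl⟩ := D.mem_lines hL
  ext k
  simp only [Finset.mem_filter, Finset.mem_erase, Finset.mem_univ, and_true]
  constructor
  · rintro ⟨h1, h2⟩
    exact ⟨h1, by rw [← h2]; exact D.mem_line_right i k⟩
  · rintro ⟨h1, h2⟩
    exact ⟨h1, D.line_eq hij h2 h1⟩

/-- sum over all pairs of different indices, grouped by lines -/
theorem sum_lines {M : Type} [AddCommMonoid M] (i : D.ι) (F : D.ι → M) :
    ∑ j ∈ univ.erase i, F j = ∑ L ∈ D.lines i, ∑ j ∈ L.erase i, F j := by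
  classical
  rw [← Finset.sum_fiberwise_of_maps_to (s := univ.erase i) (t := D.lines i) (g := D.line i)]
  · exact Finset.sum_congr rfl fun L hL => by rw [D.filter_line hL]
  · intro j hj
    exact D.line_mem_lines (Ne.symm (Finset.ne_of_mem_erase hj))

/-- roots of different lines through `i` are independent modulo `a i` -/
theorem rp_indep {i : D.ι} {L L' : Finset D.ι} (hL : L ∈ D.lines i) (hL' : L' ∈ D.lines i)
    (h : L ≠ L') : D.a (D.rp i L') ∉ Submodule.span ℂ {D.a i, D.a (D.rp i L)} := by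
  intro hm
  rw [← D.mem_line_iff] at hm
  apply h
  rw [← D.line_rp hL, ← D.line_rp hL']
  exact (D.line_eq (D.rp_ne hL) hm (Ne.symm (D.rp_ne hL'))).symm

theorem sum_card_lines (i : D.ι) :
    ∑ L ∈ D.lines i, L.card + 1 = D.N + (D.lines i).card := by
  have h1 := D.sum_lines i (fun _ => (1 : ℕ))
  rw [Finset.sum_const, smul_eq_mul, mul_one, Finset.card_erase_of_mem (Finset.mem_univ i),
    Finset.card_univ] at h1
  have h2 : ∑ L ∈ D.lines i, L.card = ∑ L ∈ D.lines i, (∑ _j ∈ L.erase i, 1 + 1) := by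
    apply Finset.sum_congr rfl
    intro L hL
    have h3 := D.two_le_card hL
    have h4 : i ∈ L := by
      obtain ⟨j, _, rfl⟩ := D.mem_lines hL
      exact D.mem_line_left i j
    rw [Finset.sum_const, smul_eq_mul, mul_one, Finset.card_erase_of_mem h4]
    omega
  rw [h2, Finset.sum_add_distrib, ← h1, Finset.sum_const, smul_eq_mul, mul_one]
  have h5 : 0 < Fintype.card D.ι := Fintype.card_pos_iff.mpr ⟨i⟩
  unfold N
  omega

end RD

end RFL
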