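import Pool.Agent.RFL.TX
import Pool.Agent.RFL.Lines

/-!
# RFL-B3 : combinatorics of lines (rank two flats) and the numerical identities

Lines: for `k ∈ line i j`, `k ≠ i` (`i ≠ j`) one has `line i k = line i j`. Hence the sets
`L.erase i`, `L ∈ lines i`, partition `univ.erase i`.

Irreducible case: `T = ∑_k P_k` commutes with all `ρ g`, hence with all `P_k`; an eigenspace of `T`
is stable under all `P_k`, so it is everything: `T = λ`, trace: `n λ = N` (`Irr_T`).
Applying `ip (a i)` to `T (a i) = (N/n) a i`: `∑_k |ip (a k) (a i)|^2 = N/n`; by `TX`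
`∑_{k ∈ L} |ip (a k) (a i)|^2 = |L|/2` for `L ∈ lines i`; so
`N/n - 1 = ∑_{L ∈ lines i} (|L|/2 - 1)`, `N - 1 = ∑_{L ∈ lines i} (|L| - 1)` and
`|lines i| = N + 1 - 2N/n`.
-/

open MvPolynomial Matrix Finset

noncomputable section

namespace RFL

namespace CountI

/-- `ip a` as a linear map -/
def ipL {n : ℕ} (a : Vec n) : Vec n →ₗ[ℂ] ℂ where
  toFun := ip a
  map_add' := ip_add_right a
  map_smul' := by
    intro c v
    rw [ip_smul_right, RingHom.id_apply, smul_eq_mul]

theorem ipL_apply {n : ℕ} (a v : Vec n) : ipL a v = ip a v := rfl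

theorem ip_sum {n : ℕ} {α : Type*} (s : Finset α) (a : Vec n) (f : α → Vec n) :
    ip a (∑ k ∈ s, f k) = ∑ k ∈ s, ip a (f k) := by
  rw [← ipL_apply, map_sum]
  rfl

variable {n : ℕ} (D : RD n)

/-- the sum of the projections -/
def T : Vec n →ₗ[ℂ] Vec n := ∑ k, (ipL (D.a k)).smulRight (D.a k)

theorem T_apply (v : Vec n) : T D v = ∑ k, ip (D.a k) v • D.a k := by
  simp only [T, LinearMap.sum_apply, LinearMap.smulRight_apply, ipL_apply]

theorem T_comm (g : D.G) (v : Vec n) : D.ρ g *ᵥ (T D v) = T D (D.ρ g *ᵥ v) := by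
  obtain ⟨σ, c, hc, h⟩ := D.exists_perm g
  rw [T_apply, T_apply, Matrix.mulVec_sum, ← Equiv.sum_comp σ (fun k => ip (D.a k) (D.ρ g *ᵥ v) • D.a k)]
  refine Finset.sum_congr rfl (fun k _ => ?_)
  rw [Matrix.mulVec_smul, h k, smul_smul]
  congr 1
  have h1 : ip (D.ρ g *ᵥ D.a k) (D.ρ g *ᵥ v) = ip (D.a k) v := D.ip_rho g _ _
  rw [h k, ip_smul_left] at h1
  rw [← h1, mul_comm (star (c k) * _) (c k), ← mul_assoc, mul_comm (c k) (star (c k)), hc k, one_mul]

theorem T_proj (i : D.ι) (v : Vec n) :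
    ip (D.a i) v • T D (D.a i) = ip (D.a i) (T D v) • D.a i := by
  have h := T_comm D (D.s i) v
  rw [D.smul_refl, D.smul_refl, map_sub, map_smul, sub_right_inj, mul_smul, mul_smul] at h
  have h1 : (1 - D.ζ i) ≠ 0 := sub_ne_zero.2 (Ne.symm (D.ζne i))
  exact (smul_right_injective _ h1 h).symm

end CountI

namespace RD

variable {n : ℕ} (D : RD n)

/-- Schur's lemma -/
theorem Irr_T (hn : 1 ≤ n) (hI : D.Irr) (v : Vec n) :
    ∑ k, ip (D.a k) v • D.a k = ((D.N : ℂ) / n) • v := by
  rw [← CountI.T_apply]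
  have hnt : Nontrivial (Vec n) := by
    have : Nonempty (Fin n) := ⟨⟨0, hn⟩⟩
    infer_instance
  obtain ⟨μ, hμ⟩ := Module.End.exists_eigenvalue (CountI.T D)
  have htop : Module.End.eigenspace (CountI.T D) μ = ⊤ := by
    rcases hI (Module.End.eigenspace (CountI.T D) μ) (by
      intro i w hw
      rw [Module.End.mem_eigenspace_iff] at hw ⊢
      rw [map_smul, CountI.T_proj, hw, ip_smul_right, smul_smul]) with h | h
    · exact absurd h hμ
    · exact h
  have hT : ∀ w, CountI.T D w = μ • w := by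
    intro w
    have : w ∈ Module.End.eigenspace (CountI.T D) μ := by
      rw [htop]
      exact Submodule.mem_top
    exact Module.End.mem_eigenspace_iff.1 this
  have htr : (n : ℂ) * μ = D.N := by
    have h1 : ∑ j : Fin n, CountI.T D (Pi.single j 1) j = (n : ℂ) * μ := by
      have : ∀ j : Fin n, CountI.T D (Pi.single j 1) j = μ := by
        intro j
        rw [hT]
        simp
      rw [Finset.sum_congr rfl (fun j _ => this j)]
      simp
    have h2 : ∑ j : Fin n, CountI.T D (Pi.single j 1) j = D.N := by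
      have : ∀ j : Fin n, CountI.T D (Pi.single j 1) j = ∑ k, star (D.a k j) * D.a k j := by
        intro j
        rw [CountI.T_apply, Finset.sum_apply]
        refine Finset.sum_congr rfl (fun k _ => ?_)
        have : ip (D.a k) (Pi.single j 1) = star (D.a k j) := by
          unfold ip
          rw [Finset.sum_eq_single j]
          · simp
          · intro b _ hb
            simp [Pi.single_eq_of_ne hb]
          · intro h
            exact absurd (Finset.mem_univ j) h
        rw [Pi.smul_apply, this, smul_eq_mul]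
      rw [Finset.sum_congr rfl (fun j _ => this j), Finset.sum_comm]
      have h3 : ∀ k, ∑ j, star (D.a k j) * D.a k j = 1 := fun k => D.unit k
      rw [Finset.sum_congr rfl (fun k _ => h3 k)]
      simp [RD.N]
    rw [← h1, h2]
  have hn0 : (n : ℂ) ≠ 0 := by
    exact_mod_cast (by omega : n ≠ 0)
  rw [hT v, ← htr, mul_div_cancel_left₀ _ hn0]

theorem Irr_nonempty (hn : 2 ≤ n) (hI : D.Irr) : Nonempty D.ι := by
  by_contra hne
  rw [not_nonempty_iff] at hne
  have h0 : (0 : ℕ) < n := by omega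
  have h1 : (1 : ℕ) < n := by omega
  rcases hI (Submodule.span ℂ {(Pi.single ⟨0, h0⟩ 1 : Vec n)}) (fun i => (hne.false i).elim) with h | h
  · rw [Submodule.span_singleton_eq_bot] at h
    have := congrFun h ⟨0, h0⟩
    simp at this
  · have h2 : (Pi.single ⟨1, h1⟩ 1 : Vec n) ∈ Submodule.span ℂ {(Pi.single ⟨0, h0⟩ 1 : Vec n)} := by
      rw [h]
      exact Submodule.mem_top
    rw [Submodule.mem_span_singleton] at h2
    obtain ⟨c, hc⟩ := h2
    have h3 := congrFun hc ⟨1, h1⟩
    simp at h3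

theorem Irr_rank (hn : 2 ≤ n) (hI : D.Irr) : D.rank = n := by
  obtain ⟨i0⟩ := D.Irr_nonempty hn hI
  have htop : Submodule.span ℂ (Set.range D.a) = ⊤ := by
    rcases hI (Submodule.span ℂ (Set.range D.a)) (fun i w _ =>
      Submodule.smul_mem _ _ (Submodule.subset_span ⟨i, rfl⟩)) with h | h
    · exfalso
      have h1 : D.a i0 ∈ Submodule.span ℂ (Set.range D.a) := Submodule.subset_span ⟨i0, rfl⟩
      rw [h, Submodule.mem_bot] at h1
      exact D.a_ne i0 h1
    · exact h
  unfold RD.rank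
  rw [htop, finrank_top]
  simp [Vec]

theorem CountI_key (hn : 2 ≤ n) (hI : D.Irr) (i : D.ι) :
    2 * (D.N : ℂ) = n * ((D.N : ℂ) + 1 - (D.lines i).card) := by
  have hn0 : (n : ℂ) ≠ 0 := by
    exact_mod_cast (by omega : n ≠ 0)
  set f : D.ι → ℂ := fun k => ip (D.a k) (D.a i) * ip (D.a i) (D.a k) with hf
  have h1 : ∑ k, f k = (D.N : ℂ) / n := by
    have h := congrArg (fun w => ip (D.a i) w) (D.Irr_T (by omega) hI (D.a i))
    simp only [CountI.ip_sum, ip_smul_right, D.unit i, mul_one] at h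
    exact h
  have hfi : f i = 1 := by
    simp only [hf, D.unit i, mul_one]
  have h2 : ∀ L ∈ D.lines i, ∑ k ∈ L.erase i, f k = (L.card : ℂ) / 2 - 1 := by
    intro L hL
    obtain ⟨j, hij, rfl⟩ := D.mem_lines hL
    have h := congrArg (fun w => ip (D.a i) w) (D.TX hij (D.a i) (Submodule.subset_span (by simp)))
    simp only [CountI.ip_sum, ip_smul_right, D.unit i, mul_one] at h
    have h3 := Finset.add_sum_erase (D.line i j) f (D.mem_line_left i j)
    rw [hfi] at h3
    have h4 : ∑ k ∈ D.line i j, f k = ((D.line i j).card : ℂ) / 2 := h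
    rw [h4] at h3
    rw [← h3]
    ring
  have h5 := Finset.add_sum_erase Finset.univ f (Finset.mem_univ i)
  rw [hfi, h1, D.sum_lines i f, Finset.sum_congr rfl h2, Finset.sum_sub_distrib,
    ← Finset.sum_div] at h5
  have h6 : (∑ L ∈ D.lines i, (L.card : ℂ)) + 1 = D.N + (D.lines i).card := by
    exact_mod_cast D.sum_card_lines i
  have h7 : ∑ L ∈ D.lines i, (L.card : ℂ) = D.N + (D.lines i).card - 1 := by
    rw [← h6]
    ring
  rw [h7] at h5
  simp only [Finset.sum_const, nsmul_eq_mul, mul_one] at h5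
  have h8 : (D.N : ℂ) = n * (1 + ((D.N + (D.lines i).card - 1 : ℂ) / 2 - (D.lines i).card)) := by
    rw [h5, mul_div_cancel₀ _ hn0]
  linear_combination 2 * h8

theorem CountI_card_lines (i : D.ι) : (D.lines i).card + 1 ≤ D.N := by
  classical
  have h1 : (D.lines i).card ≤ (Finset.univ.erase i).card := Finset.card_image_le
  rw [Finset.card_erase_of_mem (Finset.mem_univ i), Finset.card_univ] at h1
  have h2 : 0 < Fintype.card D.ι := Fintype.card_pos_iff.2 ⟨i⟩
  unfold RD.N
  omega

theorem CountI_nat (hn : 2 ≤ n) (hI : D.Irr) (i : D.ι) :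
    n * (D.N + 1 - (D.lines i).card) = 2 * D.N := by
  have h1 := D.CountI_key hn hI i
  have h2 := D.CountI_card_lines i
  have h3 : ((n * (D.N + 1 - (D.lines i).card) : ℕ) : ℂ) = ((2 * D.N : ℕ) : ℂ) := by
    rw [Nat.cast_mul, Nat.cast_mul, Nat.cast_sub (by omega)]
    push_cast
    exact h1.symm
  exact_mod_cast h3

/-- `|A^H| = N + 1 - 2N/n` -/
theorem Irr_count (hn : 2 ≤ n) (hI : D.Irr) :
    ∃ h : ℕ, 2 ≤ h ∧ n * h = 2 * D.N ∧ ∀ i, (D.lines i).card + h = D.N + 1 := by
  obtain ⟨i0⟩ := D.Irr_nonempty hn hI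
  have h0 := D.CountI_card_lines i0
  refine ⟨D.N + 1 - (D.lines i0).card, by omega, D.CountI_nat hn hI i0, fun i => ?_⟩
  have h1 := D.CountI_nat hn hI i0
  have h2 := D.CountI_nat hn hI i
  rw [← h2] at h1
  have h3 := Nat.eq_of_mul_eq_mul_left (by omega : 0 < n) h1
  have h4 := D.CountI_card_lines i
  omega

/-- `T = h/2` -/
theorem Irr_Th (hn : 2 ≤ n) (hI : D.Irr) (h : ℕ) (hh : n * h = 2 * D.N) (v : Vec n) :
    ∑ k, ip (D.a k) v • D.a k = ((h : ℂ) / 2) • v := by
  rw [D.Irr_T (by omega) hI v]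
  congr 1
  have hn0 : (n : ℂ) ≠ 0 := by
    exact_mod_cast (by omega : n ≠ 0)
  have h1 : (n : ℂ) * h = 2 * D.N := by exact_mod_cast hh
  rw [div_eq_div_iff hn0 (by norm_num)]
  linear_combination -h1

/-- in rank `≥ 4` some rank two flat has only two hyperplanes -/
theorem Irr_double (hn : 4 ≤ n) (hI : D.Irr) : ∃ i j : D.ι, i ≠ j ∧ (D.line i j).card = 2 := by
  by_contra hcon
  push Not at hcon
  obtain ⟨i0⟩ := D.Irr_nonempty (by omega) hI
  have h3 : ∀ L ∈ D.lines i0, 3 ≤ L.card := by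
    intro L hL
    have h1 := D.two_le_card hL
    obtain ⟨j, hij, rfl⟩ := D.mem_lines hL
    have h2 := hcon i0 j hij
    omega
  have h4 : 3 * (D.lines i0).card ≤ ∑ L ∈ D.lines i0, L.card := by
    have := Finset.card_nsmul_le_sum (D.lines i0) (fun L => L.card) 3 h3
    rw [smul_eq_mul] at this
    omega
  have h5 := D.sum_card_lines i0
  have h6 := D.CountI_nat (by omega) hI i0
  have h7 := D.CountI_card_lines i0
  have h8 : 4 * (D.N + 1 - (D.lines i0).card) ≤ n * (D.N + 1 - (D.lines i0).card) :=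
    Nat.mul_le_mul_right _ hn
  omega

end RD

end RFL
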