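import Mathlib

/-!
# Reflection arrangements: basic definitions

`RD n` = a finite group `G` of unitary matrices generated by reflections `s i` with unit roots `a i`,
together with the fact (`full`) that every reflecting hyperplane of `G` is one of the `a i ^⊥`.
-/

open MvPolynomial Matrix Finset

noncomputable section

namespace RFL

/-- coordinate ring of `ℂ^n` -/
abbrev Pol (n : ℕ) := MvPolynomial (Fin n) ℂ
abbrev Vec (n : ℕ) := Fin n → ℂ
/-- polynomial vector fields -/
abbrev VF (n : ℕ) := Fin n → Pol n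

/-- Hermitian product, conjugate linear in the first variable -/
def ip {n : ℕ} (a v : Vec n) : ℂ := ∑ j, star (a j) * v j

/-- the linear form `v ↦ ⟨a, v⟩` as a polynomial -/
def lin {n : ℕ} (a : Vec n) : Pol n := ∑ j, C (star (a j)) * X j

/-- substitution `f ↦ f ∘ B` -/
def sbt {n m : ℕ} (B : Matrix (Fin n) (Fin m) ℂ) : Pol n →ₐ[ℂ] Pol m :=
  aeval (fun j => ∑ l, C (B j l) * X l)

/-- directional derivative -/
def dv {n : ℕ} (v : Vec n) (f : Pol n) : Pol n := ∑ j, C (v j) * pderiv j f

open Classical in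
/-- exact quotient `g / f` (junk value `0` if `f` does not divide `g`) -/
def quo {n : ℕ} (f g : Pol n) : Pol n := if h : f ∣ g then h.choose else 0

@[simp] theorem ip_zero_left {n : ℕ} (v : Vec n) : ip 0 v = 0 := by simp [ip]
@[simp] theorem ip_zero_right {n : ℕ} (a : Vec n) : ip a 0 = 0 := by simp [ip]
theorem ip_add_left {n : ℕ} (a b v : Vec n) : ip (a + b) v = ip a v + ip b v := by
  simp only [ip, Pi.add_apply, star_add, add_mul, Finset.sum_add_distrib]
theorem ip_add_right {n : ℕ} (a v w : Vec n) : ip a (v + w) = ip a v + ip a w := by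
  simp only [ip, Pi.add_apply, mul_add, Finset.sum_add_distrib]
theorem ip_smul_left {n : ℕ} (c : ℂ) (a v : Vec n) : ip (c • a) v = star c * ip a v := by
  simp only [ip, Pi.smul_apply, smul_eq_mul, star_mul', Finset.mul_sum, mul_assoc]
theorem ip_smul_right {n : ℕ} (c : ℂ) (a v : Vec n) : ip a (c • v) = c * ip a v := by
  simp only [ip, Pi.smul_apply, smul_eq_mul, Finset.mul_sum]
  exact Finset.sum_congr rfl fun j _ => by ring
theorem ip_star {n : ℕ} (a v : Vec n) : star (ip a v) = ip v a := by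
  simp only [ip, star_sum, star_mul', star_star]
  exact Finset.sum_congr rfl fun j _ => by ring
open scoped ComplexOrder in
theorem ip_self_eq_zero {n : ℕ} {a : Vec n} : ip a a = 0 ↔ a = 0 := by
  constructor
  · intro h
    have h1 : (star a) ⬝ᵥ a = 0 := h
    exact dotProduct_star_self_eq_zero.mp (by rwa [dotProduct_comm] at h1)
  · rintro rfl; simp

/-- orthogonal complement of a vector -/
def perp {n : ℕ} (x : Vec n) : Submodule ℂ (Vec n) where
  carrier := {v | ip v x = 0}
  zero_mem' := by simp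
  add_mem' := by
    intro a b ha hb
    change ip (a + b) x = 0
    rw [ip_add_left, show ip a x = 0 from ha, show ip b x = 0 from hb, add_zero]
  smul_mem' := by
    intro c a ha
    change ip (c • a) x = 0
    rw [ip_smul_left, show ip a x = 0 from ha, mul_zero]

/-- orthogonal complement of a subspace -/
def perpS {n : ℕ} (W : Submodule ℂ (Vec n)) : Submodule ℂ (Vec n) where
  carrier := {v | ∀ w ∈ W, ip v w = 0}
  zero_mem' := by intro w _; simp
  add_mem' := by
    intro a b ha hb w hw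
    rw [ip_add_left, ha w hw, hb w hw, add_zero]
  smul_mem' := by
    intro c a ha w hw
    rw [ip_smul_left, ha w hw, mul_zero]

/-- reflection data: a finite unitary reflection group with its roots -/
structure RD (n : ℕ) where
  ι : Type
  [fin : Fintype ι]
  [dec : DecidableEq ι]
  /-- unit roots, one for every reflecting hyperplane -/
  a : ι → Vec n
  unit : ∀ i, ip (a i) (a i) = 1
  indep : ∀ i j, i ≠ j → LinearIndependent ℂ ![a i, a j]
  G : Type
  [grp : Group G]
  [finG : Fintype G]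
  [decG : DecidableEq G]
  ρ : G →* Matrix (Fin n) (Fin n) ℂ
  uni : ∀ g, (ρ g)ᴴ * ρ g = 1
  faith : Function.Injective ρ
  s : ι → G
  ζ : ι → ℂ
  ζne : ∀ i, ζ i ≠ 1
  refl : ∀ i, ρ (s i) = 1 - (1 - ζ i) • Matrix.vecMulVec (a i) (star (a i))
  gen : Subgroup.closure (Set.range s) = ⊤
  /-- every reflecting hyperplane of `G` is one of the `a i ^⊥` -/
  full : ∀ g : G, g ≠ 1 → ∀ v : Vec n, (∀ x, ip v x = 0 → ρ g *ᵥ x = x) →
    ∃ i, v ∈ Submodule.span ℂ {a i}

attribute [instance] RD.fin RD.dec RD.grp RD.finG RD.decG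

namespace RD

variable {n : ℕ} (D : RD n)

/-- the defining form of the hyperplane `i` -/
def al (i : D.ι) : Pol n := lin (D.a i)

/-- number of hyperplanes -/
def N : ℕ := Fintype.card D.ι

/-- defining polynomial -/
def Q : Pol n := ∏ i, D.al i

/-- ideal of the flat `H_i ∩ H_j` -/
def IX (i j : D.ι) : Ideal (Pol n) := Ideal.span {D.al i, D.al j}

/-- ideal of the singular locus -/
def J : Ideal (Pol n) := ⨅ (i : D.ι) (j : D.ι) (_ : i ≠ j), D.IX i j

/-- symbolic powers -/
def Jsym (m : ℕ) : Ideal (Pol n) := ⨅ (i : D.ι) (j : D.ι) (_ : i ≠ j), (D.IX i j) ^ m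

def rank : ℕ := Module.finrank ℂ (Submodule.span ℂ (Set.range D.a))

/-- the two statements proved by induction on the rank -/
def Good : Prop :=
  (∃ w : Fin (max D.rank 1) → Pol n, D.J = Ideal.span (Set.range w)) ∧
    ∀ r, 3 ≤ r → D.Jsym (2 * r - 1) ≤ D.J ^ r

/-- irreducibility: no proper subspace is stable under the projections onto the roots -/
def Irr : Prop := ∀ W : Submodule ℂ (Vec n),
  (∀ i, ∀ w ∈ W, ip (D.a i) w • D.a i ∈ W) → W = ⊥ ∨ W = ⊤

open Classical in
/-- the roots in the span of `a i, a j` -/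
def line (i j : D.ι) : Finset D.ι :=
  univ.filter (fun k => D.a k ∈ Submodule.span ℂ {D.a i, D.a j})

open Classical in
/-- the codimension two flats contained in `H_i` -/
def lines (i : D.ι) : Finset (Finset D.ι) := (univ.erase i).image (D.line i)

open Classical in
/-- a hyperplane different from `i` in the line `L` -/
def rp (i : D.ι) (L : Finset D.ι) : D.ι := if h : ∃ j ∈ L, j ≠ i then h.choose else i

/-- defining polynomial of the restricted arrangement on `H_i` (lifted to `ℂ^n`) -/
def QH (i : D.ι) : Pol n := ∏ L ∈ D.lines i, D.al (D.rp i L)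

open Classical in
/-- product of the forms not vanishing at `x` -/
def qx (x : Vec n) : Pol n := ∏ i ∈ univ.filter (fun i => ip (D.a i) x ≠ 0), D.al i

/-- `θ(α_i)` -/
def ap (i : D.ι) (θ : VF n) : Pol n := ∑ j, C (star (D.a i j)) * θ j

/-- logarithmic derivations -/
def Der : Submodule (Pol n) (VF n) where
  carrier := {θ | ∀ i, D.al i ∣ D.ap i θ}
  zero_mem' := by intro i; simp [ap]
  add_mem' := by
    intro a b ha hb i
    have : D.ap i (a + b) = D.ap i a + D.ap i b := by
      simp [ap, mul_add, Finset.sum_add_distrib]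
    rw [this]
    exact dvd_add (ha i) (hb i)
  smul_mem' := by
    intro c a ha i
    have : D.ap i (c • a) = c * D.ap i a := by
      simp only [ap, Pi.smul_apply, smul_eq_mul, Finset.mul_sum]
      refine Finset.sum_congr rfl fun j _ => by ring
    rw [this]
    exact Dvd.dvd.mul_left (ha i) c

/-- the flat connection -/
def nab (v : Vec n) (θ : VF n) : VF n := fun l =>
  dv v (θ l) - 2 * ∑ i, C (ip (D.a i) v * D.a i l) * quo (D.al i) (D.ap i θ)

/-- the lattice `M` -/
def M : Set (VF n) := {θ | θ ∈ D.Der ∧ ∀ v, D.nab v θ ∈ D.Der}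

/-- action of `g` on polynomials, `f ↦ f ∘ g⁻¹` -/
def act (g : D.G) : Pol n →ₐ[ℂ] Pol n := sbt (D.ρ g⁻¹)

/-- action of `g` on vector fields -/
def actV (g : D.G) (θ : VF n) : VF n := fun l => ∑ j, C (D.ρ g l j) * D.act g (θ j)

/-- Reynolds operator on polynomials -/
def av (f : Pol n) : Pol n := C ((Fintype.card D.G : ℂ)⁻¹) * ∑ g, D.act g f

/-- Reynolds operator on vector fields -/
def avV (θ : VF n) : VF n := fun l => C ((Fintype.card D.G : ℂ)⁻¹) * ∑ g, D.actV g θ l

/-- ideal generated by the invariants of positive degree -/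
def Ip : Ideal (Pol n) :=
  Ideal.span {f | ∃ d, 0 < d ∧ f.IsHomogeneous d ∧ ∀ g, D.act g f = f}

/-- invariant vector fields -/
def inv : Set (VF n) := {θ | ∀ g, D.actV g θ = θ}

/-- coefficient vectors of horizontal fields vanishing on `H_i` -/
def ell (θ : Fin n → VF n) (i : D.ι) : Submodule ℂ (Fin n → ℂ) where
  carrier := {c | ∀ l, D.al i ∣ ∑ k, C (c k) * θ k l}
  zero_mem' := by intro l; simp
  add_mem' := by
    intro a b ha hb l
    have : ∑ k, C ((a + b) k) * θ k l = ∑ k, C (a k) * θ k l + ∑ k, C (b k) * θ k l := by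
      simp [add_mul, Finset.sum_add_distrib]
    rw [this]
    exact dvd_add (ha l) (hb l)
  smul_mem' := by
    intro c a ha l
    have : ∑ k, C ((c • a) k) * θ k l = C c * ∑ k, C (a k) * θ k l := by
      simp [Finset.mul_sum, mul_assoc]
    rw [this]
    exact Dvd.dvd.mul_left (ha l) _

end RD

/-- a basis of the horizontal fields -/
structure Frame {n : ℕ} (D : RD n) (h : ℕ) (θ : Fin n → VF n) : Prop where
  der : ∀ k, θ k ∈ D.Der
  hor : ∀ k v, D.nab v (θ k) = 0
  hom : ∀ k l, (θ k l).IsHomogeneous h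
  indep : ∀ f : Fin n → Pol n, (∀ l, ∑ k, f k * θ k l = 0) → ∀ k, f k = 0
  gen : ∀ η ∈ D.M, ∃ u : Fin n → Pol n, ∀ l, η l = ∑ k, u k * θ k l
  genQ : ∀ δ ∈ D.Der, ∃ u : Fin n → Pol n, ∀ l, D.Q * δ l = ∑ k, u k * θ k l

/-- the forms `g k` and the vectors `v i` with `g|_{H_i} = Q^{H_i} v_i` -/
structure GData {n : ℕ} (D : RD n) (θ : Fin n → VF n) (d : ℕ) (g : Fin n → Pol n)
    (v : D.ι → Fin n → ℂ) : Prop where
  hom : ∀ k, (g k).IsHomogeneous d
  eqE : ∀ l, D.Q * X l = ∑ k, g k * θ k l
  vne : ∀ i, v i ≠ 0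
  vind : ∀ i j, i ≠ j → LinearIndependent ℂ ![v i, v j]
  /-- a relation between the restrictions to `H_i` is a multiple of `v i` -/
  rel : ∀ i (f : Fin n → Pol n), (∀ l, D.al i ∣ ∑ k, f k * θ k l) →
    ∃ κ : Pol n, ∀ k, D.al i ∣ f k - κ * C (v i k)
  res : ∀ i k, D.al i ∣ g k - C (v i k) * D.QH i

/-! ## The Hilbert-Burch data -/

/-- free resolution of the ideal of the singular locus -/
structure HB {m : ℕ} (D : RD (m + 1)) (d : ℕ) (c : Fin m → ℕ) (g : Fin (m + 1) → Pol (m + 1))
    (b : Fin m → Fin (m + 1) → Pol (m + 1)) : Prop where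
  ghom : ∀ k, (g k).IsHomogeneous d
  bhom : ∀ j k, (b j k).IsHomogeneous (c j)
  csum : ∑ j, c j = d
  rel : ∀ j, ∑ k, b j k * g k = 0
  syz : ∀ u : Fin (m + 1) → Pol (m + 1), ∑ k, u k * g k = 0 →
    ∃ w : Fin m → Pol (m + 1), ∀ k, u k = ∑ j, w j * b j k
  ind : ∀ w : Fin m → Pol (m + 1), (∀ k, ∑ j, w j * b j k = 0) → ∀ j, w j = 0

/-- polynomials in the Rees variables `T_1, ..., T_n` over `Pol n` -/
abbrev PT (n : ℕ) := MvPolynomial (Fin n) (Pol n)

/-- the linear forms `L_j = ∑ b_{jk} T_k` -/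
def Lf {m : ℕ} (b : Fin m → Fin (m + 1) → Pol (m + 1)) (j : Fin m) : PT (m + 1) :=
  ∑ k, C (b j k) * X k

/-- the ideal generated by the `L_j`, `j ∈ R` -/
def idL {m : ℕ} (b : Fin m → Fin (m + 1) → Pol (m + 1)) (R : Finset (Fin m)) :
    Ideal (PT (m + 1)) :=
  Ideal.span (Lf b '' (R : Set (Fin m)))

/-- value of the matrix `b` at `x` -/
def evm {m : ℕ} (x : Vec (m + 1)) (b : Fin m → Fin (m + 1) → Pol (m + 1)) :
    Matrix (Fin m) (Fin (m + 1)) ℂ :=
  Matrix.of fun j k => eval x (b j k)

/-! ## Koszul cochains -/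

/-- sign of `i` in `I` -/
def sg {k : ℕ} (i : Fin k) (I : Finset (Fin k)) : ℤ := (-1) ^ (I.filter (· < i)).card

/-- Koszul differential (on all cochains at once) -/
def kd {k : ℕ} {A : Type} [CommRing A] (y : Fin k → A) (P : Finset (Fin k) → A) :
    Finset (Fin k) → A :=
  fun I => ∑ i ∈ I, ((sg i I : ℤ) : A) * y i * P (I.erase i)

end RFL
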