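import Pool.Agent.RFL.Lin2

/-!
# RFL-L3 : powers of the ideal of a codimension two subspace

By `exists_coord` we may assume `a, b` are the first two coordinate forms. `(x_1,x_2)^m` is the
ideal of polynomials all of whose monomials have degree `≥ m` in `x_1, x_2`. Use the grading by
the degree in `x_1,x_2` (or the associated order function, which is additive on products because
the ring is a domain).
-/

open MvPolynomial Matrix Finset

noncomputable section

namespace RFL

variable {n : ℕ}

namespace LinPowB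

/-- a linear form in the ideal of two linear forms is a combination of them -/
theorem mem_span_pair_vec {a b c : Vec n} (h : lin c ∈ Ideal.span {lin a, lin b}) :
    c ∈ Submodule.span ℂ {a, b} := by
  rw [Ideal.mem_span_pair] at h
  obtain ⟨p, q, h⟩ := h
  have key : ∀ v, ip c v = eval 0 p * ip a v + eval 0 q * ip b v := by
    intro v
    have h1 := congrArg (fun f => eval 0 (dv v f)) h
    simp only [dv_add, dv_mul, dv_lin, map_add, map_mul, eval_C, eval_lin, ip_zero_right,
      mul_zero, zero_add] at h1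
    exact h1.symm
  have h2 : c - (star (eval 0 p) • a + star (eval 0 q) • b) = 0 := by
    rw [← ip_self_eq_zero]
    set w := c - (star (eval 0 p) • a + star (eval 0 q) • b) with hw
    have h3 : ∀ v, ip w v = 0 := by
      intro v
      have h4 : w = c + (-1 : ℂ) • (star (eval 0 p) • a + star (eval 0 q) • b) := by
        rw [hw]
        module
      rw [h4, ip_add_left, ip_smul_left, ip_add_left, ip_smul_left, ip_smul_left, key v]
      simp
    exact h3 w
  rw [Submodule.mem_span_pair]
  exact ⟨star (eval 0 p), star (eval 0 q), (sub_eq_zero.1 h2).symm⟩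

theorem hc_mul {w P : Pol n} {m : ℕ} (hP : P.IsHomogeneous m) (k : ℕ) :
    homogeneousComponent (k + m) (w * P) = homogeneousComponent k w * P := by
  conv_lhs => rw [← sum_homogeneousComponent w]
  rw [Finset.sum_mul, map_sum]
  have h1 : ∀ i ∈ range (w.totalDegree + 1),
      homogeneousComponent (k + m) (homogeneousComponent i w * P) =
        if i = k then homogeneousComponent i w * P else 0 := by
    intro i _
    have h2 : (homogeneousComponent i w * P).IsHomogeneous (i + m) :=
      (homogeneousComponent_isHomogeneous i w).mul hP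
    rw [homogeneousComponent_of_mem ((mem_homogeneousSubmodule _ _).2 h2)]
    by_cases h3 : i = k
    · rw [if_pos h3, if_pos (by omega)]
    · rw [if_neg h3, if_neg (by omega)]
  rw [Finset.sum_congr rfl h1, Finset.sum_ite_eq']
  by_cases h4 : k ∈ range (w.totalDegree + 1)
  · rw [if_pos h4]
  · rw [if_neg h4, homogeneousComponent_eq_zero k w (by
      rw [Finset.mem_range] at h4
      omega), zero_mul]

theorem hc_mul_lt {w P : Pol n} {m d : ℕ} (hP : P.IsHomogeneous m) (hd : d < m) :
    homogeneousComponent d (w * P) = 0 := by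
  conv_lhs => rw [← sum_homogeneousComponent w]
  rw [Finset.sum_mul, map_sum]
  refine Finset.sum_eq_zero fun i _ => ?_
  have h2 : (homogeneousComponent i w * P).IsHomogeneous (i + m) :=
    (homogeneousComponent_isHomogeneous i w).mul hP
  rw [homogeneousComponent_of_mem ((mem_homogeneousSubmodule _ _).2 h2), if_neg (by omega)]

theorem dvd_hc (a : Vec n) (u : Pol n) (d : ℕ) :
    lin a ∣ homogeneousComponent d (lin a * u) := by
  rw [mul_comm]
  rcases Nat.eq_zero_or_pos d with h | h
  · rw [h, hc_mul_lt (lin_hom a) Nat.one_pos]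
    exact dvd_zero _
  · obtain ⟨k, rfl⟩ := Nat.exists_eq_add_of_lt h
    rw [show 0 + k + 1 = k + 1 by omega, hc_mul (lin_hom a)]
    exact Dvd.intro_left _ rfl

theorem step (a b : Vec n) (ha : a ≠ 0) (hb : b ∉ Submodule.span ℂ {a}) (A : Pol n)
    (hA : A ∉ Ideal.span {lin a, lin b}) (w0 : Pol n) (k : ℕ) :
    ∀ w : Pol n, lin a ∣ w * A - w0 * lin b ^ k → ∃ u, lin a ∣ w - u * lin b ^ k := by
  induction k with
  | zero =>
    intro w _
    exact ⟨w, by simp⟩
  | succ k ih =>
    intro w hw
    have hwA : w * A ∈ Ideal.span {lin a, lin b} := by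
      obtain ⟨t, ht⟩ := hw
      rw [Ideal.mem_span_pair]
      refine ⟨t, w0 * lin b ^ k, ?_⟩
      rw [pow_succ] at ht
      linear_combination -ht
    rcases (span_pair_prime a b).mem_or_mem hwA with h | h
    · rw [Ideal.mem_span_pair] at h
      obtain ⟨p, w1, h⟩ := h
      have h1 : lin a ∣ lin b * (w1 * A - w0 * lin b ^ k) := by
        obtain ⟨t, ht⟩ := hw
        refine ⟨t - p * A, ?_⟩
        rw [← h, pow_succ] at ht
        linear_combination ht
      rcases (lin_prime ha).dvd_or_dvd h1 with h2 | h2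
      · exact absurd ((lin_dvd_lin ha).1 h2) hb
      · obtain ⟨u, hu⟩ := ih w1 h2
        refine ⟨u, ?_⟩
        have h3 : w - u * lin b ^ (k + 1) = p * lin a + (w1 - u * lin b ^ k) * lin b := by
          rw [← h, pow_succ]
          ring
        rw [h3]
        exact dvd_add (Dvd.intro_left _ rfl) (hu.mul_right _)
    · exact absurd h hA

theorem prod_notMem {T : Type} [DecidableEq T] (a b0 : Vec n) (S : Finset T) (b : T → Vec n)
    (e : T → ℕ) (hb : ∀ s ∈ S, b s ∉ Submodule.span ℂ {a, b0}) :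
    ∏ s ∈ S, lin (b s) ^ e s ∉ Ideal.span {lin a, lin b0} := by
  intro h
  obtain ⟨s, hs, h1⟩ := (span_pair_prime a b0).prod_mem_iff.1 h
  exact hb s hs (mem_span_pair_vec ((span_pair_prime a b0).mem_of_pow_mem _ h1))

theorem prod_hom {T : Type} [DecidableEq T] (S : Finset T) (b : T → Vec n) (e : T → ℕ) :
    (∏ s ∈ S, lin (b s) ^ e s).IsHomogeneous (∑ s ∈ S, e s) := by
  refine IsHomogeneous.prod S _ _ fun s _ => ?_
  have h := (lin_hom (b s)).pow (e s)
  rwa [one_mul] at h

end LinPowB

open LinPowB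

/-- gluing on the hyperplane `lin a = 0`: `f` divisible there by powers of pairwise
non-proportional forms is divisible by the product -/
theorem glue {T : Type} [DecidableEq T] (a : Vec n) (ha : a ≠ 0) (S : Finset T) (b : T → Vec n)
    (e : T → ℕ) (hb : ∀ s ∈ S, b s ∉ Submodule.span ℂ {a})
    (hb' : ∀ s ∈ S, ∀ s' ∈ S, s ≠ s' → b s' ∉ Submodule.span ℂ {a, b s})
    (f : Pol n) (hf : ∀ s ∈ S, ∃ w, lin a ∣ f - w * lin (b s) ^ e s) :
    ∃ w, lin a ∣ f - w * ∏ s ∈ S, lin (b s) ^ e s := by
  induction S using Finset.induction_on with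
  | empty => exact ⟨f, by simp⟩
  | insert s0 S hs0 ih =>
    obtain ⟨w, hw⟩ := ih (fun s hs => hb s (Finset.mem_insert_of_mem hs))
      (fun s hs s' hs' => hb' s (Finset.mem_insert_of_mem hs) s' (Finset.mem_insert_of_mem hs'))
      (fun s hs => hf s (Finset.mem_insert_of_mem hs))
    obtain ⟨w0, hw0⟩ := hf s0 (Finset.mem_insert_self _ _)
    have h1 : lin a ∣ w * (∏ s ∈ S, lin (b s) ^ e s) - w0 * lin (b s0) ^ e s0 := by
      have h2 := dvd_sub hw0 hw
      have h3 : (f - w0 * lin (b s0) ^ e s0) - (f - w * ∏ s ∈ S, lin (b s) ^ e s) =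
        w * (∏ s ∈ S, lin (b s) ^ e s) - w0 * lin (b s0) ^ e s0 := by ring
      rwa [h3] at h2
    have hA := prod_notMem a (b s0) S b e (fun s hs => hb' s0 (Finset.mem_insert_self _ _) s
      (Finset.mem_insert_of_mem hs) (fun h => hs0 (h ▸ hs)))
    obtain ⟨u, hu⟩ := step a (b s0) ha (hb s0 (Finset.mem_insert_self _ _)) _ hA w0 (e s0) w h1
    refine ⟨u, ?_⟩
    rw [Finset.prod_insert hs0]
    have h4 : f - u * (lin (b s0) ^ e s0 * ∏ s ∈ S, lin (b s) ^ e s) =
        (f - w * ∏ s ∈ S, lin (b s) ^ e s) +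
          (w - u * lin (b s0) ^ e s0) * ∏ s ∈ S, lin (b s) ^ e s := by ring
    rw [h4]
    exact dvd_add hw (hu.mul_right _)

/-- degree version of `glue` -/
theorem glue_deg {T : Type} [DecidableEq T] (a : Vec n) (ha : a ≠ 0) (S : Finset T)
    (b : T → Vec n) (e : T → ℕ) (hb : ∀ s ∈ S, b s ∉ Submodule.span ℂ {a})
    (hb' : ∀ s ∈ S, ∀ s' ∈ S, s ≠ s' → b s' ∉ Submodule.span ℂ {a, b s})
    (f : Pol n) (hf : ∀ s ∈ S, ∃ w, lin a ∣ f - w * lin (b s) ^ e s) (d : ℕ)
    (hd : f.IsHomogeneous d) (hlt : d < ∑ s ∈ S, e s) : lin a ∣ f := by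
  obtain ⟨w, u, hu⟩ := glue a ha S b e hb hb' f hf
  have h1 : f = w * ∏ s ∈ S, lin (b s) ^ e s + lin a * u := by rw [← hu]; ring
  have h2 := congrArg (homogeneousComponent d) h1
  rw [homogeneousComponent_eq_self hd, map_add, hc_mul_lt (prod_hom S b e) hlt, zero_add] at h2
  rw [h2]
  exact dvd_hc a u d

/-- `d = ∑ e`: then the quotient is a constant -/
theorem glue_eq {T : Type} [DecidableEq T] (a : Vec n) (ha : a ≠ 0) (S : Finset T)
    (b : T → Vec n) (e : T → ℕ) (hb : ∀ s ∈ S, b s ∉ Submodule.span ℂ {a})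
    (hb' : ∀ s ∈ S, ∀ s' ∈ S, s ≠ s' → b s' ∉ Submodule.span ℂ {a, b s})
    (f : Pol n) (hf : ∀ s ∈ S, ∃ w, lin a ∣ f - w * lin (b s) ^ e s) (d : ℕ)
    (hd : f.IsHomogeneous d) (hlt : d = ∑ s ∈ S, e s) :
    ∃ c : ℂ, lin a ∣ f - C c * ∏ s ∈ S, lin (b s) ^ e s := by
  obtain ⟨w, u, hu⟩ := glue a ha S b e hb hb' f hf
  have h1 : f = w * ∏ s ∈ S, lin (b s) ^ e s + lin a * u := by rw [← hu]; ring
  have h2 := congrArg (homogeneousComponent d) h1
  have h3 : homogeneousComponent d (w * ∏ s ∈ S, lin (b s) ^ e s) =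
      C (coeff 0 w) * ∏ s ∈ S, lin (b s) ^ e s := by
    have h4 := hc_mul (w := w) (prod_hom S b e) 0
    rw [zero_add, ← hlt, homogeneousComponent_zero] at h4
    exact h4
  rw [homogeneousComponent_eq_self hd, map_add, h3] at h2
  refine ⟨coeff 0 w, ?_⟩
  have h5 : f - C (coeff 0 w) * ∏ s ∈ S, lin (b s) ^ e s =
      homogeneousComponent d (lin a * u) := by
    conv_lhs => rw [h2]
    ring
  rw [h5]
  exact dvd_hc a u d

end RFL
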