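import Pool.Agent.RFL.Count
import Pool.Agent.RFL.LinPow

/-!
# RFL-K1 : elements of small degree of the symbolic power are divisible by powers of `Q`

`Jsym_step`: `F = Q^j F_j ∈ Jsym M`; for a line `L ∈ lines i` (`j' = rp i L`), each `al k`, `k ∈ L`, is in
`IX i j'`, the others are not: by `mem_pow_of_lin_mul` (`j |L|` times) and `mem_pow_of_mul`,
`F_j ∈ (IX i j')^(M - j |L|)`, so (`mem_pow_mod`) `F_j ≡ w al(j')^(M - j|L|) mod al i`.
If `deg F_j < ∑_{L ∈ lines i} (M - j |L|)` (truncated subtraction) then `al i ∣ F_j` (`glue_deg`,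
`rp_indep`). If this holds for all `i`, `Q ∣ F_j`.

`Q_pow_dvd`: `r ≥ 1`, `D_i = |lines i| = d` for all `i`, `∑_{L ∈ lines i} |L| = N - 1 + d`
(`sum_card_lines`), `F ∈ Jsym (2 r - 1)` homogeneous with `deg F + n = (r + 1) d`, `1 ≤ n`, `1 ≤ d`. For
`j ≤ r - 2`: `deg F_j = (r+1) d - n - j N` and
`∑_L ((2r-1) - j |L|)_+ ≥ (2r-1) d - j (N - 1 + d) > (r+1) d - n - j N` because
`(r - 2) d + n > j (d - 1)`. So `Q^{r-1} ∣ F`.
-/

open MvPolynomial Matrix Finset

noncomputable section

namespace RFL

namespace RD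

variable {n : ℕ} (D : RD n)

theorem DegA_mem_Jsym (M : ℕ) (F : Pol n) :
    F ∈ D.Jsym M ↔ ∀ i j : D.ι, i ≠ j → F ∈ (D.IX i j) ^ M := by
  simp only [Jsym, Ideal.mem_iInf]

theorem Jsym_hc (M : ℕ) (F : Pol n) (hF : F ∈ D.Jsym M) (e : ℕ) :
    homogeneousComponent e F ∈ D.Jsym M := by
  rw [DegA_mem_Jsym] at hF ⊢
  intro i j hij
  exact hc_mem_pow M e F (hF i j hij)

theorem Jsym_le {M M' : ℕ} (h : M ≤ M') : D.Jsym M' ≤ D.Jsym M := by
  intro F hF
  rw [DegA_mem_Jsym] at hF ⊢
  intro i j hij
  exact Ideal.pow_le_pow_right h (hF i j hij)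

theorem Jsym_one : D.Jsym 1 = D.J := by
  simp only [Jsym, J, pow_one]

/-- the forms outside the line are not in the ideal of the flat -/
theorem DegA_al_notMem (i j l : D.ι) (hij : i ≠ j) (hl : l ∉ D.line i j) :
    D.al l ∉ D.IX i j := by
  classical
  intro hmem
  have hl' : D.a l ∉ Submodule.span ℂ {D.a i, D.a j} := by
    intro h
    exact hl (by unfold line; exact Finset.mem_filter.mpr ⟨Finset.mem_univ _, h⟩)
  -- the three roots are independent
  have hind : LinearIndependent ℂ ![D.a l, D.a i, D.a j] := by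
    refine linearIndependent_finCons.mpr ⟨D.indep i j hij, ?_⟩
    have : Set.range ![D.a i, D.a j] = {D.a i, D.a j} := by
      ext v
      simp only [Set.mem_range, Set.mem_insert_iff, Set.mem_singleton_iff, Fin.exists_fin_two,
        Matrix.cons_val_zero, Matrix.cons_val_one]
      constructor
      · rintro (h | h)
        · exact Or.inl h.symm
        · exact Or.inr h.symm
      · rintro (h | h)
        · exact Or.inl h.symm
        · exact Or.inr h.symm
    rw [this]
    exact hl'
  obtain ⟨hk, B, B', h1, h2, hB⟩ := exists_coord _ hind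
  have hv := (mem_span_pair_iff (D.a i) (D.a j) (D.al l)).mp hmem
  set x : Vec n := B *ᵥ (Pi.single (Fin.castLE hk 0) 1) with hx
  have key : ∀ s : Fin 3, ip (![D.a l, D.a i, D.a j] s) x =
      (Pi.single (Fin.castLE hk 0) (1 : ℂ) : Vec n) (Fin.castLE hk s) := by
    intro s
    rw [← eval_lin, hx, ← eval_sbt, hB s, eval_X]
  have k0 := key 0
  have k1 := key 1
  have k2 := key 2
  simp only [Matrix.cons_val_zero, Pi.single_eq_same] at k0
  have n1 : Fin.castLE hk (1 : Fin 3) ≠ Fin.castLE hk 0 := by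
    intro h
    have := Fin.castLE_injective hk h
    exact absurd this (by decide)
  have n2 : Fin.castLE hk (2 : Fin 3) ≠ Fin.castLE hk 0 := by
    intro h
    have := Fin.castLE_injective hk h
    exact absurd this (by decide)
  rw [Pi.single_eq_of_ne n1] at k1
  rw [Pi.single_eq_of_ne n2] at k2
  have h3 := hv x k1 k2
  have h4 : eval x (D.al l) = ip (D.a l) x := eval_lin _ _
  rw [h4, k0] at h3
  exact one_ne_zero h3

theorem DegA_prod (i j : D.ι) (hij : i ≠ j) (S : Finset D.ι) : ∀ (M : ℕ) (F : Pol n),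
    (∏ l ∈ S, D.al l) * F ∈ (D.IX i j) ^ M →
      F ∈ (D.IX i j) ^ (M - (S.filter (fun l => l ∈ D.line i j)).card) := by
  classical
  induction S using Finset.induction_on with
  | empty => intro M F h; simpa using h
  | insert l S hl ih =>
    intro M F h
    rw [Finset.prod_insert hl, mul_assoc] at h
    by_cases hL : l ∈ D.line i j
    · have h1 : (∏ l ∈ S, D.al l) * F ∈ (D.IX i j) ^ (M - 1) :=
        mem_pow_of_lin_mul (D.indep i j hij) (D.a_ne l) M _ h
      have h2 := ih (M - 1) F h1
      rw [Finset.filter_insert, if_pos hL,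
        Finset.card_insert_of_notMem (fun h => hl (Finset.mem_filter.mp h).1)]
      have h3 : M - ((S.filter (fun l => l ∈ D.line i j)).card + 1) =
          M - 1 - (S.filter (fun l => l ∈ D.line i j)).card := by omega
      rw [h3]
      exact h2
    · have h1 : (∏ l ∈ S, D.al l) * F ∈ (D.IX i j) ^ M :=
        mem_pow_of_mul (D.indep i j hij) M _ _ (D.DegA_al_notMem i j l hij hL) h
      rw [Finset.filter_insert, if_neg hL]
      exact ih M F h1

theorem IX_pow_of_Q_pow (i j : D.ι) (hij : i ≠ j) (M k : ℕ) (F : Pol n)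
    (h : D.Q ^ k * F ∈ (D.IX i j) ^ M) : F ∈ (D.IX i j) ^ (M - k * (D.line i j).card) := by
  classical
  have hcard : (Finset.univ.filter (fun l => l ∈ D.line i j)).card = (D.line i j).card := by
    congr 1
    ext l
    simp
  induction k generalizing M with
  | zero => simpa using h
  | succ k ih =>
    have h1 : D.Q * (D.Q ^ k * F) ∈ (D.IX i j) ^ M := by
      have : D.Q * (D.Q ^ k * F) = D.Q ^ (k + 1) * F := by ring
      rw [this]
      exact h
    have h2 := D.DegA_prod i j hij Finset.univ M (D.Q ^ k * F) h1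
    rw [hcard] at h2
    have h3 := ih _ h2
    have h4 : M - (k + 1) * (D.line i j).card =
        M - (D.line i j).card - k * (D.line i j).card := by
      rw [Nat.add_mul, one_mul]
      omega
    rw [h4]
    exact h3

theorem Q_pow_mem_iff (i j : D.ι) (hij : i ≠ j) (M k : ℕ) (h : D.Q ^ k ∈ (D.IX i j) ^ M) :
    M ≤ k * (D.line i j).card := by
  by_contra hlt
  push Not at hlt
  have h1 : D.Q ^ k * 1 ∈ (D.IX i j) ^ M := by rwa [mul_one]
  have h2 := D.IX_pow_of_Q_pow i j hij M k 1 h1
  have h3 : (1 : Pol n) ∈ D.IX i j := Ideal.pow_le_self (by omega) h2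
  exact (span_pair_prime (D.a i) (D.a j)).ne_top ((Ideal.eq_top_iff_one _).mpr h3)

end RD

end RFL
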