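import Pool.Agent.RFL.DegA

/-!
# RFL-K1 : elements of small degree of the symbolic power are divisible by powers of `Q`

`Jsym_step`: `F = Q^j F_j ∈ Jsym M`; for a line `L ∈ lines i` (`j' = rp i L`), each `al k`, `k ∈ L`, is in
`IX i j'`, the others are not: by `mem_pow_of_lin_mul` (`j |L|` times) and `mem_pow_of_mul`,
`F_j ∈ (IX i j')^(M - j |L|)`, so (`mem_pow_mod`) `F_j ≡ w al(j')^(M - j|L|) mod al i`.
If `deg F_j < ∑_{L ∈ lines i} (M - j |L|)` (truncated subtraction) then `al i ∣ F_j` (`glue_deg`,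
`rp_indep`). If this holds for all `i`, `Q ∣ F_j`.

`Q_pow_dvd`: `r ≥ 1`, `D_i = |lines i| = d` for all `i`, `∑_{L ∈ lines i} |L| = N - 1 + d`
(`sum_card_lines`), `F ∈ Jsym (2 r - 1)` homogeneous with `deg F + n = (r + 1) d`, `1 ≤ n`, `1 ≤ d`. For
`j ≤ r - 2`: `deg F_j = (r+1) d - n - j N` and
`∑_L ((2r-1) - j |L|)_+ ≥ (2r-1) d - j (N - 1 + d) > (r+1) d - n - j N` because
`(r - 2) d + n > j (d - 1)`. So `Q^{r-1} ∣ F`.
-/

open MvPolynomial Matrix Finset

noncomputable section

namespace RFL

/-- the cofactor of a homogeneous multiple of a homogeneous polynomial can be taken homogeneous -/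
theorem DegB_cofactor {n : ℕ} (g f : Pol n) (a e : ℕ) (hg : g.IsHomogeneous a)
    (hF : (g * f).IsHomogeneous e) (h0 : g * f ≠ 0) :
    ∃ e' f', a + e' = e ∧ f'.IsHomogeneous e' ∧ g * f = g * f' := by
  have h1 : g * f = ∑ i ∈ range (f.totalDegree + 1), g * homogeneousComponent i f := by
    conv_lhs => rw [← sum_homogeneousComponent f]
    rw [Finset.mul_sum]
  have h2 : homogeneousComponent e (g * f) =
      ∑ i ∈ range (f.totalDegree + 1), if a + i = e then g * homogeneousComponent i f else 0 := by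
    conv_lhs => rw [h1]
    rw [map_sum]
    refine Finset.sum_congr rfl fun i _ => ?_
    have h3 : g * homogeneousComponent i f ∈ homogeneousSubmodule (Fin n) ℂ (a + i) :=
      hg.mul (homogeneousComponent_isHomogeneous i f)
    rw [homogeneousComponent_of_mem h3]
    simp only [eq_comm]
  have h4 : homogeneousComponent e (g * f) = g * f := by
    rw [homogeneousComponent_of_mem hF, if_pos rfl]
  by_cases hae : a ≤ e
  · refine ⟨e - a, homogeneousComponent (e - a) f, by omega,
      homogeneousComponent_isHomogeneous _ _, ?_⟩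
    rw [← h4, h2]
    by_cases hr : e - a ∈ range (f.totalDegree + 1)
    · rw [Finset.sum_eq_single_of_mem (e - a) hr]
      · rw [if_pos (by omega)]
      · intro i _ hi
        rw [if_neg (by omega)]
    · rw [Finset.sum_eq_zero]
      · have : homogeneousComponent (e - a) f = 0 :=
          homogeneousComponent_eq_zero _ _ (by rw [Finset.mem_range] at hr; omega)
        rw [this, mul_zero]
      · intro i hi
        rw [if_neg]
        rintro rfl
        apply hr
        have : a + i - a = i := by omega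
        rwa [this]
  · exfalso
    apply h0
    rw [← h4, h2]
    refine Finset.sum_eq_zero fun i _ => ?_
    rw [if_neg (by omega)]

namespace RD

variable {n : ℕ} (D : RD n)

theorem Q_dvd_of_deg (M k e : ℕ) (F : Pol n) (he : F.IsHomogeneous e)
    (h : D.Q ^ k * F ∈ D.Jsym M) (hdeg : ∀ i, e < ∑ L ∈ D.lines i, (M - k * L.card)) :
    D.Q ∣ F := by
  classical
  refine D.Q_dvd F fun i => ?_
  refine glue_deg (D.a i) (D.a_ne i) (D.lines i) (fun L => D.a (D.rp i L))
    (fun L => M - k * L.card) ?_ ?_ F ?_ e he (hdeg i)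
  · intro L hL
    exact D.a_notMem (D.rp_ne hL)
  · intro L hL L' hL' hne
    exact D.rp_indep hL hL' hne
  · intro L hL
    have h1 := (D.DegA_mem_Jsym M _).mp h i (D.rp i L) (D.rp_ne hL)
    have h2 := D.IX_pow_of_Q_pow i (D.rp i L) (D.rp_ne hL) M k F h1
    rw [D.line_rp hL] at h2
    exact mem_pow_mod _ F h2

theorem Q_pow_dvd (d r e : ℕ) (hd : ∀ i, (D.lines i).card = d) (hd1 : 1 ≤ d) (hn : 1 ≤ n)
    (hr : 1 ≤ r) (F : Pol n) (hF : F ∈ D.Jsym (2 * r - 1)) (he : F.IsHomogeneous e)
    (heq : e + n = (r + 1) * d) : D.Q ^ (r - 1) ∣ F := by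
  classical
  by_cases hF0 : F = 0
  · rw [hF0]; exact dvd_zero _
  have key : ∀ j, j ≤ r - 1 → D.Q ^ j ∣ F := by
    intro j
    induction j with
    | zero => intro _; simp
    | succ j ih =>
      intro hj
      obtain ⟨f, hf⟩ := ih (by omega)
      have hQj : (D.Q ^ j).IsHomogeneous (D.N * j) := D.Q_hom.pow j
      obtain ⟨e', f', h1, h2, h3⟩ := DegB_cofactor (D.Q ^ j) f (D.N * j) e hQj
        (by rw [← hf]; exact he) (by rw [← hf]; exact hF0)
      have hF' : F = D.Q ^ j * f' := by rw [hf, h3]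
      have hdvd : D.Q ∣ f' := by
        refine D.Q_dvd_of_deg (2 * r - 1) j e' f' h2 (by rw [← hF']; exact hF) fun i => ?_
        have h4 : ∑ _L ∈ D.lines i, (2 * r - 1) ≤
            ∑ L ∈ D.lines i, ((2 * r - 1 - j * L.card) + j * L.card) :=
          Finset.sum_le_sum fun L _ => by omega
        rw [Finset.sum_const, smul_eq_mul, hd i, Finset.sum_add_distrib, ← Finset.mul_sum] at h4
        have h5 := D.sum_card_lines i
        rw [hd i] at h5
        set S := ∑ L ∈ D.lines i, (2 * r - 1 - j * L.card) with hS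
        set T := ∑ L ∈ D.lines i, L.card with hT
        obtain ⟨t, rfl⟩ : ∃ t, r = j + 2 + t := ⟨r - j - 2, by omega⟩
        have h6 : 2 * (j + 2 + t) - 1 = 2 * j + 3 + 2 * t := by omega
        rw [h6] at h4
        have h7 : j * (T + 1) = j * (D.N + d) := by rw [h5]
        nlinarith [Nat.zero_le (t * d)]
      obtain ⟨q, hq⟩ := hdvd
      refine ⟨q, ?_⟩
      rw [hF', hq]
      ring
  exact key (r - 1) le_rfl

end RD

end RFL
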