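import Pool.Agent.RFL.Kos1
import Pool.Agent.RFL.Defs

/-!
# RFL-H : the ideal of the singular locus is generated by the `g k`

`g_mem_J`: `g_k ∈ IX i j`: on `H_i ∩ H_j` (`i ≠ j`) `g(x)` is a multiple of `v i` and of `v j`
(`GData.res`), so `0` (`vind`); `mem_span_pair_iff`.

`depth3`: `I = span (range g)`, three independent forms `y_l = lin (v l)` with `y_l F ∈ I` ⇒ `F ∈ I`.
`y_l F = ∑_k u_{lk} g_k`. For `l, l'`: `∑_k (y_l u_{l'k} - y_{l'} u_{lk}) g_k = 0`, so
`= ∑_j w_{ll' j} b_j` (`HB.syz`), `w_{·j}` a Koszul 2-cochain; its Koszul differential `z` satisfies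
`∑_j z_j b_{jk} = ± kd kd u_k = 0`, so `z = 0` (`HB.ind`); `w_j = kd w'_j` (`kos_exact`, `p = 2 < 3`); then
`u_k - ∑_j w'_j b_{jk}` is a 1-cocycle, so `= kd u'_k` (`p = 1`): `u_{lk} = y_l u'_k + ∑_j w'_{lj} b_{jk}`, so
`y_l F = y_l ∑_k u'_k g_k`. (`kos_exact` with `k = 3`; cochains `Finset (Fin 3) → Pol n`.)
Consequence `depth3_pow`: `y_l^M F ∈ I` for the three `l` ⇒ `F ∈ I` (induction on the sum of the
exponents).

`J_eq`: let `F ∈ J`, `c = (I : F)`. If `c ≠ ⊤` take `x, N` from `strat`, `k = rank (loc x)`.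
* `k ≥ 3`: `F' = q_x^N F`: `al_i^N F' ∈ I` for three independent `al i` (`exists_basis_loc`), so
  `F' ∈ I`, `q_x^N ∈ c`: contradiction at `x`.
* `k = 0`: `Q ∈ I` (`Q_mem`), `Q(x) ≠ 0`. `k = 1`: only `al i` vanishes at `x`:
  `g_k(x) = (v i)_k QH i (x) ≠ 0` for some `k` (`QH i` is a product of forms `al j`, `j ≠ i`).
* `k = 2`: `rank_loc_eq_two`: `i ≠ j`, `F = A al_i + B al_j` (`F ∈ IX i j`). Claim: there is `u`,
  `u(x) ≠ 0`, `u al_i ∈ I` (and symmetrically for `j`). Choose `λ` with `λ · v_i = 0`, `λ · v_j = 1`.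
  `g_λ = ∑ λ_k g_k ≡ 0 mod al i`: `g_λ = al_i u`. Modulo `al j`: `al_i u ≡ QH j`, and
  `QH j = ∏_{L ∈ lines j} al (rp j L)`; the factor of `L = line j i` is `≡ c al_i mod al j`, `c ≠ 0`
  constant (`a (rp j L) ∈ span {a i, a j}`), so `u ≡ c ∏_{L ≠ line j i} al (rp j L) mod al j`, nonzero at
  `x` (the forms vanishing at `x` are in `line i j`).
  So `u u' F ∈ I`, contradiction.
-/

open MvPolynomial Matrix Finset

noncomputable section

namespace RFL

namespace Depth3

theorem kd_sum {k : ℕ} {A : Type} [CommRing A] {T : Type} (s : Finset T) (y : Fin k → A)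
    (c : T → A) (P : T → Finset (Fin k) → A) :
    kd y (fun I => ∑ t ∈ s, c t * P t I) = fun I => ∑ t ∈ s, c t * kd y (P t) I := by
  funext I
  unfold kd
  simp only [Finset.mul_sum]
  rw [Finset.sum_comm]
  refine Finset.sum_congr rfl fun t _ => Finset.sum_congr rfl fun i _ => ?_
  ring

theorem sg_single {k : ℕ} (l : Fin k) : sg l {l} = 1 := by
  unfold sg
  have : (({l} : Finset (Fin k)).filter (· < l)) = ∅ := by
    ext x
    simp only [Finset.mem_filter, Finset.mem_singleton, Finset.notMem_empty, iff_false, not_and]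
    rintro rfl
    exact lt_irrefl _
  rw [this]
  simp

theorem kd_single {k : ℕ} {A : Type} [CommRing A] (y : Fin k → A) (P : Finset (Fin k) → A)
    (l : Fin k) : kd y P {l} = y l * P ∅ := by
  unfold kd
  rw [Finset.sum_singleton, sg_single]
  simp

end Depth3

namespace RD

theorem depth3 {m : ℕ} (D : RD (m + 1)) {d : ℕ} {c : Fin m → ℕ}
    {g : Fin (m + 1) → Pol (m + 1)} {b : Fin m → Fin (m + 1) → Pol (m + 1)}
    (hB : HB D d c g b) (v : Fin 3 → Vec (m + 1)) (hv : LinearIndependent ℂ v)
    (F : Pol (m + 1)) (hF : ∀ l, lin (v l) * F ∈ Ideal.span (Set.range g)) :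
    F ∈ Ideal.span (Set.range g) := by
  classical
  set y : Fin 3 → Pol (m + 1) := fun l => lin (v l) with hy
  have h1 : ∀ l, ∃ u : Fin (m + 1) → Pol (m + 1), ∑ k, u k * g k = y l * F := by
    intro l
    exact (Ideal.mem_span_range_iff_exists_fun).mp (hF l)
  choose u hu using h1
  set U : Fin (m + 1) → Finset (Fin 3) → Pol (m + 1) := fun k I =>
    if I.card = 1 then ∑ l ∈ I, u l k else 0 with hU
  set Fc : Finset (Fin 3) → Pol (m + 1) := fun I => if I.card = 0 then F else 0 with hFc
  have hU1 : ∀ k l, U k {l} = u l k := by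
    intro k l
    simp [hU]
  have hU0 : ∀ k I, I.card ≠ 1 → U k I = 0 := by
    intro k I hI
    simp [hU, hI]
  -- the total cochain is a coboundary
  have h2 : (fun I => ∑ k, g k * U k I) = kd y Fc := by
    funext I
    by_cases hI : I.card = 1
    · obtain ⟨l, rfl⟩ := Finset.card_eq_one.mp hI
      rw [Depth3.kd_single]
      have h3 : Fc ∅ = F := by simp [hFc]
      rw [h3, ← hu l]
      refine Finset.sum_congr rfl fun k _ => ?_
      rw [hU1, mul_comm]
    · rw [kd_supp y 0 Fc (fun J hJ => by simp only [hFc, if_neg hJ]) I (by simpa using hI)]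
      refine Finset.sum_eq_zero fun k _ => ?_
      rw [hU0 k I hI, mul_zero]
  have h3 : ∀ I, ∑ k, kd y (U k) I * g k = 0 := by
    intro I
    have h4 := congrFun (Depth3.kd_sum univ y g U) I
    rw [h2, kd_kd] at h4
    rw [show (∑ k, kd y (U k) I * g k) = ∑ k, g k * kd y (U k) I from
      Finset.sum_congr rfl fun k _ => mul_comm _ _]
    exact h4.symm
  have h4 : ∀ I, ∃ w : Fin m → Pol (m + 1), ∀ k, kd y (U k) I = ∑ j, w j * b j k :=
    fun I => hB.syz (fun k => kd y (U k) I) (h3 I)
  choose w hw using h4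
  set W : Fin m → Finset (Fin 3) → Pol (m + 1) := fun j I => if I.card = 2 then w I j else 0
    with hW
  have hW0 : ∀ j I, I.card ≠ 2 → W j I = 0 := by
    intro j I hI
    simp [hW, hI]
  have h5 : ∀ k, kd y (U k) = fun I => ∑ j, b j k * W j I := by
    intro k
    funext I
    by_cases hI : I.card = 2
    · rw [hw I k]
      refine Finset.sum_congr rfl fun j _ => ?_
      simp only [hW, if_pos hI]
      ring
    · rw [kd_supp y 1 (U k) (hU0 k) I (by simpa using hI)]
      symm
      refine Finset.sum_eq_zero fun j _ => ?_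
      rw [hW0 j I hI, mul_zero]
  have h6 : ∀ j, kd y (W j) = 0 := by
    have h7 : ∀ I k, ∑ j, kd y (W j) I * b j k = 0 := by
      intro I k
      have h8 := congrFun (Depth3.kd_sum univ y (fun j => b j k) W) I
      rw [← h5 k, kd_kd] at h8
      rw [show (∑ j, kd y (W j) I * b j k) = ∑ j, b j k * kd y (W j) I from
        Finset.sum_congr rfl fun j _ => mul_comm _ _]
      exact h8.symm
    intro j
    funext I
    exact hB.ind (fun j => kd y (W j) I) (h7 I) j
  have h7 : ∀ j, ∃ P' : Finset (Fin 3) → Pol (m + 1), (∀ I, I.card + 1 ≠ 2 → P' I = 0) ∧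
      kd y P' = W j := fun j => kos_exact v hv 2 (by norm_num) (W j) (hW0 j) (h6 j)
  choose W' hW'0 hW' using h7
  set V : Fin (m + 1) → Finset (Fin 3) → Pol (m + 1) := fun k =>
    U k - fun I => ∑ j, b j k * W' j I with hV
  have hV0 : ∀ k I, I.card ≠ 1 → V k I = 0 := by
    intro k I hI
    simp only [hV, Pi.sub_apply]
    rw [hU0 k I hI, Finset.sum_eq_zero, sub_zero]
    intro j _
    rw [hW'0 j I (by omega), mul_zero]
  have hVd : ∀ k, kd y (V k) = 0 := by
    intro k
    rw [hV]
    simp only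
    rw [kd_sub, Depth3.kd_sum univ y (fun j => b j k) W', h5 k, sub_eq_zero]
    funext I
    refine Finset.sum_congr rfl fun j _ => ?_
    rw [hW' j]
  have h8 : ∀ k, ∃ P' : Finset (Fin 3) → Pol (m + 1), (∀ I, I.card + 1 ≠ 1 → P' I = 0) ∧
      kd y P' = V k := fun k => kos_exact v hv 1 (by norm_num) (V k) (hV0 k) (hVd k)
  choose V' hV'0 hV' using h8
  have h9 : ∀ k, u 0 k = y 0 * V' k ∅ + ∑ j, b j k * W' j {0} := by
    intro k
    have h10 := congrFun (hV' k) {0}
    rw [Depth3.kd_single] at h10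
    rw [h10]
    simp only [hV, Pi.sub_apply]
    rw [hU1]
    ring
  have h10 : y 0 * F = y 0 * ∑ k, V' k ∅ * g k := by
    rw [← hu 0]
    have h11 : ∑ k, (∑ j, b j k * W' j {0}) * g k = 0 := by
      have h12 : ∑ k, (∑ j, b j k * W' j {0}) * g k
          = ∑ j, W' j {0} * ∑ k, b j k * g k := by
        simp only [Finset.sum_mul, Finset.mul_sum]
        rw [Finset.sum_comm]
        refine Finset.sum_congr rfl fun j _ => Finset.sum_congr rfl fun k _ => ?_
        ring
      rw [h12]
      refine Finset.sum_eq_zero fun j _ => ?_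
      rw [hB.rel j, mul_zero]
    calc ∑ k, u 0 k * g k = ∑ k, (y 0 * (V' k ∅ * g k) + (∑ j, b j k * W' j {0}) * g k) := by
          refine Finset.sum_congr rfl fun k _ => ?_
          rw [h9 k]
          ring
      _ = y 0 * ∑ k, V' k ∅ * g k := by
          rw [Finset.sum_add_distrib, h11, add_zero, Finset.mul_sum]
  have hy0 : y 0 ≠ 0 := by
    intro h
    have h11 : v 0 = 0 := lin_eq_zero.mp h
    exact hv.ne_zero 0 h11
  have h11 := mul_left_cancel₀ hy0 h10
  rw [h11]
  exact (Ideal.mem_span_range_iff_exists_fun).mpr ⟨fun k => V' k ∅, rfl⟩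

theorem depth3_pow {m : ℕ} (D : RD (m + 1)) {d : ℕ} {c : Fin m → ℕ}
    {g : Fin (m + 1) → Pol (m + 1)} {b : Fin m → Fin (m + 1) → Pol (m + 1)}
    (hB : HB D d c g b) (v : Fin 3 → Vec (m + 1)) (hv : LinearIndependent ℂ v) (M : ℕ)
    (F : Pol (m + 1)) (hF : ∀ l, lin (v l) ^ M * F ∈ Ideal.span (Set.range g)) :
    F ∈ Ideal.span (Set.range g) := by
  have key : ∀ s : ℕ, ∀ e : Fin 3 → ℕ, ∑ l, e l = s → ∀ F : Pol (m + 1),
      (∀ l, lin (v l) ^ e l * F ∈ Ideal.span (Set.range g)) → F ∈ Ideal.span (Set.range g) := by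
    intro s
    induction s with
    | zero =>
      intro e he F hF
      have h0 : e 0 = 0 := by
        have := Finset.sum_eq_zero_iff.mp he 0 (Finset.mem_univ 0)
        exact this
      have h1 := hF 0
      rwa [h0, pow_zero, one_mul] at h1
    | succ s ih =>
      intro e he F hF
      refine depth3 D hB v hv F fun l => ?_
      rcases Nat.lt_or_ge (e l) 2 with hl | hl
      · interval_cases h : e l
        · have h1 := hF l
          rw [h, pow_zero, one_mul] at h1
          exact Ideal.mul_mem_left _ _ h1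
        · have h1 := hF l
          rwa [h, pow_one] at h1
      · refine ih (Function.update e l (e l - 1)) ?_ (lin (v l) * F) ?_
        · have h2 : ∑ l', Function.update e l (e l - 1) l' + 1 = ∑ l', e l' := by
            rw [Finset.sum_update_of_mem (Finset.mem_univ l),
              ← Finset.add_sum_erase univ e (Finset.mem_univ l), Finset.sdiff_singleton_eq_erase]
            omega
          omega
        · intro l'
          by_cases hll : l' = l
          · subst hll
            rw [Function.update_self]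
            have h3 : lin (v l') ^ (e l' - 1) * (lin (v l') * F) = lin (v l') ^ e l' * F := by
              rw [← mul_assoc, ← pow_succ]
              congr 2
              omega
            rw [h3]
            exact hF l'
          · rw [Function.update_of_ne hll]
            have h3 : lin (v l') ^ e l' * (lin (v l) * F)
                = lin (v l) * (lin (v l') ^ e l' * F) := by ring
            rw [h3]
            exact Ideal.mul_mem_left _ _ (hF l')
  exact key _ (fun _ => M) rfl F hF

end RD

end RFL
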