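import Pool.Agent.RFL.DetsBase

/-!
# RFL-E5 : determinants of combinations of invariant fields

For `P : Pol n ⊗ Pol n` and `g : G` put `ev g P`, the image of `P` under
`c ⊗ p ↦ c * act g p` (`Algebra.TensorProduct.lift`, an algebra homomorphism), and for `v : Vec n`
`η_{P,v} = ∑_g ev g P • (ρ g v)`. It is a `Pol n`-combination of invariant fields (for `P = c ⊗ p`
it is `c * |G| * avV (p v)`; additivity). So all `η_{P,v}` are in
`Nn = span {invariant fields}`.

`dets_al`: `f = al i = t`. `C = {g | ρ g` fixes `H_i` pointwise`}`. For `g ∉ C` some `q_g = X j` has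
`t ∤ act g q_g - q_g`. `P = ∏_{g ∉ C} (1 ⊗ q_g - act g q_g ⊗ 1)`; `ev g P = 0` for `g ∉ C`, and for
`g ∈ C`, `ev g P ≡ c₀ := ∏ (q_g - act g q_g) ≢ 0 mod t` (as `act g q ≡ q mod t`). Let
`w = ∑_{g ∈ C} ev g P ≡ |C| c₀ ≢ 0 mod t`. For `v ∈ H_i`: `η_{P,v} = w • v`. For `P' = P * (1 ⊗ t)`:
`ev g P' = ev g P * act g t`, for `g ∈ C`, `ρ g a = z a` with `|z| = 1`, `act g t = star z * t`
... so `η_{P',a} = t w • a`. With `η_j = η_{P, e_j - ip(a, e_j) a} + η_{P', ip(a, e_j) a}` the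
determinant is `w^n (1 - (1 - t)) = w^n t`: not divisible by `t^2`.
-/

open MvPolynomial Matrix Finset TensorProduct

noncomputable section

namespace RFL

namespace RD

variable {n : ℕ} (D : RD n)

theorem DetsB_key (i : D.ι) (g : D.G) (hg : ¬ ∀ x, ip (D.a i) x = 0 → D.ρ g *ᵥ x = x) :
    ∃ j : Fin n, ¬ D.al i ∣ D.act g (X j) - X j := by
  by_contra hcon
  have hcon' : ∀ j : Fin n, D.al i ∣ D.act g (X j) - X j := by
    intro j
    by_contra h
    exact hcon ⟨j, h⟩
  apply hg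
  intro x hx
  have h1 : D.ρ g⁻¹ *ᵥ x = x := by
    funext j
    have h2 := (D.al_dvd_iff i _).mp (hcon' j) x hx
    rw [map_sub, D.eval_act, eval_X, eval_X] at h2
    exact sub_eq_zero.mp h2
  have h3 := D.rho_mul_inv g x
  rw [h1] at h3
  exact h3

/-- elements fixing `H_i` pointwise -/
theorem DetsB_eig (i : D.ι) (g : D.G) (hg : ∀ x, ip (D.a i) x = 0 → D.ρ g *ᵥ x = x) :
    ∃ z : ℂ, star z * z = 1 ∧ D.ρ g *ᵥ D.a i = z • D.a i ∧
      D.act g (D.al i) = C (star z) * D.al i := by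
  have h1 : D.ρ g *ᵥ D.a i ∈ Submodule.span ℂ {D.a i} := by
    apply mem_span_of_perp
    intro x hx
    have h2 := D.ip_rho g (D.a i) x
    rw [hg x hx] at h2
    rw [h2, hx]
  obtain ⟨z, hz⟩ := Submodule.mem_span_singleton.mp h1
  have hzz : star z * z = 1 := by
    have h2 := D.ip_rho g (D.a i) (D.a i)
    rw [← hz, ip_smul_left, ip_smul_right, D.unit i, mul_one] at h2
    exact h2
  refine ⟨z, hzz, hz.symm, ?_⟩
  unfold act al
  rw [sbt_lin, D.rho_inv_eq, Matrix.conjTranspose_conjTranspose, ← hz, lin_smul]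

theorem dets_al (i : D.ι) :
    ∃ η : Fin n → VF n, (∀ j, η j ∈ Submodule.span (Pol n) D.inv) ∧
      ¬ D.al i ^ 2 ∣ (Matrix.of η).det := by
  classical
  set S : Finset D.G := univ.filter (fun g => ∀ x, ip (D.a i) x = 0 → D.ρ g *ᵥ x = x) with hS
  have hmem : ∀ g, g ∈ S ↔ ∀ x, ip (D.a i) x = 0 → D.ρ g *ᵥ x = x := by
    intro g
    rw [hS, Finset.mem_filter]
    exact ⟨fun h => h.2, fun h => ⟨Finset.mem_univ _, h⟩⟩
  have hq : ∀ g : D.G, ∃ q : Pol n, g ∉ S → ¬ D.al i ∣ D.act g q - q := by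
    intro g
    by_cases hg : g ∈ S
    · exact ⟨0, fun h => absurd hg h⟩
    · rw [hmem] at hg
      obtain ⟨j, hj⟩ := D.DetsB_key i g hg
      exact ⟨X j, fun _ => hj⟩
  choose q hq using hq
  have hP0 : ∀ g', g' ∉ S → D.ev g' (D.sep Sᶜ q) = 0 := by
    intro g' hg'
    rw [D.ev_sep]
    refine Finset.prod_eq_zero (i := g') (Finset.mem_compl.mpr hg') ?_
    rw [sub_self]
  -- the generic point
  have hc0 : ¬ D.al i ∣ ∏ g ∈ Sᶜ, (q g - D.act g (q g)) := by
    intro h
    obtain ⟨g, hg, hd⟩ := ((D.al_prime i).dvd_finsetProd_iff _).mp h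
    rw [← dvd_neg, neg_sub] at hd
    exact hq g (Finset.mem_compl.mp hg) hd
  obtain ⟨x, hx, hxc⟩ := D.exists_generic i _ hc0
  have hinv : ∀ g ∈ S, D.ρ g⁻¹ *ᵥ x = x := by
    intro g hg
    have h1 := (hmem g).mp hg x hx
    have h2 := D.rho_inv_mul g x
    rw [h1] at h2
    exact h2
  have hevP : ∀ g ∈ S, eval x (D.ev g (D.sep Sᶜ q)) =
      eval x (∏ g ∈ Sᶜ, (q g - D.act g (q g))) := by
    intro g hg
    rw [D.ev_sep, map_prod, map_prod]
    refine Finset.prod_congr rfl fun g' _ => ?_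
    rw [map_sub, map_sub, D.eval_act g, hinv g hg]
  set w : Pol n := ∑ g ∈ S, D.ev g (D.sep Sᶜ q) with hw
  have h1S : (1 : D.G) ∈ S := by
    rw [hmem]
    intro y _
    rw [map_one, Matrix.one_mulVec]
  have hwx : eval x w ≠ 0 := by
    rw [hw, map_sum, Finset.sum_congr rfl hevP, Finset.sum_const, nsmul_eq_mul]
    refine mul_ne_zero ?_ hxc
    exact_mod_cast (Finset.card_pos.mpr ⟨1, h1S⟩).ne'
  have hwd : ¬ D.al i ∣ w := by
    intro h
    exact hwx ((D.al_dvd_iff i w).mp h x hx)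
  -- the two kinds of fields
  have heta1 : ∀ v, ip (D.a i) v = 0 → ∀ l, D.eta (D.sep Sᶜ q) v l = w * C (v l) := by
    intro v hv l
    unfold eta
    rw [hw, Finset.sum_mul]
    symm
    refine (Finset.sum_subset (Finset.subset_univ S) ?_).trans ?_
    · intro g _ hg
      rw [hP0 g hg, zero_mul]
    · refine Finset.sum_congr rfl fun g _ => ?_
      by_cases hg : g ∈ S
      · rw [(hmem g).mp hg v hv]
      · rw [hP0 g hg, zero_mul, zero_mul]
  have heta2 : ∀ (c : ℂ) l, D.eta (D.sep Sᶜ q * ((1 : Pol n) ⊗ₜ D.al i)) (c • D.a i) l =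
      w * D.al i * C (c * D.a i l) := by
    intro c l
    unfold eta
    rw [hw, Finset.sum_mul, Finset.sum_mul]
    symm
    have h3 : ∀ g, D.ev g (D.sep Sᶜ q * ((1 : Pol n) ⊗ₜ D.al i)) =
        D.ev g (D.sep Sᶜ q) * D.act g (D.al i) := by
      intro g
      rw [map_mul, D.ev_tmul, one_mul]
    refine (Finset.sum_subset (Finset.subset_univ S) ?_).trans ?_
    · intro g _ hg
      rw [hP0 g hg, zero_mul, zero_mul]
    · refine Finset.sum_congr rfl fun g _ => ?_
      rw [h3]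
      by_cases hg : g ∈ S
      · obtain ⟨z, hzz, hz1, hz2⟩ := D.DetsB_eig i g ((hmem g).mp hg)
        have h4 : (C (star z) : Pol n) * C z = 1 := by
          rw [← C_mul, hzz, C_1]
        rw [Matrix.mulVec_smul, hz1, hz2]
        simp only [Pi.smul_apply, smul_eq_mul, C_mul]
        linear_combination (- D.ev g (D.sep Sᶜ q) * D.al i * C c * C (D.a i l)) * h4
      · rw [hP0 g hg, zero_mul, zero_mul, zero_mul, zero_mul]
  refine ⟨fun j => D.eta (D.sep Sᶜ q) (Pi.single j 1 - (star (D.a i j)) • D.a i) +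
      D.eta (D.sep Sᶜ q * ((1 : Pol n) ⊗ₜ D.al i)) ((star (D.a i j)) • D.a i),
    fun j => Submodule.add_mem _ (D.eta_mem _ _) (D.eta_mem _ _), ?_⟩
  have hperp : ∀ j : Fin n, ip (D.a i) (Pi.single j 1 - (star (D.a i j)) • D.a i) = 0 := by
    intro j
    have h5 : ip (D.a i) (Pi.single j 1) = star (D.a i j) := by
      unfold ip
      rw [Finset.sum_eq_single j]
      · rw [Pi.single_eq_same, mul_one]
      · intro b _ hb
        rw [Pi.single_eq_of_ne hb, mul_zero]
      · intro h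
        exact absurd (Finset.mem_univ _) h
    rw [sub_eq_add_neg, ← neg_smul, ip_add_right, ip_smul_right, D.unit i, h5]
    ring
  obtain ⟨uu, huu⟩ : ∃ uu : Fin n → Pol n, ∀ j, uu j = (D.al i - 1) * C (star (D.a i j)) :=
    ⟨_, fun _ => rfl⟩
  obtain ⟨vv, hvv⟩ : ∃ vv : Fin n → Pol n, ∀ l, vv l = C (D.a i l) := ⟨_, fun _ => rfl⟩
  have hmat : (Matrix.of fun j => D.eta (D.sep Sᶜ q) (Pi.single j 1 - (star (D.a i j)) • D.a i) +
      D.eta (D.sep Sᶜ q * ((1 : Pol n) ⊗ₜ D.al i)) ((star (D.a i j)) • D.a i)) =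
      w • ((1 : Matrix (Fin n) (Fin n) (Pol n)) +
        Matrix.replicateCol Unit uu * Matrix.replicateRow Unit vv) := by
    ext1 j l
    rw [Matrix.of_apply, Pi.add_apply, heta1 _ (hperp j), heta2, Matrix.smul_apply,
      Matrix.add_apply, Matrix.mul_apply, Fintype.sum_unique, Matrix.replicateCol_apply,
      Matrix.replicateRow_apply, Matrix.one_apply, smul_eq_mul, huu, hvv]
    simp only [Pi.sub_apply, Pi.smul_apply, smul_eq_mul, C_sub, C_mul]
    by_cases hjl : j = l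
    · subst hjl
      rw [if_pos rfl, Pi.single_eq_same, map_one]
      ring
    · rw [if_neg hjl, Pi.single_eq_of_ne (Ne.symm hjl), map_zero]
      ring
  have hdot : vv ⬝ᵥ uu = D.al i - 1 := by
    have h6 : vv ⬝ᵥ uu = (D.al i - 1) * C (ip (D.a i) (D.a i)) := by
      unfold ip dotProduct
      rw [map_sum, Finset.mul_sum]
      refine Finset.sum_congr rfl fun l _ => ?_
      rw [C_mul, huu, hvv]
      ring
    rw [h6, D.unit i, C_1, mul_one]
  have hdet : (Matrix.of fun j => D.eta (D.sep Sᶜ q) (Pi.single j 1 - (star (D.a i j)) • D.a i) +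
      D.eta (D.sep Sᶜ q * ((1 : Pol n) ⊗ₜ D.al i)) ((star (D.a i j)) • D.a i)).det =
      w ^ n * D.al i := by
    rw [hmat, Matrix.det_smul, Matrix.det_one_add_replicateCol_mul_replicateRow, Fintype.card_fin,
      hdot]
    ring
  rw [hdet, pow_two]
  intro h
  have h7 : D.al i ∣ w ^ n := (mul_dvd_mul_iff_right (D.al_ne i)).mp h
  exact hwd ((D.al_prime i).dvd_of_dvd_pow h7)

end RD

end RFL
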