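import Pool.Agent.RFL.DetsBase

/-!
# RFL-E5 : determinants of combinations of invariant fields

For `P : Pol n ⊗ Pol n` and `g : G` put `ev g P`, the image of `P` under
`c ⊗ p ↦ c * act g p` (`Algebra.TensorProduct.lift`, an algebra homomorphism), and for `v : Vec n`
`η_{P,v} = ∑_g ev g P • (ρ g v)`. It is a `Pol n`-combination of invariant fields (for `P = c ⊗ p`
it is `c * |G| * avV (p v)`; additivity). So all `η_{P,v}` are in
`Nn = span {invariant fields}`.

`dets_generic`: `f` prime, not associated to any `al i`. For `g ≠ 1` there is a variable `q_g = X j`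
with `f ∤ act g q_g - q_g`: otherwise all the linear forms `act g (X j) - X j` are multiples of `f`;
not all vanish (`faith`), so `f` is up to a scalar a linear form `lin v` and all
`act g (X j) - X j ∈ ℂ lin v`, i.e. `ρ g⁻¹` fixes `v^⊥` pointwise, so does `g`, so `v ∈ span {a i}`
by `full`: `f` is associated to `al i`.
`P = ∏_{g ≠ 1} (1 ⊗ q_g - act g q_g ⊗ 1)`: `ev g P = 0` for `g ≠ 1` and
`ev 1 P = ∏ (q_g - act g q_g)` is not divisible by `f`. `η_{P, e_j} = ev 1 P • e_j`,
determinant `(ev 1 P)^n`.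
-/

open MvPolynomial Matrix Finset

noncomputable section

namespace RFL

namespace RD

variable {n : ℕ} (D : RD n)

theorem DetsA_key (f : Pol n) (hf : Prime f) (hal : ∀ i, ¬ Associated f (D.al i)) (g : D.G)
    (hg : g ≠ 1) : ∃ j : Fin n, ¬ f ∣ D.act g (X j) - X j := by
  by_contra hcon
  have hcon' : ∀ j : Fin n, f ∣ D.act g (X j) - X j := by
    intro j
    by_contra h
    exact hcon ⟨j, h⟩
  have hhom : ∀ j : Fin n, (D.act g (X j) - X j).IsHomogeneous 1 := by
    intro j
    exact (D.act_hom g (X j) 1 (isHomogeneous_X ℂ j)).sub (isHomogeneous_X ℂ j)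
  choose b hb using fun j => exists_lin _ (hhom j)
  have hev : ∀ j x, ip (b j) x = (D.ρ g⁻¹ *ᵥ x) j - x j := by
    intro j x
    rw [← eval_lin, ← hb j, map_sub, D.eval_act, eval_X, eval_X]
  have hne : ∃ j₀, b j₀ ≠ 0 := by
    by_contra hno
    have hno' : ∀ j, b j = 0 := by
      intro j
      by_contra h
      exact hno ⟨j, h⟩
    have h1 : ∀ x : Vec n, D.ρ g⁻¹ *ᵥ x = x := by
      intro x
      funext j
      have := hev j x
      rw [hno' j, ip_zero_left] at this
      exact (sub_eq_zero.mp this.symm)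
    have h2 : D.ρ g⁻¹ = 1 := by
      apply Matrix.ext_of_mulVec_single
      intro i
      rw [h1, Matrix.one_mulVec]
    have h3 : g⁻¹ = 1 := D.faith (by rw [h2, map_one])
    exact hg (inv_eq_one.mp h3)
  obtain ⟨j₀, hj₀⟩ := hne
  have hass : Associated f (lin (b j₀)) := by
    have hd : f ∣ lin (b j₀) := by
      rw [← hb j₀]
      exact hcon' j₀
    exact hf.irreducible.associated_of_dvd (lin_prime hj₀).irreducible hd
  have hspan : ∀ j, b j ∈ Submodule.span ℂ {b j₀} := by
    intro j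
    rw [← lin_dvd_lin hj₀]
    refine hass.symm.dvd.trans ?_
    rw [← hb j]
    exact hcon' j
  have hfix : ∀ x, ip (b j₀) x = 0 → D.ρ g⁻¹ *ᵥ x = x := by
    intro x hx
    funext j
    have h1 := hev j x
    obtain ⟨c, hc⟩ := Submodule.mem_span_singleton.mp (hspan j)
    rw [← hc, ip_smul_left, hx, mul_zero] at h1
    exact sub_eq_zero.mp h1.symm
  obtain ⟨i, hi⟩ := D.full g⁻¹ (by simpa using hg) (b j₀) hfix
  obtain ⟨c, hc⟩ := Submodule.mem_span_singleton.mp hi
  have hc0 : c ≠ 0 := by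
    rintro rfl
    rw [zero_smul] at hc
    exact hj₀ hc.symm
  refine hal i (hass.trans ?_)
  rw [← hc, lin_smul]
  exact associated_unit_mul_left (lin (D.a i)) (C (star c))
    ((isUnit_iff_ne_zero.mpr (by simpa using hc0)).map (C : ℂ →+* Pol n))

theorem dets_generic (f : Pol n) (hf : Prime f) (hal : ∀ i, ¬ Associated f (D.al i)) :
    ∃ η : Fin n → VF n, (∀ j, η j ∈ Submodule.span (Pol n) D.inv) ∧
      ¬ f ∣ (Matrix.of η).det := by
  classical
  have hq : ∀ g : D.G, ∃ q : Pol n, g ≠ 1 → ¬ f ∣ D.act g q - q := by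
    intro g
    by_cases hg : g = 1
    · exact ⟨0, fun h => absurd hg h⟩
    · obtain ⟨j, hj⟩ := D.DetsA_key f hf hal g hg
      exact ⟨X j, fun _ => hj⟩
  choose q hq using hq
  have hP0 : ∀ g', g' ≠ 1 → D.ev g' (D.sep (univ.erase 1) q) = 0 := by
    intro g' hg'
    rw [D.ev_sep]
    refine Finset.prod_eq_zero (i := g') (Finset.mem_erase.mpr ⟨hg', Finset.mem_univ _⟩) ?_
    rw [sub_self]
  have hP1 : ¬ f ∣ D.ev 1 (D.sep (univ.erase 1) q) := by
    rw [D.ev_sep]
    intro h
    obtain ⟨g, hg, hd⟩ := (hf.dvd_finsetProd_iff _).mp h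
    rw [D.act_one, ← dvd_neg, neg_sub] at hd
    exact hq g (Finset.ne_of_mem_erase hg) hd
  have heta : ∀ v l, D.eta (D.sep (univ.erase 1) q) v l =
      D.ev 1 (D.sep (univ.erase 1) q) * C (v l) := by
    intro v l
    unfold eta
    rw [Finset.sum_eq_single (1 : D.G)]
    · rw [map_one, Matrix.one_mulVec]
    · intro g _ hg
      rw [hP0 g hg, zero_mul]
    · intro h
      exact absurd (Finset.mem_univ _) h
  refine ⟨fun j => D.eta (D.sep (univ.erase 1) q) (Pi.single j 1), fun j => D.eta_mem _ _, ?_⟩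
  have hdet : (Matrix.of fun j => D.eta (D.sep (univ.erase 1) q) (Pi.single j 1)) =
      D.ev 1 (D.sep (univ.erase 1) q) • (1 : Matrix (Fin n) (Fin n) (Pol n)) := by
    ext1 j l
    rw [Matrix.of_apply, heta, Matrix.smul_apply, Matrix.one_apply, smul_eq_mul]
    by_cases hjl : j = l
    · subst hjl
      rw [if_pos rfl, Pi.single_eq_same, map_one]
    · rw [if_neg hjl, Pi.single_eq_of_ne (Ne.symm hjl), map_zero]
  rw [hdet, Matrix.det_smul, Matrix.det_one, mul_one]
  intro h
  exact hP1 (hf.dvd_of_dvd_pow h)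

end RD

end RFL
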