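import Pool.Agent.RFL.Gens

/-!
# RFL-E5a : the fields `η_{P,v}`

`ev g : Pol ⊗ Pol → Pol`, `c ⊗ p ↦ c * act g p`; `eta P v = ∑_g ev g P • (ρ g v)`. It is a
`Pol n`-combination of invariant fields: for `P = c ⊗ p` it is `c * |G| * avV (p v)`; additivity
(`TensorProduct.induction_on`).
-/

open MvPolynomial Matrix Finset TensorProduct

noncomputable section

namespace RFL

namespace RD

variable {n : ℕ} (D : RD n)

/-- `c ⊗ p ↦ c * act g p` -/
def ev (g : D.G) : Pol n ⊗[ℂ] Pol n →ₐ[ℂ] Pol n :=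
  Algebra.TensorProduct.lift (AlgHom.id ℂ (Pol n)) (D.act g) (fun _ _ => Commute.all _ _)

theorem ev_tmul (g : D.G) (c p : Pol n) : D.ev g (c ⊗ₜ p) = c * D.act g p := by
  unfold ev
  rw [Algebra.TensorProduct.lift_tmul]
  rfl

def eta (P : Pol n ⊗[ℂ] Pol n) (v : Vec n) : VF n :=
  fun l => ∑ g, D.ev g P * C ((D.ρ g *ᵥ v) l)

theorem eta_mem (P : Pol n ⊗[ℂ] Pol n) (v : Vec n) :
    D.eta P v ∈ Submodule.span (Pol n) D.inv := by
  induction P using TensorProduct.induction_on with
  | zero =>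
    have : D.eta 0 v = 0 := by
      funext l
      simp [eta]
    rw [this]
    exact Submodule.zero_mem _
  | add P P' hP hP' =>
    have : D.eta (P + P') v = D.eta P v + D.eta P' v := by
      funext l
      simp only [eta, map_add, add_mul, Finset.sum_add_distrib, Pi.add_apply]
    rw [this]
    exact Submodule.add_mem _ hP hP'
  | tmul c p =>
    have hact : ∀ (g : D.G) (z : ℂ), D.act g (C z) = C z := by
      intro g z
      unfold act sbt
      rw [aeval_C]
      rfl
    have hcard : (Fintype.card D.G : ℂ) ≠ 0 := Nat.cast_ne_zero.2 Fintype.card_ne_zero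
    have e : D.eta (c ⊗ₜ p) v =
        (c * C (Fintype.card D.G : ℂ)) • D.avV (fun j => p * C (v j)) := by
      funext l
      simp only [eta, avV, actV, Pi.smul_apply, smul_eq_mul, ev_tmul]
      have h1 : ∀ g : D.G, ∑ j, C (D.ρ g l j) * D.act g (p * C (v j)) =
          D.act g p * C ((D.ρ g *ᵥ v) l) := by
        intro g
        have h2 : (D.ρ g *ᵥ v) l = ∑ j, D.ρ g l j * v j := rfl
        rw [h2, map_sum, Finset.mul_sum]
        refine Finset.sum_congr rfl fun j _ => ?_
        rw [map_mul, hact, map_mul]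
        ring
      simp only [h1]
      have h3 : (C (Fintype.card D.G : ℂ) * C ((Fintype.card D.G : ℂ)⁻¹) : Pol n) = 1 := by
        rw [← map_mul, mul_inv_cancel₀ hcard, map_one]
      calc ∑ g, c * D.act g p * C ((D.ρ g *ᵥ v) l)
          = c * ∑ g, D.act g p * C ((D.ρ g *ᵥ v) l) := by
            rw [Finset.mul_sum]
            exact Finset.sum_congr rfl fun g _ => by ring
        _ = c * (C (Fintype.card D.G : ℂ) * C ((Fintype.card D.G : ℂ)⁻¹) : Pol n) *
              ∑ g, D.act g p * C ((D.ρ g *ᵥ v) l) := by rw [h3, mul_one]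
        _ = _ := by ring
    rw [e]
    exact Submodule.smul_mem _ _ (Submodule.subset_span (D.avV_inv _))

/-- the product `∏_{g ∈ S} (1 ⊗ q g - act g (q g) ⊗ 1)` -/
def sep (S : Finset D.G) (q : D.G → Pol n) : Pol n ⊗[ℂ] Pol n :=
  ∏ g ∈ S, ((1 : Pol n) ⊗ₜ q g - D.act g (q g) ⊗ₜ (1 : Pol n))

theorem ev_sep (S : Finset D.G) (q : D.G → Pol n) (g' : D.G) :
    D.ev g' (D.sep S q) = ∏ g ∈ S, (D.act g' (q g) - D.act g (q g)) := by
  unfold sep
  rw [map_prod]
  refine Finset.prod_congr rfl fun g _ => ?_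
  rw [map_sub, ev_tmul, ev_tmul, one_mul, map_one, mul_one]

end RD

end RFL
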