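import Pool.Agent.RFL.Kos2

/-!
# RFL-I3 : elimination

`A i j = b (r i) (c j)`, `δ = det A`. `ψ X_k = C δ * X_k - ∑_{j : c j = k} ∑_i C (adj A j i) * L_{r i}`
(`algebra map identity on Pol`). Then `ψ X_k ≡ δ X_k mod idL (image r)`, so for `P` homogeneous of
degree `e` in `T`, `ψ P ≡ δ^e P`. And
`ψ L_{r i} = δ L_{r i} - ∑_j A i j ∑_{i'} adj A j i' L_{r i'} = δ L_{r i} - ∑_{i'} (A adj A)_{i i'} L_{r i'} = 0`.
-/

open MvPolynomial Matrix Finset

noncomputable section

namespace RFL
namespace Elim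

variable {R : Type} [CommRing R] {m n t : ℕ}

/-- the matrix of the chosen minor -/
def mA (b : Fin m → Fin n → R) (r : Fin t → Fin m) (c : Fin t → Fin n) :
    Matrix (Fin t) (Fin t) R :=
  Matrix.of fun i j => b (r i) (c j)

def L (b : Fin m → Fin n → R) (j : Fin m) : MvPolynomial (Fin n) R := ∑ k, C (b j k) * X k

/-- the images of the variables -/
def img (b : Fin m → Fin n → R) (r : Fin t → Fin m) (c : Fin t → Fin n) (k : Fin n) :
    MvPolynomial (Fin n) R :=
  C (mA b r c).det * X k -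
    ∑ j, if c j = k then ∑ i, C ((mA b r c).adjugate j i) * L b (r i) else 0

theorem L_hom (b : Fin m → Fin n → R) (j : Fin m) : (L b j).IsHomogeneous 1 := by
  unfold L
  exact IsHomogeneous.sum _ _ _ fun k _ => isHomogeneous_C_mul_X _ _

theorem img_sub_mem (b : Fin m → Fin n → R) (r : Fin t → Fin m) (c : Fin t → Fin n) (k : Fin n)
    (I : Ideal (MvPolynomial (Fin n) R)) (hI : ∀ i, L b (r i) ∈ I) :
    C (mA b r c).det * X k - img b r c k ∈ I := by
  unfold img
  rw [sub_sub_cancel]
  refine Ideal.sum_mem _ fun j _ => ?_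
  split_ifs
  · exact Ideal.sum_mem _ fun i _ => Ideal.mul_mem_left _ _ (hI i)
  · exact Ideal.zero_mem _

theorem img_hom (b : Fin m → Fin n → R) (r : Fin t → Fin m) (c : Fin t → Fin n) (k : Fin n) :
    (img b r c k).IsHomogeneous 1 := by
  unfold img
  refine IsHomogeneous.sub (isHomogeneous_C_mul_X _ _) ?_
  refine IsHomogeneous.sum _ _ _ fun j _ => ?_
  split_ifs
  · exact IsHomogeneous.sum _ _ _ fun i _ => (L_hom b (r i)).C_mul _
  · exact isHomogeneous_zero _ _ _

theorem kill (b : Fin m → Fin n → R) (r : Fin t → Fin m) (c : Fin t → Fin n) (i : Fin t) :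
    aeval (img b r c) (L b (r i)) = 0 := by
  have h1 : ∀ i', ∑ j, (mA b r c) i j * (mA b r c).adjugate j i' =
      if i = i' then (mA b r c).det else 0 := by
    intro i'
    have h := congrFun (congrFun (Matrix.mul_adjugate (mA b r c)) i) i'
    rw [Matrix.mul_apply] at h
    rw [h]
    simp [Matrix.smul_apply, Matrix.one_apply]
  have h2 : aeval (img b r c) (L b (r i)) = ∑ k, C (b (r i) k) * img b r c k := by
    unfold L
    rw [map_sum]
    refine Finset.sum_congr rfl fun k _ => ?_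
    rw [map_mul, aeval_X, aeval_C]
    rfl
  rw [h2]
  have h3 : ∀ k, C (b (r i) k) * img b r c k = C (mA b r c).det * (C (b (r i) k) * X k) -
      ∑ j, if c j = k then C (b (r i) k) * ∑ i', C ((mA b r c).adjugate j i') * L b (r i')
        else 0 := by
    intro k
    unfold img
    rw [mul_sub, Finset.mul_sum]
    congr 1
    · ring
    · refine Finset.sum_congr rfl fun j _ => ?_
      rw [mul_ite, mul_zero]
  rw [Finset.sum_congr rfl fun k _ => h3 k, Finset.sum_sub_distrib, ← Finset.mul_sum,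
    Finset.sum_comm]
  have h4 : ∀ j, (∑ k, if c j = k then C (b (r i) k) *
      ∑ i', C ((mA b r c).adjugate j i') * L b (r i') else 0) =
      ∑ i', C ((mA b r c) i j * (mA b r c).adjugate j i') * L b (r i') := by
    intro j
    rw [Finset.sum_ite_eq, if_pos (Finset.mem_univ _), Finset.mul_sum]
    refine Finset.sum_congr rfl fun i' _ => ?_
    rw [C_mul, mul_assoc]
    rfl
  rw [Finset.sum_congr rfl fun j _ => h4 j, Finset.sum_comm]
  have h5 : ∀ i', ∑ j, C ((mA b r c) i j * (mA b r c).adjugate j i') * L b (r i') =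
      if i = i' then C (mA b r c).det * L b (r i') else 0 := by
    intro i'
    rw [← Finset.sum_mul, ← map_sum, h1 i']
    split_ifs <;> simp
  rw [Finset.sum_congr rfl fun i' _ => h5 i', Finset.sum_ite_eq, if_pos (Finset.mem_univ _)]
  unfold L
  rw [sub_self]

theorem scale (a : R) (e : ℕ)
    (P : MvPolynomial (Fin n) R) (hP : P.IsHomogeneous e) :
    aeval (fun k => C a * X k : Fin n → MvPolynomial (Fin n) R) P = C (a ^ e) * P := by
  conv_lhs => rw [P.as_sum]
  conv_rhs => rw [P.as_sum]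
  rw [map_sum, Finset.mul_sum]
  refine Finset.sum_congr rfl fun s hs => ?_
  have hdeg : s.degree = e := by
    by_contra h
    exact (mem_support_iff.mp hs) (hP.coeff_eq_zero h)
  rw [aeval_monomial, monomial_eq, algebraMap_eq]
  simp only [mul_pow, Finsupp.prod_mul]
  have h1 : (s.prod fun _ k => (C a : MvPolynomial (Fin n) R) ^ k) = C (a ^ e) := by
    rw [Finsupp.prod, Finset.prod_pow_eq_pow_sum, ← hdeg, map_pow]
    rfl
  rw [h1]
  ring

theorem cong (b : Fin m → Fin n → R) (r : Fin t → Fin m) (c : Fin t → Fin n)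
    (I : Ideal (MvPolynomial (Fin n) R)) (hI : ∀ i, L b (r i) ∈ I) (e : ℕ)
    (P : MvPolynomial (Fin n) R) (hP : P.IsHomogeneous e) :
    C ((mA b r c).det ^ e) * P - aeval (img b r c) P ∈ I := by
  rw [← scale _ _ _ hP, ← Ideal.Quotient.eq]
  have h : (Ideal.Quotient.mkₐ R I).comp
      (aeval (fun k => C (mA b r c).det * X k : Fin n → MvPolynomial (Fin n) R)) =
      (Ideal.Quotient.mkₐ R I).comp (aeval (img b r c)) := by
    apply MvPolynomial.algHom_ext
    intro k
    simp only [AlgHom.comp_apply, aeval_X]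
    exact (Ideal.Quotient.eq).mpr (img_sub_mem b r c k I hI)
  exact congrArg (fun f => f P) h

theorem span_hc (s : Set (MvPolynomial (Fin n) R)) (hs : ∀ x ∈ s, x.IsHomogeneous 1)
    (P : MvPolynomial (Fin n) R) (hP : P ∈ Ideal.span s) (e : ℕ) :
    homogeneousComponent e P ∈ Ideal.span s := by
  let := MvPolynomial.gradedAlgebra (σ := Fin n) (R := R)
  refine homogeneousComponent_mem_of_mem ?_ hP e
  refine Ideal.homogeneous_span _ _ ?_
  intro x hx
  exact ⟨1, hs x hx⟩

theorem ins {A : Type} [CommRing A] (s : Set A) (x P : A) :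
    P ∈ Ideal.span (insert x s) ↔ ∃ W, P - x * W ∈ Ideal.span s := by
  rw [Ideal.mem_span_insert']
  constructor
  · rintro ⟨a, ha⟩
    exact ⟨-a, by rw [mul_neg, sub_neg_eq_add, mul_comm]; exact ha⟩
  · rintro ⟨W, hW⟩
    exact ⟨-W, by rw [neg_mul, ← sub_eq_add_neg, mul_comm]; exact hW⟩

theorem zero_aux (δ : R) (I : Ideal (MvPolynomial (Fin n) R))
    (ψ : MvPolynomial (Fin n) R →ₐ[R] MvPolynomial (Fin n) R)
    (hψ : ∀ (e : ℕ) (P : MvPolynomial (Fin n) R), P.IsHomogeneous e →
        C (δ ^ e) * P - ψ P ∈ I)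
    (hψ' : ∀ (e : ℕ) (P : MvPolynomial (Fin n) R), P.IsHomogeneous e → (ψ P).IsHomogeneous e)
    (P : MvPolynomial (Fin n) R) (hP : ψ P = 0) :
    ∃ N : ℕ, C (δ ^ N) * P ∈ I := by
  have hz : ∀ e, ψ (homogeneousComponent e P) = 0 := by
    intro e
    have h1 : ψ P = ∑ i ∈ range (P.totalDegree + 1), ψ (homogeneousComponent i P) := by
      conv_lhs => rw [← sum_homogeneousComponent P]
      rw [map_sum]
    by_cases he : e ∈ range (P.totalDegree + 1)
    · have h2 : homogeneousComponent e (ψ P) = ψ (homogeneousComponent e P) := by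
        rw [h1, map_sum, Finset.sum_eq_single e]
        · exact homogeneousComponent_eq_self
            (hψ' e _ (homogeneousComponent_isHomogeneous _ _))
        · intro i _ hi
          have := homogeneousComponent_of_mem (m := e) (n := i)
            (p := ψ (homogeneousComponent i P))
            (hψ' i _ (homogeneousComponent_isHomogeneous _ _))
          rw [this, if_neg (Ne.symm hi)]
        · intro h
          exact absurd he h
      rw [← h2, hP, map_zero]
    · have : homogeneousComponent e P = 0 := by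
        apply homogeneousComponent_eq_zero
        rw [Finset.mem_range] at he
        omega
      rw [this, map_zero]
  refine ⟨P.totalDegree, ?_⟩
  have h0 : C (δ ^ P.totalDegree) * P =
      ∑ i ∈ range (P.totalDegree + 1), C (δ ^ P.totalDegree) * homogeneousComponent i P := by
    rw [← Finset.mul_sum, sum_homogeneousComponent P]
  rw [h0]
  refine Ideal.sum_mem _ fun e he => ?_
  rw [Finset.mem_range] at he
  have h1 := hψ e _ (homogeneousComponent_isHomogeneous e P)
  rw [hz e, sub_zero] at h1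
  have h2 : δ ^ P.totalDegree = δ ^ (P.totalDegree - e) * δ ^ e := by
    rw [← pow_add]
    congr 1
    omega
  rw [h2, C_mul, mul_assoc]
  exact Ideal.mul_mem_left _ _ h1

end Elim

theorem Elim.mem {m t : ℕ} (b : Fin m → Fin (m + 1) → Pol (m + 1)) (r : Fin t → Fin m)
    (i : Fin t) : Elim.L b (r i) ∈ idL b (univ.image r) := by
  refine Ideal.subset_span ⟨r i, ?_, rfl⟩
  simp

theorem exists_elim {m t : ℕ} (b : Fin m → Fin (m + 1) → Pol (m + 1)) (r : Fin t → Fin m)
    (c : Fin t → Fin (m + 1)) :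
    ∃ ψ : PT (m + 1) →ₐ[Pol (m + 1)] PT (m + 1), (∀ i, ψ (Lf b (r i)) = 0) ∧
      ∀ (e : ℕ) (P : PT (m + 1)), P.IsHomogeneous e →
        C ((Matrix.of fun i j => b (r i) (c j)).det ^ e) * P - ψ P ∈
          idL b (univ.image r) :=
  ⟨aeval (Elim.img b r c), fun i => Elim.kill b r c i,
    fun e P hP => Elim.cong b r c _ (Elim.mem b r) e P hP⟩

theorem Lf_hom {m : ℕ} (b : Fin m → Fin (m + 1) → Pol (m + 1)) (j : Fin m) :
    (Lf b j).IsHomogeneous 1 := Elim.L_hom b j

/-- `idL` is homogeneous in `T` -/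
theorem idL_hc {m : ℕ} (b : Fin m → Fin (m + 1) → Pol (m + 1)) (R : Finset (Fin m))
    (P : PT (m + 1)) (hP : P ∈ idL b R) (e : ℕ) : homogeneousComponent e P ∈ idL b R := by
  refine Elim.span_hc _ ?_ P hP e
  rintro _ ⟨j, _, rfl⟩
  exact Elim.L_hom b j

theorem mem_idL_insert {m : ℕ} (b : Fin m → Fin (m + 1) → Pol (m + 1)) (R : Finset (Fin m))
    (j : Fin m) (P : PT (m + 1)) :
    P ∈ idL b (insert j R) ↔ ∃ W, P - Lf b j * W ∈ idL b R := by
  unfold idL
  rw [Finset.coe_insert, Set.image_insert_eq]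
  exact Elim.ins _ _ _

/-- elements killed by `ψ` are `δ`-torsion modulo `idL` -/
theorem elim_zero {m t : ℕ} (b : Fin m → Fin (m + 1) → Pol (m + 1)) (r : Fin t → Fin m)
    (c : Fin t → Fin (m + 1)) (ψ : PT (m + 1) →ₐ[Pol (m + 1)] PT (m + 1))
    (hψ : ∀ (e : ℕ) (P : PT (m + 1)), P.IsHomogeneous e →
        C ((Matrix.of fun i j => b (r i) (c j)).det ^ e) * P - ψ P ∈ idL b (univ.image r))
    (hψ' : ∀ (e : ℕ) (P : PT (m + 1)), P.IsHomogeneous e → (ψ P).IsHomogeneous e)
    (P : PT (m + 1)) (hP : ψ P = 0) :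
    ∃ N : ℕ, C ((Matrix.of fun i j => b (r i) (c j)).det ^ N) * P ∈ idL b (univ.image r) :=
  Elim.zero_aux _ _ ψ hψ hψ' P hP

/-- version of `exists_elim` with the degree statement -/
theorem exists_elim' {m t : ℕ} (b : Fin m → Fin (m + 1) → Pol (m + 1)) (r : Fin t → Fin m)
    (c : Fin t → Fin (m + 1)) :
    ∃ ψ : PT (m + 1) →ₐ[Pol (m + 1)] PT (m + 1), (∀ i, ψ (Lf b (r i)) = 0) ∧
      (∀ (e : ℕ) (P : PT (m + 1)), P.IsHomogeneous e → (ψ P).IsHomogeneous e) ∧
      ∀ (e : ℕ) (P : PT (m + 1)), P.IsHomogeneous e →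
        C ((Matrix.of fun i j => b (r i) (c j)).det ^ e) * P - ψ P ∈
          idL b (univ.image r) := by
  refine ⟨aeval (Elim.img b r c), fun i => Elim.kill b r c i, fun e P hP => ?_,
    fun e P hP => Elim.cong b r c _ (Elim.mem b r) e P hP⟩
  have := hP.aeval (Elim.img b r c) (Elim.img_hom b r c)
  rwa [one_mul] at this

end RFL
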