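import Pool.Agent.RFL.Split
import Pool.Agent.RFL.Base

/-!
# RFL-M4 : reduction to the essential case

`W = span (range a)`, `p = dim W = rank D`, `B = B₁` of `exists_orth`. Restricted data on `ℂ^p`:
`a' i = Bᴴ a i` (so `B a' i = a i`, `ip (a' i) (a' j) = ip (a i) (a j)`), `ρ' g = Bᴴ ρ g B`
(multiplicative because `W` is stable under `ρ g`: `B Bᴴ ρ g B = ρ g B`), faithful because all `ρ g`
fix `W^⊥` pointwise (`gen`); `full`: if `ρ' g` fixes `v^⊥ ⊆ ℂ^p` pointwise then `ρ g` fixes `(B v)^⊥`.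
`Φ = sbt Bᴴ : Pol p → Pol n` (`f ↦ f ∘ Bᴴ`) maps `lin (a' i)` to `lin (B a' i) = al i`; ideals are
extended; extension commutes with intersections (`map_inl_iInf` through `exists_split`: `Φ` is
`rename inl` up to the isomorphism). So `J(D) = map Φ J(D')`, `Jsym(D) = map Φ Jsym(D')`,
`Good D' → Good D`.
-/

open MvPolynomial Matrix Finset

noncomputable section

namespace RFL

namespace Ess

variable {n p q : ℕ}

theorem ip_conj (B : Matrix (Fin n) (Fin p) ℂ) (v : Vec n) (w : Vec p) :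
    ip (Bᴴ *ᵥ v) w = ip v (B *ᵥ w) := by
  have h1 : ∀ (m : ℕ) (a b : Vec m), ip a b = star a ⬝ᵥ b := fun m a b => rfl
  rw [h1, h1, Matrix.star_mulVec, Matrix.conjTranspose_conjTranspose, ← Matrix.dotProduct_mulVec]

def FF (B₁ : Matrix (Fin n) (Fin p) ℂ) (B₂ : Matrix (Fin n) (Fin q) ℂ) :
    Pol n →ₐ[ℂ] MvPolynomial (Fin p ⊕ Fin q) ℂ :=
  aeval (fun j => ∑ l, C (B₁ j l) * X (Sum.inl l) + ∑ l, C (B₂ j l) * X (Sum.inr l))

def GG (B₁ : Matrix (Fin n) (Fin p) ℂ) (B₂ : Matrix (Fin n) (Fin q) ℂ) :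
    MvPolynomial (Fin p ⊕ Fin q) ℂ →ₐ[ℂ] Pol n :=
  aeval (Sum.elim (fun l => ∑ j, C (B₁ᴴ l j) * X j) (fun l => ∑ j, C (B₂ᴴ l j) * X j))

theorem FF_X (B₁ : Matrix (Fin n) (Fin p) ℂ) (B₂ : Matrix (Fin n) (Fin q) ℂ) (j : Fin n) :
    FF B₁ B₂ (X j) = ∑ l, C (B₁ j l) * X (Sum.inl l) + ∑ l, C (B₂ j l) * X (Sum.inr l) := by
  unfold FF
  rw [aeval_X]

theorem FF_C (B₁ : Matrix (Fin n) (Fin p) ℂ) (B₂ : Matrix (Fin n) (Fin q) ℂ) (c : ℂ) :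
    FF B₁ B₂ (C c) = C c := (FF B₁ B₂).commutes c

theorem GG_inl (B₁ : Matrix (Fin n) (Fin p) ℂ) (B₂ : Matrix (Fin n) (Fin q) ℂ) (l : Fin p) :
    GG B₁ B₂ (X (Sum.inl l)) = ∑ j, C (B₁ᴴ l j) * X j := by
  unfold GG
  rw [aeval_X, Sum.elim_inl]

theorem GG_inr (B₁ : Matrix (Fin n) (Fin p) ℂ) (B₂ : Matrix (Fin n) (Fin q) ℂ) (l : Fin q) :
    GG B₁ B₂ (X (Sum.inr l)) = ∑ j, C (B₂ᴴ l j) * X j := by
  unfold GG
  rw [aeval_X, Sum.elim_inr]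

theorem GG_C (B₁ : Matrix (Fin n) (Fin p) ℂ) (B₂ : Matrix (Fin n) (Fin q) ℂ) (c : ℂ) :
    GG B₁ B₂ (C c) = C c := (GG B₁ B₂).commutes c


theorem sum_mul_sum {σ : Type} {m k r : ℕ} (A : Matrix (Fin m) (Fin k) ℂ)
    (B : Matrix (Fin k) (Fin r) ℂ) (x : Fin r → MvPolynomial σ ℂ) (i : Fin m) :
    ∑ j, C (A i j) * ∑ l, C (B j l) * x l = ∑ l, C ((A * B) i l) * x l := by
  simp only [Matrix.mul_apply, map_sum, map_mul, Finset.mul_sum, Finset.sum_mul]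
  rw [Finset.sum_comm]
  exact Finset.sum_congr rfl fun l _ => Finset.sum_congr rfl fun j _ => by rw [mul_assoc]

theorem sum_one {σ : Type} {m : ℕ} (x : Fin m → MvPolynomial σ ℂ) (i : Fin m) :
    ∑ l, C ((1 : Matrix (Fin m) (Fin m) ℂ) i l) * x l = x i := by
  rw [Finset.sum_eq_single i]
  · rw [Matrix.one_apply_eq, C_1, one_mul]
  · intro j _ hj
    rw [Matrix.one_apply_ne (Ne.symm hj), C_0, zero_mul]
  · intro h
    exact absurd (Finset.mem_univ i) h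

theorem sum_zero {σ : Type} {m k : ℕ} (x : Fin m → MvPolynomial σ ℂ) (i : Fin k) :
    ∑ l, C ((0 : Matrix (Fin k) (Fin m) ℂ) i l) * x l = 0 := by
  apply Finset.sum_eq_zero
  intro j _
  rw [Matrix.zero_apply, C_0, zero_mul]

theorem GF (B₁ : Matrix (Fin n) (Fin p) ℂ) (B₂ : Matrix (Fin n) (Fin q) ℂ)
    (hs : B₁ * B₁ᴴ + B₂ * B₂ᴴ = 1) : (GG B₁ B₂).comp (FF B₁ B₂) = AlgHom.id ℂ _ := by
  apply MvPolynomial.algHom_ext
  intro j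
  rw [AlgHom.comp_apply, FF_X, map_add, map_sum, map_sum]
  have e1 : ∀ l, GG B₁ B₂ (C (B₁ j l) * X (Sum.inl l)) = C (B₁ j l) * ∑ m, C (B₁ᴴ l m) * X m := by
    intro l
    rw [map_mul, GG_C, GG_inl]
  have e2 : ∀ l, GG B₁ B₂ (C (B₂ j l) * X (Sum.inr l)) = C (B₂ j l) * ∑ m, C (B₂ᴴ l m) * X m := by
    intro l
    rw [map_mul, GG_C, GG_inr]
  rw [Finset.sum_congr rfl (fun l _ => e1 l), Finset.sum_congr rfl (fun l _ => e2 l),
    sum_mul_sum B₁ B₁ᴴ, sum_mul_sum B₂ B₂ᴴ, ← Finset.sum_add_distrib]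
  have e3 : ∀ l : Fin n, C ((B₁ * B₁ᴴ) j l) * (X l : Pol n) + C ((B₂ * B₂ᴴ) j l) * X l =
      C ((1 : Matrix (Fin n) (Fin n) ℂ) j l) * X l := by
    intro l
    rw [← add_mul, ← C_add, ← Matrix.add_apply, hs]
  rw [Finset.sum_congr rfl (fun l _ => e3 l), sum_one, AlgHom.id_apply]

theorem FG (B₁ : Matrix (Fin n) (Fin p) ℂ) (B₂ : Matrix (Fin n) (Fin q) ℂ)
    (h11 : B₁ᴴ * B₁ = 1) (h22 : B₂ᴴ * B₂ = 1) (h12 : B₁ᴴ * B₂ = 0) (h21 : B₂ᴴ * B₁ = 0) :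
    (FF B₁ B₂).comp (GG B₁ B₂) = AlgHom.id ℂ _ := by
  apply MvPolynomial.algHom_ext
  intro l
  rcases l with l | l
  · rw [AlgHom.comp_apply, GG_inl, map_sum]
    have e1 : ∀ j, FF B₁ B₂ (C (B₁ᴴ l j) * X j) = C (B₁ᴴ l j) * ∑ m, C (B₁ j m) * X (Sum.inl m) +
        C (B₁ᴴ l j) * ∑ m, C (B₂ j m) * X (Sum.inr m) := by
      intro j
      rw [map_mul, FF_C, FF_X, mul_add]
    rw [Finset.sum_congr rfl (fun j _ => e1 j), Finset.sum_add_distrib,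
      sum_mul_sum B₁ᴴ B₁, sum_mul_sum B₁ᴴ B₂, h11, h12, sum_zero, add_zero, sum_one,
      AlgHom.id_apply]
  · rw [AlgHom.comp_apply, GG_inr, map_sum]
    have e1 : ∀ j, FF B₁ B₂ (C (B₂ᴴ l j) * X j) = C (B₂ᴴ l j) * ∑ m, C (B₁ j m) * X (Sum.inl m) +
        C (B₂ᴴ l j) * ∑ m, C (B₂ j m) * X (Sum.inr m) := by
      intro j
      rw [map_mul, FF_C, FF_X, mul_add]
    rw [Finset.sum_congr rfl (fun j _ => e1 j), Finset.sum_add_distrib,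
      sum_mul_sum B₂ᴴ B₁, sum_mul_sum B₂ᴴ B₂, h21, h22, sum_zero, zero_add, sum_one,
      AlgHom.id_apply]

/-- the ring homomorphism `f ↦ f ∘ Bᴴ` is a renaming up to an isomorphism -/
theorem exists_iso (B₁ : Matrix (Fin n) (Fin p) ℂ) (B₂ : Matrix (Fin n) (Fin q) ℂ)
    (h11 : B₁ᴴ * B₁ = 1) (h22 : B₂ᴴ * B₂ = 1) (h12 : B₁ᴴ * B₂ = 0)
    (hs : B₁ * B₁ᴴ + B₂ * B₂ᴴ = 1) :
    ∃ Ψ : MvPolynomial (Fin p ⊕ Fin q) ℂ ≃ₐ[ℂ] Pol n,
      ∀ f : Pol p, Ψ (rename Sum.inl f) = sbt B₁ᴴ f := by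
  have h21 : B₂ᴴ * B₁ = 0 := by
    have := congrArg Matrix.conjTranspose h12
    rw [Matrix.conjTranspose_mul, Matrix.conjTranspose_conjTranspose,
      Matrix.conjTranspose_zero] at this
    exact this
  refine ⟨AlgEquiv.ofAlgHom (GG B₁ B₂) (FF B₁ B₂) (GF B₁ B₂ hs) (FG B₁ B₂ h11 h22 h12 h21), ?_⟩
  intro f
  have h3 : (GG B₁ B₂).comp (rename Sum.inl) = sbt B₁ᴴ := by
    apply MvPolynomial.algHom_ext
    intro l
    rw [AlgHom.comp_apply, rename_X, GG_inl]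
    unfold sbt
    rw [aeval_X]
  rw [← h3]
  rfl


/-- extension along `f ↦ f ∘ Bᴴ` commutes with intersections -/
theorem map_sbt_iInf (B₁ : Matrix (Fin n) (Fin p) ℂ) (B₂ : Matrix (Fin n) (Fin q) ℂ)
    (h11 : B₁ᴴ * B₁ = 1) (h22 : B₂ᴴ * B₂ = 1) (h12 : B₁ᴴ * B₂ = 0)
    (hs : B₁ * B₁ᴴ + B₂ * B₂ᴴ = 1) {T : Type} (k : T → Ideal (Pol p)) :
    (⨅ t, k t).map (sbt B₁ᴴ).toRingHom = ⨅ t, (k t).map (sbt B₁ᴴ).toRingHom := by
  obtain ⟨Ψ, hΨ⟩ := exists_iso B₁ B₂ h11 h22 h12 hs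
  have h1 : (sbt B₁ᴴ).toRingHom =
      (Ψ.toRingEquiv : MvPolynomial (Fin p ⊕ Fin q) ℂ →+* Pol n).comp
        (rename (Sum.inl : Fin p → Fin p ⊕ Fin q)).toRingHom :=
    RingHom.ext fun f => (hΨ f).symm
  have h2 : ∀ I : Ideal (Pol p), I.map (sbt B₁ᴴ).toRingHom =
      (I.map (rename (Sum.inl : Fin p → Fin p ⊕ Fin q)).toRingHom).comap
        (Ψ.toRingEquiv.symm : Pol n →+* MvPolynomial (Fin p ⊕ Fin q) ℂ) := by
    intro I
    rw [h1, ← Ideal.map_map]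
    exact Ideal.map_comap_of_equiv Ψ.toRingEquiv
  rw [h2, map_inl_iInf, Ideal.comap_iInf]
  apply iInf_congr
  intro t
  rw [h2]

theorem map_sbt_iInf_ne (B₁ : Matrix (Fin n) (Fin p) ℂ) (B₂ : Matrix (Fin n) (Fin q) ℂ)
    (h11 : B₁ᴴ * B₁ = 1) (h22 : B₂ᴴ * B₂ = 1) (h12 : B₁ᴴ * B₂ = 0)
    (hs : B₁ * B₁ᴴ + B₂ * B₂ᴴ = 1) {T : Type} (I : T → T → Ideal (Pol p)) :
    (⨅ (i : T) (j : T) (_ : i ≠ j), I i j).map (sbt B₁ᴴ).toRingHom =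
      ⨅ (i : T) (j : T) (_ : i ≠ j), (I i j).map (sbt B₁ᴴ).toRingHom := by
  rw [map_sbt_iInf B₁ B₂ h11 h22 h12 hs]
  apply iInf_congr
  intro i
  rw [map_sbt_iInf B₁ B₂ h11 h22 h12 hs]
  apply iInf_congr
  intro j
  by_cases h : i = j
  · have h' : ¬ i ≠ j := fun hne => hne h
    rw [iInf_neg h', iInf_neg h']
    exact Ideal.map_top _
  · have h' : i ≠ j := h
    rw [iInf_pos h', iInf_pos h']

end Ess

namespace RD

open Ess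

/-- the span of the roots -/
def spn {n : ℕ} (D : RD n) : Submodule ℂ (Vec n) := Submodule.span ℂ (Set.range D.a)

theorem a_mem_spn {n : ℕ} (D : RD n) (i : D.ι) : D.a i ∈ D.spn := Submodule.subset_span ⟨i, rfl⟩

theorem rho_spn {n : ℕ} (D : RD n) (g : D.G) (w : Vec n) (hw : w ∈ D.spn) :
    D.ρ g *ᵥ w ∈ D.spn :=
  D.stable_of_proj D.spn (fun i _ _ => Submodule.smul_mem _ _ (D.a_mem_spn i)) g w hw

theorem rho_perp_spn {n : ℕ} (D : RD n) (g : D.G) (x : Vec n) (hx : x ∈ perpS D.spn) :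
    D.ρ g *ᵥ x = x := by
  have hg : g ∈ Subgroup.closure (Set.range D.s) := by
    rw [D.gen]
    exact Subgroup.mem_top g
  induction hg using Subgroup.closure_induction with
  | mem g hg =>
    obtain ⟨i, rfl⟩ := hg
    have h0 : ip (D.a i) x = 0 := by
      rw [← ip_star, hx (D.a i) (D.a_mem_spn i), star_zero]
    rw [D.smul_refl, h0, mul_zero, zero_smul, sub_zero]
  | one => rw [map_one, Matrix.one_mulVec]
  | mul a b _ _ ha hb => rw [map_mul, ← Matrix.mulVec_mulVec, hb, ha]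
  | inv a _ ha =>
    have := D.rho_inv_mul a x
    rw [ha] at this
    exact this

section constr

variable {n p q : ℕ} (D : RD n) (B₁ : Matrix (Fin n) (Fin p) ℂ) (B₂ : Matrix (Fin n) (Fin q) ℂ)
    (h11 : B₁ᴴ * B₁ = 1) (h22 : B₂ᴴ * B₂ = 1)
    (hs : B₁ * B₁ᴴ + B₂ * B₂ᴴ = 1) (hW : ∀ v, v ∈ D.spn ↔ B₁ *ᵥ (B₁ᴴ *ᵥ v) = v)
    (hW' : ∀ v, v ∈ perpS D.spn ↔ B₂ *ᵥ (B₂ᴴ *ᵥ v) = v)

include h11 hW in
theorem ess_key1 (g : D.G) : B₁ * (B₁ᴴ * D.ρ g * B₁) = D.ρ g * B₁ := by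
  rw [Matrix.ext_iff_mulVec]
  intro y
  have h1 : B₁ *ᵥ y ∈ D.spn := by
    rw [hW, Matrix.mulVec_mulVec y, h11, Matrix.one_mulVec]
  have h2 := (hW _).1 (D.rho_spn g _ h1)
  rw [← Matrix.mulVec_mulVec, ← Matrix.mulVec_mulVec, ← Matrix.mulVec_mulVec,
    ← Matrix.mulVec_mulVec]
  exact h2

include h22 hW' in
theorem ess_key2 (g : D.G) : D.ρ g * B₂ = B₂ := by
  rw [Matrix.ext_iff_mulVec]
  intro y
  have h1 : B₂ *ᵥ y ∈ perpS D.spn := by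
    rw [hW', Matrix.mulVec_mulVec y, h22, Matrix.one_mulVec]
  rw [← Matrix.mulVec_mulVec]
  exact D.rho_perp_spn g _ h1

include hW in
theorem ess_a (i : D.ι) : B₁ *ᵥ (B₁ᴴ *ᵥ D.a i) = D.a i := (hW _).1 (D.a_mem_spn i)

include h11 h22 hs hW hW' in
theorem ess_rho_inj (g h : D.G) (hgh : B₁ᴴ * D.ρ g * B₁ = B₁ᴴ * D.ρ h * B₁) : g = h := by
  have h1 : D.ρ g * B₁ = D.ρ h * B₁ := by
    rw [← ess_key1 D B₁ h11 hW g, ← ess_key1 D B₁ h11 hW h, hgh]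
  have h2 : ∀ k : D.G, D.ρ k = D.ρ k * B₁ * B₁ᴴ + B₂ * B₂ᴴ := by
    intro k
    have h3 := ess_key2 D B₂ h22 hW' k
    calc D.ρ k = D.ρ k * (B₁ * B₁ᴴ + B₂ * B₂ᴴ) := by rw [hs, mul_one]
      _ = D.ρ k * B₁ * B₁ᴴ + (D.ρ k * B₂) * B₂ᴴ := by
          rw [Matrix.mul_add, Matrix.mul_assoc, Matrix.mul_assoc]
      _ = _ := by rw [h3]
  apply D.faith
  rw [h2 g, h2 h, h1]

include h11 h22 hs hW hW' in
theorem ess_full (g : D.G) (hg : g ≠ 1) (v : Vec p)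
    (hv : ∀ x, ip v x = 0 → (B₁ᴴ * D.ρ g * B₁) *ᵥ x = x) :
    ∃ i, v ∈ Submodule.span ℂ {B₁ᴴ *ᵥ D.a i} := by
  obtain ⟨i, hi⟩ := D.full g hg (B₁ *ᵥ v) (by
    intro y hy
    have h0 : ip v (B₁ᴴ *ᵥ y) = 0 := by
      have h := ip_conj B₁ᴴ v y
      rw [Matrix.conjTranspose_conjTranspose] at h
      rw [← h]
      exact hy
    have h1 := hv _ h0
    have h2 : D.ρ g *ᵥ (B₁ *ᵥ (B₁ᴴ *ᵥ y)) = B₁ *ᵥ (B₁ᴴ *ᵥ y) := by
      have h3 := congrArg (Matrix.mulVec B₁) h1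
      rw [Matrix.mulVec_mulVec, ess_key1 D B₁ h11 hW g, ← Matrix.mulVec_mulVec] at h3
      exact h3
    have h4 : D.ρ g *ᵥ (B₂ *ᵥ (B₂ᴴ *ᵥ y)) = B₂ *ᵥ (B₂ᴴ *ᵥ y) := by
      rw [Matrix.mulVec_mulVec, ess_key2 D B₂ h22 hW' g]
    have h5 : y = B₁ *ᵥ (B₁ᴴ *ᵥ y) + B₂ *ᵥ (B₂ᴴ *ᵥ y) := by
      rw [Matrix.mulVec_mulVec, Matrix.mulVec_mulVec, ← Matrix.add_mulVec, hs,
        Matrix.one_mulVec]
    calc D.ρ g *ᵥ y = D.ρ g *ᵥ (B₁ *ᵥ (B₁ᴴ *ᵥ y) + B₂ *ᵥ (B₂ᴴ *ᵥ y)) := by rw [← h5]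
      _ = y := by rw [Matrix.mulVec_add, h2, h4, ← h5])
  refine ⟨i, ?_⟩
  obtain ⟨c, hc⟩ := Submodule.mem_span_singleton.1 hi
  refine Submodule.mem_span_singleton.2 ⟨c, ?_⟩
  have h6 := congrArg (Matrix.mulVec B₁ᴴ) hc
  rw [Matrix.mulVec_mulVec, h11, Matrix.one_mulVec, Matrix.mulVec_smul] at h6
  exact h6

/-- the reflection data on the span of the roots -/
def essD : RD p where
  ι := D.ι
  a i := B₁ᴴ *ᵥ D.a i
  unit i := by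
    rw [ip_conj, ess_a D B₁ hW i]
    exact D.unit i
  indep i j h := by
    have h1 : (Matrix.mulVecLin B₁) ∘ ![B₁ᴴ *ᵥ D.a i, B₁ᴴ *ᵥ D.a j] = ![D.a i, D.a j] := by
      funext k
      fin_cases k
      · exact ess_a D B₁ hW i
      · exact ess_a D B₁ hW j
    apply LinearIndependent.of_comp (Matrix.mulVecLin B₁)
    rw [h1]
    exact D.indep i j h
  G := D.G
  ρ := 
    { toFun := fun g => B₁ᴴ * D.ρ g * B₁
      map_one' := by rw [map_one, Matrix.mul_one, h11]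
      map_mul' := by
        intro g h
        rw [map_mul, Matrix.mul_assoc (B₁ᴴ * D.ρ g) B₁, ess_key1 D B₁ h11 hW h]
        simp only [Matrix.mul_assoc] }
  uni g := by
    change (B₁ᴴ * D.ρ g * B₁)ᴴ * (B₁ᴴ * D.ρ g * B₁) = 1
    rw [Matrix.conjTranspose_mul, Matrix.conjTranspose_mul, Matrix.conjTranspose_conjTranspose,
      Matrix.mul_assoc, Matrix.mul_assoc, ess_key1 D B₁ h11 hW g, ← Matrix.mul_assoc (D.ρ g)ᴴ,
      D.uni, Matrix.one_mul, h11]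
  faith g h hgh := ess_rho_inj D B₁ B₂ h11 h22 hs hW hW' g h hgh
  s := D.s
  ζ := D.ζ
  ζne := D.ζne
  refl i := by
    change B₁ᴴ * D.ρ (D.s i) * B₁ = _
    rw [D.refl, Matrix.mul_sub, Matrix.mul_one, Matrix.sub_mul, h11, Matrix.mul_smul,
      Matrix.smul_mul, Matrix.mul_vecMulVec, Matrix.vecMulVec_mul]
    congr 3
    rw [Matrix.star_mulVec, Matrix.conjTranspose_conjTranspose]
  gen := D.gen
  full g hg v hv := ess_full D B₁ B₂ h11 h22 hs hW hW' g hg v hv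

end constr

theorem exists_ess {n : ℕ} (D : RD n) :
    ∃ D' : RD D.rank, D'.rank = D.rank ∧ (D'.Good → D.Good) := by
  obtain ⟨p, q, B₁, B₂, hp, -, h11, h22, h12, hs, hW, hW'⟩ := exists_orth D.spn
  have hp' : p = D.rank := hp
  rw [← hp']
  have hsl : ∀ i, sbt B₁ᴴ (lin (B₁ᴴ *ᵥ D.a i)) = D.al i := by
    intro i
    rw [sbt_lin, Matrix.conjTranspose_conjTranspose, ess_a D B₁ hW i]
    rfl
  have hrk : (essD D B₁ B₂ h11 h22 hs hW hW').rank = p := by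
    have hr : Submodule.span ℂ (Set.range (fun i => B₁ᴴ *ᵥ D.a i)) =
        D.spn.map (Matrix.mulVecLin B₁ᴴ) := by
      unfold spn
      rw [Submodule.map_span, ← Set.range_comp]
      rfl
    have hr2 : D.spn = (D.spn.map (Matrix.mulVecLin B₁ᴴ)).map (Matrix.mulVecLin B₁) := by
      rw [← Submodule.map_comp]
      apply le_antisymm
      · intro v hv
        exact ⟨v, hv, (hW v).1 hv⟩
      · rintro _ ⟨v, hv, rfl⟩
        have h3 : (Matrix.mulVecLin B₁ ∘ₗ Matrix.mulVecLin B₁ᴴ) v = v := (hW v).1 hv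
        rw [h3]
        exact hv
    change Module.finrank ℂ (Submodule.span ℂ (Set.range (fun i => B₁ᴴ *ᵥ D.a i))) = p
    rw [hr]
    refine Eq.trans ?_ hp.symm
    apply le_antisymm
    · exact Submodule.finrank_map_le _ _
    · conv_lhs => rw [hr2]
      exact Submodule.finrank_map_le _ _
  refine ⟨essD D B₁ B₂ h11 h22 hs hW hW', hrk, ?_⟩
  · rintro ⟨⟨w, hw⟩, hpow⟩
    have hIX : ∀ i j : D.ι, ((essD D B₁ B₂ h11 h22 hs hW hW').IX i j).map (sbt B₁ᴴ).toRingHom =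
        D.IX i j := by
      intro i j
      change (Ideal.span {lin (B₁ᴴ *ᵥ D.a i), lin (B₁ᴴ *ᵥ D.a j)}).map (sbt B₁ᴴ).toRingHom = _
      rw [Ideal.map_span, Set.image_pair]
      change Ideal.span {sbt B₁ᴴ (lin (B₁ᴴ *ᵥ D.a i)), sbt B₁ᴴ (lin (B₁ᴴ *ᵥ D.a j))} = _
      rw [hsl, hsl]
      rfl
    have hJ : ((essD D B₁ B₂ h11 h22 hs hW hW').J).map (sbt B₁ᴴ).toRingHom = D.J := by
      refine (map_sbt_iInf_ne B₁ B₂ h11 h22 h12 hs (T := D.ι)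
        (fun i j => (essD D B₁ B₂ h11 h22 hs hW hW').IX i j)).trans ?_
      simp only [hIX]
      rfl
    have hJs : ∀ m, ((essD D B₁ B₂ h11 h22 hs hW hW').Jsym m).map (sbt B₁ᴴ).toRingHom =
        D.Jsym m := by
      intro m
      refine (map_sbt_iInf_ne B₁ B₂ h11 h22 h12 hs (T := D.ι)
        (fun i j => ((essD D B₁ B₂ h11 h22 hs hW hW').IX i j) ^ m)).trans ?_
      simp only [Ideal.map_pow, hIX]
      rfl
    refine ⟨?_, ?_⟩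
    · rw [← hp', ← hrk]
      refine ⟨fun k => sbt B₁ᴴ (w k), ?_⟩
      rw [← hJ, hw, Ideal.map_span, ← Set.range_comp]
      rfl
    · intro r hr
      rw [← hJs, ← hJ, ← Ideal.map_pow]
      exact Ideal.map_mono (hpow r hr)

end RD

end RFL
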