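import Pool.Agent.RFL.FinA

/-!
# RFL-N2 : from a finite group to reflection data

Original definitions (as in the final statement): `hyps G` the reflecting hyperplanes, `vanI X` the
vanishing ideal, `singI`, `symb`.

`exists_RD`: let `A` be as in `exists_unitarize`. `ι = hyps G` (finite: `H ∈ hyps G` is the fixed space
of some `g ∈ G`). For `H ∈ hyps G` choose a reflection `g_H ∈ G`, `A H` is a hyperplane of `ℂ^n`, `a H`
a unit vector orthogonal to it; `A g_H A⁻¹` is unitary and fixes `(a H)^⊥ = A H` pointwise: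
`unitary_refl`. The group is the subgroup of `A G A⁻¹` generated by the `A g_H A⁻¹`
(as a type: `Subgroup.closure` in `GL`). `full`: an element `≠ 1` of the group fixing `v^⊥` pointwise
(`v ≠ 0`) is a reflection, so `A⁻¹ (v^⊥) ∈ hyps G`.
-/

open MvPolynomial Matrix Finset

noncomputable section

namespace RFL

namespace FinB

variable {n : ℕ}

theorem inv_left (A : GL (Fin n) ℂ) :
    ((A⁻¹ : GL (Fin n) ℂ) : Matrix (Fin n) (Fin n) ℂ) * (A : Matrix (Fin n) (Fin n) ℂ) = 1 := by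
  rw [← Units.val_mul, inv_mul_cancel, Units.val_one]

theorem inv_right (A : GL (Fin n) ℂ) :
    (A : Matrix (Fin n) (Fin n) ℂ) * ((A⁻¹ : GL (Fin n) ℂ) : Matrix (Fin n) (Fin n) ℂ) = 1 := by
  rw [← Units.val_mul, mul_inv_cancel, Units.val_one]

theorem sbt_inv (A : GL (Fin n) ℂ) (f : Pol n) :
    sbt (A : Matrix (Fin n) (Fin n) ℂ)
      (sbt ((A⁻¹ : GL (Fin n) ℂ) : Matrix (Fin n) (Fin n) ℂ) f) = f := by
  rw [sbt_sbt, inv_left, sbt_one]

theorem inv_sbt (A : GL (Fin n) ℂ) (f : Pol n) :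
    sbt ((A⁻¹ : GL (Fin n) ℂ) : Matrix (Fin n) (Fin n) ℂ)
      (sbt (A : Matrix (Fin n) (Fin n) ℂ) f) = f := by
  rw [sbt_sbt, inv_right, sbt_one]

theorem mem_map_iff (A : GL (Fin n) ℂ) (I : Ideal (Pol n)) (f : Pol n) :
    f ∈ I.map (sbt (A : Matrix (Fin n) (Fin n) ℂ)).toRingHom ↔
      sbt ((A⁻¹ : GL (Fin n) ℂ) : Matrix (Fin n) (Fin n) ℂ) f ∈ I := by
  constructor
  · intro hf
    have h1 : I.map (sbt (A : Matrix (Fin n) (Fin n) ℂ)).toRingHom ≤
        I.comap (sbt ((A⁻¹ : GL (Fin n) ℂ) : Matrix (Fin n) (Fin n) ℂ)).toRingHom := by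
      rw [Ideal.map_le_iff_le_comap]
      intro g hg
      rw [Ideal.mem_comap, Ideal.mem_comap]
      change sbt _ (sbt _ g) ∈ I
      rwa [inv_sbt]
    exact h1 hf
  · intro hf
    have h1 := Ideal.mem_map_of_mem (sbt (A : Matrix (Fin n) (Fin n) ℂ)).toRingHom hf
    change sbt _ (sbt _ f) ∈ _ at h1
    rwa [sbt_inv] at h1

theorem map_IX (G : Subgroup (GL (Fin n) ℂ)) (D : RD n) (A : GL (Fin n) ℂ)
    (e : D.ι ≃ hyps G) (he : ∀ i x, x ∈ (e i).1 ↔
      ip (D.a i) ((A : Matrix (Fin n) (Fin n) ℂ) *ᵥ x) = 0) (i j : D.ι) :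
    (D.IX i j).map (sbt (A : Matrix (Fin n) (Fin n) ℂ)).toRingHom =
      vanI ((e i).1 ⊓ (e j).1) := by
  ext f
  rw [mem_map_iff]
  unfold RD.IX RD.al
  rw [mem_span_pair_iff]
  unfold vanI
  rw [MvPolynomial.mem_vanishingIdeal_iff]
  constructor
  · intro h x hx
    have hx1 : x ∈ (e i).1 ⊓ (e j).1 := hx
    obtain ⟨hxi, hxj⟩ := Submodule.mem_inf.1 hx1
    have h2 := h ((A : Matrix (Fin n) (Fin n) ℂ) *ᵥ x) ((he i x).1 hxi) ((he j x).1 hxj)
    rw [eval_sbt, Matrix.mulVec_mulVec, inv_left, Matrix.one_mulVec] at h2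
    rw [← MvPolynomial.coe_aeval_eq_eval] at h2
    exact h2
  · intro h x hxi hxj
    rw [eval_sbt]
    have h3 : ∀ k, ip (D.a k) x = 0 →
        ((A⁻¹ : GL (Fin n) ℂ) : Matrix (Fin n) (Fin n) ℂ) *ᵥ x ∈ (e k).1 := by
      intro k hk
      rw [he, Matrix.mulVec_mulVec, inv_right, Matrix.one_mulVec]
      exact hk
    have h2 := h (((A⁻¹ : GL (Fin n) ℂ) : Matrix (Fin n) (Fin n) ℂ) *ᵥ x)
      (Submodule.mem_inf.2 ⟨h3 i hxi, h3 j hxj⟩)
    rw [← MvPolynomial.coe_aeval_eq_eval]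
    exact h2

/-- reindexing -/
theorem reindex (G : Subgroup (GL (Fin n) ℂ)) {ι : Type} (e : ι ≃ hyps G)
    (P : Submodule ℂ (Fin n → ℂ) → Submodule ℂ (Fin n → ℂ) → Prop) :
    (∀ H ∈ hyps G, ∀ H' ∈ hyps G, H ≠ H' → P H H') ↔
      ∀ i j, i ≠ j → P (e i).1 (e j).1 := by
  constructor
  · intro h i j hij
    refine h _ (e i).2 _ (e j).2 ?_
    intro h1
    exact hij (e.injective (Subtype.ext h1))
  · intro h H hH H' hH' hne
    have h1 := h (e.symm ⟨H, hH⟩) (e.symm ⟨H', hH'⟩) (by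
      intro h2
      have h3 := e.symm.injective h2
      exact hne (congrArg Subtype.val h3))
    rw [Equiv.apply_symm_apply, Equiv.apply_symm_apply] at h1
    exact h1

end FinB

open FinB

/-- transport of the ideals -/
theorem symb_eq {n : ℕ} (G : Subgroup (GL (Fin n) ℂ)) (D : RD n) (A : GL (Fin n) ℂ)
    (e : D.ι ≃ hyps G) (he : ∀ i x, x ∈ (e i).1 ↔
      ip (D.a i) ((A : Matrix (Fin n) (Fin n) ℂ) *ᵥ x) = 0) (m : ℕ) :
    symb G m = (D.Jsym m).map (sbt (A : Matrix (Fin n) (Fin n) ℂ)).toRingHom := by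
  ext f
  rw [mem_map_iff]
  unfold symb RD.Jsym
  simp only [Ideal.mem_iInf]
  rw [reindex G e (fun H H' => f ∈ (vanI (H ⊓ H')) ^ m)]
  refine forall_congr' fun i => forall_congr' fun j => forall_congr' fun _ => ?_
  rw [← mem_map_iff, Ideal.map_pow, map_IX G D A e he i j]

theorem singI_eq {n : ℕ} (G : Subgroup (GL (Fin n) ℂ)) (D : RD n) (A : GL (Fin n) ℂ)
    (e : D.ι ≃ hyps G) (he : ∀ i x, x ∈ (e i).1 ↔
      ip (D.a i) ((A : Matrix (Fin n) (Fin n) ℂ) *ᵥ x) = 0) :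
    singI G = D.J.map (sbt (A : Matrix (Fin n) (Fin n) ℂ)).toRingHom := by
  ext f
  rw [mem_map_iff]
  unfold singI RD.J
  simp only [Ideal.mem_iInf]
  rw [reindex G e (fun H H' => f ∈ vanI (H ⊓ H'))]
  refine forall_congr' fun i => forall_congr' fun j => forall_congr' fun _ => ?_
  rw [← mem_map_iff, map_IX G D A e he i j]

end RFL
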