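import Pool.Agent.RFL.Lin1

/-!
# RFL-L2 : coordinates adapted to linearly independent forms; vanishing ideals of linear subspaces

`exists_coord`: complete `y` to a basis of `ℂ^n`, let `A` be the invertible matrix with rows
`star (y i)` (and the rest), `B = A⁻¹`; `sbt B (lin (y i)) = X i`.
`mem_span_iff_vanish`: by `exists_coord` for a maximal independent subfamily one reduces to
`y i = e_i`, `i < k`: a polynomial vanishing on `x_1 = ... = x_k = 0` is in `(x_1, ..., x_k)`
(split monomials; the part without `x_1..x_k` is the polynomial substituted by `0`).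
-/

open MvPolynomial Matrix Finset

noncomputable section

namespace RFL

variable {n : ℕ}

private theorem exists_basis {k : ℕ} (y : Fin k → Vec n) (hy : LinearIndependent ℂ y) :
    ∃ (hk : k ≤ n) (b : Module.Basis (Fin n) ℂ (Vec n)), ∀ i : Fin k, b (Fin.castLE hk i) = y i := by
  classical
  have hk : k ≤ n := by
    have h := hy.fintype_card_le_finrank
    simpa using h
  let b0 := Module.Basis.sumExtend hy
  have : Fintype (Fin k ⊕ Module.Basis.sumExtendIndex hy) := FiniteDimensional.fintypeBasisIndex b0
  have : Fintype (Module.Basis.sumExtendIndex hy) := Fintype.ofInjective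
    (Sum.inr : Module.Basis.sumExtendIndex hy → Fin k ⊕ Module.Basis.sumExtendIndex hy)
    Sum.inr_injective
  have hc : Fintype.card (Module.Basis.sumExtendIndex hy) = n - k := by
    have h1 := Module.finrank_eq_card_basis b0
    rw [Module.finrank_fin_fun] at h1
    have h2 : Fintype.card (Fin k ⊕ Module.Basis.sumExtendIndex hy) =
        k + Fintype.card (Module.Basis.sumExtendIndex hy) := by
      rw [show Fintype.card (Fin k ⊕ Module.Basis.sumExtendIndex hy) =
        Fintype.card (Fin k) + Fintype.card (Module.Basis.sumExtendIndex hy) by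
          convert Fintype.card_sum, Fintype.card_fin]
    omega
  let e : (Fin k ⊕ Module.Basis.sumExtendIndex hy) ≃ Fin n :=
    ((Equiv.sumCongr (Equiv.refl (Fin k)) (Fintype.equivFinOfCardEq hc)).trans
      finSumFinEquiv).trans (finCongr (by omega))
  refine ⟨hk, b0.reindex e, fun i => ?_⟩
  have h3 : e (Sum.inl i) = Fin.castLE hk i := by
    apply Fin.ext
    simp [e]
  rw [← h3, Module.Basis.reindex_apply, Equiv.symm_apply_apply]
  simp only [b0, Module.Basis.sumExtend, Module.Basis.reindex_apply, Equiv.symm_symm,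
    Module.Basis.coe_extend]
  rfl

theorem exists_coord {k : ℕ} (y : Fin k → Vec n) (hy : LinearIndependent ℂ y) :
    ∃ (hk : k ≤ n) (B B' : Matrix (Fin n) (Fin n) ℂ), B * B' = 1 ∧ B' * B = 1 ∧
      ∀ i : Fin k, sbt B (lin (y i)) = X (Fin.castLE hk i) := by
  classical
  obtain ⟨hk, b, hb⟩ := exists_basis y hy
  let A := (Pi.basisFun ℂ (Fin n)).toMatrix b
  let A' := b.toMatrix (Pi.basisFun ℂ (Fin n))
  have h1 : A * A' = 1 := Module.Basis.toMatrix_mul_toMatrix_flip _ _
  have h2 : A' * A = 1 := Module.Basis.toMatrix_mul_toMatrix_flip _ _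
  refine ⟨hk, A'ᴴ, Aᴴ, ?_, ?_, fun i => ?_⟩
  · rw [← Matrix.conjTranspose_mul, h1, Matrix.conjTranspose_one]
  · rw [← Matrix.conjTranspose_mul, h2, Matrix.conjTranspose_one]
  · rw [sbt_lin, Matrix.conjTranspose_conjTranspose, ← hb i]
    have h3 : b (Fin.castLE hk i) = A *ᵥ (Pi.single (Fin.castLE hk i) 1) := by
      rw [Matrix.mulVec_single_one]
      funext j
      simp [A, Module.Basis.toMatrix_apply]
    rw [h3, Matrix.mulVec_mulVec, h2, Matrix.one_mulVec]
    unfold lin
    rw [Finset.sum_eq_single (Fin.castLE hk i)]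
    · simp
    · intro j _ hj
      simp [hj]
    · intro h
      exact absurd (Finset.mem_univ _) h

private theorem exists_proj {T : Type} [Fintype T] (y : T → Vec n) :
    ∃ P : Matrix (Fin n) (Fin n) ℂ, (∀ x s, ip (y s) (P *ᵥ x) = 0) ∧
      (∀ x, (∀ s, ip (y s) x = 0) → P *ᵥ x = x) ∧
      ∀ f : Pol n, f - sbt P f ∈ Ideal.span (Set.range fun s => lin (y s)) := by
  classical
  let L : T → (Vec n →ₗ[ℂ] ℂ) := fun s =>
    { toFun := fun x => ip (y s) x
      map_add' := fun a b => ip_add_right _ _ _
      map_smul' := fun c a => ip_smul_right _ _ _ }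
  let K : Submodule ℂ (Vec n) := ⨅ s, LinearMap.ker (L s)
  have hK : ∀ x, x ∈ K ↔ ∀ s, ip (y s) x = 0 := by
    intro x
    simp only [K, Submodule.mem_iInf, LinearMap.mem_ker]
    rfl
  obtain ⟨g, hg⟩ := LinearMap.exists_leftInverse_of_injective K.subtype K.ker_subtype
  let P0 : Vec n →ₗ[ℂ] Vec n := K.subtype ∘ₗ g
  have hP1 : ∀ x, P0 x ∈ K := fun x => (g x).2
  have hP2 : ∀ x ∈ K, P0 x = x := by
    intro x hx
    have h := congrArg (fun φ => φ ⟨x, hx⟩) hg
    simp only [LinearMap.comp_apply, LinearMap.id_apply, Submodule.subtype_apply] at h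
    simp only [P0, LinearMap.comp_apply, Submodule.subtype_apply, h]
  have hP3 : ∀ x, (LinearMap.toMatrix' P0) *ᵥ x = P0 x := fun x => by
    rw [← Matrix.toLin'_apply, Matrix.toLin'_toMatrix']
  refine ⟨LinearMap.toMatrix' P0, ?_, ?_, ?_⟩
  · intro x s
    rw [hP3]
    exact (hK _).1 (hP1 x) s
  · intro x hx
    rw [hP3]
    exact hP2 x ((hK x).2 hx)
  · intro f
    induction f using MvPolynomial.induction_on with
    | C a =>
      have : sbt (LinearMap.toMatrix' P0) (C a : Pol n) = C a := by
        rw [sbt, aeval_C]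
        rfl
      rw [this, sub_self]
      exact Ideal.zero_mem _
    | add p q hp hq =>
      rw [map_add, add_sub_add_comm]
      exact Ideal.add_mem _ hp hq
    | mul_X p j hp =>
      have hX : (X j : Pol n) - sbt (LinearMap.toMatrix' P0) (X j) ∈
          Ideal.span (Set.range fun s => lin (y s)) := by
        let φ : Vec n →ₗ[ℂ] ℂ := (LinearMap.proj j) ∘ₗ (LinearMap.id - P0)
        have hφ : (⨅ s, LinearMap.ker (L s)) ≤ LinearMap.ker φ := by
          intro x hx
          rw [LinearMap.mem_ker]
          simp only [φ, LinearMap.comp_apply, LinearMap.sub_apply, LinearMap.id_apply, hP2 x hx,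
            sub_self, map_zero]
        have hmem := mem_span_of_iInf_ker_le_ker hφ
        rw [Submodule.mem_span_range_iff_exists_fun] at hmem
        obtain ⟨c, hc⟩ := hmem
        have he : (X j : Pol n) - sbt (LinearMap.toMatrix' P0) (X j) =
            ∑ s, C (c s) * lin (y s) := by
          apply MvPolynomial.funext
          intro v
          rw [map_sub, eval_sbt, hP3, eval_X, eval_X, map_sum]
          simp only [map_mul, eval_C, eval_lin]
          have h5 := congrArg (fun ψ => ψ v) hc
          simp only [LinearMap.sum_apply, LinearMap.smul_apply, smul_eq_mul] at h5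
          have h6 : φ v = v j - P0 v j := rfl
          rw [← h6, ← h5]
          rfl
        rw [he]
        exact Ideal.sum_mem _ fun s _ =>
          Ideal.mul_mem_left _ _ (Ideal.subset_span ⟨s, rfl⟩)
      have e : p * X j - sbt (LinearMap.toMatrix' P0) (p * X j) =
          (p - sbt (LinearMap.toMatrix' P0) p) * X j +
            sbt (LinearMap.toMatrix' P0) p * (X j - sbt (LinearMap.toMatrix' P0) (X j)) := by
        rw [map_mul]
        ring
      rw [e]
      exact Ideal.add_mem _ (Ideal.mul_mem_right _ _ hp) (Ideal.mul_mem_left _ _ hX)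

private theorem vanish_of_mem {T : Type} [Fintype T] (y : T → Vec n) (f : Pol n)
    (hf : f ∈ Ideal.span (Set.range fun s => lin (y s))) (x : Vec n)
    (hx : ∀ s, ip (y s) x = 0) : eval x f = 0 := by
  have h : Ideal.span (Set.range fun s => lin (y s)) ≤ RingHom.ker (eval x : Pol n →+* ℂ) := by
    rw [Ideal.span_le]
    rintro _ ⟨s, rfl⟩
    rw [SetLike.mem_coe, RingHom.mem_ker, eval_lin]
    exact hx s
  exact h hf

/-- the vanishing ideal of the common kernel of the forms `y s`, `s ∈ T`, is generated by them -/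
theorem mem_span_iff_vanish {T : Type} [Fintype T] (y : T → Vec n) (f : Pol n) :
    f ∈ Ideal.span (Set.range fun s => lin (y s)) ↔
      ∀ x, (∀ s, ip (y s) x = 0) → eval x f = 0 := by
  constructor
  · intro hf x hx
    exact vanish_of_mem y f hf x hx
  · intro h
    obtain ⟨P, h1, -, h3⟩ := exists_proj y
    have h4 : sbt P f = 0 := by
      apply MvPolynomial.funext
      intro v
      rw [eval_sbt, map_zero]
      exact h _ (h1 v)
    have h5 := h3 f
    rwa [h4, sub_zero] at h5

private theorem range_pair (a b : Vec n) :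
    (Set.range fun s : Fin 2 => lin ((![a, b] : Fin 2 → Vec n) s)) = {lin a, lin b} := by
  ext p
  simp only [Set.mem_range, Fin.exists_fin_two, Matrix.cons_val_zero, Matrix.cons_val_one,
    Set.mem_insert_iff, Set.mem_singleton_iff, eq_comm]

theorem mem_span_pair_iff (a b : Vec n) (f : Pol n) :
    f ∈ Ideal.span {lin a, lin b} ↔ ∀ x, ip a x = 0 → ip b x = 0 → eval x f = 0 := by
  rw [← range_pair a b, mem_span_iff_vanish]
  refine forall_congr' fun x => ?_
  rw [Fin.forall_fin_two]
  simp only [Matrix.cons_val_zero, Matrix.cons_val_one, and_imp]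

theorem span_pair_eq {a b c d : Vec n}
    (h : Submodule.span ℂ {a, b} = Submodule.span ℂ ({c, d} : Set (Vec n))) :
    Ideal.span {lin a, lin b} = Ideal.span ({lin c, lin d} : Set (Pol n)) := by
  have key : ∀ (a b : Vec n) (x : Vec n), Submodule.span ℂ {a, b} ≤ perp x ↔
      ip a x = 0 ∧ ip b x = 0 := by
    intro a b x
    rw [Submodule.span_le, Set.insert_subset_iff, Set.singleton_subset_iff]
    rfl
  ext f
  rw [mem_span_pair_iff, mem_span_pair_iff]
  refine forall_congr' fun x => ?_
  rw [← and_imp, ← and_imp, ← key, ← key, h]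

theorem span_pair_prime (a b : Vec n) : (Ideal.span {lin a, lin b}).IsPrime := by
  obtain ⟨P, h1, h2, h3⟩ := exists_proj (![a, b] : Fin 2 → Vec n)
  have h : Ideal.span {lin a, lin b} = RingHom.ker ((sbt P : Pol n →ₐ[ℂ] Pol n) : Pol n →+* Pol n) := by
    ext f
    rw [RingHom.mem_ker, ← range_pair a b]
    constructor
    · intro hf
      apply MvPolynomial.funext
      intro v
      rw [map_zero]
      have h5 := vanish_of_mem _ f hf _ (h1 v)
      rw [← eval_sbt] at h5
      exact h5
    · intro hf
      have h5 := h3 f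
      have h6 : sbt P f = 0 := hf
      rwa [h6, sub_zero] at h5
  rw [h]
  exact RingHom.ker_isPrime _

end RFL
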