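import Pool.Agent.RFL.Unit
import Pool.Agent.RFL.Lin2

/-!
# RFL-N2 : from a finite group to reflection data

Original definitions (as in the final statement): `hyps G` the reflecting hyperplanes, `vanI X` the
vanishing ideal, `singI`, `symb`.

`exists_RD`: let `A` be as in `exists_unitarize`. `ι = hyps G` (finite: `H ∈ hyps G` is the fixed space
of some `g ∈ G`). For `H ∈ hyps G` choose a reflection `g_H ∈ G`, `A H` is a hyperplane of `ℂ^n`, `a H`
a unit vector orthogonal to it; `A g_H A⁻¹` is unitary and fixes `(a H)^⊥ = A H` pointwise: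
`unitary_refl`. The group is the subgroup of `A G A⁻¹` generated by the `A g_H A⁻¹`
(as a type: `Subgroup.closure` in `GL`). `full`: an element `≠ 1` of the group fixing `v^⊥` pointwise
(`v ≠ 0`) is a reflection, so `A⁻¹ (v^⊥) ∈ hyps G`.
-/

open MvPolynomial Matrix Finset

noncomputable section

namespace RFL

/-- reflecting hyperplanes -/
def hyps {n : ℕ} (G : Subgroup (GL (Fin n) ℂ)) : Set (Submodule ℂ (Fin n → ℂ)) :=
  {H | Module.finrank ℂ H + 1 = n ∧
    ∃ g ∈ G, g ≠ 1 ∧ ∀ x ∈ H, (g : Matrix (Fin n) (Fin n) ℂ) *ᵥ x = x}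

/-- vanishing ideal -/
def vanI {n : ℕ} (X : Submodule ℂ (Fin n → ℂ)) : Ideal (MvPolynomial (Fin n) ℂ) :=
  MvPolynomial.vanishingIdeal ℂ (X : Set (Fin n → ℂ))

/-- symbolic powers of the ideal of the singular locus -/
def symb {n : ℕ} (G : Subgroup (GL (Fin n) ℂ)) (m : ℕ) : Ideal (MvPolynomial (Fin n) ℂ) :=
  ⨅ (H ∈ hyps G) (H' ∈ hyps G) (_ : H ≠ H'), (vanI (H ⊓ H')) ^ m

/-- ideal of the singular locus -/
def singI {n : ℕ} (G : Subgroup (GL (Fin n) ℂ)) : Ideal (MvPolynomial (Fin n) ℂ) :=
  ⨅ (H ∈ hyps G) (H' ∈ hyps G) (_ : H ≠ H'), vanI (H ⊓ H')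

namespace FinA

theorem finrank_ker_add_one {n : ℕ} (f : Vec n →ₗ[ℂ] ℂ) (hf : f ≠ 0) :
    Module.finrank ℂ (LinearMap.ker f) + 1 = n := by
  have h1 := LinearMap.finrank_range_add_finrank_ker f
  have h2 : LinearMap.range f = ⊤ := LinearMap.range_eq_top.2 (LinearMap.surjective hf)
  rw [h2, finrank_top, Module.finrank_self, Module.finrank_fin_fun] at h1
  omega

/-- `x ↦ ip a x` -/
def ipL {n : ℕ} (a : Vec n) : Vec n →ₗ[ℂ] ℂ where
  toFun x := ip a x
  map_add' := ip_add_right a
  map_smul' c x := by simp [ip_smul_right]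

theorem ipL_ne {n : ℕ} {a : Vec n} (ha : a ≠ 0) : ipL a ≠ 0 := by
  intro h
  have : ip a a = 0 := by
    have := LinearMap.congr_fun h a
    simpa [ipL] using this
  exact ha (ip_self_eq_zero.1 this)

theorem exists_unit_normal {n : ℕ} (K : Submodule ℂ (Vec n))
    (hK : Module.finrank ℂ K + 1 = n) :
    ∃ a : Vec n, ip a a = 1 ∧ ∀ x, x ∈ K ↔ ip a x = 0 := by
  have hlt : K < ⊤ := by
    rw [lt_top_iff_ne_top]
    rintro rfl
    rw [finrank_top, Module.finrank_fin_fun] at hK
    omega
  obtain ⟨f, hf0, hf⟩ := Submodule.exists_le_ker_of_lt_top K hlt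
  have hker : K = LinearMap.ker f := by
    apply Submodule.eq_of_le_of_finrank_eq hf
    have := finrank_ker_add_one f hf0
    omega
  let b : Vec n := fun j => star (f (Pi.single j 1))
  have hb : ∀ x, ip b x = f x := by
    intro x
    have hx : x = ∑ j, x j • (Pi.single j (1 : ℂ) : Vec n) := by
      ext l
      simp [Finset.sum_apply, Pi.single_apply]
    conv_rhs => rw [hx]
    rw [map_sum]
    simp only [ip, b, star_star, map_smul, smul_eq_mul]
    exact Finset.sum_congr rfl fun j _ => mul_comm _ _
  have hb0 : b ≠ 0 := by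
    intro h
    apply hf0
    ext x
    have := hb (Pi.single x 1)
    rw [h, ip_zero_left] at this
    simp [← this]
  set N : ℝ := ∑ j, ‖b j‖ ^ 2 with hN
  have hbb : ip b b = (N : ℂ) := by
    rw [hN, ip]
    push_cast
    refine Finset.sum_congr rfl fun j _ => ?_
    rw [Complex.star_def, Complex.conj_mul']
  have hN0 : 0 ≤ N := Finset.sum_nonneg fun j _ => by positivity
  have hNpos : 0 < N := by
    rcases hN0.lt_or_eq with h | h
    · exact h
    · exfalso
      apply hb0
      apply ip_self_eq_zero.1
      rw [hbb, ← h, Complex.ofReal_zero]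
  have hsq : Real.sqrt N ≠ 0 := (Real.sqrt_pos.2 hNpos).ne'
  have hsqC : ((Real.sqrt N : ℝ) : ℂ) ≠ 0 := by exact_mod_cast hsq
  refine ⟨((Real.sqrt N : ℝ) : ℂ)⁻¹ • b, ?_, ?_⟩
  · rw [ip_smul_left, ip_smul_right, hbb, star_inv₀, Complex.star_def, Complex.conj_ofReal]
    have : ((Real.sqrt N : ℝ) : ℂ) * ((Real.sqrt N : ℝ) : ℂ) = (N : ℂ) := by
      rw [← Complex.ofReal_mul, Real.mul_self_sqrt hN0]
    rw [← this]
    field_simp
  · intro x
    rw [ip_smul_left, hb, hker, LinearMap.mem_ker]
    constructor
    · intro h; rw [h, mul_zero]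
    · intro h
      rcases mul_eq_zero.1 h with h | h
      · exfalso
        rw [star_inv₀, inv_eq_zero, Complex.star_def, Complex.conj_ofReal] at h
        exact hsqC h
      · exact h

end FinA

theorem exists_RD {n : ℕ} (G : Subgroup (GL (Fin n) ℂ)) [Finite G] :
    ∃ (D : RD n) (A : GL (Fin n) ℂ) (e : D.ι ≃ hyps G), ∀ i x,
      x ∈ (e i).1 ↔ ip (D.a i) ((A : Matrix (Fin n) (Fin n) ℂ) *ᵥ x) = 0 := by
  classical
  obtain ⟨A, hA⟩ := exists_unitarize G
  have hAA : (A : Matrix (Fin n) (Fin n) ℂ) * ((A⁻¹ : GL (Fin n) ℂ) : Matrix _ _ ℂ) = 1 :=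
    A.mul_inv
  have hAA' : ((A⁻¹ : GL (Fin n) ℂ) : Matrix (Fin n) (Fin n) ℂ) * (A : Matrix _ _ ℂ) = 1 :=
    A.inv_mul
  -- the reflections
  choose g hgG hg1 hgfix using fun H : hyps G => H.2.2
  -- normal vectors
  have hn : ∀ H : hyps G, ∃ a : Vec n, ip a a = 1 ∧ ∀ x, x ∈ H.1 ↔
      ip a ((A : Matrix (Fin n) (Fin n) ℂ) *ᵥ x) = 0 := by
    intro H
    have hfr : Module.finrank ℂ (H.1.map (Matrix.toLin' (A : Matrix (Fin n) (Fin n) ℂ))) + 1
        = n := by
      have hinj : Function.Injective (Matrix.toLin' (A : Matrix (Fin n) (Fin n) ℂ)) := by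
        intro x y hxy
        rw [Matrix.toLin'_apply, Matrix.toLin'_apply] at hxy
        have := congrArg (fun z => ((A⁻¹ : GL (Fin n) ℂ) : Matrix (Fin n) (Fin n) ℂ) *ᵥ z) hxy
        simpa [Matrix.mulVec_mulVec, hAA'] using this
      rw [(Submodule.equivMapOfInjective _ hinj H.1).symm.finrank_eq]
      exact H.2.1
    obtain ⟨a, ha, hax⟩ := FinA.exists_unit_normal _ hfr
    refine ⟨a, ha, fun x => ?_⟩
    rw [← hax]
    constructor
    · intro hx
      exact ⟨x, hx, Matrix.toLin'_apply _ _⟩
    · rintro ⟨y, hy, hyx⟩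
      rw [Matrix.toLin'_apply] at hyx
      have := congrArg (fun z => ((A⁻¹ : GL (Fin n) ℂ) : Matrix (Fin n) (Fin n) ℂ) *ᵥ z) hyx
      simp only [Matrix.mulVec_mulVec, hAA', Matrix.one_mulVec] at this
      rwa [← this]
  choose a ha hax using hn
  have hfixU : ∀ H : hyps G, ∀ x, ip (a H) x = 0 →
      ((A * g H * A⁻¹ : GL (Fin n) ℂ) : Matrix (Fin n) (Fin n) ℂ) *ᵥ x = x := by
    intro H x hx
    set y := ((A⁻¹ : GL (Fin n) ℂ) : Matrix (Fin n) (Fin n) ℂ) *ᵥ x with hy
    have hxy : (A : Matrix (Fin n) (Fin n) ℂ) *ᵥ y = x := by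
      rw [hy, Matrix.mulVec_mulVec, hAA, Matrix.one_mulVec]
    have hyH : y ∈ H.1 := by
      rw [hax, hxy]; exact hx
    rw [Units.val_mul, Units.val_mul, ← Matrix.mulVec_mulVec, ← Matrix.mulVec_mulVec, ← hy,
      hgfix H y hyH, hxy]
  choose ζ hζ1 hζ using fun H : hyps G => unitary_refl _ (hA (g H) (hgG H)) (a H) (ha H) (hfixU H)
  have hζne : ∀ H, ζ H ≠ 1 := by
    intro H h
    have h1 := hζ H
    rw [h, sub_self, zero_smul, sub_zero] at h1
    have h2 : A * g H * A⁻¹ = 1 := Units.ext h1
    apply hg1 H
    have h3 : A * g H = A := by rwa [mul_inv_eq_one] at h2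
    exact mul_eq_left.1 h3
  -- same hyperplane
  have heq : ∀ H H' : hyps G, (∀ x, ip (a H) x = 0 ↔ ip (a H') x = 0) → H = H' := by
    intro H H' h
    apply Subtype.ext
    ext x
    rw [hax, hax, h]
  -- finiteness
  have hfinι : Finite (hyps G) := by
    have hinj : Function.Injective (fun H : hyps G => (⟨g H, hgG H⟩ : G)) := by
      intro H H' hHH
      have hgg : g H = g H' := congrArg Subtype.val hHH
      have key : ∀ H : hyps G, H.1 = LinearMap.ker
          (Matrix.toLin' ((g H : Matrix (Fin n) (Fin n) ℂ) - 1)) := by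
        intro H
        apply Submodule.eq_of_le_of_finrank_le
        · intro x hx
          rw [LinearMap.mem_ker, Matrix.toLin'_apply, Matrix.sub_mulVec, Matrix.one_mulVec,
            hgfix H x hx, sub_self]
        · have h1 := H.2.1
          have h2 : Module.finrank ℂ (LinearMap.ker
              (Matrix.toLin' ((g H : Matrix (Fin n) (Fin n) ℂ) - 1))) < n := by
            have h3 : LinearMap.ker
              (Matrix.toLin' ((g H : Matrix (Fin n) (Fin n) ℂ) - 1)) < ⊤ := by
              rw [lt_top_iff_ne_top]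
              intro h4
              rw [LinearMap.ker_eq_top] at h4
              have h5 : (g H : Matrix (Fin n) (Fin n) ℂ) - 1 = 0 :=
                (Matrix.toLin').injective (by rw [h4, map_zero])
              exact hg1 H (Units.ext (sub_eq_zero.1 h5))
            have := Submodule.finrank_lt_finrank_of_lt h3
            rwa [finrank_top, Module.finrank_fin_fun] at this
          omega
      apply Subtype.ext
      rw [key H, key H', hgg]
    exact Finite.of_injective _ hinj
  let S : Set (GL (Fin n) ℂ) := Set.range fun H : hyps G => A * g H * A⁻¹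
  let G' : Subgroup (GL (Fin n) ℂ) := Subgroup.closure S
  have hG' : G' ≤ G.map (MulAut.conj A).toMonoidHom := by
    rw [Subgroup.closure_le]
    rintro _ ⟨H, rfl⟩
    exact ⟨g H, hgG H, rfl⟩
  have hG'' : ∀ h ∈ G', ∃ x ∈ G, h = A * x * A⁻¹ := by
    intro h hh
    obtain ⟨x, hx, hxh⟩ := hG' hh
    exact ⟨x, hx, hxh.symm⟩
  have hfinG' : Finite G' := by
    have : Finite (G.map (MulAut.conj A).toMonoidHom) := by
      have : Finite ((MulAut.conj A).toMonoidHom '' (G : Set (GL (Fin n) ℂ))) :=
        Set.Finite.image _ (Set.toFinite _)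
      exact this
    exact Finite.of_injective (Subgroup.inclusion hG') (Subgroup.inclusion_injective hG')
  let D : RD n :=
    { ι := hyps G
      fin := Fintype.ofFinite _
      dec := Classical.decEq _
      a := a
      unit := ha
      indep := by
        intro H H' hne
        rw [LinearIndependent.pair_iff]
        intro s t hst
        have hH0 : a H ≠ 0 := by
          intro h; have := ha H; rw [h, ip_zero_left] at this; exact zero_ne_one this
        have hH'0 : a H' ≠ 0 := by
          intro h; have := ha H'; rw [h, ip_zero_left] at this; exact zero_ne_one this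
        by_cases hs : s = 0
        · refine ⟨hs, ?_⟩
          rw [hs, zero_smul, zero_add] at hst
          exact (smul_eq_zero.1 hst).resolve_right hH'0
        · exfalso
          by_cases ht : t = 0
          · rw [ht, zero_smul, add_zero] at hst
            exact hs ((smul_eq_zero.1 hst).resolve_right hH0)
          · apply hne
            apply heq
            intro x
            have h1 : star s * ip (a H) x + star t * ip (a H') x = 0 := by
              rw [← ip_smul_left, ← ip_smul_left, ← ip_add_left, hst, ip_zero_left]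
            have hs' : star s ≠ 0 := by simpa using hs
            have ht' : star t ≠ 0 := by simpa using ht
            constructor
            · intro h
              rw [h, mul_zero, zero_add] at h1
              exact (mul_eq_zero.1 h1).resolve_left ht'
            · intro h
              rw [h, mul_zero, add_zero] at h1
              exact (mul_eq_zero.1 h1).resolve_left hs'
      G := G'
      finG := Fintype.ofFinite _
      decG := Classical.decEq _
      ρ := (Units.coeHom _).comp G'.subtype
      uni := by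
        intro h
        obtain ⟨x, hx, hxh⟩ := hG'' h.1 h.2
        show ((h.1 : GL (Fin n) ℂ) : Matrix (Fin n) (Fin n) ℂ)ᴴ * _ = 1
        have := hA x hx
        rw [← hxh] at this
        exact this
      faith := by
        intro x y hxy
        exact Subtype.ext (Units.ext hxy)
      s := fun H => ⟨A * g H * A⁻¹, Subgroup.subset_closure ⟨H, rfl⟩⟩
      ζ := ζ
      ζne := hζne
      refl := hζ
      gen := by
        have h := Subgroup.closure_closure_coe_preimage (k := S)
        rw [← h]
        congr 1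
        ext ⟨x, hx⟩
        simp [S, Subtype.ext_iff]
      full := by
        intro h hne v hv
        obtain ⟨x, hx, hxh⟩ := hG'' h.1 h.2
        have hx1 : x ≠ 1 := by
          rintro rfl
          apply hne
          apply Subtype.ext
          rw [hxh]
          simp
        have hv0 : v ≠ 0 := by
          rintro rfl
          apply hne
          apply Subtype.ext
          apply Units.ext
          show ((h.1 : GL (Fin n) ℂ) : Matrix (Fin n) (Fin n) ℂ) = 1
          apply Matrix.toLin'.injective
          ext1 j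
          ext1
          have := hv (Pi.single j 1) (by rw [ip_zero_left])
          simpa using this
        have hv' : ∀ y, ip v y = 0 →
            ((A * x * A⁻¹ : GL (Fin n) ℂ) : Matrix (Fin n) (Fin n) ℂ) *ᵥ y = y := by
          intro y hy
          have := hv y hy
          rw [← hxh]
          exact this
        let f : Vec n →ₗ[ℂ] ℂ := (FinA.ipL v).comp
          (Matrix.toLin' (A : Matrix (Fin n) (Fin n) ℂ))
        have hf : f ≠ 0 := by
          intro h0
          apply FinA.ipL_ne hv0
          ext1 j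
          ext1
          have := LinearMap.congr_fun h0
            (((A⁻¹ : GL (Fin n) ℂ) : Matrix (Fin n) (Fin n) ℂ) *ᵥ (Pi.single j 1))
          simp only [f, LinearMap.comp_apply, Matrix.toLin'_apply, Matrix.mulVec_mulVec, hAA,
            Matrix.one_mulVec, LinearMap.zero_apply] at this
          simpa using this
        have hH : LinearMap.ker f ∈ hyps G := by
          refine ⟨FinA.finrank_ker_add_one f hf, x, hx, hx1, ?_⟩
          intro y hy
          have h1 : ip v ((A : Matrix (Fin n) (Fin n) ℂ) *ᵥ y) = 0 := hy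
          have h2 := hv' _ h1
          rw [Units.val_mul, Units.val_mul, Matrix.mulVec_mulVec, Matrix.mul_assoc, hAA',
            Matrix.mul_one, ← Matrix.mulVec_mulVec] at h2
          have h3 := congrArg
            (fun z => ((A⁻¹ : GL (Fin n) ℂ) : Matrix (Fin n) (Fin n) ℂ) *ᵥ z) h2
          simpa [Matrix.mulVec_mulVec, hAA', ← Matrix.mul_assoc] using h3
        refine ⟨⟨_, hH⟩, ?_⟩
        apply mem_span_of_perp
        intro y hy
        have h1 : ((A⁻¹ : GL (Fin n) ℂ) : Matrix (Fin n) (Fin n) ℂ) *ᵥ y ∈ LinearMap.ker f := by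
          rw [hax ⟨_, hH⟩, Matrix.mulVec_mulVec, hAA, Matrix.one_mulVec]
          exact hy
        have h2 : ip v ((A : Matrix (Fin n) (Fin n) ℂ) *ᵥ
          (((A⁻¹ : GL (Fin n) ℂ) : Matrix (Fin n) (Fin n) ℂ) *ᵥ y)) = 0 := h1
        rwa [Matrix.mulVec_mulVec, hAA, Matrix.one_mulVec] at h2 }
  exact ⟨D, A, Equiv.refl _, fun i x => hax i x⟩

end RFL
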