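import Pool.Agent.RFL.ProdA

/-!
# RFL-M3 : products

`D`, `W` with every root in `W` or in `W^⊥`; `D₁ = subD W`, `D₂ = subD W^⊥`, `Q₁, Q₂` their defining
polynomials.
`Jsym_split`: `r ≥ 1`: `F ∈ D.Jsym (2r-1)` ⇒ `F ∈ (Q₁^r) D₂.Jsym(2r-1) + (Q₂^r) D₁.Jsym(2r-1)`:
transport by `Φ` of `exists_split`. `F ∈ D₁.Jsym ∩ D₂.Jsym` (`Jsym_le_sub`), whose images are extended
from `MvPolynomial (Fin p)`, resp. `(Fin q)` (`map_inl_iInf`, `Ideal.map_pow`). For `i ∈ W`, `j ∈ W^⊥`
(so `i ≠ j`): `F ∈ IX i j ^ (2r-1) ≤ (al i^r, al j^r)` (`span_pair_pow_le`), so `inf_pow`: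
`F ∈ (Q₁^r, Q₂^r)`; then `tens_key`.
`J_split`: `r = 1` and the trivial inclusion: `J = Q₁ J₂ + Q₂ J₁`. (`Q₁ J₂ ≤ J`: `IX i j` with
`i ∈ W` contains `Q₁`; with `i, j ∈ W^⊥`: `J₂ ≤ IX i j`.)
`prod_good`: generators `Q₁ w², Q₂ w¹`: `rank D = rank D₁ + rank D₂` (both `≥ 1`). Containment:
`Q₁^r J₂^r = (Q₁ J₂)^r ≤ J^r`.
-/

open MvPolynomial Matrix Finset

noncomputable section

namespace RFL

namespace RD

variable {n : ℕ} (D : RD n)

theorem ProdB_disj (W : Submodule ℂ (Vec n)) : W ⊓ perpS W = ⊥ := by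
  rw [eq_bot_iff]
  rintro v ⟨hv, hv'⟩
  exact ip_self_eq_zero.1 (hv' v hv)

theorem rank_split (W : Submodule ℂ (Vec n)) (hW : ∀ i, D.a i ∈ W ∨ D.a i ∈ perpS W) :
    D.rank = (D.subD W).rank + (D.subD (perpS W)).rank := by
  have h1 : Submodule.span ℂ (Set.range D.a) =
      Submodule.span ℂ (Set.range (D.subD W).a) ⊔ Submodule.span ℂ (Set.range (D.subD (perpS W)).a) := by
    apply le_antisymm
    · rw [Submodule.span_le]
      rintro _ ⟨i, rfl⟩
      rcases hW i with h | h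
      · exact Submodule.mem_sup_left (Submodule.subset_span ⟨⟨i, h⟩, rfl⟩)
      · exact Submodule.mem_sup_right (Submodule.subset_span ⟨⟨i, h⟩, rfl⟩)
    · refine sup_le ?_ ?_
      · rw [Submodule.span_le]
        rintro _ ⟨i, rfl⟩
        exact Submodule.subset_span ⟨i.1, rfl⟩
      · rw [Submodule.span_le]
        rintro _ ⟨i, rfl⟩
        exact Submodule.subset_span ⟨i.1, rfl⟩
  have h2 : Submodule.span ℂ (Set.range (D.subD W).a) ≤ W := by
    rw [Submodule.span_le]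
    rintro _ ⟨i, rfl⟩
    exact i.2
  have h3 : Submodule.span ℂ (Set.range (D.subD (perpS W)).a) ≤ perpS W := by
    rw [Submodule.span_le]
    rintro _ ⟨i, rfl⟩
    exact i.2
  have h4 : Submodule.span ℂ (Set.range (D.subD W).a) ⊓
      Submodule.span ℂ (Set.range (D.subD (perpS W)).a) = ⊥ := by
    rw [eq_bot_iff, ← ProdB_disj W]
    exact inf_le_inf h2 h3
  have h5 := Submodule.finrank_sup_add_finrank_inf_eq
    (Submodule.span ℂ (Set.range (D.subD W).a)) (Submodule.span ℂ (Set.range (D.subD (perpS W)).a))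
  rw [h4, finrank_bot, add_zero] at h5
  unfold rank
  rw [h1, h5]

theorem prod_good (W : Submodule ℂ (Vec n)) (hW : ∀ i, D.a i ∈ W ∨ D.a i ∈ perpS W)
    (h1 : 1 ≤ (D.subD W).rank) (h2 : 1 ≤ (D.subD (perpS W)).rank)
    (g1 : (D.subD W).Good) (g2 : (D.subD (perpS W)).Good) : D.Good := by
  obtain ⟨⟨w1, hw1⟩, c1⟩ := g1
  obtain ⟨⟨w2, hw2⟩, c2⟩ := g2
  have hJ := D.J_split W hW
  refine ⟨?_, fun r hr => ?_⟩
  · have hr := D.rank_split W hW
    have hcard : Fintype.card (Fin (max D.rank 1)) =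
        Fintype.card (Fin (max (D.subD W).rank 1) ⊕ Fin (max (D.subD (perpS W)).rank 1)) := by
      simp only [Fintype.card_sum, Fintype.card_fin]
      omega
    obtain ⟨e⟩ := Fintype.card_eq.1 hcard
    refine ⟨fun k => Sum.elim (fun l => (D.subD (perpS W)).Q * w1 l) (fun l => (D.subD W).Q * w2 l) (e k), ?_⟩
    rw [hJ, hw1, hw2]
    have h3 : Set.range (fun k => Sum.elim (fun l => (D.subD (perpS W)).Q * w1 l)
        (fun l => (D.subD W).Q * w2 l) (e k)) =
        Set.range (fun l => (D.subD (perpS W)).Q * w1 l) ∪ Set.range (fun l => (D.subD W).Q * w2 l) := by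
      rw [← Set.Sum.elim_range]
      exact e.surjective.range_comp (Sum.elim (fun l => (D.subD (perpS W)).Q * w1 l)
        (fun l => (D.subD W).Q * w2 l))
    rw [h3, Ideal.span_union, Ideal.span_mul_span', Ideal.span_mul_span', sup_comm]
    congr 2
    · rw [Set.singleton_mul, ← Set.range_comp]
      rfl
    · rw [Set.singleton_mul, ← Set.range_comp]
      rfl
  · refine (D.Jsym_split W hW r (by omega)).trans (sup_le ?_ ?_)
    · refine (Ideal.mul_mono_right (c2 r hr)).trans ?_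
      rw [← Ideal.span_singleton_pow, ← mul_pow]
      exact Ideal.pow_right_mono (by rw [hJ]; exact le_sup_left) r
    · refine (Ideal.mul_mono_right (c1 r hr)).trans ?_
      rw [← Ideal.span_singleton_pow, ← mul_pow]
      exact Ideal.pow_right_mono (by rw [hJ]; exact le_sup_right) r

end RD

end RFL
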