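import Pool.Agent.RFL.IrrCase
import Pool.Agent.RFL.ProdC
import Pool.Agent.RFL.Ess

/-!
# RFL-M5 : all reflection data are good (induction on the rank)

`good_of_rank_le_one`: no two different indices (roots of different indices are independent), so
`J = ⊤` and `Jsym = ⊤`.
`good_rank_two` (essential, `n = 2`): `IX i j = (X_0, X_1)` for `i ≠ j`; `J = (X_0, X_1)` (there are two
different indices), `Jsym M = J^M ≤ J^r` for `M ≥ r`.
`all_good`: strong induction on the rank. By `exists_ess` assume `D : RD n`, `rank = n ≥ 3`.
If `Irr`: `irr_case` (the rank of `loc x`, `x ≠ 0`, is smaller: `rank_loc_lt`). Otherwise some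
`W ≠ ⊥, ⊤` is stable under all projections: for each `i`, either `a i ∈ W` or
`ip (a i) w = 0` for all `w ∈ W`, i.e. `a i ∈ perpS W`. Both `subD` have rank `≥ 1` (essential:
if all roots are in `W^⊥` then `W = 0` ...) and `< n`; `prod_good`.
-/

open MvPolynomial Matrix Finset

noncomputable section

namespace RFL

namespace RD

namespace MainIaux

theorem rank_pos {n : ℕ} (D : RD n) (i : D.ι) : 1 ≤ D.rank := by
  unfold rank
  rw [Nat.one_le_iff_ne_zero]
  intro h
  have h1 : Submodule.span ℂ (Set.range D.a) = ⊥ := Submodule.finrank_eq_zero.mp h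
  have h2 : D.a i ∈ Submodule.span ℂ (Set.range D.a) := Submodule.subset_span ⟨i, rfl⟩
  rw [h1, Submodule.mem_bot] at h2
  exact D.a_ne i h2

theorem two_le_rank {n : ℕ} (D : RD n) (i j : D.ι) (hij : i ≠ j) : 2 ≤ D.rank := by
  unfold rank
  have h1 : Submodule.span ℂ (Set.range ![D.a i, D.a j]) ≤
      Submodule.span ℂ (Set.range D.a) := by
    apply Submodule.span_mono
    rintro _ ⟨k, rfl⟩
    fin_cases k
    · exact ⟨i, rfl⟩
    · exact ⟨j, rfl⟩
  have h2 := finrank_span_eq_card (D.indep i j hij)
  have h3 := Submodule.finrank_mono h1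
  rw [h2] at h3
  simpa using h3

theorem subsingleton_of_rank {n : ℕ} (D : RD n) (h : D.rank ≤ 1) (i j : D.ι) : i = j := by
  by_contra hij
  have := two_le_rank D i j hij
  omega

theorem span_top_of_rank {n : ℕ} (D : RD n) (h : D.rank = n) :
    Submodule.span ℂ (Set.range D.a) = ⊤ := by
  apply Submodule.eq_top_of_finrank_eq
  rw [show Module.finrank ℂ (Submodule.span ℂ (Set.range D.a)) = n from h]
  simp

end MainIaux

theorem good_of_rank_le_one {n : ℕ} (D : RD n) (h : D.rank ≤ 1) : D.Good := by
  have hs := MainIaux.subsingleton_of_rank D h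
  have hJ : D.J = ⊤ := by
    unfold J
    simp only [iInf_eq_top]
    intro i j hij
    exact absurd (hs i j) hij
  refine ⟨⟨fun _ => 1, ?_⟩, fun r _ => ?_⟩
  · rw [hJ, eq_comm, Ideal.eq_top_iff_one]
    apply Ideal.subset_span
    exact ⟨⟨0, by omega⟩, rfl⟩
  · rw [hJ, Ideal.top_pow]
    exact le_top

theorem good_rank_two (D : RD 2) (h : D.rank = 2) : D.Good := by
  have hIX : ∀ i j : D.ι, i ≠ j → D.IX i j = Ideal.span {X 0, X 1} := by
    intro i j hij
    unfold IX al
    have h1 : Submodule.span ℂ {D.a i, D.a j} =
        Submodule.span ℂ ({Pi.single 0 1, Pi.single 1 1} : Set (Vec 2)) := by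
      have h2 : Submodule.span ℂ {D.a i, D.a j} = ⊤ := by
        apply Submodule.eq_top_of_finrank_eq
        have h3 := finrank_span_eq_card (D.indep i j hij)
        have h4 : Set.range ![D.a i, D.a j] = {D.a i, D.a j} := by
          simp [Matrix.range_cons, Matrix.range_empty, Set.pair_comm]
        rw [h4] at h3
        rw [h3]; simp
      rw [h2, eq_comm, eq_top_iff]
      intro v _
      have h5 : v = v 0 • (Pi.single 0 1 : Vec 2) + v 1 • (Pi.single 1 1 : Vec 2) := by
        funext k
        fin_cases k <;> simp
      rw [h5]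
      refine Submodule.add_mem _ (Submodule.smul_mem _ _ (Submodule.subset_span (by simp)))
        (Submodule.smul_mem _ _ (Submodule.subset_span (by simp)))
    rw [span_pair_eq h1]
    have hl : ∀ i : Fin 2, lin (Pi.single i 1 : Vec 2) = X i := by
      intro i
      fin_cases i <;> simp [lin, Fin.sum_univ_two]
    rw [hl, hl]
  have hex : ∃ i j : D.ι, i ≠ j := by
    by_contra hcon
    push Not at hcon
    have h1 : Submodule.span ℂ (Set.range D.a) = ⊤ := MainIaux.span_top_of_rank D h
    by_cases hne : Nonempty D.ι
    · obtain ⟨i⟩ := hne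
      have h2 : Set.range D.a ⊆ {D.a i} := by
        rintro _ ⟨j, rfl⟩
        rw [hcon j i]; exact Set.mem_singleton _
      have h3 : Module.finrank ℂ (Submodule.span ℂ (Set.range D.a)) ≤ 1 := by
        refine le_trans (Submodule.finrank_mono (Submodule.span_mono h2)) ?_
        exact le_trans (finrank_span_le_card _) (by simp)
      have h4 : D.rank ≤ 1 := h3
      omega
    · have h2 : Set.range D.a = ∅ := by
        rw [Set.range_eq_empty_iff]
        exact not_nonempty_iff.mp hne
      have h4 : D.rank = 0 := by
        unfold rank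
        rw [h2, Submodule.span_empty]
        simp
      omega
  obtain ⟨i₀, j₀, hij₀⟩ := hex
  have hJ : D.J = Ideal.span {X 0, X 1} := by
    apply le_antisymm
    · unfold J
      refine iInf_le_of_le i₀ (iInf_le_of_le j₀ (iInf_le_of_le hij₀ ?_))
      rw [hIX i₀ j₀ hij₀]
    · unfold J
      refine le_iInf fun i => le_iInf fun j => le_iInf fun hij => ?_
      rw [hIX i j hij]
  refine ⟨?_, fun r hr => ?_⟩
  · have h1 : max D.rank 1 = 2 := by omega
    rw [h1]
    refine ⟨![X 0, X 1], ?_⟩
    rw [hJ]
    congr 1
    simp [Matrix.range_cons, Matrix.range_empty, Set.pair_comm]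
  · unfold Jsym
    refine iInf_le_of_le i₀ (iInf_le_of_le j₀ (iInf_le_of_le hij₀ ?_))
    rw [hIX i₀ j₀ hij₀, hJ]
    exact Ideal.pow_le_pow_right (by omega)

theorem all_good {n : ℕ} (D : RD n) : D.Good := by
  have key : ∀ k : ℕ, ∀ (n : ℕ) (D : RD n), D.rank = k → D.Good := by
    intro k
    induction k using Nat.strong_induction_on with
    | _ k ih =>
      intro n D hk
      obtain ⟨D', hr, himp⟩ := D.exists_ess
      apply himp
      clear himp
      revert D'
      rw [hk]
      intro D' hr
      rcases Nat.lt_or_ge k 2 with h2 | h2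
      · exact good_of_rank_le_one D' (by omega)
      rcases Nat.lt_or_ge k 3 with h3 | h3
      · obtain rfl : k = 2 := by omega
        exact good_rank_two D' hr
      obtain ⟨m, rfl⟩ : ∃ m, k = m + 1 := ⟨k - 1, by omega⟩
      by_cases hI : D'.Irr
      · exact D'.irr_case (by omega) hI
          (fun x hx => ih _ (D'.rank_loc_lt hr x hx) (m + 1) (D'.loc x) rfl)
      · unfold Irr at hI
        push Not at hI
        obtain ⟨W, hW, hb, ht⟩ := hI
        have hsplit : ∀ i, D'.a i ∈ W ∨ D'.a i ∈ perpS W := by
          intro i
          by_cases h : ∀ w ∈ W, ip (D'.a i) w = 0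
          · right; exact h
          · left
            push Not at h
            obtain ⟨w, hw, hne⟩ := h
            have h1 := W.smul_mem (ip (D'.a i) w)⁻¹ (hW i w hw)
            rwa [smul_smul, inv_mul_cancel₀ hne, one_smul] at h1
        have hspan := MainIaux.span_top_of_rank D' hr
        have hr1 : 1 ≤ (D'.subD W).rank := by
          by_contra hcon
          have hno : ∀ i, D'.a i ∉ W := by
            intro i hi
            exact hcon (MainIaux.rank_pos (D'.subD W) ⟨i, hi⟩)
          apply hb
          rw [eq_bot_iff]
          intro w hw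
          have h4 : ∀ v ∈ Submodule.span ℂ (Set.range D'.a), ip v w = 0 := by
            intro v hv
            induction hv using Submodule.span_induction with
            | mem x hx =>
              obtain ⟨i, rfl⟩ := hx
              rcases hsplit i with h5 | h5
              · exact absurd h5 (hno i)
              · exact h5 w hw
            | zero => simp
            | add x y _ _ hx hy => rw [ip_add_left, hx, hy, add_zero]
            | smul a x _ hx => rw [ip_smul_left, hx, mul_zero]
          have h5 := h4 w (by rw [hspan]; trivial)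
          rw [Submodule.mem_bot]
          exact ip_self_eq_zero.mp h5
        have hr2 : 1 ≤ (D'.subD (perpS W)).rank := by
          by_contra hcon
          have hno : ∀ i, D'.a i ∉ perpS W := by
            intro i hi
            exact hcon (MainIaux.rank_pos (D'.subD (perpS W)) ⟨i, hi⟩)
          apply ht
          rw [eq_top_iff, ← hspan, Submodule.span_le]
          rintro _ ⟨i, rfl⟩
          rcases hsplit i with h5 | h5
          · exact h5
          · exact absurd h5 (hno i)
        have hsum := D'.rank_split W hsplit
        exact D'.prod_good W hsplit hr1 hr2 (ih _ (by omega) _ _ rfl) (ih _ (by omega) _ _ rfl)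
  exact key D.rank n D rfl

end RD

end RFL
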