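import Pool.Agent.RFL.Fin1
import Pool.Agent.RFL.MainI

open MvPolynomial Matrix Finset

noncomputable section

namespace RFL

theorem final {n : ℕ} (G : Subgroup (GL (Fin n) ℂ)) [Finite G] (r : ℕ) (hr : 3 ≤ r) :
    symb G (2 * r - 1) ≤ singI G ^ r := by
  obtain ⟨D, A, e, he⟩ := exists_RD G
  rw [symb_eq G D A e he, singI_eq G D A e he, ← Ideal.map_pow]
  exact Ideal.map_mono ((D.all_good).2 r hr)

end RFL
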