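import Pool.Agent.RFL.NabA

/-!
# RFL-C1 : algebra of the connection `nab`

`D.nab v θ = ∂_v θ - 2 ∑_i ip (a i) v * (θ(α_i)/α_i) * a_i`, with the exact quotient
`quo (al i) (ap i θ)`, which is correct for `θ ∈ Der`.
-/

open MvPolynomial Matrix Finset

noncomputable section

namespace RFL

namespace NabBaux

variable {n : ℕ}

theorem shift_up (φ : Pol n →+ Pol n)
    (hφ : ∀ e (p : Pol n), p.IsHomogeneous e → (φ p).IsHomogeneous (e + 1)) (d : ℕ) (q : Pol n) :
    homogeneousComponent (d + 1) (φ q) = φ (homogeneousComponent d q) := by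
  conv_lhs => rw [← sum_homogeneousComponent q, map_sum, map_sum]
  have h1 : ∀ e ∈ range (q.totalDegree + 1),
      homogeneousComponent (d + 1) (φ (homogeneousComponent e q)) =
        if d = e then φ (homogeneousComponent e q) else 0 := by
    intro e _
    rw [homogeneousComponent_of_mem (hφ e _ (homogeneousComponent_isHomogeneous e q))]
    by_cases h : d = e
    · rw [if_pos h, if_pos (by rw [h])]
    · rw [if_neg h, if_neg (by omega)]
  rw [Finset.sum_congr rfl h1, Finset.sum_ite_eq]
  split_ifs with h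
  · rfl
  · rw [homogeneousComponent_eq_zero d q (by simpa using h), map_zero]

theorem shift_down (φ : Pol n →+ Pol n)
    (hφ : ∀ e (p : Pol n), p.IsHomogeneous (e + 1) → (φ p).IsHomogeneous e)
    (h0 : ∀ p : Pol n, p.IsHomogeneous 0 → φ p = 0) (d : ℕ) (q : Pol n) :
    homogeneousComponent d (φ q) = φ (homogeneousComponent (d + 1) q) := by
  conv_lhs => rw [← sum_homogeneousComponent q, map_sum, map_sum]
  have h1 : ∀ e ∈ range (q.totalDegree + 1),
      homogeneousComponent d (φ (homogeneousComponent e q)) =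
        if d + 1 = e then φ (homogeneousComponent e q) else 0 := by
    intro e _
    rcases e with _ | e
    · rw [h0 _ (homogeneousComponent_isHomogeneous 0 q), map_zero, if_neg (by omega)]
    · rw [homogeneousComponent_of_mem (hφ e _ (homogeneousComponent_isHomogeneous (e + 1) q))]
      by_cases h : d = e
      · rw [if_pos h, if_pos (by rw [h])]
      · rw [if_neg h, if_neg (by omega)]
  rw [Finset.sum_congr rfl h1, Finset.sum_ite_eq]
  split_ifs with h
  · rfl
  · rw [homogeneousComponent_eq_zero (d + 1) q (by simpa using h), map_zero]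

theorem hc_lin_mul (a : Vec n) (d : ℕ) (q : Pol n) :
    homogeneousComponent (d + 1) (lin a * q) = lin a * homogeneousComponent d q := by
  refine shift_up (AddMonoidHom.mulLeft (lin a)) ?_ d q
  intro e p hp
  change (lin a * p).IsHomogeneous (e + 1)
  rw [add_comm]
  exact (lin_hom a).mul hp

theorem dv_zero' (v : Vec n) (p : Pol n) (hp : p.IsHomogeneous 0) : dv v p = 0 := by
  have : p ∈ homogeneousSubmodule (Fin n) ℂ 0 := hp
  have h2 := homogeneousComponent_eq_self hp
  rw [homogeneousComponent_zero] at h2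
  rw [← h2, dv_C]

/-- directional derivative as an additive map -/
def dvHom (v : Vec n) : Pol n →+ Pol n where
  toFun := dv v
  map_zero' := by
    have := dv_C v 0
    rwa [C_0] at this
  map_add' := dv_add v

theorem hc_dv (v : Vec n) (d : ℕ) (q : Pol n) :
    homogeneousComponent d (dv v q) = dv v (homogeneousComponent (d + 1) q) :=
  shift_down (dvHom v) (fun e p hp => dv_hom v p e hp) (fun p hp => dv_zero' v p hp) d q

theorem coeff0_mul (p q : Pol n) : coeff 0 (p * q) = coeff 0 p * coeff 0 q := by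
  rw [← constantCoeff_eq, map_mul]

theorem hc_two_mul (d : ℕ) (q : Pol n) :
    homogeneousComponent d (2 * q) = 2 * homogeneousComponent d q := by
  rw [two_mul, two_mul, map_add]

variable (D : RD n)

theorem hc_ap (i : D.ι) (θ : VF n) (d : ℕ) :
    D.ap i (fun l => homogeneousComponent d (θ l)) = homogeneousComponent d (D.ap i θ) := by
  unfold RD.ap
  rw [map_sum]
  exact Finset.sum_congr rfl fun j _ => (homogeneousComponent_C_mul _ _ _).symm

theorem dv_single (k : Fin n) (f : Pol n) : dv (Pi.single k 1) f = pderiv k f := by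
  unfold dv
  rw [Finset.sum_eq_single k]
  · simp
  · intro b _ hb
    rw [Pi.single_eq_of_ne hb, C_0, zero_mul]
  · intro h
    exact absurd (Finset.mem_univ k) h

theorem ip_single (a : Vec n) (k : Fin n) : ip a (Pi.single k 1) = star (a k) := by
  unfold ip
  rw [Finset.sum_eq_single k]
  · simp
  · intro b _ hb
    rw [Pi.single_eq_of_ne hb, mul_zero]
  · intro h
    exact absurd (Finset.mem_univ k) h

end NabBaux

namespace RD

variable {n : ℕ} (D : RD n)

open NabBaux

theorem hc_mem_Der {θ : VF n} (hθ : θ ∈ D.Der) (d : ℕ) :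
    (fun l => homogeneousComponent d (θ l)) ∈ D.Der := by
  intro i
  rw [hc_ap]
  obtain ⟨q, hq⟩ := hθ i
  rw [hq]
  rcases d with _ | d
  · have h0 : homogeneousComponent 0 (D.al i * q) = 0 := by
      rw [homogeneousComponent_zero]
      have : coeff 0 (D.al i * q) = 0 := by
        rw [coeff0_mul]
        have h1 : coeff 0 (D.al i) = 0 := by
          have h2 := (lin_hom (D.a i)).coeff_eq_zero (d := 0) (by simp)
          exact h2
        rw [h1, zero_mul]
      rw [this, C_0]
    rw [h0]
    exact dvd_zero _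
  · unfold RD.al
    rw [hc_lin_mul]
    exact Dvd.intro _ rfl

theorem nab_hc (v : Vec n) {θ : VF n} (hθ : θ ∈ D.Der) (d : ℕ) :
    D.nab v (fun l => homogeneousComponent (d + 1) (θ l)) =
      fun l => homogeneousComponent d (D.nab v θ l) := by
  funext l
  have hq : ∀ i, quo (D.al i) (D.ap i (fun l => homogeneousComponent (d + 1) (θ l))) =
      homogeneousComponent d (quo (D.al i) (D.ap i θ)) := by
    intro i
    rw [hc_ap]
    conv_lhs => rw [← quo_spec (hθ i)]
    have h1 : homogeneousComponent (d + 1) (D.al i * quo (D.al i) (D.ap i θ)) =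
        D.al i * homogeneousComponent d (quo (D.al i) (D.ap i θ)) := hc_lin_mul _ _ _
    rw [h1, quo_mul (D.al_ne i)]
  unfold RD.nab
  rw [map_sub, hc_dv, hc_two_mul, map_sum]
  congr 2
  refine Finset.sum_congr rfl fun i _ => ?_
  rw [homogeneousComponent_C_mul, hq]

theorem nab_hom (v : Vec n) {θ : VF n} (hθ : θ ∈ D.Der) (d : ℕ)
    (h : ∀ l, (θ l).IsHomogeneous (d + 1)) (l : Fin n) : (D.nab v θ l).IsHomogeneous d := by
  have h1 : (fun l => homogeneousComponent (d + 1) (θ l)) = θ := by
    funext l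
    exact homogeneousComponent_eq_self (h l)
  have h2 := D.nab_hc v hθ d
  rw [h1] at h2
  rw [h2]
  exact homogeneousComponent_isHomogeneous d _

theorem nab_const (v : Vec n) {θ : VF n} (hθ : θ ∈ D.Der) (h : ∀ l, (θ l).IsHomogeneous 0) :
    D.nab v θ = 0 := by
  funext l
  have hap : ∀ i, D.ap i θ = 0 := by
    intro i
    have h1 : (D.ap i θ).IsHomogeneous 0 := by
      unfold RD.ap
      exact IsHomogeneous.sum _ _ _ fun j _ => (h j).C_mul _
    obtain ⟨q, hq⟩ := hθ i
    have h2 := homogeneousComponent_eq_self h1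
    rw [homogeneousComponent_zero] at h2
    have h3 : coeff 0 (D.ap i θ) = 0 := by
      rw [hq, coeff0_mul]
      have h4 : coeff 0 (D.al i) = 0 := (lin_hom (D.a i)).coeff_eq_zero (d := 0) (by simp)
      rw [h4, zero_mul]
    rw [← h2, h3, C_0]
  have hq : ∀ i, quo (D.al i) (D.ap i θ) = 0 := by
    intro i
    rw [hap i]
    have := quo_mul (D.al_ne i) 0
    rwa [mul_zero] at this
  change dv v (θ l) - 2 * ∑ i, C (ip (D.a i) v * D.a i l) * quo (D.al i) (D.ap i θ) = 0
  rw [dv_zero' v _ (h l), Finset.sum_eq_zero (fun i _ => by rw [hq i, mul_zero]), mul_zero,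
    sub_zero]

/-- Euler identity for the connection -/
theorem nab_euler {h : ℕ} (hT : ∀ v : Vec n, ∑ k, ip (D.a k) v • D.a k = ((h : ℂ) / 2) • v)
    {θ : VF n} (hθ : θ ∈ D.Der) (d : ℕ) (hd : ∀ l, (θ l).IsHomogeneous d) (l : Fin n) :
    ∑ k, X k * D.nab (Pi.single k 1) θ l = C ((d : ℂ) - h) * θ l := by
  have e1 : ∀ k, X k * D.nab (Pi.single k 1) θ l = X k * pderiv k (θ l) -
      2 * ∑ i, (X k * C (star (D.a i k))) * (C (D.a i l) * quo (D.al i) (D.ap i θ)) := by
    intro k
    change X k * (dv (Pi.single k 1) (θ l) - 2 * ∑ i, C (ip (D.a i) (Pi.single k 1) * D.a i l) *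
      quo (D.al i) (D.ap i θ)) = _
    rw [dv_single, mul_sub, mul_left_comm, Finset.mul_sum]
    congr 2
    refine Finset.sum_congr rfl fun i _ => ?_
    rw [ip_single, C_mul]
    ring
  rw [Finset.sum_congr rfl fun k _ => e1 k, Finset.sum_sub_distrib, euler (θ l) d (hd l),
    ← Finset.mul_sum, Finset.sum_comm]
  have e2 : ∀ i, ∑ k, (X k * C (star (D.a i k))) * (C (D.a i l) * quo (D.al i) (D.ap i θ)) =
      C (D.a i l) * D.ap i θ := by
    intro i
    rw [← Finset.sum_mul]
    have : ∑ k, (X k * C (star (D.a i k)) : Pol n) = D.al i := by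
      unfold RD.al lin
      exact Finset.sum_congr rfl fun k _ => mul_comm _ _
    rw [this, mul_left_comm, quo_spec (hθ i)]
  rw [Finset.sum_congr rfl fun i _ => e2 i]
  have e3 : ∑ i, C (D.a i l) * D.ap i θ = C ((h : ℂ) / 2) * θ l := by
    have h1 : ∀ i, C (D.a i l) * D.ap i θ = ∑ j, C (star (D.a i j) * D.a i l) * θ j := by
      intro i
      unfold RD.ap
      rw [Finset.mul_sum]
      refine Finset.sum_congr rfl fun j _ => ?_
      rw [C_mul]
      ring
    rw [Finset.sum_congr rfl fun i _ => h1 i, Finset.sum_comm]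
    have h2 : ∀ j, ∑ i, C (star (D.a i j) * D.a i l) * θ j =
        C (((h : ℂ) / 2) * (Pi.single j 1 : Vec n) l) * θ j := by
      intro j
      rw [← Finset.sum_mul, ← map_sum]
      congr 2
      have h3 := congrFun (hT (Pi.single j 1)) l
      rw [Finset.sum_apply] at h3
      rw [Pi.smul_apply, smul_eq_mul] at h3
      rw [← h3]
      refine Finset.sum_congr rfl fun i _ => ?_
      rw [ip_single, Pi.smul_apply, smul_eq_mul]
    rw [Finset.sum_congr rfl fun j _ => h2 j, Finset.sum_eq_single l]
    · rw [Pi.single_eq_same, mul_one]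
    · intro j _ hj
      rw [Pi.single_eq_of_ne (Ne.symm hj), mul_zero, C_0, zero_mul]
    · intro hl
      exact absurd (Finset.mem_univ l) hl
  rw [e3, C_sub, sub_mul]
  have e4 : (2 : Pol n) * (C ((h : ℂ) / 2) * θ l) = C (h : ℂ) * θ l := by
    have : (2 : Pol n) = C (2 : ℂ) := (map_ofNat C 2).symm
    rw [this, ← mul_assoc, ← C_mul]
    congr 2
    ring
  rw [e4]
  congr 2

/-- `∇_v E = v - 2 T v = (1 - h) v` -/
theorem nab_E {h : ℕ} (hT : ∀ v : Vec n, ∑ k, ip (D.a k) v • D.a k = ((h : ℂ) / 2) • v)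
    (v : Vec n) : D.nab v (fun l => X l) = fun l => C ((1 - (h : ℂ)) * v l) := by
  funext l
  have hq : ∀ i, quo (D.al i) (D.ap i (fun l => X l)) = 1 := by
    intro i
    have h1 : D.ap i (fun l => X l) = D.al i * 1 := by
      rw [mul_one]
      rfl
    rw [h1, quo_mul (D.al_ne i)]
  change dv v (X l) - 2 * ∑ i, C (ip (D.a i) v * D.a i l) *
    quo (D.al i) (D.ap i (fun l => X l)) = _
  have e1 : dv v (X l : Pol n) = C (v l) := by
    unfold dv
    rw [Finset.sum_eq_single l]
    · rw [pderiv_X_self, mul_one]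
    · intro b _ hb
      rw [pderiv_X_of_ne (Ne.symm hb), mul_zero]
    · intro hl
      exact absurd (Finset.mem_univ l) hl
  have e2 : ∑ i, C (ip (D.a i) v * D.a i l) * quo (D.al i) (D.ap i (fun l => X l)) =
      (C (((h : ℂ) / 2) * v l) : Pol n) := by
    have h3 := congrFun (hT v) l
    rw [Finset.sum_apply, Pi.smul_apply, smul_eq_mul] at h3
    rw [← h3, map_sum]
    refine Finset.sum_congr rfl fun i _ => ?_
    rw [hq i, mul_one, Pi.smul_apply, smul_eq_mul]
  rw [e1, e2]
  have : (2 : Pol n) = C (2 : ℂ) := (map_ofNat C 2).symm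
  rw [this, ← C_mul, ← C_sub]
  congr 1
  ring

end RD

end RFL
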