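import Pool.Agent.RFL.FlatLA
import Pool.Agent.RFL.Nab1

/-!
# RFL-C3b : flatness and tangency

`flat`: evaluate at a regular point `x` (`eq_zero_of_eval` with `q = Q`). To differentiate
`∇_v θ` use `al i * quo (al i) (ap i θ) = ap i θ` and the Leibniz rule:
`α_i(x) ∂_u q_i = α_i(∂_u θ) - α_i(u) q_i`. The commutator is `4` times the expression of `flatLA`
with `w = θ(x)`.
`tang`: on `H_i` the term `i` of the sum vanishes because `ip (a i) v = 0`,
`∂_v (ap i θ)` vanishes on `H_i` (`al i ∣ ap i θ`, Leibniz, `dv v (al i) = 0`); the rest is `tangLA`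
at the points of `H_i` not in any other hyperplane (then everywhere on `H_i`, by `al_prime`).
-/

open MvPolynomial Matrix Finset

noncomputable section

namespace RFL

namespace FlatB

variable {n : ℕ} (D : RD n)

theorem dv_C_mul (v : Vec n) (c : ℂ) (f : Pol n) : dv v (C c * f) = C c * dv v f := by
  rw [dv_mul, dv_C, zero_mul, zero_add]

theorem dv_zero' (v : Vec n) : dv v (0 : Pol n) = 0 := by
  have := dv_C v (0 : ℂ)
  rwa [C_0] at this

theorem dv_sum {T : Type} (v : Vec n) (S : Finset T) (f : T → Pol n) :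
    dv v (∑ s ∈ S, f s) = ∑ s ∈ S, dv v (f s) := by
  classical
  induction S using Finset.induction_on with
  | empty => simp [dv_zero']
  | insert a S ha ih => rw [Finset.sum_insert ha, Finset.sum_insert ha, dv_add, ih]

/-- `α_i(∇_v θ) = ∂_v (α_i(θ)) - 2 ∑_j ⟨a_j, v⟩ ⟨a_i, a_j⟩ q_j` -/
theorem ap_nab (i : D.ι) (v : Vec n) (θ : VF n) :
    D.ap i (D.nab v θ) = dv v (D.ap i θ)
      - 2 * ∑ j, C (ip (D.a j) v * ip (D.a i) (D.a j)) * quo (D.al j) (D.ap j θ) := by
  have h1 : dv v (D.ap i θ) = ∑ l, C (star (D.a i l)) * dv v (θ l) := by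
    rw [RD.ap, dv_sum]
    exact Finset.sum_congr rfl fun l _ => dv_C_mul v _ _
  have h2 : (∑ j, C (ip (D.a j) v * ip (D.a i) (D.a j)) * quo (D.al j) (D.ap j θ) : Pol n)
      = ∑ l, C (star (D.a i l)) * ∑ j, C (ip (D.a j) v * D.a j l) * quo (D.al j) (D.ap j θ) := by
    simp only [Finset.mul_sum]
    rw [Finset.sum_comm]
    refine Finset.sum_congr rfl fun j _ => ?_
    have e : ip (D.a j) v * ip (D.a i) (D.a j)
        = ∑ l, ip (D.a j) v * (star (D.a i l) * D.a j l) := by
      rw [← Finset.mul_sum]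
      rfl
    rw [e, map_sum, Finset.sum_mul]
    refine Finset.sum_congr rfl fun l _ => ?_
    have e3 : ip (D.a j) v * (star (D.a i l) * D.a j l)
        = star (D.a i l) * (ip (D.a j) v * D.a j l) := by ring
    rw [e3, C_mul, mul_assoc]
  rw [h1, h2, Finset.mul_sum, ← Finset.sum_sub_distrib]
  have h3 : D.ap i (D.nab v θ) = ∑ l, C (star (D.a i l)) * (D.nab v θ l) := rfl
  rw [h3]
  unfold RD.nab
  refine Finset.sum_congr rfl fun l _ => ?_
  ring

/-- the derivative of `α_i(θ)` along `H_i` -/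
theorem dvd_dv (i : D.ι) (v : Vec n) (hv : ip (D.a i) v = 0) {θ : VF n} (hθ : θ ∈ D.Der) :
    D.al i ∣ dv v (D.ap i θ) := by
  have h : D.al i * quo (D.al i) (D.ap i θ) = D.ap i θ := quo_spec (D.mem_Der.mp hθ i)
  rw [← h, dv_mul]
  have h0 : dv v (D.al i) = 0 := by
    rw [RD.al, dv_lin, hv, C_0]
  rw [h0, zero_mul, zero_add]
  exact dvd_mul_right _ _

theorem dvd_rest (i : D.ι) (v : Vec n) (hv : ip (D.a i) v = 0) {θ : VF n} (hθ : θ ∈ D.Der) :
    D.al i ∣ ∑ j, C (ip (D.a j) v * ip (D.a i) (D.a j)) * quo (D.al j) (D.ap j θ) := by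
  classical
  have hP : ¬ D.al i ∣ ∏ j ∈ univ.erase i, D.al j := by
    intro h
    obtain ⟨j, hj, hj'⟩ := (D.al_prime i).exists_mem_finset_dvd h
    exact D.al_not_dvd (Finset.ne_of_mem_erase hj).symm hj'
  have key : D.al i ∣ (∏ j ∈ univ.erase i, D.al j)
      * ∑ j, C (ip (D.a j) v * ip (D.a i) (D.a j)) * quo (D.al j) (D.ap j θ) := by
    rw [D.al_dvd_iff]
    intro x hx
    rw [map_mul]
    by_cases hx' : ∀ j, j ≠ i → ip (D.a j) x ≠ 0
    · have hw : ip (D.a i) (fun l => eval x (θ l)) = 0 := (D.mem_Der_iff.mp hθ) i x hx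
      have hT := D.tangLA i x v (fun l => eval x (θ l)) hv hw hx hx'
      have hE : eval x (∑ j, C (ip (D.a j) v * ip (D.a i) (D.a j)) * quo (D.al j) (D.ap j θ))
          = ∑ j ∈ univ.erase i, ip (D.a j) v * ip (D.a j) (fun l => eval x (θ l))
              / ip (D.a j) x * ip (D.a i) (D.a j) := by
        rw [← Finset.add_sum_erase univ _ (Finset.mem_univ i), map_add, map_sum]
        rw [hv, zero_mul, C_0, zero_mul, map_zero, zero_add]
        refine Finset.sum_congr rfl fun j hj => ?_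
        have hj' := hx' j (Finset.ne_of_mem_erase hj)
        have hj2 : eval x (D.al j) ≠ 0 := by rwa [RD.al, eval_lin]
        rw [map_mul, eval_C, eval_quo (D.mem_Der.mp hθ j) x hj2, D.eval_ap, RD.al, eval_lin]
        ring
      rw [hE, hT, mul_zero]
    · push Not at hx'
      obtain ⟨j, hj, hj0⟩ := hx'
      have : eval x (∏ j ∈ univ.erase i, D.al j) = 0 := by
        rw [map_prod]
        refine Finset.prod_eq_zero (Finset.mem_erase.mpr ⟨hj, Finset.mem_univ j⟩) ?_
        rw [RD.al, eval_lin, hj0]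
      rw [this, zero_mul]
  exact ((D.al_prime i).dvd_or_dvd key).resolve_left hP

end FlatB

namespace RD

variable {n : ℕ} (D : RD n)

theorem tang (i : D.ι) (v : Vec n) (hv : ip (D.a i) v = 0) {θ : VF n} (hθ : θ ∈ D.Der) :
    D.al i ∣ D.ap i (D.nab v θ) := by
  rw [FlatB.ap_nab]
  exact dvd_sub (FlatB.dvd_dv D i v hv hθ) (Dvd.dvd.mul_left (FlatB.dvd_rest D i v hv hθ) 2)

end RD

end RFL
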