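import Pool.Agent.RFL.FlatLA
import Pool.Agent.RFL.Nab1

/-!
# RFL-C3b : flatness and tangency

`flat`: evaluate at a regular point `x` (`eq_zero_of_eval` with `q = Q`). To differentiate
`∇_v θ` use `al i * quo (al i) (ap i θ) = ap i θ` and the Leibniz rule:
`α_i(x) ∂_u q_i = α_i(∂_u θ) - α_i(u) q_i`. The commutator is `4` times the expression of `flatLA`
with `w = θ(x)`.
`tang`: on `H_i` the term `i` of the sum vanishes because `ip (a i) v = 0`,
`∂_v (ap i θ)` vanishes on `H_i` (`al i ∣ ap i θ`, Leibniz, `dv v (al i) = 0`); the rest is `tangLA`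
at the points of `H_i` not in any other hyperplane (then everywhere on `H_i`, by `al_prime`).
-/

open MvPolynomial Matrix Finset

noncomputable section

namespace RFL

namespace FlatA

variable {n : ℕ}

theorem dv_sub (v : Vec n) (f g : Pol n) : dv v (f - g) = dv v f - dv v g := by
  simp only [dv, map_sub, mul_sub, Finset.sum_sub_distrib]

theorem dv_sum {ι : Type*} (s : Finset ι) (v : Vec n) (f : ι → Pol n) :
    dv v (∑ i ∈ s, f i) = ∑ i ∈ s, dv v (f i) := by
  simp only [dv, map_sum, Finset.mul_sum]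
  exact Finset.sum_comm

theorem dv_C_mul (v : Vec n) (c : ℂ) (f : Pol n) : dv v (C c * f) = C c * dv v f := by
  rw [dv_mul, dv_C, zero_mul, zero_add]

theorem ip_sum_smul {ι : Type*} (s : Finset ι) (a : Vec n) (c : ι → ℂ) (b : ι → Vec n) :
    ip a (fun l => ∑ k ∈ s, c k * b k l) = ∑ k ∈ s, c k * ip a (b k) := by
  simp only [ip, Finset.mul_sum]
  rw [Finset.sum_comm]
  exact Finset.sum_congr rfl fun k _ => Finset.sum_congr rfl fun j _ => by ring

theorem ip_sub_two_mul (a : Vec n) (p q : Vec n) :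
    ip a (fun l => p l - 2 * q l) = ip a p - 2 * ip a q := by
  simp only [ip, mul_sub, Finset.sum_sub_distrib, Finset.mul_sum]
  congr 1
  exact Finset.sum_congr rfl fun j _ => by ring

variable (D : RD n)

/-- derivative of `ap i θ` -/
theorem dv_ap (i : D.ι) (u : Vec n) (θ : VF n) :
    dv u (D.ap i θ) = D.ap i (fun l => dv u (θ l)) := by
  unfold RD.ap
  rw [dv_sum]
  exact Finset.sum_congr rfl fun j _ => dv_C_mul u _ _

/-- value of the derivative of the quotient -/
theorem eval_dv_quo (i : D.ι) (u : Vec n) {θ : VF n} (hθ : θ ∈ D.Der) (x : Vec n)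
    (hx : ip (D.a i) x ≠ 0) :
    eval x (dv u (quo (D.al i) (D.ap i θ))) =
      (ip (D.a i) (fun l => eval x (dv u (θ l))) -
        ip (D.a i) u * (ip (D.a i) (fun l => eval x (θ l)) / ip (D.a i) x)) / ip (D.a i) x := by
  have hd : D.al i ∣ D.ap i θ := hθ i
  have hal : eval x (D.al i) = ip (D.a i) x := eval_lin _ _
  have hal' : dv u (D.al i) = C (ip (D.a i) u) := dv_lin _ _
  have h1 := congrArg (fun f => eval x (dv u f)) (quo_spec hd)
  rw [dv_mul, dv_ap, map_add, map_mul, map_mul, hal', eval_C, hal, D.eval_ap] at h1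
  have hq : eval x (quo (D.al i) (D.ap i θ)) =
      ip (D.a i) (fun l => eval x (θ l)) / ip (D.a i) x := by
    rw [eval_quo hd x (by rwa [hal]), hal, D.eval_ap]
  rw [hq] at h1
  rw [eq_div_iff hx, ← h1]
  ring

theorem eval2 (u v : Vec n) {θ : VF n} (hθ : θ ∈ D.Der) (hv : D.nab v θ ∈ D.Der) (x : Vec n)
    (hx : ∀ i, ip (D.a i) x ≠ 0) (l : Fin n) :
    eval x (D.nab u (D.nab v θ) l) = eval x (dv u (dv v (θ l))) -
      2 * ∑ i, ip (D.a i) v * D.a i l * ((ip (D.a i) (fun j => eval x (dv u (θ j))) -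
        ip (D.a i) u * (ip (D.a i) (fun j => eval x (θ j)) / ip (D.a i) x)) / ip (D.a i) x) -
      2 * ∑ i, ip (D.a i) u * (ip (D.a i) (fun j => eval x (dv v (θ j))) -
        2 * ∑ k, ip (D.a k) v * ip (D.a k) (fun j => eval x (θ j)) / ip (D.a k) x *
          ip (D.a i) (D.a k)) / ip (D.a i) x * D.a i l := by
  rw [D.eval_nab u hv x hx l]
  have h2 : (2 : Pol n) = C (2 : ℂ) := by
    rw [map_ofNat]
  have e1 : eval x (dv u (D.nab v θ l)) = eval x (dv u (dv v (θ l))) -
      2 * ∑ i, ip (D.a i) v * D.a i l * ((ip (D.a i) (fun j => eval x (dv u (θ j))) -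
        ip (D.a i) u * (ip (D.a i) (fun j => eval x (θ j)) / ip (D.a i) x)) /
          ip (D.a i) x) := by
    have e2 : D.nab v θ l = dv v (θ l) -
        C (2 : ℂ) * ∑ i, C (ip (D.a i) v * D.a i l) * quo (D.al i) (D.ap i θ) := by
      rw [← h2]
      rfl
    rw [e2, dv_sub, dv_C_mul, dv_sum, map_sub, map_mul, eval_C, map_sum]
    congr 2
    refine Finset.sum_congr rfl fun i _ => ?_
    rw [dv_C_mul, map_mul, eval_C, eval_dv_quo D i u hθ x (hx i)]
  rw [e1]
  congr 2
  refine Finset.sum_congr rfl fun i _ => ?_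
  congr 3
  have e3 : (fun j => eval x (D.nab v θ j)) = fun j => (fun j => eval x (dv v (θ j))) j -
      2 * (fun j => ∑ k, (ip (D.a k) v * ip (D.a k) (fun j => eval x (θ j)) / ip (D.a k) x) *
        D.a k j) j := by
    funext j
    exact D.eval_nab v hθ x hx j
  rw [e3, ip_sub_two_mul, ip_sum_smul]

end FlatA

namespace RD

variable {n : ℕ} (D : RD n)

theorem flat (u v : Vec n) {θ : VF n} (hθ : θ ∈ D.Der) (hu : D.nab u θ ∈ D.Der)
    (hv : D.nab v θ ∈ D.Der) : D.nab u (D.nab v θ) = D.nab v (D.nab u θ) := by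
  funext l
  rw [← sub_eq_zero]
  refine eq_zero_of_eval D.Q_ne fun x hxQ => ?_
  have hx := (D.eval_Q_ne x).1 hxQ
  rw [map_sub, FlatA.eval2 D u v hθ hv x hx l, FlatA.eval2 D v u hθ hu x hx l, dv_comm u v]
  have hLA := congrFun (D.flatLA x u v (fun j => eval x (θ j)) hx) l
  simp only [Finset.sum_apply, Pi.smul_apply, smul_eq_mul, Pi.zero_apply] at hLA
  rw [sub_eq_zero, sub_sub, sub_sub]
  congr 1
  rw [← mul_add, ← mul_add]
  congr 1
  rw [← Finset.sum_add_distrib, ← Finset.sum_add_distrib, ← sub_eq_zero, ← Finset.sum_sub_distrib]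
  have key : ∀ i, (ip (D.a i) v * D.a i l * ((ip (D.a i) (fun j => eval x (dv u (θ j))) -
        ip (D.a i) u * (ip (D.a i) (fun j => eval x (θ j)) / ip (D.a i) x)) / ip (D.a i) x) +
      ip (D.a i) u * (ip (D.a i) (fun j => eval x (dv v (θ j))) -
        2 * ∑ k, ip (D.a k) v * ip (D.a k) (fun j => eval x (θ j)) / ip (D.a k) x *
          ip (D.a i) (D.a k)) / ip (D.a i) x * D.a i l) -
      (ip (D.a i) u * D.a i l * ((ip (D.a i) (fun j => eval x (dv v (θ j))) -
        ip (D.a i) v * (ip (D.a i) (fun j => eval x (θ j)) / ip (D.a i) x)) / ip (D.a i) x) +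
      ip (D.a i) v * (ip (D.a i) (fun j => eval x (dv u (θ j))) -
        2 * ∑ k, ip (D.a k) u * ip (D.a k) (fun j => eval x (θ j)) / ip (D.a k) x *
          ip (D.a i) (D.a k)) / ip (D.a i) x * D.a i l) =
      -2 * ∑ k, (ip (D.a i) u * ip (D.a k) v - ip (D.a i) v * ip (D.a k) u) /
      (ip (D.a i) x * ip (D.a k) x) * (ip (D.a i) (D.a k) * ip (D.a k) (fun j => eval x (θ j))) *
        D.a i l := by
    intro i
    have hxi := hx i
    have s1 : ∑ k, (ip (D.a i) u * ip (D.a k) v - ip (D.a i) v * ip (D.a k) u) /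
        (ip (D.a i) x * ip (D.a k) x) * (ip (D.a i) (D.a k) *
          ip (D.a k) (fun j => eval x (θ j))) * D.a i l =
        D.a i l / ip (D.a i) x * (ip (D.a i) u * ∑ k, ip (D.a k) v *
          ip (D.a k) (fun j => eval x (θ j)) / ip (D.a k) x * ip (D.a i) (D.a k) -
          ip (D.a i) v * ∑ k, ip (D.a k) u *
          ip (D.a k) (fun j => eval x (θ j)) / ip (D.a k) x * ip (D.a i) (D.a k)) := by
      rw [Finset.mul_sum, Finset.mul_sum, ← Finset.sum_sub_distrib, Finset.mul_sum]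
      refine Finset.sum_congr rfl fun k _ => ?_
      have hxk := hx k
      field_simp
    rw [s1]
    field_simp
    ring
  rw [Finset.sum_congr rfl fun i _ => key i, ← Finset.mul_sum, hLA, mul_zero]

end RD

end RFL
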