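import Pool.Agent.RFL.Base

/-!
# RFL-C3a : linear algebra of flatness

For a line `L = line i j` (`i ≠ j`) and a regular point `x` put
`Ω^L_u = ∑_{k ∈ L} (ip (a k) u / ip (a k) x) P_k`. `Ω^L_x = T_L` commutes with all `P_k`, `k ∈ L`
(`TX_comm`), hence with all `Ω^L_v`. `Ω^L_u` only depends on the orthogonal projection of `u` to
the plane `W = span {a i, a j}`, and `x_W ≠ 0`. If `v_W ∈ ℂ x_W` we are done, otherwise
`u_W = α x_W + β v_W`, `Ω^L_u = α T_L + β Ω^L_v` commutes with `Ω^L_v`.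

Sum over all pairs: `c_{kl} = (ip a_k u ip a_l v - ip a_k v ip a_l u)/(ip a_k x ip a_l x)` vanishes
for `k = l`, pairs `k ≠ l` are grouped by `line k l` (`Finset.sum_fiberwise_of_maps_to` on
`offDiag`), the fibre over `L` is `L.offDiag`.
-/

open MvPolynomial Matrix Finset

noncomputable section

namespace RFL

namespace RD

variable {n : ℕ} (D : RD n)

/-- the linear algebra of tangency: for `v, w, x` in `H_i`, `x` generic, the vector
`∑_{j ≠ i} ip (a j) v * ip (a j) w / ip (a j) x • a j` is in `H_i`.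
(The reflection `s i` fixes `v, w, x` and permutes the summands, `exists_perm`, so it fixes the
vector.) -/
theorem tangLA (i : D.ι) (x v w : Vec n) (hv : ip (D.a i) v = 0) (hw : ip (D.a i) w = 0)
    (hx : ip (D.a i) x = 0) (hx' : ∀ j, j ≠ i → ip (D.a j) x ≠ 0) :
    ∑ j ∈ univ.erase i, ip (D.a j) v * ip (D.a j) w / ip (D.a j) x * ip (D.a i) (D.a j) = 0 := by
  classical
  obtain ⟨σ, c, hc, hσ⟩ := D.exists_perm (D.s i)
  have hfix : ∀ y : Vec n, ip (D.a i) y = 0 → D.ρ (D.s i) *ᵥ y = y := by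
    intro y hy
    rw [smul_refl, hy, mul_zero, zero_smul, sub_zero]
  have hc0 : ∀ j, c j ≠ 0 := by
    intro j h0
    have := hc j
    rw [h0, mul_zero] at this
    exact zero_ne_one this
  have key : ∀ y : Vec n, ip (D.a i) y = 0 → ∀ j, ip (D.a (σ j)) y = c j * ip (D.a j) y := by
    intro y hy j
    have h1 := D.ip_rho (D.s i) (D.a j) y
    rw [hfix y hy, hσ j, ip_smul_left] at h1
    rw [← h1, ← mul_assoc, mul_comm (c j), hc j, one_mul]
  have key2 : ∀ j, c j * ip (D.a i) (D.a (σ j)) = D.ζ i * ip (D.a i) (D.a j) := by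
    intro j
    rw [← ip_smul_right, ← hσ j, smul_refl, sub_eq_add_neg, ip_add_right, ← neg_smul,
      ip_smul_right, D.unit i]
    ring
  set T : D.ι → ℂ := fun j => ip (D.a j) v * ip (D.a j) w / ip (D.a j) x * ip (D.a i) (D.a j)
    with hT
  have hTσ : ∀ j, T (σ j) = D.ζ i * T j := by
    intro j
    have e1 : T (σ j) = (c j * ip (D.a j) v) * (c j * ip (D.a j) w) / (c j * ip (D.a j) x) *
        ip (D.a i) (D.a (σ j)) := by
      simp only [hT]
      rw [key v hv j, key w hw j, key x hx j]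
    have e2 : (c j * ip (D.a j) v) * (c j * ip (D.a j) w) / (c j * ip (D.a j) x) =
        c j * (ip (D.a j) v * ip (D.a j) w / ip (D.a j) x) := by
      rw [show (c j * ip (D.a j) v) * (c j * ip (D.a j) w) =
        c j * (c j * (ip (D.a j) v * ip (D.a j) w)) by ring, mul_div_mul_left _ _ (hc0 j),
        mul_div_assoc]
    rw [e1, e2]
    have e3 := key2 j
    calc c j * (ip (D.a j) v * ip (D.a j) w / ip (D.a j) x) * ip (D.a i) (D.a (σ j))
        = (ip (D.a j) v * ip (D.a j) w / ip (D.a j) x) * (c j * ip (D.a i) (D.a (σ j))) := by ring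
      _ = D.ζ i * T j := by rw [e3]; simp only [hT]; ring
  have hTi : T i = 0 := by simp only [hT]; rw [hv]; simp
  have hsum : ∑ j ∈ univ.erase i, T j = ∑ j, T j := by
    rw [← Finset.add_sum_erase univ T (mem_univ i), hTi, zero_add]
  have h2 : ∑ j, T j = D.ζ i * ∑ j, T j := by
    rw [Finset.mul_sum, ← Equiv.sum_comp σ T]
    exact Finset.sum_congr rfl fun j _ => hTσ j
  have h3 : (1 - D.ζ i) * ∑ j, T j = 0 := by
    rw [sub_mul, one_mul, ← h2, sub_self]
  have h4 : (1 : ℂ) - D.ζ i ≠ 0 := sub_ne_zero.2 (D.ζne i).symm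
  have h5 : ∑ j, T j = 0 := (mul_eq_zero.1 h3).resolve_left h4
  rw [hsum, h5]

end RD

end RFL
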