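import Pool.Agent.RFL.Count

/-!
# RFL-C3a : linear algebra of flatness

For a line `L = line i j` (`i ≠ j`) and a regular point `x` put
`Ω^L_u = ∑_{k ∈ L} (ip (a k) u / ip (a k) x) P_k`. `Ω^L_x = T_L` commutes with all `P_k`, `k ∈ L`
(`TX_comm`), hence with all `Ω^L_v`. `Ω^L_u` only depends on the orthogonal projection of `u` to
the plane `W = span {a i, a j}`, and `x_W ≠ 0`. If `v_W ∈ ℂ x_W` we are done, otherwise
`u_W = α x_W + β v_W`, `Ω^L_u = α T_L + β Ω^L_v` commutes with `Ω^L_v`.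

Sum over all pairs: `c_{kl} = (ip a_k u ip a_l v - ip a_k v ip a_l u)/(ip a_k x ip a_l x)` vanishes
for `k = l`, pairs `k ≠ l` are grouped by `line k l` (`Finset.sum_fiberwise_of_maps_to` on
`offDiag`), the fibre over `L` is `L.offDiag`.
-/

open MvPolynomial Matrix Finset

noncomputable section

namespace RFL

namespace RD

variable {n : ℕ} (D : RD n)

private theorem flatLA1_key {i j : D.ι} (hij : i ≠ j) (x v w : Vec n)
    (hx : ∀ i, ip (D.a i) x ≠ 0) :
    ∑ k ∈ D.line i j, ∑ l ∈ D.line i j,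
      ((ip (D.a k) x * ip (D.a l) v - ip (D.a k) v * ip (D.a l) x) /
      (ip (D.a k) x * ip (D.a l) x) * (ip (D.a k) (D.a l) * ip (D.a l) w)) • D.a k = 0 := by
  have h1 : ∀ k l : D.ι, ((ip (D.a k) x * ip (D.a l) v - ip (D.a k) v * ip (D.a l) x) /
      (ip (D.a k) x * ip (D.a l) x) * (ip (D.a k) (D.a l) * ip (D.a l) w)) • D.a k =
      (ip (D.a l) v / ip (D.a l) x) • ((ip (D.a k) (ip (D.a l) w • D.a l)) • D.a k) -
      (ip (D.a k) v / ip (D.a k) x) • ((ip (D.a k) (ip (D.a l) w • D.a l)) • D.a k) := by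
    intro k l
    rw [smul_smul, smul_smul, ← sub_smul, ip_smul_right]
    congr 1
    have hk := hx k
    have hl := hx l
    field_simp
  rw [Finset.sum_congr rfl fun k _ => Finset.sum_congr rfl fun l _ => h1 k l]
  simp only [Finset.sum_sub_distrib]
  rw [Finset.sum_comm, sub_eq_zero]
  refine Finset.sum_congr rfl fun l hl => ?_
  rw [← Finset.smul_sum, ← Finset.smul_sum, D.TX_comm hij hl w, ← Finset.sum_smul]
  congr 2
  rw [ip]
  simp only [ip, Finset.sum_apply, Finset.mul_sum]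
  rw [Finset.sum_comm]

private theorem flatLA1_line {i j : D.ι} (hij : i ≠ j) (x u v w : Vec n)
    (hx : ∀ i, ip (D.a i) x ≠ 0) :
    ∑ k ∈ D.line i j, ∑ l ∈ D.line i j,
      ((ip (D.a k) u * ip (D.a l) v - ip (D.a k) v * ip (D.a l) u) /
      (ip (D.a k) x * ip (D.a l) x) * (ip (D.a k) (D.a l) * ip (D.a l) w)) • D.a k = 0 := by
  have hrep : ∀ k ∈ D.line i j, ∃ p q : ℂ, D.a k = p • D.a i + q • D.a j := by
    intro k hk
    have hk' : D.a k ∈ Submodule.span ℂ {D.a i, D.a j} := by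
      classical
      simpa [line] using hk
    obtain ⟨p, q, h⟩ := Submodule.mem_span_pair.1 hk'
    exact ⟨p, q, h.symm⟩
  by_cases hD : ip (D.a i) x * ip (D.a j) v - ip (D.a j) x * ip (D.a i) v = 0
  · -- `v` is a multiple of `x` on the line
    have hv : ∀ k ∈ D.line i j, ip (D.a k) v = ip (D.a i) v / ip (D.a i) x * ip (D.a k) x := by
      intro k hk
      obtain ⟨p, q, h⟩ := hrep k hk
      rw [h, ip_add_left, ip_add_left, ip_smul_left, ip_smul_left, ip_smul_left, ip_smul_left]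
      have hi := hx i
      field_simp
      linear_combination (star q) * hD
    have h2 := D.flatLA1_key hij x u w hx
    have h3 : ∀ k ∈ D.line i j, ∀ l ∈ D.line i j,
        ((ip (D.a k) u * ip (D.a l) v - ip (D.a k) v * ip (D.a l) u) /
        (ip (D.a k) x * ip (D.a l) x) * (ip (D.a k) (D.a l) * ip (D.a l) w)) • D.a k =
        (-(ip (D.a i) v / ip (D.a i) x)) •
        (((ip (D.a k) x * ip (D.a l) u - ip (D.a k) u * ip (D.a l) x) /
        (ip (D.a k) x * ip (D.a l) x) * (ip (D.a k) (D.a l) * ip (D.a l) w)) • D.a k) := by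
      intro k hk l hl
      rw [smul_smul, hv k hk, hv l hl]
      congr 1
      ring
    rw [Finset.sum_congr rfl fun k hk => Finset.sum_congr rfl fun l hl => h3 k hk l hl]
    simp only [← Finset.smul_sum]
    rw [h2, smul_zero]
  · -- `u` is a combination of `x` and `v` on the line
    obtain ⟨α, hα⟩ : ∃ α, α = (ip (D.a i) u * ip (D.a j) v - ip (D.a j) u * ip (D.a i) v) /
      (ip (D.a i) x * ip (D.a j) v - ip (D.a j) x * ip (D.a i) v) := ⟨_, rfl⟩
    obtain ⟨β, hβ⟩ : ∃ β, β = (ip (D.a i) x * ip (D.a j) u - ip (D.a j) x * ip (D.a i) u) /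
      (ip (D.a i) x * ip (D.a j) v - ip (D.a j) x * ip (D.a i) v) := ⟨_, rfl⟩
    have hui : ip (D.a i) u = α * ip (D.a i) x + β * ip (D.a i) v := by
      rw [hα, hβ, div_mul_eq_mul_div, div_mul_eq_mul_div, ← add_div, eq_div_iff hD]; ring
    have huj : ip (D.a j) u = α * ip (D.a j) x + β * ip (D.a j) v := by
      rw [hα, hβ, div_mul_eq_mul_div, div_mul_eq_mul_div, ← add_div, eq_div_iff hD]; ring
    have hu : ∀ k ∈ D.line i j, ip (D.a k) u = α * ip (D.a k) x + β * ip (D.a k) v := by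
      intro k hk
      obtain ⟨p, q, h⟩ := hrep k hk
      rw [h, ip_add_left, ip_add_left, ip_add_left, ip_smul_left, ip_smul_left, ip_smul_left,
        ip_smul_left, ip_smul_left, ip_smul_left, hui, huj]
      ring
    have h2 := D.flatLA1_key hij x v w hx
    have h3 : ∀ k ∈ D.line i j, ∀ l ∈ D.line i j,
        ((ip (D.a k) u * ip (D.a l) v - ip (D.a k) v * ip (D.a l) u) /
        (ip (D.a k) x * ip (D.a l) x) * (ip (D.a k) (D.a l) * ip (D.a l) w)) • D.a k =
        α • (((ip (D.a k) x * ip (D.a l) v - ip (D.a k) v * ip (D.a l) x) /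
        (ip (D.a k) x * ip (D.a l) x) * (ip (D.a k) (D.a l) * ip (D.a l) w)) • D.a k) := by
      intro k hk l hl
      rw [smul_smul, hu k hk, hu l hl]
      congr 1
      ring
    rw [Finset.sum_congr rfl fun k hk => Finset.sum_congr rfl fun l hl => h3 k hk l hl]
    simp only [← Finset.smul_sum]
    rw [h2, smul_zero]

private theorem flatLA1_group {M : Type} [AddCommMonoid M] (F : D.ι → D.ι → M)
    (hdiag : ∀ k, F k k = 0)
    (hline : ∀ i j, i ≠ j → ∑ k ∈ D.line i j, ∑ l ∈ D.line i j, F k l = 0) :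
    ∑ i, ∑ j, F i j = 0 := by
  have hoff : ∀ L : Finset D.ι, ∑ k ∈ L, ∑ l ∈ L, F k l = ∑ p ∈ L.offDiag, F p.1 p.2 := by
    intro L
    rw [← Finset.sum_product' L L (fun k l => F k l)]
    symm
    refine Finset.sum_subset ?_ ?_
    · intro p hp
      rw [Finset.mem_offDiag] at hp
      exact Finset.mem_product.2 ⟨hp.1, hp.2.1⟩
    · intro p hp hp'
      have hpp : p.1 = p.2 := by
        by_contra hne
        exact hp' (Finset.mem_offDiag.2 ⟨(Finset.mem_product.1 hp).1,
          (Finset.mem_product.1 hp).2, hne⟩)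
      rw [← hpp]
      exact hdiag _
  have hmaps : ∀ p ∈ (Finset.univ : Finset D.ι).offDiag, D.line p.1 p.2 ∈
      (Finset.univ : Finset D.ι).offDiag.image (fun p => D.line p.1 p.2) := by
    intro p hp
    rw [Finset.mem_image]
    exact ⟨p, hp, rfl⟩
  rw [hoff Finset.univ, ← Finset.sum_fiberwise_of_maps_to hmaps]
  refine Finset.sum_eq_zero fun L hL => ?_
  rw [Finset.mem_image] at hL
  obtain ⟨⟨i, j⟩, hp, hLe⟩ := hL
  rw [Finset.mem_offDiag] at hp
  have hij : i ≠ j := hp.2.2
  subst hLe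
  have hfib : (Finset.univ : Finset D.ι).offDiag.filter
      (fun p => D.line p.1 p.2 = D.line i j) = (D.line i j).offDiag := by
    ext p
    simp only [Finset.mem_filter, Finset.mem_offDiag, Finset.mem_univ, true_and]
    constructor
    · rintro ⟨hne, he⟩
      have h1 := D.mem_line_left p.1 p.2
      have h2 := D.mem_line_right p.1 p.2
      rw [he] at h1 h2
      exact ⟨h1, h2, hne⟩
    · rintro ⟨h1, h2, hne⟩
      exact ⟨hne, D.line_eq' hij h1 h2 hne⟩
  show ∑ p ∈ (Finset.univ : Finset D.ι).offDiag.filter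
      (fun p => D.line p.1 p.2 = D.line i j), F p.1 p.2 = 0
  rw [hfib, ← hoff]
  exact hline i j hij

theorem flatLA (x u v w : Vec n) (hx : ∀ i, ip (D.a i) x ≠ 0) :
    ∑ i, ∑ j, ((ip (D.a i) u * ip (D.a j) v - ip (D.a i) v * ip (D.a j) u) /
      (ip (D.a i) x * ip (D.a j) x) * (ip (D.a i) (D.a j) * ip (D.a j) w)) • D.a i = 0 := by
  refine D.flatLA1_group _ (fun k => ?_) (fun i j hij => D.flatLA1_line hij x u v w hx)
  rw [mul_comm (ip (D.a k) u), sub_self, zero_div, zero_mul, zero_smul]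

end RD

end RFL
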