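import Pool.Agent.RFL.Lin1

/-!
# RFL-C7 : Wronskian type lemma

Polynomial vectors `Θ a` (`a ∈ T`) with values in `K^P`, `K = Pol m`, horizontal for a rational
connection: `q * ∂_l Θ_a = Ω_l Θ_a`. If they are linearly independent over `ℂ`, they are linearly
independent over `Pol m`.

Proof. Induction on the maximal total degree of a relation `∑ f_a Θ_a = 0`: applying `q ∂_l`:
`∑ q ∂_l f_a Θ_a + Ω_l (∑ f_a Θ_a) = 0`, so `∑ ∂_l f_a Θ_a = 0` (domain, `q ≠ 0`); by induction
`∂_l f_a = 0` for all `l, a`, so the `f_a` are constants (characteristic zero), so `0`.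
(If all `f_a` have total degree `≤ 0` they are constants.)
-/

open MvPolynomial Matrix Finset

noncomputable section

namespace RFL

theorem const_of_pderiv {m : ℕ} (f : Pol m) (h : ∀ l, pderiv l f = 0) : ∃ c : ℂ, f = C c := by
  classical
  refine ⟨coeff 0 f, ?_⟩
  ext s
  rw [coeff_C]
  by_cases hs : s = 0
  · rw [if_pos hs.symm, hs]
  · rw [if_neg (fun h0 => hs h0.symm)]
    obtain ⟨l, hl⟩ : ∃ l, s l ≠ 0 := by
      by_contra hcon
      push Not at hcon
      exact hs (Finsupp.ext hcon)
    have h1 := congrArg (coeff (s - Finsupp.single l 1)) (h l)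
    rw [coeff_pderiv, coeff_zero] at h1
    have h2 : s - Finsupp.single l 1 + Finsupp.single l 1 = s := by
      apply tsub_add_cancel_of_le
      rw [Finsupp.single_le_iff]
      omega
    rw [h2] at h1
    rcases mul_eq_zero.1 h1 with h3 | h3
    · exact h3
    · exfalso
      exact Nat.cast_add_one_ne_zero _ h3

theorem totalDegree_pderiv_le {m : ℕ} (f : Pol m) (l : Fin m) {d : ℕ}
    (h : f.totalDegree ≤ d + 1) : (pderiv l f).totalDegree ≤ d := by
  classical
  apply Finset.sup_le
  intro s hs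
  rw [mem_support_iff, coeff_pderiv] at hs
  have h1 : s + Finsupp.single l 1 ∈ f.support := by
    rw [mem_support_iff]
    exact left_ne_zero_of_mul hs
  have h2 := (le_totalDegree h1).trans h
  have h3 : ((s + Finsupp.single l 1).sum fun _ e => e) = (s.sum fun _ e => e) + 1 := by
    rw [Finsupp.sum_add_index' (fun _ => rfl) (fun _ _ _ => rfl), Finsupp.sum_single_index rfl]
  omega

theorem wronskian_aux {m : ℕ} {T P : Type} [Fintype T] [Fintype P] (Θ : T → P → Pol m)
    (q : Pol m) (hq : q ≠ 0) (Ω : Fin m → P → P → Pol m)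
    (hΘ : ∀ a l p, q * pderiv l (Θ a p) = ∑ p', Ω l p p' * Θ a p')
    (hind : ∀ c : T → ℂ, (∀ p, ∑ a, C (c a) * Θ a p = 0) → ∀ a, c a = 0) (d : ℕ) :
    ∀ f : T → Pol m, (∀ a, (f a).totalDegree ≤ d) → (∀ p, ∑ a, f a * Θ a p = 0) →
      ∀ a, f a = 0 := by
  have hconst : ∀ f : T → Pol m, (∀ a, ∃ c : ℂ, f a = C c) → (∀ p, ∑ a, f a * Θ a p = 0) →
      ∀ a, f a = 0 := by
    intro f hc hf a
    choose c hc using hc
    have h1 : ∀ p, ∑ a, C (c a) * Θ a p = 0 := by
      intro p
      rw [← hf p]
      exact Finset.sum_congr rfl (fun a _ => by rw [hc a])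
    rw [hc a, hind c h1 a, C_0]
  induction d with
  | zero =>
    intro f hd hf
    apply hconst f _ hf
    intro a
    exact ⟨_, totalDegree_eq_zero_iff_eq_C.1 (Nat.le_zero.1 (hd a))⟩
  | succ d ih =>
    intro f hd hf
    apply hconst f _ hf
    have hder : ∀ l, ∀ a, pderiv l (f a) = 0 := by
      intro l
      apply ih (fun a => pderiv l (f a)) (fun a => totalDegree_pderiv_le (f a) l (hd a))
      intro p
      have h1 := congrArg (fun x => q * pderiv l x) (hf p)
      simp only [map_sum, pderiv_mul, map_zero, mul_zero, Finset.sum_add_distrib] at h1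
      rw [mul_add, Finset.mul_sum, Finset.mul_sum] at h1
      have h2 : ∑ a, q * (f a * pderiv l (Θ a p)) = 0 := by
        have : ∀ a, q * (f a * pderiv l (Θ a p)) = ∑ p', Ω l p p' * (f a * Θ a p') := by
          intro a
          have h3 : q * (f a * pderiv l (Θ a p)) = f a * (q * pderiv l (Θ a p)) := by ring
          rw [h3, hΘ, Finset.mul_sum]
          exact Finset.sum_congr rfl (fun p' _ => by ring)
        rw [Finset.sum_congr rfl (fun a _ => this a), Finset.sum_comm]
        apply Finset.sum_eq_zero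
        intro p' _
        rw [← Finset.mul_sum, hf p', mul_zero]
      rw [h2, add_zero, ← Finset.mul_sum] at h1
      exact (mul_eq_zero.1 h1).resolve_left hq
    intro a
    exact const_of_pderiv (f a) (fun l => hder l a)

theorem wronskian {m : ℕ} {T P : Type} [Fintype T] [Fintype P] (Θ : T → P → Pol m) (q : Pol m)
    (hq : q ≠ 0) (Ω : Fin m → P → P → Pol m)
    (hΘ : ∀ a l p, q * pderiv l (Θ a p) = ∑ p', Ω l p p' * Θ a p')
    (hind : ∀ c : T → ℂ, (∀ p, ∑ a, C (c a) * Θ a p = 0) → ∀ a, c a = 0)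
    (f : T → Pol m) (hf : ∀ p, ∑ a, f a * Θ a p = 0) : ∀ a, f a = 0 :=
  wronskian_aux Θ q hq Ω hΘ hind (Finset.univ.sup fun a => (f a).totalDegree) f
    (fun a => Finset.le_sup (f := fun a => (f a).totalDegree) (Finset.mem_univ a)) hf

end RFL
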