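import Pool.Agent.RFL.MU
import Pool.Agent.RFL.Wron

/-!
# RFL-C8 : existence of a frame of horizontal fields

`U = {η ∈ M homogeneous of degree h}` is a `ℂ`-subspace of the finite dimensional space of
homogeneous vector fields of degree `h`; its elements are horizontal (`M_hor`). A `ℂ`-basis of `U`
is `Pol n`-independent by `wronskian` with `q = Q` and
`Ω_l p p' = 2 ∑_i (Q/α_i) ip (a i) e_l * a_i(p) * star (a_i p')` (horizontality times `Q`). So
`dim U ≤ n` (independent vectors in `Frac^n`). By `M_gen` and `Q_sq_mem_M` the vectors `Q^2 e_j` are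
combinations of the basis, so `dim U ≥ n` (rank).
-/

open MvPolynomial Matrix Finset

noncomputable section

namespace RFL

namespace RD

variable {n : ℕ} (D : RD n)

namespace FrameEx

/-- the product of the other forms -/
def Qi (i : D.ι) : Pol n := ∏ j ∈ univ.erase i, D.al j

theorem Q_eq (i : D.ι) : D.Q = D.al i * Qi D i := by
  unfold RD.Q Qi
  rw [Finset.mul_prod_erase univ (fun j => D.al j) (Finset.mem_univ i)]

/-- the connection matrix, multiplied by `Q` -/
def Om (l : Fin n) (p p' : Fin n) : Pol n :=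
  ∑ i, 2 * C (ip (D.a i) (Pi.single l 1) * D.a i p) * Qi D i * C (star (D.a i p'))

theorem dv_single (l : Fin n) (f : Pol n) : dv (Pi.single l 1) f = pderiv l f := by
  unfold dv
  rw [Finset.sum_eq_single l]
  · simp
  · intro j _ hj
    simp [Pi.single_eq_of_ne hj]
  · intro h
    exact absurd (Finset.mem_univ l) h

theorem hor_eq {θ : VF n} (hθ : θ ∈ D.Der) (hh : ∀ v, D.nab v θ = 0) (l p : Fin n) :
    D.Q * pderiv l (θ p) = ∑ p', Om D l p p' * θ p' := by
  have h1 : D.nab (Pi.single l 1) θ p = 0 := by rw [hh]; rfl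
  unfold RD.nab at h1
  rw [dv_single, sub_eq_zero] at h1
  rw [h1]
  have h2 : ∀ p', Om D l p p' * θ p' =
      ∑ i, 2 * C (ip (D.a i) (Pi.single l 1) * D.a i p) * Qi D i * (C (star (D.a i p')) * θ p') := by
    intro p'
    unfold Om
    rw [Finset.sum_mul]
    exact Finset.sum_congr rfl fun i _ => by ring
  simp_rw [h2]
  rw [Finset.sum_comm, ← mul_assoc, mul_comm D.Q 2, mul_assoc, Finset.mul_sum, Finset.mul_sum]
  apply Finset.sum_congr rfl
  intro i _
  rw [← Finset.mul_sum]
  have h3 : D.al i * quo (D.al i) (D.ap i θ) = D.ap i θ := quo_spec (hθ i)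
  have h4 : (∑ p', C (star (D.a i p')) * θ p') = D.ap i θ := rfl
  rw [h4, Q_eq D i]
  calc 2 * (D.al i * Qi D i * (C (ip (D.a i) (Pi.single l 1) * D.a i p) *
        quo (D.al i) (D.ap i θ))) =
      2 * C (ip (D.a i) (Pi.single l 1) * D.a i p) * Qi D i *
        (D.al i * quo (D.al i) (D.ap i θ)) := by ring
    _ = _ := by rw [h3]

/-- the elements of `M` of degree `h` -/
def U (h : ℕ) : Submodule ℂ (VF n) where
  carrier := {η | η ∈ D.M ∧ ∀ l, (η l).IsHomogeneous h}
  zero_mem' := by
    refine ⟨?_, fun l => isHomogeneous_zero _ _ _⟩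
    have h1 := D.Q_sq_mem_M 0
    rwa [smul_zero] at h1
  add_mem' := by
    rintro η ξ ⟨h1, h2⟩ ⟨h3, h4⟩
    exact ⟨D.M_add h1 h3, fun l => (h2 l).add (h4 l)⟩
  smul_mem' := by
    rintro c η ⟨h1, h2⟩
    have h3 : c • η = (C c : Pol n) • η := by
      funext l
      simp only [Pi.smul_apply, smul_eq_C_mul, smul_eq_mul]
    rw [h3]
    refine ⟨D.M_smul _ h1, fun l => ?_⟩
    have h4 := (isHomogeneous_C (Fin n) c).mul (h2 l)
    rw [zero_add] at h4
    exact h4

theorem csmul_apply (c : ℂ) (η : VF n) (p : Fin n) : (c • η) p = C c * η p := by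
  simp only [Pi.smul_apply, smul_eq_C_mul]

theorem indep_pol {h : ℕ}
    (hT : ∀ v : Vec n, ∑ k, ip (D.a k) v • D.a k = ((h : ℂ) / 2) • v)
    {T : Type} [Fintype T] (b : T → U D h) (hb : LinearIndependent ℂ b)
    (f : T → Pol n) (hf : ∀ p, ∑ a, f a * (b a : VF n) p = 0) : ∀ a, f a = 0 := by
  refine wronskian (fun a => (b a : VF n)) D.Q D.Q_ne (Om D) ?_ ?_ f hf
  · intro a l p
    exact hor_eq D (b a).2.1.1 (fun v => D.M_hor hT (b a).2.1 (b a).2.2 v) l p
  · intro c hc
    rw [Fintype.linearIndependent_iff] at hb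
    apply hb c
    apply Subtype.ext
    rw [Submodule.coe_sum, ZeroMemClass.coe_zero]
    funext p
    rw [Finset.sum_apply]
    have h1 := hc p
    rw [Pi.zero_apply, ← h1]
    apply Finset.sum_congr rfl
    intro a _
    rw [Submodule.coe_smul, csmul_apply]

theorem linInd_pol {h : ℕ}
    (hT : ∀ v : Vec n, ∑ k, ip (D.a k) v • D.a k = ((h : ℂ) / 2) • v)
    {T : Type} [Fintype T] (b : T → U D h) (hb : LinearIndependent ℂ b) :
    LinearIndependent (Pol n) (fun a => (b a : VF n)) := by
  rw [Fintype.linearIndependent_iff]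
  intro f hf
  apply indep_pol D hT b hb f
  intro p
  have h1 := congrFun hf p
  rw [Finset.sum_apply, Pi.zero_apply] at h1
  rw [← h1]
  exact Finset.sum_congr rfl fun a _ => rfl

theorem rank_U_le {h : ℕ}
    (hT : ∀ v : Vec n, ∑ k, ip (D.a k) v • D.a k = ((h : ℂ) / 2) • v) :
    Module.rank ℂ (U D h) ≤ n := by
  apply rank_le
  intro s hs
  have h1 := linInd_pol D hT (T := s) (fun i : s => (i : U D h)) hs
  have h2 := h1.fintype_card_le_finrank
  simpa using h2

theorem span_le {h m : ℕ} (b : Module.Basis (Fin m) ℂ (U D h)) {η : VF n} (hη : η ∈ U D h) :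
    η ∈ Submodule.span (Pol n) (Set.range fun a => (b a : VF n)) := by
  rw [Submodule.mem_span_range_iff_exists_fun]
  refine ⟨fun a => C (b.repr ⟨η, hη⟩ a), ?_⟩
  have h1 := b.sum_repr ⟨η, hη⟩
  have h2 : ((∑ i, b.repr ⟨η, hη⟩ i • b i : U D h) : VF n) = η := by rw [h1]
  rw [Submodule.coe_sum] at h2
  refine Eq.trans ?_ h2
  apply Finset.sum_congr rfl
  intro a _
  rw [Submodule.coe_smul]
  funext p
  rw [csmul_apply]
  rfl

end FrameEx

theorem exists_frame {h : ℕ}
    (hT : ∀ v : Vec n, ∑ k, ip (D.a k) v • D.a k = ((h : ℂ) / 2) • v) :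
    ∃ θ : Fin n → VF n, Frame D h θ := by
  have hrank := FrameEx.rank_U_le D hT
  have hlt : Module.rank ℂ (FrameEx.U D h) < Cardinal.aleph0 :=
    lt_of_le_of_lt hrank Cardinal.natCast_lt_aleph0
  haveI : Module.Finite ℂ (FrameEx.U D h) := Module.rank_lt_aleph0_iff.mp hlt
  have hle : Module.finrank ℂ (FrameEx.U D h) ≤ n := Module.finrank_le_of_rank_le hrank
  -- spanning
  have hgen : ∀ {m : ℕ} (b : Module.Basis (Fin m) ℂ (FrameEx.U D h)) (η : VF n), η ∈ D.M →
      η ∈ Submodule.span (Pol n) (Set.range fun a => (b a : VF n)) := by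
    intro m b η hη
    have h1 := D.M_gen hT hη
    refine Submodule.span_le.mpr ?_ h1
    rintro ξ ⟨h2, h3⟩
    exact FrameEx.span_le D b ⟨h2, h3⟩
  have hge : n ≤ Module.finrank ℂ (FrameEx.U D h) := by
    let b := Module.finBasis ℂ (FrameEx.U D h)
    have hQ2 : D.Q ^ 2 ≠ 0 := pow_ne_zero _ D.Q_ne
    have hli : LinearIndependent (Pol n)
        (fun j : Fin n => (D.Q ^ 2) • (Pi.single j 1 : VF n)) := by
      rw [Fintype.linearIndependent_iff]
      intro f hf j
      have h1 := congrFun hf j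
      rw [Finset.sum_apply, Pi.zero_apply, Finset.sum_eq_single j] at h1
      · simp only [Pi.smul_apply, Pi.single_eq_same, smul_eq_mul, mul_one] at h1
        rcases mul_eq_zero.mp h1 with h2 | h2
        · exact h2
        · exact absurd h2 hQ2
      · intro i _ hij
        simp [Pi.single_eq_of_ne (Ne.symm hij)]
      · intro h2
        exact absurd (Finset.mem_univ j) h2
    haveI : Fintype (Set.range fun a => (b a : VF n)) := Fintype.ofFinite _
    have h3 := linearIndependent_le_span' _ hli (Set.range fun a => (b a : VF n)) (by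
      rintro _ ⟨j, rfl⟩
      exact hgen b _ (D.Q_sq_mem_M _))
    rw [Cardinal.mk_fin, Nat.cast_le] at h3
    refine h3.trans ?_
    have h4 : Fintype.card (Set.range fun a => (b a : VF n)) ≤
        Fintype.card (Fin (Module.finrank ℂ (FrameEx.U D h))) := by
      apply Fintype.card_le_of_surjective (Set.rangeFactorization fun a => (b a : VF n))
      exact Set.rangeFactorization_surjective
    rwa [Fintype.card_fin] at h4
  have heq : Module.finrank ℂ (FrameEx.U D h) = n := le_antisymm hle hge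
  let b := Module.finBasisOfFinrankEq ℂ (FrameEx.U D h) heq
  have hM : ∀ η ∈ D.M, ∃ u : Fin n → Pol n, ∀ l, η l = ∑ k, u k * (b k : VF n) l := by
    intro η hη
    have h1 := hgen b η hη
    rw [Submodule.mem_span_range_iff_exists_fun] at h1
    obtain ⟨u, hu⟩ := h1
    refine ⟨u, fun l => ?_⟩
    rw [← hu, Finset.sum_apply]
    exact Finset.sum_congr rfl fun k _ => rfl
  refine ⟨fun k => (b k : VF n), ?_, ?_, ?_, ?_, hM, ?_⟩
  · intro k
    exact (b k).2.1.1
  · intro k v
    exact D.M_hor hT (b k).2.1 (b k).2.2 v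
  · intro k l
    exact (b k).2.2 l
  · intro f hf
    exact FrameEx.indep_pol D hT (fun k => b k) b.linearIndependent f hf
  · intro δ hδ
    obtain ⟨u, hu⟩ := hM _ (D.Q_Der_mem_M hδ)
    refine ⟨u, fun l => ?_⟩
    rw [← hu l]
    rfl

end RD

end RFL
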