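import Pool.Agent.RFL.LinType

/-!
# RFL-J : the socle lemma

`BH w e P`: bihomogeneous of degree `w` in `x` and `e` in `T`.

`gchase` (graded chase in the critical degree), `y i = C (X i)`, `k = n = m + 1`. For a finset `R` of
rows, `p + |R| = n`, `P` a cochain in degree `p` with all `P I` in `BH w e`, all `kd P I ∈ idL R`, and
NOT (`w + |R| = ∑_{j∈R} c_j` and `|R| ≤ e`): `P ≡ kd P'`. Induction on `R`. `R = ∅`: `p = n`,
`w ≠ 0`: `kosT_top`. `insert j R`: `kd P I = L_j W I + idL R`; taking the bihomogeneous component of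
bidegree `(w + 1, e)`: `W` in degree `p + 1`, `BH (w + 1 - c_j) (e - 1)` if `c_j ≤ w + 1` and `1 ≤ e`, and
`W = 0` otherwise. `kd W ∈ idL R` (prime, `Lf_notMem`). The pair `(w + 1 - c_j, e - 1)` is not critical
for `R`, so `W ≡ kd W'` (if `W = 0` take `W' = 0`). `kd (P - L_j W') ∈ idL R` and `p + |R| < n`:
`chase₀` (no grading needed) for `P - L_j W'`.
(`idL R` is generated by the bihomogeneous `L_j`, so bihomogeneous components of elements of `idL R`
are in `idL R`.)

`socle`: `F` homogeneous of degree `e`, `X_k F ∈ I^r` for all `k`, `I = span (range g)`, `F ∉ I^r`.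
Choose `P_k ∈ PT`, homogeneous of degree `r` in `T`, with `P_k(g) = X_k F`, and (degree
`e + 1 = r d + w`) coefficients homogeneous of degree `w = e + 1 - r d` (if `e + 1 < r d` then
`X_k F = 0`, `F = 0`, contradiction). Cochain `P {k} = P_k` in degree `1`:
`kd P {k,l} = ±(X_k P_l - X_l P_k)` vanishes at `g`, so is in `idL univ` (`ker_idL`).
If not critical, `gchase` with `R = univ`, `|R| = m`, `p = 1`: `P_k ≡ X_k P_0`, `P_0 = P' ∅`; so
`X_k F = X_k P_0(g)`, `F = P_0(g)`; taking the homogeneous `T`-component of degree `r` of `P_0`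
(`P_k` has `T`-degree `r`, `idL` is homogeneous): `F ∈ I^r`. Contradiction. So the degrees are
critical: `w + m = ∑ c_j = d`, `m ≤ r`, i.e. `e + 1 - r d + m = d`.
-/

open MvPolynomial Matrix Finset

noncomputable section

namespace RFL

/-- bihomogeneous elements of `PT n` -/
def BH {n : ℕ} (w e : ℕ) (P : PT n) : Prop :=
  P.IsHomogeneous e ∧ ∀ μ, (coeff μ P).IsHomogeneous w

namespace GChase

/-- homogeneous component of a product with a homogeneous factor -/
theorem hc_mul {σ R : Type} [CommRing R] (b f : MvPolynomial σ R) (c w : ℕ)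
    (hb : b.IsHomogeneous c) :
    homogeneousComponent w (b * f) = if c ≤ w then b * homogeneousComponent (w - c) f else 0 := by
  conv_lhs => rw [← sum_homogeneousComponent f, Finset.mul_sum, map_sum]
  have h1 : ∀ i ∈ Finset.range (f.totalDegree + 1),
      homogeneousComponent w (b * homogeneousComponent i f) =
        if w = c + i then b * homogeneousComponent i f else 0 := by
    intro i _
    exact homogeneousComponent_of_mem (hb.mul (homogeneousComponent_isHomogeneous i f))
  rw [Finset.sum_congr rfl h1]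
  split_ifs with hcw
  · by_cases hr : w - c ∈ Finset.range (f.totalDegree + 1)
    · rw [Finset.sum_eq_single_of_mem (w - c) hr]
      · rw [if_pos (by omega)]
      · intro i _ hi
        rw [if_neg (by omega)]
    · rw [Finset.sum_eq_zero]
      · rw [homogeneousComponent_eq_zero, mul_zero]
        simp only [Finset.mem_range, not_lt] at hr
        omega
      · intro i hi
        rw [if_neg]
        rintro rfl
        apply hr
        rwa [Nat.add_sub_cancel_left]
  · apply Finset.sum_eq_zero
    intro i _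
    rw [if_neg (by omega)]

/-- component of `x`-degree `w` -/
def xc {n : ℕ} (w : ℕ) (P : PT n) : PT n :=
  ∑ μ ∈ P.support, monomial μ (homogeneousComponent w (coeff μ P))

theorem coeff_xc {n : ℕ} (w : ℕ) (P : PT n) (μ : Fin n →₀ ℕ) :
    coeff μ (xc w P) = homogeneousComponent w (coeff μ P) := by
  classical
  unfold xc
  rw [coeff_sum]
  simp only [coeff_monomial]
  rw [Finset.sum_ite_eq' P.support μ]
  split_ifs with h
  · rfl
  · rw [notMem_support_iff.mp h, map_zero]

theorem xc_add {n : ℕ} (w : ℕ) (P P' : PT n) : xc w (P + P') = xc w P + xc w P' := by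
  ext1 μ
  rw [coeff_add, coeff_xc, coeff_xc, coeff_xc, coeff_add, map_add]

theorem xc_zero {n : ℕ} (w : ℕ) : xc w (0 : PT n) = 0 := by
  ext1 μ
  rw [coeff_xc, coeff_zero, map_zero]

theorem xc_sum {n : ℕ} {T : Type} (w : ℕ) (S : Finset T) (P : T → PT n) :
    xc w (∑ s ∈ S, P s) = ∑ s ∈ S, xc w (P s) := by
  classical
  induction S using Finset.induction_on with
  | empty => simp [xc_zero]
  | insert a S ha ih => rw [Finset.sum_insert ha, Finset.sum_insert ha, xc_add, ih]

theorem xc_C_mul {n : ℕ} (w c : ℕ) (b : Pol n) (hb : b.IsHomogeneous c) (P : PT n) :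
    xc w (C b * P) = if c ≤ w then C b * xc (w - c) P else 0 := by
  ext1 μ
  rw [coeff_xc, coeff_C_mul, hc_mul b _ c w hb]
  split_ifs
  · rw [coeff_C_mul, coeff_xc]
  · rw [coeff_zero]

theorem xc_mul_X {n : ℕ} (w : ℕ) (k : Fin n) (P : PT n) :
    xc w (X k * P) = X k * xc w P := by
  classical
  ext1 μ
  rw [coeff_xc, coeff_X_mul', coeff_X_mul']
  split_ifs
  · rw [coeff_xc]
  · rw [map_zero]

/-- bihomogeneous component -/
def bc {n : ℕ} (w e : ℕ) (P : PT n) : PT n := homogeneousComponent e (xc w P)

theorem bc_add {n : ℕ} (w e : ℕ) (P P' : PT n) : bc w e (P + P') = bc w e P + bc w e P' := by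
  rw [bc, xc_add, map_add]; rfl

theorem bc_zero {n : ℕ} (w e : ℕ) : bc w e (0 : PT n) = 0 := by
  rw [bc, xc_zero, map_zero]

theorem bc_sub {n : ℕ} (w e : ℕ) (P P' : PT n) : bc w e (P - P') = bc w e P - bc w e P' := by
  have h := bc_add w e (P - P') P'
  rw [sub_add_cancel] at h
  rw [h, add_sub_cancel_right]

theorem BH_bc {n : ℕ} (w e : ℕ) (P : PT n) : BH w e (bc w e P) := by
  refine ⟨homogeneousComponent_isHomogeneous _ _, fun μ => ?_⟩
  rw [bc, coeff_homogeneousComponent]
  split_ifs
  · rw [coeff_xc]; exact homogeneousComponent_isHomogeneous _ _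
  · exact isHomogeneous_zero _ _ _

theorem bc_self {n : ℕ} (w e : ℕ) (P : PT n) (h : BH w e P) : bc w e P = P := by
  have h1 : xc w P = P := by
    ext1 μ
    rw [coeff_xc, homogeneousComponent_eq_self (h.2 μ)]
  rw [bc, h1, homogeneousComponent_eq_self h.1]

theorem bc_Lf_mul {m : ℕ} (b : Fin m → Fin (m + 1) → Pol (m + 1)) (c : Fin m → ℕ)
    (hc : ∀ j k, (b j k).IsHomogeneous (c j)) (j : Fin m) (w e : ℕ) (W : PT (m + 1)) :
    bc w e (Lf b j * W) = if c j ≤ w ∧ 1 ≤ e then Lf b j * bc (w - c j) (e - 1) W else 0 := by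
  have h1 : xc w (Lf b j * W) = if c j ≤ w then Lf b j * xc (w - c j) W else 0 := by
    unfold Lf
    rw [Finset.sum_mul, xc_sum]
    have h2 : ∀ k ∈ (Finset.univ : Finset (Fin (m + 1))),
        xc w (C (b j k) * X k * W) =
          if c j ≤ w then C (b j k) * X k * xc (w - c j) W else 0 := by
      intro k _
      rw [mul_assoc, xc_C_mul w (c j) _ (hc j k), xc_mul_X, mul_assoc]
    rw [Finset.sum_congr rfl h2]
    split_ifs with h
    · rw [Finset.sum_mul]
    · simp
  have hL : (Lf b j).IsHomogeneous 1 := Lf_hom b j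
  rw [bc, h1]
  by_cases h : c j ≤ w
  · rw [if_pos h, hc_mul _ _ 1 e hL]
    by_cases h' : 1 ≤ e
    · rw [if_pos h', if_pos ⟨h, h'⟩]; rfl
    · rw [if_neg h', if_neg (fun hh => h' hh.2)]
  · rw [if_neg h, map_zero, if_neg (fun hh => h hh.1)]

theorem bc_mem {m : ℕ} (b : Fin m → Fin (m + 1) → Pol (m + 1)) (c : Fin m → ℕ)
    (hc : ∀ j k, (b j k).IsHomogeneous (c j)) (R : Finset (Fin m)) (w e : ℕ)
    (P : PT (m + 1)) (hP : P ∈ idL b R) : bc w e P ∈ idL b R := by
  unfold idL at hP ⊢
  obtain ⟨Z, rfl⟩ := (Submodule.mem_span_image_finset_iff_exists_fun' (PT (m + 1))).mp hP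
  have hsum : ∀ S : Finset (Fin m), S ⊆ R →
      bc w e (∑ i ∈ S, Z i • Lf b i) ∈ Ideal.span (Lf b '' (R : Set (Fin m))) := by
    intro S
    induction S using Finset.induction_on with
    | empty => intro _; rw [Finset.sum_empty, bc_zero]; exact Ideal.zero_mem _
    | insert a S ha ih =>
      intro hS
      rw [Finset.sum_insert ha, bc_add]
      refine Ideal.add_mem _ ?_ (ih (fun x hx => hS (Finset.mem_insert_of_mem hx)))
      rw [smul_eq_mul, mul_comm, bc_Lf_mul b c hc]
      split_ifs
      · exact Ideal.mul_mem_right _ _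
          (Ideal.subset_span ⟨a, hS (Finset.mem_insert_self a S), rfl⟩)
      · exact Ideal.zero_mem _
  exact hsum R (Finset.Subset.refl R)

theorem BH_kd {m : ℕ} (w e : ℕ) (P : Finset (Fin (m + 1)) → PT (m + 1))
    (hBH : ∀ I, BH w e (P I)) (I : Finset (Fin (m + 1))) :
    BH (w + 1) e (kd (fun i => (C (X i) : PT (m + 1))) P I) := by
  unfold kd
  have h : ∀ i ∈ I, BH (w + 1) e (((sg i I : ℤ) : PT (m + 1)) * C (X i) * P (I.erase i)) := by
    intro i _
    have h1 : (((sg i I : ℤ) : PT (m + 1)) * C (X i) * P (I.erase i)) =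
        C (C ((sg i I : ℤ) : ℂ) * X i) * P (I.erase i) := by
      rw [C_mul]
      simp
    rw [h1]
    refine ⟨?_, fun μ => ?_⟩
    · have := (isHomogeneous_C (Fin (m + 1)) (C ((sg i I : ℤ) : ℂ) * X i : Pol (m + 1))).mul
        (hBH (I.erase i)).1
      rwa [zero_add] at this
    · rw [coeff_C_mul]
      have h2 := ((isHomogeneous_C (Fin (m + 1)) ((sg i I : ℤ) : ℂ)).mul
        (isHomogeneous_X ℂ i)).mul ((hBH (I.erase i)).2 μ)
      have h3 : 0 + 1 + w = w + 1 := by ring
      rwa [h3] at h2
  refine ⟨?_, fun μ => ?_⟩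
  · exact IsHomogeneous.sum _ _ _ (fun i hi => (h i hi).1)
  · rw [coeff_sum]
    exact IsHomogeneous.sum _ _ _ (fun i hi => (h i hi).2 μ)

theorem lin_single {n : ℕ} (i : Fin n) : lin (Pi.single i 1 : Vec n) = X i := by
  classical
  unfold lin
  rw [Finset.sum_eq_single i]
  · simp
  · intro j _ hj
    simp [Pi.single_eq_of_ne hj]
  · simp

theorem single_indep (n : ℕ) : LinearIndependent ℂ (fun i : Fin n => (Pi.single i 1 : Vec n)) := by
  have := (Pi.basisFun ℂ (Fin n)).linearIndependent
  convert this using 2 with i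
  simp

theorem idL_mono {m : ℕ} (b : Fin m → Fin (m + 1) → Pol (m + 1)) {R R' : Finset (Fin m)}
    (h : R ⊆ R') : idL b R ≤ idL b R' :=
  Ideal.span_mono (Set.image_mono (by exact_mod_cast h))

end GChase

theorem gchase {m : ℕ} (D : RD (m + 1)) (b : Fin m → Fin (m + 1) → Pol (m + 1))
    (hb : RankHyp D b) (c : Fin m → ℕ) (hc : ∀ j k, (b j k).IsHomogeneous (c j))
    (R : Finset (Fin m)) (p : ℕ) (hp : p + R.card = m + 1) (w e : ℕ)
    (P : Finset (Fin (m + 1)) → PT (m + 1)) (hP : ∀ I, I.card ≠ p → P I = 0)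
    (hBH : ∀ I, BH w e (P I))
    (hd : ∀ I, kd (fun i => (C (X i) : PT (m + 1))) P I ∈ idL b R)
    (hcrit : ¬ (w + R.card = ∑ j ∈ R, c j ∧ R.card ≤ e)) :
    ∃ (P' : Finset (Fin (m + 1)) → PT (m + 1)), (∀ I, I.card + 1 ≠ p → P' I = 0) ∧
      ∀ I, P I - kd (fun i => (C (X i) : PT (m + 1))) P' I ∈ idL b R := by
  classical
  induction R using Finset.induction_on generalizing p w e P with
  | empty =>
    simp only [Finset.card_empty, add_zero] at hp
    subst hp
    have hw : 0 < w := by
      rcases Nat.eq_zero_or_pos w with h | h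
      · exfalso; apply hcrit; simp [h]
      · exact h
    obtain ⟨P', h1, h2⟩ := kosT_top w hw P hP (fun I μ => (hBH I).2 μ)
    refine ⟨P', h1, fun I => ?_⟩
    rw [h2, sub_self]
    exact Ideal.zero_mem _
  | insert j R hj ih =>
    have hcard : (insert j R).card = R.card + 1 := Finset.card_insert_of_notMem hj
    rw [hcard] at hp
    have hprime : ∀ R' : Finset (Fin m), (idL b R').IsPrime := fun R' => linType D b hb R'
    -- the quotient cochain
    have hex : ∀ I, ∃ W : PT (m + 1),
        kd (fun i => (C (X i) : PT (m + 1))) P I - Lf b j * W ∈ idL b R := by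
      intro I
      exact (mem_idL_insert b R j _).mp (hd I)
    choose W₀ hW₀ using hex
    set W : Finset (Fin (m + 1)) → PT (m + 1) := fun I =>
      if I.card = p + 1 ∧ c j ≤ w + 1 ∧ 1 ≤ e then GChase.bc (w + 1 - c j) (e - 1) (W₀ I) else 0
      with hWdef
    have hkdBH : ∀ I, GChase.bc (w + 1) e (kd (fun i => (C (X i) : PT (m + 1))) P I) =
        kd (fun i => (C (X i) : PT (m + 1))) P I := by
      intro I
      exact GChase.bc_self _ _ _ (GChase.BH_kd w e P hBH I)
    have hW : ∀ I, kd (fun i => (C (X i) : PT (m + 1))) P I - Lf b j * W I ∈ idL b R := by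
      intro I
      by_cases hI : I.card = p + 1
      · have h1 := GChase.bc_mem b c hc R (w + 1) e _ (hW₀ I)
        rw [GChase.bc_sub, hkdBH, GChase.bc_Lf_mul b c hc] at h1
        by_cases h2 : c j ≤ w + 1 ∧ 1 ≤ e
        · rw [if_pos h2] at h1
          rw [hWdef]
          simp only
          rw [if_pos ⟨hI, h2⟩]
          exact h1
        · rw [if_neg h2] at h1
          rw [hWdef]
          simp only
          rw [if_neg (fun h => h2 h.2), mul_zero]
          exact h1
      · rw [kd_supp _ p P hP I hI, hWdef]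
        simp only
        rw [if_neg (fun h => hI h.1), mul_zero, sub_zero]
        exact Ideal.zero_mem _
    have hkdW : ∀ I, kd (fun i => (C (X i) : PT (m + 1))) W I ∈ idL b R := by
      intro I
      have h1 : kd (fun i => (C (X i) : PT (m + 1)))
          (kd (fun i => (C (X i) : PT (m + 1))) P - fun I => Lf b j * W I) I ∈ idL b R :=
        kd_mem _ _ _ (fun I => hW I) I
      rw [kd_sub, kd_kd, kd_smul] at h1
      have h2 : Lf b j * kd (fun i => (C (X i) : PT (m + 1))) W I ∈ idL b R := by
        have := (idL b R).neg_mem h1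
        simpa using this
      rcases (hprime R).mem_or_mem h2 with h3 | h3
      · exact absurd h3 (Lf_notMem D b hb R j hj)
      · exact h3
    have hW' : ∃ W' : Finset (Fin (m + 1)) → PT (m + 1), (∀ I, I.card + 1 ≠ p + 1 → W' I = 0) ∧
        ∀ I, W I - kd (fun i => (C (X i) : PT (m + 1))) W' I ∈ idL b R := by
      by_cases h2 : c j ≤ w + 1 ∧ 1 ≤ e
      · apply ih (p + 1) (by omega) (w + 1 - c j) (e - 1) W
        · intro I hI
          rw [hWdef]
          simp only
          rw [if_neg (fun h => hI h.1)]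
        · intro I
          rw [hWdef]
          simp only
          split_ifs
          · exact GChase.BH_bc _ _ _
          · exact ⟨isHomogeneous_zero _ _ _, fun μ => by
              rw [coeff_zero]; exact isHomogeneous_zero _ _ _⟩
        · exact hkdW
        · rintro ⟨h3, h4⟩
          apply hcrit
          rw [hcard, Finset.sum_insert hj]
          omega
      · refine ⟨0, fun _ _ => rfl, fun I => ?_⟩
        have h3 : W I = 0 := by
          rw [hWdef]
          simp only
          rw [if_neg (fun h => h2 h.2)]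
        have h4 : kd (fun i => (C (X i) : PT (m + 1))) 0 I = 0 := by
          simp [kd]
        rw [h3, h4, sub_zero]
        exact Ideal.zero_mem _
    obtain ⟨W', hW'1, hW'2⟩ := hW'
    have hP2 : ∀ I, kd (fun i => (C (X i) : PT (m + 1))) (P - fun I => Lf b j * W' I) I ∈
        idL b R := by
      intro I
      rw [kd_sub, kd_smul]
      have h1 := (idL b R).add_mem (hW I) ((idL b R).mul_mem_left (Lf b j) (hW'2 I))
      have h2 : kd (fun i => (C (X i) : PT (m + 1))) P I - Lf b j * W I +
          Lf b j * (W I - kd (fun i => (C (X i) : PT (m + 1))) W' I) =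
          (kd (fun i => (C (X i) : PT (m + 1))) P -
            fun I => Lf b j * kd (fun i => (C (X i) : PT (m + 1))) W' I) I := by
        simp only [Pi.sub_apply]
        ring
      rw [h2] at h1
      exact h1
    have hlin : (fun i : Fin (m + 1) => (C (lin (Pi.single i 1 : Vec (m + 1))) : PT (m + 1))) =
        fun i => C (X i) := by
      funext i
      rw [GChase.lin_single]
    have h5 := chase₀ b (fun i : Fin (m + 1) => (Pi.single i 1 : Vec (m + 1)))
      (GChase.single_indep (m + 1)) R (fun R' _ => hprime R')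
      (fun R' _ i _ hi => Lf_notMem D b hb R' i hi) p (by omega)
      (P - fun I => Lf b j * W' I)
      (by
        intro I hI
        simp only [Pi.sub_apply]
        rw [hP I hI, hW'1 I (by omega), mul_zero, sub_zero])
      (by rw [hlin]; exact hP2)
    rw [hlin] at h5
    obtain ⟨P', h6, h7⟩ := h5
    refine ⟨P', h6, fun I => ?_⟩
    have h8 := (idL b (insert j R)).add_mem
      (GChase.idL_mono b (Finset.subset_insert j R) (h7 I))
      ((idL b (insert j R)).mul_mem_right (W' I)
        (Ideal.subset_span ⟨j, Finset.mem_coe.mpr (Finset.mem_insert_self j R), rfl⟩ :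
          Lf b j ∈ idL b (insert j R)))
    have h9 : (P - fun I => Lf b j * W' I) I - kd (fun i => (C (X i) : PT (m + 1))) P' I +
        Lf b j * W' I = P I - kd (fun i => (C (X i) : PT (m + 1))) P' I := by
      simp only [Pi.sub_apply]
      ring
    rw [h9] at h8
    exact h8

end RFL
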