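import Pool.Agent.RFL.FrameEx
import Pool.Agent.RFL.Count

/-!
# RFL-D4, D5 : the forms `g k`

* `exists_g`: `Q E = ∑ g_k θ_k` by `Frame.genQ` (`E ∈ Der`, `euler_mem_Der`); taking homogeneous
  components of degree `N + 1 - h = d` of the `g_k` one may assume `g_k` homogeneous of degree `d`.
* `g_ne`: for every `i` some `g_k` is not divisible by `al i`. Otherwise `g = t g'`, `t = al i`, and
  `η = (Q/t) E = ∑ g'_k θ_k ∈ M` (`θ_k ∈ M` by horizontality, `M_smul, M_add`). But
  `∇_a η = ∂_a (Q/t) E + (Q/t) (1 - h) a` (`nab_E`) has `i`-component `≡ (Q/t)(1-h) ≢ 0 mod t` as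
  `h ≥ 2`: not in `Der`.
* `exists_GData`: `g(x) ∈ ell θ i` for `x ∈ H_i` (`res_rel`: `al i ∣ Q X_l`), so `ell θ i ≠ 0`,
  choose `w_i ≠ 0` in it; `ell θ i = ℂ w_i` (`ell_le_one`). Choose `λ` with `∑ λ_k (w_i)_k = 1`, put
  `γ = ∑ λ_k g_k`: then `g_k ≡ γ (w_i)_k mod al i` (evaluate on `H_i`). For `j ≠ i`, on
  `H_i ∩ H_j` the value `g(x)` is in `ell θ i ⊓ ell θ j = 0` (`ell_inf`), so `γ` vanishes on it, i.e.
  `γ ≡ w * al j mod al i` (`mem_span_pair_iff`). Apply `glue_eq` with `S = lines i`,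
  `b L = a (rp i L)`, `e = 1`, degree `d = |lines i|`: `γ ≡ c ∏ al (rp i L) = c QH i`, `c ≠ 0` by
  `g_ne`. `v i = c • w_i`.
  `rel`: for `f` as in `rel`, `f(x) ∈ ell θ i = ℂ w_i` on `H_i`; `κ = c⁻¹ ∑ λ_k f_k`.
  `vind`: `ell_inf`.
-/

open MvPolynomial Matrix Finset

noncomputable section

namespace RFL

namespace GExA

/-- the components of a product with a homogeneous polynomial -/
theorem hc_mul {σ : Type*} {R : Type*} [CommRing R] (p q : MvPolynomial σ R) (k E : ℕ)
    (hq : q.IsHomogeneous k) :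
    homogeneousComponent (E + k) (p * q) = homogeneousComponent E p * q := by
  conv_lhs => rw [← sum_homogeneousComponent p]
  rw [Finset.sum_mul, map_sum]
  have h1 : ∀ i, homogeneousComponent (E + k) (homogeneousComponent i p * q) =
      if E + k = i + k then homogeneousComponent i p * q else 0 := by
    intro i
    exact homogeneousComponent_of_mem ((homogeneousComponent_isHomogeneous i p).mul hq)
  simp only [h1]
  by_cases hE : E ∈ range (p.totalDegree + 1)
  · rw [Finset.sum_eq_single_of_mem E hE]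
    · rw [if_pos rfl]
    · intro i _ hi
      rw [if_neg (by omega)]
  · rw [Finset.sum_eq_zero]
    · have h2 : p.totalDegree < E := by
        simp only [Finset.mem_range] at hE
        omega
      rw [homogeneousComponent_eq_zero _ _ h2, zero_mul]
    · intro i hi
      rw [if_neg]
      intro h
      have : i = E := by omega
      subst this
      exact hE hi

end GExA

namespace RD

variable {n : ℕ} (D : RD n)

theorem exists_g {h d : ℕ} {θ : Fin n → VF n} (hF : Frame D h θ) (hd : d + h = D.N + 1) :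
    ∃ g : Fin n → Pol n, (∀ k, (g k).IsHomogeneous d) ∧
      ∀ l, D.Q * X l = ∑ k, g k * θ k l := by
  obtain ⟨u, hu⟩ := hF.genQ _ D.euler_mem_Der
  refine ⟨fun k => homogeneousComponent d (u k),
    fun k => homogeneousComponent_isHomogeneous _ _, fun l => ?_⟩
  have h1 : (D.Q * X l : Pol n).IsHomogeneous (d + h) := by
    rw [hd]
    exact D.Q_hom.mul (isHomogeneous_X ℂ l)
  rw [← homogeneousComponent_eq_self h1, hu l, map_sum]
  apply Finset.sum_congr rfl
  intro k _
  exact GExA.hc_mul _ _ _ _ (hF.hom k l)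

theorem g_ne {h d : ℕ} (hT : ∀ v : Vec n, ∑ k, ip (D.a k) v • D.a k = ((h : ℂ) / 2) • v)
    (h2 : 2 ≤ h)
    {θ : Fin n → VF n} (hF : Frame D h θ) (hd : d + h = D.N + 1) (g : Fin n → Pol n)
    (hg : ∀ k, (g k).IsHomogeneous d) (hE : ∀ l, D.Q * X l = ∑ k, g k * θ k l) (i : D.ι) :
    ∃ k, ¬ D.al i ∣ g k := by
  by_contra hcon
  push Not at hcon
  choose g' hg' using hcon
  set q : Pol n := ∏ j ∈ univ.erase i, D.al j with hq
  have hQ : D.Q = D.al i * q := by
    rw [hq, Finset.mul_prod_erase _ _ (Finset.mem_univ i)]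
    rfl
  have hEq : ∀ l, q * X l = ∑ k, g' k * θ k l := by
    intro l
    apply mul_left_cancel₀ (D.al_ne i)
    rw [← mul_assoc, ← hQ, hE, Finset.mul_sum]
    apply Finset.sum_congr rfl
    intro k _
    rw [hg' k, mul_assoc]
  -- `θ k ∈ M`
  have hM0 : (0 : VF n) ∈ D.M := by
    refine ⟨D.Der.zero_mem, fun v => ?_⟩
    rw [nab_zero]
    exact D.Der.zero_mem
  have hMθ : ∀ k, θ k ∈ D.M := by
    intro k
    refine ⟨hF.der k, fun v => ?_⟩
    rw [hF.hor]
    exact D.Der.zero_mem
  have hsum : ∀ S : Finset (Fin n), ∑ k ∈ S, g' k • θ k ∈ D.M := by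
    intro S
    classical
    induction S using Finset.induction_on with
    | empty => simpa using hM0
    | insert k S hk IH =>
      rw [Finset.sum_insert hk]
      exact D.M_add (D.M_smul _ (hMθ k)) IH
  have hη : (q • (fun l => X l : VF n)) ∈ D.M := by
    have h1 : (q • (fun l => X l : VF n)) = ∑ k, g' k • θ k := by
      funext l
      rw [Pi.smul_apply, smul_eq_mul, hEq l, Finset.sum_apply]
      rfl
    rw [h1]
    exact hsum univ
  have h3 := hη.2 (D.a i) i
  rw [D.nab_smul _ _ D.euler_mem_Der, D.ap_add, D.ap_smul, D.ap_smul, D.nab_E hT] at h3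
  have h4 : D.ap i (fun l => X l : VF n) = D.al i := rfl
  have h5 : D.ap i (fun l => C ((1 - (h : ℂ)) * D.a i l) : VF n) = C (1 - (h : ℂ)) := by
    have h6 : (1 - (h : ℂ)) = (1 - (h : ℂ)) * ip (D.a i) (D.a i) := by rw [D.unit, mul_one]
    conv_rhs => rw [h6]
    simp only [ap, ip, Finset.mul_sum, map_sum, ← C_mul]
    apply Finset.sum_congr rfl
    intro j _
    congr 1
    ring
  rw [h4, h5] at h3
  have h7 : D.al i ∣ q * C (1 - (h : ℂ)) := by
    rwa [dvd_add_right (Dvd.intro_left _ rfl)] at h3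
  have hne : (1 - (h : ℂ)) ≠ 0 := by
    rw [sub_ne_zero]
    intro h8
    have h9 : (1 : ℕ) = h := by exact_mod_cast h8
    omega
  have h8 : D.al i ∣ q := by
    have h9 : IsUnit (C (1 - (h : ℂ)) : Pol n) := (isUnit_iff_ne_zero.mpr hne).map C
    exact h9.dvd_mul_right.mp h7
  rw [hq, (D.al_prime i).dvd_finsetProd_iff] at h8
  obtain ⟨j, hj, hij⟩ := h8
  exact D.al_not_dvd (Finset.ne_of_mem_erase hj).symm hij

/-- `Q` is in the ideal of the `g k` -/
theorem Q_mem {h d : ℕ} {θ : Fin n → VF n} (hF : Frame D h θ) {g : Fin n → Pol n}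
    {v : D.ι → Fin n → ℂ} (hG : GData D θ d g v) (hne : Nonempty D.ι) :
    D.Q ∈ Ideal.span (Set.range g) := by
  obtain ⟨i⟩ := hne
  choose w hw using fun k => hF.der k i
  have h1 : D.al i * D.Q = D.al i * ∑ k, w k * g k := by
    have h2 : D.al i * D.Q = ∑ l, C (star (D.a i l)) * (D.Q * X l) := by
      rw [al, lin, Finset.sum_mul]
      apply Finset.sum_congr rfl
      intro l _
      ring
    rw [h2]
    simp only [hG.eqE, Finset.mul_sum]
    rw [Finset.sum_comm]
    apply Finset.sum_congr rfl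
    intro k _
    have h3 : D.al i * (w k * g k) = g k * D.ap i (θ k) := by
      rw [hw k]
      ring
    rw [h3, ap, Finset.mul_sum]
    apply Finset.sum_congr rfl
    intro l _
    ring
  rw [mul_left_cancel₀ (D.al_ne i) h1]
  apply Ideal.sum_mem
  intro k _
  exact Ideal.mul_mem_left _ _ (Ideal.subset_span ⟨k, rfl⟩)

/-- `QH i` is not divisible by `al i` -/
theorem QH_not_dvd (i : D.ι) : ¬ D.al i ∣ D.QH i := by
  intro h
  rw [QH, (D.al_prime i).dvd_finsetProd_iff] at h
  obtain ⟨L, hL, h2⟩ := h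
  exact D.al_not_dvd (D.rp_ne hL) h2

end RD

end RFL
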