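import Pool.Agent.RFL.Lin1

/-!
# RFL-D3b : the two variable contradiction

`b 0, b 1` orthonormal, `A k = ip (a k) (z_0 b_0 + z_1 b_1) ∈ ℂ[z_0, z_1]`, `φ ≠ 0` a vector of forms of
degree `m ≥ 1`, `r k = (ap k φ) / A k`, and
`∂_l φ = 2 ∑_k ip (a k) b_l * r k * a_k`     (*).
Multiply by `z_l` and sum (Euler): `m φ = 2 ∑_k (ap k φ) a_k`. As `∑_k ip (a k) v a_k = (μ/2) pr v`
(`hT`, `hT'`: apply to the values of `φ`), `m φ = μ pr φ`, so `φ` has values in `W` and `m = μ`.
Write `φ = φ_0 b_0 + φ_1 b_1`, `det = z_0 φ_1 - z_1 φ_0`, homogeneous of degree `μ + 1`. At a zero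
`z` of `A k` both `z` and `φ(z)` are orthogonal to `a_k` in the plane, so `det(z) = 0`; so `A k ∣ det`.
By `hi, hj`: `A i ^ 2`, `A j ^ 2` divide `det`. The `A k` are pairwise non-proportional, so the
product of all `A k` times `A i * A j` (degree `μ + 2`) divides `det`, so `det = 0`.
Hence `φ = ψ z`, and (*) becomes `∂_l ψ z + ψ b_l = μ ψ b_l` (as `r k = ψ`). The
`b_1`-component for `l = 0`: `∂_0 ψ z_1 = 0`, so `∂_0 ψ = 0`, the `b_0`-component: `(1 - μ) ψ = 0`,
`ψ = 0` as `μ ≥ 2`: contradiction.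
-/

open MvPolynomial Matrix Finset

noncomputable section

namespace RFL

theorem ResK2_beta {n : ℕ} {L : Type} [Fintype L] [DecidableEq L] (a : L → Vec n)
    (b : Fin 2 → Vec n)
    (hab : ∀ k, a k = ip (b 0) (a k) • b 0 + ip (b 1) (a k) • b 1) (φ : Fin n → Pol 2) (k : L) :
    ∑ l, C (star (a k l)) * φ l =
      ∑ l : Fin 2, C (ip (a k) (b l)) * ∑ q, C (star (b l q)) * φ q := by
  rw [Fin.sum_univ_two, Finset.mul_sum, Finset.mul_sum, ← Finset.sum_add_distrib]
  refine Finset.sum_congr rfl fun q _ => ?_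
  have h1 : a k q = ip (b 0) (a k) * b 0 q + ip (b 1) (a k) * b 1 q := by
    have := congrFun (hab k) q
    simpa using this
  have h2 : star (a k q) = ip (a k) (b 0) * star (b 0 q) + ip (a k) (b 1) * star (b 1 q) := by
    rw [h1, star_add, star_mul', star_mul', ip_star, ip_star]
  rw [h2, C_add, C_mul, C_mul]
  ring

theorem ResK2_prod_dvd {L : Type} [Fintype L] [DecidableEq L] (c : L → Vec 2)
    (hc : ∀ k, c k ≠ 0) (hne : ∀ k k', k ≠ k' → c k' ∉ Submodule.span ℂ {c k})
    (i j : L) (hij : i ≠ j) (D : Pol 2) (h : ∀ k, lin (c k) ∣ D)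
    (hi : (lin (c i)) ^ 2 ∣ D) (hj : (lin (c j)) ^ 2 ∣ D)
    (hD : D.IsHomogeneous (Fintype.card L + 1)) : D = 0 := by
  by_contra hD0
  have hrel : ∀ k k', k ≠ k' → IsRelPrime (lin (c k)) (lin (c k')) := by
    intro k k' hkk
    rw [(lin_prime (hc k)).irreducible.isRelPrime_iff_not_dvd, lin_dvd_lin (hc k)]
    exact hne k k' hkk
  let e : L → ℕ := fun k => if k = i ∨ k = j then 2 else 1
  have hdvd : ∏ k, (lin (c k)) ^ (e k) ∣ D := by
    refine Fintype.prod_dvd_of_isRelPrime ?_ ?_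
    · intro k k' hkk
      exact (hrel k k' hkk).pow
    · intro k
      by_cases hk : k = i ∨ k = j
      · have : e k = 2 := if_pos hk
        rw [this]
        rcases hk with rfl | rfl
        · exact hi
        · exact hj
      · have : e k = 1 := if_neg hk
        rw [this, pow_one]
        exact h k
  obtain ⟨H, hH⟩ := hdvd
  have hP : (∏ k, (lin (c k)) ^ (e k)).IsHomogeneous (∑ k, e k) := by
    refine IsHomogeneous.prod _ _ _ fun k _ => ?_
    have := (lin_hom (c k)).pow (e k)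
    simpa using this
  have hsum : ∑ k, e k = Fintype.card L + 2 := by
    have h1 : ∀ k, e k = 1 + ((if k = i then 1 else 0) + (if k = j then 1 else 0)) := by
      intro k
      simp only [e]
      by_cases h1 : k = i
      · subst h1
        simp [hij]
      · by_cases h2 : k = j
        · have h3 : ¬ (j = i) := fun h => hij h.symm
          simp [h2, h3]
        · simp [h1, h2]
    rw [Finset.sum_congr rfl fun k _ => h1 k, Finset.sum_add_distrib, Finset.sum_add_distrib]
    simp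
  have hP0 : (∏ k, (lin (c k)) ^ (e k)) ≠ 0 := by
    intro h0
    rw [h0, zero_mul] at hH
    exact hD0 hH
  have hH0 : H ≠ 0 := by
    intro h0
    rw [h0, mul_zero] at hH
    exact hD0 hH
  have h1 := hD.totalDegree hD0
  have h2 := hP.totalDegree hP0
  have h3 := totalDegree_mul_of_isDomain hP0 hH0
  rw [← hH, h1, h2, hsum] at h3
  omega

theorem local_contra {n : ℕ} {L : Type} [Fintype L] [DecidableEq L] (a : L → Vec n)
    (hu : ∀ k, ip (a k) (a k) = 1) (b : Fin 2 → Vec n)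
    (hb : ∀ l l', ip (b l) (b l') = if l = l' then 1 else 0)
    (hab : ∀ k, a k = ip (b 0) (a k) • b 0 + ip (b 1) (a k) • b 1)
    (hind : ∀ k k', k ≠ k' → LinearIndependent ℂ ![a k, a k'])
    (hT : ∀ l, ∑ k, ip (a k) (b l) • a k = ((Fintype.card L : ℂ) / 2) • b l)
    (i j : L) (hij : i ≠ j) (m : ℕ) (hm : 1 ≤ m) (φ : Fin n → Pol 2)
    (hφ : ∀ l, (φ l).IsHomogeneous m) (hφ0 : ∃ l, φ l ≠ 0) (r : L → Pol 2)
    (hr : ∀ k, (∑ l, C (ip (a k) (b l)) * X l) * r k = ∑ l, C (star (a k l)) * φ l)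
    (hstar : ∀ (l : Fin 2) (p : Fin n), pderiv l (φ p) =
      2 * ∑ k, C (ip (a k) (b l) * a k p) * r k)
    (hi : ∀ l, (∑ l, C (ip (a i) (b l)) * X l) ^ 2 ∣ φ l)
    (hj : ∀ l, (∑ l, C (ip (a j) (b l)) * X l) ^ 2 ∣ φ l) : False := by
  have hm0 : (m : ℂ) ≠ 0 := by
    have : m ≠ 0 := by omega
    exact_mod_cast this
  -- the components of `φ` in the plane
  obtain ⟨β, hβ⟩ : ∃ β : Fin 2 → Pol 2, ∀ l, β l = ∑ q, C (star (b l q)) * φ q :=
    ⟨fun l => ∑ q, C (star (b l q)) * φ q, fun _ => rfl⟩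
  have hG : ∀ k, ∑ l, C (star (a k l)) * φ l =
      C (ip (a k) (b 0)) * β 0 + C (ip (a k) (b 1)) * β 1 := by
    intro k
    rw [ResK2_beta a b hab φ k, Fin.sum_univ_two, hβ, hβ]
  have hTq : ∀ l q, ∑ k, ip (a k) (b l) * a k q = ((Fintype.card L : ℂ) / 2) * b l q := by
    intro l q
    have := congrFun (hT l) q
    simpa [Finset.sum_apply] using this
  -- Euler
  have e1 : ∀ q, C (m : ℂ) * φ q = 2 * ∑ k, C (a k q) * ∑ l, C (star (a k l)) * φ l := by
    intro q
    have h0 := euler (φ q) m (hφ q)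
    have h1 : (C (m : ℂ) : Pol 2) = (m : Pol 2) := map_natCast C m
    rw [h1, ← h0, Fin.sum_univ_two, hstar 0 q, hstar 1 q]
    simp only [← hr, Fin.sum_univ_two, Finset.mul_sum]
    rw [← Finset.sum_add_distrib]
    refine Finset.sum_congr rfl fun k _ => ?_
    rw [C_mul, C_mul]
    ring
  have e2 : ∀ q, C (m : ℂ) * φ q =
      C (Fintype.card L : ℂ) * (C (b 0 q) * β 0 + C (b 1 q) * β 1) := by
    intro q
    rw [e1 q]
    have h1 : ∀ k, C (a k q) * ∑ l, C (star (a k l)) * φ l =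
        C (ip (a k) (b 0) * a k q) * β 0 + C (ip (a k) (b 1) * a k q) * β 1 := by
      intro k
      rw [hG k, C_mul, C_mul]
      ring
    rw [Finset.sum_congr rfl fun k _ => h1 k, Finset.sum_add_distrib, ← Finset.sum_mul,
      ← Finset.sum_mul, ← map_sum, ← map_sum, hTq, hTq]
    have h2 : (2 : Pol 2) = C (2 : ℂ) := (map_ofNat C 2).symm
    have h3 : ∀ x : ℂ, (2 : Pol 2) * C ((Fintype.card L : ℂ) / 2 * x) =
        C (Fintype.card L : ℂ) * C x := by
      intro x
      rw [h2, ← C_mul, ← C_mul]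
      congr 1
      ring
    rw [mul_add, ← mul_assoc, ← mul_assoc, h3, h3]
    ring
  have hbb : ∀ l l', ∑ q, star (b l q) * b l' q = if l = l' then 1 else 0 := hb
  have e3 : ∀ l, C (m : ℂ) * β l = C (Fintype.card L : ℂ) * β l := by
    intro l
    have h1 : C (m : ℂ) * β l = ∑ q, C (star (b l q)) * (C (m : ℂ) * φ q) := by
      rw [hβ l, Finset.mul_sum]
      refine Finset.sum_congr rfl fun q _ => by ring
    rw [h1]
    have h2 : ∀ q, C (star (b l q)) * (C (m : ℂ) * φ q) =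
        C (Fintype.card L : ℂ) * (C (star (b l q) * b 0 q) * β 0 +
          C (star (b l q) * b 1 q) * β 1) := by
      intro q
      rw [e2 q, C_mul, C_mul]
      ring
    rw [Finset.sum_congr rfl fun q _ => h2 q, ← Finset.mul_sum, Finset.sum_add_distrib,
      ← Finset.sum_mul, ← Finset.sum_mul, ← map_sum, ← map_sum, hbb, hbb]
    fin_cases l <;> simp
  have hβ0 : ∃ l, β l ≠ 0 := by
    by_contra h
    push Not at h
    obtain ⟨q, hq⟩ := hφ0
    have := e2 q
    rw [h 0, h 1, mul_zero, mul_zero, add_zero, mul_zero] at this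
    rcases mul_eq_zero.1 this with h1 | h1
    · exact hm0 ((C_eq_zero).1 h1)
    · exact hq h1
  have hmu : m = Fintype.card L := by
    obtain ⟨l, hl⟩ := hβ0
    have h1 := mul_right_cancel₀ hl (e3 l)
    have h2 := C_injective _ _ h1
    exact_mod_cast h2
  have e4 : ∀ q, φ q = C (b 0 q) * β 0 + C (b 1 q) * β 1 := by
    intro q
    have h1 := e2 q
    rw [← hmu] at h1
    exact mul_left_cancel₀ (fun h => hm0 ((C_eq_zero).1 h)) h1
  have hβhom : ∀ l, (β l).IsHomogeneous m := by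
    intro l
    rw [hβ l]
    refine IsHomogeneous.sum _ _ _ fun q _ => ?_
    have := (isHomogeneous_C (Fin 2) (star (b l q))).mul (hφ q)
    simpa using this
  -- the linear forms
  obtain ⟨c, hc⟩ : ∃ c : L → Vec 2, ∀ k l, c k l = ip (b l) (a k) :=
    ⟨fun k l => ip (b l) (a k), fun _ _ => rfl⟩
  have hlin : ∀ k, (∑ l, C (ip (a k) (b l)) * X l : Pol 2) = lin (c k) := by
    intro k
    unfold lin
    refine Finset.sum_congr rfl fun l _ => ?_
    rw [hc, ip_star]
  have hcab : ∀ k, a k = c k 0 • b 0 + c k 1 • b 1 := by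
    intro k
    rw [hc, hc]
    exact hab k
  have hc0 : ∀ k, c k ≠ 0 := by
    intro k h
    have h1 := hcab k
    rw [h] at h1
    simp only [Pi.zero_apply, zero_smul, add_zero] at h1
    have h2 := hu k
    rw [h1, ip_zero_left] at h2
    exact zero_ne_one h2
  have hcne : ∀ k k', k ≠ k' → c k' ∉ Submodule.span ℂ {c k} := by
    intro k k' hkk hmem
    obtain ⟨t, ht⟩ := Submodule.mem_span_singleton.1 hmem
    have h1 : a k' = t • a k := by
      rw [hcab k', hcab k, ← ht]
      simp [smul_smul]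
    have h2 := (LinearIndependent.pair_iff.1 (hind k k' hkk)) t (-1) (by rw [h1]; simp)
    simp at h2
  have hp : ∀ k, star (c k 0) = ip (a k) (b 0) := fun k => by rw [hc, ip_star]
  have hq : ∀ k, star (c k 1) = ip (a k) (b 1) := fun k => by rw [hc, ip_star]
  obtain ⟨D, hD⟩ : ∃ D : Pol 2, D = X 0 * β 1 - X 1 * β 0 := ⟨_, rfl⟩
  have hDdvd : ∀ k, lin (c k) ∣ D := by
    intro k
    have hA : lin (c k) = C (ip (a k) (b 0)) * X 0 + C (ip (a k) (b 1)) * X 1 := by
      rw [← hlin k, Fin.sum_univ_two]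
    have hg : lin (c k) * r k = C (ip (a k) (b 0)) * β 0 + C (ip (a k) (b 1)) * β 1 := by
      rw [← hlin k, hr k, hG k]
    have h1 : C (ip (a k) (b 0)) * D = lin (c k) * (β 1 - X 1 * r k) := by
      have : lin (c k) * (β 1 - X 1 * r k) = lin (c k) * β 1 - X 1 * (lin (c k) * r k) := by ring
      rw [this, hg, hA, hD]
      ring
    have h2 : C (ip (a k) (b 1)) * D = lin (c k) * (X 0 * r k - β 0) := by
      have : lin (c k) * (X 0 * r k - β 0) = X 0 * (lin (c k) * r k) - lin (c k) * β 0 := by ring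
      rw [this, hg, hA, hD]
      ring
    have hne : ip (a k) (b 0) ≠ 0 ∨ ip (a k) (b 1) ≠ 0 := by
      by_contra h
      push Not at h
      apply hc0 k
      funext l
      have h3 : star (c k l) = 0 := by
        fin_cases l
        · exact (hp k).trans h.1
        · exact (hq k).trans h.2
      simpa using h3
    rcases hne with h | h
    · have h3 : lin (c k) ∣ C (ip (a k) (b 0)) * D := ⟨_, h1⟩
      have h4 : D = C ((ip (a k) (b 0))⁻¹) * (C (ip (a k) (b 0)) * D) := by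
        rw [← mul_assoc, ← C_mul, inv_mul_cancel₀ h, C_1, one_mul]
      rw [h4]
      exact Dvd.dvd.mul_left h3 _
    · have h3 : lin (c k) ∣ C (ip (a k) (b 1)) * D := ⟨_, h2⟩
      have h4 : D = C ((ip (a k) (b 1))⁻¹) * (C (ip (a k) (b 1)) * D) := by
        rw [← mul_assoc, ← C_mul, inv_mul_cancel₀ h, C_1, one_mul]
      rw [h4]
      exact Dvd.dvd.mul_left h3 _
  have hsq : ∀ k, (∀ l, (∑ l, C (ip (a k) (b l)) * X l) ^ 2 ∣ φ l) → (lin (c k)) ^ 2 ∣ D := by
    intro k hk
    have h1 : ∀ l, (lin (c k)) ^ 2 ∣ β l := by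
      intro l
      rw [hβ l]
      refine Finset.dvd_sum fun q _ => ?_
      rw [← hlin k]
      exact Dvd.dvd.mul_left (hk q) _
    rw [hD]
    exact dvd_sub (Dvd.dvd.mul_left (h1 1) _) (Dvd.dvd.mul_left (h1 0) _)
  have hDhom : D.IsHomogeneous (Fintype.card L + 1) := by
    rw [hD, ← hmu, add_comm m 1]
    exact ((isHomogeneous_X ℂ (0 : Fin 2)).mul (hβhom 1)).sub
      ((isHomogeneous_X ℂ (1 : Fin 2)).mul (hβhom 0))
  have hD0 : D = 0 := ResK2_prod_dvd c hc0 hcne i j hij D hDdvd (hsq i hi) (hsq j hj) hDhom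
  rw [hD0] at hD
  have hX : X 0 * β 1 = X 1 * β 0 := (sub_eq_zero.1 hD.symm)
  have hX0 : (X 0 : Pol 2) ≠ 0 := X_ne_zero 0
  have hdv : (X 0 : Pol 2) ∣ β 0 := by
    have h1 : (X 0 : Pol 2) ∣ X 1 * β 0 := ⟨β 1, hX.symm⟩
    rcases (X_prime : Prime (X 0 : Pol 2)).dvd_or_dvd h1 with h2 | h2
    · exfalso
      rw [X_dvd_X] at h2
      simp at h2
    · exact h2
  obtain ⟨ψ, hψ⟩ := hdv
  have hψ1 : β 1 = X 1 * ψ := by
    rw [hψ] at hX
    have : X 0 * β 1 = X 0 * (X 1 * ψ) := by rw [hX]; ring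
    exact mul_left_cancel₀ hX0 this
  have hrψ : ∀ k, r k = ψ := by
    intro k
    have hA : lin (c k) = C (ip (a k) (b 0)) * X 0 + C (ip (a k) (b 1)) * X 1 := by
      rw [← hlin k, Fin.sum_univ_two]
    have hg : lin (c k) * r k = C (ip (a k) (b 0)) * β 0 + C (ip (a k) (b 1)) * β 1 := by
      rw [← hlin k, hr k, hG k]
    have hl0 : lin (c k) ≠ 0 := (lin_prime (hc0 k)).ne_zero
    apply mul_left_cancel₀ hl0
    rw [hg, hψ, hψ1, hA]
    ring
  have h5 : ∀ l l', pderiv l (β l') = C (m : ℂ) * (C (if l' = l then (1 : ℂ) else 0) * ψ) := by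
    intro l l'
    have h6 : pderiv l (β l') = ∑ q, C (star (b l' q)) * pderiv l (φ q) := by
      rw [hβ l', map_sum]
      refine Finset.sum_congr rfl fun q _ => ?_
      rw [pderiv_C_mul]
    rw [h6]
    have h7 : ∀ q, pderiv l (φ q) = C (m : ℂ) * (C (b l q) * ψ) := by
      intro q
      rw [hstar l q]
      have h8 : ∑ k, C (ip (a k) (b l) * a k q) * r k =
          C (∑ k, ip (a k) (b l) * a k q) * ψ := by
        rw [map_sum, Finset.sum_mul]
        refine Finset.sum_congr rfl fun k _ => by rw [hrψ k]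
      rw [h8, hTq, hmu]
      have h2 : (2 : Pol 2) = C (2 : ℂ) := (map_ofNat C 2).symm
      rw [h2, ← mul_assoc, ← mul_assoc, ← C_mul, ← C_mul]
      congr 2
      ring
    have h9 : ∀ q, C (star (b l' q)) * pderiv l (φ q) =
        C (m : ℂ) * (C (star (b l' q) * b l q) * ψ) := by
      intro q
      rw [h7 q, C_mul]
      ring
    rw [Finset.sum_congr rfl fun q _ => h9 q, ← Finset.mul_sum, ← Finset.sum_mul, ← map_sum, hbb]
  have h10 := h5 0 1
  have h11 := h5 0 0
  rw [hψ1, pderiv_mul, pderiv_X_of_ne (by decide)] at h10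
  rw [hψ, pderiv_mul, pderiv_X_self] at h11
  simp only [zero_mul, zero_add, one_ne_zero, if_false, C_0, mul_zero] at h10
  have h12 : pderiv 0 ψ = 0 := by
    rcases mul_eq_zero.1 h10 with h | h
    · exact absurd h (X_ne_zero 1)
    · exact h
  rw [h12] at h11
  simp only [one_mul, mul_zero, add_zero, if_true, C_1] at h11
  have hψ0 : ψ ≠ 0 := by
    intro h
    obtain ⟨l, hl⟩ := hβ0
    fin_cases l
    · exact hl (by change β 0 = 0; rw [hψ, h, mul_zero])
    · exact hl (by change β 1 = 0; rw [hψ1, h, mul_zero])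
  have h13 : (1 : Pol 2) * ψ = C (m : ℂ) * ψ := by rw [one_mul]; exact h11
  have h14 := mul_right_cancel₀ hψ0 h13
  have h15 : (1 : ℂ) = (m : ℂ) := by
    have : C (1 : ℂ) = (C (m : ℂ) : Pol 2) := by rw [C_1]; exact h14
    exact C_injective _ _ this
  have h16 : m = 1 := by exact_mod_cast h15.symm
  have h17 : 1 < Fintype.card L := Fintype.one_lt_card_iff.2 ⟨i, j, hij⟩
  omega

end RFL
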