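import Pool.Agent.RFL.Res2
import Pool.Agent.RFL.ResK2
import Pool.Agent.RFL.Count

/-!
# RFL-D3 : no horizontal field vanishes on two hyperplanes

Suppose `0 ≠ c ∈ ell θ i ⊓ ell θ j`, `i ≠ j`, `ϑ = ∑ c_k θ_k ≠ 0`. Let `L = line i j`, `μ = |L|`,
`b_0, b_1` an orthonormal basis of `W = span {a i, a j}`.
Choose `x₀` with `ϑ(x₀) ≠ 0` and `ip (a k) (pr_{W^⊥} x₀) ≠ 0` for all `k ∉ L` (a product of nonzero
polynomials is nonzero; `a k ∉ W` for `k ∉ L`). `y = pr_{W^⊥} x₀`,
`Θ(z) := ϑ(y + z_0 b_0 + z_1 b_1) ∈ ℂ[z_0,z_1]^n` is not zero. Let `φ` be its lowest homogeneous part,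
of degree `m` (`m ≥ 1` since `ϑ` vanishes at `y ∈ H_i`).
With `q_k := quo (al k) (ap k ϑ)(y + z)`:
* `k ∈ L`: `A_k(z) * q_k = ap k Θ`, `A_k(z) = ip (a k) z`: the part of degree `m-1` of `q_k` is
  `r_k = ap k φ / A_k`, lower parts vanish;
* `k ∉ L`: `(ip (a k) y + A_k(z)) q_k = ap k Θ`: the parts of `q_k` of degree `< m` vanish.
Horizontality in the direction `b_l`, part of degree `m - 1`: hypothesis `hstar` of `local_contra`.
`ϑ = al i ^ 2 * η` (`order_two`) gives `Θ = A_i^2 * (...)`, so `A_i^2 ∣ φ` (lowest part; `Pol 2` is a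
domain). Same for `j`. `hT` is `TX`. Apply `local_contra` with index type `{k // k ∈ L}`.
(`sbtA y B f := aeval (fun j => C (y j) + ∑ l, C (B j l) * X l) f` is the affine substitution.)
-/

open MvPolynomial Matrix Finset

noncomputable section

namespace RFL

namespace ResKaux

variable {n : ℕ}

/-- affine substitution -/
def sbtA (y : Vec n) (b : Fin 2 → Vec n) : Pol n →ₐ[ℂ] Pol 2 :=
  aeval (fun j => C (y j) + ∑ l, C (b l j) * X l)

theorem sbtA_C (y : Vec n) (b : Fin 2 → Vec n) (c : ℂ) : sbtA y b (C c) = C c := by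
  unfold sbtA
  rw [aeval_C]
  rfl

theorem sbtA_X (y : Vec n) (b : Fin 2 → Vec n) (j : Fin n) :
    sbtA y b (X j) = C (y j) + ∑ l, C (b l j) * X l := by
  unfold sbtA
  rw [aeval_X]

theorem eval_sbtA (y : Vec n) (b : Fin 2 → Vec n) (f : Pol n) (z : Vec 2) :
    eval z (sbtA y b f) = eval (fun j => y j + ∑ l, b l j * z l) f := by
  induction f using MvPolynomial.induction_on with
  | C a => rw [sbtA_C, eval_C, eval_C]
  | add p q hp hq => rw [map_add, map_add, map_add, hp, hq]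
  | mul_X p i hp =>
    rw [map_mul, map_mul, map_mul, hp, sbtA_X, eval_X]
    simp

theorem dv_X' (v : Vec n) (k : Fin n) : dv v (X k : Pol n) = C (v k) := by
  unfold dv
  rw [Finset.sum_eq_single k]
  · rw [pderiv_X_self, mul_one]
  · intro b _ hb
    rw [pderiv_X_of_ne (Ne.symm hb), mul_zero]
  · intro h
    exact absurd (Finset.mem_univ k) h

theorem pderiv_sbtA (y : Vec n) (b : Fin 2 → Vec n) (l : Fin 2) (f : Pol n) :
    pderiv l (sbtA y b f) = sbtA y b (dv (b l) f) := by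
  induction f using MvPolynomial.induction_on with
  | C a =>
    have h0 : sbtA y b 0 = 0 := map_zero _
    rw [sbtA_C, pderiv_C, dv_C, h0]
  | add p q hp hq => rw [map_add, map_add, dv_add, map_add, hp, hq]
  | mul_X p k hp =>
    have h1 : pderiv l (C (y k) + ∑ l', C (b l' k) * X l' : Pol 2) = C (b l k) := by
      rw [map_add, pderiv_C, zero_add, map_sum, Finset.sum_eq_single l]
      · rw [pderiv_mul, pderiv_C, zero_mul, zero_add, pderiv_X_self, mul_one]
      · intro l' _ hl'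
        rw [pderiv_mul, pderiv_C, zero_mul, zero_add, pderiv_X_of_ne hl', mul_zero]
      · intro h
        exact absurd (Finset.mem_univ l) h
    rw [map_mul, pderiv_mul, hp, dv_mul, map_add, map_mul, map_mul, dv_X', sbtA_C, sbtA_X, h1]

theorem sbtA_lin (y : Vec n) (b : Fin 2 → Vec n) (a : Vec n) :
    sbtA y b (lin a) = C (ip a y) + lin (fun l => ip (b l) a) := by
  apply MvPolynomial.funext
  intro z
  rw [eval_sbtA, eval_lin, map_add, eval_C, eval_lin]
  have h1 : (fun j => y j + ∑ l, b l j * z l) = y + ∑ l, z l • b l := by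
    funext j
    simp [mul_comm]
  rw [h1, ip_add_right]
  congr 1
  rw [Fin.sum_univ_two, ip_add_right, ip_smul_right, ip_smul_right]
  unfold ip
  rw [Fin.sum_univ_two]
  have h2 : ∀ l, star (ip (b l) a) = ip a (b l) := fun l => ip_star _ _
  have h3 : ∀ l, star (∑ j, star (b l j) * a j) = ∑ j, star (a j) * b l j := h2
  rw [h3, h3]
  ring

theorem lin_eq (b : Fin 2 → Vec n) (a : Vec n) :
    (∑ l, C (ip a (b l)) * X l : Pol 2) = lin (fun l => ip (b l) a) := by
  unfold lin
  refine Finset.sum_congr rfl fun l _ => ?_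
  rw [ip_star]

theorem exists_onb (a a' : Vec n) (hu : ip a a = 1) (hind : LinearIndependent ℂ ![a, a']) :
    ∃ b : Fin 2 → Vec n, (∀ l l', ip (b l) (b l') = if l = l' then 1 else 0) ∧
      (∀ v ∈ Submodule.span ℂ {a, a'}, v = ip (b 0) v • b 0 + ip (b 1) v • b 1) ∧
      (∀ l, b l ∈ Submodule.span ℂ {a, a'}) := by
  obtain ⟨u, hu0⟩ : ∃ u : Vec n, u = a' - ip a a' • a := ⟨_, rfl⟩
  have hune : u ≠ 0 := by
    intro h0
    rw [LinearIndependent.pair_iff] at hind
    have := (hind (- ip a a') 1 (by rw [neg_smul, one_smul, add_comm, ← sub_eq_add_neg, ← hu0, h0])).2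
    exact one_ne_zero this
  obtain ⟨ρ, hρ0, hρ⟩ : ∃ ρ : ℝ, 0 < ρ ∧ ip u u = (ρ : ℂ) := by
    have h1 : ip u u = ((∑ j, ‖u j‖ ^ 2 : ℝ) : ℂ) := by
      unfold ip
      push_cast
      refine Finset.sum_congr rfl fun j _ => ?_
      rw [Complex.star_def, Complex.conj_mul']
    refine ⟨∑ j, ‖u j‖ ^ 2, ?_, h1⟩
    have h2 : 0 ≤ ∑ j, ‖u j‖ ^ 2 := Finset.sum_nonneg fun j _ => by positivity
    refine lt_of_le_of_ne h2 fun h3 => hune ?_
    rw [← ip_self_eq_zero, h1, ← h3, Complex.ofReal_zero]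
  have hs : ((√ρ : ℝ) : ℂ) * ((√ρ : ℝ) : ℂ) = (ρ : ℂ) := by
    rw [← Complex.ofReal_mul, Real.mul_self_sqrt hρ0.le]
  have hs0 : ((√ρ : ℝ) : ℂ) ≠ 0 := by
    rw [Complex.ofReal_ne_zero]
    exact (Real.sqrt_pos.2 hρ0).ne'
  have hau : ip a u = 0 := by
    rw [hu0, sub_eq_add_neg, ← neg_smul, ip_add_right, ip_smul_right, hu, mul_one, add_neg_cancel]
  have hua : ip u a = 0 := by
    rw [← ip_star, hau, star_zero]
  obtain ⟨c, hc⟩ : ∃ c : ℂ, c = ((√ρ : ℝ) : ℂ)⁻¹ := ⟨_, rfl⟩
  have hcs : star c = c := by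
    rw [hc, star_inv₀, Complex.star_def, Complex.conj_ofReal]
  have h11 : ip (c • u) (c • u) = 1 := by
    rw [ip_smul_left, ip_smul_right, hcs, hρ, ← hs, hc]
    field_simp
  have hb : ∀ l l', ip ((![a, c • u] : Fin 2 → Vec n) l) ((![a, c • u] : Fin 2 → Vec n) l') =
      if l = l' then 1 else 0 := by
    intro l l'
    fin_cases l <;> fin_cases l'
    · simpa using hu
    · show ip a (c • u) = _
      rw [ip_smul_right, hau, mul_zero]
      rfl
    · show ip (c • u) a = _
      rw [ip_smul_left, hua, mul_zero]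
      rfl
    · simpa using h11
  refine ⟨![a, c • u], hb, ?_, ?_⟩
  · intro v hv
    rw [Submodule.mem_span_pair] at hv
    obtain ⟨s, t, rfl⟩ := hv
    show s • a + t • a' = ip a (s • a + t • a') • a + ip (c • u) (s • a + t • a') • (c • u)
    have ha' : a' = u + ip a a' • a := by rw [hu0, sub_add_cancel]
    have e1 : ip a (s • a + t • a') = s + t * ip a a' := by
      rw [ip_add_right, ip_smul_right, ip_smul_right, hu, mul_one]
    have e2 : ip (c • u) (s • a + t • a') = t * ((√ρ : ℝ) : ℂ) := by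
      rw [ip_add_right, ip_smul_right, ip_smul_right, ip_smul_left, hua, mul_zero, mul_zero,
        zero_add]
      have e3 : ip u a' = (ρ : ℂ) := by
        rw [ha', ip_add_right, ip_smul_right, hua, mul_zero, add_zero, hρ]
      rw [ip_smul_left, e3, hcs, ← hs, hc]
      field_simp
    rw [e1, e2]
    have e4 : (t * ((√ρ : ℝ) : ℂ)) • (c • u) = t • u := by
      rw [smul_smul]
      congr 1
      rw [hc, mul_assoc, mul_inv_cancel₀ hs0, mul_one]
    rw [e4]
    have e5 : t • a' = t • u + (t * ip a a') • a := by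
      conv_lhs => rw [ha']
      rw [smul_add, smul_smul]
    rw [e5, add_smul]
    abel
  · intro l
    have ha : a ∈ Submodule.span ℂ {a, a'} := Submodule.subset_span (by simp)
    have ha' : a' ∈ Submodule.span ℂ {a, a'} := Submodule.subset_span (by simp)
    have hum : u ∈ Submodule.span ℂ {a, a'} := by
      rw [hu0]
      exact Submodule.sub_mem _ ha' (Submodule.smul_mem _ _ ha)
    fin_cases l
    · exact ha
    · exact Submodule.smul_mem _ _ hum

theorem hc_lin_mul_zero (a : Vec n) (q : Pol n) :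
    homogeneousComponent 0 (lin a * q) = 0 := by
  rw [homogeneousComponent_zero, NabBaux.coeff0_mul]
  have h1 : coeff 0 (lin a) = 0 := by
    by_contra h
    have := (lin_hom a) h
    simp at this
  rw [h1, zero_mul, C_0]

theorem low_zero (c : ℂ) (hc : c ≠ 0) (a : Vec n) (q G : Pol n) (h : (C c + lin a) * q = G)
    (m : ℕ) (hG : ∀ d < m, homogeneousComponent d G = 0) :
    ∀ d < m, homogeneousComponent d q = 0 := by
  have hcancel : ∀ f : Pol n, C c * f = 0 → f = 0 := by
    intro f hf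
    rcases mul_eq_zero.1 hf with h0 | h0
    · exact absurd (C_eq_zero.1 h0) hc
    · exact h0
  intro d
  induction d with
  | zero =>
    intro hd
    have h1 := hG 0 hd
    rw [← h, add_mul, map_add, homogeneousComponent_C_mul, hc_lin_mul_zero, add_zero] at h1
    exact hcancel _ h1
  | succ d ih =>
    intro hd
    have h1 := hG (d + 1) hd
    rw [← h, add_mul, map_add, homogeneousComponent_C_mul, NabBaux.hc_lin_mul,
      ih (by omega), mul_zero, add_zero] at h1
    exact hcancel _ h1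

theorem exists_eval_ne {f : Pol n} (hf : f ≠ 0) : ∃ x, eval x f ≠ 0 := by
  by_contra hcon
  push Not at hcon
  apply hf
  apply MvPolynomial.funext
  intro x
  rw [hcon x, map_zero]

end ResKaux

namespace RD

open ResKaux

variable {n : ℕ} (D : RD n)

theorem ell_inf {h : ℕ} {θ : Fin n → VF n} (hF : Frame D h θ) {i j : D.ι} (hij : i ≠ j)
    (c : Fin n → ℂ) (hc : c ∈ D.ell θ i) (hc' : c ∈ D.ell θ j) : c = 0 := by
  classical
  by_contra hc0
  obtain ⟨hDer, hnab⟩ := D.Res2A_comb hF c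
  obtain ⟨ϑ, hϑ⟩ : ∃ ϑ : VF n, ϑ = ∑ k, (C (c k) : Pol n) • θ k := ⟨_, rfl⟩
  rw [← hϑ] at hDer hnab
  have hϑl : ∀ l, ϑ l = ∑ k, C (c k) * θ k l := by
    intro l
    rw [hϑ, Res2A_comb_apply]
  have hne : ∃ l, ϑ l ≠ 0 := by
    by_contra hcon
    push Not at hcon
    apply hc0
    funext k
    have h1 := hF.indep (fun k => C (c k)) (fun l => by rw [← hϑl, hcon]) k
    exact C_eq_zero.1 h1
  obtain ⟨l₀, hl₀⟩ := hne
  obtain ⟨ηi, pi, hηi, -, -⟩ := D.order_two hF i c hc hc0
  obtain ⟨ηj, pj, hηj, -, -⟩ := D.order_two hF j c hc' hc0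
  obtain ⟨b, hb, hspan, hbmem⟩ := exists_onb (D.a i) (D.a j) (D.unit i) (D.indep i j hij)
  have hline : ∀ k, k ∈ D.line i j ↔ D.a k ∈ Submodule.span ℂ {D.a i, D.a j} := by
    intro k
    unfold line
    simp
  obtain ⟨w, hwdef⟩ : ∃ w : D.ι → Vec n, ∀ k, w k =
      D.a k - (ip (b 0) (D.a k) • b 0 + ip (b 1) (D.a k) • b 1) := ⟨_, fun _ => rfl⟩
  have hw : ∀ k, k ∉ D.line i j → w k ≠ 0 := by
    intro k hk h0
    apply hk
    rw [hline]
    rw [hwdef, sub_eq_zero] at h0
    rw [h0]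
    exact Submodule.add_mem _ (Submodule.smul_mem _ _ (hbmem 0)) (Submodule.smul_mem _ _ (hbmem 1))
  obtain ⟨x₀, hx₀, hxw⟩ : ∃ x₀, eval x₀ (ϑ l₀) ≠ 0 ∧ ∀ k, k ∉ D.line i j → ip (w k) x₀ ≠ 0 := by
    have hP : ϑ l₀ * ∏ k ∈ univ.filter (fun k => k ∉ D.line i j), lin (w k) ≠ 0 := by
      refine mul_ne_zero hl₀ ?_
      rw [Finset.prod_ne_zero_iff]
      intro k hk
      rw [Finset.mem_filter] at hk
      exact fun h0 => hw k hk.2 (lin_eq_zero.1 h0)
    obtain ⟨x, hx⟩ := exists_eval_ne hP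
    rw [map_mul, map_prod] at hx
    refine ⟨x, left_ne_zero_of_mul hx, fun k hk => ?_⟩
    have h1 := right_ne_zero_of_mul hx
    rw [Finset.prod_ne_zero_iff] at h1
    have h2 := h1 k (by rw [Finset.mem_filter]; exact ⟨Finset.mem_univ _, hk⟩)
    rwa [eval_lin] at h2
  obtain ⟨y, hy⟩ : ∃ y : Vec n, x₀ = y + (ip (b 0) x₀ • b 0 + ip (b 1) x₀ • b 1) :=
    ⟨x₀ - (ip (b 0) x₀ • b 0 + ip (b 1) x₀ • b 1), by rw [sub_add_cancel]⟩
  have hyb0 : ip (b 0) y = 0 := by
    have h1 := congrArg (ip (b 0)) hy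
    rw [ip_add_right, ip_add_right, ip_smul_right, ip_smul_right, hb, hb] at h1
    simp at h1
    exact h1
  have hyb1 : ip (b 1) y = 0 := by
    have h1 := congrArg (ip (b 1)) hy
    rw [ip_add_right, ip_add_right, ip_smul_right, ip_smul_right, hb, hb] at h1
    simp at h1
    exact h1
  have hyL : ∀ k, k ∈ D.line i j → ip (D.a k) y = 0 := by
    intro k hk
    rw [hline] at hk
    rw [hspan _ hk, ip_add_left, ip_smul_left, ip_smul_left, hyb0, hyb1, mul_zero, mul_zero,
      add_zero]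
  have hyN : ∀ k, k ∉ D.line i j → ip (D.a k) y ≠ 0 := by
    intro k hk
    have h1 : ip (w k) y = ip (D.a k) y := by
      have h2 : D.a k = w k + (ip (b 0) (D.a k) • b 0 + ip (b 1) (D.a k) • b 1) := by
        rw [hwdef, sub_add_cancel]
      conv_rhs => rw [h2]
      rw [ip_add_left, ip_add_left, ip_smul_left, ip_smul_left, hyb0, hyb1, mul_zero, mul_zero,
        add_zero, add_zero]
    have hwb : ∀ l, ip (w k) (b l) = 0 := by
      intro l
      have h3 : ip (b l) (w k) = 0 := by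
        have h4 : D.a k = w k + (ip (b 0) (D.a k) • b 0 + ip (b 1) (D.a k) • b 1) := by
          rw [hwdef, sub_add_cancel]
        have h5 := congrArg (ip (b l)) h4
        rw [ip_add_right, ip_add_right, ip_smul_right, ip_smul_right, hb, hb] at h5
        fin_cases l
        · simp at h5
          exact h5
        · simp at h5
          exact h5
      rw [← ip_star, h3, star_zero]
    have h2 : ip (w k) x₀ = ip (w k) y := by
      conv_lhs => rw [hy]
      rw [ip_add_right, ip_add_right, ip_smul_right, ip_smul_right, hwb, hwb, mul_zero, mul_zero,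
        add_zero, add_zero]
    rw [← h1, ← h2]
    exact hxw k hk
  obtain ⟨Θ, hΘ⟩ : ∃ Θ : Fin n → Pol 2, ∀ l, Θ l = sbtA y b (ϑ l) := ⟨_, fun _ => rfl⟩
  have hΘ0 : Θ l₀ ≠ 0 := by
    intro h0
    apply hx₀
    have h1 := congrArg (eval ![ip (b 0) x₀, ip (b 1) x₀]) h0
    rw [hΘ, eval_sbtA, map_zero] at h1
    have h2 : (fun j => y j + ∑ l, b l j * (![ip (b 0) x₀, ip (b 1) x₀] : Vec 2) l) = x₀ := by
      conv_rhs => rw [hy]
      funext p
      rw [Fin.sum_univ_two]
      simp [mul_comm]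
    rwa [h2] at h1
  obtain ⟨m, ⟨l₁, hl₁⟩, hlow⟩ : ∃ m, (∃ l, homogeneousComponent m (Θ l) ≠ 0) ∧
      ∀ d < m, ∀ l, homogeneousComponent d (Θ l) = 0 := by
    have hex : ∃ m, ∃ l, homogeneousComponent m (Θ l) ≠ 0 := by
      by_contra hcon
      push Not at hcon
      apply hΘ0
      rw [← sum_homogeneousComponent (Θ l₀)]
      exact Finset.sum_eq_zero fun d _ => hcon d l₀
    refine ⟨Nat.find hex, Nat.find_spec hex, fun d hd l => ?_⟩
    have := Nat.find_min hex hd
    push Not at this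
    exact this l
  obtain ⟨q, hqdef⟩ : ∃ q : D.ι → Pol 2, ∀ k, q k = sbtA y b (quo (D.al k) (D.ap k ϑ)) :=
    ⟨_, fun _ => rfl⟩
  have hq : ∀ k, (C (ip (D.a k) y) + lin (fun l => ip (b l) (D.a k))) * q k =
      ∑ l, C (star (D.a k l)) * Θ l := by
    intro k
    rw [hqdef, ← sbtA_lin, ← map_mul]
    have h1 : lin (D.a k) * quo (D.al k) (D.ap k ϑ) = D.ap k ϑ := quo_spec (hDer k)
    rw [h1]
    unfold ap
    rw [map_sum]
    refine Finset.sum_congr rfl fun l _ => ?_
    rw [map_mul, sbtA_C, hΘ]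
  have hG : ∀ k d, homogeneousComponent d (∑ l, C (star (D.a k l)) * Θ l) =
      ∑ l, C (star (D.a k l)) * homogeneousComponent d (Θ l) := by
    intro k d
    rw [map_sum]
    exact Finset.sum_congr rfl fun l _ => homogeneousComponent_C_mul _ _ _
  have hqN : ∀ k, k ∉ D.line i j → ∀ d < m, homogeneousComponent d (q k) = 0 := by
    intro k hk
    refine low_zero _ (hyN k hk) _ _ _ (hq k) m fun d hd => ?_
    rw [hG]
    exact Finset.sum_eq_zero fun l _ => by rw [hlow d hd l, mul_zero]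
  have hstar0 : ∀ (l : Fin 2) (p : Fin n), pderiv l (Θ p) =
      2 * ∑ k, C (ip (D.a k) (b l) * D.a k p) * q k := by
    intro l p
    rw [hΘ, pderiv_sbtA]
    have h1 := congrFun (hnab (b l)) p
    have h2 : dv (b l) (ϑ p) =
        2 * ∑ k, C (ip (D.a k) (b l) * D.a k p) * quo (D.al k) (D.ap k ϑ) := by
      have h3 : dv (b l) (ϑ p) -
        2 * ∑ k, C (ip (D.a k) (b l) * D.a k p) * quo (D.al k) (D.ap k ϑ) = 0 := h1
      exact sub_eq_zero.1 h3
    rw [h2, map_mul, map_sum]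
    have h4 : sbtA y b 2 = 2 := map_ofNat _ 2
    rw [h4]
    congr 1
    refine Finset.sum_congr rfl fun k _ => ?_
    rw [map_mul, sbtA_C, hqdef]
  have hΘi : ∀ l, Θ l = lin (fun l => ip (b l) (D.a i)) *
      (lin (fun l => ip (b l) (D.a i)) * sbtA y b (ηi l)) := by
    intro l
    have h1 : sbtA y b (D.al i) = lin (fun l => ip (b l) (D.a i)) := by
      unfold al
      rw [sbtA_lin, hyL i (D.mem_line_left i j), C_0, zero_add]
    rw [hΘ, hϑl, hηi, map_mul, map_pow, h1]
    ring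
  have hΘj : ∀ l, Θ l = lin (fun l => ip (b l) (D.a j)) *
      (lin (fun l => ip (b l) (D.a j)) * sbtA y b (ηj l)) := by
    intro l
    have h1 : sbtA y b (D.al j) = lin (fun l => ip (b l) (D.a j)) := by
      unfold al
      rw [sbtA_lin, hyL j (D.mem_line_right i j), C_0, zero_add]
    rw [hΘ, hϑl, hηj, map_mul, map_pow, h1]
    ring
  obtain ⟨m, rfl⟩ : ∃ m', m = m' + 2 := by
    rcases m with _ | _ | m
    · exfalso
      apply hl₁
      rw [hΘi, hc_lin_mul_zero]
    · exfalso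
      apply hl₁
      rw [hΘi, NabBaux.hc_lin_mul, hc_lin_mul_zero, mul_zero]
    · exact ⟨m, rfl⟩
  refine local_contra (L := {k // k ∈ D.line i j}) (fun k => D.a k) (fun k => D.unit k) b hb
    (fun k => hspan _ ((hline k).1 k.2)) (fun k k' hkk => D.indep k k' fun h => hkk (Subtype.ext h))
    ?_ ⟨i, D.mem_line_left i j⟩ ⟨j, D.mem_line_right i j⟩ (fun h => hij (congrArg Subtype.val h))
    (m + 2) (by omega) (fun l => homogeneousComponent (m + 2) (Θ l))
    (fun l => homogeneousComponent_isHomogeneous _ _) ⟨l₁, hl₁⟩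
    (fun k => homogeneousComponent (m + 1) (q k)) ?_ ?_ ?_ ?_
  · intro l
    have h1 := D.TX hij (b l) (hbmem l)
    rw [Fintype.card_coe, ← h1]
    exact Finset.sum_coe_sort (D.line i j) (fun k => ip (D.a k) (b l) • D.a k)
  · intro k
    rw [lin_eq, ← hG, ← hq, hyL k k.2, C_0, zero_add, NabBaux.hc_lin_mul]
  · intro l p
    show pderiv l (homogeneousComponent (m + 2) (Θ p)) =
      2 * ∑ k : {k // k ∈ D.line i j}, C (ip (D.a k) (b l) * D.a k p) *
        homogeneousComponent (m + 1) (q k)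
    rw [← NabBaux.dv_single, ← NabBaux.hc_dv, NabBaux.dv_single, hstar0, NabBaux.hc_two_mul]
    congr 1
    rw [map_sum, Finset.sum_coe_sort (D.line i j) (fun k => C (ip (D.a k) (b l) * D.a k p) *
        homogeneousComponent (m + 1) (q k))]
    symm
    rw [Finset.sum_congr rfl fun k _ => homogeneousComponent_C_mul _ _ _]
    refine Finset.sum_subset (Finset.subset_univ _) fun k _ hk => ?_
    rw [hqN k hk (m + 1) (by omega), mul_zero]
  · intro l
    rw [lin_eq, hΘi, NabBaux.hc_lin_mul, NabBaux.hc_lin_mul, pow_two, ← mul_assoc]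
    exact Dvd.intro _ rfl
  · intro l
    rw [lin_eq, hΘj, NabBaux.hc_lin_mul, NabBaux.hc_lin_mul, pow_two, ← mul_assoc]
    exact Dvd.intro _ rfl

end RD

end RFL
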