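import Pool.Agent.RFL.Res1
import Pool.Agent.RFL.ResK
import Pool.Agent.RFL.LinPow
import Pool.Agent.RFL.GExA

/-!
# RFL-D4, D5 : the forms `g k`

* `exists_g`: `Q E = ∑ g_k θ_k` by `Frame.genQ` (`E ∈ Der`, `euler_mem_Der`); taking homogeneous
  components of degree `N + 1 - h = d` of the `g_k` one may assume `g_k` homogeneous of degree `d`.
* `g_ne`: for every `i` some `g_k` is not divisible by `al i`. Otherwise `g = t g'`, `t = al i`, and
  `η = (Q/t) E = ∑ g'_k θ_k ∈ M` (`θ_k ∈ M` by horizontality, `M_smul, M_add`). But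
  `∇_a η = ∂_a (Q/t) E + (Q/t) (1 - h) a` (`nab_E`) has `i`-component `≡ (Q/t)(1-h) ≢ 0 mod t` as
  `h ≥ 2`: not in `Der`.
* `exists_GData`: `g(x) ∈ ell θ i` for `x ∈ H_i` (`res_rel`: `al i ∣ Q X_l`), so `ell θ i ≠ 0`,
  choose `w_i ≠ 0` in it; `ell θ i = ℂ w_i` (`ell_le_one`). Choose `λ` with `∑ λ_k (w_i)_k = 1`, put
  `γ = ∑ λ_k g_k`: then `g_k ≡ γ (w_i)_k mod al i` (evaluate on `H_i`). For `j ≠ i`, on
  `H_i ∩ H_j` the value `g(x)` is in `ell θ i ⊓ ell θ j = 0` (`ell_inf`), so `γ` vanishes on it, i.e.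
  `γ ≡ w * al j mod al i` (`mem_span_pair_iff`). Apply `glue_eq` with `S = lines i`,
  `b L = a (rp i L)`, `e = 1`, degree `d = |lines i|`: `γ ≡ c ∏ al (rp i L) = c QH i`, `c ≠ 0` by
  `g_ne`. `v i = c • w_i`.
  `rel`: for `f` as in `rel`, `f(x) ∈ ell θ i = ℂ w_i` on `H_i`; `κ = c⁻¹ ∑ λ_k f_k`.
  `vind`: `ell_inf`.
-/

open MvPolynomial Matrix Finset

noncomputable section

namespace RFL

namespace RD

variable {n : ℕ} (D : RD n)

private theorem gexb_ex {h : ℕ} {θ : Fin n → VF n} (hF : Frame D h θ) {d : ℕ}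
    (hl : ∀ i, (D.lines i).card = d) (g : Fin n → Pol n)
    (hghom : ∀ k, (g k).IsHomogeneous d) (hgE : ∀ l, D.Q * X l = ∑ k, g k * θ k l)
    (i : D.ι) (hne : ∃ k, ¬ D.al i ∣ g k) :
    ∃ v : Fin n → ℂ, v ∈ D.ell θ i ∧ v ≠ 0 ∧ ∀ k, D.al i ∣ g k - C (v k) * D.QH i := by
  have hx : ∀ j, ∀ x : Vec n, ip (D.a j) x = 0 → (fun k => eval x (g k)) ∈ D.ell θ j := by
    intro j x hx
    refine D.res_rel hF j g ?_ x hx
    intro l
    rw [← hgE l]
    exact Dvd.dvd.mul_right (Finset.dvd_prod_of_mem D.al (Finset.mem_univ j)) _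
  obtain ⟨k0, hk0⟩ := hne
  obtain ⟨x0, hx0, hxk⟩ := D.exists_generic i (g k0) hk0
  set w : Fin n → ℂ := fun k => eval x0 (g k) with hw
  have hwmem : w ∈ D.ell θ i := hx i x0 hx0
  have hw0 : w k0 ≠ 0 := hxk
  have hwne : w ≠ 0 := fun h => hw0 (by rw [h]; rfl)
  set γ : Pol n := C ((w k0)⁻¹) * g k0 with hγ
  have hγk : ∀ k, D.al i ∣ g k - γ * C (w k) := by
    intro k
    rw [D.al_dvd_iff]
    intro x hxx
    obtain ⟨t, ht⟩ := D.ell_le_one hF i w _ hwmem hwne (hx i x hxx)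
    have e1 : eval x (g k) = t * w k := congrFun ht k
    have e2 : eval x (g k0) = t * w k0 := congrFun ht k0
    rw [hγ]
    simp only [map_sub, map_mul, eval_C, e1, e2]
    field_simp
    ring
  have hγhom : γ.IsHomogeneous d := by
    have := (isHomogeneous_C (Fin n) ((w k0)⁻¹)).mul (hghom k0)
    rwa [zero_add] at this
  obtain ⟨c, hc⟩ := glue_eq (D.a i) (D.a_ne i) (D.lines i) (fun L => D.a (D.rp i L))
    (fun _ => 1) (fun L hL => D.a_notMem (D.rp_ne hL))
    (fun L hL L' hL' hLL' => D.rp_indep hL hL' hLL') γ (by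
      intro L hL
      have hij := D.rp_ne hL
      have h1 : γ ∈ Ideal.span {lin (D.a i), lin (D.a (D.rp i L))} := by
        rw [mem_span_pair_iff]
        intro x hx1 hx2
        have h2 := D.ell_inf hF hij _ (hx i x hx1) (hx _ x hx2)
        have h3 : eval x (g k0) = 0 := congrFun h2 k0
        rw [hγ, map_mul, h3, mul_zero]
      obtain ⟨p, q, hpq⟩ := Ideal.mem_span_pair.1 h1
      refine ⟨q, p, ?_⟩
      rw [pow_one, ← hpq]
      ring) d hγhom (by simp [hl i])
  have hQH : (∏ L ∈ D.lines i, lin (D.a (D.rp i L)) ^ 1) = D.QH i := by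
    simp only [pow_one]
    rfl
  rw [hQH] at hc
  have hc' : D.al i ∣ γ - C c * D.QH i := hc
  have hres : ∀ k, D.al i ∣ g k - C (c * w k) * D.QH i := by
    intro k
    have h1 := hγk k
    have h2 := hc'.mul_right (C (w k))
    have h3 := dvd_add h1 h2
    have h4 : g k - γ * C (w k) + (γ - C c * D.QH i) * C (w k)
        = g k - C (c * w k) * D.QH i := by
      rw [C_mul]
      ring
    rwa [h4] at h3
  have hc0 : c ≠ 0 := by
    intro h0
    apply hk0
    have := hres k0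
    rw [h0, zero_mul, C_0, zero_mul, sub_zero] at this
    exact this
  refine ⟨c • w, (D.ell θ i).smul_mem c hwmem, ?_, ?_⟩
  · intro h0
    rcases smul_eq_zero.1 h0 with h1 | h1
    · exact hc0 h1
    · exact hwne h1
  · intro k
    exact hres k

theorem exists_GData {h d : ℕ}
    (hT : ∀ v : Vec n, ∑ k, ip (D.a k) v • D.a k = ((h : ℂ) / 2) • v) (h2 : 2 ≤ h)
    (hd : d + h = D.N + 1) (hl : ∀ i, (D.lines i).card = d)
    {θ : Fin n → VF n} (hF : Frame D h θ) :
    ∃ g v, GData D θ d g v := by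
  obtain ⟨g, hghom, hgE⟩ := D.exists_g hF hd
  have hex := fun i => gexb_ex D hF hl g hghom hgE i (D.g_ne hT h2 hF hd g hghom hgE i)
  choose v hv hv0 hvr using hex
  refine ⟨g, v, hghom, hgE, hv0, ?_, ?_, hvr⟩
  · intro i j hij
    rw [LinearIndependent.pair_iff]
    intro s t hst
    have hs : s = 0 := by
      by_contra hs
      have h1 : v i = (-(s⁻¹ * t)) • v j := by
        have h2 : s⁻¹ • (s • v i + t • v j) = 0 := by rw [hst, smul_zero]
        rw [smul_add, smul_smul, smul_smul, inv_mul_cancel₀ hs, one_smul] at h2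
        rw [neg_smul]
        exact eq_neg_of_add_eq_zero_left h2
      have h3 : v i ∈ D.ell θ j := by
        rw [h1]
        exact (D.ell θ j).smul_mem _ (hv j)
      exact hv0 i (D.ell_inf hF hij _ (hv i) h3)
    refine ⟨hs, ?_⟩
    rw [hs, zero_smul, zero_add] at hst
    rcases smul_eq_zero.1 hst with h1 | h1
    · exact h1
    · exact absurd h1 (hv0 j)
  · intro i f hf
    have hk : ∃ k, v i k ≠ 0 := by
      by_contra hcon
      push Not at hcon
      exact hv0 i (funext hcon)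
    obtain ⟨k1, hk1⟩ := hk
    refine ⟨C ((v i k1)⁻¹) * f k1, ?_⟩
    intro k
    rw [D.al_dvd_iff]
    intro x hx
    obtain ⟨t, ht⟩ := D.ell_le_one hF i (v i) _ (hv i) (hv0 i) (D.res_rel hF i f hf x hx)
    have e1 : eval x (f k) = t * v i k := congrFun ht k
    have e2 : eval x (f k1) = t * v i k1 := congrFun ht k1
    simp only [map_sub, map_mul, eval_C, e1, e2]
    field_simp
    ring

end RD

end RFL
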