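import Pool.Agent.RFL.AvV

/-!
# RFL-E3 : minimal homogeneous generators of the invariant vector fields

The `Pol n`-submodule of `VF n` generated by the invariant vector fields is finitely generated
(Noetherian), hence by finitely many homogeneous invariant ones (components of invariant fields are
invariant). Take such a family `δ : Fin m → VF n`, `p`, with `m` minimal. If
`∑ c_j δ_j ∈ Ip` (componentwise) with `c_{j₀} ≠ 0`, take the component of degree `p j₀`:
`∑_{p j = p j₀} c_j δ_j = ∑_k r_k ξ_k` with `r_k` invariant homogeneous of positive degree, `ξ_k ∈ VF`;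
apply `avV`: `= ∑_k r_k avV ξ_k`, `avV ξ_k` invariant and (taking components) homogeneous of degree
`p j₀ - deg r_k < p j₀`, so it is a `Pol n`-combination of the `δ_j` with `p j < p j₀` only. So
`δ_{j₀}` is a combination of the others: contradiction to the minimality.
-/

open MvPolynomial Matrix Finset

noncomputable section

namespace RFL

namespace RD

variable {n : ℕ} (D : RD n)

/-- `inv` is closed under sums -/
private theorem gens_sum_inv {T : Type} (S : Finset T) (θ : T → VF n)
    (h : ∀ s ∈ S, θ s ∈ D.inv) : ∑ s ∈ S, θ s ∈ D.inv := by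
  have h1 : D.avV (∑ s ∈ S, θ s) = ∑ s ∈ S, θ s := by
    rw [avV_sum]
    exact Finset.sum_congr rfl fun s hs => D.avV_of_inv (h s hs)
  rw [← h1]
  exact D.avV_inv _

private theorem gens_smul_inv (c : ℂ) {θ : VF n} (h : θ ∈ D.inv) :
    (C c : Pol n) • θ ∈ D.inv := by
  have h1 : D.avV ((C c : Pol n) • θ) = (C c : Pol n) • θ := by
    rw [avV_smul D (C c) (fun g => ?_) θ, D.avV_of_inv h]
    exact (D.act g).commutes c
  rw [← h1]
  exact D.avV_inv _

private theorem gens_hc_mul (q r : Pol n) (e d : ℕ) (hr : r.IsHomogeneous e) :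
    homogeneousComponent d (q * r) =
      if e ≤ d then homogeneousComponent (d - e) q * r else 0 := by
  classical
  have hq : q * r = ∑ i ∈ Finset.range (q.totalDegree + 1), homogeneousComponent i q * r := by
    rw [← Finset.sum_mul, sum_homogeneousComponent]
  have hi : ∀ i, homogeneousComponent d (homogeneousComponent i q * r) =
      if i + e = d then homogeneousComponent i q * r else 0 := by
    intro i
    have h1 : (homogeneousComponent i q * r).IsHomogeneous (i + e) :=
      (homogeneousComponent_isHomogeneous i q).mul hr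
    have h2 := homogeneousComponent_of_mem (m := d)
      ((mem_homogeneousSubmodule (i + e) (homogeneousComponent i q * r)).2 h1)
    rw [h2]
    by_cases h : i + e = d
    · rw [if_pos h, if_pos h.symm]
    · rw [if_neg h, if_neg (fun h' => h h'.symm)]
  conv_lhs => rw [hq]
  rw [map_sum]
  simp only [hi]
  by_cases hed : e ≤ d
  · rw [if_pos hed]
    by_cases hq2 : d - e < q.totalDegree + 1
    · rw [Finset.sum_eq_single (d - e)]
      · rw [if_pos (by omega)]
      · intro b _ hb
        rw [if_neg (by omega)]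
      · intro hb
        exact absurd (Finset.mem_range.2 hq2) hb
    · rw [homogeneousComponent_eq_zero (d - e) q (by omega), zero_mul]
      apply Finset.sum_eq_zero
      intro i hi'
      rw [Finset.mem_range] at hi'
      rw [if_neg (by omega)]
  · rw [if_neg hed]
    apply Finset.sum_eq_zero
    intro i _
    rw [if_neg (by omega)]

private theorem gens_hc_of_hom (q : Pol n) (e d : ℕ) (hq : q.IsHomogeneous e) :
    homogeneousComponent d q = if e = d then q else 0 := by
  have h2 := homogeneousComponent_of_mem (m := d) ((mem_homogeneousSubmodule e q).2 hq)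
  rw [h2]
  by_cases h : e = d
  · rw [if_pos h, if_pos h.symm]
  · rw [if_neg h, if_neg (fun h' => h h'.symm)]

/-- an invariant homogeneous field of degree `e` is a combination of the generators of degree at
most `e` -/
private theorem gens_low {m : ℕ} (δ : Fin m → VF n) (p : Fin m → ℕ)
    (hom : ∀ j l, (δ j l).IsHomogeneous (p j))
    (gen : ∀ θ ∈ D.inv, ∃ f : Fin m → Pol n, ∀ l, θ l = ∑ j, f j * δ j l)
    (θ : VF n) (hθ : θ ∈ D.inv) (e d : ℕ) (hed : e < d) (he : ∀ l, (θ l).IsHomogeneous e) :
    θ ∈ Submodule.span (Pol n) (δ '' {j | p j < d}) := by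
  classical
  obtain ⟨f, hf⟩ := gen θ hθ
  have h1 : θ = ∑ j, (if p j ≤ e then homogeneousComponent (e - p j) (f j) else 0) • δ j := by
    funext l
    have h2 : θ l = homogeneousComponent e (θ l) := by
      rw [gens_hc_of_hom _ e e (he l), if_pos rfl]
    rw [h2, hf l, map_sum, Finset.sum_apply]
    refine Finset.sum_congr rfl fun j _ => ?_
    rw [gens_hc_mul _ _ _ _ (hom j l), Pi.smul_apply, smul_eq_mul]
    by_cases h : p j ≤ e
    · rw [if_pos h, if_pos h]
    · rw [if_neg h, if_neg h, zero_mul]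
  rw [h1]
  refine Submodule.sum_mem _ fun j _ => ?_
  by_cases h : p j ≤ e
  · exact Submodule.smul_mem _ _ (Submodule.subset_span ⟨j, lt_of_le_of_lt h hed, rfl⟩)
  · rw [if_neg h, zero_smul]
    exact Submodule.zero_mem _

private theorem gens_single_smul (l : Fin n) (r q : Pol n) :
    (Pi.single l (q * r) : VF n) = r • (Pi.single l q : VF n) := by
  classical
  funext k
  by_cases h : k = l
  · subst h
    simp [mul_comm]
  · simp [Pi.single_eq_of_ne h]

private theorem gens_single_hom (l : Fin n) (q : Pol n) (d : ℕ) (hq : q.IsHomogeneous d)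
    (k : Fin n) : ((Pi.single l q : VF n) k).IsHomogeneous d := by
  by_cases h : k = l
  · subst h
    simpa using hq
  · rw [Pi.single_eq_of_ne h]
    exact isHomogeneous_zero _ _ _

private theorem gens_Ip {m : ℕ} (δ : Fin m → VF n) (p : Fin m → ℕ)
    (hom : ∀ j l, (δ j l).IsHomogeneous (p j))
    (gen : ∀ θ ∈ D.inv, ∃ f : Fin m → Pol n, ∀ l, θ l = ∑ j, f j * δ j l)
    (d : ℕ) (l : Fin n) (f : Pol n) (hf : f ∈ D.Ip) :
    ∀ u : Pol n, D.avV (Pi.single l (homogeneousComponent d (u * f))) ∈
      Submodule.span (Pol n) (δ '' {j | p j < d}) := by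
  classical
  have hzero : D.avV 0 = 0 := by
    have h := avV_sum D (∅ : Finset ℕ) (fun _ => (0 : VF n))
    simpa using h
  refine Submodule.span_induction (p := fun f _ => ∀ u : Pol n,
    D.avV (Pi.single l (homogeneousComponent d (u * f))) ∈
      Submodule.span (Pol n) (δ '' {j | p j < d})) ?_ ?_ ?_ ?_ hf
  · rintro r ⟨e, he, hr, hinv⟩ u
    rw [gens_hc_mul _ _ _ _ hr]
    by_cases hed : e ≤ d
    · rw [if_pos hed, gens_single_smul, avV_smul D r hinv]
      refine Submodule.smul_mem _ _ (gens_low D δ p hom gen _ (D.avV_inv _) (d - e) d (by omega)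
        (fun k => D.avV_hom _ _ (fun k' => gens_single_hom _ _ _
          (homogeneousComponent_isHomogeneous _ _) k') k))
    · rw [if_neg hed, Pi.single_zero, hzero]
      exact Submodule.zero_mem _
  · intro u
    rw [mul_zero, map_zero, Pi.single_zero, hzero]
    exact Submodule.zero_mem _
  · intro x y _ _ hx hy u
    rw [mul_add, map_add, Pi.single_add, avV_add]
    exact Submodule.add_mem _ (hx u) (hy u)
  · intro a x _ hx u
    rw [smul_eq_mul, ← mul_assoc]
    exact hx (u * a)

/-- a homogeneous generating family of length `m` -/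
private def GensP (m : ℕ) : Prop := ∃ (δ : Fin m → VF n) (p : Fin m → ℕ),
    (∀ j, δ j ∈ D.inv) ∧ (∀ j l, (δ j l).IsHomogeneous (p j)) ∧
    (∀ θ ∈ D.inv, ∃ f : Fin m → Pol n, ∀ l, θ l = ∑ j, f j * δ j l)

private theorem gens_exists : ∃ m, GensP D m := by
  classical
  set s : Set (VF n) := {θ | θ ∈ D.inv ∧ ∃ d, ∀ l, (θ l).IsHomogeneous d} with hs
  have hfg : (Submodule.span (Pol n) s).FG := IsNoetherian.noetherian _
  obtain ⟨t, ht, hst⟩ := (Submodule.fg_span_iff_fg_span_finset_subset s).1 hfg
  let e := t.equivFin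
  choose p hp using fun x : t => (ht x.2).2
  refine ⟨t.card, fun j => (e.symm j : VF n), fun j => p (e.symm j),
    fun j => (ht (e.symm j).2).1, fun j l => hp (e.symm j) l, fun θ hθ => ?_⟩
  have h1 : θ ∈ Submodule.span (Pol n) s := by
    have h2 : ∃ M : ℕ, ∀ l, (θ l).totalDegree < M := by
      refine ⟨(∑ l, (θ l).totalDegree) + 1, fun l => ?_⟩
      have h0 : (θ l).totalDegree ≤ ∑ l, (θ l).totalDegree :=
        Finset.single_le_sum (f := fun l => (θ l).totalDegree) (fun _ _ => Nat.zero_le _)
          (Finset.mem_univ l)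
      omega
    obtain ⟨M, hM⟩ := h2
    have h3 : θ = ∑ d ∈ Finset.range M, (fun l => homogeneousComponent d (θ l) : VF n) := by
      funext l
      rw [Finset.sum_apply]
      have h4 := sum_homogeneousComponent (θ l)
      conv_lhs => rw [← h4]
      apply Finset.sum_subset
      · intro x hx
        rw [Finset.mem_range] at hx ⊢
        have := hM l
        omega
      · intro x _ hx
        rw [Finset.mem_range] at hx
        exact homogeneousComponent_eq_zero x _ (by omega)
    rw [h3]
    refine Submodule.sum_mem _ fun d _ => Submodule.subset_span ?_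
    exact ⟨D.hc_inv hθ d, d, fun l => homogeneousComponent_isHomogeneous _ _⟩
  rw [hst] at h1
  have h5 : (Set.range fun j : Fin t.card => (e.symm j : VF n)) = (t : Set (VF n)) := by
    ext x
    constructor
    · rintro ⟨j, rfl⟩
      exact (e.symm j).2
    · intro hx
      exact ⟨e ⟨x, hx⟩, by simp⟩
  rw [← h5] at h1
  obtain ⟨f, hf⟩ := (Submodule.mem_span_range_iff_exists_fun (Pol n)).1 h1
  refine ⟨f, fun l => ?_⟩
  rw [← hf, Finset.sum_apply]
  rfl

theorem exists_gens : ∃ (m : ℕ) (δ : Fin m → VF n) (p : Fin m → ℕ),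
    (∀ j, δ j ∈ D.inv) ∧ (∀ j l, (δ j l).IsHomogeneous (p j)) ∧
    (∀ θ ∈ D.inv, ∃ f : Fin m → Pol n, ∀ l, θ l = ∑ j, f j * δ j l) ∧
    (∀ c : Fin m → ℂ, (∀ l, ∑ j, C (c j) * δ j l ∈ D.Ip) → ∀ j, c j = 0) := by
  classical
  obtain ⟨m, ⟨δ, p, hinv, hom, gen⟩, hmin⟩ : ∃ m, GensP D m ∧ ∀ k < m, ¬ GensP D k :=
    ⟨Nat.find (gens_exists D), Nat.find_spec (gens_exists D),
      fun k hk => Nat.find_min (gens_exists D) hk⟩
  refine ⟨m, δ, p, hinv, hom, gen, fun c hc j₀ => ?_⟩
  by_contra hj₀
  -- the component of degree `p j₀`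
  set ω : VF n := fun l => homogeneousComponent (p j₀) (∑ j, C (c j) * δ j l) with hω
  have hsum : (fun l => ∑ j, C (c j) * δ j l : VF n) = ∑ j, (C (c j) : Pol n) • δ j := by
    funext l
    rw [Finset.sum_apply]
    rfl
  have hωinv : ω ∈ D.inv := by
    refine D.hc_inv (θ := fun l => ∑ j, C (c j) * δ j l) ?_ (p j₀)
    rw [hsum]
    exact gens_sum_inv D _ _ fun j _ => gens_smul_inv D _ (hinv j)
  have hω1 : ω ∈ Submodule.span (Pol n) (δ '' {j | p j < p j₀}) := by
    rw [← D.avV_of_inv hωinv]
    have h1 : ω = ∑ l, (Pi.single l (ω l) : VF n) := (Finset.univ_sum_single ω).symm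
    rw [h1, avV_sum]
    refine Submodule.sum_mem _ fun l _ => ?_
    have h2 := gens_Ip D δ p hom gen (p j₀) l _ (hc l) 1
    rwa [one_mul] at h2
  have hω2 : ω = ∑ j, (if p j = p j₀ then (C (c j) : Pol n) else 0) • δ j := by
    funext l
    rw [hω, Finset.sum_apply]
    simp only [map_sum]
    refine Finset.sum_congr rfl fun j _ => ?_
    rw [Pi.smul_apply, smul_eq_mul, homogeneousComponent_C_mul,
      gens_hc_of_hom _ _ _ (hom j l)]
    by_cases h : p j = p j₀
    · rw [if_pos h, if_pos h]
    · rw [if_neg h, if_neg h, mul_zero, zero_mul]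
  -- so `δ j₀` is a combination of the others
  set W := Submodule.span (Pol n) (δ '' {j | j ≠ j₀}) with hW
  have hmem : δ j₀ ∈ W := by
    have h1 : ω ∈ W := by
      refine Submodule.span_mono ?_ hω1
      rintro _ ⟨j, hj, rfl⟩
      exact ⟨j, fun h => by simp [h] at hj, rfl⟩
    have h2 : (C (c j₀) : Pol n) • δ j₀ ∈ W := by
      have h3 : (C (c j₀) : Pol n) • δ j₀ = ω -
          ∑ j ∈ Finset.univ.erase j₀, (if p j = p j₀ then (C (c j) : Pol n) else 0) • δ j := by
        rw [hω2, ← Finset.add_sum_erase _ _ (Finset.mem_univ j₀), if_pos rfl]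
        abel
      rw [h3]
      refine Submodule.sub_mem _ h1 (Submodule.sum_mem _ fun j hj => ?_)
      exact Submodule.smul_mem _ _ (Submodule.subset_span ⟨j, Finset.ne_of_mem_erase hj, rfl⟩)
    have h4 : δ j₀ = (C (c j₀)⁻¹ : Pol n) • ((C (c j₀) : Pol n) • δ j₀) := by
      rw [smul_smul, ← C_mul, inv_mul_cancel₀ hj₀, C_1, one_smul]
    rw [h4]
    exact Submodule.smul_mem _ _ h2
  obtain ⟨k, hk⟩ : ∃ k, m = k + 1 := by
    have : 0 < m := Fin.pos j₀
    exact ⟨m - 1, by omega⟩
  subst hk
  refine hmin k (Nat.lt_succ_self k) ⟨fun j => δ (j₀.succAbove j), fun j => p (j₀.succAbove j),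
    fun j => hinv _, fun j l => hom _ l, fun θ hθ => ?_⟩
  have h1 : θ ∈ Submodule.span (Pol n) (Set.range δ) := by
    obtain ⟨f, hf⟩ := gen θ hθ
    refine (Submodule.mem_span_range_iff_exists_fun (Pol n)).2 ⟨f, ?_⟩
    funext l
    rw [hf l, Finset.sum_apply]
    rfl
  have h2 : Submodule.span (Pol n) (Set.range δ) ≤
      Submodule.span (Pol n) (Set.range fun j => δ (j₀.succAbove j)) := by
    have h3 : δ '' {j | j ≠ j₀} = Set.range fun j => δ (j₀.succAbove j) := by
      ext x
      constructor
      · rintro ⟨j, hj, rfl⟩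
        obtain ⟨i, hi⟩ := Fin.exists_succAbove_eq hj
        exact ⟨i, by simp only [hi]⟩
      · rintro ⟨i, rfl⟩
        exact ⟨_, Fin.succAbove_ne j₀ i, rfl⟩
    rw [Submodule.span_le]
    rintro _ ⟨j, rfl⟩
    rw [← h3]
    by_cases hj : j = j₀
    · rw [hj]
      exact hmem
    · exact Submodule.subset_span ⟨j, hj, rfl⟩
  obtain ⟨f, hf⟩ := (Submodule.mem_span_range_iff_exists_fun (Pol n)).1 (h2 h1)
  refine ⟨f, fun l => ?_⟩
  rw [← hf, Finset.sum_apply]
  rfl

end RD

end RFL
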