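import Pool.Agent.RFL.SubD

/-!
# RFL-S : sub-data and the stratification

`subD W`: the reflection data of the roots in the subspace `W`: index type `{i // a i ∈ W}`, group
the subgroup generated by the `s i`, `a i ∈ W`. `full`: if `g ≠ 1` in this group fixes `v^⊥` pointwise,
then `v ∈ span {a j}` for some `j` of `D`; every `s i`, `a i ∈ W`, hence `g`, fixes `W^⊥` pointwise.
If `v ≠ 0` and `g ≠ 1`: the fixed space of `g` is `(a j)^⊥` exactly (dimension), it contains `W^⊥`, so
`a j ∈ W^{⊥⊥} = W`. (If `v = 0` then `g = 1`.)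

`loc x = subD (perp x)`.
-/

open MvPolynomial Matrix Finset

noncomputable section

namespace RFL

namespace RD

variable {n : ℕ} (D : RD n)

theorem rank_le (W : Submodule ℂ (Vec n)) : (D.subD W).rank ≤ D.rank := by
  refine Submodule.finrank_mono (Submodule.span_mono ?_)
  rintro _ ⟨i, rfl⟩
  exact ⟨i.1, rfl⟩

theorem LocRank_span_le (x : Vec n) : Submodule.span ℂ (Set.range (D.loc x).a) ≤ perp x := by
  rw [Submodule.span_le]
  rintro _ ⟨i, rfl⟩
  exact i.2

theorem LocRank_mem_span {x : Vec n} {i : D.ι} (hi : ip (D.a i) x = 0) :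
    D.a i ∈ Submodule.span ℂ (Set.range (D.loc x).a) :=
  Submodule.subset_span ⟨(⟨i, hi⟩ : {i : D.ι // D.a i ∈ perp x}), rfl⟩

/-- at a point different from the origin the rank drops -/
theorem rank_loc_lt (hr : D.rank = n) (x : Vec n) (hx : x ≠ 0) : (D.loc x).rank < n := by
  have h1 : Submodule.span ℂ (Set.range (D.loc x).a) < ⊤ := by
    refine lt_of_le_of_lt (D.LocRank_span_le x) (lt_top_iff_ne_top.2 fun h => hx ?_)
    have h2 : x ∈ perp x := by
      rw [h]
      exact Submodule.mem_top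
    exact ip_self_eq_zero.1 h2
  have h2 := Submodule.finrank_lt h1.ne
  have h3 : Module.finrank ℂ (Vec n) = n := by simp
  rw [h3] at h2
  exact h2

/-- a basis of the span of the forms vanishing at `x` -/
theorem exists_basis_loc (x : Vec n) : ∃ y : Fin (D.loc x).rank → D.ι,
    LinearIndependent ℂ (fun l => D.a (y l)) ∧ ∀ l, ip (D.a (y l)) x = 0 := by
  obtain ⟨f, hf, _, hind⟩ := Submodule.exists_fun_fin_finrank_span_eq ℂ (Set.range (D.loc x).a)
  choose z hz using hf
  have h1 : (fun l => D.a (z l).1) = f := funext hz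
  rw [← h1] at hind
  exact ⟨fun l => (z l).1, hind, fun l => (z l).2⟩

theorem rank_loc_le_one (x : Vec n) (h : (D.loc x).rank ≤ 1) (i j : D.ι)
    (hi : ip (D.a i) x = 0) (hj : ip (D.a j) x = 0) : i = j := by
  by_contra hij
  have h1 := finrank_span_eq_card (D.indep i j hij)
  have h2 : Submodule.span ℂ (Set.range ![D.a i, D.a j]) ≤ Submodule.span ℂ (Set.range (D.loc x).a) := by
    rw [Submodule.span_le]
    rintro _ ⟨k, rfl⟩
    fin_cases k
    · exact D.LocRank_mem_span hi
    · exact D.LocRank_mem_span hj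
  have h3 := Submodule.finrank_mono h2
  rw [h1, Fintype.card_fin] at h3
  exact absurd (h3.trans h) (by norm_num)

theorem rank_loc_eq_two (x : Vec n) (h : (D.loc x).rank = 2) : ∃ i j : D.ι, i ≠ j ∧
    ip (D.a i) x = 0 ∧ ip (D.a j) x = 0 ∧ ∀ k, ip (D.a k) x = 0 → k ∈ D.line i j := by
  obtain ⟨y, hy, hy0⟩ := D.exists_basis_loc x
  have hk : ∀ k, ip (D.a k) x = 0 → D.a k ∈ Submodule.span ℂ (Set.range fun l => D.a (y l)) := by
    intro k hk
    have h1 := finrank_span_eq_card hy
    rw [Fintype.card_fin] at h1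
    have h2 : Submodule.span ℂ (Set.range fun l => D.a (y l)) ≤ Submodule.span ℂ (Set.range (D.loc x).a) := by
      rw [Submodule.span_le]
      rintro _ ⟨l, rfl⟩
      exact D.LocRank_mem_span (hy0 l)
    rw [Submodule.eq_of_le_of_finrank_eq h2 h1]
    exact D.LocRank_mem_span hk
  refine ⟨y ⟨0, by omega⟩, y ⟨1, by omega⟩, fun he => ?_, hy0 _, hy0 _, fun k hk0 => ?_⟩
  · have h1 := hy.injective (a₁ := ⟨0, by omega⟩) (a₂ := ⟨1, by omega⟩) (by simp only [he])
    simp at h1
  · classical
    refine Finset.mem_filter.2 ⟨Finset.mem_univ _, ?_⟩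
    have h1 : Set.range (fun l => D.a (y l)) ⊆ {D.a (y ⟨0, by omega⟩), D.a (y ⟨1, by omega⟩)} := by
      rintro _ ⟨l, rfl⟩
      have hl : l = ⟨0, by omega⟩ ∨ l = ⟨1, by omega⟩ := by
        have := l.2
        rw [Fin.ext_iff, Fin.ext_iff]
        simp only
        omega
      rcases hl with rfl | rfl
      · exact Or.inl rfl
      · exact Or.inr rfl
    exact Submodule.span_mono h1 (hk k hk0)

end RD

end RFL
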