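import Pool.Agent.RFL.SubD

/-!
# RFL-S : sub-data and the stratification

`subD W`: the reflection data of the roots in the subspace `W`: index type `{i // a i ∈ W}`, group
the subgroup generated by the `s i`, `a i ∈ W`. `full`: if `g ≠ 1` in this group fixes `v^⊥` pointwise,
then `v ∈ span {a j}` for some `j` of `D`; every `s i`, `a i ∈ W`, hence `g`, fixes `W^⊥` pointwise.
If `v ≠ 0` and `g ≠ 1`: the fixed space of `g` is `(a j)^⊥` exactly (dimension), it contains `W^⊥`, so
`a j ∈ W^{⊥⊥} = W`. (If `v = 0` then `g = 1`.)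

`loc x = subD (perp x)`.
-/

open MvPolynomial Matrix Finset

noncomputable section

namespace RFL

namespace RD

variable {n : ℕ} (D : RD n)

/-- Minimal stratum: at a zero `x` of the proper ideal `c` with `rank (loc x)` minimal,
`(q_x α_i)^N ∈ c` for all `i` with `α_i(x) = 0`. (If `y` is a zero of `c` with `q_x(y) ≠ 0`, the forms
vanishing at `y` are among those vanishing at `x` and span a space of the same dimension, so `α_i`
vanishes at `y`. Nullstellensatz.) -/
theorem strat (c : Ideal (Pol n)) (hc : c ≠ ⊤) : ∃ x, (∀ f ∈ c, eval x f = 0) ∧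
    ∃ N : ℕ, ∀ i, ip (D.a i) x = 0 → (D.qx x * D.al i) ^ N ∈ c := by
  classical
  -- the zero set is not empty
  have hmem : ∀ x : Vec n, x ∈ zeroLocus ℂ c ↔ ∀ f ∈ c, eval x f = 0 := by
    intro x
    rw [mem_zeroLocus_iff]
    simp only [aeval_eq_eval, coe_aeval_eq_eval]
  have hnul : ∀ f : Pol n, (∀ y, (∀ g ∈ c, eval y g = 0) → eval y f = 0) → f ∈ c.radical := by
    intro f hf
    rw [← vanishingIdeal_zeroLocus_eq_radical (K := ℂ) c, mem_vanishingIdeal_iff]
    intro y hy
    have := hf y ((hmem y).mp hy)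
    simpa only [aeval_eq_eval, coe_aeval_eq_eval] using this
  have hne : ∃ x : Vec n, ∀ f ∈ c, eval x f = 0 := by
    by_contra hcon
    push Not at hcon
    have h1 : (1 : Pol n) ∈ c.radical := hnul 1 (fun y hy => by
      obtain ⟨f, hf, hfy⟩ := hcon y
      exact absurd (hy f hf) hfy)
    obtain ⟨k, hk⟩ := h1
    rw [one_pow] at hk
    exact hc ((Ideal.eq_top_iff_one c).mpr hk)
  -- minimal rank
  have hex : ∃ r : ℕ, ∃ x : Vec n, (∀ f ∈ c, eval x f = 0) ∧ (D.loc x).rank = r := by
    obtain ⟨x, hx⟩ := hne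
    exact ⟨_, x, hx, rfl⟩
  obtain ⟨x, hx, hxr⟩ := Nat.find_spec hex
  have hmin : ∀ y : Vec n, (∀ f ∈ c, eval y f = 0) → (D.loc x).rank ≤ (D.loc y).rank := by
    intro y hy
    rw [hxr]
    exact Nat.find_min' hex ⟨y, hy, rfl⟩
  refine ⟨x, hx, ?_⟩
  have hrad : ∀ i, ip (D.a i) x = 0 → (D.qx x * D.al i) ∈ c.radical := by
    intro i hi
    apply hnul
    intro y hy
    rw [map_mul]
    by_cases hq : eval y (D.qx x) = 0
    · rw [hq, zero_mul]
    · have hsub : Submodule.span ℂ (Set.range (D.loc y).a) ≤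
          Submodule.span ℂ (Set.range (D.loc x).a) := by
        rw [Submodule.span_le]
        rintro _ ⟨⟨j, hj⟩, rfl⟩
        have hjy : ip (D.a j) y = 0 := hj
        have hjx : ip (D.a j) x = 0 := by
          by_contra hne'
          apply hq
          have hd : D.al j ∣ D.qx x :=
            Finset.dvd_prod_of_mem (fun i => D.al i)
              (Finset.mem_filter.mpr ⟨Finset.mem_univ _, hne'⟩)
          obtain ⟨w, hw⟩ := hd
          rw [hw, map_mul]
          have : eval y (D.al j) = ip (D.a j) y := eval_lin _ _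
          rw [this, hjy, zero_mul]
        exact Submodule.subset_span ⟨⟨j, hjx⟩, rfl⟩
      have heq := Submodule.eq_of_le_of_finrank_le hsub (hmin y hy)
      have hai : D.a i ∈ Submodule.span ℂ (Set.range (D.loc y).a) := by
        rw [heq]
        exact Submodule.subset_span ⟨⟨i, hi⟩, rfl⟩
      have hle : Submodule.span ℂ (Set.range (D.loc y).a) ≤ perp y := by
        rw [Submodule.span_le]
        rintro _ ⟨⟨j, hj⟩, rfl⟩
        exact hj
      have h0 : ip (D.a i) y = 0 := hle hai
      have : eval y (D.al i) = ip (D.a i) y := eval_lin _ _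
      rw [this, h0, mul_zero]
  choose! N hN using fun i (hi : ip (D.a i) x = 0) => hrad i hi
  refine ⟨∑ i, N i, fun i hi => ?_⟩
  have h1 : N i ≤ ∑ i, N i := Finset.single_le_sum (fun _ _ => Nat.zero_le _) (Finset.mem_univ i)
  exact c.pow_mem_of_pow_mem (hN i hi) h1

end RD

end RFL
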