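import Pool.Agent.RFL.Depth3
import Pool.Agent.RFL.Strat
import Pool.Agent.RFL.GEx

/-!
# RFL-H : the ideal of the singular locus is generated by the `g k`

`g_mem_J`: `g_k ∈ IX i j`: on `H_i ∩ H_j` (`i ≠ j`) `g(x)` is a multiple of `v i` and of `v j`
(`GData.res`), so `0` (`vind`); `mem_span_pair_iff`.

`depth3`: `I = span (range g)`, three independent forms `y_l = lin (v l)` with `y_l F ∈ I` ⇒ `F ∈ I`.
`y_l F = ∑_k u_{lk} g_k`. For `l, l'`: `∑_k (y_l u_{l'k} - y_{l'} u_{lk}) g_k = 0`, so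
`= ∑_j w_{ll' j} b_j` (`HB.syz`), `w_{·j}` a Koszul 2-cochain; its Koszul differential `z` satisfies
`∑_j z_j b_{jk} = ± kd kd u_k = 0`, so `z = 0` (`HB.ind`); `w_j = kd w'_j` (`kos_exact`, `p = 2 < 3`); then
`u_k - ∑_j w'_j b_{jk}` is a 1-cocycle, so `= kd u'_k` (`p = 1`): `u_{lk} = y_l u'_k + ∑_j w'_{lj} b_{jk}`, so
`y_l F = y_l ∑_k u'_k g_k`. (`kos_exact` with `k = 3`; cochains `Finset (Fin 3) → Pol n`.)
Consequence `depth3_pow`: `y_l^M F ∈ I` for the three `l` ⇒ `F ∈ I` (induction on the sum of the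
exponents).

`J_eq`: let `F ∈ J`, `c = (I : F)`. If `c ≠ ⊤` take `x, N` from `strat`, `k = rank (loc x)`.
* `k ≥ 3`: `F' = q_x^N F`: `al_i^N F' ∈ I` for three independent `al i` (`exists_basis_loc`), so
  `F' ∈ I`, `q_x^N ∈ c`: contradiction at `x`.
* `k = 0`: `Q ∈ I` (`Q_mem`), `Q(x) ≠ 0`. `k = 1`: only `al i` vanishes at `x`:
  `g_k(x) = (v i)_k QH i (x) ≠ 0` for some `k` (`QH i` is a product of forms `al j`, `j ≠ i`).
* `k = 2`: `rank_loc_eq_two`: `i ≠ j`, `F = A al_i + B al_j` (`F ∈ IX i j`). Claim: there is `u`,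
  `u(x) ≠ 0`, `u al_i ∈ I` (and symmetrically for `j`). Choose `λ` with `λ · v_i = 0`, `λ · v_j = 1`.
  `g_λ = ∑ λ_k g_k ≡ 0 mod al i`: `g_λ = al_i u`. Modulo `al j`: `al_i u ≡ QH j`, and
  `QH j = ∏_{L ∈ lines j} al (rp j L)`; the factor of `L = line j i` is `≡ c al_i mod al j`, `c ≠ 0`
  constant (`a (rp j L) ∈ span {a i, a j}`), so `u ≡ c ∏_{L ≠ line j i} al (rp j L) mod al j`, nonzero at
  `x` (the forms vanishing at `x` are in `line i j`).
  So `u u' F ∈ I`, contradiction.
-/

open MvPolynomial Matrix Finset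

noncomputable section

namespace RFL

namespace RD

/-- the value of `g k` at a point of `H_i` -/
theorem IJA_eval_g {n : ℕ} (D : RD n) {d : ℕ} {θ : Fin n → VF n}
    {g : Fin n → Pol n} {v : D.ι → Fin n → ℂ} (hG : GData D θ d g v) (i : D.ι) (k : Fin n)
    (x : Vec n) (hx : ip (D.a i) x = 0) :
    eval x (g k) = v i k * eval x (D.QH i) := by
  obtain ⟨r, hr⟩ := hG.res i k
  have h1 := congrArg (eval x) hr
  have h2 : eval x (D.al i) = 0 := by rw [al, eval_lin, hx]
  rw [map_sub, map_mul, map_mul, eval_C, h2, zero_mul] at h1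
  exact sub_eq_zero.1 h1

theorem g_mem_J {n : ℕ} (D : RD n) {h d : ℕ} {θ : Fin n → VF n} (hF : Frame D h θ)
    {g : Fin n → Pol n} {v : D.ι → Fin n → ℂ} (hG : GData D θ d g v) (k : Fin n) :
    g k ∈ D.J := by
  rw [J]
  simp only [Submodule.mem_iInf]
  intro i j hij
  rw [IX, al, al, mem_span_pair_iff]
  intro x hxi hxj
  have h1 : ∀ k, eval x (g k) = v i k * eval x (D.QH i) := fun k => D.IJA_eval_g hG i k x hxi
  have h2 : ∀ k, eval x (g k) = v j k * eval x (D.QH j) := fun k => D.IJA_eval_g hG j k x hxj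
  have h3 : (eval x (D.QH i)) • v i + (-(eval x (D.QH j))) • v j = 0 := by
    funext l
    simp only [Pi.add_apply, Pi.smul_apply, smul_eq_mul, Pi.zero_apply]
    have e1 := h1 l
    have e2 := h2 l
    rw [e1] at e2
    linear_combination e2
  have h4 := (LinearIndependent.pair_iff.1 (hG.vind i j hij)) _ _ h3
  rw [h1 k, h4.1, mul_zero]

/-- the colon ideal `(I : F)` -/
def IJA_colon {n : ℕ} (I : Ideal (Pol n)) (F : Pol n) : Ideal (Pol n) where
  carrier := {f | f * F ∈ I}
  zero_mem' := by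
    show (0 : Pol n) * F ∈ I
    rw [zero_mul]
    exact I.zero_mem
  add_mem' := by
    intro a b ha hb
    show (a + b) * F ∈ I
    rw [add_mul]
    exact I.add_mem ha hb
  smul_mem' := by
    intro c a ha
    show (c * a) * F ∈ I
    rw [mul_assoc]
    exact I.mul_mem_left c ha

theorem IJA_mem_colon {n : ℕ} {I : Ideal (Pol n)} {F f : Pol n} :
    f ∈ IJA_colon I F ↔ f * F ∈ I := Iff.rfl

/-- a functional vanishing on the first vector and not on the second -/
theorem IJA_functional {n : ℕ} (u w : Fin n → ℂ) (h : LinearIndependent ℂ ![u, w]) :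
    ∃ l : Fin n → ℂ, ∑ k, l k * u k = 0 ∧ ∑ k, l k * w k = 1 := by
  have hw : w ∉ Submodule.span ℂ {u} := by
    intro hmem
    obtain ⟨c, hc⟩ := Submodule.mem_span_singleton.1 hmem
    have h1 : c • u + (-1 : ℂ) • w = 0 := by
      rw [hc, neg_one_smul, add_neg_cancel]
    have h2 := (LinearIndependent.pair_iff.1 h) _ _ h1
    exact absurd h2.2 (by norm_num)
  obtain ⟨f, hf1, hf2⟩ := Submodule.exists_le_ker_of_notMem hw
  have hfu : f u = 0 := hf2 (Submodule.mem_span_singleton_self u)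
  have hexp : ∀ z : Fin n → ℂ, f z = ∑ k, f (Pi.single k 1) * z k := by
    intro z
    have hz : z = ∑ k, z k • (Pi.single k (1 : ℂ) : Fin n → ℂ) := by
      funext l
      rw [Finset.sum_apply, Finset.sum_eq_single l]
      · simp
      · intro b _ hb
        simp [Pi.single_apply, Ne.symm hb]
      · intro hl
        exact absurd (Finset.mem_univ l) hl
    conv_lhs => rw [hz]
    rw [map_sum]
    apply Finset.sum_congr rfl
    intro k _
    rw [map_smul, smul_eq_mul, mul_comm]
  refine ⟨fun k => (f w)⁻¹ * f (Pi.single k 1), ?_, ?_⟩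
  · have := hexp u
    rw [hfu] at this
    simp only [mul_assoc]
    rw [← Finset.mul_sum, ← this, mul_zero]
  · have := hexp w
    simp only [mul_assoc]
    rw [← Finset.mul_sum, ← this]
    exact inv_mul_cancel₀ hf1

/-- At a point where exactly the forms of `line i j` vanish, `al i` is in the ideal locally. -/
theorem IJA_local {n : ℕ} (D : RD n) {d : ℕ} {θ : Fin n → VF n}
    {g : Fin n → Pol n} {v : D.ι → Fin n → ℂ} (hG : GData D θ d g v) {i j : D.ι} (hij : i ≠ j)
    {x : Vec n} (hxj : ip (D.a j) x = 0)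
    (hx : ∀ k, ip (D.a k) x = 0 → k ∈ D.line i j) :
    ∃ u : Pol n, eval x u ≠ 0 ∧ u * D.al i ∈ Ideal.span (Set.range g) := by
  classical
  obtain ⟨l, hl1, hl2⟩ := IJA_functional (v i) (v j) (hG.vind i j hij)
  have hdvd : ∀ (i' : D.ι) (c : ℂ), ∑ k, l k * v i' k = c →
      D.al i' ∣ (∑ k, C (l k) * g k) - C c * D.QH i' := by
    intro i' c hc
    have e : (∑ k, C (l k) * g k) - C c * D.QH i' =
        ∑ k, C (l k) * (g k - C (v i' k) * D.QH i') := by
      have e1 : C c * D.QH i' = ∑ k, C (l k) * (C (v i' k) * D.QH i') := by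
        rw [← hc, map_sum, Finset.sum_mul]
        apply Finset.sum_congr rfl
        intro k _
        rw [C_mul, mul_assoc]
      rw [e1, ← Finset.sum_sub_distrib]
      apply Finset.sum_congr rfl
      intro k _
      ring
    rw [e]
    apply Finset.dvd_sum
    intro k _
    exact Dvd.dvd.mul_left (hG.res i' k) _
  have h1 := hdvd i 0 hl1
  rw [C_0, zero_mul, sub_zero] at h1
  obtain ⟨u, hu⟩ := h1
  have hmem : (∑ k, C (l k) * g k) ∈ Ideal.span (Set.range g) :=
    Ideal.sum_mem _ fun k _ => Ideal.mul_mem_left _ _ (Ideal.subset_span ⟨k, rfl⟩)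
  refine ⟨u, ?_, by rw [mul_comm, ← hu]; exact hmem⟩
  have h2 := hdvd j 1 hl2
  rw [C_1, one_mul, hu] at h2
  -- the factor of the line `line j i`
  have hL : D.line j i ∈ D.lines j := D.line_mem_lines hij.symm
  have hQH : D.QH j = D.al (D.rp j (D.line j i)) *
      ∏ L ∈ (D.lines j).erase (D.line j i), D.al (D.rp j L) := by
    rw [QH, ← Finset.mul_prod_erase _ _ hL]
  have hspan : D.a (D.rp j (D.line j i)) ∈ Submodule.span ℂ {D.a j, D.a i} := by
    have := D.rp_mem hL
    rw [line, Finset.mem_filter] at this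
    exact this.2
  obtain ⟨c1, c2, hc⟩ := Submodule.mem_span_pair.1 hspan
  have hc2 : c2 ≠ 0 := by
    rintro rfl
    rw [zero_smul, add_zero] at hc
    exact D.a_notMem (D.rp_ne hL) (Submodule.mem_span_singleton.2 ⟨c1, hc⟩)
  have hal : D.al (D.rp j (D.line j i)) = C (star c1) * D.al j + C (star c2) * D.al i := by
    rw [al, ← hc, lin_add, lin_smul, lin_smul]
    rfl
  obtain ⟨P, hP⟩ : ∃ P, P = ∏ L ∈ (D.lines j).erase (D.line j i), D.al (D.rp j L) := ⟨_, rfl⟩
  rw [hQH, ← hP, hal] at h2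
  have h3 : D.al j ∣ D.al i * (u - C (star c2) * P) := by
    obtain ⟨r, hr⟩ := h2
    refine ⟨r + C (star c1) * P, ?_⟩
    linear_combination hr
  have h4 : D.al j ∣ u - C (star c2) * P := by
    rcases (D.al_prime j).dvd_or_dvd h3 with h | h
    · exact absurd h (D.al_not_dvd hij.symm)
    · exact h
  have h5 : eval x u = star c2 * eval x P := by
    obtain ⟨r, hr⟩ := h4
    have h6 := congrArg (eval x) hr
    have h7 : eval x (D.al j) = 0 := by rw [al, eval_lin, hxj]
    rw [map_sub, map_mul, map_mul, eval_C, h7, zero_mul] at h6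
    exact sub_eq_zero.1 h6
  rw [h5]
  apply mul_ne_zero (star_ne_zero.2 hc2)
  rw [hP, map_prod]
  apply Finset.prod_ne_zero_iff.2
  intro L' hL'
  rw [Finset.mem_erase] at hL'
  intro h0
  rw [al, eval_lin] at h0
  have h8 := hx _ h0
  rw [D.line_comm i j] at h8
  have h9 := D.line_eq hij.symm h8 (D.rp_ne hL'.2).symm
  rw [D.line_rp hL'.2] at h9
  exact hL'.1 h9

theorem J_eq {m : ℕ} (D : RD (m + 1)) (hne : Nonempty D.ι) {h d : ℕ} {c : Fin m → ℕ}
    {θ : Fin (m + 1) → VF (m + 1)} (hFr : Frame D h θ)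
    {g : Fin (m + 1) → Pol (m + 1)} {v : D.ι → Fin (m + 1) → ℂ} (hG : GData D θ d g v)
    {b : Fin m → Fin (m + 1) → Pol (m + 1)} (hB : HB D d c g b) :
    D.J = Ideal.span (Set.range g) := by
  classical
  apply le_antisymm
  swap
  · rw [Ideal.span_le]
    rintro _ ⟨k, rfl⟩
    exact D.g_mem_J hFr hG k
  intro F hF
  by_contra hFI
  have hgI : ∀ k, g k ∈ Ideal.span (Set.range g) := fun k => Ideal.subset_span ⟨k, rfl⟩
  have hc : IJA_colon (Ideal.span (Set.range g)) F ≠ ⊤ := by
    intro hc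
    apply hFI
    have h1 : (1 : Pol (m + 1)) ∈ IJA_colon (Ideal.span (Set.range g)) F := by
      rw [hc]
      exact Submodule.mem_top
    rw [IJA_mem_colon, one_mul] at h1
    exact h1
  obtain ⟨x, hx, N, hN⟩ := D.strat _ hc
  have hI : ∀ f ∈ Ideal.span (Set.range g), eval x f = 0 := by
    intro f hf
    apply hx
    rw [IJA_mem_colon]
    exact Ideal.mul_mem_right _ _ hf
  by_cases h3 : 3 ≤ (D.loc x).rank
  · -- rank at least three
    obtain ⟨y, hy, hy0⟩ := D.exists_basis_loc x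
    have hv : LinearIndependent ℂ (fun l : Fin 3 => D.a (y (Fin.castLE h3 l))) :=
      hy.comp _ (Fin.castLE_injective h3)
    have h4 : D.qx x ^ N * F ∈ Ideal.span (Set.range g) := by
      apply D.depth3_pow hB _ hv N
      intro l
      have h5 := hN _ (hy0 (Fin.castLE h3 l))
      rw [IJA_mem_colon] at h5
      have e : lin (D.a (y (Fin.castLE h3 l))) ^ N * (D.qx x ^ N * F) =
          (D.qx x * D.al (y (Fin.castLE h3 l))) ^ N * F := by
        rw [al]
        ring
      rw [e]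
      exact h5
    have h6 := hx _ (IJA_mem_colon.2 h4)
    rw [map_pow] at h6
    exact pow_ne_zero N (D.eval_qx x) h6
  by_cases h2 : (D.loc x).rank = 2
  · -- rank two
    obtain ⟨i, j, hij, hxi, hxj, hk⟩ := D.rank_loc_eq_two x h2
    have hFij : F ∈ D.IX i j := by
      have h4 := hF
      rw [J] at h4
      simp only [Submodule.mem_iInf] at h4
      exact h4 i j hij
    rw [IX] at hFij
    obtain ⟨A, B, hAB⟩ := Ideal.mem_span_pair.1 hFij
    obtain ⟨u, hu, huI⟩ := D.IJA_local hG hij hxj hk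
    obtain ⟨u', hu', huI'⟩ := D.IJA_local hG hij.symm hxi (by
      intro k hk'
      rw [D.line_comm]
      exact hk k hk')
    have h5 : u * u' ∈ IJA_colon (Ideal.span (Set.range g)) F := by
      rw [IJA_mem_colon, ← hAB]
      have e : u * u' * (A * D.al i + B * D.al j) =
          (u' * A) * (u * D.al i) + (u * B) * (u' * D.al j) := by ring
      rw [e]
      exact Ideal.add_mem _ (Ideal.mul_mem_left _ _ huI) (Ideal.mul_mem_left _ _ huI')
    have h6 := hx _ h5
    rw [map_mul] at h6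
    rcases mul_eq_zero.1 h6 with h7 | h7
    · exact hu h7
    · exact hu' h7
  have h1 : (D.loc x).rank ≤ 1 := by omega
  by_cases h0 : ∃ i, ip (D.a i) x = 0
  · obtain ⟨i, hi⟩ := h0
    have honly : ∀ j, ip (D.a j) x = 0 → j = i := fun j hj => D.rank_loc_le_one x h1 j i hj hi
    obtain ⟨k, hk⟩ : ∃ k, v i k ≠ 0 := by
      by_contra hcon
      simp only [not_exists, not_not] at hcon
      exact hG.vne i (funext hcon)
    have h4 := hI _ (hgI k)
    rw [D.IJA_eval_g hG i k x hi] at h4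
    rcases mul_eq_zero.1 h4 with h5 | h5
    · exact hk h5
    · rw [QH, map_prod] at h5
      obtain ⟨L, hL, hL0⟩ := Finset.prod_eq_zero_iff.1 h5
      rw [al, eval_lin] at hL0
      exact D.rp_ne hL (honly _ hL0).symm
  · simp only [not_exists] at h0
    exact (D.eval_Q_ne x).2 h0 (hI _ (D.Q_mem hFr hG hne))

end RD

end RFL
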