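import Pool.Agent.RFL.RankB

/-!
# RFL-I1, I2 : rank of the matrix `b` and nonvanishing minors

`rank_bound`: at `x` let `k' = max (rank (loc x)) 1`, `J(loc x) = span (range w)`, `w : Fin k' → Pol`.
`g_k ∈ J(A) ⊆ J(loc x)`: `g_k = ∑_l A_{kl} w_l`; `q_x w_l ∈ J(A) = span (range g)`:
`q_x w_l = ∑_k B_{lk} g_k`. So `q_x g_i = ∑_k (A B)_{ik} g_k`, i.e. each row of `q_x 1 - A B` is a syzygy:
`q_x 1 - A B = W b` (`HB.syz`). At `x`, `q_x(x) ≠ 0`: `m + 1 = rank (q_x(x) 1) ≤ rank (A B) + rank (W b)
≤ k' + rank b(x)`.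

`exists_minor`: `rank (rows in R of b(x)) ≥ rank b(x) - (m - |R|) ≥ |R| + 1 - k'`. A matrix of rank `≥ t`
has a `t × t` submatrix with nonzero determinant.
-/

open MvPolynomial Matrix Finset

noncomputable section

namespace RFL

theorem MinorA_rows {p q t : ℕ} (A : Matrix (Fin p) (Fin q) ℂ) (ht : t ≤ A.rank) :
    ∃ r : Fin t → Fin p, Function.Injective r ∧ LinearIndependent ℂ (fun i => A (r i)) := by
  classical
  obtain ⟨κ, a, ha, hsp, hli⟩ := exists_linearIndependent' ℂ (fun i => A i)
  have hfin : Finite κ := Finite.of_injective a ha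
  have := Fintype.ofFinite κ
  have hcard : A.rank = Fintype.card κ := by
    rw [Matrix.rank_eq_finrank_span_row]
    have h1 : Submodule.span ℂ (Set.range A.row) = Submodule.span ℂ (Set.range ((fun i => A i) ∘ a)) := by
      rw [hsp]; rfl
    rw [h1]
    exact finrank_span_eq_card hli
  let e : Fin t ↪ κ := (Fin.castLEEmb (by omega : t ≤ Fintype.card κ)).trans (Fintype.equivFin κ).symm.toEmbedding
  refine ⟨fun i => a (e i), fun i j h => e.injective (ha h), ?_⟩
  exact hli.comp e e.injective

/-- a matrix of rank `≥ t` has a nonzero `t × t` minor -/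
theorem exists_submatrix {p q t : ℕ} (A : Matrix (Fin p) (Fin q) ℂ) (ht : t ≤ A.rank) :
    ∃ (r : Fin t → Fin p) (c : Fin t → Fin q), Function.Injective r ∧
      (A.submatrix r c).det ≠ 0 := by
  obtain ⟨r, hr, hli⟩ := MinorA_rows A ht
  have h1 : (A.submatrix r id).rank = t := by
    rw [Matrix.rank_eq_finrank_span_row]
    have : Submodule.span ℂ (Set.range (A.submatrix r id).row) = Submodule.span ℂ (Set.range (fun i => A (r i))) := rfl
    rw [this, finrank_span_eq_card hli, Fintype.card_fin]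
  have h2 : t ≤ (A.submatrix r id)ᵀ.rank := by rw [Matrix.rank_transpose, h1]
  obtain ⟨c, hc, hlc⟩ := MinorA_rows (A.submatrix r id)ᵀ h2
  refine ⟨r, c, hr, ?_⟩
  have h3 : IsUnit ((A.submatrix r c)ᵀ) := by
    rw [← Matrix.linearIndependent_rows_iff_isUnit]
    exact hlc
  rw [← Matrix.det_transpose]
  exact ((Matrix.isUnit_iff_isUnit_det _).1 h3).ne_zero

/-- deleting a row lowers the rank by at most one; rows in `R` -/
theorem exists_minor {m : ℕ} (D : RD (m + 1)) (b : Fin m → Fin (m + 1) → Pol (m + 1))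
    (hb : RankHyp D b) (R : Finset (Fin m)) (x : Vec (m + 1)) :
    ∃ (r : Fin (R.card + 1 - max (D.loc x).rank 1) → Fin m)
      (c : Fin (R.card + 1 - max (D.loc x).rank 1) → Fin (m + 1)), Function.Injective r ∧
      (∀ i, r i ∈ R) ∧ eval x (Matrix.of fun i j => b (r i) (c j)).det ≠ 0 := by
  classical
  set A := evm x b with hA
  set B : Matrix (Fin R.card) (Fin (m + 1)) ℂ := A.submatrix (fun i => (R.equivFin.symm i : Fin m)) id with hB
  have hrank : A.rank ≤ B.rank + (m - R.card) := by
    rw [Matrix.rank_eq_finrank_span_row, Matrix.rank_eq_finrank_span_row]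
    have h1 : Submodule.span ℂ (Set.range A.row) ≤
        Submodule.span ℂ (Set.range B.row) ⊔ Submodule.span ℂ (Set.range (fun i : (Rᶜ : Finset (Fin m)) => A i.1)) := by
      rw [Submodule.span_le]
      rintro _ ⟨i, rfl⟩
      by_cases hi : i ∈ R
      · refine Submodule.mem_sup_left (Submodule.subset_span ⟨R.equivFin ⟨i, hi⟩, ?_⟩)
        funext j
        simp [hB, Matrix.row]
      · exact Submodule.mem_sup_right (Submodule.subset_span ⟨⟨i, by simpa using hi⟩, rfl⟩)
    refine (Submodule.finrank_mono h1).trans ((Submodule.finrank_add_le_finrank_add_finrank _ _).trans ?_)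
    have h2 := finrank_range_le_card (R := ℂ) (fun i : (Rᶜ : Finset (Fin m)) => A i.1)
    have h3 : Fintype.card (Rᶜ : Finset (Fin m)) = m - R.card := by
      rw [Fintype.card_coe, Finset.card_compl, Fintype.card_fin]
    rw [h3] at h2
    exact Nat.add_le_add_left h2 _
  have hx := hb x
  have hRc : R.card ≤ m := by simpa using Finset.card_le_univ R
  have ht : R.card + 1 - max (D.loc x).rank 1 ≤ B.rank := by
    rw [← hA] at hx
    omega
  obtain ⟨r, c, hr, hdet⟩ := exists_submatrix B ht
  refine ⟨fun i => (R.equivFin.symm (r i) : Fin m), c, ?_, fun i => (R.equivFin.symm (r i)).2, ?_⟩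
  · intro i j h
    exact hr (R.equivFin.symm.injective (Subtype.ext h))
  · rw [RingHom.map_det]
    exact hdet

end RFL
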