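import Pool.Agent.RFL.TeraoA

/-!
# RFL-E6 : Terao's theorem: `Der` is free with a homogeneous basis containing the Euler field

`exists_gens`: `δ : Fin m → VF n`; independent over `Pol n` by `r_indep`, `s_indep`; so `m ≤ n`. By
`dets_generic` (for any prime not associated to an `al i`, or `dets_al`) some `n` elements of their
span have nonzero determinant, so `m ≥ n` (`m < n`: the `η` are combinations of `m < n` vectors, their
determinant vanishes). So `m = n`; if `η_j = ∑ A_{jk} δ_k` then `det η = det A * det δ`: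
`det δ ∣ det η` for all `η` in the span.
`Q ∣ det δ`: on `H_i` all `δ_j(x)` are in `H_i` (`inv_le_Der`), so the determinant vanishes on `H_i`.
`det δ = Q e`; if `e` is not a unit take a prime factor `f` of `e`: `f` not associated to an `al i`
contradicts `dets_generic`; `f ~ al i` gives `al i^2 ∣ det η` for all `η`, contradiction to `dets_al`.
So `det δ = c Q`, `c ≠ 0` constant. Degrees: `∑ p_j = N`.
Saito: for `θ ∈ Der`, Cramer: `det δ • θ = ∑_j det(δ with δ_j replaced by θ) δ_j` and these
determinants are divisible by `Q` (same argument). So `θ` is a combination of the `δ_j`.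
Euler field: essential (`rank = n`): an invariant field of degree `0` is a constant vector fixed by
all `s i`, so orthogonal to all roots, so `0`; so all `p_j ≥ 1`. `E = ∑ f_j δ_j`, components of degree
`1`: `f_j` constant, `f_j ≠ 0` only if `p_j = 1`. Replace one such `δ_j` by `E`, reindex by
`Fin (m + 1)`, `n = m + 1`.
-/

open MvPolynomial Matrix Finset

noncomputable section

namespace RFL

namespace RD

theorem saito {n : ℕ} (D : RD n) (δ : Fin n → VF n) (hδ : ∀ j, δ j ∈ D.Der) (c : ℂ) (hc : c ≠ 0)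
    (hdet : (Matrix.of δ).det = C c * D.Q) (θ : VF n) (hθ : θ ∈ D.Der) :
    ∃ f : Fin n → Pol n, ∀ l, θ l = ∑ j, f j * δ j l := by
  classical
  have hq : ∀ j, D.Q ∣ (Matrix.cramer (Matrix.of δ)ᵀ θ) j := by
    intro j
    have e : (Matrix.cramer (Matrix.of δ)ᵀ θ) j = (Matrix.of (Function.update δ j θ)).det := by
      rw [Matrix.cramer_apply, ← Matrix.det_transpose (Matrix.of (Function.update δ j θ))]
      congr 1
      ext a b
      by_cases h : b = j
      · subst h
        simp [Matrix.updateCol_apply, Matrix.transpose_apply]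
      · simp [Matrix.updateCol_apply, Matrix.transpose_apply, h, Function.update_of_ne h]
    rw [e]
    refine D.Q_dvd_det _ (fun k => ?_)
    by_cases h : k = j
    · subst h
      simpa using hθ
    · simpa [Function.update_of_ne h] using hδ k
  choose q hq using hq
  refine ⟨fun j => C c⁻¹ * q j, fun l => ?_⟩
  have h1 := congrFun (Matrix.mulVec_cramer (Matrix.of δ)ᵀ θ) l
  have h2 : ∑ j, δ j l * (Matrix.cramer (Matrix.of δ)ᵀ θ) j = C c * D.Q * θ l := by
    rw [← hdet, ← Matrix.det_transpose]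
    exact h1
  have h3 : D.Q * (C c * θ l - ∑ j, q j * δ j l) = 0 := by
    have : ∑ j, δ j l * (Matrix.cramer (Matrix.of δ)ᵀ θ) j = D.Q * ∑ j, q j * δ j l := by
      rw [Finset.mul_sum]
      refine Finset.sum_congr rfl (fun j _ => ?_)
      rw [hq j]; ring
    rw [this] at h2
    rw [mul_sub, h2]; ring
  have h4 : C c * θ l = ∑ j, q j * δ j l := by
    rcases mul_eq_zero.mp h3 with h | h
    · exact absurd h D.Q_ne
    · exact sub_eq_zero.mp h
  calc θ l = C c⁻¹ * (C c * θ l) := by
        rw [← mul_assoc, ← C_mul, inv_mul_cancel₀ hc, C_1, one_mul]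
    _ = ∑ j, C c⁻¹ * q j * δ j l := by
        rw [h4, Finset.mul_sum]
        exact Finset.sum_congr rfl (fun j _ => by ring)

/-- rows homogeneous of degree `p j` : the determinant is homogeneous of degree `∑ p j` -/
theorem TeraoB_det_hom {n : ℕ} (δ : Fin n → VF n) (p : Fin n → ℕ)
    (h : ∀ j l, (δ j l).IsHomogeneous (p j)) : ((Matrix.of δ).det).IsHomogeneous (∑ j, p j) := by
  rw [Matrix.det_apply]
  refine IsHomogeneous.sum _ _ _ (fun σ _ => ?_)
  have h1 : (∏ i, (Matrix.of δ) (σ i) i).IsHomogeneous (∑ j, p j) := by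
    have h2 : (∏ i, (Matrix.of δ) (σ i) i).IsHomogeneous (∑ i, p (σ i)) :=
      IsHomogeneous.prod _ _ _ (fun i _ => h (σ i) i)
    rwa [Equiv.sum_comp σ p] at h2
  rw [Units.smul_def, zsmul_eq_mul]
  have h3 : (((Equiv.Perm.sign σ : ℤˣ) : ℤ) : Pol n).IsHomogeneous 0 := by
    have : (((Equiv.Perm.sign σ : ℤˣ) : ℤ) : Pol n) = C (((Equiv.Perm.sign σ : ℤˣ) : ℤ) : ℂ) := by
      simp
    rw [this]
    exact isHomogeneous_C _ _
  simpa using h3.mul h1

/-- an invariant field of degree `0` vanishes if the data are essential -/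
theorem TeraoB_deg_zero {n : ℕ} (D : RD n) (hr : D.rank = n) (θ : VF n) (hθ : θ ∈ D.inv)
    (h : ∀ l, (θ l).IsHomogeneous 0) : θ = 0 := by
  have hc : ∀ l, ∃ c : ℂ, θ l = C c := by
    intro l
    refine ⟨coeff 0 (θ l), ?_⟩
    exact (totalDegree_eq_zero_iff_eq_C.mp (Nat.le_zero.mp (h l).totalDegree_le))
  choose w hw using hc
  have hfix : ∀ g, D.ρ g *ᵥ w = w := by
    intro g
    funext l
    have h1 : D.actV g θ l = θ l := by rw [hθ g]
    have h2 : D.actV g θ l = C ((D.ρ g *ᵥ w) l) := by
      simp only [actV, Matrix.mulVec, dotProduct, map_sum, map_mul]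
      refine Finset.sum_congr rfl (fun j _ => ?_)
      rw [hw j]
      simp [act, sbt]
    rw [h2, hw l] at h1
    exact C_injective _ _ h1
  have horth : ∀ i, ip (D.a i) w = 0 := by
    intro i
    have h1 := hfix (D.s i)
    rw [D.smul_refl] at h1
    have h2 : ((1 - D.ζ i) * ip (D.a i) w) • D.a i = 0 := by
      have := congrArg (fun z => w - z) h1
      simpa using this
    rcases smul_eq_zero.mp h2 with h3 | h3
    · rcases mul_eq_zero.mp h3 with h4 | h4
      · exact absurd (sub_eq_zero.mp h4).symm (D.ζne i)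
      · exact h4
    · exact absurd h3 (D.a_ne i)
  have hspan : Submodule.span ℂ (Set.range D.a) = ⊤ := by
    apply Submodule.eq_top_of_finrank_eq
    have : Module.finrank ℂ (Vec n) = n := by simp
    rw [this]
    exact hr
  have hall : ∀ v ∈ Submodule.span ℂ (Set.range D.a), ip v w = 0 := by
    intro v hv
    induction hv using Submodule.span_induction with
    | mem x hx => obtain ⟨i, rfl⟩ := hx; exact horth i
    | zero => simp
    | add x y _ _ hx hy => rw [ip_add_left, hx, hy, add_zero]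
    | smul c x _ hx => rw [ip_smul_left, hx, mul_zero]
  have hw0 : w = 0 := by
    rw [← ip_self_eq_zero]
    exact hall w (by rw [hspan]; trivial)
  funext l
  rw [hw l, hw0]
  simp

/-- the Euler field is logarithmic -/
theorem TeraoB_euler {n : ℕ} (D : RD n) : (fun l => X l : VF n) ∈ D.Der := by
  intro i
  exact ⟨1, by simp [ap, al, lin]⟩

/-- rows of a matrix with nonzero determinant are independent -/
theorem TeraoB_indep {n : ℕ} (δ : Fin n → VF n) (hdet : (Matrix.of δ).det ≠ 0) (u : Fin n → Pol n)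
    (h : ∀ l, ∑ j, u j * δ j l = 0) : u = 0 := by
  refine Matrix.eq_zero_of_vecMul_eq_zero hdet ?_
  funext l
  exact h l

/-- the component of degree one of a combination -/
theorem TeraoB_comp {n : ℕ} (δ : Fin n → VF n) (p : Fin n → ℕ) (hp : ∀ j, 1 ≤ p j)
    (hδ : ∀ j l, (δ j l).IsHomogeneous (p j)) (f : Fin n → Pol n) (l : Fin n)
    (h : (X l : Pol n) = ∑ j, f j * δ j l) :
    (X l : Pol n) = ∑ j, C (if p j = 1 then coeff 0 (f j) else 0) * δ j l := by
  have h1 : homogeneousComponent 1 (X l : Pol n) = X l :=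
    homogeneousComponent_of_mem (isHomogeneous_X ℂ l) |>.trans (by simp)
  rw [← h1, h, map_sum]
  refine Finset.sum_congr rfl (fun j _ => ?_)
  have h2 : f j * δ j l = ∑ i ∈ Finset.range ((f j).totalDegree + 1),
      homogeneousComponent i (f j) * δ j l := by
    rw [← Finset.sum_mul, sum_homogeneousComponent]
  have h3 : ∀ i, homogeneousComponent 1 (homogeneousComponent i (f j) * δ j l) =
      if i + p j = 1 then homogeneousComponent i (f j) * δ j l else 0 := by
    intro i
    rw [homogeneousComponent_of_mem ((homogeneousComponent_isHomogeneous i (f j)).mul (hδ j l))]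
    by_cases hi : i + p j = 1
    · simp [hi]
    · simp [hi, Ne.symm hi]
  rw [h2, map_sum]
  simp only [h3]
  by_cases hj : p j = 1
  · rw [if_pos hj, Finset.sum_eq_single 0]
    · simp [hj]
    · intro i _ hi
      rw [if_neg (by omega)]
    · intro h0
      exact absurd (Finset.mem_range.mpr (Nat.succ_pos _)) h0
  · rw [if_neg hj]
    have hp1 := hp j
    rw [Finset.sum_eq_zero]
    · simp
    · intro i _
      rw [if_neg (by omega)]

theorem terao {m : ℕ} (D : RD (m + 1)) (hr : D.rank = m + 1) :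
    ∃ (δ : Fin m → VF (m + 1)) (p : Fin m → ℕ), (∀ j, δ j ∈ D.Der) ∧
      (∀ j l, (δ j l).IsHomogeneous (p j)) ∧ ∑ j, p j + 1 = D.N ∧
      (∀ θ ∈ D.Der, ∃ (f₀ : Pol (m + 1)) (f : Fin m → Pol (m + 1)),
        ∀ l, θ l = f₀ * X l + ∑ j, f j * δ j l) ∧
      (∀ (f₀ : Pol (m + 1)) (f : Fin m → Pol (m + 1)),
        (∀ l, f₀ * X l + ∑ j, f j * δ j l = 0) → f₀ = 0 ∧ ∀ j, f j = 0) := by
  classical
  obtain ⟨δ, p, c, hc, hinv, hhom, hdet⟩ := D.terao₀
  have hder : ∀ j, δ j ∈ D.Der := fun j => D.inv_le_Der (hinv j)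
  have hdet0 : (Matrix.of δ).det ≠ 0 := by
    rw [hdet]
    exact mul_ne_zero (by simpa using hc) D.Q_ne
  have hδ0 : ∀ j, δ j ≠ 0 := by
    intro j hj
    apply hdet0
    exact Matrix.det_eq_zero_of_row_eq_zero j (fun l => by simp [hj])
  have hp1 : ∀ j, 1 ≤ p j := by
    intro j
    by_contra h
    have h0 : p j = 0 := by omega
    exact hδ0 j (TeraoB_deg_zero D hr (δ j) (hinv j) (fun l => by simpa [h0] using hhom j l))
  have hsum : ∑ j, p j = D.N := by
    have h1 := TeraoB_det_hom δ p hhom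
    have h2 : ((Matrix.of δ).det).IsHomogeneous D.N := by
      rw [hdet]
      simpa using (isHomogeneous_C (Fin (m + 1)) c).mul D.Q_hom
    exact h1.inj_right h2 hdet0
  obtain ⟨f, hf⟩ := saito D δ hder c hc hdet _ D.TeraoB_euler
  set e : Fin (m + 1) → ℂ := fun j => if p j = 1 then coeff 0 (f j) else 0 with he
  have hE : ∀ l, (X l : Pol (m + 1)) = ∑ j, C (e j) * δ j l :=
    fun l => TeraoB_comp δ p hp1 hhom f l (hf l)
  have hex : ∃ j₀, e j₀ ≠ 0 := by
    by_contra h
    push Not at h
    have : (X 0 : Pol (m + 1)) = 0 := by rw [hE 0]; simp [h]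
    exact X_ne_zero _ this
  obtain ⟨j₀, hj₀⟩ := hex
  have hpj₀ : p j₀ = 1 := by
    by_contra h
    exact hj₀ (by simp [he, h])
  have hsplit : ∀ (g : Fin (m + 1) → Pol (m + 1)) (l : Fin (m + 1)), ∑ j, g j * δ j l =
      g j₀ * δ j₀ l + ∑ k : Fin m, g (j₀.succAbove k) * δ (j₀.succAbove k) l :=
    fun g l => Fin.sum_univ_succAbove _ j₀
  have hE' : ∀ l, C (e j₀) * δ j₀ l = X l - ∑ k : Fin m, C (e (j₀.succAbove k)) * δ (j₀.succAbove k) l := by
    intro l
    rw [hE l, hsplit (fun j => C (e j)) l]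
    ring
  have hinve : (C (e j₀)⁻¹ : Pol (m + 1)) * C (e j₀) = 1 := by
    rw [← C_mul, inv_mul_cancel₀ hj₀, C_1]
  refine ⟨fun k => δ (j₀.succAbove k), fun k => p (j₀.succAbove k), fun k => hder _,
    fun k l => hhom _ l, ?_, ?_, ?_⟩
  · rw [← hsum, Fin.sum_univ_succAbove _ j₀, hpj₀, add_comm]
  · intro θ hθ
    obtain ⟨u, hu⟩ := saito D δ hder c hc hdet θ hθ
    refine ⟨u j₀ * C (e j₀)⁻¹, fun k => u (j₀.succAbove k) -
      u j₀ * C (e j₀)⁻¹ * C (e (j₀.succAbove k)), fun l => ?_⟩
    rw [hu l, hsplit u l]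
    have h1 : u j₀ * δ j₀ l = u j₀ * C (e j₀)⁻¹ * (C (e j₀) * δ j₀ l) := by
      linear_combination (-(u j₀ * δ j₀ l)) * hinve
    rw [h1, hE' l]
    have h2 : ∑ k : Fin m, (u (j₀.succAbove k) - u j₀ * C (e j₀)⁻¹ * C (e (j₀.succAbove k))) *
        δ (j₀.succAbove k) l = ∑ k : Fin m, u (j₀.succAbove k) * δ (j₀.succAbove k) l -
        u j₀ * C (e j₀)⁻¹ * ∑ k : Fin m, C (e (j₀.succAbove k)) * δ (j₀.succAbove k) l := by
      rw [Finset.mul_sum, ← Finset.sum_sub_distrib]
      exact Finset.sum_congr rfl (fun k _ => by ring)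
    rw [h2]
    ring
  · intro f₀ g hg
    have h1 : (fun j => f₀ * C (e j) + (Fin.insertNth j₀ (0 : Pol (m + 1)) g : Fin (m + 1) → Pol (m + 1)) j) = 0 := by
      refine TeraoB_indep δ hdet0 _ (fun l => ?_)
      have h0 := hg l
      rw [hE l, hsplit (fun j => C (e j)) l] at h0
      rw [hsplit]
      simp only [Fin.insertNth_apply_same, Fin.insertNth_apply_succAbove]
      have h2 : ∑ k : Fin m, (f₀ * C (e (j₀.succAbove k)) + g k) * δ (j₀.succAbove k) l =
          f₀ * ∑ k : Fin m, C (e (j₀.succAbove k)) * δ (j₀.succAbove k) l +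
          ∑ k : Fin m, g k * δ (j₀.succAbove k) l := by
        rw [Finset.mul_sum, ← Finset.sum_add_distrib]
        exact Finset.sum_congr rfl (fun k _ => by ring)
      rw [h2]
      linear_combination h0
    have h3 := congrFun h1 j₀
    simp only [Fin.insertNth_apply_same, add_zero, Pi.zero_apply] at h3
    have h4 : f₀ = 0 := by
      rcases mul_eq_zero.mp h3 with h | h
      · exact h
      · exact absurd ((map_eq_zero_iff _ (C_injective _ _)).mp h) hj₀
    refine ⟨h4, fun k => ?_⟩
    have h5 := congrFun h1 (j₀.succAbove k)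
    simpa [h4] using h5

end RD

end RFL
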