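import Pool.Agent.RFL.SyzA
import Pool.Agent.RFL.Terao

/-!
# RFL-F : the syzygies of `g`

`syz_dvd`: `∑ u_k g_k = 0`, `δ ∈ Der`, `Q δ = ∑ w_k θ_k` ⇒ `Q ∣ ∑ w_k u_k`: for each `i`,
`∑ w_k θ_k ≡ 0 mod al i`, so `w_k ≡ κ (v i)_k` (`GData.rel`); and
`0 = ∑ u_k g_k ≡ QH i * ∑ u_k (v i)_k`, `al i ∤ QH i`, prime: `al i ∣ ∑ u_k (v i)_k`; so
`al i ∣ ∑ w_k u_k`. Conclude with `Q_dvd`.

`exists_HB`: `δ, p` from `terao`; `θ_k = ε_k E + ∑_j b_{jk} δ_j`, WLOG (components) `b_{jk}`
homogeneous of degree `h - p j` (`0` if `p j > h`). `Q δ_j = ∑_k w_{jk} θ_k` (`genQ`).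
* `rel`: `Q E = ∑ g_k θ_k = (∑ g_k ε_k) E + ∑_j (∑_k g_k b_{jk}) δ_j`, compare coefficients.
* the matrix `(ε; b)` has nonzero determinant (`Frame.indep`), so its rows are independent (`ind`),
  in particular no row `b_j` is zero, so `p j ≤ h`; `c j = h - p j`; `∑ c_j = m h - (N - 1) = d`
  because `(m+1) h = 2 N`, `d + h = N + 1`.
* `syz`: for `∑ u_k g_k = 0` put `w_j = (∑_k w_{jk} u_k) / Q` (`syz_dvd`). From
  `Q θ_k = ε_k Q E + ∑_j b_{jk} Q δ_j = ∑_l (ε_k g_l + ∑_j b_{jk} w_{jl}) θ_l` we get
  `ε_k g_l + ∑_j b_{jk} w_{jl} = Q` if `k = l`, else `0`. So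
  `Q u_k = ∑_l (ε_k g_l + ∑_j b_{jk} w_{jl}) u_l = ∑_j b_{jk} Q w_j`.
-/

open MvPolynomial Matrix Finset

noncomputable section

namespace RFL

namespace SyzB

variable {σ : Type*}

/-- homogeneous components of a product with a homogeneous factor -/
theorem hc_mul {R : Type*} [CommRing R] (f g : MvPolynomial σ R) {p : ℕ} (hg : g.IsHomogeneous p)
    (h : ℕ) : homogeneousComponent h (f * g)
      = (if p ≤ h then homogeneousComponent (h - p) f else 0) * g := by
  classical
  have h1 : f * g = ∑ i ∈ Finset.range (f.totalDegree + 1), homogeneousComponent i f * g := by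
    rw [← Finset.sum_mul, sum_homogeneousComponent]
  rw [h1, map_sum]
  have h2 : ∀ i ∈ Finset.range (f.totalDegree + 1),
      homogeneousComponent h (homogeneousComponent i f * g)
        = if i + p = h then homogeneousComponent i f * g else 0 := by
    intro i _
    have h3 : (homogeneousComponent i f * g).IsHomogeneous (i + p) :=
      (homogeneousComponent_isHomogeneous i f).mul hg
    rw [homogeneousComponent_of_mem ((mem_homogeneousSubmodule _ _).2 h3)]
    by_cases h4 : i + p = h
    · rw [if_pos h4, if_pos h4.symm]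
    · rw [if_neg h4, if_neg (fun h5 => h4 h5.symm)]
  rw [Finset.sum_congr rfl h2]
  by_cases hp : p ≤ h
  · rw [if_pos hp]
    by_cases hd : h - p ∈ Finset.range (f.totalDegree + 1)
    · rw [Finset.sum_eq_single (h - p)]
      · rw [if_pos (by omega)]
      · intro b _ hb
        rw [if_neg (by omega)]
      · intro h3
        exact absurd hd h3
    · rw [Finset.sum_eq_zero]
      · rw [homogeneousComponent_eq_zero (h - p) f (by
          rw [Finset.mem_range] at hd; omega), zero_mul]
      · intro b hb
        rw [if_neg]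
        intro h3
        apply hd
        have : b = h - p := by omega
        rw [← this]
        exact hb
  · rw [if_neg hp, zero_mul]
    apply Finset.sum_eq_zero
    intro b _
    rw [if_neg (by omega)]

theorem det_row {R : Type*} [CommRing R] [IsDomain R] {n : ℕ} (A : Matrix (Fin n) (Fin n) R)
    (h1 : ∀ f : Fin n → R, (∀ l, ∑ k, f k * A k l = 0) → ∀ k, f k = 0) (w : Fin n → R)
    (hw : ∀ k, ∑ l, A k l * w l = 0) : ∀ l, w l = 0 := by
  classical
  by_contra hcon
  push Not at hcon
  obtain ⟨l0, hl0⟩ := hcon
  have hd : A.det = 0 := by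
    rw [← Matrix.exists_mulVec_eq_zero_iff]
    refine ⟨w, fun h => hl0 (by rw [h]; rfl), ?_⟩
    funext k
    exact hw k
  rw [← Matrix.exists_vecMul_eq_zero_iff] at hd
  obtain ⟨f, hf, hf2⟩ := hd
  apply hf
  funext k
  exact h1 f (fun l => congrFun hf2 l) k

end SyzB

namespace RD

theorem exists_HB {m : ℕ} (D : RD (m + 1)) (hr : D.rank = m + 1) {h d : ℕ}
    (hmh : (m + 1) * h = 2 * D.N) (hd : d + h = D.N + 1)
    {θ : Fin (m + 1) → VF (m + 1)} (hF : Frame D h θ)
    {g : Fin (m + 1) → Pol (m + 1)} {v : D.ι → Fin (m + 1) → ℂ} (hG : GData D θ d g v) :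
    ∃ (c : Fin m → ℕ) (b : Fin m → Fin (m + 1) → Pol (m + 1)), HB D d c g b := by
  classical
  obtain ⟨δ, p, hδ, hp, hsum, hgen, hind⟩ := D.terao hr
  have h1 : ∀ k, ∃ (f₀ : Pol (m + 1)) (f : Fin m → Pol (m + 1)),
      ∀ l, θ k l = f₀ * X l + ∑ j, f j * δ j l := fun k => hgen _ (hF.der k)
  choose ε₀ B hB using h1
  -- homogeneous components
  set ε : Fin (m + 1) → Pol (m + 1) := fun k =>
    if 1 ≤ h then homogeneousComponent (h - 1) (ε₀ k) else 0 with hε
  set b : Fin m → Fin (m + 1) → Pol (m + 1) := fun j k =>
    if p j ≤ h then homogeneousComponent (h - p j) (B k j) else 0 with hb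
  have hθ : ∀ k l, θ k l = ε k * X l + ∑ j, b j k * δ j l := by
    intro k l
    have h2 := hB k l
    have h3 : homogeneousComponent h (θ k l) = θ k l := by
      rw [homogeneousComponent_of_mem ((mem_homogeneousSubmodule _ _).2 (hF.hom k l)), if_pos rfl]
    rw [← h3, h2, map_add, SyzB.hc_mul _ _ (isHomogeneous_X ℂ l), map_sum]
    congr 1
    apply Finset.sum_congr rfl
    intro j _
    rw [SyzB.hc_mul _ _ (hp j l)]
  -- independence of the rows
  have hrow : ∀ (w₀ : Pol (m + 1)) (w : Fin m → Pol (m + 1)),
      (∀ k, ε k * w₀ + ∑ j, b j k * w j = 0) → w₀ = 0 ∧ ∀ j, w j = 0 := by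
    intro w₀ w hw
    have h2 := SyzB.det_row (Matrix.of fun k => (Fin.cons (ε k) (fun j => b j k) :
      Fin (m + 1) → Pol (m + 1))) (by
        intro f hf
        apply hF.indep f
        intro l
        have e0 := hf 0
        have e1 : ∀ j : Fin m, ∑ k, f k * b j k = 0 := fun j => by
          have := hf j.succ
          simpa using this
        have e0' : ∑ k, f k * ε k = 0 := by simpa using e0
        calc ∑ k, f k * θ k l = ∑ k, (f k * ε k * X l + ∑ j, f k * b j k * δ j l) := by
              apply Finset.sum_congr rfl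
              intro k _
              rw [hθ k l, mul_add, Finset.mul_sum, mul_assoc]
              simp_rw [mul_assoc]
          _ = (∑ k, f k * ε k) * X l + ∑ j, (∑ k, f k * b j k) * δ j l := by
              rw [Finset.sum_add_distrib, Finset.sum_mul, Finset.sum_comm]
              simp_rw [Finset.sum_mul]
          _ = 0 := by
              rw [e0', zero_mul, zero_add]
              apply Finset.sum_eq_zero
              intro j _
              rw [e1 j, zero_mul]) (Fin.cons w₀ w) (by
        intro k
        rw [Fin.sum_univ_succ]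
        simpa using hw k)
    refine ⟨by simpa using h2 0, fun j => by simpa using h2 j.succ⟩
  have hindb : ∀ w : Fin m → Pol (m + 1), (∀ k, ∑ j, w j * b j k = 0) → ∀ j, w j = 0 := by
    intro w hw
    refine (hrow 0 w ?_).2
    intro k
    rw [mul_zero, zero_add, ← hw k]
    exact Finset.sum_congr rfl (fun j _ => mul_comm _ _)
  have hple : ∀ j, p j ≤ h := by
    intro j
    by_contra hcon
    have h2 := hindb (fun j' => if j' = j then 1 else 0) (by
      intro k
      have : ∀ j', (if j' = j then (1 : Pol (m + 1)) else 0) * b j' k = 0 := by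
        intro j'
        by_cases h3 : j' = j
        · subst h3
          simp only [hb]
          rw [if_neg hcon, mul_zero]
        · rw [if_neg h3, zero_mul]
      exact Finset.sum_eq_zero (fun j' _ => this j')) j
    simp at h2
  -- relation of `Q E`
  have hrel : (∑ k, g k * ε k = D.Q) ∧ ∀ j, ∑ k, b j k * g k = 0 := by
    have h2 := hind (∑ k, g k * ε k - D.Q) (fun j => ∑ k, b j k * g k) (by
      intro l
      have h3 := hG.eqE l
      calc (∑ k, g k * ε k - D.Q) * X l + ∑ j, (∑ k, b j k * g k) * δ j l
          = (∑ k, g k * ε k * X l + ∑ j, ∑ k, b j k * g k * δ j l) - D.Q * X l := by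
            rw [sub_mul, Finset.sum_mul]
            simp_rw [Finset.sum_mul]
            ring
        _ = ∑ k, g k * θ k l - D.Q * X l := by
            rw [Finset.sum_comm, ← Finset.sum_add_distrib]
            congr 1
            apply Finset.sum_congr rfl
            intro k _
            rw [hθ k l, mul_add, Finset.mul_sum]
            congr 1
            · ring
            · apply Finset.sum_congr rfl
              intro j _
              ring
        _ = 0 := by rw [h3, sub_self])
    exact ⟨sub_eq_zero.1 h2.1, h2.2⟩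
  refine ⟨fun j => h - p j, b, ⟨hG.hom, ?_, ?_, hrel.2, ?_, hindb⟩⟩
  · intro j k
    simp only [hb]
    rw [if_pos (hple j)]
    exact homogeneousComponent_isHomogeneous _ _
  · -- the degrees
    have h2 : ∑ j, (h - p j) + ∑ j, p j = m * h := by
      rw [← Finset.sum_add_distrib, Finset.sum_congr rfl (fun j _ => Nat.sub_add_cancel (hple j))]
      simp
    have h3 : (m + 1) * h = m * h + h := by ring
    omega
  · intro u hu
    have h2 : ∀ j, ∃ w : Fin (m + 1) → Pol (m + 1), ∀ l, D.Q * δ j l = ∑ k, w k * θ k l :=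
      fun j => hF.genQ _ (hδ j)
    choose W hW using h2
    have h3 : ∀ j, D.Q ∣ ∑ k, W j k * u k := fun j =>
      D.syz_dvd hF hG u (W j) (by rw [← hu]) (δ j) (hW j)
    choose w hw using h3
    have h4 : ∀ k i, ε k * g i + ∑ j, b j k * W j i = if i = k then D.Q else 0 := by
      intro k i
      have h5 := hF.indep (fun i => ε k * g i + ∑ j, b j k * W j i - if i = k then D.Q else 0) (by
        intro l
        have e1 : ∑ i, (ε k * g i + ∑ j, b j k * W j i - if i = k then D.Q else 0) * θ i l
            = ε k * ∑ i, g i * θ i l + ∑ j, b j k * ∑ i, W j i * θ i l - D.Q * θ k l := by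
          simp_rw [sub_mul, add_mul, Finset.sum_sub_distrib, Finset.sum_add_distrib]
          congr 1
          · congr 1
            · rw [Finset.mul_sum]
              exact Finset.sum_congr rfl (fun i _ => by ring)
            · simp_rw [Finset.sum_mul, Finset.mul_sum]
              rw [Finset.sum_comm]
              exact Finset.sum_congr rfl (fun i _ => Finset.sum_congr rfl (fun j _ => by ring))
          · simp
        rw [e1, ← hG.eqE l]
        simp_rw [← hW]
        rw [hθ k l, mul_add, Finset.mul_sum]
        have e2 : ∑ j, b j k * (D.Q * δ j l) = ∑ j, D.Q * (b j k * δ j l) :=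
          Finset.sum_congr rfl (fun j _ => by ring)
        rw [e2]
        ring) i
      exact sub_eq_zero.1 h5
    refine ⟨w, fun k => ?_⟩
    apply mul_left_cancel₀ D.Q_ne
    calc D.Q * u k = ∑ i, (if i = k then D.Q else 0) * u i := by simp
      _ = ∑ i, (ε k * g i + ∑ j, b j k * W j i) * u i := by
          exact Finset.sum_congr rfl (fun i _ => by rw [h4])
      _ = ε k * ∑ i, u i * g i + ∑ j, b j k * ∑ i, W j i * u i := by
          simp_rw [add_mul, Finset.sum_add_distrib]
          congr 1
          · rw [Finset.mul_sum]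
            exact Finset.sum_congr rfl (fun i _ => by ring)
          · simp_rw [Finset.sum_mul, Finset.mul_sum]
            rw [Finset.sum_comm]
            exact Finset.sum_congr rfl (fun i _ => Finset.sum_congr rfl (fun j _ => by ring))
      _ = D.Q * ∑ j, w j * b j k := by
          rw [hu, mul_zero, zero_add, Finset.mul_sum]
          apply Finset.sum_congr rfl
          intro j _
          rw [hw j]
          ring

end RD

end RFL
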