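import Pool.Agent.RFL.IJ
import Pool.Agent.RFL.Syz
import Pool.Agent.RFL.Minor

/-!
# RFL-K2 : the irreducible case

`D : RD (m + 1)`, `2 ≤ m`, irreducible, `Good (loc x)` for all `x ≠ 0`.
`Irr_count`: `h`, `N`, `d = |lines i|`, `Irr_Th`, `exists_frame`, `exists_GData`, `exists_HB`, `J_eq`:
`J = span (range g)` with `m + 1 = max (rank) 1` generators (`Irr_rank`): first part of `Good`.
`RankHyp`: for `x ≠ 0` `rank_bound` and the hypothesis; for `x = 0` `rank (loc 0) = m + 1`.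
Second part, `r ≥ 3`: `F ∈ Jsym (2r-1)`; homogeneous components: `F` homogeneous. `c = (J^r : F)`.
For `x ≠ 0`: `F ∈ Jsym (2r-1) ≤ (loc x).Jsym (2r-1) ≤ (loc x).J^r` and `q_x (loc x).J ≤ J`, so
`q_x^r ∈ c`, `q_x(x) ≠ 0`. So `c` vanishes at most at `0` and by the Nullstellensatz (if `F ∉ J^r`)
`X_k^K ∈ c` for all `k`. Choose a monomial `μ` of maximal degree with `μ ∉ c`: `F' = μ F ∉ J^r`,
`X_k F' ∈ J^r`, `F' ∈ Jsym (2r-1)`, homogeneous of degree `e`. `socle`: `m ≤ r`,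
`e + m + 1 = (r+1) d`. `Q_pow_dvd`: `F' = Q^{r-1} F''`, `e = (r-1) N + deg F''` (`F' ≠ 0`).
Numbers: `n = m + 1`, `n h = 2 N`, `d + h = N + 1`: `2 d - n = (n-2)(h-1)`, so
`deg F'' = (r+1) d - n - (r-1) N = (n - 1 - r)(h - 1)` in `ℤ`, `h ≥ 2`, so `r ≤ n - 1 = m`: `r = m ≥ 3`,
`deg F'' = 0`: `F'' = c ≠ 0`. `Irr_double` (`n ≥ 4`): a line with two elements;
`Q^{r-1} ∈ (IX i j)^(2r-1)` gives `2 r - 1 ≤ 2 (r - 1)` (`Q_pow_mem_iff`). Contradiction.
-/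

open MvPolynomial Matrix Finset

noncomputable section

namespace RFL

namespace RD

theorem irr_gens {m : ℕ} (D : RD (m + 1)) (hm : 1 ≤ m) (hI : D.Irr) :
    ∃ (h d : ℕ) (c : Fin m → ℕ) (g : Fin (m + 1) → Pol (m + 1))
      (b : Fin m → Fin (m + 1) → Pol (m + 1)), 2 ≤ h ∧ (m + 1) * h = 2 * D.N ∧ d + h = D.N + 1 ∧
      (∀ i, (D.lines i).card = d) ∧ HB D d c g b ∧ D.J = Ideal.span (Set.range g) ∧
      ∃ k, g k ≠ 0 := by
  obtain ⟨h, h2, hmh, hcard⟩ := D.Irr_count (by omega) hI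
  have hne : Nonempty D.ι := D.Irr_nonempty (by omega) hI
  obtain ⟨i₀⟩ := hne
  have hd : (D.lines i₀).card + h = D.N + 1 := hcard i₀
  have hl : ∀ i, (D.lines i).card = (D.lines i₀).card := by
    intro i
    have h1 := hcard i
    omega
  have hT : ∀ v : Vec (m + 1), ∑ k, ip (D.a k) v • D.a k = ((h : ℂ) / 2) • v :=
    fun v => D.Irr_Th (by omega) hI h hmh v
  obtain ⟨θ, hF⟩ := D.exists_frame hT
  obtain ⟨g, v, hG⟩ := D.exists_GData hT h2 hd hl hF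
  obtain ⟨c, b, hB⟩ := D.exists_HB (D.Irr_rank (by omega) hI) hmh hd hF hG
  have hJ := D.J_eq ⟨i₀⟩ hF hG hB
  refine ⟨h, (D.lines i₀).card, c, g, b, h2, hmh, hd, hl, hB, hJ, ?_⟩
  by_contra hcon
  push Not at hcon
  have h3 := hG.eqE 0
  have h4 : ∑ k, g k * θ k 0 = 0 := Finset.sum_eq_zero fun k _ => by rw [hcon k, zero_mul]
  rw [h4] at h3
  rcases mul_eq_zero.mp h3 with h5 | h5
  · exact D.Q_ne h5
  · exact MvPolynomial.X_ne_zero _ h5

theorem irrA_rank_loc_zero {n : ℕ} (D : RD n) : (D.loc 0).rank = D.rank := by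
  have h : Set.range (D.loc 0).a = Set.range D.a := by
    ext v
    constructor
    · rintro ⟨i, rfl⟩
      exact ⟨i.1, rfl⟩
    · rintro ⟨i, rfl⟩
      refine ⟨⟨i, ?_⟩, rfl⟩
      change ip (D.a i) 0 = 0
      exact ip_zero_right _
  unfold rank
  rw [h]

theorem irr_rankHyp {m : ℕ} (D : RD (m + 1)) (hI : D.Irr) (hm : 1 ≤ m)
    (IH : ∀ x : Vec (m + 1), x ≠ 0 → (D.loc x).Good) {d : ℕ} {c : Fin m → ℕ}
    {g : Fin (m + 1) → Pol (m + 1)} {b : Fin m → Fin (m + 1) → Pol (m + 1)}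
    (hB : HB D d c g b) (hJ : D.J = Ideal.span (Set.range g)) : RankHyp D b := by
  intro x
  by_cases hx : x = 0
  · subst hx
    rw [irrA_rank_loc_zero, D.Irr_rank (by omega) hI]
    omega
  · exact rank_bound D hB hJ x (IH x hx).1

end RD

end RFL
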