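import Pool.Agent.RFL.Strat

/-!
# RFL-K2 : the irreducible case

`D : RD (m + 1)`, `2 ≤ m`, irreducible, `Good (loc x)` for all `x ≠ 0`.
`Irr_count`: `h`, `N`, `d = |lines i|`, `Irr_Th`, `exists_frame`, `exists_GData`, `exists_HB`, `J_eq`:
`J = span (range g)` with `m + 1 = max (rank) 1` generators (`Irr_rank`): first part of `Good`.
`RankHyp`: for `x ≠ 0` `rank_bound` and the hypothesis; for `x = 0` `rank (loc 0) = m + 1`.
Second part, `r ≥ 3`: `F ∈ Jsym (2r-1)`; homogeneous components: `F` homogeneous. `c = (J^r : F)`.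
For `x ≠ 0`: `F ∈ Jsym (2r-1) ≤ (loc x).Jsym (2r-1) ≤ (loc x).J^r` and `q_x (loc x).J ≤ J`, so
`q_x^r ∈ c`, `q_x(x) ≠ 0`. So `c` vanishes at most at `0` and by the Nullstellensatz (if `F ∉ J^r`)
`X_k^K ∈ c` for all `k`. Choose a monomial `μ` of maximal degree with `μ ∉ c`: `F' = μ F ∉ J^r`,
`X_k F' ∈ J^r`, `F' ∈ Jsym (2r-1)`, homogeneous of degree `e`. `socle`: `m ≤ r`,
`e + m + 1 = (r+1) d`. `Q_pow_dvd`: `F' = Q^{r-1} F''`, `e = (r-1) N + deg F''` (`F' ≠ 0`).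
Numbers: `n = m + 1`, `n h = 2 N`, `d + h = N + 1`: `2 d - n = (n-2)(h-1)`, so
`deg F'' = (r+1) d - n - (r-1) N = (n - 1 - r)(h - 1)` in `ℤ`, `h ≥ 2`, so `r ≤ n - 1 = m`: `r = m ≥ 3`,
`deg F'' = 0`: `F'' = c ≠ 0`. `Irr_double` (`n ≥ 4`): a line with two elements;
`Q^{r-1} ∈ (IX i j)^(2r-1)` gives `2 r - 1 ≤ 2 (r - 1)` (`Q_pow_mem_iff`). Contradiction.
-/

open MvPolynomial Matrix Finset

noncomputable section

namespace RFL

namespace RD

attribute [local instance] MvPolynomial.gradedAlgebra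

/-- powers of homogeneous ideals are homogeneous -/
theorem IrrB_pow_hom {n : ℕ} {I : Ideal (Pol n)} (hI : I.IsHomogeneous (homogeneousSubmodule (Fin n) ℂ))
    (r : ℕ) : (I ^ r).IsHomogeneous (homogeneousSubmodule (Fin n) ℂ) := by
  induction r with
  | zero =>
    rw [pow_zero, Ideal.one_eq_top]
    intro i x _
    exact Submodule.mem_top
  | succ r ih => rw [pow_succ]; exact ih.mul hI

theorem IrrB_IX_hom {n : ℕ} (D : RD n) (i j : D.ι) :
    (D.IX i j).IsHomogeneous (homogeneousSubmodule (Fin n) ℂ) := by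
  refine Ideal.homogeneous_span _ _ ?_
  intro x hx
  simp only [Set.mem_insert_iff, Set.mem_singleton_iff] at hx
  rcases hx with rfl | rfl
  · exact ⟨1, lin_hom _⟩
  · exact ⟨1, lin_hom _⟩

theorem IrrB_J_hom {n : ℕ} (D : RD n) :
    D.J.IsHomogeneous (homogeneousSubmodule (Fin n) ℂ) :=
  Ideal.IsHomogeneous.iInf fun i => Ideal.IsHomogeneous.iInf fun j =>
    Ideal.IsHomogeneous.iInf fun _ => D.IrrB_IX_hom i j

theorem IrrB_Jsym_hom {n : ℕ} (D : RD n) (m : ℕ) :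
    (D.Jsym m).IsHomogeneous (homogeneousSubmodule (Fin n) ℂ) :=
  Ideal.IsHomogeneous.iInf fun i => Ideal.IsHomogeneous.iInf fun j =>
    Ideal.IsHomogeneous.iInf fun _ => IrrB_pow_hom (D.IrrB_IX_hom i j) m

/-- `q_x^r (loc x).J^r ≤ J^r` -/
theorem IrrB_qx_pow {n : ℕ} (D : RD n) (x : Vec n) (r : ℕ) (f : Pol n)
    (hf : f ∈ (D.loc x).J ^ r) : D.qx x ^ r * f ∈ D.J ^ r := by
  have h1 : Ideal.span {D.qx x} * (D.loc x).J ≤ D.J := by
    rw [Ideal.span_singleton_mul_le_iff]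
    exact fun z hz => D.qx_mul_mem x z hz
  have h2 : (Ideal.span {D.qx x} * (D.loc x).J) ^ r ≤ D.J ^ r := Ideal.pow_right_mono h1 r
  rw [mul_pow, Ideal.span_singleton_pow] at h2
  exact h2 (Ideal.mul_mem_mul (Ideal.mem_span_singleton_self _) hf)

/-- from `F ∉ J^r` to a socle element -/
theorem exists_socle {m : ℕ} (D : RD (m + 1))
    (IH : ∀ x : Vec (m + 1), x ≠ 0 → (D.loc x).Good) (r : ℕ) (hr : 3 ≤ r)
    (h : ¬ D.Jsym (2 * r - 1) ≤ D.J ^ r) :
    ∃ (e : ℕ) (F : Pol (m + 1)), F.IsHomogeneous e ∧ F ∈ D.Jsym (2 * r - 1) ∧ F ∉ D.J ^ r ∧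
      ∀ k, X k * F ∈ D.J ^ r := by
  classical
  -- a homogeneous element
  obtain ⟨F₀, hF₀, hF₀'⟩ := SetLike.not_le_iff_exists.mp h
  have hex : ∃ e, homogeneousComponent e F₀ ∉ D.J ^ r := by
    by_contra hcon
    push Not at hcon
    apply hF₀'
    rw [← sum_homogeneousComponent F₀]
    exact Ideal.sum_mem _ (fun i _ => hcon i)
  obtain ⟨e₀, he₀⟩ := hex
  set F₁ := homogeneousComponent e₀ F₀ with hF₁
  have hF₁hom : F₁.IsHomogeneous e₀ := homogeneousComponent_isHomogeneous _ _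
  have hF₁J : F₁ ∈ D.Jsym (2 * r - 1) :=
    homogeneousComponent_mem_of_mem (D.IrrB_Jsym_hom _) hF₀ e₀
  -- the colon ideal
  set c : Ideal (Pol (m + 1)) :=
    Submodule.comap (LinearMap.toSpanSingleton (Pol (m + 1)) (Pol (m + 1)) F₁) (D.J ^ r) with hc
  have hcmem : ∀ f, f ∈ c ↔ f * F₁ ∈ D.J ^ r := by
    intro f
    rw [hc, Submodule.mem_comap]
    simp [LinearMap.toSpanSingleton_apply]
  have hqc : ∀ x : Vec (m + 1), x ≠ 0 → D.qx x ^ r ∈ c := by
    intro x hx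
    rw [hcmem]
    exact D.IrrB_qx_pow x r F₁ ((IH x hx).2 r hr (D.Jsym_le_sub (perp x) _ hF₁J))
  have hrad : ∀ k, X k ∈ c.radical := by
    intro k
    rw [← vanishingIdeal_zeroLocus_eq_radical (K := ℂ) c, mem_vanishingIdeal_iff]
    intro x hx
    have hx0 : x = 0 := by
      by_contra hne
      have h1 := hx _ (hqc x hne)
      have h2 : eval x (D.qx x ^ r) = 0 := h1
      rw [map_pow] at h2
      exact D.eval_qx x (pow_eq_zero_iff (by omega) |>.mp h2)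
    simp [hx0]
  choose K hK using fun k => (Ideal.mem_radical_iff.mp (hrad k))
  -- monomials outside c
  have h1c : (1 : Pol (m + 1)) ∉ c := by
    rw [hcmem, one_mul]; exact he₀
  have hbound : ∀ s : Fin (m + 1) →₀ ℕ, monomial s (1 : ℂ) ∉ c → s.degree ≤ ∑ k, K k := by
    intro s hs
    rw [Finsupp.degree_eq_sum]
    refine Finset.sum_le_sum (fun k _ => ?_)
    by_contra hlt
    push Not at hlt
    apply hs
    have : (monomial s (1 : ℂ) : Pol (m + 1)) =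
        monomial (s - Finsupp.single k (K k)) 1 * X k ^ K k := by
      rw [X_pow_eq_monomial, monomial_mul, one_mul, tsub_add_cancel_of_le]
      rw [Finsupp.single_le_iff]
      exact hlt.le
    rw [this]
    exact Ideal.mul_mem_left _ _ (hK k)
  have hne : ∃ N, ∃ s : Fin (m + 1) →₀ ℕ, monomial s (1 : ℂ) ∉ c ∧ s.degree = N :=
    ⟨0, 0, by simpa using h1c, by simp⟩
  obtain ⟨N, ⟨s, hs, hsN⟩, hmax⟩ : ∃ N, (∃ s : Fin (m + 1) →₀ ℕ, monomial s (1 : ℂ) ∉ c ∧
      s.degree = N) ∧ ∀ s : Fin (m + 1) →₀ ℕ, monomial s (1 : ℂ) ∉ c → s.degree ≤ N := by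
    let P : ℕ → Prop := fun N => ∃ s : Fin (m + 1) →₀ ℕ, monomial s (1 : ℂ) ∉ c ∧ s.degree = N
    have hP0 : P 0 := ⟨0, by simpa using h1c, by simp⟩
    refine ⟨Nat.findGreatest P (∑ k, K k), Nat.findGreatest_spec (P := P) (Nat.zero_le _) hP0, ?_⟩
    intro s hs
    exact Nat.le_findGreatest (hbound s hs) ⟨s, hs, rfl⟩
  refine ⟨s.degree + e₀, monomial s 1 * F₁, ?_, ?_, ?_, ?_⟩
  · exact (isHomogeneous_monomial _ rfl).mul hF₁hom
  · exact Ideal.mul_mem_left _ _ hF₁J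
  · rw [← hcmem]; exact hs
  · intro k
    have h2 : (X k : Pol (m + 1)) * (monomial s 1 * F₁) = monomial (Finsupp.single k 1 + s) 1 * F₁ := by
      rw [← mul_assoc, X, monomial_mul, one_mul]
    rw [h2, ← hcmem]
    by_contra hcon
    have h3 := hmax _ hcon
    rw [map_add, Finsupp.degree_single] at h3
    omega

end RD

end RFL
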