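import Pool.Agent.RFL.GChase

/-!
# RFL-J : the socle lemma

`BH w e P`: bihomogeneous of degree `w` in `x` and `e` in `T`.

`gchase` (graded chase in the critical degree), `y i = C (X i)`, `k = n = m + 1`. For a finset `R` of
rows, `p + |R| = n`, `P` a cochain in degree `p` with all `P I` in `BH w e`, all `kd P I ∈ idL R`, and
NOT (`w + |R| = ∑_{j∈R} c_j` and `|R| ≤ e`): `P ≡ kd P'`. Induction on `R`. `R = ∅`: `p = n`,
`w ≠ 0`: `kosT_top`. `insert j R`: `kd P I = L_j W I + idL R`; taking the bihomogeneous component of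
bidegree `(w + 1, e)`: `W` in degree `p + 1`, `BH (w + 1 - c_j) (e - 1)` if `c_j ≤ w + 1` and `1 ≤ e`, and
`W = 0` otherwise. `kd W ∈ idL R` (prime, `Lf_notMem`). The pair `(w + 1 - c_j, e - 1)` is not critical
for `R`, so `W ≡ kd W'` (if `W = 0` take `W' = 0`). `kd (P - L_j W') ∈ idL R` and `p + |R| < n`:
`chase₀` (no grading needed) for `P - L_j W'`.
(`idL R` is generated by the bihomogeneous `L_j`, so bihomogeneous components of elements of `idL R`
are in `idL R`.)

`socle`: `F` homogeneous of degree `e`, `X_k F ∈ I^r` for all `k`, `I = span (range g)`, `F ∉ I^r`.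
Choose `P_k ∈ PT`, homogeneous of degree `r` in `T`, with `P_k(g) = X_k F`, and (degree
`e + 1 = r d + w`) coefficients homogeneous of degree `w = e + 1 - r d` (if `e + 1 < r d` then
`X_k F = 0`, `F = 0`, contradiction). Cochain `P {k} = P_k` in degree `1`:
`kd P {k,l} = ±(X_k P_l - X_l P_k)` vanishes at `g`, so is in `idL univ` (`ker_idL`).
If not critical, `gchase` with `R = univ`, `|R| = m`, `p = 1`: `P_k ≡ X_k P_0`, `P_0 = P' ∅`; so
`X_k F = X_k P_0(g)`, `F = P_0(g)`; taking the homogeneous `T`-component of degree `r` of `P_0`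
(`P_k` has `T`-degree `r`, `idL` is homogeneous): `F ∈ I^r`. Contradiction. So the degrees are
critical: `w + m = ∑ c_j = d`, `m ≤ r`, i.e. `e + 1 - r d + m = d`.
-/

open MvPolynomial Matrix Finset

noncomputable section

namespace RFL

namespace SocleA

/-- the components of a product with a homogeneous polynomial -/
theorem hc_mul {σ : Type*} {R : Type*} [CommRing R] (p q : MvPolynomial σ R) (k E : ℕ)
    (hq : q.IsHomogeneous k) :
    homogeneousComponent E (p * q) =
      if k ≤ E then homogeneousComponent (E - k) p * q else 0 := by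
  conv_lhs => rw [← sum_homogeneousComponent p]
  rw [Finset.sum_mul, map_sum]
  have h1 : ∀ i, homogeneousComponent E (homogeneousComponent i p * q) =
      if E = i + k then homogeneousComponent i p * q else 0 := by
    intro i
    exact homogeneousComponent_of_mem ((homogeneousComponent_isHomogeneous i p).mul hq)
  simp only [h1]
  split_ifs with hk
  · by_cases hE : E - k ∈ range (p.totalDegree + 1)
    · rw [Finset.sum_eq_single_of_mem (E - k) hE]
      · rw [if_pos (by omega)]
      · intro i _ hi
        rw [if_neg (by omega)]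
    · rw [Finset.sum_eq_zero]
      · have h2 : p.totalDegree < E - k := by
          simp only [Finset.mem_range] at hE
          omega
        rw [homogeneousComponent_eq_zero _ _ h2, zero_mul]
      · intro i hi
        rw [if_neg]
        rintro rfl
        apply hE
        simpa using hi
  · apply Finset.sum_eq_zero
    intro i _
    rw [if_neg (by omega)]

/-- powers of the generators are homogeneous -/
theorem mon_hom {n d r : ℕ} (g : Fin n → Pol n) (hg : ∀ k, (g k).IsHomogeneous d)
    (μ : Fin n →₀ ℕ) (hμ : μ.degree = r) : (∏ i, g i ^ μ i).IsHomogeneous (r * d) := by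
  have h := IsHomogeneous.prod univ (fun i => g i ^ μ i) (fun i => d * μ i)
    (fun i _ => (hg i).pow (μ i))
  have h2 : ∑ i, d * μ i = r * d := by
    rw [← Finset.mul_sum, ← hμ, Finsupp.degree_eq_sum, mul_comm]
  rwa [h2] at h

/-- graded representatives of homogeneous elements of `I ^ r` -/
theorem exists_rep {n d r E : ℕ} (g : Fin n → Pol n) (hg : ∀ k, (g k).IsHomogeneous d)
    (G : Pol n) (hG : G.IsHomogeneous E) (hI : G ∈ Ideal.span (Set.range g) ^ r) (hE : r * d ≤ E) :
    ∃ P : PT n, BH (E - r * d) r P ∧ aeval g P = G := by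
  obtain ⟨p, hp, hpG⟩ := (Ideal.mem_span_pow_iff_exists_isHomogeneous g G).mp hI
  refine ⟨∑ μ ∈ p.support, monomial μ (homogeneousComponent (E - r * d) (coeff μ p)), ⟨?_, ?_⟩, ?_⟩
  · apply IsHomogeneous.sum
    intro μ hμ
    apply isHomogeneous_monomial
    by_contra hne
    have := hp.coeff_eq_zero hne
    exact (mem_support_iff.mp hμ) this
  · intro ν
    rw [coeff_sum]
    apply IsHomogeneous.sum
    intro μ _
    rw [coeff_monomial]
    split_ifs
    · exact homogeneousComponent_isHomogeneous _ _
    · exact isHomogeneous_zero _ _ _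
  · rw [map_sum]
    have h1 : ∀ μ ∈ p.support, aeval g (monomial μ (homogeneousComponent (E - r * d) (coeff μ p)) :
        PT n) = homogeneousComponent E (coeff μ p * ∏ i, g i ^ μ i) := by
      intro μ hμ
      have hdeg : μ.degree = r := by
        by_contra hne
        exact (mem_support_iff.mp hμ) (hp.coeff_eq_zero hne)
      rw [hc_mul _ _ (r * d) E (mon_hom g hg μ hdeg), if_pos hE, aeval_monomial,
        Finsupp.prod_fintype _ _ (fun i => pow_zero _)]
      rfl
    rw [Finset.sum_congr rfl h1, ← map_sum]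
    have h2 : ∑ μ ∈ p.support, coeff μ p * ∏ i, g i ^ μ i = G := by
      rw [← hpG, eval_eq']
    rw [h2]
    exact homogeneousComponent_eq_self hG

/-- `I ^ r` has no nonzero elements of degree less than `r d` -/
theorem eq_zero_of_lt {n d r E : ℕ} (g : Fin n → Pol n) (hg : ∀ k, (g k).IsHomogeneous d)
    (G : Pol n) (hG : G.IsHomogeneous E) (hI : G ∈ Ideal.span (Set.range g) ^ r) (hE : E < r * d) :
    G = 0 := by
  obtain ⟨p, hp, hpG⟩ := (Ideal.mem_span_pow_iff_exists_isHomogeneous g G).mp hI
  have h2 : ∑ μ ∈ p.support, coeff μ p * ∏ i, g i ^ μ i = G := by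
    rw [← hpG, eval_eq']
  rw [← homogeneousComponent_eq_self hG, ← h2, map_sum]
  apply Finset.sum_eq_zero
  intro μ hμ
  have hdeg : μ.degree = r := by
    by_contra hne
    exact (mem_support_iff.mp hμ) (hp.coeff_eq_zero hne)
  rw [hc_mul _ _ (r * d) E (mon_hom g hg μ hdeg), if_neg (by omega)]

theorem aeval_Lf {m : ℕ} {D : RD (m + 1)} {d : ℕ} {c : Fin m → ℕ}
    {g : Fin (m + 1) → Pol (m + 1)} {b : Fin m → Fin (m + 1) → Pol (m + 1)}
    (hB : HB D d c g b) (P : PT (m + 1)) (hP : P ∈ idL b univ) : aeval g P = 0 := by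
  have h1 : idL b univ ≤ RingHom.ker (aeval g : PT (m + 1) →ₐ[Pol (m + 1)] Pol (m + 1)) := by
    rw [idL, Ideal.span_le]
    rintro _ ⟨j, _, rfl⟩
    change aeval g (Lf b j) = 0
    rw [Lf, map_sum, ← hB.rel j]
    apply Finset.sum_congr rfl
    intro k _
    rw [map_mul, aeval_X, aeval_C]
    rfl
  exact h1 hP

end SocleA

theorem socle {m : ℕ} (D : RD (m + 1)) {d : ℕ} {c : Fin m → ℕ}
    {g : Fin (m + 1) → Pol (m + 1)} {b : Fin m → Fin (m + 1) → Pol (m + 1)}
    (hB : HB D d c g b) (hb : RankHyp D b) (k₀ : Fin (m + 1)) (hg : g k₀ ≠ 0) (r e : ℕ)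
    (F : Pol (m + 1)) (hF : F.IsHomogeneous e)
    (hx : ∀ k, X k * F ∈ Ideal.span (Set.range g) ^ r)
    (hn : F ∉ Ideal.span (Set.range g) ^ r) : m ≤ r ∧ e + (m + 1) = (r + 1) * d := by
  classical
  have hXF : ∀ k : Fin (m + 1), (X k * F : Pol (m + 1)).IsHomogeneous (e + 1) := by
    intro k
    rw [add_comm e 1]
    exact (isHomogeneous_X ℂ k).mul hF
  have hX0 : ∀ k : Fin (m + 1), (X k : Pol (m + 1)) ≠ 0 := fun k => X_ne_zero k
  have hF0 : F ≠ 0 := by
    rintro rfl
    exact hn (Ideal.zero_mem _)
  have hrd : r * d ≤ e + 1 := by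
    by_contra hlt
    have h0 := SocleA.eq_zero_of_lt g hB.ghom _ (hXF k₀) (hx k₀) (by omega)
    rcases mul_eq_zero.mp h0 with h | h
    · exact hX0 k₀ h
    · exact hF0 h
  choose Pk hPk1 hPk2 using fun k => SocleA.exists_rep g hB.ghom _ (hXF k) (hx k) hrd
  by_contra hnot
  have hcrit : ¬ ((e + 1 - r * d) + (univ : Finset (Fin m)).card = ∑ j ∈ univ, c j ∧
      (univ : Finset (Fin m)).card ≤ r) := by
    rintro ⟨h1, h2⟩
    rw [Finset.card_univ, Fintype.card_fin] at h1 h2
    rw [hB.csum] at h1
    apply hnot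
    refine ⟨h2, ?_⟩
    have h3 : (r + 1) * d = r * d + d := by ring
    omega
  -- the cochain
  set P : Finset (Fin (m + 1)) → PT (m + 1) :=
    fun I => ∑ k, if I = {k} then Pk k else 0 with hPdef
  have hPs : ∀ k, P {k} = Pk k := by
    intro k
    simp only [hPdef]
    rw [Finset.sum_eq_single_of_mem k (Finset.mem_univ k)]
    · rw [if_pos rfl]
    · intro j _ hj
      rw [if_neg]
      intro h
      exact hj (Finset.singleton_injective h).symm
  have hP0 : ∀ I, I.card ≠ 1 → P I = 0 := by
    intro I hI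
    simp only [hPdef]
    apply Finset.sum_eq_zero
    intro k _
    rw [if_neg]
    rintro rfl
    exact hI (Finset.card_singleton k)
  have hPBH : ∀ I, BH (e + 1 - r * d) r (P I) := by
    intro I
    by_cases hI : I.card = 1
    · obtain ⟨k, rfl⟩ := Finset.card_eq_one.mp hI
      rw [hPs]
      exact hPk1 k
    · rw [hP0 I hI]
      refine ⟨isHomogeneous_zero _ _ _, fun μ => ?_⟩
      rw [coeff_zero]
      exact isHomogeneous_zero _ _ _
  -- evaluation at `g`
  set F0 : Finset (Fin (m + 1)) → Pol (m + 1) := fun I => if I = ∅ then F else 0 with hF0def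
  have hsg : ∀ k : Fin (m + 1), sg k {k} = 1 := by
    intro k
    have : ({k} : Finset (Fin (m + 1))).filter (· < k) = ∅ := by
      ext x
      simp only [Finset.mem_filter, Finset.mem_singleton, Finset.notMem_empty, iff_false]
      rintro ⟨rfl, h⟩
      exact lt_irrefl _ h
    rw [sg, this]
    rfl
  have hkF : ∀ I, aeval g (P I) = kd (fun i => (X i : Pol (m + 1))) F0 I := by
    intro I
    by_cases hI : I.card = 1
    · obtain ⟨k, rfl⟩ := Finset.card_eq_one.mp hI
      rw [hPs, hPk2]
      simp [kd, hF0def, hsg]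
    · rw [hP0 I hI, map_zero]
      symm
      simp only [kd]
      apply Finset.sum_eq_zero
      intro i hi
      have : I.erase i ≠ ∅ := by
        intro h
        apply hI
        have h2 := Finset.card_erase_add_one hi
        rw [h, Finset.card_empty] at h2
        omega
      simp [hF0def, this]
  have hd : ∀ I, kd (fun i => (C (X i) : PT (m + 1))) P I ∈ idL b univ := by
    intro I
    apply ker_idL D hB hb k₀ hg r
    · simp only [kd]
      apply IsHomogeneous.sum
      intro i _
      have h1 : (((sg i I : ℤ) : PT (m + 1)) * C (X i)).IsHomogeneous 0 := by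
        have h2 : (((sg i I : ℤ) : PT (m + 1)) * C (X i)) =
            C (((sg i I : ℤ) : Pol (m + 1)) * X i) := by
          rw [C_mul]
          congr 1
        rw [h2]
        exact isHomogeneous_C _ _
      have h3 := h1.mul (hPBH (I.erase i)).1
      rwa [zero_add] at h3
    · have h1 := congrFun (kd_map ((aeval g : PT (m + 1) →ₐ[Pol (m + 1)] Pol (m + 1)) :
        PT (m + 1) →+* Pol (m + 1)) (fun i => (C (X i) : PT (m + 1))) P) I
      have h2 : (fun i => ((aeval g : PT (m + 1) →ₐ[Pol (m + 1)] Pol (m + 1)) :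
        PT (m + 1) →+* Pol (m + 1)) (C (X i))) = fun i => (X i : Pol (m + 1)) := by
        funext i
        change aeval g (C (X i)) = _
        rw [aeval_C]
        rfl
      have h3 : (fun I => ((aeval g : PT (m + 1) →ₐ[Pol (m + 1)] Pol (m + 1)) :
        PT (m + 1) →+* Pol (m + 1)) (P I)) = kd (fun i => (X i : Pol (m + 1))) F0 := by
        funext I
        exact hkF I
      rw [h2, h3, kd_kd] at h1
      exact h1.symm
  obtain ⟨P', hP'0, hP'⟩ := gchase D b hb c hB.bhom univ 1
    (by rw [Finset.card_univ, Fintype.card_fin]; omega) (e + 1 - r * d) r P hP0 hPBH hd hcrit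
  -- the value at a singleton
  have h1 : ∀ k, Pk k - C (X k) * homogeneousComponent r (P' ∅) ∈ idL b univ := by
    intro k
    have h2 := hP' {k}
    rw [hPs] at h2
    have h3 : kd (fun i => (C (X i) : PT (m + 1))) P' {k} = C (X k) * P' ∅ := by
      simp [kd, hsg]
    rw [h3] at h2
    have h4 := idL_hc b univ _ h2 r
    rw [map_sub, homogeneousComponent_eq_self (hPk1 k).1, homogeneousComponent_C_mul] at h4
    exact h4
  have h2 := SocleA.aeval_Lf hB _ (h1 k₀)
  rw [map_sub, hPk2, map_mul, aeval_C, sub_eq_zero] at h2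
  have h3 : F = aeval g (homogeneousComponent r (P' ∅)) := mul_left_cancel₀ (hX0 k₀) h2
  apply hn
  rw [Ideal.mem_span_pow_iff_exists_isHomogeneous]
  exact ⟨_, homogeneousComponent_isHomogeneous r (P' ∅), h3.symm⟩

end RFL
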