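import Pool.Agent.RFL.IrrA
import Pool.Agent.RFL.IrrB
import Pool.Agent.RFL.Socle
import Pool.Agent.RFL.DegQ

/-!
# RFL-K2 : the irreducible case

`D : RD (m + 1)`, `2 ≤ m`, irreducible, `Good (loc x)` for all `x ≠ 0`.
`Irr_count`: `h`, `N`, `d = |lines i|`, `Irr_Th`, `exists_frame`, `exists_GData`, `exists_HB`, `J_eq`:
`J = span (range g)` with `m + 1 = max (rank) 1` generators (`Irr_rank`): first part of `Good`.
`RankHyp`: for `x ≠ 0` `rank_bound` and the hypothesis; for `x = 0` `rank (loc 0) = m + 1`.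
Second part, `r ≥ 3`: `F ∈ Jsym (2r-1)`; homogeneous components: `F` homogeneous. `c = (J^r : F)`.
For `x ≠ 0`: `F ∈ Jsym (2r-1) ≤ (loc x).Jsym (2r-1) ≤ (loc x).J^r` and `q_x (loc x).J ≤ J`, so
`q_x^r ∈ c`, `q_x(x) ≠ 0`. So `c` vanishes at most at `0` and by the Nullstellensatz (if `F ∉ J^r`)
`X_k^K ∈ c` for all `k`. Choose a monomial `μ` of maximal degree with `μ ∉ c`: `F' = μ F ∉ J^r`,
`X_k F' ∈ J^r`, `F' ∈ Jsym (2r-1)`, homogeneous of degree `e`. `socle`: `m ≤ r`,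
`e + m + 1 = (r+1) d`. `Q_pow_dvd`: `F' = Q^{r-1} F''`, `e = (r-1) N + deg F''` (`F' ≠ 0`).
Numbers: `n = m + 1`, `n h = 2 N`, `d + h = N + 1`: `2 d - n = (n-2)(h-1)`, so
`deg F'' = (r+1) d - n - (r-1) N = (n - 1 - r)(h - 1)` in `ℤ`, `h ≥ 2`, so `r ≤ n - 1 = m`: `r = m ≥ 3`,
`deg F'' = 0`: `F'' = c ≠ 0`. `Irr_double` (`n ≥ 4`): a line with two elements;
`Q^{r-1} ∈ (IX i j)^(2r-1)` gives `2 r - 1 ≤ 2 (r - 1)` (`Q_pow_mem_iff`). Contradiction.
-/

open MvPolynomial Matrix Finset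

noncomputable section

namespace RFL

namespace RD

theorem irr_case {m : ℕ} (D : RD (m + 1)) (hm : 2 ≤ m) (hI : D.Irr)
    (IH : ∀ x : Vec (m + 1), x ≠ 0 → (D.loc x).Good) : D.Good := by
  obtain ⟨h, d, c, g, b, h2, hnh, hdN, hl, hB, hJ, k₀, hk₀⟩ := D.irr_gens (by omega) hI
  have hrank : D.rank = m + 1 := D.Irr_rank (by omega) hI
  refine ⟨?_, fun r hr => ?_⟩
  · have h1 : max D.rank 1 = m + 1 := by omega
    rw [h1]
    exact ⟨g, hJ⟩
  · have hRH := D.irr_rankHyp hI (by omega) IH hB hJ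
    by_contra hcon
    obtain ⟨e, F, hFh, hFs, hFn, hFx⟩ := D.exists_socle IH r hr hcon
    rw [hJ] at hFn hFx
    obtain ⟨hmr, hdeg⟩ := socle D hB hRH k₀ hk₀ r e F hFh hFx hFn
    have hd1 : 1 ≤ d := by
      have h3 : 3 * h ≤ 2 * D.N := by
        rw [← hnh]
        exact Nat.mul_le_mul_right h (by omega)
      omega
    obtain ⟨F2, hF2⟩ := D.Q_pow_dvd d r e hl hd1 (by omega) (by omega) F hFs hFh (by omega)
    have hF0 : F ≠ 0 := by
      rintro rfl
      exact hFn (Ideal.zero_mem _)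
    have hF20 : F2 ≠ 0 := by
      rintro rfl
      exact hF0 (by rw [hF2, mul_zero])
    have hQ0 : D.Q ^ (r - 1) ≠ 0 := pow_ne_zero _ D.Q_ne
    have hQd : (D.Q ^ (r - 1)).totalDegree = D.N * (r - 1) :=
      (D.Q_hom.pow (r - 1)).totalDegree hQ0
    have hdegs : e = D.N * (r - 1) + F2.totalDegree := by
      rw [← hFh.totalDegree hF0, hF2, totalDegree_mul_of_isDomain hQ0 hF20, hQd]
    obtain ⟨r', rfl⟩ : ∃ r', r = r' + 1 := ⟨r - 1, by omega⟩
    simp only [Nat.add_sub_cancel] at *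
    -- numbers
    have key : ((F2.totalDegree : ℕ) : ℤ) = ((m : ℤ) - (r' + 1)) * (h - 1) := by
      have e1 : (e : ℤ) + (m + 1) = (r' + 1 + 1) * d := by exact_mod_cast hdeg
      have e2 : (e : ℤ) = D.N * r' + F2.totalDegree := by exact_mod_cast hdegs
      have e3 : ((m : ℤ) + 1) * h = 2 * D.N := by exact_mod_cast hnh
      have e4 : (d : ℤ) + h = D.N + 1 := by exact_mod_cast hdN
      have e5 : (d : ℤ) = D.N + 1 - h := by linarith
      have e6 : ((F2.totalDegree : ℕ) : ℤ) = (r' + 1 + 1) * d - (m + 1) - D.N * r' := by linarith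
      rw [e6, e5]
      linear_combination (-1 : ℤ) * e3
    have hm1 : (m : ℤ) ≤ r' + 1 := by exact_mod_cast hmr
    have hh1 : (1 : ℤ) ≤ h - 1 := by
      have : (2 : ℤ) ≤ h := by exact_mod_cast h2
      linarith
    have ht0 : (0 : ℤ) ≤ ((F2.totalDegree : ℕ) : ℤ) := Int.natCast_nonneg _
    have hmeq : (m : ℤ) = r' + 1 := by
      by_contra hne
      have hlt : (m : ℤ) - (r' + 1) ≤ -1 := by omega
      nlinarith
    have htz : F2.totalDegree = 0 := by
      have : ((F2.totalDegree : ℕ) : ℤ) = 0 := by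
        rw [key, hmeq]; ring
      exact_mod_cast this
    have hmeq' : m = r' + 1 := by exact_mod_cast hmeq
    obtain ⟨z, hz⟩ : ∃ z : ℂ, F2 = C z := ⟨_, totalDegree_eq_zero_iff_eq_C.mp htz⟩
    have hz0 : z ≠ 0 := by
      rintro rfl
      exact hF20 (by rw [hz, C_0])
    obtain ⟨i, j, hij, hcard⟩ := D.Irr_double (by omega) hI
    have hmem : F ∈ (D.IX i j) ^ (2 * (r' + 1) - 1) := by
      unfold Jsym at hFs
      simp only [Submodule.mem_iInf] at hFs
      exact hFs i j hij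
    have hQm : D.Q ^ r' ∈ (D.IX i j) ^ (2 * (r' + 1) - 1) := by
      have h5 : D.Q ^ r' = C z⁻¹ * F := by
        rw [hF2, hz]
        have : (C z⁻¹ : Pol (m + 1)) * (D.Q ^ r' * C z) = D.Q ^ r' * (C (z⁻¹ * z)) := by
          rw [C_mul]; ring
        rw [this, inv_mul_cancel₀ hz0, C_1, mul_one]
      rw [h5]
      exact Ideal.mul_mem_left _ _ hmem
    have h6 := D.Q_pow_mem_iff i j hij _ r' hQm
    rw [hcard] at h6
    omega

end RD

end RFL
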