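import Pool.Agent.RFL.IrrA
import Pool.Agent.RFL.IrrB
import Pool.Agent.RFL.IrrC
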