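import Pool.Agent.RFL.KosA

/-!
# RFL-G1 : the Koszul complex of independent linear forms

`kd y P I = ∑_{i∈I} sg i I * y i * P (I.erase i)`.

`kd_kd`: the terms `(i, j)`, `(j, i)` of `∑_{i∈I} ∑_{j∈I.erase i}` cancel:
`sg i I * sg j (I.erase i) = - sg j I * sg i (I.erase j)` for `i ≠ j ∈ I`.

Homotopy (`y i = X (f i)` different variables of `MvPolynomial σ ℂ`):
`(h P) I = ∑_{i∉I} sg i I * ∂_{f i} (P (insert i I))`. Then
`kd (h P) I + h (kd P) I = ∑_i y_i ∂_i (P I) + (k - |I|) P I`
(for `i ∈ I, j ∉ I`: `sg i I * sg j (I.erase i) = - sg j I * sg i (insert j I)`).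
If `P I` is homogeneous of degree `w` in the variables `f i`, the right side is
`(w + k - |I|) P I` (Euler). `kd` and `h` shift this degree by `±1`, `|I|` by `±1`, so one can treat the
parts with fixed `w + ...` separately: for a cocycle `P` in degree `p < k` with `P I` homogeneous of
degree `w` : `P = kd (h P) / (w + k - p)`. General `P`: decompose (`weightedHomogeneousComponent` with
weight `1` on the variables `f i`, `0` on the others).
An alternative proof is by induction on `k` (regular sequence); free choice.

`kos_exact` for independent linear forms `lin (v i)` follows by the change of coordinates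
`exists_coord` (`sbt B`, `sbt B'` are inverse ring isomorphisms).
-/

open MvPolynomial Matrix Finset

noncomputable section

namespace RFL

/-- setting the variable `s` to zero -/
def kill {σ : Type} [DecidableEq σ] (s : σ) : MvPolynomial σ ℂ →ₐ[ℂ] MvPolynomial σ ℂ :=
  aeval (fun t => if t = s then 0 else X t)

theorem kill_X_self {σ : Type} [DecidableEq σ] (s : σ) : kill s (X s) = 0 := by
  simp [kill]

theorem kill_X_ne {σ : Type} [DecidableEq σ] {s t : σ} (h : t ≠ s) : kill s (X t) = X t := by
  simp [kill, h]

theorem dvd_sub_kill {σ : Type} [DecidableEq σ] (s : σ) (q : MvPolynomial σ ℂ) :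
    X s ∣ q - kill s q := by
  induction q using MvPolynomial.induction_on with
  | C a => simp [kill]
  | add p q hp hq =>
    rw [map_add]
    have : p + q - (kill s p + kill s q) = (p - kill s p) + (q - kill s q) := by ring
    rw [this]
    exact dvd_add hp hq
  | mul_X p t hp =>
    rw [map_mul]
    by_cases h : t = s
    · subst h
      rw [kill_X_self, mul_zero, sub_zero]
      exact dvd_mul_left _ _
    · rw [kill_X_ne h, ← sub_mul]
      exact dvd_mul_of_dvd_left hp _

theorem sg_insert_max {k : ℕ} {i a : Fin k} {I : Finset (Fin k)} (h : i < a) :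
    sg i (insert a I) = sg i I := by
  unfold sg
  congr 2
  ext x
  simp only [mem_filter, mem_insert]
  constructor
  · rintro ⟨rfl | h1, h2⟩
    · exact absurd h2 (not_lt.mpr h.le)
    · exact ⟨h1, h2⟩
  · rintro ⟨h1, h2⟩
    exact ⟨Or.inr h1, h2⟩

theorem sg_self_max {k : ℕ} {a : Fin k} {I : Finset (Fin k)} (h : ∀ i ∈ I, i < a) :
    sg a (insert a I) = (-1) ^ I.card := by
  unfold sg
  congr 2
  ext x
  simp only [mem_filter, mem_insert]
  constructor
  · rintro ⟨rfl | h1, h2⟩
    · exact absurd h2 (lt_irrefl _)
    · exact h1
  · intro h1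
    exact ⟨Or.inr h1, h x h1⟩

theorem kd_insert_max {k : ℕ} {A : Type} [CommRing A] (y : Fin k → A)
    (P : Finset (Fin k) → A) {a : Fin k} {I : Finset (Fin k)} (h : ∀ i ∈ I, i < a) :
    kd y P (insert a I) = (-1) ^ I.card * y a * P I + kd y (fun J => P (insert a J)) I := by
  have ha : a ∉ I := fun h1 => lt_irrefl _ (h a h1)
  unfold kd
  rw [Finset.sum_insert ha, Finset.erase_insert ha, sg_self_max h]
  push_cast
  congr 1
  apply Finset.sum_congr rfl
  intro i hi
  rw [sg_insert_max (h i hi), Finset.erase_insert_of_ne (h i hi).ne']

theorem kos_aux {k : ℕ} {σ : Type} [DecidableEq σ] (f : Fin k → σ)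
    (hf : Function.Injective f) (K : Finset (Fin k)) :
    ∀ p < K.card, ∀ P : Finset (Fin k) → MvPolynomial σ ℂ,
      (∀ I ⊆ K, I.card = p + 1 → kd (fun i => X (f i)) P I = 0) →
      ∃ P' : Finset (Fin k) → MvPolynomial σ ℂ, ∀ I ⊆ K, I.card = p →
        kd (fun i => X (f i)) P' I = P I := by
  induction K using Finset.induction_on_max with
  | empty => intro p hp; simp at hp
  | insert a K hmax ih =>
    intro p hp P hP
    have haK : a ∉ K := fun h1 => lt_irrefl _ (hmax a h1)
    rw [Finset.card_insert_of_notMem haK] at hp
    rcases Nat.eq_zero_or_pos p with rfl | hpos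
    · refine ⟨fun _ => 0, fun I _ hI => ?_⟩
      rw [Finset.card_eq_zero] at hI
      subst hI
      have h1 := hP {a} (by simp) (by simp)
      have h2 : kd (fun i => X (f i)) P {a} = ((sg a {a} : ℤ) : MvPolynomial σ ℂ) * X (f a) * P ∅ := by
        unfold kd
        rw [Finset.sum_singleton]
        simp
      rw [h2] at h1
      have h3 : ((sg a {a} : ℤ) : MvPolynomial σ ℂ) ≠ 0 := by
        unfold sg
        simp
      have h4 : (X (f a) : MvPolynomial σ ℂ) ≠ 0 := MvPolynomial.X_ne_zero _
      have h5 : P ∅ = 0 := by
        rcases mul_eq_zero.mp h1 with h | h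
        · rcases mul_eq_zero.mp h with h | h
          · exact absurd h h3
          · exact absurd h h4
        · exact h
      rw [h5]
      simp [kd]
    · obtain ⟨q, rfl⟩ : ∃ q, p = q + 1 := ⟨p - 1, by omega⟩
      -- the part containing `a`
      set R : Finset (Fin k) → MvPolynomial σ ℂ := fun J => P (insert a J) with hR
      have hlt : ∀ I ⊆ K, ∀ i ∈ I, i < a := fun I hI i hi => hmax i (hI hi)
      have key : ∀ I ⊆ K, I.card = q + 1 →
          (-1) ^ (q + 1) * X (f a) * P I + kd (fun i => X (f i)) R I = 0 := by
        intro I hI hc
        have haI : a ∉ I := fun h1 => haK (hI h1)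
        have h1 := hP (insert a I) (Finset.insert_subset_insert _ hI)
          (by rw [Finset.card_insert_of_notMem haI, hc])
        rw [kd_insert_max _ _ (hlt I hI), hc] at h1
        exact h1
      have hkill : ∀ T : Finset (Fin k) → MvPolynomial σ ℂ, ∀ I ⊆ K,
          kd (fun i => X (f i)) (fun J => kill (f a) (T J)) I =
            kill (f a) (kd (fun i => X (f i)) T I) := by
        intro T I hI
        unfold kd
        rw [map_sum]
        apply Finset.sum_congr rfl
        intro i hi
        rw [map_mul, map_mul, map_intCast, kill_X_ne]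
        intro h
        exact haK (hf h ▸ hI hi)
      obtain ⟨R'', hR''⟩ := ih q (by omega) (fun J => kill (f a) (R J)) (by
        intro I hI hc
        rw [hkill R I hI]
        have h1 := key I hI hc
        have h2 : kd (fun i => X (f i)) R I = - ((-1) ^ (q + 1) * X (f a) * P I) := by
          linear_combination h1
        rw [h2, map_neg, map_mul, map_mul, kill_X_self]
        ring)
      have hdiv : ∀ J, ∃ z, R J - kill (f a) (R J) = X (f a) * z := fun J => dvd_sub_kill _ _
      choose Q' hQ' using hdiv
      have hRJ : ∀ J ⊆ K, J.card = q → R J = X (f a) * Q' J + kd (fun i => X (f i)) R'' J := by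
        intro J hJ hc
        rw [hR'' J hJ hc, ← hQ' J]
        ring
      refine ⟨fun J => if a ∈ J then R'' (J.erase a) else (-1) ^ q * Q' J, ?_⟩
      intro I hI hc
      by_cases haI : a ∈ I
      · obtain ⟨J, hJa, hJI⟩ : ∃ J, a ∉ J ∧ insert a J = I :=
          ⟨I.erase a, Finset.notMem_erase _ _, Finset.insert_erase haI⟩
        have hJK : J ⊆ K := by
          intro x hx
          have h1 : x ∈ insert a K := hI (hJI ▸ Finset.mem_insert_of_mem hx)
          rw [Finset.mem_insert] at h1
          rcases h1 with rfl | h1
          · exact absurd hx hJa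
          · exact h1
        have hJc : J.card = q := by
          rw [← hJI, Finset.card_insert_of_notMem hJa] at hc
          omega
        rw [← hJI, kd_insert_max _ _ (hlt J hJK), hJc]
        have h1 : kd (fun i => X (f i)) (fun J => (fun J => if a ∈ J then R'' (J.erase a)
            else (-1) ^ q * Q' J) (insert a J)) J = kd (fun i => X (f i)) R'' J := by
          unfold kd
          apply Finset.sum_congr rfl
          intro i hi
          have h2 : a ∉ J.erase i := fun h => hJa (Finset.mem_of_mem_erase h)
          simp only [Finset.mem_insert_self, if_true]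
          rw [Finset.erase_insert h2]
        rw [h1]
        simp only [hJa, if_false]
        have h3 := hRJ J hJK hJc
        have h4 : P (insert a J) = R J := rfl
        rw [h4, h3]
        have h5 : ((-1 : MvPolynomial σ ℂ)) ^ q * (-1) ^ q = 1 := by
          rw [← mul_pow]; simp
        linear_combination (X (f a) * Q' J) * h5
      · have hIK : I ⊆ K := by
          intro x hx
          have h1 := hI hx
          rw [Finset.mem_insert] at h1
          rcases h1 with rfl | h1
          · exact absurd hx haI
          · exact h1
        have h1 : kd (fun i => X (f i)) (fun J => if a ∈ J then R'' (J.erase a)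
            else (-1) ^ q * Q' J) I = (-1) ^ q * kd (fun i => X (f i)) Q' I := by
          unfold kd
          rw [Finset.mul_sum]
          apply Finset.sum_congr rfl
          intro i hi
          have h2 : a ∉ I.erase i := fun h => haI (Finset.mem_of_mem_erase h)
          simp only [h2, if_false]
          ring
        rw [h1]
        have h2 : kd (fun i => X (f i)) R I = X (f a) * kd (fun i => X (f i)) Q' I := by
          have h3 : kd (fun i => X (f i)) R I =
              kd (fun i => X (f i)) (fun J => X (f a) * Q' J + kd (fun i => X (f i)) R'' J) I := by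
            unfold kd
            apply Finset.sum_congr rfl
            intro i hi
            have h4 := hRJ (I.erase i) ((Finset.erase_subset _ _).trans hIK)
              (by rw [Finset.card_erase_of_mem hi, hc]; rfl)
            unfold kd at h4
            rw [h4]
          rw [h3]
          have h5 : (fun J => X (f a) * Q' J + kd (fun i => X (f i)) R'' J) =
              (fun J => X (f a) * Q' J) + kd (fun i => X (f i)) R'' := rfl
          rw [h5, kd_add, kd_kd, add_zero, kd_smul]
        have h3 := key I hIK hc
        rw [h2] at h3
        have h4 : (X (f a) : MvPolynomial σ ℂ) * ((-1) ^ (q + 1) * P I +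
            kd (fun i => X (f i)) Q' I) = 0 := by linear_combination h3
        rcases mul_eq_zero.mp h4 with h | h
        · exact absurd h (MvPolynomial.X_ne_zero _)
        · have h5 : ((-1 : MvPolynomial σ ℂ)) ^ q * (-1) ^ q = 1 := by
            rw [← mul_pow]; simp
          rw [pow_succ] at h
          linear_combination (-1) ^ q * h + P I * h5

/-- exactness for variables -/
theorem kos_exact_var {k : ℕ} {σ : Type} [Fintype σ] [DecidableEq σ] (f : Fin k → σ)
    (hf : Function.Injective f) (p : ℕ) (hp : p < k)
    (P : Finset (Fin k) → MvPolynomial σ ℂ) (hP : ∀ I, I.card ≠ p → P I = 0)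
    (hd : kd (fun i => X (f i)) P = 0) :
    ∃ P' : Finset (Fin k) → MvPolynomial σ ℂ, (∀ I, I.card + 1 ≠ p → P' I = 0) ∧
      kd (fun i => X (f i)) P' = P := by
  obtain ⟨P'', hP''⟩ := kos_aux f hf univ p (by simpa using hp) P (fun I _ _ => by rw [hd]; rfl)
  refine ⟨fun I => if I.card + 1 = p then P'' I else 0, fun I hI => if_neg hI, ?_⟩
  funext I
  by_cases h : I.card = p
  · rw [← hP'' I (Finset.subset_univ _) h]
    unfold kd
    apply Finset.sum_congr rfl
    intro i hi
    have : (I.erase i).card + 1 = p := by rw [Finset.card_erase_add_one hi, h]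
    simp only [this, if_true]
  · rw [hP I h]
    unfold kd
    apply Finset.sum_eq_zero
    intro i hi
    have : ¬ (I.erase i).card + 1 = p := by rw [Finset.card_erase_add_one hi]; exact h
    simp only [this, if_false, mul_zero]

end RFL
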