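import Pool.Agent.RFL.KosB

/-!
# RFL-G1 : the Koszul complex of independent linear forms

`kd y P I = ∑_{i∈I} sg i I * y i * P (I.erase i)`.

`kd_kd`: the terms `(i, j)`, `(j, i)` of `∑_{i∈I} ∑_{j∈I.erase i}` cancel:
`sg i I * sg j (I.erase i) = - sg j I * sg i (I.erase j)` for `i ≠ j ∈ I`.

Homotopy (`y i = X (f i)` different variables of `MvPolynomial σ ℂ`):
`(h P) I = ∑_{i∉I} sg i I * ∂_{f i} (P (insert i I))`. Then
`kd (h P) I + h (kd P) I = ∑_i y_i ∂_i (P I) + (k - |I|) P I`
(for `i ∈ I, j ∉ I`: `sg i I * sg j (I.erase i) = - sg j I * sg i (insert j I)`).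
If `P I` is homogeneous of degree `w` in the variables `f i`, the right side is
`(w + k - |I|) P I` (Euler). `kd` and `h` shift this degree by `±1`, `|I|` by `±1`, so one can treat the
parts with fixed `w + ...` separately: for a cocycle `P` in degree `p < k` with `P I` homogeneous of
degree `w` : `P = kd (h P) / (w + k - p)`. General `P`: decompose (`weightedHomogeneousComponent` with
weight `1` on the variables `f i`, `0` on the others).
An alternative proof is by induction on `k` (regular sequence); free choice.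

`kos_exact` for independent linear forms `lin (v i)` follows by the change of coordinates
`exists_coord` (`sbt B`, `sbt B'` are inverse ring isomorphisms).
-/

open MvPolynomial Matrix Finset

noncomputable section

namespace RFL

theorem kos_exact {n k : ℕ} (v : Fin k → Vec n) (hv : LinearIndependent ℂ v) (p : ℕ) (hp : p < k)
    (P : Finset (Fin k) → Pol n) (hP : ∀ I, I.card ≠ p → P I = 0)
    (hd : kd (fun i => lin (v i)) P = 0) :
    ∃ P' : Finset (Fin k) → Pol n, (∀ I, I.card + 1 ≠ p → P' I = 0) ∧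
      kd (fun i => lin (v i)) P' = P := by
  obtain ⟨hk, B, B', hBB', hB'B, hX⟩ := exists_coord v hv
  have h1 : kd (fun i => (X (Fin.castLE hk i) : Pol n)) (fun I => sbt B (P I)) = 0 := by
    have h2 := kd_map (sbt B : Pol n →ₐ[ℂ] Pol n).toRingHom (fun i => lin (v i)) P
    have h3 : (fun i => (sbt B : Pol n →ₐ[ℂ] Pol n).toRingHom (lin (v i)))
        = fun i => (X (Fin.castLE hk i) : Pol n) := by
      funext i
      exact hX i
    rw [h3] at h2
    have h4 : (fun I => (sbt B : Pol n →ₐ[ℂ] Pol n).toRingHom (P I)) = fun I => sbt B (P I) := rfl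
    rw [h4] at h2
    rw [h2, hd]
    funext I
    exact map_zero (sbt B)
  obtain ⟨P1, hP1, hP2⟩ := kos_exact_var (Fin.castLE hk) (Fin.castLE_injective hk) p hp
    (fun I => sbt B (P I)) (fun I hI => by rw [hP I hI, map_zero]) h1
  refine ⟨fun I => sbt B' (P1 I), fun I hI => by show sbt B' (P1 I) = 0; rw [hP1 I hI, map_zero], ?_⟩
  have h2 := kd_map (sbt B' : Pol n →ₐ[ℂ] Pol n).toRingHom
    (fun i => (X (Fin.castLE hk i) : Pol n)) P1
  have h3 : (fun i => (sbt B' : Pol n →ₐ[ℂ] Pol n).toRingHom (X (Fin.castLE hk i) : Pol n))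
      = fun i => lin (v i) := by
    funext i
    show sbt B' (X (Fin.castLE hk i) : Pol n) = lin (v i)
    rw [← hX i, sbt_sbt, hBB', sbt_one]
  rw [h3] at h2
  have h4 : (fun I => (sbt B' : Pol n →ₐ[ℂ] Pol n).toRingHom (P1 I)) = fun I => sbt B' (P1 I) := rfl
  rw [h4] at h2
  rw [h2, hP2]
  funext I
  show sbt B' (sbt B (P I)) = P I
  rw [sbt_sbt, hBB', sbt_one]

end RFL
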