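import Pool.Agent.RFL.Kos1

/-!
# RFL-G2 : the Koszul complex with values in `PT n = (Pol n)[T]`

Coefficientwise: `coeff μ (kd (C ∘ y) P I) = kd y (fun I => coeff μ (P I)) I`. Choose the primitive of
each coefficient (`0` outside the union of the supports).
Top degree: `C^n = PT n` in the single entry `univ`, the image of `kd` is the ideal generated by the
`C (X i)`; coefficients homogeneous of degree `w > 0` are in `(X_1, ..., X_n)`.
-/

open MvPolynomial Matrix Finset

noncomputable section

namespace RFL

namespace Kos2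

theorem coeff_kd {n k : ℕ} (y : Fin k → Pol n) (P : Finset (Fin k) → PT n) (I : Finset (Fin k))
    (μ : Fin n →₀ ℕ) :
    coeff μ (kd (fun i => (C (y i) : PT n)) P I) = kd y (fun I => coeff μ (P I)) I := by
  unfold kd
  rw [coeff_sum]
  refine Finset.sum_congr rfl fun i _ => ?_
  have h : ((sg i I : ℤ) : PT n) * C (y i) * P (I.erase i)
      = C (((sg i I : ℤ) : Pol n) * y i) * P (I.erase i) := by
    rw [map_mul, map_intCast]
  rw [h, coeff_C_mul]

/-- polynomials with given coefficients on a finite set -/
theorem coeff_sum_monomial {n : ℕ} (T : Finset (Fin n →₀ ℕ)) (c : (Fin n →₀ ℕ) → Pol n)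
    (μ : Fin n →₀ ℕ) :
    coeff μ (∑ ν ∈ T, (monomial ν (c ν) : PT n)) = if μ ∈ T then c μ else 0 := by
  classical
  rw [coeff_sum]
  simp only [coeff_monomial]
  rw [Finset.sum_ite_eq' T μ c]

theorem sg_mul_self {k : ℕ} (i : Fin k) (I : Finset (Fin k)) : sg i I * sg i I = 1 := by
  unfold sg
  rw [← pow_add, ← two_mul, pow_mul]
  norm_num

end Kos2

theorem kosT_exact {n k : ℕ} (v : Fin k → Vec n) (hv : LinearIndependent ℂ v) (p : ℕ) (hp : p < k)
    (P : Finset (Fin k) → PT n) (hP : ∀ I, I.card ≠ p → P I = 0)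
    (hd : kd (fun i => (C (lin (v i)) : PT n)) P = 0) :
    ∃ P' : Finset (Fin k) → PT n, (∀ I, I.card + 1 ≠ p → P' I = 0) ∧
      kd (fun i => (C (lin (v i)) : PT n)) P' = P := by
  classical
  have key : ∀ μ : Fin n →₀ ℕ, ∃ R : Finset (Fin k) → Pol n, (∀ I, I.card + 1 ≠ p → R I = 0) ∧
      kd (fun i => lin (v i)) R = fun I => coeff μ (P I) := by
    intro μ
    refine kos_exact v hv p hp (fun I => coeff μ (P I)) (fun I hI => by simp [hP I hI]) ?_
    funext I
    rw [← Kos2.coeff_kd, hd]
    simp
  choose R hR0 hR using key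
  set T : Finset (Fin n →₀ ℕ) := Finset.univ.biUnion fun I => (P I).support with hT
  refine ⟨fun I => ∑ ν ∈ T, monomial ν (R ν I), ?_, ?_⟩
  · intro I hI
    refine Finset.sum_eq_zero fun ν _ => ?_
    rw [hR0 ν I hI, map_zero]
  · funext I
    ext μ : 1
    rw [Kos2.coeff_kd]
    by_cases hμ : μ ∈ T
    · have h1 : (fun J => coeff μ (∑ ν ∈ T, (monomial ν (R ν J) : PT n))) = R μ := by
        funext J
        rw [Kos2.coeff_sum_monomial, if_pos hμ]
      rw [h1]
      exact congrFun (hR μ) I
    · have h1 : (fun J => coeff μ (∑ ν ∈ T, (monomial ν (R ν J) : PT n))) = 0 := by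
        funext J
        rw [Kos2.coeff_sum_monomial, if_neg hμ]
        rfl
      rw [h1]
      have h2 : coeff μ (P I) = 0 := by
        by_contra h
        exact hμ (Finset.mem_biUnion.mpr ⟨I, Finset.mem_univ _, mem_support_iff.mpr h⟩)
      rw [h2]
      simp [kd]

theorem kosT_top {n : ℕ} (w : ℕ) (hw : 0 < w)
    (P : Finset (Fin n) → PT n) (hP : ∀ I, I.card ≠ n → P I = 0)
    (hh : ∀ I μ, (coeff μ (P I)).IsHomogeneous w) :
    ∃ P' : Finset (Fin n) → PT n, (∀ I, I.card + 1 ≠ n → P' I = 0) ∧
      kd (fun i => (C (X i) : PT n)) P' = P := by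
  classical
  set f : PT n := P univ with hf
  set q : Fin n → PT n := fun i => ∑ ν ∈ f.support,
    monomial ν (C ((w : ℂ)⁻¹) * pderiv i (coeff ν f)) with hq
  have hw' : (w : ℂ) ≠ 0 := by exact_mod_cast hw.ne'
  have hsum : ∑ i, C (X i) * q i = f := by
    ext μ : 1
    rw [coeff_sum]
    simp only [coeff_C_mul, hq, Kos2.coeff_sum_monomial]
    by_cases hμ : μ ∈ f.support
    · simp only [if_pos hμ]
      have h1 := (hh univ μ).sum_X_mul_pderiv
      have h2 : ∑ i, X i * (C ((w : ℂ)⁻¹) * pderiv i (coeff μ f))
          = C ((w : ℂ)⁻¹) * ∑ i, X i * pderiv i (coeff μ f) := by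
        rw [Finset.mul_sum]
        exact Finset.sum_congr rfl fun i _ => by ring
      rw [h2, h1, nsmul_eq_mul, ← mul_assoc]
      have h3 : C ((w : ℂ)⁻¹) * (w : Pol n) = 1 := by
        rw [← map_natCast (C : ℂ →+* Pol n) w, ← map_mul, inv_mul_cancel₀ hw', map_one]
      rw [h3, one_mul]
    · simp only [if_neg hμ, mul_zero, Finset.sum_const_zero]
      exact (notMem_support_iff.mp hμ).symm
  refine ⟨fun J => ∑ i, if J = univ.erase i then ((sg i univ : ℤ) : PT n) * q i else 0, ?_, ?_⟩
  · intro J hJ
    refine Finset.sum_eq_zero fun i _ => ?_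
    rw [if_neg]
    rintro rfl
    apply hJ
    rw [Finset.card_erase_of_mem (Finset.mem_univ i), Finset.card_univ, Fintype.card_fin]
    have := i.2
    omega
  · funext I
    by_cases hI : I = univ
    · subst hI
      rw [← hf, ← hsum]
      unfold kd
      refine Finset.sum_congr rfl fun i _ => ?_
      have h1 : (∑ j, if (univ : Finset (Fin n)).erase i = univ.erase j
          then ((sg j univ : ℤ) : PT n) * q j else 0) = ((sg i univ : ℤ) : PT n) * q i := by
        rw [Finset.sum_eq_single i]
        · rw [if_pos rfl]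
        · intro j _ hji
          rw [if_neg]
          intro h
          apply hji
          by_contra hne
          have : j ∈ (univ : Finset (Fin n)).erase i := Finset.mem_erase.mpr ⟨hne, Finset.mem_univ j⟩
          rw [h] at this
          exact (Finset.mem_erase.mp this).1 rfl
        · intro h
          exact absurd (Finset.mem_univ i) h
      beta_reduce
      rw [h1]
      have h2 : ((sg i univ : ℤ) : PT n) * ((sg i univ : ℤ) : PT n) = 1 := by
        rw [← Int.cast_mul, Kos2.sg_mul_self, Int.cast_one]
      calc ((sg i univ : ℤ) : PT n) * C (X i) * (((sg i univ : ℤ) : PT n) * q i)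
          = (((sg i univ : ℤ) : PT n) * ((sg i univ : ℤ) : PT n)) * (C (X i) * q i) := by ring
        _ = C (X i) * q i := by rw [h2, one_mul]
    · have hc : I.card ≠ n := by
        intro h
        apply hI
        rw [← Finset.card_eq_iff_eq_univ, Fintype.card_fin, h]
      rw [hP I hc]
      unfold kd
      refine Finset.sum_eq_zero fun i hi => ?_
      beta_reduce
      rw [Finset.sum_eq_zero, mul_zero]
      intro j _
      rw [if_neg]
      intro h
      have h1 := congrArg Finset.card h
      rw [Finset.card_erase_of_mem hi, Finset.card_erase_of_mem (Finset.mem_univ j),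
        Finset.card_univ, Fintype.card_fin] at h1
      have h2 : 0 < I.card := Finset.card_pos.mpr ⟨i, hi⟩
      have h3 : I.card < n := by
        refine lt_of_le_of_ne ?_ hc
        have := Finset.card_le_univ I
        rwa [Fintype.card_fin] at this
      have := j.2
      omega

end RFL
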