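import Pool.Agent.RFL.Lin2

/-!
# RFL-G1 : the Koszul complex of independent linear forms

`kd y P I = ∑_{i∈I} sg i I * y i * P (I.erase i)`.

`kd_kd`: the terms `(i, j)`, `(j, i)` of `∑_{i∈I} ∑_{j∈I.erase i}` cancel:
`sg i I * sg j (I.erase i) = - sg j I * sg i (I.erase j)` for `i ≠ j ∈ I`.

Homotopy (`y i = X (f i)` different variables of `MvPolynomial σ ℂ`):
`(h P) I = ∑_{i∉I} sg i I * ∂_{f i} (P (insert i I))`. Then
`kd (h P) I + h (kd P) I = ∑_i y_i ∂_i (P I) + (k - |I|) P I`
(for `i ∈ I, j ∉ I`: `sg i I * sg j (I.erase i) = - sg j I * sg i (insert j I)`).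
If `P I` is homogeneous of degree `w` in the variables `f i`, the right side is
`(w + k - |I|) P I` (Euler). `kd` and `h` shift this degree by `±1`, `|I|` by `±1`, so one can treat the
parts with fixed `w + ...` separately: for a cocycle `P` in degree `p < k` with `P I` homogeneous of
degree `w` : `P = kd (h P) / (w + k - p)`. General `P`: decompose (`weightedHomogeneousComponent` with
weight `1` on the variables `f i`, `0` on the others).
An alternative proof is by induction on `k` (regular sequence); free choice.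

`kos_exact` for independent linear forms `lin (v i)` follows by the change of coordinates
`exists_coord` (`sbt B`, `sbt B'` are inverse ring isomorphisms).
-/

open MvPolynomial Matrix Finset

noncomputable section

namespace RFL

theorem sg_erase_lt {k : ℕ} {i j : Fin k} {I : Finset (Fin k)} (hi : i ∈ I) (h : i < j) :
    sg j (I.erase i) = - sg j I := by
  unfold sg
  have h1 : (I.erase i).filter (· < j) = (I.filter (· < j)).erase i := by
    ext x
    simp only [mem_filter, mem_erase]
    tauto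
  have hm : i ∈ I.filter (· < j) := by simp [hi, h]
  have h2 : (I.filter (· < j)).card = ((I.filter (· < j)).erase i).card + 1 :=
    (Finset.card_erase_add_one hm).symm
  rw [h1, h2, pow_succ]
  ring

theorem sg_erase_ge {k : ℕ} {i j : Fin k} {I : Finset (Fin k)} (h : ¬ i < j) :
    sg j (I.erase i) = sg j I := by
  unfold sg
  have h1 : (I.erase i).filter (· < j) = I.filter (· < j) := by
    ext x
    simp only [mem_filter, mem_erase]
    constructor
    · rintro ⟨⟨_, h2⟩, h3⟩
      exact ⟨h2, h3⟩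
    · rintro ⟨h2, h3⟩
      refine ⟨⟨?_, h2⟩, h3⟩
      rintro rfl
      exact h h3
  rw [h1]

theorem sg_sg {k : ℕ} {i j : Fin k} {I : Finset (Fin k)} (hi : i ∈ I) (hj : j ∈ I) (h : i ≠ j) :
    sg i I * sg j (I.erase i) = - (sg j I * sg i (I.erase j)) := by
  rcases lt_or_gt_of_ne h with h1 | h1
  · rw [sg_erase_lt hi h1, sg_erase_ge (not_lt.mpr h1.le)]
    ring
  · rw [sg_erase_ge (not_lt.mpr h1.le), sg_erase_lt hj h1]
    ring

theorem kd_kd {k : ℕ} {A : Type} [CommRing A] (y : Fin k → A) (P : Finset (Fin k) → A) :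
    kd y (kd y P) = 0 := by
  funext I
  change ∑ i ∈ I, ((sg i I : ℤ) : A) * y i *
    (∑ j ∈ I.erase i, ((sg j (I.erase i) : ℤ) : A) * y j * P ((I.erase i).erase j)) = 0
  have h1 : ∑ i ∈ I, ((sg i I : ℤ) : A) * y i *
      (∑ j ∈ I.erase i, ((sg j (I.erase i) : ℤ) : A) * y j * P ((I.erase i).erase j)) =
      ∑ x ∈ I.offDiag, (((sg x.1 I * sg x.2 (I.erase x.1) : ℤ) : A) *
        (y x.1 * y x.2 * P ((I.erase x.1).erase x.2))) := by
    simp only [Finset.mul_sum]
    rw [Finset.sum_sigma']
    refine Finset.sum_bij' (fun x _ => (x.1, x.2)) (fun x _ => ⟨x.1, x.2⟩) ?_ ?_ ?_ ?_ ?_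
    · rintro ⟨a, b⟩ hx
      simp only [mem_sigma, mem_erase] at hx
      simp only [mem_offDiag]
      exact ⟨hx.1, hx.2.2, fun h => hx.2.1 h.symm⟩
    · rintro ⟨a, b⟩ hx
      simp only [mem_offDiag] at hx
      simp only [mem_sigma, mem_erase]
      exact ⟨hx.1, fun h => hx.2.2 h.symm, hx.2.1⟩
    · rintro ⟨a, b⟩ _; rfl
    · rintro ⟨a, b⟩ _; rfl
    · rintro ⟨a, b⟩ _
      push_cast
      ring
  rw [h1]
  refine Finset.sum_involution (fun x _ => (x.2, x.1)) ?_ ?_ ?_ ?_
  · rintro ⟨a, b⟩ hx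
    simp only [mem_offDiag] at hx
    change (((sg a I * sg b (I.erase a) : ℤ) : A) * (y a * y b * P ((I.erase a).erase b))) +
      (((sg b I * sg a (I.erase b) : ℤ) : A) * (y b * y a * P ((I.erase b).erase a))) = 0
    rw [sg_sg hx.1 hx.2.1 hx.2.2, Finset.erase_right_comm]
    push_cast
    ring
  · rintro ⟨a, b⟩ hx _ h
    simp only [mem_offDiag] at hx
    simp only [Prod.mk.injEq] at h
    exact hx.2.2 h.2
  · rintro ⟨a, b⟩ hx
    simp only [mem_offDiag] at hx ⊢
    exact ⟨hx.2.1, hx.1, fun h => hx.2.2 h.symm⟩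
  · rintro ⟨a, b⟩ _; rfl

theorem kd_add {k : ℕ} {A : Type} [CommRing A] (y : Fin k → A) (P P' : Finset (Fin k) → A) :
    kd y (P + P') = kd y P + kd y P' := by
  funext I
  simp only [kd, Pi.add_apply, mul_add, Finset.sum_add_distrib]

theorem kd_sub {k : ℕ} {A : Type} [CommRing A] (y : Fin k → A) (P P' : Finset (Fin k) → A) :
    kd y (P - P') = kd y P - kd y P' := by
  funext I
  simp only [kd, Pi.sub_apply, mul_sub, Finset.sum_sub_distrib]

theorem kd_smul {k : ℕ} {A : Type} [CommRing A] (y : Fin k → A) (c : A)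
    (P : Finset (Fin k) → A) : kd y (fun I => c * P I) = fun I => c * kd y P I := by
  funext I
  simp only [kd, Finset.mul_sum]
  exact Finset.sum_congr rfl fun i _ => by ring

theorem kd_map {k : ℕ} {A B : Type} [CommRing A] [CommRing B] (φ : A →+* B) (y : Fin k → A)
    (P : Finset (Fin k) → A) :
    kd (fun i => φ (y i)) (fun I => φ (P I)) = fun I => φ (kd y P I) := by
  funext I
  simp only [kd, map_sum, map_mul, map_intCast]

/-- values in an ideal -/
theorem kd_mem {k : ℕ} {A : Type} [CommRing A] (y : Fin k → A) (a : Ideal A)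
    (P : Finset (Fin k) → A) (h : ∀ I, P I ∈ a) (I : Finset (Fin k)) : kd y P I ∈ a :=
  Ideal.sum_mem _ fun i _ => a.mul_mem_left _ (h _)

theorem kd_supp {k : ℕ} {A : Type} [CommRing A] (y : Fin k → A) (p : ℕ)
    (P : Finset (Fin k) → A) (h : ∀ I, I.card ≠ p → P I = 0) (I : Finset (Fin k))
    (hI : I.card ≠ p + 1) : kd y P I = 0 := by
  refine Finset.sum_eq_zero fun i hi => ?_
  rw [h (I.erase i), mul_zero]
  intro h2
  apply hI
  rw [← Finset.card_erase_add_one hi, h2]

end RFL
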