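import Pool.Agent.RFL.LinA

/-!
# RFL-L1 : linear forms, substitutions, directional derivatives

All routine. `lin a` is the linear form `v ↦ ip a v`. For `lin_dvd_iff`: after adding
`x ↦ x - (ip a x / ip a a) a` (projection to the hyperplane) `f(x) - f(pr x)` is divisible by
`lin a` (`x_j - pr(x)_j` is a multiple of `lin a`, hence `f - sbt(pr) f` is), and `sbt(pr) f = 0`
if `f` vanishes on the hyperplane.  Primality: evaluate: if `lin a ∣ f g` then, writing `f', g'` for
`sbt(pr) f, sbt(pr) g`, `f' g' = sbt(pr)(f g) = 0` so `f' = 0` or `g' = 0`.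
-/

open MvPolynomial Matrix Finset

noncomputable section

namespace RFL

variable {n : ℕ}

namespace LinB

/-- the projection `x ↦ x - (ip a x / ip a a) a` as a matrix -/
def prm (a : Vec n) : Matrix (Fin n) (Fin n) ℂ :=
  1 - (ip a a)⁻¹ • Matrix.vecMulVec a (star a)

theorem prm_mulVec (a x : Vec n) : prm a *ᵥ x = x - ((ip a a)⁻¹ * ip a x) • a := by
  funext j
  have h : (Matrix.vecMulVec a (star a)) *ᵥ x = ip a x • a := by
    funext i
    simp only [Matrix.mulVec, dotProduct, Matrix.vecMulVec_apply, Pi.star_apply, Pi.smul_apply,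
      smul_eq_mul, ip, Finset.sum_mul]
    exact Finset.sum_congr rfl fun k _ => by ring
  rw [prm, Matrix.sub_mulVec, Matrix.one_mulVec, Matrix.smul_mulVec, h, smul_smul]

theorem ip_prm {a : Vec n} (ha : a ≠ 0) (x : Vec n) : ip a (prm a *ᵥ x) = 0 := by
  have h0 : ip a a ≠ 0 := fun h => ha (ip_self_eq_zero.mp h)
  have h1 : ip a (x - ((ip a a)⁻¹ * ip a x) • a) = ip a x - ((ip a a)⁻¹ * ip a x) * ip a a := by
    have e : x - ((ip a a)⁻¹ * ip a x) • a = x + (-((ip a a)⁻¹ * ip a x)) • a := by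
      rw [neg_smul, sub_eq_add_neg]
    rw [e, ip_add_right, ip_smul_right]
    ring
  rw [prm_mulVec, h1]
  field_simp
  ring

theorem sbt_prm_X (a : Vec n) (j : Fin n) :
    sbt (prm a) (X j : Pol n) = X j - C ((ip a a)⁻¹ * a j) * lin a := by
  have h : (∑ l, C (prm a j l) * X l : Pol n)
      = ∑ l, (C ((1 : Matrix (Fin n) (Fin n) ℂ) j l) * X l
          - C ((ip a a)⁻¹ * a j) * (C (star (a l)) * X l)) := by
    refine Finset.sum_congr rfl fun l _ => ?_
    have e : prm a j l = (1 : Matrix (Fin n) (Fin n) ℂ) j l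
        - ((ip a a)⁻¹ * a j) * star (a l) := by
      simp only [prm, Matrix.sub_apply, Matrix.smul_apply, Matrix.vecMulVec_apply, Pi.star_apply,
        smul_eq_mul]
      ring
    rw [e, C_sub, C_mul (a := (ip a a)⁻¹ * a j)]
    ring
  rw [sbt, aeval_X, h, Finset.sum_sub_distrib, ← Finset.mul_sum]
  have e1 : (∑ l, C ((1 : Matrix (Fin n) (Fin n) ℂ) j l) * X l : Pol n) = X j := by
    rw [Finset.sum_eq_single j]
    · simp
    · intro l _ hl
      rw [Matrix.one_apply_ne (Ne.symm hl)]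
      simp
    · intro hj
      exact absurd (Finset.mem_univ j) hj
  rw [e1]
  rfl

theorem dvd_sub_sbt (a : Vec n) (f : Pol n) : lin a ∣ f - sbt (prm a) f := by
  induction f using MvPolynomial.induction_on with
  | C c =>
    have : sbt (prm a) (C c : Pol n) = C c := by
      rw [sbt, aeval_C]
      rfl
    rw [this, sub_self]
    exact dvd_zero _
  | add p q hp hq =>
    rw [map_add]
    have : p + q - (sbt (prm a) p + sbt (prm a) q)
        = (p - sbt (prm a) p) + (q - sbt (prm a) q) := by ring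
    rw [this]
    exact dvd_add hp hq
  | mul_X p j hp =>
    rw [map_mul, sbt_prm_X]
    have : p * X j - sbt (prm a) p * (X j - C ((ip a a)⁻¹ * a j) * lin a)
        = (p - sbt (prm a) p) * X j + sbt (prm a) p * C ((ip a a)⁻¹ * a j) * lin a := by ring
    rw [this]
    exact dvd_add (Dvd.dvd.mul_right hp _) (Dvd.intro_left _ rfl)

theorem sbt_prm_eq_zero {a : Vec n} (ha : a ≠ 0) {f : Pol n}
    (h : ∀ x, ip a x = 0 → eval x f = 0) : sbt (prm a) f = 0 := by
  apply MvPolynomial.funext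
  intro v
  rw [eval_sbt, map_zero]
  exact h _ (ip_prm ha v)

theorem dvd_iff_sbt {a : Vec n} (ha : a ≠ 0) (f : Pol n) :
    lin a ∣ f ↔ sbt (prm a) f = 0 := by
  constructor
  · rintro ⟨g, rfl⟩
    refine sbt_prm_eq_zero ha ?_
    intro x hx
    rw [map_mul, eval_lin, hx, zero_mul]
  · intro h
    have := dvd_sub_sbt a f
    rwa [h, sub_zero] at this

end LinB

theorem lin_dvd_iff {a : Vec n} (ha : a ≠ 0) (f : Pol n) :
    lin a ∣ f ↔ ∀ x, ip a x = 0 → eval x f = 0 := by
  constructor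
  · rintro ⟨g, rfl⟩ x hx
    rw [map_mul, eval_lin, hx, zero_mul]
  · intro h
    exact (LinB.dvd_iff_sbt ha f).mpr (LinB.sbt_prm_eq_zero ha h)

theorem lin_prime {a : Vec n} (ha : a ≠ 0) : Prime (lin a) := by
  refine ⟨fun h => ha (lin_eq_zero.mp h), ?_, ?_⟩
  · intro hu
    have h1 : IsUnit (eval (0 : Vec n) (lin a)) := hu.map (eval (0 : Vec n))
    rw [eval_lin, ip_zero_right] at h1
    exact not_isUnit_zero h1
  · intro f g h
    rw [LinB.dvd_iff_sbt ha, map_mul, mul_eq_zero] at h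
    exact h.imp (LinB.dvd_iff_sbt ha f).mpr (LinB.dvd_iff_sbt ha g).mpr

theorem mem_span_of_perp {a b : Vec n} (h : ∀ x, ip a x = 0 → ip b x = 0) :
    b ∈ Submodule.span ℂ {a} := by
  by_cases ha : a = 0
  · have hb : ip b b = 0 := h b (by rw [ha, ip_zero_left])
    rw [ip_self_eq_zero.mp hb]
    exact Submodule.zero_mem _
  · have hx := LinB.ip_prm ha b
    have h1 := h _ hx
    have h2 : ip (LinB.prm a *ᵥ b) (LinB.prm a *ᵥ b) = 0 := by
      have e : LinB.prm a *ᵥ b = b + (-((ip a a)⁻¹ * ip a b)) • a := by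
        rw [LinB.prm_mulVec, neg_smul, sub_eq_add_neg]
      have e2 : ip (LinB.prm a *ᵥ b) (LinB.prm a *ᵥ b)
          = ip b (LinB.prm a *ᵥ b)
            + star (-((ip a a)⁻¹ * ip a b)) * ip a (LinB.prm a *ᵥ b) := by
        conv_lhs => rw [show ip (LinB.prm a *ᵥ b) (LinB.prm a *ᵥ b)
            = ip (b + (-((ip a a)⁻¹ * ip a b)) • a) (LinB.prm a *ᵥ b) by rw [← e]]
        rw [ip_add_left, ip_smul_left]
      rw [e2, h1, hx, mul_zero, add_zero]
    have h3 := ip_self_eq_zero.mp h2
    rw [LinB.prm_mulVec, sub_eq_zero] at h3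
    rw [h3]
    exact Submodule.smul_mem _ _ (Submodule.mem_span_singleton_self a)

theorem lin_dvd_lin {a b : Vec n} (ha : a ≠ 0) :
    lin a ∣ lin b ↔ b ∈ Submodule.span ℂ {a} := by
  constructor
  · intro h
    apply mem_span_of_perp
    intro x hx
    have := (lin_dvd_iff ha (lin b)).mp h x hx
    rwa [eval_lin] at this
  · intro h
    obtain ⟨c, rfl⟩ := Submodule.mem_span_singleton.mp h
    rw [lin_smul]
    exact Dvd.intro_left _ rfl

end RFL
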