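import Pool.Agent.RFL.LinA

/-!
# RFL-L1 : linear forms, substitutions, directional derivatives

All routine. `lin a` is the linear form `v ↦ ip a v`. For `lin_dvd_iff`: after adding
`x ↦ x - (ip a x / ip a a) a` (projection to the hyperplane) `f(x) - f(pr x)` is divisible by
`lin a` (`x_j - pr(x)_j` is a multiple of `lin a`, hence `f - sbt(pr) f` is), and `sbt(pr) f = 0`
if `f` vanishes on the hyperplane.  Primality: evaluate: if `lin a ∣ f g` then, writing `f', g'` for
`sbt(pr) f, sbt(pr) g`, `f' g' = sbt(pr)(f g) = 0` so `f' = 0` or `g' = 0`.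
-/

open MvPolynomial Matrix Finset

noncomputable section

namespace RFL

variable {n : ℕ}

theorem dv_add (v : Vec n) (f g : Pol n) : dv v (f + g) = dv v f + dv v g := by
  simp only [dv, map_add, mul_add, Finset.sum_add_distrib]

theorem dv_mul (v : Vec n) (f g : Pol n) : dv v (f * g) = dv v f * g + f * dv v g := by
  simp only [dv, pderiv_mul, Finset.sum_mul, Finset.mul_sum]
  rw [← Finset.sum_add_distrib]
  exact Finset.sum_congr rfl fun j _ => by ring

theorem dv_C (v : Vec n) (c : ℂ) : dv v (C c : Pol n) = 0 := by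
  simp [dv]

private theorem dv_X (v : Vec n) (k : Fin n) : dv v (X k : Pol n) = C (v k) := by
  unfold dv
  rw [Finset.sum_eq_single k]
  · rw [pderiv_X_self, mul_one]
  · intro j _ hj
    rw [pderiv_X_of_ne (Ne.symm hj), mul_zero]
  · intro h
    exact absurd (Finset.mem_univ k) h

private theorem dv_sum {ι : Type*} (s : Finset ι) (v : Vec n) (f : ι → Pol n) :
    dv v (∑ i ∈ s, f i) = ∑ i ∈ s, dv v (f i) := by
  classical
  induction s using Finset.induction_on with
  | empty =>
    rw [Finset.sum_empty, Finset.sum_empty]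
    simp [dv]
  | insert a s ha ih => rw [Finset.sum_insert ha, Finset.sum_insert ha, dv_add, ih]

private theorem dv_form (v : Vec n) (c : Fin n → ℂ) :
    dv v (∑ j, C (c j) * X j : Pol n) = C (∑ j, c j * v j) := by
  rw [dv_sum, map_sum]
  refine Finset.sum_congr rfl fun j _ => ?_
  rw [dv_mul, dv_C, dv_X, zero_mul, zero_add, map_mul]

theorem dv_lin (v a : Vec n) : dv v (lin a) = C (ip a v) := by
  unfold lin ip
  exact dv_form v _

theorem dv_add_left (u v : Vec n) (f : Pol n) : dv (u + v) f = dv u f + dv v f := by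
  simp only [dv, Pi.add_apply, map_add, add_mul, Finset.sum_add_distrib]

theorem dv_smul_left (c : ℂ) (v : Vec n) (f : Pol n) : dv (c • v) f = C c * dv v f := by
  simp only [dv, Pi.smul_apply, smul_eq_mul, map_mul, Finset.mul_sum]
  exact Finset.sum_congr rfl fun j _ => by ring

theorem dv_comm (u v : Vec n) (f : Pol n) : dv u (dv v f) = dv v (dv u f) := by
  induction f using MvPolynomial.induction_on with
  | C a => rw [dv_C, dv_C, ← C_0, dv_C, dv_C]
  | add p q hp hq => rw [dv_add, dv_add, dv_add, dv_add, hp, hq]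
  | mul_X p k hp =>
    rw [dv_mul, dv_mul, dv_X, dv_X, dv_add, dv_add, dv_mul, dv_mul, dv_mul, dv_mul, dv_X, dv_X,
      dv_C, dv_C, hp]
    ring

theorem dv_hom (v : Vec n) (f : Pol n) (d : ℕ) (hf : f.IsHomogeneous (d + 1)) :
    (dv v f).IsHomogeneous d := by
  unfold dv
  apply IsHomogeneous.sum
  intro j _
  have h := hf.pderiv (i := j)
  rw [Nat.add_sub_cancel] at h
  exact h.C_mul _

/-- chain rule for linear substitutions -/
theorem dv_sbt {m : ℕ} (B : Matrix (Fin n) (Fin m) ℂ) (v : Vec m) (f : Pol n) :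
    dv v (sbt B f) = sbt B (dv (B *ᵥ v) f) := by
  induction f using MvPolynomial.induction_on with
  | C a =>
    rw [dv_C, map_zero]
    have : sbt B (C a) = C a := by
      unfold sbt
      rw [aeval_C]
      rfl
    rw [this, dv_C]
  | add p q hp hq => rw [map_add, dv_add, dv_add, map_add, hp, hq]
  | mul_X p k hp =>
    have hX : sbt B (X k) = ∑ l, C (B k l) * X l := by
      unfold sbt
      rw [aeval_X]
    have hC : sbt B (C ((B *ᵥ v) k)) = C ((B *ᵥ v) k) := by
      unfold sbt
      rw [aeval_C]
      rfl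
    rw [map_mul, dv_mul, dv_mul, map_add, map_mul, map_mul, hp, hX, dv_form, dv_X, hC]
    rfl

/-- Euler's identity -/
theorem euler (f : Pol n) (d : ℕ) (hf : f.IsHomogeneous d) :
    ∑ k, X k * pderiv k f = (d : Pol n) * f := by
  rw [hf.sum_X_mul_pderiv, nsmul_eq_mul]

theorem quo_spec {f g : Pol n} (h : f ∣ g) : f * quo f g = g := by
  unfold quo
  rw [dif_pos h]
  exact h.choose_spec.symm

theorem quo_mul {f : Pol n} (hf : f ≠ 0) (g : Pol n) : quo f (f * g) = g := by
  have h := quo_spec (dvd_mul_right f g)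
  exact mul_left_cancel₀ hf h

/-- the value of the exact quotient where `f` does not vanish -/
theorem eval_quo {f g : Pol n} (h : f ∣ g) (x : Vec n) (hx : eval x f ≠ 0) :
    eval x (quo f g) = eval x g / eval x f := by
  have h1 := congrArg (eval x) (quo_spec h)
  rw [map_mul] at h1
  rw [eq_div_iff hx, ← h1, mul_comm]

end RFL
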