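import Pool.Agent.RFL.Defs

/-!
# RFL-L1 : linear forms, substitutions, directional derivatives

All routine. `lin a` is the linear form `v ↦ ip a v`.
-/

open MvPolynomial Matrix Finset

noncomputable section

namespace RFL

variable {n : ℕ}

theorem eval_lin (a v : Vec n) : eval v (lin a) = ip a v := by
  simp [lin, ip]

theorem lin_add (a b : Vec n) : lin (a + b) = lin a + lin b := by
  simp only [lin, Pi.add_apply, star_add, map_add, add_mul, Finset.sum_add_distrib]

theorem lin_smul (c : ℂ) (a : Vec n) : lin (c • a) = C (star c) * lin a := by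
  simp only [lin, Pi.smul_apply, smul_eq_mul, star_mul', map_mul, Finset.mul_sum, mul_assoc]

theorem lin_zero : lin (0 : Vec n) = 0 := by
  simp [lin]

theorem lin_eq_zero {a : Vec n} : lin a = 0 ↔ a = 0 := by
  constructor
  · intro h
    have h1 := congrArg (eval a) h
    rw [eval_lin, map_zero] at h1
    exact ip_self_eq_zero.1 h1
  · rintro rfl
    exact lin_zero

theorem lin_hom (a : Vec n) : (lin a).IsHomogeneous 1 := by
  unfold lin
  apply IsHomogeneous.sum
  intro j _
  exact isHomogeneous_C_mul_X _ _

/-- every homogeneous polynomial of degree one is a `lin a` -/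
theorem exists_lin (f : Pol n) (hf : f.IsHomogeneous 1) : ∃ a, f = lin a := by
  classical
  refine ⟨fun j => star (coeff (Finsupp.single j 1) f), ?_⟩
  ext m
  unfold lin
  rw [coeff_sum]
  simp only [star_star, coeff_C_mul, coeff_X]
  by_cases h : ∃ j, m = Finsupp.single j 1
  · obtain ⟨j, rfl⟩ := h
    rw [Finset.sum_eq_single j]
    · simp
    · intro b _ hb
      have hne : ¬ (Finsupp.single b 1 = (Finsupp.single j 1 : Fin n →₀ ℕ)) := by
        intro h'
        exact hb ((Finsupp.single_left_inj one_ne_zero).1 h')
      rw [if_neg hne, mul_zero]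
    · intro h'
      exact absurd (Finset.mem_univ _) h'
  · have h0 : coeff m f = 0 := by
      by_contra hne
      have hdeg := hf hne
      apply h
      have h1 : m.degree = 1 := by
        rw [Finsupp.degree_eq_weight_one]
        exact hdeg
      have hm : m ≠ 0 := by
        rintro rfl
        simp at h1
      obtain ⟨j, hj⟩ := Finsupp.ne_iff.1 hm
      refine ⟨j, ?_⟩
      have hle : Finsupp.single j 1 ≤ m := by
        rw [Finsupp.single_le_iff]
        simp only [Finsupp.coe_zero, Pi.zero_apply] at hj
        omega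
      have h2 : Finsupp.single j 1 + (m - Finsupp.single j 1) = m := add_tsub_cancel_of_le hle
      have h3 : (m - Finsupp.single j 1).degree = 0 := by
        have h4 := congrArg Finsupp.degree h2
        rw [map_add, Finsupp.degree_single, h1] at h4
        omega
      rw [Finsupp.degree_eq_zero_iff] at h3
      rw [h3, add_zero] at h2
      exact h2.symm
    rw [h0]
    symm
    apply Finset.sum_eq_zero
    intro j _
    rw [if_neg (fun h' => h ⟨j, h'.symm⟩), mul_zero]

theorem eval_sbt {m : ℕ} (B : Matrix (Fin n) (Fin m) ℂ) (f : Pol n) (v : Vec m) :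
    eval v (sbt B f) = eval (B *ᵥ v) f := by
  induction f using MvPolynomial.induction_on with
  | C a => simp [sbt]
  | add p q hp hq => rw [map_add, map_add, map_add, hp, hq]
  | mul_X p i hp =>
    rw [map_mul, map_mul, map_mul, hp]
    congr 1
    simp [sbt, Matrix.mulVec, dotProduct]

theorem sbt_hom {m : ℕ} (B : Matrix (Fin n) (Fin m) ℂ) (f : Pol n) (d : ℕ)
    (hf : f.IsHomogeneous d) : (sbt B f).IsHomogeneous d := by
  have h := hf.aeval (fun j => ∑ l, C (B j l) * (X l : Pol m)) (n := 1) (by
    intro j
    apply IsHomogeneous.sum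
    intro l _
    exact isHomogeneous_C_mul_X _ _)
  rw [one_mul] at h
  exact h

theorem sbt_sbt {m k : ℕ} (B : Matrix (Fin n) (Fin m) ℂ) (B' : Matrix (Fin m) (Fin k) ℂ)
    (f : Pol n) : sbt B' (sbt B f) = sbt (B * B') f := by
  apply MvPolynomial.funext
  intro v
  rw [eval_sbt, eval_sbt, eval_sbt, Matrix.mulVec_mulVec]

theorem sbt_one (f : Pol n) : sbt (1 : Matrix (Fin n) (Fin n) ℂ) f = f := by
  apply MvPolynomial.funext
  intro v
  rw [eval_sbt, Matrix.one_mulVec]

theorem sbt_lin {m : ℕ} (B : Matrix (Fin n) (Fin m) ℂ) (a : Vec n) :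
    sbt B (lin a) = lin (Bᴴ *ᵥ a) := by
  apply MvPolynomial.funext
  intro v
  rw [eval_sbt, eval_lin, eval_lin]
  simp only [ip, Matrix.mulVec, dotProduct, star_sum, star_mul', Matrix.conjTranspose_apply,
    star_star, Finset.mul_sum, Finset.sum_mul]
  rw [Finset.sum_comm]
  refine Finset.sum_congr rfl fun l _ => Finset.sum_congr rfl fun j _ => ?_
  ring

/-- `f` is zero if it vanishes wherever the nonzero polynomial `q` does not -/
theorem eq_zero_of_eval {q f : Pol n} (hq : q ≠ 0) (h : ∀ x, eval x q ≠ 0 → eval x f = 0) :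
    f = 0 := by
  have h1 : q * f = 0 := by
    apply MvPolynomial.funext
    intro x
    rw [map_mul, map_zero]
    by_cases hx : eval x q = 0
    · rw [hx, zero_mul]
    · rw [h x hx, mul_zero]
  exact (mul_eq_zero.1 h1).resolve_left hq

end RFL
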