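import Pool.Agent.RFL.Lin2

/-!
# RFL-L3 : powers of the ideal of a codimension two subspace

By `exists_coord` we may assume `a, b` are the first two coordinate forms. `(x_1,x_2)^m` is the
ideal of polynomials all of whose monomials have degree `≥ m` in `x_1, x_2`. Use the grading by
the degree in `x_1,x_2` (or the associated order function, which is additive on products because
the ring is a domain).
-/

open MvPolynomial Matrix Finset

noncomputable section

namespace RFL

variable {n : ℕ}

namespace LinPowA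

/-- weight of a variable -/
def wt (i j k : Fin n) : ℕ := if k = i ∨ k = j then 1 else 0

/-- total weight of an exponent -/
def wd (i j : Fin n) (d : Fin n →₀ ℕ) : ℕ := ∑ k, wt i j k * d k

/-- `X_i ↦ T X_i`, `X_j ↦ T X_j`, the other variables are fixed -/
def ph (i j : Fin n) : Pol n →ₐ[ℂ] Polynomial (Pol n) :=
  aeval (fun k => Polynomial.X ^ wt i j k * Polynomial.C (X k))

theorem ph_monomial (i j : Fin n) (d : Fin n →₀ ℕ) (c : ℂ) :
    ph i j (monomial d c) = Polynomial.C (monomial d c) * Polynomial.X ^ wd i j d := by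
  rw [ph, aeval_monomial, Finsupp.prod_fintype _ _ (by intro; simp)]
  simp only [mul_pow, ← pow_mul, Finset.prod_mul_distrib, Finset.prod_pow_eq_pow_sum]
  have h1 : (monomial d c : Pol n) = C c * ∏ k, X k ^ d k := by
    rw [monomial_eq, Finsupp.prod_fintype _ _ (by intro; simp)]
  rw [h1, wd, map_mul, map_prod]
  have h2 : (algebraMap ℂ (Polynomial (Pol n))) c = Polynomial.C (C c) := rfl
  rw [h2]
  simp only [map_pow]
  ring

theorem coeff_ph (i j : Fin n) (f : Pol n) (k : ℕ) (d : Fin n →₀ ℕ) :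
    coeff d ((ph i j f).coeff k) = if wd i j d = k then coeff d f else 0 := by
  induction f using MvPolynomial.induction_on' with
  | monomial e c =>
    rw [ph_monomial, Polynomial.coeff_C_mul, Polynomial.coeff_X_pow]
    by_cases h : e = d
    · subst h
      by_cases h2 : wd i j e = k
      · simp [h2]
      · simp [h2, Ne.symm h2]
    · by_cases h2 : k = wd i j e <;> simp [h2, coeff_monomial, h]
  | add p q hp hq =>
    rw [map_add, Polynomial.coeff_add, coeff_add, hp, hq, coeff_add]
    split_ifs <;> simp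

theorem ph_inj (i j : Fin n) {f : Pol n} (h : ph i j f = 0) : f = 0 := by
  ext d
  have := coeff_ph i j f (wd i j d) d
  rw [h] at this
  simpa using this.symm

theorem wd_eq {i j : Fin n} (hij : i ≠ j) (d : Fin n →₀ ℕ) : wd i j d = d i + d j := by
  have h1 : ∀ k, wt i j k * d k = (if k = i then d i else 0) + (if k = j then d j else 0) := by
    intro k
    unfold wt
    by_cases h1 : k = i
    · subst h1
      simp [hij]
    · by_cases h2 : k = j
      · subst h2
        simp [h1]
      · simp [h1, h2]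
  rw [wd, Finset.sum_congr rfl fun k _ => h1 k, Finset.sum_add_distrib]
  simp

theorem monomial_mem {i j : Fin n} (hij : i ≠ j) (d : Fin n →₀ ℕ) (c : ℂ) (m : ℕ)
    (h : m ≤ wd i j d) : monomial d c ∈ (Ideal.span {(X i : Pol n), X j}) ^ m := by
  have h1 : (monomial d c : Pol n) =
      (C c * ∏ k ∈ (univ.erase i).erase j, X k ^ d k) * (X j ^ d j * X i ^ d i) := by
    rw [monomial_eq, Finsupp.prod_fintype _ _ (by intro; simp)]
    rw [← Finset.prod_erase_mul univ _ (Finset.mem_univ i),
      ← Finset.prod_erase_mul (univ.erase i) _ (Finset.mem_erase.mpr ⟨hij.symm, Finset.mem_univ j⟩)]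
    ring
  rw [h1]
  refine Ideal.mul_mem_left _ _ ?_
  have h2 : (X j ^ d j * X i ^ d i : Pol n) ∈ (Ideal.span {(X i : Pol n), X j}) ^ (d j + d i) := by
    rw [pow_add]
    refine Ideal.mul_mem_mul (Ideal.pow_mem_pow (Ideal.subset_span ?_) _)
      (Ideal.pow_mem_pow (Ideal.subset_span ?_) _) <;> simp
  refine Ideal.pow_le_pow_right ?_ h2
  rw [wd_eq hij] at h
  omega

theorem mem_pow_iff {i j : Fin n} (hij : i ≠ j) (f : Pol n) (m : ℕ) :
    f ∈ (Ideal.span {(X i : Pol n), X j}) ^ m ↔ (Polynomial.X : Polynomial (Pol n)) ^ m ∣ ph i j f := by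
  constructor
  · intro h
    have h1 : ph i j f ∈ Ideal.map (ph i j) ((Ideal.span {(X i : Pol n), X j}) ^ m) :=
      Ideal.mem_map_of_mem _ h
    have h2 : Ideal.map (ph i j) (Ideal.span {(X i : Pol n), X j}) ≤
        Ideal.span {(Polynomial.X : Polynomial (Pol n))} := by
      rw [Ideal.map_span, Ideal.span_le]
      rintro _ ⟨x, hx, rfl⟩
      rcases hx with rfl | hx
      · simp only [SetLike.mem_coe, Ideal.mem_span_singleton]
        simp only [ph, aeval_X, wt, true_or, if_true, pow_one]
        exact Dvd.intro _ rfl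
      · rw [Set.mem_singleton_iff] at hx
        subst hx
        simp only [SetLike.mem_coe, Ideal.mem_span_singleton]
        simp only [ph, aeval_X, wt, or_true, if_true, pow_one]
        exact Dvd.intro _ rfl
    rw [Ideal.map_pow] at h1
    have h3 := Ideal.pow_right_mono h2 m h1
    rwa [Ideal.span_singleton_pow, Ideal.mem_span_singleton] at h3
  · intro h
    rw [f.as_sum]
    refine Ideal.sum_mem _ fun d hd => ?_
    refine monomial_mem hij d _ m ?_
    by_contra hlt
    push Not at hlt
    rw [Polynomial.X_pow_dvd_iff] at h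
    have h1 := h _ hlt
    have h2 := coeff_ph i j f (wd i j d) d
    rw [h1] at h2
    simp only [coeff_zero, if_true] at h2
    exact (MvPolynomial.mem_support_iff.mp hd) h2.symm

theorem core1 {i j : Fin n} (hij : i ≠ j) (m : ℕ) (f g : Pol n)
    (hg : g ∉ Ideal.span {(X i : Pol n), X j})
    (h : g * f ∈ (Ideal.span {(X i : Pol n), X j}) ^ m) :
    f ∈ (Ideal.span {(X i : Pol n), X j}) ^ m := by
  rw [mem_pow_iff hij] at h ⊢
  have h1 : ¬ (Polynomial.X : Polynomial (Pol n)) ∣ ph i j g := by
    intro h2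
    apply hg
    have := (mem_pow_iff hij g 1).mpr (by simpa using h2)
    simpa using this
  rw [map_mul] at h
  exact (Polynomial.prime_X).pow_dvd_of_dvd_mul_left _ h1 h

theorem core2 {i j : Fin n} (hij : i ≠ j) (m : ℕ) (f g : Pol n) (hg0 : g ≠ 0)
    (hg1 : g.IsHomogeneous 1)
    (h : g * f ∈ (Ideal.span {(X i : Pol n), X j}) ^ m) :
    f ∈ (Ideal.span {(X i : Pol n), X j}) ^ (m - 1) := by
  rcases m with _ | m
  · simp
  rw [Nat.add_sub_cancel]
  by_cases hg : g ∈ Ideal.span {(X i : Pol n), X j}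
  · have h2 : ¬ (Polynomial.X : Polynomial (Pol n)) ^ 2 ∣ ph i j g := by
      intro h2
      apply hg0
      ext d
      by_contra hd
      rw [coeff_zero] at hd
      rw [Polynomial.X_pow_dvd_iff] at h2
      have h3 : d.degree = 1 := by
        have h30 := hg1 hd
        rw [Finsupp.degree_eq_weight_one (R := ℕ)]
        exact h30
      have h4 : wd i j d < 2 := by
        rw [wd_eq hij]
        have : d.degree = ∑ k, d k := Finsupp.degree_eq_sum d
        rw [h3] at this
        have h5 : d i + d j ≤ ∑ k, d k := by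
          rw [← Finset.sum_pair hij]
          exact Finset.sum_le_sum_of_subset (Finset.subset_univ _)
        omega
      have h5 := h2 _ h4
      have h6 := coeff_ph i j g (wd i j d) d
      rw [h5] at h6
      simp only [coeff_zero, if_true] at h6
      exact hd h6.symm
    obtain ⟨u, hu⟩ := (mem_pow_iff hij g 1).mp (by simpa using hg)
    rw [pow_one] at hu
    have hu2 : ¬ (Polynomial.X : Polynomial (Pol n)) ∣ u := by
      rintro ⟨v, rfl⟩
      apply h2
      rw [hu, pow_two, ← mul_assoc]
      exact Dvd.intro _ rfl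
    rw [mem_pow_iff hij, map_mul, hu, pow_succ'] at h
    rw [mul_assoc] at h
    have h7 := (mul_dvd_mul_iff_left (Polynomial.X_ne_zero (R := Pol n))).mp h
    rw [mem_pow_iff hij]
    exact (Polynomial.prime_X).pow_dvd_of_dvd_mul_left _ hu2 h7
  · exact Ideal.pow_le_pow_right (Nat.le_succ m) (core1 hij (m + 1) f g hg h)

/-- coordinates for two independent forms -/
theorem coord {a b : Vec n} (hab : LinearIndependent ℂ ![a, b]) :
    ∃ (i j : Fin n) (B B' : Matrix (Fin n) (Fin n) ℂ), i ≠ j ∧ B * B' = 1 ∧ B' * B = 1 ∧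
      sbt B (lin a) = X i ∧ sbt B (lin b) = X j := by
  obtain ⟨hk, B, B', h1, h2, h3⟩ := exists_coord ![a, b] hab
  refine ⟨Fin.castLE hk 0, Fin.castLE hk 1, B, B', ?_, h1, h2, ?_, ?_⟩
  · intro h
    exact absurd (Fin.castLE_injective hk h) (by decide)
  · simpa using h3 0
  · simpa using h3 1

theorem sbt_left {B B' : Matrix (Fin n) (Fin n) ℂ} (h : B * B' = 1) (f : Pol n) :
    sbt B' (sbt B f) = f := by
  rw [sbt_sbt, h, sbt_one]

theorem map_left {a b : Vec n} {i j : Fin n} {B : Matrix (Fin n) (Fin n) ℂ}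
    (ha : sbt B (lin a) = X i) (hb : sbt B (lin b) = X j) :
    Ideal.map (sbt B) (Ideal.span {lin a, lin b}) = Ideal.span {(X i : Pol n), X j} := by
  rw [Ideal.map_span, Set.image_pair, ha, hb]

theorem map_right {a b : Vec n} {i j : Fin n} {B B' : Matrix (Fin n) (Fin n) ℂ}
    (h : B * B' = 1) (ha : sbt B (lin a) = X i) (hb : sbt B (lin b) = X j) :
    Ideal.map (sbt B') (Ideal.span {(X i : Pol n), X j}) = Ideal.span {lin a, lin b} := by
  rw [Ideal.map_span, Set.image_pair, ← ha, ← hb, sbt_left h, sbt_left h]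

theorem mem_iff {a b : Vec n} {i j : Fin n} {B B' : Matrix (Fin n) (Fin n) ℂ}
    (h : B * B' = 1) (ha : sbt B (lin a) = X i) (hb : sbt B (lin b) = X j) (m : ℕ) (f : Pol n) :
    f ∈ Ideal.span {lin a, lin b} ^ m ↔ sbt B f ∈ Ideal.span {(X i : Pol n), X j} ^ m := by
  constructor
  · intro hf
    have := Ideal.mem_map_of_mem (sbt B) hf
    rwa [Ideal.map_pow, map_left ha hb] at this
  · intro hf
    have := Ideal.mem_map_of_mem (sbt B') hf
    rwa [Ideal.map_pow, map_right h ha hb, sbt_left h] at this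

end LinPowA

/-- powers of the ideal are primary -/
theorem mem_pow_of_mul {a b : Vec n} (hab : LinearIndependent ℂ ![a, b]) (m : ℕ) (f g : Pol n)
    (hg : g ∉ Ideal.span {lin a, lin b}) (h : g * f ∈ Ideal.span {lin a, lin b} ^ m) :
    f ∈ Ideal.span {lin a, lin b} ^ m := by
  obtain ⟨i, j, B, B', hij, h1, h2, ha, hb⟩ := LinPowA.coord hab
  rw [LinPowA.mem_iff h1 ha hb] at h ⊢
  rw [map_mul] at h
  refine LinPowA.core1 hij m _ _ ?_ h
  intro h3
  apply hg
  have := (LinPowA.mem_iff h1 ha hb 1 g).mpr (by simpa using h3)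
  simpa using this

theorem mem_pow_of_lin_mul {a b c : Vec n} (hab : LinearIndependent ℂ ![a, b]) (hc : c ≠ 0)
    (m : ℕ) (f : Pol n)
    (h : lin c * f ∈ Ideal.span {lin a, lin b} ^ m) :
    f ∈ Ideal.span {lin a, lin b} ^ (m - 1) := by
  obtain ⟨i, j, B, B', hij, h1, h2, ha, hb⟩ := LinPowA.coord hab
  rw [LinPowA.mem_iff h1 ha hb] at h ⊢
  rw [map_mul] at h
  refine LinPowA.core2 hij m _ _ ?_ (sbt_hom B _ 1 (lin_hom c)) h
  intro h3
  apply hc
  rw [← lin_eq_zero, ← LinPowA.sbt_left h1 (lin c), h3, map_zero]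

/-- the order of `u ^ k * f` for a product `u` of `m` forms in the ideal -/
theorem hc_mem_pow {a b : Vec n} (m d : ℕ) (f : Pol n)
    (h : f ∈ Ideal.span {lin a, lin b} ^ m) :
    homogeneousComponent d f ∈ Ideal.span {lin a, lin b} ^ m := by
  let _ : GradedAlgebra (homogeneousSubmodule (Fin n) ℂ) := MvPolynomial.gradedAlgebra
  have h1 : (Ideal.span {lin a, lin b}).IsHomogeneous (homogeneousSubmodule (Fin n) ℂ) := by
    refine Ideal.homogeneous_span _ _ fun x hx => ?_
    rcases hx with rfl | hx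
    · exact ⟨1, lin_hom a⟩
    · rw [Set.mem_singleton_iff] at hx
      subst hx
      exact ⟨1, lin_hom b⟩
  have h2 : ∀ k : ℕ, (Ideal.span {lin a, lin b} ^ k).IsHomogeneous
      (homogeneousSubmodule (Fin n) ℂ) := by
    intro k
    induction k with
    | zero => rw [pow_zero, Ideal.one_eq_top]; exact Ideal.IsHomogeneous.top _
    | succ k ih => rw [pow_succ]; exact ih.mul h1
  exact MvPolynomial.homogeneousComponent_mem_of_mem (h2 m) h d

theorem mem_pow_mod {a b : Vec n} (m : ℕ) (f : Pol n)
    (h : f ∈ Ideal.span {lin a, lin b} ^ m) : ∃ w, lin a ∣ f - w * lin b ^ m := by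
  have h1 := Ideal.mem_map_of_mem (Ideal.Quotient.mk (Ideal.span {lin a})) h
  rw [Ideal.map_pow, Ideal.map_span, Set.image_pair] at h1
  have h2 : (Ideal.Quotient.mk (Ideal.span {lin a})) (lin a) = 0 :=
    Ideal.Quotient.eq_zero_iff_mem.mpr (Ideal.subset_span rfl)
  have h3 : Ideal.span {(0 : Pol n ⧸ Ideal.span {lin a}),
      (Ideal.Quotient.mk (Ideal.span {lin a})) (lin b)} ≤
      Ideal.span {(Ideal.Quotient.mk (Ideal.span {lin a})) (lin b)} := by
    rw [Ideal.span_le]
    rintro x (rfl | hx)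
    · exact Ideal.zero_mem _
    · exact Ideal.subset_span hx
  rw [h2] at h1
  have h4 := Ideal.pow_right_mono h3 m h1
  rw [Ideal.span_singleton_pow, Ideal.mem_span_singleton] at h4
  obtain ⟨c, hc⟩ := h4
  obtain ⟨w, rfl⟩ := Ideal.Quotient.mk_surjective c
  refine ⟨w, ?_⟩
  rw [← Ideal.mem_span_singleton, ← Ideal.Quotient.eq_zero_iff_mem, map_sub, map_mul, map_pow, hc]
  ring

end RFL
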