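import Pool.Agent.RFL.TorsA

/-!
# RFL-I5, I6, I7 : linear type

`Lf_notMem`: if `L_j ∈ idL R`, `j ∉ R`, then in `T`-degree one `b_j = ∑_{i∈R} s_i b_i`; at a regular
point `x` (`rank (loc x) = 0`, all `ip (a i) x ≠ 0`) the rows of `b(x)` are independent (rank `m`):
contradiction.

`tors_step`: `R` with `idL b R'` prime for all proper `R' ⊂ R`. `f ≠ 0`, `C f * P ∈ idL R`. Let
`c = {s | C s * P ∈ idL R}` (ideal of `Pol`). Suppose `c ≠ ⊤`; `strat`: a zero `x` of `c` and `N` with
`(q_x al_i)^N ∈ c` for all `i` vanishing at `x`. Let `k = rank (loc x)`, `k' = max k 1`,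
`r, c, δ` the minor of `exists_minor` (`δ(x) ≠ 0`), of size `t = |R| + 1 - k'`, `R₁ = image r`,
`R₂ = R \ R₁`, so `|R₂| ≤ k' - 1`.
* `k ≤ 1`: `R₁ = R`, `ψ` of `exists_elim'`: `f ψ(P) = 0`, `ψ P = 0`, `elim_zero`: `δ^N ∈ c`.
* `k ≥ 2`: `|R₂| < k`, `v l = a (y l)` from `exists_basis_loc`; `chase_zero` applied to
  `C (q_x^N) * P`: `δ^M q_x^N ∈ c`.
Both contradict that `c` vanishes at `x`.

`linType`: strong induction on `|R|`. Prime: `P P' ∈ idL R`. Choose a maximal minor `δ` of the rows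
`R` at a regular point (`t = |R|`), `ψ` kills `idL R`: `ψ P ψ P' = 0`, so `ψ P = 0`, say; `elim_zero`:
`δ^N P ∈ idL R`; `tors_step`. (`idL R ≠ ⊤`: apply `ψ`.)

`ker_idL`: `P` homogeneous of degree `e` in `T` with `P(g) = 0`. For `k`:
`g_0 X_k - g_k X_0 ∈ idL univ` (`HB.syz`). So `g_0^e P ≡ X_0^e P(g) = 0`; if `g_0 ≠ 0` `linType`.
(Some `g_{k₀} ≠ 0`; use it in place of `g_0`. If all `g_k = 0`, all constant vectors are syzygies,
contradiction with ranks; or use `J ≠ 0`.)
-/

open MvPolynomial Matrix Finset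

noncomputable section

namespace RFL

namespace LinTypeA

theorem exists_regular {n : ℕ} (D : RD n) : ∃ x : Vec n, ∀ i, ip (D.a i) x ≠ 0 := by
  by_contra hcon
  push Not at hcon
  apply D.Q_ne
  apply MvPolynomial.funext
  intro x
  rw [map_zero]
  by_contra h
  obtain ⟨i, hi⟩ := hcon x
  exact (D.eval_Q_ne x).1 h i hi

theorem rank_regular {n : ℕ} (D : RD n) {x : Vec n} (hx : ∀ i, ip (D.a i) x ≠ 0) :
    (D.loc x).rank = 0 := by
  unfold RD.rank
  have h : Set.range (D.loc x).a = ∅ := by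
    rw [Set.range_eq_empty_iff]
    exact ⟨fun i => hx i.1 i.2⟩
  rw [h, Submodule.span_empty, finrank_bot]

/-- a nonvanishing maximal minor of the rows in `R` -/
theorem exists_max_minor {m : ℕ} (D : RD (m + 1)) (b : Fin m → Fin (m + 1) → Pol (m + 1))
    (hb : RankHyp D b) (R : Finset (Fin m)) :
    ∃ (t : ℕ) (r : Fin t → Fin m) (c : Fin t → Fin (m + 1)), univ.image r = R ∧
      (Matrix.of fun i j => b (r i) (c j)).det ≠ 0 := by
  obtain ⟨x, hx⟩ := exists_regular D
  obtain ⟨r, c, hr, hR, hd⟩ := exists_minor D b hb R x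
  refine ⟨_, r, c, ?_, fun h => hd (by rw [h, map_zero])⟩
  apply Finset.eq_of_subset_of_card_le
  · intro j hj
    rw [Finset.mem_image] at hj
    obtain ⟨i, -, rfl⟩ := hj
    exact hR i
  · rw [Finset.card_image_of_injective _ hr, Finset.card_univ, Fintype.card_fin,
      rank_regular D hx]
    simp

theorem ker_le {m : ℕ} (b : Fin m → Fin (m + 1) → Pol (m + 1)) {t : ℕ} (r : Fin t → Fin m)
    (ψ : PT (m + 1) →ₐ[Pol (m + 1)] PT (m + 1)) (h : ∀ i, ψ (Lf b (r i)) = 0) (P : PT (m + 1))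
    (hP : P ∈ idL b (univ.image r)) : ψ P = 0 := by
  have h1 : idL b (univ.image r) ≤ RingHom.ker ψ := by
    unfold idL
    rw [Ideal.span_le]
    rintro _ ⟨j, hj, rfl⟩
    rw [Finset.mem_coe, Finset.mem_image] at hj
    obtain ⟨i, -, rfl⟩ := hj
    exact h i
  exact h1 hP

/-- evaluation of a homogeneous polynomial at `c y` -/
theorem eval₂_mul {R S σ : Type*} [CommRing R] [CommRing S] [Fintype σ] (φ : R →+* S) (c : S)
    (y : σ → S) {e : ℕ} {P : MvPolynomial σ R} (hP : P.IsHomogeneous e) :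
    eval₂ φ (fun k => c * y k) P = c ^ e * eval₂ φ y P := by
  rw [eval₂_eq', eval₂_eq', Finset.mul_sum]
  apply Finset.sum_congr rfl
  intro μ hμ
  have h1 : ∏ i, (c * y i) ^ μ i = c ^ e * ∏ i, y i ^ μ i := by
    simp_rw [mul_pow]
    rw [Finset.prod_mul_distrib, Finset.prod_pow_eq_pow_sum]
    congr 2
    have h2 := hP (mem_support_iff.1 hμ)
    rw [← h2, Finsupp.weight_apply, Finsupp.sum_fintype _ _ (by simp)]
    simp
  rw [h1]
  ring

theorem mul_mem {R σ : Type*} [CommRing R] [Fintype σ] {I : Ideal (MvPolynomial σ R)} {g : σ → R}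
    {k₀ : σ} (h1 : ∀ k, C (g k₀) * X k - C (g k) * X k₀ ∈ I) {e : ℕ} {P : MvPolynomial σ R}
    (hP : P.IsHomogeneous e) (h0 : aeval g P = 0) : C (g k₀ ^ e) * P ∈ I := by
  rw [← Ideal.Quotient.eq_zero_iff_mem]
  let q : MvPolynomial σ R →+* MvPolynomial σ R ⧸ I := Ideal.Quotient.mk I
  let φ : R →+* MvPolynomial σ R ⧸ I := q.comp C
  show q (C (g k₀ ^ e) * P) = 0
  have h3 : ∀ k, φ (g k₀) * q (X k) = q (X k₀) * φ (g k) := by
    intro k
    have := h1 k
    rw [← Ideal.Quotient.eq_zero_iff_mem, map_sub, map_mul, map_mul, sub_eq_zero] at this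
    rw [mul_comm (q (X k₀))]
    exact this
  have h4 : q P = eval₂ φ (fun k => q (X k)) P := by
    conv_lhs => rw [← eval₂_eta P]
    exact eval₂_comp_left q C X P
  have h5 : φ (aeval g P) = eval₂ φ (fun k => φ (g k)) P := by
    rw [aeval_def]
    exact eval₂_comp_left φ _ g P
  rw [map_mul]
  have h6 : q (C (g k₀ ^ e)) = φ (g k₀) ^ e := by
    rw [map_pow, map_pow]; rfl
  rw [h6, h4, ← eval₂_mul φ (φ (g k₀)) (fun k => q (X k)) hP]
  simp_rw [h3]
  rw [eval₂_mul φ (q (X k₀)) (fun k => φ (g k)) hP, ← h5, h0, map_zero, mul_zero]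

end LinTypeA

open LinTypeA in
theorem linType {m : ℕ} (D : RD (m + 1)) (b : Fin m → Fin (m + 1) → Pol (m + 1))
    (hb : RankHyp D b) (R : Finset (Fin m)) : (idL b R).IsPrime := by
  induction R using Finset.strongInduction with
  | H R IH =>
    obtain ⟨t, r, c, hR, hδ⟩ := exists_max_minor D b hb R
    obtain ⟨ψ, hψ0, hψh, hψ⟩ := exists_elim' b r c
    have key : ∀ P : PT (m + 1), ψ P = 0 → P ∈ idL b R := by
      intro P hP
      obtain ⟨N, hN⟩ := elim_zero b r c ψ hψ hψh P hP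
      rw [hR] at hN
      exact tors_step D b hb R IH _ (pow_ne_zero N hδ) P hN
    refine ⟨?_, ?_⟩
    · intro htop
      have h1 : (1 : PT (m + 1)) ∈ idL b (univ.image r) := by
        rw [hR, htop]; trivial
      have h2 := ker_le b r ψ hψ0 1 h1
      rw [map_one] at h2
      exact one_ne_zero h2
    · intro P P' h
      have h1 : ψ (P * P') = 0 := ker_le b r ψ hψ0 _ (by rw [hR]; exact h)
      rw [map_mul, mul_eq_zero] at h1
      rcases h1 with h1 | h1
      · exact Or.inl (key P h1)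
      · exact Or.inr (key P' h1)

open LinTypeA in
theorem ker_idL {m : ℕ} (D : RD (m + 1)) {d : ℕ} {c : Fin m → ℕ}
    {g : Fin (m + 1) → Pol (m + 1)} {b : Fin m → Fin (m + 1) → Pol (m + 1)}
    (hB : HB D d c g b) (hb : RankHyp D b) (k₀ : Fin (m + 1)) (hg : g k₀ ≠ 0) (e : ℕ)
    (P : PT (m + 1)) (hP : P.IsHomogeneous e) (h0 : aeval g P = 0) : P ∈ idL b univ := by
  classical
  have h1 : ∀ k, C (g k₀) * X k - C (g k) * X k₀ ∈ idL b univ := by
    intro k
    obtain ⟨w, hw⟩ := hB.syz (fun l => g k₀ * (if l = k then 1 else 0)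
      - g k * (if l = k₀ then 1 else 0)) (by
        simp only [sub_mul, mul_assoc, ite_mul, one_mul, zero_mul, mul_ite, mul_zero,
          Finset.sum_sub_distrib, Finset.sum_ite_eq', Finset.mem_univ, if_true]
        ring)
    have h2 : (C (g k₀) * X k - C (g k) * X k₀ : PT (m + 1)) = ∑ j, C (w j) * Lf b j := by
      have h3 : (C (g k₀) * X k - C (g k) * X k₀ : PT (m + 1))
          = ∑ l, C (g k₀ * (if l = k then 1 else 0) - g k * (if l = k₀ then 1 else 0)) * X l := by
        simp only [map_sub, map_mul, sub_mul, mul_assoc, apply_ite C, map_one, map_zero, ite_mul,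
          one_mul, zero_mul, mul_ite, mul_zero, Finset.sum_sub_distrib, Finset.sum_ite_eq',
          Finset.mem_univ, if_true]
      rw [h3]
      unfold Lf
      simp_rw [Finset.mul_sum]
      rw [Finset.sum_comm]
      apply Finset.sum_congr rfl
      intro l _
      rw [hw l, map_sum, Finset.sum_mul]
      apply Finset.sum_congr rfl
      intro j _
      rw [map_mul, mul_assoc]
    rw [h2]
    apply Ideal.sum_mem
    intro j _
    apply Ideal.mul_mem_left
    exact Ideal.subset_span ⟨j, by simp, rfl⟩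
  have h2 : C (g k₀ ^ e) * P ∈ idL b univ := mul_mem h1 hP h0
  exact tors_step D b hb univ (fun R' _ => linType D b hb R') _ (pow_ne_zero e hg) P h2

end RFL
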