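import Pool.Agent.RFL.Stab

/-!
# RFL-C6 : `M` is generated by its part of degree `h`

`hT` = the sum of the projections is `h/2`. Then for `θ ∈ M` homogeneous of degree `d`
`∑_k x_k ∇_k θ = (d - h) θ` (`nab_euler`) with `∇_k θ ∈ M` homogeneous of degree `d - 1`
(`nab_hom`, `M_stable`), `∇_k θ = 0` if `d = 0` (`nab_const`). Induction on `d`:
`d < h` ⇒ `θ = 0`; `d = h` ⇒ `∇_k θ = 0` for all `k`, so `θ` is horizontal; `d > h` ⇒
`θ ∈ ∑ x_k M_{d-1}`.

`M` is an `S`-submodule: `∇_v(f θ) = ∂_v f θ + f ∇_v θ`. Homogeneous components of elements of `M`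
are in `M` (`hc_mem_Der`, `nab_hc`).

`Q^2 η ∈ M` for all `η`: `∇_v (Q^2 η) = 2 Q ∂_v Q η + Q^2 ∂_v η - 2 ∑ ... (Q^2/α_i) η(α_i) a_i` is in
`Q · VF ⊆ Der`. `Q δ ∈ M` for `δ ∈ Der`: `∇_v (Q δ) = ∂_v Q δ + Q ∇_v δ`.
-/

open MvPolynomial Matrix Finset

noncomputable section

namespace RFL

namespace RD

variable {n : ℕ} (D : RD n)

theorem M_add {θ η : VF n} (hθ : θ ∈ D.M) (hη : η ∈ D.M) : θ + η ∈ D.M := by
  refine ⟨D.Der.add_mem hθ.1 hη.1, fun v => ?_⟩
  rw [D.nab_add v hθ.1 hη.1]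
  exact D.Der.add_mem (hθ.2 v) (hη.2 v)

theorem M_smul (f : Pol n) {θ : VF n} (hθ : θ ∈ D.M) : f • θ ∈ D.M := by
  refine ⟨D.Der.smul_mem f hθ.1, fun v => ?_⟩
  rw [D.nab_smul v f hθ.1]
  exact D.Der.add_mem (D.Der.smul_mem _ hθ.1) (D.Der.smul_mem _ (hθ.2 v))

theorem hc_mem_M {θ : VF n} (hθ : θ ∈ D.M) (d : ℕ) :
    (fun l => homogeneousComponent d (θ l)) ∈ D.M := by
  refine ⟨D.hc_mem_Der hθ.1 d, fun v => ?_⟩
  cases d with
  | zero =>
    rw [D.nab_const v (D.hc_mem_Der hθ.1 0)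
      (fun l => homogeneousComponent_isHomogeneous 0 (θ l))]
    exact D.Der.zero_mem
  | succ d =>
    rw [D.nab_hc v hθ.1 d]
    exact D.hc_mem_Der (hθ.2 v) d

theorem Q_Der_mem_M {δ : VF n} (hδ : δ ∈ D.Der) : D.Q • δ ∈ D.M := by
  refine ⟨D.Der.smul_mem _ hδ, fun v => ?_⟩
  rw [D.nab_smul v D.Q hδ]
  exact D.Der.add_mem (D.Der.smul_mem _ hδ) (D.Q_smul_mem_Der _)

theorem Q_sq_mem_M (η : VF n) : (D.Q ^ 2) • η ∈ D.M := by
  rw [pow_two, mul_smul]
  exact D.Q_Der_mem_M (D.Q_smul_mem_Der η)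

theorem MU_zero_of_C_mul {c : ℂ} (hc : c ≠ 0) {f : Pol n} (h : C c * f = 0) : f = 0 := by
  rcases mul_eq_zero.mp h with h | h
  · exact absurd ((C_eq_zero).mp h) hc
  · exact h

theorem MU_zero_of_nab {h : ℕ}
    (hT : ∀ v : Vec n, ∑ k, ip (D.a k) v • D.a k = ((h : ℂ) / 2) • v)
    {θ : VF n} (hθ : θ ∈ D.M) (d : ℕ) (hd : ∀ l, (θ l).IsHomogeneous d) (hdh : d < h)
    (h0 : ∀ v, D.nab v θ = 0) : θ = 0 := by
  funext l
  have h1 := D.nab_euler hT hθ.1 d hd l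
  have h2 : ∑ k, X k * D.nab (Pi.single k 1) θ l = (0 : Pol n) :=
    Finset.sum_eq_zero fun k _ => by rw [h0]; simp
  rw [h2] at h1
  refine MU_zero_of_C_mul ?_ h1.symm
  intro h3
  have h4 : (d : ℂ) = h := sub_eq_zero.mp h3
  have h5 : d = h := by exact_mod_cast h4
  omega

theorem M_low {h : ℕ} (hT : ∀ v : Vec n, ∑ k, ip (D.a k) v • D.a k = ((h : ℂ) / 2) • v)
    {θ : VF n} (hθ : θ ∈ D.M) (d : ℕ) (hd : ∀ l, (θ l).IsHomogeneous d) (hdh : d < h) :
    θ = 0 := by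
  induction d generalizing θ with
  | zero => exact D.MU_zero_of_nab hT hθ 0 hd hdh fun v => D.nab_const v hθ.1 hd
  | succ d ih =>
    exact D.MU_zero_of_nab hT hθ (d + 1) hd hdh fun v =>
      ih (D.M_stable v hθ) (fun l => D.nab_hom v hθ.1 d hd l) (by omega)

theorem M_hor {h : ℕ} (hT : ∀ v : Vec n, ∑ k, ip (D.a k) v • D.a k = ((h : ℂ) / 2) • v)
    {θ : VF n} (hθ : θ ∈ D.M) (hd : ∀ l, (θ l).IsHomogeneous h) (v : Vec n) :
    D.nab v θ = 0 := by
  cases h with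
  | zero => exact D.nab_const v hθ.1 hd
  | succ h =>
    exact D.M_low hT (D.M_stable v hθ) h (fun l => D.nab_hom v hθ.1 h hd l) (by omega)

theorem MU_gen_hom {h : ℕ} (hT : ∀ v : Vec n, ∑ k, ip (D.a k) v • D.a k = ((h : ℂ) / 2) • v)
    {θ : VF n} (hθ : θ ∈ D.M) (d : ℕ) (hd : ∀ l, (θ l).IsHomogeneous d) :
    θ ∈ Submodule.span (Pol n) {η : VF n | η ∈ D.M ∧ ∀ l, (η l).IsHomogeneous h} := by
  induction d generalizing θ with
  | zero =>
    rcases Nat.eq_zero_or_pos h with rfl | hh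
    · exact Submodule.subset_span ⟨hθ, hd⟩
    · rw [D.M_low hT hθ 0 hd hh]
      exact Submodule.zero_mem _
  | succ d ih =>
    rcases lt_trichotomy (d + 1) h with hh | hh | hh
    · rw [D.M_low hT hθ _ hd hh]
      exact Submodule.zero_mem _
    · subst hh
      exact Submodule.subset_span ⟨hθ, hd⟩
    · have hne : ((d + 1 : ℕ) : ℂ) - h ≠ 0 := by
        intro h3
        have h4 : ((d + 1 : ℕ) : ℂ) = h := sub_eq_zero.mp h3
        have h5 : d + 1 = h := by exact_mod_cast h4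
        omega
      have key : θ = ∑ k, ((C ((((d + 1 : ℕ) : ℂ) - h)⁻¹) * X k : Pol n)) •
          D.nab (Pi.single k 1) θ := by
        funext l
        have h1 := D.nab_euler hT hθ.1 (d + 1) hd l
        rw [Finset.sum_apply]
        simp only [Pi.smul_apply, smul_eq_mul, mul_assoc]
        rw [← Finset.mul_sum, h1, ← mul_assoc, ← C_mul, inv_mul_cancel₀ hne, C_1, one_mul]
      rw [key]
      refine Submodule.sum_mem _ fun k _ => Submodule.smul_mem _ _ ?_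
      exact ih (D.M_stable _ hθ) fun l => D.nab_hom _ hθ.1 d hd l

theorem M_gen {h : ℕ} (hT : ∀ v : Vec n, ∑ k, ip (D.a k) v • D.a k = ((h : ℂ) / 2) • v)
    {θ : VF n} (hθ : θ ∈ D.M) :
    θ ∈ Submodule.span (Pol n) {η : VF n | η ∈ D.M ∧ ∀ l, (η l).IsHomogeneous h} := by
  set B : ℕ := ∑ l, (θ l).totalDegree with hB
  have key : θ = ∑ d ∈ Finset.range (B + 1), (fun l => homogeneousComponent d (θ l) : VF n) := by
    funext l
    rw [Finset.sum_apply]
    have hle : (θ l).totalDegree ≤ B :=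
      Finset.single_le_sum (f := fun l => (θ l).totalDegree) (fun _ _ => Nat.zero_le _)
        (Finset.mem_univ l)
    conv_lhs => rw [← sum_homogeneousComponent (θ l)]
    refine Finset.sum_subset (fun x hx => ?_) (fun x _ hx => ?_)
    · simp only [Finset.mem_range] at hx ⊢
      omega
    · simp only [Finset.mem_range, not_lt] at hx
      exact homogeneousComponent_eq_zero _ _ (by omega)
  rw [key]
  refine Submodule.sum_mem _ fun d _ => ?_
  exact D.MU_gen_hom hT (D.hc_mem_M hθ d) d fun l => homogeneousComponent_isHomogeneous d (θ l)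

end RD

end RFL
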