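import Pool.Agent.RFL.Base

/-!
# RFL-C1 : algebra of the connection `nab`

`D.nab v θ = ∂_v θ - 2 ∑_i ip (a i) v * (θ(α_i)/α_i) * a_i`, with the exact quotient
`quo (al i) (ap i θ)`, which is correct for `θ ∈ Der`.
-/

open MvPolynomial Matrix Finset

noncomputable section

namespace RFL

namespace NabA

theorem quo_spec {n : ℕ} {f g : Pol n} (h : f ∣ g) : g = f * quo f g := by
  unfold quo
  rw [dif_pos h]
  exact h.choose_spec

theorem quo_eq {n : ℕ} {f g q : Pol n} (hf : f ≠ 0) (h : g = f * q) : quo f g = q := by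
  have h1 : f ∣ g := ⟨q, h⟩
  exact mul_left_cancel₀ hf ((quo_spec h1).symm.trans h)

theorem dv_add {n : ℕ} (v : Vec n) (f g : Pol n) : dv v (f + g) = dv v f + dv v g := by
  simp only [dv, map_add, mul_add, Finset.sum_add_distrib]

theorem dv_mul {n : ℕ} (v : Vec n) (f g : Pol n) : dv v (f * g) = dv v f * g + f * dv v g := by
  simp only [dv, Derivation.leibniz, smul_eq_mul, Finset.sum_mul, Finset.mul_sum]
  rw [← Finset.sum_add_distrib]
  exact Finset.sum_congr rfl fun j _ => by ring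

theorem dv_zero {n : ℕ} (v : Vec n) : dv v (0 : Pol n) = 0 := by
  simp [dv]

theorem dv_add_left {n : ℕ} (u v : Vec n) (f : Pol n) : dv (u + v) f = dv u f + dv v f := by
  simp only [dv, Pi.add_apply, map_add, add_mul, Finset.sum_add_distrib]

theorem dv_smul_left {n : ℕ} (c : ℂ) (v : Vec n) (f : Pol n) :
    dv (c • v) f = C c * dv v f := by
  simp only [dv, Pi.smul_apply, smul_eq_mul, map_mul, Finset.mul_sum, mul_assoc]

end NabA

namespace RD

variable {n : ℕ} (D : RD n)

theorem ap_add (i : D.ι) (θ η : VF n) : D.ap i (θ + η) = D.ap i θ + D.ap i η := by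
  simp [ap, mul_add, Finset.sum_add_distrib]

theorem ap_smul (i : D.ι) (f : Pol n) (θ : VF n) : D.ap i (f • θ) = f * D.ap i θ := by
  simp only [ap, Pi.smul_apply, smul_eq_mul, Finset.mul_sum]
  exact Finset.sum_congr rfl fun j _ => by ring

theorem eval_ap (i : D.ι) (θ : VF n) (x : Vec n) :
    eval x (D.ap i θ) = ip (D.a i) (fun l => eval x (θ l)) := by
  simp [ap, ip]

theorem mem_Der {θ : VF n} : θ ∈ D.Der ↔ ∀ i, D.al i ∣ D.ap i θ := Iff.rfl

/-- `θ` is tangent to `H_i` at all points of `H_i` -/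
theorem mem_Der_iff {θ : VF n} : θ ∈ D.Der ↔
    ∀ i x, ip (D.a i) x = 0 → ip (D.a i) (fun l => eval x (θ l)) = 0 := by
  rw [D.mem_Der]
  constructor
  · intro h i x hx
    rw [← D.eval_ap]
    exact (D.al_dvd_iff i _).1 (h i) x hx
  · intro h i
    rw [D.al_dvd_iff]
    intro x hx
    rw [D.eval_ap]
    exact h i x hx

theorem Q_smul_mem_Der (θ : VF n) : D.Q • θ ∈ D.Der := by
  rw [D.mem_Der]
  intro i
  rw [D.ap_smul]
  exact Dvd.dvd.mul_right (Finset.dvd_prod_of_mem _ (Finset.mem_univ i)) _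

theorem euler_mem_Der : (fun l => X l : VF n) ∈ D.Der := by
  rw [D.mem_Der]
  intro i
  exact dvd_refl _

theorem nab_add (v : Vec n) {θ η : VF n} (hθ : θ ∈ D.Der) (hη : η ∈ D.Der) :
    D.nab v (θ + η) = D.nab v θ + D.nab v η := by
  funext l
  have h1 : ∀ i, quo (D.al i) (D.ap i (θ + η)) =
      quo (D.al i) (D.ap i θ) + quo (D.al i) (D.ap i η) := by
    intro i
    refine NabA.quo_eq (D.al_ne i) ?_
    rw [D.ap_add, mul_add, ← NabA.quo_spec (hθ i), ← NabA.quo_spec (hη i)]
  simp only [nab, Pi.add_apply, h1, NabA.dv_add, mul_add, Finset.sum_add_distrib]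
  ring

theorem nab_zero (v : Vec n) : D.nab v 0 = 0 := by
  funext l
  have h1 : ∀ i, quo (D.al i) (D.ap i (0 : VF n)) = 0 := by
    intro i
    refine NabA.quo_eq (D.al_ne i) ?_
    simp [ap]
  simp only [nab, Pi.zero_apply, h1, NabA.dv_zero, mul_zero, Finset.sum_const_zero, sub_zero]

/-- Leibniz rule -/
theorem nab_smul (v : Vec n) (f : Pol n) {θ : VF n} (hθ : θ ∈ D.Der) :
    D.nab v (f • θ) = dv v f • θ + f • D.nab v θ := by
  funext l
  have h1 : ∀ i, quo (D.al i) (D.ap i (f • θ)) = f * quo (D.al i) (D.ap i θ) := by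
    intro i
    refine NabA.quo_eq (D.al_ne i) ?_
    rw [D.ap_smul, mul_left_comm, ← NabA.quo_spec (hθ i)]
  simp only [nab, Pi.add_apply, Pi.smul_apply, smul_eq_mul, h1, NabA.dv_mul]
  have h2 : ∑ i, C (ip (D.a i) v * D.a i l) * (f * quo (D.al i) (D.ap i θ)) =
      f * ∑ i, C (ip (D.a i) v * D.a i l) * quo (D.al i) (D.ap i θ) := by
    rw [Finset.mul_sum]
    exact Finset.sum_congr rfl fun j _ => by ring
  rw [h2]
  ring

theorem nab_sub (v : Vec n) {θ η : VF n} (hθ : θ ∈ D.Der) (hη : η ∈ D.Der) :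
    D.nab v (θ - η) = D.nab v θ - D.nab v η := by
  have h1 : D.nab v (θ - η + η) = D.nab v (θ - η) + D.nab v η :=
    D.nab_add v (D.Der.sub_mem hθ hη) hη
  rw [sub_add_cancel] at h1
  rw [h1, add_sub_cancel_right]

theorem nab_sum {T : Type} (v : Vec n) (S : Finset T) (θ : T → VF n)
    (hθ : ∀ s ∈ S, θ s ∈ D.Der) : D.nab v (∑ s ∈ S, θ s) = ∑ s ∈ S, D.nab v (θ s) := by
  classical
  induction S using Finset.induction_on with
  | empty => simp [D.nab_zero]
  | insert t S ht ih =>
    rw [Finset.sum_insert ht, Finset.sum_insert ht,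
      D.nab_add v (hθ t (Finset.mem_insert_self t S))
        (D.Der.sum_mem fun s hs => hθ s (Finset.mem_insert_of_mem hs)),
      ih fun s hs => hθ s (Finset.mem_insert_of_mem hs)]

theorem nab_add_left (u v : Vec n) (θ : VF n) : D.nab (u + v) θ = D.nab u θ + D.nab v θ := by
  funext l
  simp only [nab, Pi.add_apply, NabA.dv_add_left, ip_add_right, add_mul, map_add,
    Finset.sum_add_distrib]
  ring

theorem nab_smul_left (c : ℂ) (v : Vec n) (θ : VF n) :
    D.nab (c • v) θ = (C c : Pol n) • D.nab v θ := by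
  funext l
  simp only [nab, Pi.smul_apply, smul_eq_mul, NabA.dv_smul_left, ip_smul_right]
  have h2 : ∑ i, C (c * ip (D.a i) v * D.a i l) * quo (D.al i) (D.ap i θ) =
      C c * ∑ i, C (ip (D.a i) v * D.a i l) * quo (D.al i) (D.ap i θ) := by
    rw [Finset.mul_sum]
    refine Finset.sum_congr rfl fun j _ => ?_
    simp only [map_mul]
    ring
  rw [h2]
  ring

/-- value of the connection at a regular point -/
theorem eval_nab (v : Vec n) {θ : VF n} (hθ : θ ∈ D.Der) (x : Vec n)
    (hx : ∀ i, ip (D.a i) x ≠ 0) (l : Fin n) :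
    eval x (D.nab v θ l) = eval x (dv v (θ l)) -
      2 * ∑ i, ip (D.a i) v * ip (D.a i) (fun j => eval x (θ j)) / ip (D.a i) x * D.a i l := by
  have h1 : ∀ i, eval x (quo (D.al i) (D.ap i θ)) =
      ip (D.a i) (fun j => eval x (θ j)) / ip (D.a i) x := by
    intro i
    have h2 := congrArg (eval x) (NabA.quo_spec (hθ i))
    have h3 : eval x (D.al i) = ip (D.a i) x := by
      simp [al, lin, ip]
    rw [map_mul, D.eval_ap, h3] at h2
    rw [h2, mul_div_cancel_left₀ _ (hx i)]
  simp only [nab, map_sub, map_mul, map_sum, h1, eval_C, map_ofNat]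
  congr 2
  exact Finset.sum_congr rfl fun j _ => by ring

end RD

end RFL
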