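import Pool.Agent.RFL.Split
import Pool.Agent.RFL.Strat
import Pool.Agent.RFL.LinPow

/-!
# RFL-M3 : products

`D`, `W` with every root in `W` or in `W^⊥`; `D₁ = subD W`, `D₂ = subD W^⊥`, `Q₁, Q₂` their defining
polynomials.
`Jsym_split`: `r ≥ 1`: `F ∈ D.Jsym (2r-1)` ⇒ `F ∈ (Q₁^r) D₂.Jsym(2r-1) + (Q₂^r) D₁.Jsym(2r-1)`:
transport by `Φ` of `exists_split`. `F ∈ D₁.Jsym ∩ D₂.Jsym` (`Jsym_le_sub`), whose images are extended
from `MvPolynomial (Fin p)`, resp. `(Fin q)` (`map_inl_iInf`, `Ideal.map_pow`). For `i ∈ W`, `j ∈ W^⊥`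
(so `i ≠ j`): `F ∈ IX i j ^ (2r-1) ≤ (al i^r, al j^r)` (`span_pair_pow_le`), so `inf_pow`:
`F ∈ (Q₁^r, Q₂^r)`; then `tens_key`.
`J_split`: `r = 1` and the trivial inclusion: `J = Q₁ J₂ + Q₂ J₁`. (`Q₁ J₂ ≤ J`: `IX i j` with
`i ∈ W` contains `Q₁`; with `i, j ∈ W^⊥`: `J₂ ≤ IX i j`.)
`prod_good`: generators `Q₁ w², Q₂ w¹`: `rank D = rank D₁ + rank D₂` (both `≥ 1`). Containment:
`Q₁^r J₂^r = (Q₁ J₂)^r ≤ J^r`.
-/

open MvPolynomial Matrix Finset

noncomputable section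

namespace RFL

namespace ProdA

/-- ordered pairs of distinct indices -/
abbrev Pr (ι : Type) := {p : ι × ι // p.1 ≠ p.2}

theorem mem_Jsym {n : ℕ} (D : RD n) (m : ℕ) (F : Pol n) :
    F ∈ D.Jsym m ↔ ∀ i j, i ≠ j → F ∈ D.IX i j ^ m := by
  simp only [RD.Jsym, Submodule.mem_iInf]

theorem mem_J {n : ℕ} (D : RD n) (F : Pol n) :
    F ∈ D.J ↔ ∀ i j, i ≠ j → F ∈ D.IX i j := by
  simp only [RD.J, Submodule.mem_iInf]

theorem Jsym_one {n : ℕ} (D : RD n) : D.Jsym 1 = D.J := by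
  ext F
  rw [mem_Jsym, mem_J]
  simp only [pow_one]

theorem map_pair_pow {R S : Type} [CommRing R] [CommRing S] (f : R →+* S) (u v : R) (m : ℕ) :
    (Ideal.span {u, v} ^ m).map f = Ideal.span {f u, f v} ^ m := by
  rw [Ideal.map_pow, Ideal.map_span, Set.image_pair]

/-- the symbolic power built from the forms `c t` -/
def kk {p : ℕ} {ι : Type} (c : ι → Vec p) (m : ℕ) : Ideal (Pol p) :=
  ⨅ t : Pr ι, Ideal.span {lin (c t.1.1), lin (c t.1.2)} ^ m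

/-- transport to the small ring -/
theorem push {n p : ℕ} {S : Type} [CommRing S] (Φ : Pol n →+* S) (f : Pol p →+* S)
    {ι : Type} (a : ι → Vec n) (c : ι → Vec p) (h : ∀ i, Φ (lin (a i)) = f (lin (c i)))
    (hinf : ∀ (k : Pr ι → Ideal (Pol p)), (⨅ t, k t).map f = ⨅ t, (k t).map f)
    (m : ℕ) (F : Pol n)
    (hF : ∀ i j, i ≠ j → F ∈ Ideal.span {lin (a i), lin (a j)} ^ m) :
    Φ F ∈ (kk c m).map f := by
  rw [kk, hinf, Submodule.mem_iInf]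
  intro t
  rw [map_pair_pow, ← h, ← h, ← map_pair_pow]
  exact Ideal.mem_map_of_mem _ (hF _ _ t.2)

/-- transport back -/
theorem pull {n p : ℕ} {S : Type} [CommRing S] (Ψ : S →+* Pol n) (f : Pol p →+* S)
    {ι : Type} (a : ι → Vec n) (c : ι → Vec p) (h : ∀ i, Ψ (f (lin (c i))) = lin (a i))
    (m : ℕ) (i j : ι) (hij : i ≠ j) :
    ((kk c m).map f).map Ψ ≤ Ideal.span {lin (a i), lin (a j)} ^ m := by
  have h1 : kk c m ≤ Ideal.span {lin (c i), lin (c j)} ^ m :=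
    iInf_le (fun t : Pr ι => Ideal.span {lin (c t.1.1), lin (c t.1.2)} ^ m) ⟨(i, j), hij⟩
  refine (Ideal.map_mono (Ideal.map_mono h1)).trans ?_
  rw [map_pair_pow, map_pair_pow, h, h]

theorem not_assoc {n p : ℕ} {ι : Type} (a : ι → Vec n) (c : ι → Vec p)
    (B : Matrix (Fin n) (Fin p) ℂ) (hB : ∀ i, B *ᵥ (c i) = a i)
    (hind : ∀ i j, i ≠ j → LinearIndependent ℂ ![a i, a j]) (hne : ∀ i, a i ≠ 0) (i j : ι)
    (hij : i ≠ j) : ¬ Associated (lin (c i)) (lin (c j)) := by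
  intro h
  have hci : c i ≠ 0 := by
    intro h0
    apply hne i
    rw [← hB i, h0, Matrix.mulVec_zero]
  have h1 := (lin_dvd_lin hci).1 h.dvd
  obtain ⟨x, hx⟩ := Submodule.mem_span_singleton.1 h1
  have h2 : x • a i = a j := by
    rw [← hB i, ← hB j, ← hx, Matrix.mulVec_smul]
  have h3 := LinearIndependent.pair_iff.1 (hind i j hij) x (-1) (by
    rw [h2, neg_one_smul, add_neg_cancel])
  exact one_ne_zero (neg_eq_zero.1 h3.2)

theorem al_dvd_Q' {n : ℕ} (D : RD n) (i : D.ι) : D.al i ∣ D.Q :=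
  Finset.dvd_prod_of_mem _ (Finset.mem_univ i)

theorem al_dvd_Q {n : ℕ} (D : RD n) (U : Submodule ℂ (Vec n)) (k : D.ι) (hk : D.a k ∈ U) :
    D.al k ∣ (D.subD U).Q :=
  al_dvd_Q' (D.subD U) ⟨k, hk⟩

end ProdA

namespace RD

variable {n : ℕ} (D : RD n)

theorem Jsym_split (W : Submodule ℂ (Vec n)) (hW : ∀ i, D.a i ∈ W ∨ D.a i ∈ perpS W) (r : ℕ)
    (hr : 1 ≤ r) : D.Jsym (2 * r - 1) ≤
      Ideal.span {(D.subD W).Q ^ r} * (D.subD (perpS W)).Jsym (2 * r - 1) ⊔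
      Ideal.span {(D.subD (perpS W)).Q ^ r} * (D.subD W).Jsym (2 * r - 1) := by
  classical
  intro F hF
  obtain ⟨p, q, B₁, B₂, Φ, hΦ1, hΦ2⟩ := exists_split W
  set m := 2 * r - 1 with hm
  -- the two families of forms in the small rings
  let c₁ : (D.subD W).ι → Vec p := fun i => B₁ᴴ *ᵥ (D.subD W).a i
  let c₂ : (D.subD (perpS W)).ι → Vec q := fun i => B₂ᴴ *ᵥ (D.subD (perpS W)).a i
  let Φr : Pol n →+* MvPolynomial (Fin p ⊕ Fin q) ℂ := Φ.toAlgHom.toRingHom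
  let Ψr : MvPolynomial (Fin p ⊕ Fin q) ℂ →+* Pol n := Φ.symm.toAlgHom.toRingHom
  let f₁ : Pol p →+* MvPolynomial (Fin p ⊕ Fin q) ℂ :=
    (rename (Sum.inl : Fin p → Fin p ⊕ Fin q)).toRingHom
  let f₂ : Pol q →+* MvPolynomial (Fin p ⊕ Fin q) ℂ :=
    (rename (Sum.inr : Fin q → Fin p ⊕ Fin q)).toRingHom
  have hmem1 : ∀ i : (D.subD W).ι, (D.subD W).a i ∈ W := fun i => i.2
  have hmem2 : ∀ i : (D.subD (perpS W)).ι, (D.subD (perpS W)).a i ∈ perpS W := fun i => i.2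
  have hf1 : ∀ i, Φr (lin ((D.subD W).a i)) = f₁ (lin (c₁ i)) := fun i => (hΦ1 _ (hmem1 i)).1
  have hf2 : ∀ i, Φr (lin ((D.subD (perpS W)).a i)) = f₂ (lin (c₂ i)) :=
    fun i => (hΦ2 _ (hmem2 i)).1
  have hΨΦ : ∀ g, Ψr (Φr g) = g := fun g => Φ.symm_apply_apply g
  have hg1 : ∀ i, Ψr (f₁ (lin (c₁ i))) = lin ((D.subD W).a i) := fun i => by
    rw [← hf1, hΨΦ]
  have hg2 : ∀ i, Ψr (f₂ (lin (c₂ i))) = lin ((D.subD (perpS W)).a i) := fun i => by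
    rw [← hf2, hΨΦ]
  have hF1 : F ∈ (D.subD W).Jsym m := D.Jsym_le_sub W m hF
  have hF2 : F ∈ (D.subD (perpS W)).Jsym m := D.Jsym_le_sub (perpS W) m hF
  have h₁ : Φr F ∈ (ProdA.kk c₁ m).map f₁ :=
    ProdA.push Φr f₁ (D.subD W).a c₁ hf1 (fun k => map_inl_iInf k) m F
      ((ProdA.mem_Jsym _ _ _).1 hF1)
  have h₂ : Φr F ∈ (ProdA.kk c₂ m).map f₂ :=
    ProdA.push Φr f₂ (D.subD (perpS W)).a c₂ hf2 (fun k => map_inr_iInf k) m F
      ((ProdA.mem_Jsym _ _ _).1 hF2)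
  -- the product of the forms
  let q₁ : Pol p := ∏ i, lin (c₁ i)
  let q₂ : Pol q := ∏ i, lin (c₂ i)
  have hq1 : Ψr (f₁ q₁) = (D.subD W).Q := by
    simp only [q₁, map_prod, hg1]
    rfl
  have hq2 : Ψr (f₂ q₂) = (D.subD (perpS W)).Q := by
    simp only [q₂, map_prod, hg2]
    rfl
  have hB1 : ∀ i, B₁ *ᵥ (c₁ i) = (D.subD W).a i := fun i => (hΦ1 _ (hmem1 i)).2
  have hB2 : ∀ i, B₂ *ᵥ (c₂ i) = (D.subD (perpS W)).a i := fun i => (hΦ2 _ (hmem2 i)).2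
  have hc1 : ∀ i, c₁ i ≠ 0 := by
    intro i h0
    apply (D.subD W).a_ne i
    rw [← hB1 i, h0, Matrix.mulVec_zero]
  have hc2 : ∀ i, c₂ i ≠ 0 := by
    intro i h0
    apply (D.subD (perpS W)).a_ne i
    rw [← hB2 i, h0, Matrix.mulVec_zero]
  have h₃ : Φr F ∈ Ideal.span {f₁ q₁ ^ r, f₂ q₂ ^ r} := by
    refine inf_pow (univ : Finset (D.subD W).ι) (univ : Finset (D.subD (perpS W)).ι)
      (fun i => lin (c₁ i)) (fun i => lin (c₂ i)) (fun i _ => lin_prime (hc1 i))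
      (fun i _ => lin_prime (hc2 i)) ?_ ?_ r (Φr F) ?_
    · intro i _ j _ hij
      exact ProdA.not_assoc (D.subD W).a c₁ B₁ hB1 (D.subD W).indep (D.subD W).a_ne i j hij
    · intro i _ j _ hij
      exact ProdA.not_assoc (D.subD (perpS W)).a c₂ B₂ hB2 (D.subD (perpS W)).indep
        (D.subD (perpS W)).a_ne i j hij
    · intro i _ j _
      have hij : i.1 ≠ j.1 := by
        intro h
        have h1 : D.a i.1 ∈ W := i.2
        have h2 : D.a j.1 ∈ perpS W := j.2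
        rw [← h] at h2
        have h3 : ip (D.a i.1) (D.a i.1) = 0 := h2 _ h1
        rw [D.unit] at h3
        exact one_ne_zero h3
      have h1 : F ∈ D.IX i.1 j.1 ^ m := (ProdA.mem_Jsym _ _ _).1 hF _ _ hij
      have h2 := Ideal.mem_map_of_mem Φr h1
      unfold RD.IX at h2
      rw [ProdA.map_pair_pow] at h2
      have h3 := span_pair_pow_le _ _ r hr h2
      have e1 : Φr (D.al i.1) = f₁ (lin (c₁ i)) := hf1 i
      have e2 : Φr (D.al j.1) = f₂ (lin (c₂ j)) := hf2 j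
      rw [e1, e2] at h3
      exact h3
  have h₄ : Φr F ∈ Ideal.span {f₁ (q₁ ^ r), f₂ (q₂ ^ r)} := by
    rw [map_pow, map_pow]
    exact h₃
  have h₅ := tens_key (ProdA.kk c₁ m) (ProdA.kk c₂ m) (q₁ ^ r) (q₂ ^ r) (Φr F) h₁ h₂ h₄
  have h₆ := Ideal.mem_map_of_mem Ψr h₅
  rw [hΨΦ, Ideal.map_sup, Ideal.map_mul, Ideal.map_mul, Ideal.map_span, Ideal.map_span,
    Set.image_singleton, Set.image_singleton] at h₆
  have e1 : Ψr (rename Sum.inl (q₁ ^ r)) = (D.subD W).Q ^ r := by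
    rw [← hq1, ← map_pow, ← map_pow]
    rfl
  have e2 : Ψr (rename Sum.inr (q₂ ^ r)) = (D.subD (perpS W)).Q ^ r := by
    rw [← hq2, ← map_pow, ← map_pow]
    rfl
  rw [e1, e2] at h₆
  have i2 : ((ProdA.kk c₂ m).map f₂).map Ψr ≤ (D.subD (perpS W)).Jsym m := by
    intro g hg
    rw [ProdA.mem_Jsym]
    intro i j hij
    exact ProdA.pull Ψr f₂ (D.subD (perpS W)).a c₂ hg2 m i j hij hg
  have i1 : ((ProdA.kk c₁ m).map f₁).map Ψr ≤ (D.subD W).Jsym m := by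
    intro g hg
    rw [ProdA.mem_Jsym]
    intro i j hij
    exact ProdA.pull Ψr f₁ (D.subD W).a c₁ hg1 m i j hij hg
  have i3 := sup_le_sup
    (Ideal.mul_mono (le_refl (Ideal.span {(D.subD W).Q ^ r})) i2)
    (Ideal.mul_mono (le_refl (Ideal.span {(D.subD (perpS W)).Q ^ r})) i1)
  exact i3 h₆

theorem J_split (W : Submodule ℂ (Vec n)) (hW : ∀ i, D.a i ∈ W ∨ D.a i ∈ perpS W) :
    D.J = Ideal.span {(D.subD W).Q} * (D.subD (perpS W)).J ⊔
      Ideal.span {(D.subD (perpS W)).Q} * (D.subD W).J := by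
  classical
  have key : ∀ (U V : Submodule ℂ (Vec n)), (∀ i, D.a i ∈ U ∨ D.a i ∈ V) →
      Ideal.span {(D.subD U).Q} * (D.subD V).J ≤ D.J := by
    intro U V hUV
    rw [Ideal.mul_le]
    intro a ha b hb
    rw [ProdA.mem_J] at hb ⊢
    intro i j hij
    have hQ : ∀ k, D.a k ∈ U → D.al k ∣ a := by
      intro k hk
      exact dvd_trans (ProdA.al_dvd_Q D U k hk) (Ideal.mem_span_singleton.1 ha)
    have hi' : D.al i ∈ D.IX i j := Ideal.subset_span (by simp)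
    have hj' : D.al j ∈ D.IX i j := Ideal.subset_span (by simp)
    rcases hUV i with hi | hi
    · exact Ideal.mul_mem_right _ _ (Ideal.mem_of_dvd _ (hQ i hi) hi')
    · rcases hUV j with hj | hj
      · exact Ideal.mul_mem_right _ _ (Ideal.mem_of_dvd _ (hQ j hj) hj')
      · exact Ideal.mul_mem_left _ _ (hb ⟨i, hi⟩ ⟨j, hj⟩ (fun h => hij (Subtype.ext_iff.1 h)))
  apply le_antisymm
  · have h := D.Jsym_split W hW 1 le_rfl
    simp only [mul_one, Nat.add_one_sub_one, pow_one, ProdA.Jsym_one] at h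
    have e : 2 * 1 - 1 = 1 := rfl
    simpa only [ProdA.Jsym_one] using h
  · refine sup_le (key W (perpS W) hW) (key (perpS W) W fun i => (hW i).symm)

end RD

end RFL
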