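import Pool.Agent.RFL.AvV

/-!
# RFL-E2 : independence over the invariants and over `Pol n`

`r_indep`: `δ j : VF n` homogeneous of degree `p j`, `ℂ`-independent modulo `Ip` (componentwise).
Then they are independent over the invariants. Taking components of total degree `d` (`r_j` replaced
by its component of degree `d - p j`; invariants are graded) assume `r_j` homogeneous with
`deg r_j + p j = d` (and `r_j = 0` if `p j > d`), not all zero. Let `B` be a subset of the indices,
minimal (in cardinality) such that every `r_k` is in the ideal `span {r_j, j ∈ B}` of `Pol n`. By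
averaging (`av_mul_inv`) and taking components, for `k ∉ B`, `r_k = ∑_{j∈B} e_{kj} r_j` with `e_{kj}`
invariant homogeneous of degree `p j - p k` (`0` if negative). `B` is nonempty. Fix `j₀ ∈ B`; by
minimality `r_{j₀}` is not in the span of the other `r_j`, `j ∈ B`. For `j ∈ B` put
`u_j = δ_j + ∑_{k∉B} e_{kj} δ_k`, homogeneous of degree `p j`, `∑_{j∈B} r_j u_j = 0`. By `chevalley`
(componentwise) `u_{j₀} ∈ Ip`; the `e_{kj₀}` of positive degree are in `Ip`, those of degree `0` are
constants: a `ℂ`-linear relation modulo `Ip` with coefficient `1` at `j₀`. Contradiction.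

`s_indep`: `δ j` invariant vector fields independent over the invariants; `∑ f_j δ_j = 0`,
`f_j ∈ Pol n`. For every `p ∈ Pol n`, averaging (`avV`) `p ∑ f_j δ_j` gives `∑ av (p f_j) δ_j = 0`,
so `av (p f_j) = 0`. With `p = ∏_{g ≠ 1} act g f_j`: `p f_j = ∏_g act g f_j` is invariant, so it is
`0`, so `f_j = 0`.
-/

open MvPolynomial Matrix Finset

noncomputable section

namespace RFL

namespace RD

variable {n : ℕ} (D : RD n)

theorem RIndB_prod_inv (f : Pol n) (h : D.G) :
    D.act h (∏ g, D.act g f) = ∏ g, D.act g f := by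
  rw [map_prod]
  have : ∀ g, D.act h (D.act g f) = D.act (Equiv.mulLeft h g) f := fun g => D.act_act h g f
  rw [Finset.prod_congr rfl fun g _ => this g]
  exact Equiv.prod_comp (Equiv.mulLeft h) fun g => D.act g f

theorem s_indep {T : Type} [Fintype T] (δ : T → VF n) (hδ : ∀ j, δ j ∈ D.inv)
    (hR : ∀ r : T → Pol n, (∀ j g, D.act g (r j) = r j) → (∀ l, ∑ j, r j * δ j l = 0) →
      ∀ j, r j = 0)
    (f : T → Pol n) (hf : ∀ l, ∑ j, f j * δ j l = 0) : ∀ j, f j = 0 := by
  intro j
  have key : ∀ p : Pol n, D.av (p * f j) = 0 := by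
    intro p
    refine hR (fun j => D.av (p * f j)) (fun j g => D.av_inv _ g) ?_ j
    intro l
    have h1 : ∑ j, (p * f j) • δ j = (0 : VF n) := by
      funext l
      rw [Finset.sum_apply]
      have : ∀ j, ((p * f j) • δ j) l = p * (f j * δ j l) := fun j => by
        rw [Pi.smul_apply, smul_eq_mul, mul_assoc]
      rw [Finset.sum_congr rfl fun j _ => this j, ← Finset.mul_sum, hf l, mul_zero]
      rfl
    have h2 : D.avV (0 : VF n) = 0 := by
      have := D.avV_sum (∅ : Finset T) δ
      rwa [Finset.sum_empty, Finset.sum_empty] at this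
    have h3 := D.avV_sum Finset.univ (fun j => (p * f j) • δ j)
    rw [h1, h2] at h3
    have h4 := congrFun h3 l
    rw [Finset.sum_apply] at h4
    have h5 : ∀ j, D.avV ((p * f j) • δ j) l = D.av (p * f j) * δ j l := fun j => by
      rw [D.avV_smul_inv _ (hδ j), Pi.smul_apply, smul_eq_mul]
    rw [Finset.sum_congr rfl fun j _ => h5 j] at h4
    exact h4.symm
  have h6 : (∏ g ∈ Finset.univ.erase (1 : D.G), D.act g (f j)) * f j = ∏ g, D.act g (f j) := by
    have := Finset.prod_erase_mul Finset.univ (fun g => D.act g (f j)) (Finset.mem_univ (1 : D.G))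
    rwa [D.act_one] at this
  have h7 := key (∏ g ∈ Finset.univ.erase (1 : D.G), D.act g (f j))
  rw [h6, D.av_of_inv _ (D.RIndB_prod_inv (f j)), Finset.prod_eq_zero_iff] at h7
  obtain ⟨g, -, hg⟩ := h7
  have h8 := D.act_act g⁻¹ g (f j)
  rwa [hg, map_zero, inv_mul_cancel, D.act_one, eq_comm] at h8

end RD

end RFL
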