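import Pool.Agent.RFL.Chev

/-!
# RFL-E2 : independence over the invariants and over `Pol n`

`r_indep`: `δ j : VF n` homogeneous of degree `p j`, `ℂ`-independent modulo `Ip` (componentwise).
Then they are independent over the invariants. Taking components of total degree `d` (`r_j` replaced
by its component of degree `d - p j`; invariants are graded) assume `r_j` homogeneous with
`deg r_j + p j = d` (and `r_j = 0` if `p j > d`), not all zero. Let `B` be a subset of the indices,
minimal (in cardinality) such that every `r_k` is in the ideal `span {r_j, j ∈ B}` of `Pol n`. By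
averaging (`av_mul_inv`) and taking components, for `k ∉ B`, `r_k = ∑_{j∈B} e_{kj} r_j` with `e_{kj}`
invariant homogeneous of degree `p j - p k` (`0` if negative). `B` is nonempty. Fix `j₀ ∈ B`; by
minimality `r_{j₀}` is not in the span of the other `r_j`, `j ∈ B`. For `j ∈ B` put
`u_j = δ_j + ∑_{k∉B} e_{kj} δ_k`, homogeneous of degree `p j`, `∑_{j∈B} r_j u_j = 0`. By `chevalley`
(componentwise) `u_{j₀} ∈ Ip`; the `e_{kj₀}` of positive degree are in `Ip`, those of degree `0` are
constants: a `ℂ`-linear relation modulo `Ip` with coefficient `1` at `j₀`. Contradiction.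

`s_indep`: `δ j` invariant vector fields independent over the invariants; `∑ f_j δ_j = 0`,
`f_j ∈ Pol n`. For every `p ∈ Pol n`, averaging (`avV`) `p ∑ f_j δ_j` gives `∑ av (p f_j) δ_j = 0`,
so `av (p f_j) = 0`. With `p = ∏_{g ≠ 1} act g f_j`: `p f_j = ∏_g act g f_j` is invariant, so it is
`0`, so `f_j = 0`.
-/

open MvPolynomial Matrix Finset

noncomputable section

namespace RFL

namespace RIndA

theorem hc_mul {n : ℕ} (f q : Pol n) (e d : ℕ) (hq : q.IsHomogeneous e) :
    homogeneousComponent d (f * q) =
      if e ≤ d then homogeneousComponent (d - e) f * q else 0 := by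
  induction f using MvPolynomial.induction_on' with
  | monomial s c =>
    have h1 : (monomial s c : Pol n).IsHomogeneous s.degree := isHomogeneous_monomial c rfl
    rw [homogeneousComponent_of_mem (h1.mul hq), homogeneousComponent_of_mem h1]
    split_ifs with h2 h3 h4 h5 h6
    · rfl
    · omega
    · omega
    · omega
    · rw [zero_mul]
    · rfl
  | add a b ha hb =>
    rw [add_mul, map_add, ha, hb]
    split_ifs
    · rw [map_add, add_mul]
    · rw [add_zero]

theorem hc_act {n : ℕ} (D : RD n) (g : D.G) (f : Pol n) (d : ℕ) :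
    homogeneousComponent d (D.act g f) = D.act g (homogeneousComponent d f) := by
  induction f using MvPolynomial.induction_on' with
  | monomial s c =>
    have h1 : (monomial s c : Pol n).IsHomogeneous s.degree := isHomogeneous_monomial c rfl
    rw [homogeneousComponent_of_mem (D.act_hom g _ _ h1), homogeneousComponent_of_mem h1]
    split_ifs
    · rfl
    · rw [map_zero]
  | add a b ha hb =>
    rw [map_add, map_add, ha, hb, map_add, map_add]

theorem av_sum {n : ℕ} (D : RD n) {T : Type} (S : Finset T) (f : T → Pol n) :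
    D.av (∑ j ∈ S, f j) = ∑ j ∈ S, D.av (f j) := by
  simp only [RD.av, map_sum]
  rw [Finset.sum_comm, Finset.mul_sum]

theorem homog_case {n : ℕ} (D : RD n) {T : Type} [Fintype T] [DecidableEq T] (δ : T → VF n)
    (p : T → ℕ) (hp : ∀ j l, (δ j l).IsHomogeneous (p j))
    (hind : ∀ c : T → ℂ, (∀ l, ∑ j, C (c j) * δ j l ∈ D.Ip) → ∀ j, c j = 0) (d : ℕ)
    (r : T → Pol n) (hr : ∀ j g, D.act g (r j) = r j) (hrel : ∀ l, ∑ j, r j * δ j l = 0)
    (hhom : ∀ j, p j ≤ d → (r j).IsHomogeneous (d - p j)) (hz : ∀ j, d < p j → r j = 0) :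
    ∀ j, r j = 0 := by
  classical
  by_contra hcon
  push Not at hcon
  obtain ⟨k₀, hk₀⟩ := hcon
  obtain ⟨B, hB, hmin⟩ := Finset.exists_min_image
    (Finset.univ.filter (fun B : Finset T => ∀ k, r k ∈ Ideal.span (r '' (B : Set T))))
    Finset.card ⟨Finset.univ, by
      simp only [Finset.mem_filter, Finset.mem_univ, true_and, Finset.coe_univ, Set.image_univ]
      intro k
      exact Ideal.subset_span ⟨k, rfl⟩⟩
  simp only [Finset.mem_filter, Finset.mem_univ, true_and] at hB hmin
  have hnot : ∀ j ∈ B, r j ∉ Ideal.span (r '' (B.erase j : Set T)) := by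
    intro j hj hmem
    have h1 : ∀ k, r k ∈ Ideal.span (r '' ((B.erase j : Finset T) : Set T)) := by
      intro k
      have h2 : Ideal.span (r '' (B : Set T)) ≤
          Ideal.span (r '' ((B.erase j : Finset T) : Set T)) := by
        rw [Ideal.span_le]
        rintro _ ⟨i, hi, rfl⟩
        by_cases hij : i = j
        · rw [hij]; exact hmem
        · exact Ideal.subset_span ⟨i, by
            rw [Finset.mem_coe, Finset.mem_erase]; exact ⟨hij, hi⟩, rfl⟩
      exact h2 (hB k)
    have h3 := hmin _ h1
    have h4 := Finset.card_erase_lt_of_mem hj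
    omega
  have hex : ∀ k, ∃ e : T → Pol n, (∀ j, p k ≤ p j → (e j).IsHomogeneous (p j - p k)) ∧
      (∀ j, p j < p k → e j = 0) ∧ (∀ j g, D.act g (e j) = e j) ∧
      r k = ∑ j ∈ B, e j * r j := by
    intro k
    by_cases hk : p k ≤ d
    · obtain ⟨f, hf⟩ := (Submodule.mem_span_image_finset_iff_exists_fun' (Pol n)).1 (hB k)
      refine ⟨fun j => if p k ≤ p j then homogeneousComponent (p j - p k) (D.av (f j)) else 0,
        ?_, ?_, ?_, ?_⟩
      · intro j hj
        simp only [if_pos hj]
        exact homogeneousComponent_isHomogeneous _ _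
      · intro j hj
        simp only [if_neg (not_le.2 hj)]
      · intro j g
        dsimp only
        split_ifs
        · rw [← hc_act, D.av_inv]
        · rw [map_zero]
      · have h1 : r k = ∑ j ∈ B, D.av (f j) * r j := by
          rw [← D.av_of_inv (r k) (hr k), ← hf, av_sum]
          apply Finset.sum_congr rfl
          intro j _
          rw [smul_eq_mul, mul_comm (f j), D.av_mul_inv _ _ (hr j), mul_comm]
        have h2 : homogeneousComponent (d - p k) (r k) = r k :=
          homogeneousComponent_eq_self (hhom k hk)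
        rw [← h2, h1, map_sum]
        apply Finset.sum_congr rfl
        intro j _
        beta_reduce
        by_cases hj : p j ≤ d
        · rw [hc_mul _ _ _ _ (hhom j hj)]
          by_cases hkj : p k ≤ p j
          · rw [if_pos (by omega), if_pos hkj]
            congr 3
            omega
          · rw [if_neg (by omega), if_neg hkj, zero_mul]
        · rw [hz j (by omega), mul_zero, mul_zero, map_zero]
    · refine ⟨fun _ => 0, ?_, ?_, ?_, ?_⟩
      · intro j _; exact isHomogeneous_zero _ _ _
      · intro j _; rfl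
      · intro j g; exact map_zero _
      · rw [hz k (by omega)]; simp
  choose e he1 he2 he3 he4 using hex
  obtain ⟨j₀, hj₀⟩ : B.Nonempty := by
    rw [Finset.nonempty_iff_ne_empty]
    rintro rfl
    have := he4 k₀
    rw [Finset.sum_empty] at this
    exact hk₀ this
  let u : {j // j ∈ B} → Fin n → Pol n := fun j l =>
    δ j.1 l + ∑ k ∈ Bᶜ, e k j.1 * δ k l
  have hu : ∀ l, u ⟨j₀, hj₀⟩ l ∈ D.Ip := by
    intro l
    refine D.chevalley (T := {j // j ∈ B}) (fun j => r j.1) (fun j => u j l)
      (fun j g => hr j.1 g) ?_ ⟨j₀, hj₀⟩ (p j₀) ?_ ?_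
    · have h1 : ∑ j : {j // j ∈ B}, r j.1 * u j l =
          ∑ j ∈ B, r j * (δ j l + ∑ k ∈ Bᶜ, e k j * δ k l) :=
        Finset.sum_coe_sort B (fun j => r j * (δ j l + ∑ k ∈ Bᶜ, e k j * δ k l))
      rw [h1]
      have h2 : ∑ j ∈ B, r j * (δ j l + ∑ k ∈ Bᶜ, e k j * δ k l) =
          ∑ j ∈ B, r j * δ j l + ∑ k ∈ Bᶜ, r k * δ k l := by
        simp only [mul_add, Finset.sum_add_distrib, Finset.mul_sum]
        congr 1
        rw [Finset.sum_comm]
        apply Finset.sum_congr rfl
        intro k _
        rw [he4 k, Finset.sum_mul]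
        apply Finset.sum_congr rfl
        intro j _
        ring
      rw [h2, Finset.sum_add_sum_compl, hrel l]
    · refine (hp j₀ l).add ?_
      apply IsHomogeneous.sum
      intro k _
      by_cases hk : p k ≤ p j₀
      · have := (he1 k j₀ hk).mul (hp k l)
        rwa [Nat.sub_add_cancel hk] at this
      · rw [he2 k j₀ (by omega), zero_mul]
        exact isHomogeneous_zero _ _ _
    · intro hmem
      apply hnot j₀ hj₀
      refine Ideal.span_mono ?_ hmem
      rintro _ ⟨j, hj, rfl⟩
      refine ⟨j.1, ?_, rfl⟩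
      rw [Finset.mem_coe, Finset.mem_erase]
      exact ⟨fun h => hj (Subtype.ext h), j.2⟩
  let c : T → ℂ := fun k => if k = j₀ then 1 else if k ∈ B then 0 else
    if p k = p j₀ then coeff 0 (e k j₀) else 0
  have hc : ∀ l, ∑ j, C (c j) * δ j l ∈ D.Ip := by
    intro l
    have h1 : ∑ j, C (c j) * δ j l = δ j₀ l + ∑ k ∈ Bᶜ, C (c k) * δ k l := by
      rw [← Finset.sum_add_sum_compl B]
      congr 1
      rw [Finset.sum_eq_single j₀]
      · simp [c]
      · intro j hj hne
        simp [c, hne, hj]
      · intro h; exact absurd hj₀ h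
    have h2 : ∑ j, C (c j) * δ j l =
        u ⟨j₀, hj₀⟩ l - ∑ k ∈ Bᶜ, (e k j₀ - C (c k)) * δ k l := by
      rw [h1]
      simp only [u, sub_mul, Finset.sum_sub_distrib]
      ring
    rw [h2]
    refine Ideal.sub_mem _ (hu l) (Ideal.sum_mem _ fun k hk => Ideal.mul_mem_right _ _ ?_)
    rw [Finset.mem_compl] at hk
    have hkj : k ≠ j₀ := fun h => hk (h ▸ hj₀)
    rcases lt_trichotomy (p k) (p j₀) with h | h | h
    · have hck : c k = 0 := by simp [c, hkj, hk, h.ne]
      rw [hck, C_0, sub_zero]
      apply Ideal.subset_span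
      exact ⟨p j₀ - p k, by omega, he1 k j₀ h.le, he3 k j₀⟩
    · have hck : c k = coeff 0 (e k j₀) := by simp [c, hkj, hk, h]
      have h3 := he1 k j₀ h.le
      rw [h, Nat.sub_self] at h3
      have h4 : e k j₀ = C (coeff 0 (e k j₀)) := by
        rw [← homogeneousComponent_zero, homogeneousComponent_eq_self h3]
      rw [hck, ← h4, sub_self]
      exact Ideal.zero_mem _
    · have hck : c k = 0 := by simp [c, hkj, hk, h.ne']
      rw [hck, C_0, sub_zero, he2 k j₀ h]
      exact Ideal.zero_mem _
  have := hind c hc j₀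
  simp [c] at this

end RIndA

namespace RD

variable {n : ℕ} (D : RD n)

theorem r_indep {T : Type} [Fintype T] [DecidableEq T] (δ : T → VF n) (p : T → ℕ)
    (hp : ∀ j l, (δ j l).IsHomogeneous (p j))
    (hind : ∀ c : T → ℂ, (∀ l, ∑ j, C (c j) * δ j l ∈ D.Ip) → ∀ j, c j = 0)
    (r : T → Pol n) (hr : ∀ j g, D.act g (r j) = r j) (hrel : ∀ l, ∑ j, r j * δ j l = 0) :
    ∀ j, r j = 0 := by
  have key : ∀ d j, (if p j ≤ d then homogeneousComponent (d - p j) (r j) else 0) = 0 := by
    intro d
    refine RIndA.homog_case D δ p hp hind d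
      (fun j => if p j ≤ d then homogeneousComponent (d - p j) (r j) else 0) ?_ ?_ ?_ ?_
    · intro j g
      split_ifs
      · rw [← RIndA.hc_act, hr j g]
      · rw [map_zero]
    · intro l
      have h1 := congrArg (homogeneousComponent d) (hrel l)
      rw [map_sum, map_zero] at h1
      refine Eq.trans ?_ h1
      apply Finset.sum_congr rfl
      intro j _
      rw [RIndA.hc_mul _ _ _ _ (hp j l), ite_mul, zero_mul]
    · intro j hj
      simp only [if_pos hj]
      exact homogeneousComponent_isHomogeneous _ _
    · intro j hj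
      simp only [if_neg (not_le.2 hj)]
  intro j
  rw [← sum_homogeneousComponent (r j)]
  apply Finset.sum_eq_zero
  intro e _
  have := key (e + p j) j
  rwa [if_pos (by omega), Nat.add_sub_cancel] at this

end RD

end RFL
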