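import Pool.Agent.RFL.Strat

/-!
# RFL-I1, I2 : rank of the matrix `b` and nonvanishing minors

`rank_bound`: at `x` let `k' = max (rank (loc x)) 1`, `J(loc x) = span (range w)`, `w : Fin k' → Pol`.
`g_k ∈ J(A) ⊆ J(loc x)`: `g_k = ∑_l A_{kl} w_l`; `q_x w_l ∈ J(A) = span (range g)`:
`q_x w_l = ∑_k B_{lk} g_k`. So `q_x g_i = ∑_k (A B)_{ik} g_k`, i.e. each row of `q_x 1 - A B` is a syzygy:
`q_x 1 - A B = W b` (`HB.syz`). At `x`, `q_x(x) ≠ 0`: `m + 1 = rank (q_x(x) 1) ≤ rank (A B) + rank (W b)
≤ k' + rank b(x)`.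

`exists_minor`: `rank (rows in R of b(x)) ≥ rank b(x) - (m - |R|) ≥ |R| + 1 - k'`. A matrix of rank `≥ t`
has a `t × t` submatrix with nonzero determinant.
-/

open MvPolynomial Matrix Finset

noncomputable section

namespace RFL

/-- the rank condition used in the linear type theorem -/
def RankHyp {m : ℕ} (D : RD (m + 1)) (b : Fin m → Fin (m + 1) → Pol (m + 1)) : Prop :=
  ∀ x : Vec (m + 1), m + 1 ≤ (evm x b).rank + max (D.loc x).rank 1

private theorem rank_add_le' {p q : ℕ} (A B : Matrix (Fin p) (Fin q) ℂ) :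
    (A + B).rank ≤ A.rank + B.rank := by
  unfold Matrix.rank
  have h1 : LinearMap.range (A + B).mulVecLin
      ≤ LinearMap.range A.mulVecLin ⊔ LinearMap.range B.mulVecLin := by
    rintro _ ⟨v, rfl⟩
    rw [Matrix.mulVecLin_add, LinearMap.add_apply]
    exact Submodule.add_mem_sup ⟨v, rfl⟩ ⟨v, rfl⟩
  exact (Submodule.finrank_mono h1).trans
    (Submodule.finrank_add_le_finrank_add_finrank _ _)

theorem rank_bound {m : ℕ} (D : RD (m + 1)) {d : ℕ} {c : Fin m → ℕ}
    {g : Fin (m + 1) → Pol (m + 1)} {b : Fin m → Fin (m + 1) → Pol (m + 1)}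
    (hB : HB D d c g b) (hJ : D.J = Ideal.span (Set.range g)) (x : Vec (m + 1))
    (hx : ∃ w : Fin (max (D.loc x).rank 1) → Pol (m + 1),
      (D.loc x).J = Ideal.span (Set.range w)) :
    m + 1 ≤ (evm x b).rank + max (D.loc x).rank 1 := by
  obtain ⟨w, hw⟩ := hx
  generalize max (D.loc x).rank 1 = K at w hw ⊢
  have hA : ∀ k, ∃ c : Fin K → Pol (m + 1), ∑ l, c l * w l = g k := by
    intro k
    have h1 : g k ∈ D.J := by
      rw [hJ]
      exact Ideal.subset_span ⟨k, rfl⟩
    have h2 : g k ∈ (D.loc x).J := D.J_le_sub (perp x) h1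
    rw [hw] at h2
    exact Ideal.mem_span_range_iff_exists_fun.mp h2
  have hBm : ∀ l, ∃ c : Fin (m + 1) → Pol (m + 1), ∑ k, c k * g k = D.qx x * w l := by
    intro l
    have h1 : w l ∈ (D.loc x).J := by
      rw [hw]
      exact Ideal.subset_span ⟨l, rfl⟩
    have h2 := D.qx_mul_mem x (w l) h1
    rw [hJ] at h2
    exact Ideal.mem_span_range_iff_exists_fun.mp h2
  choose A hA using hA
  choose B hBm using hBm
  have hsyz : ∀ i : Fin (m + 1), ∃ W : Fin m → Pol (m + 1), ∀ k,
      (if k = i then D.qx x else 0) - ∑ l, A i l * B l k = ∑ j, W j * b j k := by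
    intro i
    apply hB.syz
    have h1 : ∑ k, (∑ l, A i l * B l k) * g k = D.qx x * g i := by
      have h2 : ∀ k, (∑ l, A i l * B l k) * g k = ∑ l, A i l * (B l k * g k) := by
        intro k
        rw [Finset.sum_mul]
        exact Finset.sum_congr rfl fun l _ => by ring
      rw [Finset.sum_congr rfl fun k _ => h2 k, Finset.sum_comm]
      have h3 : ∀ l, ∑ k, A i l * (B l k * g k) = A i l * (D.qx x * w l) := by
        intro l
        rw [← Finset.mul_sum, hBm l]
      rw [Finset.sum_congr rfl fun l _ => h3 l, ← hA i, Finset.mul_sum]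
      exact Finset.sum_congr rfl fun l _ => by ring
    have h4 : ∀ k, ((if k = i then D.qx x else 0) - ∑ l, A i l * B l k) * g k
        = (if k = i then D.qx x * g k else 0) - (∑ l, A i l * B l k) * g k := by
      intro k
      by_cases hk : k = i
      · simp only [hk, if_true]; ring
      · simp only [hk, if_false]; ring
    rw [Finset.sum_congr rfl fun k _ => h4 k, Finset.sum_sub_distrib, h1,
      Finset.sum_ite_eq' Finset.univ i (fun k => D.qx x * g k)]
    simp
  choose W hW using hsyz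
  set Am : Matrix (Fin (m + 1)) (Fin K) ℂ := Matrix.of fun i l => eval x (A i l) with hAm
  set Bm : Matrix (Fin K) (Fin (m + 1)) ℂ := Matrix.of fun l k => eval x (B l k) with hBm'
  set Wm : Matrix (Fin (m + 1)) (Fin m) ℂ := Matrix.of fun i j => eval x (W i j) with hWm
  have hq := D.eval_qx x
  have key : (eval x (D.qx x)) • (1 : Matrix (Fin (m + 1)) (Fin (m + 1)) ℂ)
      = Am * Bm + Wm * evm x b := by
    ext i k
    have h := congrArg (eval x) (hW i k)
    rw [map_sub, map_sum, map_sum] at h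
    simp only [map_mul] at h
    rw [Matrix.add_apply, Matrix.mul_apply, Matrix.mul_apply, Matrix.smul_apply,
      Matrix.one_apply]
    simp only [hAm, hBm', hWm, evm, Matrix.of_apply]
    rw [← h]
    by_cases hk : k = i
    · subst hk
      simp
    · have hk' : ¬ i = k := fun h => hk h.symm
      simp [hk, hk']
  have hr1 : ((eval x (D.qx x)) • (1 : Matrix (Fin (m + 1)) (Fin (m + 1)) ℂ)).rank = m + 1 := by
    have hu : IsUnit ((eval x (D.qx x)) • (1 : Matrix (Fin (m + 1)) (Fin (m + 1)) ℂ)) := by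
      rw [Matrix.isUnit_iff_isUnit_det]
      rw [Matrix.det_smul, Matrix.det_one, mul_one]
      exact (isUnit_iff_ne_zero.mpr hq).pow _
    rw [Matrix.rank_of_isUnit _ hu, Fintype.card_fin]
  rw [key] at hr1
  have h5 := rank_add_le' (Am * Bm) (Wm * evm x b)
  have h6 : (Am * Bm).rank ≤ K := by
    refine (Matrix.rank_mul_le_left Am Bm).trans ?_
    simpa using Matrix.rank_le_card_width Am
  have h7 : (Wm * evm x b).rank ≤ (evm x b).rank := Matrix.rank_mul_le_right _ _
  omega

end RFL
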