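import Pool.Agent.RFL.FrameEx

/-!
# RFL-D1 : relations between the restrictions of the horizontal fields to `H_i`

Let `B : ℂ^m → ℂ^n` be an injective matrix with image `H_i` (`m + 1 = n`). The restrictions
`Θ_k = (sbt B (θ k l))_l` satisfy (directions `B e_l ∈ H_i`, `nab = 0`, the term `i` of the sum
vanishes since `ip (a i) (B e_l) = 0`)
`∂_l Θ_k = 2 ∑_{j ≠ i} ip (a j) (B e_l) (α_j(Θ_k) / α_j) a_j`, i.e. the hypothesis of `wronskian` with
`q = ∏_{j ≠ i} sbt B (al j)`.
Let `V` be a complement of `ell θ i` in `ℂ^n` with basis `c_1, ..., c_r`: the combinations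
`∑_k c_{ak} Θ_k` are `ℂ`-independent, hence `Pol m`-independent. Writing the coefficient vector of the
relation as a part in `ell` and a part in `V` gives the claim.

(Proof below: with the orthogonal projection `P` onto `H_i` instead of `B`, and with the quotient
`ℂ^n / ell` instead of a complement.)
-/

open MvPolynomial Matrix Finset

noncomputable section

namespace RFL

namespace Res1

variable {n : ℕ}

/-- orthogonal projection along the unit vector `a` -/
def pr (a : Vec n) : Matrix (Fin n) (Fin n) ℂ := 1 - Matrix.vecMulVec a (star a)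

theorem pr_mulVec (a v : Vec n) : pr a *ᵥ v = v - ip a v • a := by
  rw [pr, Matrix.sub_mulVec, Matrix.one_mulVec]
  congr 1
  ext l
  simp only [Matrix.mulVec, dotProduct, Matrix.vecMulVec_apply, Pi.star_apply, ip, Pi.smul_apply,
    smul_eq_mul, Finset.sum_mul]
  exact Finset.sum_congr rfl fun j _ => by ring

theorem ip_pr {a : Vec n} (ha : ip a a = 1) (v : Vec n) : ip a (pr a *ᵥ v) = 0 := by
  rw [pr_mulVec, sub_eq_add_neg, ip_add_right, ← neg_smul, ip_smul_right, ha]
  ring

theorem pr_of_perp {a v : Vec n} (h : ip a v = 0) : pr a *ᵥ v = v := by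
  rw [pr_mulVec, h, zero_smul, sub_zero]

theorem ne_zero_of_unit {a : Vec n} (ha : ip a a = 1) : a ≠ 0 := by
  rintro rfl
  simp at ha

theorem sbt_pr_eq_zero {a : Vec n} (ha : ip a a = 1) (f : Pol n) :
    sbt (pr a) f = 0 ↔ lin a ∣ f := by
  rw [lin_dvd_iff (ne_zero_of_unit ha)]
  constructor
  · intro h x hx
    have := eval_sbt (pr a) f x
    rw [h, pr_of_perp hx] at this
    simpa using this.symm
  · intro h
    apply MvPolynomial.funext
    intro x
    rw [eval_sbt, map_zero]
    exact h _ (ip_pr ha x)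

theorem dv_single (l : Fin n) (f : Pol n) : dv (Pi.single l 1) f = pderiv l f := by
  unfold dv
  rw [Finset.sum_eq_single l]
  · simp
  · intro j _ hj
    simp [Pi.single_eq_of_ne hj]
  · intro h
    exact absurd (Finset.mem_univ l) h

variable (D : RD n)

/-- restriction of a combination of the fields -/
def Th (θ : Fin n → VF n) (i : D.ι) (v : Fin n → ℂ) (l : Fin n) : Pol n :=
  ∑ k, C (v k) * sbt (pr (D.a i)) (θ k l)

theorem Th_eq (θ : Fin n → VF n) (i : D.ι) (v : Fin n → ℂ) (l : Fin n) :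
    Th D θ i v l = sbt (pr (D.a i)) (∑ k, C (v k) * θ k l) := by
  rw [Th, map_sum]
  refine Finset.sum_congr rfl fun k _ => ?_
  rw [map_mul]
  congr 1
  exact (AlgHom.commutes (sbt (pr (D.a i))) (v k)).symm

theorem mem_ell_iff (θ : Fin n → VF n) (i : D.ι) (v : Fin n → ℂ) :
    v ∈ D.ell θ i ↔ ∀ l, Th D θ i v l = 0 := by
  simp only [Th_eq, sbt_pr_eq_zero (D.unit i)]
  rfl

theorem Th_sub (θ : Fin n → VF n) (i : D.ι) (v w : Fin n → ℂ) (l : Fin n) :
    Th D θ i (v - w) l = Th D θ i v l - Th D θ i w l := by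
  simp only [Th, Pi.sub_apply, map_sub, sub_mul, Finset.sum_sub_distrib]

theorem Th_sum {T : Type} [Fintype T] (θ : Fin n → VF n) (i : D.ι) (γ : T → ℂ)
    (c : T → Fin n → ℂ) (l : Fin n) :
    Th D θ i (∑ t, γ t • c t) l = ∑ t, C (γ t) * Th D θ i (c t) l := by
  simp only [Th, Finset.sum_apply, Pi.smul_apply, smul_eq_mul, map_sum, map_mul, Finset.mul_sum,
    Finset.sum_mul]
  rw [Finset.sum_comm]
  exact Finset.sum_congr rfl fun t _ => Finset.sum_congr rfl fun k _ => by ring

/-- the nonzero function -/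
def qq (i : D.ι) : Pol n := ∏ j ∈ univ.erase i, sbt (pr (D.a i)) (D.al j)

theorem qq_ne (i : D.ι) : qq D i ≠ 0 := by
  rw [qq, Finset.prod_ne_zero_iff]
  intro j hj h0
  rw [sbt_pr_eq_zero (D.unit i), RD.al, lin_dvd_lin (ne_zero_of_unit (D.unit i))] at h0
  obtain ⟨c, hc⟩ := Submodule.mem_span_singleton.mp h0
  have hij : i ≠ j := (Finset.ne_of_mem_erase hj).symm
  have h1 := D.indep i j hij
  rw [LinearIndependent.pair_iff] at h1
  have h2 := h1 c (-1) (by rw [hc]; simp)
  have h3 := h2.2
  norm_num at h3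

/-- connection matrix -/
def Om (i : D.ι) (l p p' : Fin n) : Pol n :=
  2 * ∑ j ∈ univ.erase i, C (ip (D.a j) (pr (D.a i) *ᵥ Pi.single l 1) * D.a j p) *
    (∏ j' ∈ (univ.erase i).erase j, sbt (pr (D.a i)) (D.al j')) * C (star (D.a j p'))

theorem hor_one {h : ℕ} {θ : Fin n → VF n} (hF : Frame D h θ) (i : D.ι) (k l p : Fin n) :
    qq D i * pderiv l (sbt (pr (D.a i)) (θ k p)) =
      ∑ p', Om D i l p p' * sbt (pr (D.a i)) (θ k p') := by
  have h1 := congrFun (hF.hor k (pr (D.a i) *ᵥ Pi.single l 1)) p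
  simp only [RD.nab, Pi.zero_apply, sub_eq_zero] at h1
  rw [← dv_single, dv_sbt, h1, map_mul, map_sum, ← Finset.sum_erase_add univ _ (Finset.mem_univ i),
    ip_pr (D.unit i)]
  simp only [Om, Finset.mul_sum, Finset.sum_mul]
  rw [Finset.sum_comm]
  simp only [zero_mul, map_zero, add_zero, map_mul]
  rw [Finset.mul_sum, Finset.mul_sum]
  refine Finset.sum_congr rfl fun j hj => ?_
  have h2 : sbt (pr (D.a i)) (D.al j) * sbt (pr (D.a i)) (quo (D.al j) (D.ap j (θ k))) =
      ∑ p', C (star (D.a j p')) * sbt (pr (D.a i)) (θ k p') := by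
    rw [← map_mul, quo_spec (hF.der k j), RD.ap, map_sum]
    refine Finset.sum_congr rfl fun p' _ => ?_
    rw [map_mul]
    congr 1
    exact AlgHom.commutes (sbt (pr (D.a i))) (star (D.a j p'))
  have h3 : qq D i = (∏ j' ∈ (univ.erase i).erase j, sbt (pr (D.a i)) (D.al j')) *
      sbt (pr (D.a i)) (D.al j) := (Finset.prod_erase_mul _ _ hj).symm
  have h4 : ∀ c : ℂ, sbt (pr (D.a i)) (C c) = C c := fun c =>
    AlgHom.commutes (sbt (pr (D.a i))) c
  have h5 : sbt (pr (D.a i)) (2 : Pol n) = 2 := map_ofNat _ 2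
  rw [h3, h4, h4, h5]
  calc _ = 2 * (C (ip (D.a j) (pr (D.a i) *ᵥ Pi.single l 1)) * C (D.a j p)) *
      (∏ j' ∈ (univ.erase i).erase j, sbt (pr (D.a i)) (D.al j')) *
      (sbt (pr (D.a i)) (D.al j) * sbt (pr (D.a i)) (quo (D.al j) (D.ap j (θ k)))) := by ring
    _ = _ := by
      rw [h2, Finset.mul_sum]
      exact Finset.sum_congr rfl fun p' _ => by ring

theorem hor_comb {h : ℕ} {θ : Fin n → VF n} (hF : Frame D h θ) (i : D.ι) (v : Fin n → ℂ)
    (l p : Fin n) :
    qq D i * pderiv l (Th D θ i v p) = ∑ p', Om D i l p p' * Th D θ i v p' := by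
  simp only [Th, map_sum, Finset.mul_sum]
  rw [Finset.sum_comm]
  refine Finset.sum_congr rfl fun k _ => ?_
  have h1 : pderiv l (C (v k) * sbt (pr (D.a i)) (θ k p)) =
      C (v k) * pderiv l (sbt (pr (D.a i)) (θ k p)) := by
    rw [pderiv_C_mul]
  rw [h1, mul_left_comm, hor_one D hF, Finset.mul_sum]
  exact Finset.sum_congr rfl fun p' _ => by ring

end Res1

namespace RD

variable {n : ℕ} (D : RD n)

open Res1 in
theorem res_rel {h : ℕ} {θ : Fin n → VF n} (hF : Frame D h θ) (i : D.ι) (f : Fin n → Pol n)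
    (hf : ∀ l, D.al i ∣ ∑ k, f k * θ k l) (x : Vec n) (hx : ip (D.a i) x = 0) :
    (fun k => eval x (f k)) ∈ D.ell θ i := by
  classical
  set K := D.ell θ i with hK
  let b := Module.finBasis ℂ ((Fin n → ℂ) ⧸ K)
  choose c hc using fun t => Submodule.Quotient.mk_surjective K (b t)
  let π : Fin (Module.finrank ℂ ((Fin n → ℂ) ⧸ K)) → (Fin n → ℂ) → ℂ :=
    fun t v => b.repr (Submodule.Quotient.mk v) t
  have hdec : ∀ v, v - ∑ t, π t v • c t ∈ K := by
    intro v
    rw [← Submodule.Quotient.mk_eq_zero, Submodule.Quotient.mk_sub, sub_eq_zero]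
    have h1 := b.sum_repr (Submodule.Quotient.mk v)
    rw [← h1]
    have h2 := map_sum K.mkQ (fun t => π t v • c t) univ
    simp only [Submodule.mkQ_apply] at h2
    rw [h2]
    refine Finset.sum_congr rfl fun t _ => ?_
    rw [Submodule.Quotient.mk_smul, hc]
  have hTh : ∀ v l, Th D θ i v l = ∑ t, C (π t v) * Th D θ i (c t) l := by
    intro v l
    have h1 := (mem_ell_iff D θ i _).mp (hdec v) l
    rw [Th_sub, sub_eq_zero, Th_sum] at h1
    exact h1
  have hrel : ∀ l, ∑ k, sbt (pr (D.a i)) (f k) * Th D θ i (Pi.single k 1) l = 0 := by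
    intro l
    have h1 := (sbt_pr_eq_zero (D.unit i) _).mpr (hf l)
    rw [map_sum] at h1
    rw [← h1]
    refine Finset.sum_congr rfl fun k _ => ?_
    rw [map_mul]
    congr 1
    rw [Th, Finset.sum_eq_single k]
    · simp
    · intro j _ hj
      simp [Pi.single_eq_of_ne hj]
    · intro h
      exact absurd (Finset.mem_univ k) h
  have hw := wronskian (fun t p => Th D θ i (c t) p) (qq D i) (qq_ne D i) (Om D i)
    (fun t l p => hor_comb D hF i (c t) l p)
    (by
      intro γ hγ
      have h1 : (∑ t, γ t • c t) ∈ K := by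
        refine (mem_ell_iff D θ i _).mpr ?_
        intro l
        rw [Th_sum]
        exact hγ l
      rw [← Submodule.Quotient.mk_eq_zero] at h1
      have h2 := map_sum K.mkQ (fun t => γ t • c t) univ
      simp only [Submodule.mkQ_apply] at h2
      rw [h2] at h1
      have h3 : ∑ t, γ t • b t = 0 := by
        rw [← h1]
        refine Finset.sum_congr rfl fun t _ => ?_
        rw [Submodule.Quotient.mk_smul, hc]
      exact fun t => Fintype.linearIndependent_iff.mp b.linearIndependent γ h3 t)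
    (fun t => ∑ k, sbt (pr (D.a i)) (f k) * C (π t (Pi.single k 1)))
    (by
      intro l
      rw [← hrel l]
      simp only [Finset.sum_mul]
      rw [Finset.sum_comm]
      refine Finset.sum_congr rfl fun k _ => ?_
      rw [hTh (Pi.single k 1) l, Finset.mul_sum]
      exact Finset.sum_congr rfl fun t _ => by ring)
  have hπ : ∀ t (v : Fin n → ℂ), π t v = ∑ k, v k * π t (Pi.single k 1) := by
    intro t v
    have h1 : ∀ v, π t v = (b.coord t ∘ₗ K.mkQ) v := fun v => rfl
    rw [h1 v]
    conv_lhs => rw [← Finset.univ_sum_single v]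
    rw [map_sum]
    refine Finset.sum_congr rfl fun k _ => ?_
    have h2 : (Pi.single k (v k) : Fin n → ℂ) = v k • Pi.single k 1 := by
      rw [← Pi.single_smul]
      simp
    rw [h2, map_smul, h1]
    rfl
  have hzero : ∀ t, π t (fun k => eval x (f k)) = 0 := by
    intro t
    have h1 := congrArg (eval x) (hw t)
    simp only [map_sum, map_mul, eval_C, map_zero, eval_sbt, pr_of_perp hx] at h1
    rw [hπ]
    exact h1
  have h2 := hdec (fun k => eval x (f k))
  simpa [hzero] using h2

end RD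

end RFL
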