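import Pool.Agent.RFL.Res2A

/-!
# RFL-D2 : the horizontal fields vanishing on `H_i` form (at most) a line

Let `c ∈ ell θ i`, `c ≠ 0`, `ϑ = ∑ c_k θ_k ≠ 0` (homogeneous, horizontal, in `Der`), `t = al i`,
`a = a i`. Write `ϑ = t^k η`, `k ≥ 1`, `η` not divisible by `t` (not all components). Horizontality in
the direction `a`, divided by `t^{k-1}`, modulo `t`:
`k η - 2 η(t) a ≡ 0` (for `j ≠ i`, `quo (al j) (ap j ϑ) = t^k * (...)`), where `η(t) = ap i η`. So
`η ≡ (2/k) η(t) a` and applying `ap i`: `η(t) ≡ (2/k) η(t)`, `η(t) ≢ 0`, so `k = 2` and `η ≡ p a`,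
`p = ap i η ≢ 0 mod t`. This is `order_two`.

`ell_le_one`: for directions `v ∈ H_i`: `0 = ∇_v(t^2 η)/t^2` modulo `t`:
`∂_v η ≡ 2 ∑_{j ≠ i} ip (a j) v (ap j η / al j) a_j`; with `η ≡ p a` and taking the component `ap i`:
`∂_v p ≡ 2 p ∑_{j≠i} |ip (a j) a|^2 ip (a j) v / al j` on `H_i` (at generic points). For another
`c' ∈ ell`, `p'` satisfies the same equation; so `p ∂_v p' ≡ p' ∂_v p mod t` for all `v ∈ H_i`.
Restricted to `H_i` (matrix `B : ℂ^m → H_i`): `p ∂ p' = p' ∂ p`, so `p' = γ p` with `γ ∈ ℂ`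
(`wronskian` with `q = p`). Then `c' - γ c ∈ ell` has `p`-part `≡ 0`, so it is `0` by `order_two`.
-/

open MvPolynomial Matrix Finset

noncomputable section

namespace RFL

namespace RD

variable {n : ℕ} (D : RD n)

namespace Res2B

theorem comb_eq (θ : Fin n → VF n) (c : Fin n → ℂ) :
    (fun l => ∑ k, C (c k) * θ k l : VF n) = ∑ k, (C (c k) : Pol n) • θ k := by
  funext l
  simp only [Finset.sum_apply, Pi.smul_apply, smul_eq_mul]

theorem comb_mem {h : ℕ} {θ : Fin n → VF n} (hF : Frame D h θ) (c : Fin n → ℂ) :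
    (fun l => ∑ k, C (c k) * θ k l : VF n) ∈ D.Der := by
  rw [comb_eq]
  exact Submodule.sum_mem _ fun k _ => Submodule.smul_mem _ _ (hF.der k)

theorem comb_nab {h : ℕ} {θ : Fin n → VF n} (hF : Frame D h θ) (c : Fin n → ℂ) (v : Vec n) :
    D.nab v (fun l => ∑ k, C (c k) * θ k l) = 0 := by
  rw [comb_eq, D.nab_sum v univ _ fun k _ => Submodule.smul_mem _ _ (hF.der k)]
  refine Finset.sum_eq_zero fun k _ => ?_
  rw [D.nab_smul v _ (hF.der k), dv_C, hF.hor k v, zero_smul, smul_zero, add_zero]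

/-- the field divided by `t ^ 2` is horizontal in the directions of the hyperplane -/
theorem dvd_ap {i j : D.ι} (hij : j ≠ i) {η : VF n}
    (hm : (fun l => D.al i ^ 2 * η l : VF n) ∈ D.Der) : D.al j ∣ D.ap j η := by
  have h1 := hm j
  have h2 : D.ap j (fun l => D.al i ^ 2 * η l : VF n) = D.al i ^ 2 * D.ap j η := by
    have := D.ap_smul j (D.al i ^ 2) η
    exact this
  rw [h2] at h1
  rcases (D.al_prime j).dvd_or_dvd h1 with h3 | h3
  · exact absurd ((D.al_prime j).dvd_of_dvd_pow h3) (D.al_not_dvd hij)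
  · exact h3

theorem dv_eta {i : D.ι} {η : VF n} (hm : (fun l => D.al i ^ 2 * η l : VF n) ∈ D.Der)
    {v : Vec n} (hv : ip (D.a i) v = 0) (hn : D.nab v (fun l => D.al i ^ 2 * η l) = 0)
    (l : Fin n) : dv v (η l) =
      2 * ∑ j ∈ univ.erase i, C (ip (D.a j) v * D.a j l) * quo (D.al j) (D.ap j η) := by
  have h1 := congrFun hn l
  simp only [nab, Pi.zero_apply] at h1
  have h0 : dv v (D.al i) = 0 := by rw [al, dv_lin, hv, C_0]
  have h2 : dv v (D.al i ^ 2 * η l) = D.al i ^ 2 * dv v (η l) := by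
    rw [pow_two, dv_mul, dv_mul, h0]
    ring
  have h3 : ∑ j, C (ip (D.a j) v * D.a j l) *
        quo (D.al j) (D.ap j (fun l => D.al i ^ 2 * η l : VF n)) =
      D.al i ^ 2 * ∑ j ∈ univ.erase i, C (ip (D.a j) v * D.a j l) * quo (D.al j) (D.ap j η) := by
    rw [← Finset.add_sum_erase univ _ (mem_univ i), hv, zero_mul, C_0, zero_mul, zero_add,
      Finset.mul_sum]
    refine Finset.sum_congr rfl fun j hj => ?_
    have hji := (Finset.mem_erase.1 hj).1
    have h4 : D.ap j (fun l => D.al i ^ 2 * η l : VF n) = D.al i ^ 2 * D.ap j η := by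
      have := D.ap_smul j (D.al i ^ 2) η
      exact this
    obtain ⟨w, hw⟩ := dvd_ap D hji hm
    rw [h4, hw, show D.al i ^ 2 * (D.al j * w) = D.al j * (D.al i ^ 2 * w) by ring,
      quo_mul (D.al_ne j), quo_mul (D.al_ne j)]
    ring
  rw [h2, h3] at h1
  have h5 : D.al i ^ 2 * (dv v (η l) -
      2 * ∑ j ∈ univ.erase i, C (ip (D.a j) v * D.a j l) * quo (D.al j) (D.ap j η)) = 0 := by
    linear_combination h1
  rcases mul_eq_zero.1 h5 with h6 | h6
  · exact absurd (pow_eq_zero_iff (two_ne_zero)|>.1 h6) (D.al_ne i)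
  · exact sub_eq_zero.1 h6

/-- the coefficient of the equation for `p` -/
def W (i : D.ι) (v : Vec n) : Pol n :=
  2 * ∑ j ∈ univ.erase i, C (ip (D.a j) v * ip (D.a i) (D.a j) * ip (D.a j) (D.a i)) *
    ∏ k ∈ (univ.erase i).erase j, D.al k

theorem ap_sub_dvd {i : D.ι} {η : VF n} {p : Pol n}
    (hp : ∀ l, D.al i ∣ η l - p * C (D.a i l)) (j : D.ι) :
    D.al i ∣ D.ap j η - p * C (ip (D.a j) (D.a i)) := by
  have h1 : D.ap j η - p * C (ip (D.a j) (D.a i)) =
      ∑ l, C (star (D.a j l)) * (η l - p * C (D.a i l)) := by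
    rw [ap, ip, map_sum, Finset.mul_sum, ← Finset.sum_sub_distrib]
    refine Finset.sum_congr rfl fun l _ => ?_
    rw [map_mul]
    ring
  rw [h1]
  exact Finset.dvd_sum fun l _ => (hp l).mul_left _

theorem dv_sum {T : Type} (v : Vec n) (S : Finset T) (f : T → Pol n) :
    dv v (∑ s ∈ S, f s) = ∑ s ∈ S, dv v (f s) := by
  unfold dv
  rw [Finset.sum_comm]
  refine Finset.sum_congr rfl fun j _ => ?_
  rw [map_sum, Finset.mul_sum]

theorem eqn {i : D.ι} {η : VF n} {p : Pol n}
    (hm : (fun l => D.al i ^ 2 * η l : VF n) ∈ D.Der)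
    (hp : ∀ l, D.al i ∣ η l - p * C (D.a i l))
    {v : Vec n} (hv : ip (D.a i) v = 0) (hn : D.nab v (fun l => D.al i ^ 2 * η l) = 0) :
    D.al i ∣ (∏ j ∈ univ.erase i, D.al j) * dv v p - p * W D i v := by
  have h0 : dv v (D.al i) = 0 := by rw [al, dv_lin, hv, C_0]
  -- derivative of the component
  have h1 : dv v (D.ap i η) = 2 * ∑ j ∈ univ.erase i,
      C (ip (D.a j) v * ip (D.a i) (D.a j)) * quo (D.al j) (D.ap j η) := by
    have h2 : dv v (D.ap i η) = ∑ l, C (star (D.a i l)) * dv v (η l) := by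
      rw [ap, dv_sum]
      refine Finset.sum_congr rfl fun l _ => ?_
      rw [dv_mul, dv_C, zero_mul, zero_add]
    rw [h2, Finset.sum_congr rfl fun l _ => by rw [dv_eta D hm hv hn l]]
    simp only [Finset.mul_sum]
    rw [Finset.sum_comm]
    refine Finset.sum_congr rfl fun j _ => ?_
    have h3 : (C (ip (D.a j) v * ip (D.a i) (D.a j)) : Pol n) =
        ∑ l, C (star (D.a i l)) * C (ip (D.a j) v * D.a j l) := by
      rw [ip, ip, Finset.mul_sum, map_sum]
      refine Finset.sum_congr rfl fun l _ => ?_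
      rw [← map_mul]
      congr 1
      ring
    rw [h3, Finset.sum_mul, Finset.mul_sum]
    refine Finset.sum_congr rfl fun l _ => ?_
    ring
  have h4 : D.al i ∣ dv v p - dv v (D.ap i η) := by
    obtain ⟨u, hu⟩ := ap_sub_dvd D hp i
    rw [D.unit i, C_1, mul_one] at hu
    refine ⟨-(dv v u), ?_⟩
    have h5 : D.ap i η = p + D.al i * u := by rw [← hu]; ring
    rw [h5, dv_add, dv_mul, h0]
    ring
  have h6 : (∏ j ∈ univ.erase i, D.al j) * dv v (D.ap i η) - p * W D i v =
      ∑ j ∈ univ.erase i, 2 * C (ip (D.a j) v * ip (D.a i) (D.a j)) *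
        (∏ k ∈ (univ.erase i).erase j, D.al k) *
        (D.ap j η - p * C (ip (D.a j) (D.a i))) := by
    rw [h1, W]
    simp only [Finset.mul_sum]
    rw [← Finset.sum_sub_distrib]
    refine Finset.sum_congr rfl fun j hj => ?_
    have h7 := quo_spec (dvd_ap D (Finset.mem_erase.1 hj).1 hm)
    rw [← Finset.mul_prod_erase (univ.erase i) _ hj, map_mul C (ip (D.a j) v * _)]
    linear_combination (-(2 * C (ip (D.a j) v * ip (D.a i) (D.a j)) *
        ∏ k ∈ (univ.erase i).erase j, D.al k) : Pol n) * (-h7)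
  have h8 : (∏ j ∈ univ.erase i, D.al j) * dv v p - p * W D i v =
      (∏ j ∈ univ.erase i, D.al j) * (dv v p - dv v (D.ap i η)) +
        ((∏ j ∈ univ.erase i, D.al j) * dv v (D.ap i η) - p * W D i v) := by ring
  rw [h8]
  refine dvd_add (h4.mul_left _) ?_
  rw [h6]
  exact Finset.dvd_sum fun j _ => (ap_sub_dvd D hp j).mul_left _

/-- the projection onto the hyperplane `H_i` -/
def pr (i : D.ι) : Matrix (Fin n) (Fin n) ℂ := 1 - Matrix.vecMulVec (D.a i) (star (D.a i))

theorem pr_mulVec (i : D.ι) (x : Vec n) : pr D i *ᵥ x = x - ip (D.a i) x • D.a i := by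
  have h1 : star (D.a i) ⬝ᵥ x = ip (D.a i) x := rfl
  rw [pr, Matrix.sub_mulVec, Matrix.one_mulVec, Matrix.vecMulVec_mulVec, h1]
  congr 1
  funext l
  simp [mul_comm]

theorem ip_pr (i : D.ι) (x : Vec n) : ip (D.a i) (pr D i *ᵥ x) = 0 := by
  rw [pr_mulVec, sub_eq_add_neg, ← neg_one_smul ℂ (ip (D.a i) x • D.a i), ip_add_right,
    ip_smul_right, ip_smul_right, D.unit i]
  ring

theorem pr_of_mem (i : D.ι) {x : Vec n} (hx : ip (D.a i) x = 0) : pr D i *ᵥ x = x := by
  rw [pr_mulVec, hx, zero_smul, sub_zero]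

theorem sbt_pr_eq_zero {i : D.ι} {f : Pol n} (h : D.al i ∣ f) : sbt (pr D i) f = 0 := by
  refine MvPolynomial.funext fun x => ?_
  rw [eval_sbt, map_zero]
  exact (D.al_dvd_iff i f).1 h _ (ip_pr D i x)

theorem dvd_of_sbt_pr {i : D.ι} {f : Pol n} (h : sbt (pr D i) f = 0) : D.al i ∣ f := by
  rw [D.al_dvd_iff i f]
  intro x hx
  have h1 := congrArg (eval x) h
  rwa [eval_sbt, pr_of_mem D i hx, map_zero] at h1

theorem prod_not_dvd (i : D.ι) : ¬ D.al i ∣ ∏ j ∈ univ.erase i, D.al j := by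
  intro h
  obtain ⟨j, hj, h1⟩ := (D.al_prime i).exists_mem_finset_dvd h
  exact D.al_not_dvd (Ne.symm (Finset.mem_erase.1 hj).1) h1

end Res2B

open Res2B

theorem ell_le_one {h : ℕ} {θ : Fin n → VF n} (hF : Frame D h θ) (i : D.ι) (c c' : Fin n → ℂ)
    (hc : c ∈ D.ell θ i) (hc0 : c ≠ 0) (hc' : c' ∈ D.ell θ i) :
    ∃ γ : ℂ, c' = γ • c := by
  by_cases hc0' : c' = 0
  · exact ⟨0, by rw [hc0', zero_smul]⟩
  obtain ⟨η, p, h1, h2, h3⟩ := D.order_two hF i c hc hc0
  obtain ⟨η', p', h1', h2', h3'⟩ := D.order_two hF i c' hc' hc0'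
  have e1 : (fun l => ∑ k, C (c k) * θ k l : VF n) = fun l => D.al i ^ 2 * η l := funext h1
  have e1' : (fun l => ∑ k, C (c' k) * θ k l : VF n) = fun l => D.al i ^ 2 * η' l := funext h1'
  have m1 := comb_mem D hF c
  have m1' := comb_mem D hF c'
  have n1 := comb_nab D hF c
  have n1' := comb_nab D hF c'
  rw [e1] at m1
  rw [e1'] at m1'
  simp only [e1] at n1
  simp only [e1'] at n1'
  -- the Wronskian vanishes on the hyperplane
  have hW : ∀ v, ip (D.a i) v = 0 → D.al i ∣ p * dv v p' - p' * dv v p := by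
    intro v hv
    have q1 := eqn D m1 h2 hv (n1 v)
    have q2 := eqn D m1' h2' hv (n1' v)
    have q3 : D.al i ∣ (∏ j ∈ univ.erase i, D.al j) * (p * dv v p' - p' * dv v p) := by
      have q4 : (∏ j ∈ univ.erase i, D.al j) * (p * dv v p' - p' * dv v p) =
          p * ((∏ j ∈ univ.erase i, D.al j) * dv v p' - p' * W D i v) -
          p' * ((∏ j ∈ univ.erase i, D.al j) * dv v p - p * W D i v) := by ring
      rw [q4]
      exact dvd_sub (q2.mul_left _) (q1.mul_left _)
    rcases (D.al_prime i).dvd_or_dvd q3 with q5 | q5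
    · exact absurd q5 (prod_not_dvd D i)
    · exact q5
  set P := sbt (pr D i) p with hP
  set P' := sbt (pr D i) p' with hP'
  have hP0 : P ≠ 0 := fun h0 => h3 (dvd_of_sbt_pr D h0)
  have hwr : ∀ l : Fin n, P * pderiv l P' = P' * pderiv l P := by
    intro l
    have hd : ∀ f : Pol n, dv (Pi.single l (1 : ℂ)) f = pderiv l f := by
      intro f
      unfold dv
      rw [Finset.sum_eq_single l]
      · simp
      · intro b _ hb
        simp [hb]
      · intro hl
        exact absurd (mem_univ l) hl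
    rw [← hd, ← hd, hP, hP', dv_sbt, dv_sbt]
    have q1 := sbt_pr_eq_zero D (hW _ (ip_pr D i (Pi.single l (1 : ℂ))))
    rw [map_sub, map_mul, map_mul] at q1
    exact sub_eq_zero.1 q1
  obtain ⟨γ, hγ⟩ : ∃ γ : ℂ, P' = C γ * P := by
    by_contra hcon
    have hind : ∀ c : Fin 2 → ℂ, (∀ _ : Unit, ∑ a, C (c a) * (![P, P'] a) = 0) →
        ∀ a, c a = 0 := by
      intro c hcc
      have q1 := hcc ()
      rw [Fin.sum_univ_two] at q1
      simp only [Matrix.cons_val_zero, Matrix.cons_val_one] at q1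
      have hc1 : c 1 = 0 := by
        by_contra hne
        refine hcon ⟨-(c 0 / c 1), ?_⟩
        have q2 : (C (c 1) : Pol n) * (P' - C (-(c 0 / c 1)) * P) = 0 := by
          have q3 : (C (c 1) : Pol n) * C (-(c 0 / c 1)) = - C (c 0) := by
            rw [← map_mul, ← map_neg]
            congr 1
            field_simp
          linear_combination q1 - P * q3
        rcases mul_eq_zero.1 q2 with q4 | q4
        · exact absurd ((C_eq_zero).1 q4) hne
        · exact sub_eq_zero.1 q4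
      have hc00 : c 0 = 0 := by
        rw [hc1, C_0, zero_mul, add_zero] at q1
        rcases mul_eq_zero.1 q1 with q4 | q4
        · exact (C_eq_zero).1 q4
        · exact absurd q4 hP0
      intro a
      fin_cases a
      · exact hc00
      · exact hc1
    have q := wronskian (T := Fin 2) (P := Unit) (fun a _ => ![P, P'] a) P hP0
      (fun l _ _ => pderiv l P) (by
        intro a l _
        simp only [Finset.univ_unique, Finset.sum_const, Finset.card_singleton, one_smul]
        fin_cases a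
        · simp only [Fin.zero_eta, Matrix.cons_val_zero]
          ring
        · change P * pderiv l P' = pderiv l P * P'
          rw [hwr l]
          ring) hind ![P', -P] (by
        intro _
        rw [Fin.sum_univ_two]
        simp only [Matrix.cons_val_zero, Matrix.cons_val_one]
        ring) 1
    simp only [Matrix.cons_val_one] at q
    exact hP0 (neg_eq_zero.1 q)
  have hdiv : D.al i ∣ p' - C γ * p := by
    refine dvd_of_sbt_pr D ?_
    have hCγ : sbt (pr D i) (C γ) = C γ := by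
      rw [← MvPolynomial.algebraMap_eq, AlgHom.commutes]
    rw [map_sub, map_mul, hCγ, ← hP, ← hP', hγ, sub_self]
  refine ⟨γ, ?_⟩
  by_contra hne
  have hmem : c' - γ • c ∈ D.ell θ i := (D.ell θ i).sub_mem hc' ((D.ell θ i).smul_mem γ hc)
  obtain ⟨η2, p2, r1, r2, r3⟩ := D.order_two hF i _ hmem (sub_ne_zero.2 hne)
  have r4 : ∀ l, η2 l = η' l - C γ * η l := by
    intro l
    have r5 : D.al i ^ 2 * η2 l = D.al i ^ 2 * (η' l - C γ * η l) := by
      rw [← r1 l, mul_sub, ← h1' l, show D.al i ^ 2 * (C γ * η l) = C γ * (D.al i ^ 2 * η l) by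
        ring, ← h1 l, Finset.mul_sum, ← Finset.sum_sub_distrib]
      refine Finset.sum_congr rfl fun k _ => ?_
      simp only [Pi.sub_apply, Pi.smul_apply, smul_eq_mul, map_sub, map_mul]
      ring
    exact mul_left_cancel₀ (pow_ne_zero 2 (D.al_ne i)) r5
  have r6 : ∀ l, D.al i ∣ p2 * C (D.a i l) := by
    intro l
    have r7 : p2 * C (D.a i l) = (η' l - p' * C (D.a i l)) - C γ * (η l - p * C (D.a i l)) -
        (η2 l - p2 * C (D.a i l)) + (p' - C γ * p) * C (D.a i l) := by
      rw [r4 l]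
      ring
    rw [r7]
    exact dvd_add (dvd_sub (dvd_sub (h2' l) ((h2 l).mul_left _)) (r2 l)) (hdiv.mul_right _)
  obtain ⟨l, hl⟩ : ∃ l, D.a i l ≠ 0 := Function.ne_iff.1 (D.a_ne i)
  refine r3 ?_
  have r8 : p2 = p2 * C (D.a i l) * C (D.a i l)⁻¹ := by
    rw [mul_assoc, ← map_mul, mul_inv_cancel₀ hl, C_1, mul_one]
  rw [r8]
  exact (r6 l).mul_right _

end RD

end RFL
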