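import Pool.Agent.RFL.FrameEx

/-!
# RFL-D2 : the horizontal fields vanishing on `H_i` form (at most) a line

Let `c ∈ ell θ i`, `c ≠ 0`, `ϑ = ∑ c_k θ_k ≠ 0` (homogeneous, horizontal, in `Der`), `t = al i`,
`a = a i`. Write `ϑ = t^k η`, `k ≥ 1`, `η` not divisible by `t` (not all components). Horizontality in
the direction `a`, divided by `t^{k-1}`, modulo `t`:
`k η - 2 η(t) a ≡ 0` (for `j ≠ i`, `quo (al j) (ap j ϑ) = t^k * (...)`), where `η(t) = ap i η`. So
`η ≡ (2/k) η(t) a` and applying `ap i`: `η(t) ≡ (2/k) η(t)`, `η(t) ≢ 0`, so `k = 2` and `η ≡ p a`,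
`p = ap i η ≢ 0 mod t`. This is `order_two`.

`ell_le_one`: for directions `v ∈ H_i`: `0 = ∇_v(t^2 η)/t^2` modulo `t`:
`∂_v η ≡ 2 ∑_{j ≠ i} ip (a j) v (ap j η / al j) a_j`; with `η ≡ p a` and taking the component `ap i`:
`∂_v p ≡ 2 p ∑_{j≠i} |ip (a j) a|^2 ip (a j) v / al j` on `H_i` (at generic points). For another
`c' ∈ ell`, `p'` satisfies the same equation; so `p ∂_v p' ≡ p' ∂_v p mod t` for all `v ∈ H_i`.
Restricted to `H_i` (matrix `B : ℂ^m → H_i`): `p ∂ p' = p' ∂ p`, so `p' = γ p` with `γ ∈ ℂ`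
(`wronskian` with `q = p`). Then `c' - γ c ∈ ell` has `p`-part `≡ 0`, so it is `0` by `order_two`.
-/

open MvPolynomial Matrix Finset

noncomputable section

namespace RFL

namespace Res2A

theorem dv_pow_succ {n : ℕ} (v : Vec n) (f : Pol n) (k : ℕ) :
    dv v (f ^ (k + 1)) = C ((k : ℂ) + 1) * f ^ k * dv v f := by
  induction k with
  | zero => simp
  | succ k ih =>
    rw [pow_succ, dv_mul, ih]
    simp only [Nat.cast_add, Nat.cast_one, map_add, map_one, map_natCast]
    ring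

theorem al_sum {n : ℕ} (a b : Vec n) (g : Pol n) :
    ∑ l, C (star (b l)) * (g * C (a l)) = g * C (ip b a) := by
  simp only [ip, map_sum, Finset.mul_sum, map_mul]
  exact Finset.sum_congr rfl fun l _ => by ring

end Res2A

namespace RD

variable {n : ℕ} (D : RD n)

/-- the combination `∑ c_k θ_k` of the horizontal fields -/
theorem Res2A_comb {h : ℕ} {θ : Fin n → VF n} (hF : Frame D h θ) (c : Fin n → ℂ) :
    (∑ k, (C (c k) : Pol n) • θ k) ∈ D.Der ∧
      ∀ v, D.nab v (∑ k, (C (c k) : Pol n) • θ k) = 0 := by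
  refine ⟨Submodule.sum_mem _ fun k _ => Submodule.smul_mem _ _ (hF.der k), fun v => ?_⟩
  rw [nab_sum D v _ _ fun k _ => Submodule.smul_mem _ _ (hF.der k)]
  refine Finset.sum_eq_zero fun k _ => ?_
  rw [nab_smul D v _ (hF.der k), dv_C, hF.hor k v, zero_smul, smul_zero, add_zero]

theorem Res2A_comb_apply {θ : Fin n → VF n} (c : Fin n → ℂ) (l : Fin n) :
    (∑ k, (C (c k) : Pol n) • θ k) l = ∑ k, C (c k) * θ k l := by
  simp [Finset.sum_apply]

theorem Res2A_dv_al (i : D.ι) : dv (D.a i) (D.al i) = 1 := by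
  unfold al
  rw [dv_lin, D.unit i, map_one]

/-- factor out the power of the form `al i` -/
theorem Res2A_factor (i : D.ι) (φ : VF n) (h0 : φ ≠ 0) (h1 : ∀ l, D.al i ∣ φ l) :
    ∃ (k : ℕ) (η : VF n), φ = (D.al i ^ (k + 1)) • η ∧ ¬ ∀ l, D.al i ∣ η l := by
  by_contra hcon
  push Not at hcon
  have hall : ∀ k : ℕ, ∃ η : VF n, φ = (D.al i ^ (k + 1)) • η := by
    intro k
    induction k with
    | zero =>
      choose η hη using h1
      refine ⟨η, ?_⟩
      funext l
      simp [hη l]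
    | succ k ih =>
      obtain ⟨η, hη⟩ := ih
      have h2 := hcon k η hη
      choose ξ hξ using h2
      refine ⟨ξ, ?_⟩
      funext l
      rw [hη]
      simp only [Pi.smul_apply, smul_eq_mul]
      rw [hξ l]
      ring
  obtain ⟨l, hl⟩ : ∃ l, φ l ≠ 0 := by
    by_contra hcon'
    push Not at hcon'
    exact h0 (funext hcon')
  have hfin : FiniteMultiplicity (D.al i) (φ l) :=
    FiniteMultiplicity.of_prime_left (D.al_prime i) hl
  obtain ⟨m, hm⟩ := hfin
  obtain ⟨η, hη⟩ := hall m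
  apply hm
  rw [hη]
  exact ⟨η l, by simp⟩

/-- the connection in the direction of the root on `t^(k+1) η` -/
theorem Res2A_nab (i : D.ι) (k : ℕ) (η : VF n) (hder : (D.al i ^ (k + 1)) • η ∈ D.Der)
    (h0 : D.nab (D.a i) ((D.al i ^ (k + 1)) • η) = 0) (l : Fin n) :
    D.al i ∣ C ((k : ℂ) + 1) * η l - 2 * (D.ap i η * C (D.a i l)) := by
  have hj : ∀ j ∈ Finset.univ.erase i, quo (D.al j) (D.ap j ((D.al i ^ (k + 1)) • η)) =
      D.al i ^ (k + 1) * quo (D.al j) (D.ap j η) := by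
    intro j hj
    have hji : j ≠ i := Finset.ne_of_mem_erase hj
    rw [ap_smul]
    have hd : D.al j ∣ D.ap j η := by
      have h1 : D.al j ∣ D.al i ^ (k + 1) * D.ap j η := by
        have := hder j
        rwa [ap_smul] at this
      rcases (D.al_prime j).dvd_or_dvd h1 with h2 | h2
      · exact absurd ((D.al_prime j).dvd_of_dvd_pow h2) (D.al_not_dvd hji)
      · exact h2
    obtain ⟨q, hq⟩ := hd
    have e1 : quo (D.al j) (D.ap j η) = q := by rw [hq, quo_mul (D.al_ne j)]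
    have e2 : D.al i ^ (k + 1) * D.ap j η = D.al j * (D.al i ^ (k + 1) * q) := by
      rw [hq]; ring
    rw [e2, quo_mul (D.al_ne j), e1]
  have hi : quo (D.al i) (D.ap i ((D.al i ^ (k + 1)) • η)) = D.al i ^ k * D.ap i η := by
    rw [ap_smul]
    have : D.al i ^ (k + 1) * D.ap i η = D.al i * (D.al i ^ k * D.ap i η) := by ring
    rw [this, quo_mul (D.al_ne i)]
  have h1 : D.nab (D.a i) ((D.al i ^ (k + 1)) • η) l = 0 := by rw [h0]; rfl
  unfold nab at h1
  rw [← Finset.add_sum_erase _ _ (Finset.mem_univ i), hi,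
    Finset.sum_congr rfl (fun j hj' => by rw [hj j hj'])] at h1
  simp only [Pi.smul_apply, smul_eq_mul] at h1
  rw [dv_mul, Res2A.dv_pow_succ, Res2A_dv_al, D.unit i] at h1
  have h2 : D.al i ^ k * ((C ((k : ℂ) + 1) * η l - 2 * (D.ap i η * C (D.a i l))) +
      D.al i * (dv (D.a i) (η l) - 2 * ∑ j ∈ Finset.univ.erase i,
        C (ip (D.a j) (D.a i) * D.a j l) * quo (D.al j) (D.ap j η))) = 0 := by
    rw [← h1]
    have h3 : ∑ j ∈ Finset.univ.erase i, C (ip (D.a j) (D.a i) * D.a j l) *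
        (D.al i ^ (k + 1) * quo (D.al j) (D.ap j η)) = D.al i ^ (k + 1) *
        ∑ j ∈ Finset.univ.erase i, C (ip (D.a j) (D.a i) * D.a j l) * quo (D.al j) (D.ap j η) := by
      rw [Finset.mul_sum]
      exact Finset.sum_congr rfl fun j _ => by ring
    rw [h3, one_mul]
    ring
  have h4 := (mul_eq_zero.1 h2).resolve_left (pow_ne_zero _ (D.al_ne i))
  rw [eq_neg_of_add_eq_zero_left h4]
  exact (Dvd.intro _ rfl).neg_right

theorem order_two {h : ℕ} {θ : Fin n → VF n} (hF : Frame D h θ) (i : D.ι) (c : Fin n → ℂ)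
    (hc : c ∈ D.ell θ i) (hc0 : c ≠ 0) :
    ∃ (η : VF n) (p : Pol n), (∀ l, ∑ k, C (c k) * θ k l = D.al i ^ 2 * η l) ∧
      (∀ l, D.al i ∣ η l - p * C (D.a i l)) ∧ ¬ D.al i ∣ p := by
  obtain ⟨hder, hhor⟩ := D.Res2A_comb hF c
  set φ : VF n := ∑ k, (C (c k) : Pol n) • θ k with hφ
  have hφl : ∀ l, φ l = ∑ k, C (c k) * θ k l := fun l => Res2A_comb_apply c l
  have hφ0 : φ ≠ 0 := by
    intro h0
    apply hc0
    funext k
    have := hF.indep (fun k => C (c k)) (fun l => by rw [← hφl l, h0]; rfl) k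
    simpa using this
  have hφ1 : ∀ l, D.al i ∣ φ l := fun l => by rw [hφl l]; exact hc l
  obtain ⟨k, η, hk, hη⟩ := D.Res2A_factor i φ hφ0 hφ1
  have hdiv := D.Res2A_nab i k η (hk ▸ hder) (hk ▸ hhor (D.a i))
  have hk1 : IsUnit (C ((k : ℂ) + 1) : Pol n) :=
    (IsUnit.mk0 _ (by exact_mod_cast Nat.succ_ne_zero k)).map C
  have hnd : ¬ D.al i ∣ D.ap i η := by
    intro hd
    apply hη
    intro l
    have h1 : D.al i ∣ C ((k : ℂ) + 1) * η l := by
      have h2 := hdiv l
      have h3 : D.al i ∣ 2 * (D.ap i η * C (D.a i l)) :=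
        Dvd.dvd.mul_left (Dvd.dvd.mul_right hd _) _
      have := dvd_add h2 h3
      simpa using this
    exact (hk1.dvd_mul_left).1 h1
  have hap : D.al i ∣ C ((k : ℂ) - 1) * D.ap i η := by
    have h1 : D.al i ∣ ∑ l, C (star (D.a i l)) *
        (C ((k : ℂ) + 1) * η l - 2 * (D.ap i η * C (D.a i l))) :=
      Finset.dvd_sum fun l _ => Dvd.dvd.mul_left (hdiv l) _
    have h2 : ∑ l, C (star (D.a i l)) *
        (C ((k : ℂ) + 1) * η l - 2 * (D.ap i η * C (D.a i l))) =
        C ((k : ℂ) - 1) * D.ap i η := by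
      have e1 : ∀ l, C (star (D.a i l)) *
        (C ((k : ℂ) + 1) * η l - 2 * (D.ap i η * C (D.a i l))) =
        C ((k : ℂ) + 1) * (C (star (D.a i l)) * η l) -
          2 * (C (star (D.a i l)) * (D.ap i η * C (D.a i l))) := fun l => by ring
      simp_rw [e1]
      rw [Finset.sum_sub_distrib, ← Finset.mul_sum, ← Finset.mul_sum,
        Res2A.al_sum (D.a i) (D.a i) (D.ap i η), D.unit i]
      have e2 : ∑ l, C (star (D.a i l)) * η l = D.ap i η := rfl
      rw [e2]
      simp only [map_add, map_sub, map_one]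
      ring
    rwa [h2] at h1
  have hk' : k = 1 := by
    by_contra hne
    rcases (D.al_prime i).dvd_or_dvd hap with h1 | h1
    · have hu : IsUnit (C ((k : ℂ) - 1) : Pol n) :=
        (IsUnit.mk0 _ (sub_ne_zero.2 (by exact_mod_cast hne))).map C
      exact (D.al_prime i).not_isUnit (isUnit_of_dvd_unit h1 hu)
    · exact hnd h1
  subst hk'
  refine ⟨η, D.ap i η, fun l => ?_, fun l => ?_, hnd⟩
  · rw [← hφl l, hk]
    simp
  · have h2 := hdiv l
    have h3 : C (((1 : ℕ) : ℂ) + 1) * η l - 2 * (D.ap i η * C (D.a i l)) =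
        C 2 * (η l - D.ap i η * C (D.a i l)) := by
      have e3 : (C (((1 : ℕ) : ℂ) + 1) : Pol n) = C 2 := by norm_num
      have e4 : (C 2 : Pol n) = 2 := map_ofNat C 2
      rw [e3, e4]
      ring
    rw [h3] at h2
    exact (((IsUnit.mk0 (2 : ℂ) two_ne_zero).map (C : ℂ →+* Pol n)).dvd_mul_left).1 h2

end RD

end RFL
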