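import Pool.Agent.RFL.Defs

/-!
# RFL-M1 : polynomials in two disjoint sets of variables

`S = MvPolynomial (α ⊕ β) ℂ`, `A = MvPolynomial α ℂ`, `B = MvPolynomial β ℂ`, `inl# = rename Sum.inl`,
`inr# = rename Sum.inr`. Use `sumAlgEquiv : MvPolynomial (α ⊕ β) ℂ ≃ MvPolynomial α (MvPolynomial β ℂ)`
(and the symmetric one) with `Ideal.mem_map_C_iff` style statements (an element is in the ideal
extended from the coefficients iff all coefficients are), or the tensor product.

(`tens_key`) vector spaces: `A₁, A₂ ≤ A`, `B₁, B₂ ≤ B`: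
`(A₂ ⊗ B₂) ∩ (A₁ ⊗ B + A ⊗ B₁) = (A₁ ∩ A₂) ⊗ B₂ + A₂ ⊗ (B₁ ∩ B₂)`, because
`A₂/(A₁∩A₂) ⊗ B₂/(B₁∩B₂) → A/A₁ ⊗ B/B₁` is injective and `TensorProduct.map_ker`. Only `≤` needed with
`A₁ ⊗ B₂ + A₂ ⊗ B₁` on the right.
Alternatively by bases: choose a basis of `B` adapted to ...
-/

open MvPolynomial

noncomputable section

namespace RFL

namespace TensB

theorem mem_map_iff {A S : Type*} [CommRing A] [CommRing S] {σ : Type*}
    (f : A →+* S) (e : S ≃+* MvPolynomial σ A) (h : ∀ a, e (f a) = C a) (K : Ideal A) (x : S) :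
    x ∈ K.map f ↔ ∀ m, (e x).coeff m ∈ K := by
  have h1 : K.map f = (K.map (C : A →+* MvPolynomial σ A)).comap (e : S →+* MvPolynomial σ A) := by
    have h2 : (C : A →+* MvPolynomial σ A) = (e : S →+* MvPolynomial σ A).comp f := by
      ext1 a
      exact (h a).symm
    rw [h2, ← Ideal.map_map]
    exact (Ideal.comap_map_of_bijective (e : S →+* MvPolynomial σ A) e.bijective).symm
  rw [h1, Ideal.mem_comap]
  exact MvPolynomial.mem_map_C_iff

theorem map_iInf {A S : Type*} [CommRing A] [CommRing S] {σ : Type*}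
    (f : A →+* S) (e : S ≃+* MvPolynomial σ A) (h : ∀ a, e (f a) = C a) {T : Type} (k : T → Ideal A) :
    (⨅ t, k t).map f = ⨅ t, (k t).map f := by
  ext x
  rw [mem_map_iff f e h]
  simp only [Ideal.mem_iInf, mem_map_iff f e h]
  exact ⟨fun H t m => H m t, fun H m t => H t m⟩

end TensB

variable {α β : Type} [Fintype α] [Fintype β] [DecidableEq α] [DecidableEq β]

/-- extension to more variables commutes with intersections -/
theorem map_inl_iInf {T : Type} (k : T → Ideal (MvPolynomial α ℂ)) :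
    (⨅ t, k t).map (rename (Sum.inl : α → α ⊕ β)).toRingHom =
      ⨅ t, (k t).map (rename (Sum.inl : α → α ⊕ β)).toRingHom := by
  refine TensB.map_iInf _ (((renameEquiv ℂ (Equiv.sumComm α β)).toRingEquiv).trans
    (sumRingEquiv ℂ β α)) ?_ k
  intro a
  show sumRingEquiv ℂ β α (renameEquiv ℂ (Equiv.sumComm α β) (rename Sum.inl a)) = C a
  rw [renameEquiv_apply, rename_rename]
  have : ((Equiv.sumComm α β) ∘ Sum.inl : α → β ⊕ α) = Sum.inr := by
    funext i
    rfl
  rw [this]
  induction a using MvPolynomial.induction_on with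
  | C a => simp
  | add p q hp hq => simp [hp, hq]
  | mul_X p i hp => rw [map_mul, map_mul, hp, rename_X, map_mul]; simp

theorem map_inr_iInf {T : Type} (k : T → Ideal (MvPolynomial β ℂ)) :
    (⨅ t, k t).map (rename (Sum.inr : β → α ⊕ β)).toRingHom =
      ⨅ t, (k t).map (rename (Sum.inr : β → α ⊕ β)).toRingHom := by
  refine TensB.map_iInf _ (sumRingEquiv ℂ α β) ?_ k
  intro a
  show sumRingEquiv ℂ α β (rename Sum.inr a) = C a
  induction a using MvPolynomial.induction_on with
  | C a => simp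
  | add p q hp hq => simp [hp, hq]
  | mul_X p i hp => rw [map_mul, map_mul, hp, rename_X, map_mul]; simp

end RFL
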