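import Pool.Agent.RFL.Defs

/-!
# RFL-M1 : polynomials in two disjoint sets of variables

`S = MvPolynomial (α ⊕ β) ℂ`, `A = MvPolynomial α ℂ`, `B = MvPolynomial β ℂ`, `inl# = rename Sum.inl`,
`inr# = rename Sum.inr`. Use `sumAlgEquiv : MvPolynomial (α ⊕ β) ℂ ≃ MvPolynomial α (MvPolynomial β ℂ)`
(and the symmetric one) with `Ideal.mem_map_C_iff` style statements (an element is in the ideal
extended from the coefficients iff all coefficients are), or the tensor product.

(`tens_key`) vector spaces: `A₁, A₂ ≤ A`, `B₁, B₂ ≤ B`: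
`(A₂ ⊗ B₂) ∩ (A₁ ⊗ B + A ⊗ B₁) = (A₁ ∩ A₂) ⊗ B₂ + A₂ ⊗ (B₁ ∩ B₂)`, because
`A₂/(A₁∩A₂) ⊗ B₂/(B₁∩B₂) → A/A₁ ⊗ B/B₁` is injective and `TensorProduct.map_ker`. Only `≤` needed with
`A₁ ⊗ B₂ + A₂ ⊗ B₁` on the right.
Alternatively by bases: choose a basis of `B` adapted to ...
-/

open MvPolynomial

noncomputable section

namespace RFL

namespace TensC

variable {α β : Type}

/-- coefficientwise application of a linear functional -/
def Lam (lam : MvPolynomial β ℂ →ₗ[ℂ] ℂ) (P : MvPolynomial α (MvPolynomial β ℂ)) :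
    MvPolynomial α ℂ := ∑ μ ∈ P.support, monomial μ (lam (coeff μ P))

theorem coeff_Lam (lam : MvPolynomial β ℂ →ₗ[ℂ] ℂ) (P : MvPolynomial α (MvPolynomial β ℂ))
    (ν : α →₀ ℕ) : coeff ν (Lam lam P) = lam (coeff ν P) := by
  classical
  rw [Lam, coeff_sum]
  simp only [coeff_monomial]
  rw [Finset.sum_ite_eq' P.support ν]
  split_ifs with h
  · rfl
  · rw [notMem_support_iff.mp h, map_zero]

/-- the functionals characterise `I ⊗ B + A ⊗ J`: first direction -/
theorem Lam_mem (I : Ideal (MvPolynomial α ℂ)) (J : Ideal (MvPolynomial β ℂ))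
    (P : MvPolynomial α (MvPolynomial β ℂ))
    (hP : P ∈ I.map (MvPolynomial.map (C : ℂ →+* MvPolynomial β ℂ)) ⊔
      J.map (C : MvPolynomial β ℂ →+* MvPolynomial α (MvPolynomial β ℂ)))
    (lam : MvPolynomial β ℂ →ₗ[ℂ] ℂ) (hlam : ∀ j ∈ J, lam j = 0) : Lam lam P ∈ I := by
  classical
  let K : Ideal (MvPolynomial α (MvPolynomial β ℂ)) :=
    { carrier := {P | ∀ lam : MvPolynomial β ℂ →ₗ[ℂ] ℂ, (∀ j ∈ J, lam j = 0) → Lam lam P ∈ I}
      zero_mem' := by
        intro lam _
        have : Lam lam (0 : MvPolynomial α (MvPolynomial β ℂ)) = 0 := by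
          ext ν; rw [coeff_Lam]; simp
        rw [this]; exact I.zero_mem
      add_mem' := by
        intro a b ha hb lam hl
        have : Lam lam (a + b) = Lam lam a + Lam lam b := by
          ext ν; simp only [coeff_Lam, coeff_add, map_add]
        rw [this]; exact I.add_mem (ha lam hl) (hb lam hl)
      smul_mem' := by
        intro t x hx
        revert x
        induction t using MvPolynomial.induction_on with
        | C b =>
          intro x hx lam hl
          have : Lam lam ((C b : MvPolynomial α (MvPolynomial β ℂ)) • x) =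
              Lam (lam ∘ₗ LinearMap.mulLeft ℂ b) x := by
            ext ν
            simp only [coeff_Lam, smul_eq_mul, coeff_C_mul, LinearMap.comp_apply,
              LinearMap.mulLeft_apply]
          rw [this]
          exact hx _ fun j hj => hl _ (J.mul_mem_left b hj)
        | add p q hp hq =>
          intro x hx lam hl
          have : Lam lam ((p + q) • x) = Lam lam (p • x) + Lam lam (q • x) := by
            ext ν; simp only [coeff_Lam, add_smul, coeff_add, map_add]
          rw [this]; exact I.add_mem (hp hx lam hl) (hq hx lam hl)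
        | mul_X p i hp =>
          intro x hx
          rw [smul_eq_mul, mul_assoc]
          refine hp (x := X i * x) ?_
          intro lam hl
          have : Lam lam (X i * x) = X i * Lam lam x := by
            ext ν
            rw [coeff_Lam, coeff_X_mul', coeff_X_mul']
            split_ifs with h
            · rw [coeff_Lam]
            · rw [map_zero]
          rw [this]
          exact I.mul_mem_left _ (hx lam hl) }
  have hK : I.map (MvPolynomial.map (C : ℂ →+* MvPolynomial β ℂ)) ⊔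
      J.map (C : MvPolynomial β ℂ →+* MvPolynomial α (MvPolynomial β ℂ)) ≤ K := by
    refine sup_le ?_ ?_
    · rw [Ideal.map_le_iff_le_comap]
      intro a ha lam _
      have : Lam lam (MvPolynomial.map (C : ℂ →+* MvPolynomial β ℂ) a) = C (lam 1) * a := by
        ext ν
        rw [coeff_Lam, coeff_map, coeff_C_mul, ← mul_one (C (coeff ν a)), ← smul_eq_C_mul,
          map_smul, smul_eq_mul, mul_comm]
      rw [this]
      exact I.mul_mem_left _ ha
    · rw [Ideal.map_le_iff_le_comap]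
      intro j hj lam hl
      have : Lam lam (C j : MvPolynomial α (MvPolynomial β ℂ)) = 0 := by
        ext ν
        rw [coeff_Lam, coeff_C]
        split_ifs
        · rw [hl j hj, coeff_zero]
        · rw [map_zero, coeff_zero]
      rw [this]
      exact I.zero_mem
  exact hK hP lam hlam

/-- second direction -/
theorem mem_of_Lam (I : Ideal (MvPolynomial α ℂ)) (J : Ideal (MvPolynomial β ℂ))
    (P : MvPolynomial α (MvPolynomial β ℂ))
    (hP : ∀ lam : MvPolynomial β ℂ →ₗ[ℂ] ℂ, (∀ j ∈ J, lam j = 0) → Lam lam P ∈ I) :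
    P ∈ I.map (MvPolynomial.map (C : ℂ →+* MvPolynomial β ℂ)) ⊔
      J.map (C : MvPolynomial β ℂ →+* MvPolynomial α (MvPolynomial β ℂ)) := by
  classical
  set bs := Module.Basis.ofVectorSpace ℂ (MvPolynomial β ℂ ⧸ J) with hbs
  set mk : MvPolynomial β ℂ →ₗ[ℂ] (MvPolynomial β ℂ ⧸ J) :=
    (Ideal.Quotient.mkₐ ℂ J).toLinearMap with hmk
  have hmk0 : ∀ x, mk x = 0 ↔ x ∈ J := fun x => Ideal.Quotient.eq_zero_iff_mem
  have hsurj : ∀ y, ∃ x, mk x = y := fun y => Ideal.Quotient.mk_surjective y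
  choose lift hlift using hsurj
  set K := P.support.biUnion fun μ => (bs.repr (mk (coeff μ P))).support with hK
  set lam : Module.Basis.ofVectorSpaceIndex ℂ (MvPolynomial β ℂ ⧸ J) → MvPolynomial β ℂ →ₗ[ℂ] ℂ :=
    fun k => bs.coord k ∘ₗ mk with hlam
  set R := ∑ k ∈ K, (C (lift (bs k)) : MvPolynomial α (MvPolynomial β ℂ)) *
    MvPolynomial.map (C : ℂ →+* MvPolynomial β ℂ) (Lam (lam k) P) with hR
  have hRm : R ∈ I.map (MvPolynomial.map (C : ℂ →+* MvPolynomial β ℂ)) := by
    refine Ideal.sum_mem _ fun k _ => Ideal.mul_mem_left _ _ ?_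
    refine Ideal.mem_map_of_mem _ (hP _ fun j hj => ?_)
    rw [hlam]
    simp only [LinearMap.comp_apply]
    rw [(hmk0 j).mpr hj, map_zero]
  have hPR : P - R ∈ J.map (C : MvPolynomial β ℂ →+* MvPolynomial α (MvPolynomial β ℂ)) := by
    rw [mem_map_C_iff]
    intro μ
    rw [← hmk0]
    have h1 : coeff μ R = ∑ k ∈ K, (bs.repr (mk (coeff μ P)) k) • lift (bs k) := by
      rw [hR, coeff_sum]
      refine Finset.sum_congr rfl fun k _ => ?_
      rw [coeff_C_mul, coeff_map, coeff_Lam, smul_eq_C_mul, mul_comm]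
      rfl
    rw [coeff_sub, map_sub, h1, map_sum]
    simp only [map_smul, hlift]
    have h2 : ∑ k ∈ K, (bs.repr (mk (coeff μ P)) k) • bs k = mk (coeff μ P) := by
      conv_rhs => rw [← bs.linearCombination_repr (mk (coeff μ P))]
      rw [Finsupp.linearCombination_apply, Finsupp.sum]
      symm
      refine Finset.sum_subset ?_ ?_
      · intro k hk
        rw [hK, Finset.mem_biUnion]
        refine ⟨μ, ?_, hk⟩
        rw [mem_support_iff]
        intro h0
        rw [h0, map_zero, map_zero] at hk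
        simp at hk
      · intro k _ hk
        rw [Finsupp.notMem_support_iff.mp hk, zero_smul]
    rw [h2, sub_self]
  have : P = R + (P - R) := by ring
  rw [this]
  exact Ideal.add_mem _ (Ideal.mem_sup_left hRm) (Ideal.mem_sup_right hPR)

theorem mem_iff_Lam (I : Ideal (MvPolynomial α ℂ)) (J : Ideal (MvPolynomial β ℂ))
    (F : MvPolynomial (α ⊕ β) ℂ) :
    F ∈ I.map (rename (Sum.inl : α → α ⊕ β)).toRingHom ⊔
        J.map (rename (Sum.inr : β → α ⊕ β)).toRingHom ↔
      ∀ lam : MvPolynomial β ℂ →ₗ[ℂ] ℂ, (∀ j ∈ J, lam j = 0) →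
        Lam lam (sumAlgEquiv ℂ α β F) ∈ I := by
  set e : MvPolynomial (α ⊕ β) ℂ ≃+* MvPolynomial α (MvPolynomial β ℂ) :=
    (sumAlgEquiv ℂ α β).toRingEquiv with he
  have h1 : (e : MvPolynomial (α ⊕ β) ℂ →+* MvPolynomial α (MvPolynomial β ℂ)).comp
      (rename (Sum.inl : α → α ⊕ β)).toRingHom =
      MvPolynomial.map (C : ℂ →+* MvPolynomial β ℂ) := by
    refine MvPolynomial.ringHom_ext (fun r => ?_) fun i => ?_
    · simp [he]
    · simp [he]
  have h2 : (e : MvPolynomial (α ⊕ β) ℂ →+* MvPolynomial α (MvPolynomial β ℂ)).comp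
      (rename (Sum.inr : β → α ⊕ β)).toRingHom =
      (C : MvPolynomial β ℂ →+* MvPolynomial α (MvPolynomial β ℂ)) := by
    refine MvPolynomial.ringHom_ext (fun r => ?_) fun i => ?_
    · simp [he]
    · simp [he]
  have h3 : (I.map (rename (Sum.inl : α → α ⊕ β)).toRingHom ⊔
        J.map (rename (Sum.inr : β → α ⊕ β)).toRingHom).map
        (e : MvPolynomial (α ⊕ β) ℂ →+* MvPolynomial α (MvPolynomial β ℂ)) =
      I.map (MvPolynomial.map (C : ℂ →+* MvPolynomial β ℂ)) ⊔
      J.map (C : MvPolynomial β ℂ →+* MvPolynomial α (MvPolynomial β ℂ)) := by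
    rw [Ideal.map_sup, Ideal.map_map, Ideal.map_map, h1, h2]
  have h4 : F ∈ (I.map (rename (Sum.inl : α → α ⊕ β)).toRingHom ⊔
        J.map (rename (Sum.inr : β → α ⊕ β)).toRingHom) ↔
      e F ∈ (I.map (rename (Sum.inl : α → α ⊕ β)).toRingHom ⊔
        J.map (rename (Sum.inr : β → α ⊕ β)).toRingHom).map
        (e : MvPolynomial (α ⊕ β) ℂ →+* MvPolynomial α (MvPolynomial β ℂ)) := by
    constructor
    · intro h
      exact Ideal.mem_map_of_mem _ h
    · intro h
      have h5 := Ideal.mem_map_of_mem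
        (e.symm : MvPolynomial α (MvPolynomial β ℂ) →+* MvPolynomial (α ⊕ β) ℂ) h
      rw [Ideal.map_map] at h5
      simpa using h5
  rw [h4, h3]
  constructor
  · intro h lam hl
    exact Lam_mem I J _ h lam hl
  · intro h
    exact mem_of_Lam I J _ h

theorem inf_left {T : Type} (S : Set T) (I : T → Ideal (MvPolynomial α ℂ))
    (J : Ideal (MvPolynomial β ℂ)) (F : MvPolynomial (α ⊕ β) ℂ)
    (h : ∀ s ∈ S, F ∈ (I s).map (rename (Sum.inl : α → α ⊕ β)).toRingHom ⊔
        J.map (rename (Sum.inr : β → α ⊕ β)).toRingHom) :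
    F ∈ (⨅ s ∈ S, I s).map (rename (Sum.inl : α → α ⊕ β)).toRingHom ⊔
        J.map (rename (Sum.inr : β → α ⊕ β)).toRingHom := by
  rw [mem_iff_Lam]
  intro lam hl
  simp only [Submodule.mem_iInf]
  intro s hs
  exact (mem_iff_Lam _ _ _).mp (h s hs) lam hl

theorem swap_mem (I : Ideal (MvPolynomial α ℂ)) (J : Ideal (MvPolynomial β ℂ))
    (F : MvPolynomial (α ⊕ β) ℂ)
    (h : F ∈ I.map (rename (Sum.inl : α → α ⊕ β)).toRingHom ⊔
        J.map (rename (Sum.inr : β → α ⊕ β)).toRingHom) :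
    rename Sum.swap F ∈ J.map (rename (Sum.inl : β → β ⊕ α)).toRingHom ⊔
        I.map (rename (Sum.inr : α → β ⊕ α)).toRingHom := by
  have h1 := Ideal.mem_map_of_mem (rename (Sum.swap : α ⊕ β → β ⊕ α)
    : MvPolynomial (α ⊕ β) ℂ →ₐ[ℂ] MvPolynomial (β ⊕ α) ℂ).toRingHom h
  rw [Ideal.map_sup, Ideal.map_map, Ideal.map_map] at h1
  have h2 : (rename (Sum.swap : α ⊕ β → β ⊕ α)
      : MvPolynomial (α ⊕ β) ℂ →ₐ[ℂ] MvPolynomial (β ⊕ α) ℂ).toRingHom.comp
      (rename (Sum.inl : α → α ⊕ β)).toRingHom = (rename (Sum.inr : α → β ⊕ α)).toRingHom := by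
    refine MvPolynomial.ringHom_ext (fun r => ?_) fun i => ?_
    · simp
    · simp
  have h3 : (rename (Sum.swap : α ⊕ β → β ⊕ α)
      : MvPolynomial (α ⊕ β) ℂ →ₐ[ℂ] MvPolynomial (β ⊕ α) ℂ).toRingHom.comp
      (rename (Sum.inr : β → α ⊕ β)).toRingHom = (rename (Sum.inl : β → β ⊕ α)).toRingHom := by
    refine MvPolynomial.ringHom_ext (fun r => ?_) fun i => ?_
    · simp
    · simp
  rw [h2, h3, sup_comm] at h1
  exact h1

theorem inf_right {T : Type} (S : Set T) (I : Ideal (MvPolynomial α ℂ))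
    (J : T → Ideal (MvPolynomial β ℂ)) (F : MvPolynomial (α ⊕ β) ℂ)
    (h : ∀ s ∈ S, F ∈ I.map (rename (Sum.inl : α → α ⊕ β)).toRingHom ⊔
        (J s).map (rename (Sum.inr : β → α ⊕ β)).toRingHom) :
    F ∈ I.map (rename (Sum.inl : α → α ⊕ β)).toRingHom ⊔
        (⨅ s ∈ S, J s).map (rename (Sum.inr : β → α ⊕ β)).toRingHom := by
  have h1 := inf_left S J I (rename Sum.swap F) fun s hs => swap_mem _ _ _ (h s hs)
  have h2 := swap_mem _ _ _ h1
  rw [rename_rename] at h2
  simpa using h2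

theorem map_pair (u : MvPolynomial α ℂ) (w : MvPolynomial β ℂ) :
    Ideal.span {rename (Sum.inl : α → α ⊕ β) u, rename (Sum.inr : β → α ⊕ β) w} =
      (Ideal.span {u}).map (rename (Sum.inl : α → α ⊕ β)).toRingHom ⊔
        (Ideal.span {w}).map (rename (Sum.inr : β → α ⊕ β)).toRingHom := by
  rw [Ideal.map_span, Ideal.map_span, Ideal.span_insert, Set.image_singleton, Set.image_singleton]
  rfl

theorem prod_pow_dvd {A : Type} [CommRing A] [IsDomain A] {T : Type} [DecidableEq T]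
    (S : Finset T) (u : T → A) (hu : ∀ s ∈ S, Prime (u s))
    (huu : ∀ s ∈ S, ∀ s' ∈ S, s ≠ s' → ¬ Associated (u s) (u s')) (r : ℕ) (a : A)
    (h : ∀ s ∈ S, u s ^ r ∣ a) : (∏ s ∈ S, u s) ^ r ∣ a := by
  induction S using Finset.induction_on with
  | empty => simp
  | insert s S hs ih =>
    have h1 := ih (fun t ht => hu t (Finset.mem_insert_of_mem ht))
      (fun t ht t' ht' => huu t (Finset.mem_insert_of_mem ht) t' (Finset.mem_insert_of_mem ht'))
      (fun t ht => h t (Finset.mem_insert_of_mem ht))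
    obtain ⟨c, rfl⟩ := h1
    have hp := hu s (Finset.mem_insert_self s S)
    have h2 : ¬ u s ∣ (∏ t ∈ S, u t) ^ r := by
      intro hd
      have h3 := hp.dvd_of_dvd_pow hd
      rw [Prime.dvd_finsetProd_iff hp] at h3
      obtain ⟨t, ht, h4⟩ := h3
      have h5 := (hp.dvd_prime_iff_associated (hu t (Finset.mem_insert_of_mem ht))).mp h4
      refine huu s (Finset.mem_insert_self s S) t (Finset.mem_insert_of_mem ht) ?_ h5
      rintro rfl
      exact hs ht
    have h3 := hp.pow_dvd_of_dvd_mul_left r h2 (h s (Finset.mem_insert_self s S))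
    rw [Finset.prod_insert hs, mul_pow, mul_comm]
    exact mul_dvd_mul_left _ h3

end TensC

variable {α β : Type} [Fintype α] [Fintype β] [DecidableEq α] [DecidableEq β]

/-- `∩_{s,t} (u_s^r, w_t^r) ⊆ (∏ u_s^r, ∏ w_t^r)` for pairwise non-associated primes -/
theorem inf_pow {T T' : Type} [DecidableEq T] [DecidableEq T'] (S : Finset T) (S' : Finset T')
    (u : T → MvPolynomial α ℂ) (w : T' → MvPolynomial β ℂ)
    (hu : ∀ s ∈ S, Prime (u s)) (hw : ∀ t ∈ S', Prime (w t))
    (huu : ∀ s ∈ S, ∀ s' ∈ S, s ≠ s' → ¬ Associated (u s) (u s'))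
    (hww : ∀ t ∈ S', ∀ t' ∈ S', t ≠ t' → ¬ Associated (w t) (w t')) (r : ℕ)
    (F : MvPolynomial (α ⊕ β) ℂ)
    (hF : ∀ s ∈ S, ∀ t ∈ S', F ∈ Ideal.span {rename (Sum.inl : α → α ⊕ β) (u s) ^ r,
      rename (Sum.inr : β → α ⊕ β) (w t) ^ r}) :
    F ∈ Ideal.span {rename (Sum.inl : α → α ⊕ β) (∏ s ∈ S, u s) ^ r,
      rename (Sum.inr : β → α ⊕ β) (∏ t ∈ S', w t) ^ r} := by
  have h1 : ∀ s ∈ S, ∀ t ∈ S', F ∈ (Ideal.span {u s ^ r}).map
      (rename (Sum.inl : α → α ⊕ β)).toRingHom ⊔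
        (Ideal.span {w t ^ r}).map (rename (Sum.inr : β → α ⊕ β)).toRingHom := by
    intro s hs t ht
    rw [← TensC.map_pair, map_pow, map_pow]
    exact hF s hs t ht
  have h2 : ∀ t ∈ S', F ∈ (⨅ s ∈ (S : Set T), Ideal.span {u s ^ r}).map
      (rename (Sum.inl : α → α ⊕ β)).toRingHom ⊔
        (Ideal.span {w t ^ r}).map (rename (Sum.inr : β → α ⊕ β)).toRingHom := by
    intro t ht
    exact TensC.inf_left (S : Set T) (fun s => Ideal.span {u s ^ r}) _ F
      fun s hs => h1 s hs t ht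
  have h3 := TensC.inf_right (S' : Set T') (⨅ s ∈ (S : Set T), Ideal.span {u s ^ r})
    (fun t => Ideal.span {w t ^ r}) F fun t ht => h2 t ht
  rw [← map_pow, ← map_pow, TensC.map_pair]
  have h4 : (⨅ s ∈ (S : Set T), Ideal.span {u s ^ r}) ≤ Ideal.span {(∏ s ∈ S, u s) ^ r} := by
    intro a ha
    simp only [Submodule.mem_iInf, Ideal.mem_span_singleton] at ha
    rw [Ideal.mem_span_singleton]
    exact TensC.prod_pow_dvd S u hu huu r a fun s hs => ha s hs
  have h5 : (⨅ t ∈ (S' : Set T'), Ideal.span {w t ^ r}) ≤ Ideal.span {(∏ t ∈ S', w t) ^ r} := by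
    intro a ha
    simp only [Submodule.mem_iInf, Ideal.mem_span_singleton] at ha
    rw [Ideal.mem_span_singleton]
    exact TensC.prod_pow_dvd S' w hw hww r a fun s hs => ha s hs
  rcases Submodule.mem_sup.mp h3 with ⟨a, ha, b, hb, rfl⟩
  exact Ideal.add_mem _ (Ideal.mem_sup_left (Ideal.map_mono h4 ha))
    (Ideal.mem_sup_right (Ideal.map_mono h5 hb))

/-- `(u, w)^(2r-1) ⊆ (u^r, w^r)` -/
theorem span_pair_pow_le {A : Type} [CommRing A] (u w : A) (r : ℕ) (hr : 1 ≤ r) :
    Ideal.span {u, w} ^ (2 * r - 1) ≤ Ideal.span {u ^ r, w ^ r} := by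
  rw [Ideal.span_insert, Ideal.span_insert, ← Ideal.span_singleton_pow, ← Ideal.span_singleton_pow]
  rw [← Ideal.add_eq_sup, ← Ideal.add_eq_sup, add_pow, Ideal.sum_eq_sup]
  apply Finset.sup_le
  intro i hi
  by_cases hn : r ≤ i
  · exact (Ideal.mul_le_left.trans (Ideal.mul_le_left.trans
      ((Ideal.pow_le_pow_right hn).trans le_sup_left)))
  · refine (Ideal.mul_le_left.trans (Ideal.mul_le_right.trans
      ((Ideal.pow_le_pow_right ?_).trans le_sup_right)))
    omega

end RFL
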