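import Pool.Agent.RFL.Lin1
import Pool.Agent.RFL.Tens

/-!
# RFL-M2 : orthogonal splitting of coordinates

`W ≤ ℂ^n`, `p = dim W`, `q = n - p`; orthonormal bases of `W` and `W^⊥` give matrices `B₁ : n × p`,
`B₂ : n × q` with `B₁ᴴ B₁ = 1`, `B₂ᴴ B₂ = 1`, `B₁ᴴ B₂ = 0`, `B₁ B₁ᴴ + B₂ B₂ᴴ = 1`, image of `B₁` = `W`.
`Φ : Pol n ≃ₐ MvPolynomial (Fin p ⊕ Fin q) ℂ`, `X_j ↦ ∑_l B₁ j l X (inl l) + ∑_l B₂ j l X (inr l)`;
`Φ (lin a) = rename inl (lin (B₁ᴴ a))` for `a ∈ W` and `rename inr (lin (B₂ᴴ a))` for `a ∈ W^⊥`.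
-/

open MvPolynomial Matrix Finset

noncomputable section

namespace RFL

namespace Split

theorem inner_eq {n : ℕ} (x y : EuclideanSpace ℂ (Fin n)) :
    inner ℂ x y = ip (WithLp.ofLp x) (WithLp.ofLp y) := by
  rw [EuclideanSpace.inner_eq_star_dotProduct, dotProduct_comm]
  rfl

/-- matrix of an orthonormal basis of a subspace -/
def bm {n : ℕ} (K : Submodule ℂ (EuclideanSpace ℂ (Fin n))) :
    Matrix (Fin n) (Fin (Module.finrank ℂ K)) ℂ :=
  Matrix.of fun j l => WithLp.ofLp ((stdOrthonormalBasis ℂ K l : K) : EuclideanSpace ℂ (Fin n)) j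

theorem mul_apply_ip {n : ℕ} (K L : Submodule ℂ (EuclideanSpace ℂ (Fin n)))
    (l : Fin (Module.finrank ℂ K)) (l' : Fin (Module.finrank ℂ L)) :
    ((bm K)ᴴ * bm L) l l' = inner ℂ ((stdOrthonormalBasis ℂ K l : K) : EuclideanSpace ℂ (Fin n))
      ((stdOrthonormalBasis ℂ L l' : L) : EuclideanSpace ℂ (Fin n)) := by
  rw [inner_eq, Matrix.mul_apply]
  rfl

theorem bm_self {n : ℕ} (K : Submodule ℂ (EuclideanSpace ℂ (Fin n))) : (bm K)ᴴ * bm K = 1 := by
  ext l l'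
  rw [mul_apply_ip, ← Submodule.coe_inner, (stdOrthonormalBasis ℂ K).inner_eq_ite, Matrix.one_apply]

theorem bm_orth {n : ℕ} (K : Submodule ℂ (EuclideanSpace ℂ (Fin n))) : (bm K)ᴴ * bm Kᗮ = 0 := by
  ext l l'
  rw [mul_apply_ip, Matrix.zero_apply]
  exact (Submodule.mem_orthogonal K _).mp (stdOrthonormalBasis ℂ Kᗮ l').2 _
    (stdOrthonormalBasis ℂ K l).2

theorem bm_mulVec {n : ℕ} (K : Submodule ℂ (EuclideanSpace ℂ (Fin n)))
    (c : Fin (Module.finrank ℂ K) → ℂ) :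
    WithLp.toLp 2 (bm K *ᵥ c) = ((∑ l, c l • stdOrthonormalBasis ℂ K l : K) :
      EuclideanSpace ℂ (Fin n)) := by
  ext j
  simp only [bm, Matrix.mulVec, dotProduct, Matrix.of_apply, Submodule.coe_sum, Submodule.coe_smul,
    WithLp.ofLp_sum, WithLp.ofLp_smul, Finset.sum_apply, Pi.smul_apply, smul_eq_mul]
  exact Finset.sum_congr rfl fun l _ => mul_comm _ _

theorem mem_iff {n : ℕ} (K : Submodule ℂ (EuclideanSpace ℂ (Fin n))) (v : Vec n) :
    WithLp.toLp 2 v ∈ K ↔ bm K *ᵥ ((bm K)ᴴ *ᵥ v) = v := by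
  constructor
  · intro h
    set c : Fin (Module.finrank ℂ K) → ℂ := fun l =>
      (stdOrthonormalBasis ℂ K).repr ⟨WithLp.toLp 2 v, h⟩ l
    have h1 : bm K *ᵥ c = v := by
      have h2 := bm_mulVec K c
      have h3 : (∑ l, c l • stdOrthonormalBasis ℂ K l : K) = ⟨WithLp.toLp 2 v, h⟩ :=
        (stdOrthonormalBasis ℂ K).sum_repr ⟨WithLp.toLp 2 v, h⟩
      rw [h3] at h2
      exact congrArg WithLp.ofLp h2
    rw [← h1, Matrix.mulVec_mulVec _ (bm K)ᴴ, bm_self, Matrix.one_mulVec]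
  · intro h
    rw [← h, bm_mulVec]
    exact Submodule.coe_mem _

end Split

theorem exists_orth {n : ℕ} (W : Submodule ℂ (Vec n)) :
    ∃ (p q : ℕ) (B₁ : Matrix (Fin n) (Fin p) ℂ) (B₂ : Matrix (Fin n) (Fin q) ℂ),
      p = Module.finrank ℂ W ∧ p + q = n ∧ B₁ᴴ * B₁ = 1 ∧ B₂ᴴ * B₂ = 1 ∧ B₁ᴴ * B₂ = 0 ∧
      B₁ * B₁ᴴ + B₂ * B₂ᴴ = 1 ∧ (∀ v, v ∈ W ↔ B₁ *ᵥ (B₁ᴴ *ᵥ v) = v) ∧
      (∀ v, v ∈ perpS W ↔ B₂ *ᵥ (B₂ᴴ *ᵥ v) = v) := by
  set e : EuclideanSpace ℂ (Fin n) ≃ₗ[ℂ] Vec n := WithLp.linearEquiv 2 ℂ (Vec n) with he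
  set K : Submodule ℂ (EuclideanSpace ℂ (Fin n)) := W.comap e.toLinearMap with hK
  have hKW : ∀ v : Vec n, WithLp.toLp 2 v ∈ K ↔ v ∈ W := fun v => Iff.rfl
  have hfr : Module.finrank ℂ K = Module.finrank ℂ W := by
    have h1 : K = W.map e.symm.toLinearMap := by
      rw [hK]
      exact Submodule.comap_equiv_eq_map_symm e W
    rw [h1]
    exact LinearEquiv.finrank_map_eq e.symm W
  have hsum : Module.finrank ℂ K + Module.finrank ℂ Kᗮ = n := by
    rw [Submodule.finrank_add_finrank_orthogonal, finrank_euclideanSpace, Fintype.card_fin]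
  have hperp : ∀ v : Vec n, WithLp.toLp 2 v ∈ Kᗮ ↔ v ∈ perpS W := by
    intro v
    rw [Submodule.mem_orthogonal]
    constructor
    · intro h w hw
      have h1 := h (WithLp.toLp 2 w) ((hKW w).mpr hw)
      rw [Split.inner_eq] at h1
      rw [← ip_star]
      change star (ip w v) = 0
      rw [show ip w v = 0 from h1, star_zero]
    · intro h u hu
      have h1 := h (WithLp.ofLp u) hu
      rw [Split.inner_eq]
      change ip (WithLp.ofLp u) v = 0
      rw [← ip_star, h1, star_zero]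
  refine ⟨_, _, Split.bm K, Split.bm Kᗮ, hfr, hsum, Split.bm_self K, Split.bm_self Kᗮ,
    Split.bm_orth K, ?_, fun v => ?_, fun v => ?_⟩
  · have h21 : (Split.bm Kᗮ)ᴴ * Split.bm K = 0 := by
      have := congrArg Matrix.conjTranspose (Split.bm_orth K)
      rwa [Matrix.conjTranspose_mul, Matrix.conjTranspose_conjTranspose,
        Matrix.conjTranspose_zero] at this
    have h1 : (Matrix.fromRows (Split.bm K)ᴴ (Split.bm Kᗮ)ᴴ) *
        (Matrix.fromCols (Split.bm K) (Split.bm Kᗮ)) = 1 := by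
      rw [Matrix.fromRows_mul_fromCols, Split.bm_self, Split.bm_self, Split.bm_orth, h21,
        Matrix.fromBlocks_one]
    have h2 : (Matrix.fromCols (Split.bm K) (Split.bm Kᗮ)) *
        (Matrix.fromRows (Split.bm K)ᴴ (Split.bm Kᗮ)ᴴ) = 1 := by
      refine (Matrix.mul_eq_one_comm_of_card_eq _ _ _ ?_).mp h1
      simp [hsum]
    rwa [Matrix.fromCols_mul_fromRows] at h2
  · rw [← hKW, Split.mem_iff]
  · rw [← hperp, Split.mem_iff]

theorem exists_split {n : ℕ} (W : Submodule ℂ (Vec n)) :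
    ∃ (p q : ℕ) (B₁ : Matrix (Fin n) (Fin p) ℂ) (B₂ : Matrix (Fin n) (Fin q) ℂ)
      (Φ : Pol n ≃ₐ[ℂ] MvPolynomial (Fin p ⊕ Fin q) ℂ),
      (∀ a ∈ W, Φ (lin a) = rename Sum.inl (lin (B₁ᴴ *ᵥ a)) ∧ B₁ *ᵥ (B₁ᴴ *ᵥ a) = a) ∧
      (∀ a ∈ perpS W, Φ (lin a) = rename Sum.inr (lin (B₂ᴴ *ᵥ a)) ∧ B₂ *ᵥ (B₂ᴴ *ᵥ a) = a) := by
  obtain ⟨p, q, B₁, B₂, -, -, h11, h22, h12, hsum, hW, hP⟩ := exists_orth W
  have h21 : B₂ᴴ * B₁ = 0 := by
    have := congrArg Matrix.conjTranspose h12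
    rwa [Matrix.conjTranspose_mul, Matrix.conjTranspose_conjTranspose,
      Matrix.conjTranspose_zero] at this
  set φ : Pol n →ₐ[ℂ] MvPolynomial (Fin p ⊕ Fin q) ℂ :=
    aeval (fun j => (∑ l, C (B₁ j l) * X (Sum.inl l)) + ∑ l, C (B₂ j l) * X (Sum.inr l)) with hφ
  set ψ : MvPolynomial (Fin p ⊕ Fin q) ℂ →ₐ[ℂ] Pol n :=
    aeval (Sum.elim (fun l => ∑ j, C (star (B₁ j l)) * X j)
      (fun l => ∑ j, C (star (B₂ j l)) * X j)) with hψ
  have hlin : ∀ a : Vec n, φ (lin a) = rename Sum.inl (lin (B₁ᴴ *ᵥ a)) +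
      rename Sum.inr (lin (B₂ᴴ *ᵥ a)) := by
    intro a
    simp only [lin, map_sum, map_mul, rename_X, hφ, aeval_X, algHom_C, algebraMap_eq,
      mul_add, Finset.sum_add_distrib, Finset.mul_sum]
    congr 1
    · rw [Finset.sum_comm]
      refine Finset.sum_congr rfl fun l _ => ?_
      have : star ((B₁ᴴ *ᵥ a) l) = ∑ j, star (a j) * B₁ j l := by
        simp [Matrix.mulVec, dotProduct, Matrix.conjTranspose_apply, mul_comm]
      rw [this, map_sum, Finset.sum_mul]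
      refine Finset.sum_congr rfl fun j _ => ?_
      rw [C_mul, mul_assoc]
    · rw [Finset.sum_comm]
      refine Finset.sum_congr rfl fun l _ => ?_
      have : star ((B₂ᴴ *ᵥ a) l) = ∑ j, star (a j) * B₂ j l := by
        simp [Matrix.mulVec, dotProduct, Matrix.conjTranspose_apply, mul_comm]
      rw [this, map_sum, Finset.sum_mul]
      refine Finset.sum_congr rfl fun j _ => ?_
      rw [C_mul, mul_assoc]
  have hφψ : φ.comp ψ = AlgHom.id ℂ _ := by
    refine MvPolynomial.algHom_ext fun i => ?_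
    simp only [AlgHom.comp_apply, AlgHom.id_apply]
    rcases i with l | l
    · have h1 : ψ (X (Sum.inl l)) = lin (fun j => B₁ j l) := by
        simp only [hψ, aeval_X, Sum.elim_inl, lin]
      have h2 : B₁ᴴ *ᵥ (fun j => B₁ j l) = Pi.single l 1 := by
        ext k
        have := congrFun (congrFun h11 k) l
        rw [Matrix.mul_apply, Matrix.one_apply] at this
        simp only [Matrix.mulVec, dotProduct, Pi.single_apply]
        rw [this]
      have h3 : B₂ᴴ *ᵥ (fun j => B₁ j l) = 0 := by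
        ext k
        have := congrFun (congrFun h21 k) l
        rw [Matrix.mul_apply, Matrix.zero_apply] at this
        simp only [Matrix.mulVec, dotProduct, Pi.zero_apply]
        rw [this]
      rw [h1, hlin, h2, h3]
      simp [lin, Pi.single_apply, apply_ite star, apply_ite C, ite_mul]
    · have h1 : ψ (X (Sum.inr l)) = lin (fun j => B₂ j l) := by
        simp only [hψ, aeval_X, Sum.elim_inr, lin]
      have h2 : B₂ᴴ *ᵥ (fun j => B₂ j l) = Pi.single l 1 := by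
        ext k
        have := congrFun (congrFun h22 k) l
        rw [Matrix.mul_apply, Matrix.one_apply] at this
        simp only [Matrix.mulVec, dotProduct, Pi.single_apply]
        rw [this]
      have h3 : B₁ᴴ *ᵥ (fun j => B₂ j l) = 0 := by
        ext k
        have := congrFun (congrFun h12 k) l
        rw [Matrix.mul_apply, Matrix.zero_apply] at this
        simp only [Matrix.mulVec, dotProduct, Pi.zero_apply]
        rw [this]
      rw [h1, hlin, h2, h3]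
      simp [lin, Pi.single_apply, apply_ite star, apply_ite C, ite_mul]
  have hψφ : ψ.comp φ = AlgHom.id ℂ _ := by
    refine MvPolynomial.algHom_ext fun i => ?_
    simp only [AlgHom.comp_apply, AlgHom.id_apply, hφ, hψ, aeval_X, map_add, map_sum, map_mul,
      algHom_C, algebraMap_eq, Sum.elim_inl, Sum.elim_inr, Finset.mul_sum]
    rw [Finset.sum_comm, Finset.sum_comm (s := (univ : Finset (Fin q)))]
    rw [← Finset.sum_add_distrib]
    have h1 : ∀ j, (∑ l, C (B₁ i l) * (C (star (B₁ j l)) * (X j : Pol n)) +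
        ∑ l, C (B₂ i l) * (C (star (B₂ j l)) * (X j : Pol n))) =
        C ((1 : Matrix (Fin n) (Fin n) ℂ) i j) * X j := by
      intro j
      rw [← hsum, Matrix.add_apply, Matrix.mul_apply, Matrix.mul_apply, C_add, add_mul, map_sum,
        map_sum, Finset.sum_mul, Finset.sum_mul]
      simp only [C_mul, mul_assoc, Matrix.conjTranspose_apply]
    rw [Finset.sum_congr rfl fun j _ => h1 j]
    simp [Matrix.one_apply, apply_ite C, ite_mul]
  refine ⟨p, q, B₁, B₂, AlgEquiv.ofAlgHom φ ψ hφψ hψφ, fun a ha => ⟨?_, (hW a).mp ha⟩,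
    fun a ha => ⟨?_, (hP a).mp ha⟩⟩
  · change φ (lin a) = _
    rw [hlin]
    have h2 : B₂ᴴ *ᵥ a = 0 := by
      rw [← (hW a).mp ha, Matrix.mulVec_mulVec, h21, Matrix.zero_mulVec]
    rw [h2, lin_zero, map_zero, add_zero]
  · change φ (lin a) = _
    rw [hlin]
    have h2 : B₁ᴴ *ᵥ a = 0 := by
      rw [← (hP a).mp ha, Matrix.mulVec_mulVec, h12, Matrix.zero_mulVec]
    rw [h2, lin_zero, map_zero, zero_add]

end RFL
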