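import Pool.Agent.RFL.Flat
import Pool.Agent.RFL.Nab2

/-!
# RFL-C5 : `M` is stable under the connection

Let `θ ∈ M`. Need `al i ∣ ap i (∇_u ∇_v θ)` for all `i, u, v`. Fix `i`, `a = a i`, `t = al i`,
`s = s i`, `ζ = ζ i`. By linearity in `u, v` (write `v = (v - ip a v • a) + ip a v • a`):
* `u ⊥ a`: `tang` applied to `∇_v θ ∈ Der`.
* `v ⊥ a`: `∇_u ∇_v θ = ∇_v ∇_u θ` (`flat`) and `tang` applied to `∇_u θ`.
* `u = v = a`. Let `e = orderOf s`, `θ₀ = (1/e) ∑_{k<e} s^k θ` (`actV`), `θ' = θ - θ₀`, both in `M`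
  (`actV_mem_M`; `M` is closed under sums and constants). `s θ₀ = θ₀`.
  - `θ₀`: `η = ∇_a ∇_a θ₀` satisfies `s η = ζ² η` (`nab_actV`, `ρ(s) a = ζ a`, `nab_smul_left`).
    For `x ∈ H_i`: `(s η)(x) = ρ(s) η(x)` and `ip a (ρ(s) w) = ζ ip a w`; so
    `ζ ip a (η x) = ζ² ip a (η x)`, hence `ip a (η x) = 0`.
  - `θ'` vanishes on `H_i` (for `x ∈ H_i`, `θ(x) ∈ H_i` is fixed by `ρ(s)`), so `θ' = t η'`.
    `∇_a(t η')` has `t`-component on `H_i`: `η'(t) - 2 η'(t) = - η'(t)`; it vanishes as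
    `∇_a θ' ∈ Der`; so `t ∣ ap i η'`, and `η' ∈ Der` (for `k ≠ i`: `al k ∣ t * ap k η'`).
    `ξ = ∇_a η'`, `∇_a θ' = η' + t ξ`, so `t ξ ∈ Der`, and
    `∇_a ∇_a θ' = ξ + ∇_a (t ξ)`; the `t`-component of `∇_a (t ξ)` on `H_i` is
    `ξ(t) - 2 ξ(t)`, (as above: `quo (al k) (ap k (t ξ)) = t * (...)` for `k ≠ i`); total `0`.
-/

open MvPolynomial Matrix Finset

noncomputable section

namespace RFL

namespace RD

variable {n : ℕ} (D : RD n)

/-! ### auxiliary lemmas -/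

theorem Stab_ap_zero (i : D.ι) : D.ap i (0 : VF n) = 0 := by simp [ap]

theorem Stab_dvd_other {i k : D.ι} (hk : k ≠ i) (η : VF n) (h : D.al k ∣ D.al i * D.ap k η) :
    D.al k ∣ D.ap k η := by
  rcases (D.al_prime k).dvd_or_dvd h with h1 | h1
  · exact absurd h1 (D.al_not_dvd hk)
  · exact h1

theorem Stab_quo_other {i k : D.ι} (hk : k ≠ i) (η : VF n) (h : D.al k ∣ D.al i * D.ap k η) :
    quo (D.al k) (D.al i * D.ap k η) = D.al i * quo (D.al k) (D.ap k η) := by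
  have h1 := D.Stab_dvd_other hk η h
  have h2 : D.al k * quo (D.al k) (D.ap k η) = D.ap k η := quo_spec h1
  have h3 : D.al i * D.ap k η = D.al k * (D.al i * quo (D.al k) (D.ap k η)) := by
    calc D.al i * D.ap k η = D.al i * (D.al k * quo (D.al k) (D.ap k η)) := by rw [h2]
      _ = _ := by ring
  rw [h3, quo_mul (D.al_ne k)]

theorem Stab_ip_a (i k : D.ι) : ∑ l, star (D.a i l) * D.a k l = ip (D.a i) (D.a k) := rfl

/-- `ap i` of the connection -/
theorem Stab_ap_nab (i : D.ι) (v : Vec n) (θ : VF n) :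
    D.ap i (D.nab v θ) = D.ap i (fun l => dv v (θ l)) -
      2 * ∑ k, C (ip (D.a k) v * ip (D.a i) (D.a k)) * quo (D.al k) (D.ap k θ) := by
  unfold ap nab
  have h1 : ∀ l, C (star (D.a i l)) * (dv v (θ l) - 2 * ∑ k, C (ip (D.a k) v * D.a k l) *
      quo (D.al k) (D.ap k θ)) = C (star (D.a i l)) * dv v (θ l) -
      2 * ∑ k, C (star (D.a i l)) * (C (ip (D.a k) v * D.a k l) * quo (D.al k) (D.ap k θ)) := by
    intro l
    rw [← Finset.mul_sum]
    ring
  rw [Finset.sum_congr rfl fun l _ => h1 l, Finset.sum_sub_distrib, ← Finset.mul_sum,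
    Finset.sum_comm]
  congr 2
  refine Finset.sum_congr rfl fun k _ => ?_
  have h2 : (C (ip (D.a k) v * ip (D.a i) (D.a k)) : Pol n) =
      ∑ l, C (star (D.a i l)) * C (ip (D.a k) v * D.a k l) := by
    rw [← D.Stab_ip_a i k, Finset.mul_sum, map_sum]
    refine Finset.sum_congr rfl fun l _ => ?_
    rw [← C_mul]
    congr 1
    ring
  rw [h2, Finset.sum_mul]
  refine Finset.sum_congr rfl fun l _ => ?_
  unfold ap
  ring

/-- for `t η ∈ Der`: the `i`-th component of `∇_a (t η)` is `- η(t)` modulo `t` -/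
theorem ap_nab_al_smul (i : D.ι) (η : VF n) (h : D.al i • η ∈ D.Der) :
    D.al i ∣ D.ap i (D.nab (D.a i) (D.al i • η)) + D.ap i η := by
  have hk : ∀ k, D.al k ∣ D.al i * D.ap k η := by
    intro k
    have := h k
    rwa [D.ap_smul] at this
  rw [D.Stab_ap_nab]
  -- the derivative part
  have hd : D.ap i (fun l => dv (D.a i) ((D.al i • η) l)) =
      D.ap i η + D.al i * D.ap i (fun l => dv (D.a i) (η l)) := by
    have h1 : (fun l => dv (D.a i) ((D.al i • η) l)) =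
        η + D.al i • (fun l => dv (D.a i) (η l)) := by
      funext l
      have h2 : (D.al i • η) l = D.al i * η l := rfl
      have h3 : dv (D.a i) (D.al i) = 1 := by
        have : dv (D.a i) (D.al i) = C (ip (D.a i) (D.a i)) := dv_lin _ _
        rw [this, D.unit, C_1]
      have h4 : (η + D.al i • (fun l => dv (D.a i) (η l))) l =
          η l + D.al i * dv (D.a i) (η l) := rfl
      rw [h2, dv_mul, h3, h4, one_mul]
    rw [h1, D.ap_add, D.ap_smul]
  have hs : ∑ k, C (ip (D.a k) (D.a i) * ip (D.a i) (D.a k)) *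
      quo (D.al k) (D.ap k (D.al i • η)) = D.ap i η + D.al i *
      ∑ k ∈ univ.erase i, C (ip (D.a k) (D.a i) * ip (D.a i) (D.a k)) *
        quo (D.al k) (D.ap k η) := by
    rw [← Finset.add_sum_erase univ _ (Finset.mem_univ i)]
    congr 1
    · rw [D.ap_smul, quo_mul (D.al_ne i), D.unit, mul_one, C_1, one_mul]
    · rw [Finset.mul_sum]
      refine Finset.sum_congr rfl fun k hk' => ?_
      rw [D.ap_smul, D.Stab_quo_other (Finset.ne_of_mem_erase hk') η (hk k)]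
      ring
  rw [hd, hs]
  refine ⟨D.ap i (fun l => dv (D.a i) (η l)) - 2 *
      ∑ k ∈ univ.erase i, C (ip (D.a k) (D.a i) * ip (D.a i) (D.a k)) *
        quo (D.al k) (D.ap k η), ?_⟩
  ring

theorem Stab_M_add {θ η : VF n} (hθ : θ ∈ D.M) (hη : η ∈ D.M) : θ + η ∈ D.M := by
  refine ⟨D.Der.add_mem hθ.1 hη.1, fun v => ?_⟩
  rw [D.nab_add v hθ.1 hη.1]
  exact D.Der.add_mem (hθ.2 v) (hη.2 v)

theorem Stab_nab_C (v : Vec n) (c : ℂ) {θ : VF n} (hθ : θ ∈ D.Der) :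
    D.nab v ((C c : Pol n) • θ) = (C c : Pol n) • D.nab v θ := by
  rw [D.nab_smul v _ hθ, dv_C, zero_smul, zero_add]

theorem Stab_M_C (c : ℂ) {θ : VF n} (hθ : θ ∈ D.M) : (C c : Pol n) • θ ∈ D.M := by
  refine ⟨D.Der.smul_mem _ hθ.1, fun v => ?_⟩
  rw [D.Stab_nab_C v c hθ.1]
  exact D.Der.smul_mem _ (hθ.2 v)

theorem Stab_M_zero : (0 : VF n) ∈ D.M := by
  refine ⟨D.Der.zero_mem, fun v => ?_⟩
  rw [D.nab_zero v]
  exact D.Der.zero_mem

theorem Stab_M_sum {T : Type} (S : Finset T) (θ : T → VF n) (h : ∀ s ∈ S, θ s ∈ D.M) :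
    ∑ s ∈ S, θ s ∈ D.M := by
  classical
  induction S using Finset.induction_on with
  | empty => simpa using D.Stab_M_zero
  | insert x S hx ih =>
    rw [Finset.sum_insert hx]
    exact D.Stab_M_add (h x (Finset.mem_insert_self x S))
      (ih fun s hs => h s (Finset.mem_insert_of_mem hs))

theorem Stab_M_sub {θ η : VF n} (hθ : θ ∈ D.M) (hη : η ∈ D.M) : θ - η ∈ D.M := by
  have h1 : θ - η = θ + (C (-1 : ℂ) : Pol n) • η := by
    rw [C_neg, C_1, neg_smul, one_smul, sub_eq_add_neg]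
  rw [h1]
  exact D.Stab_M_add hθ (D.Stab_M_C _ hη)

/-- the order of the reflection -/
theorem Stab_order_pos (i : D.ι) : 0 < orderOf (D.s i) := orderOf_pos (D.s i)

/-- the sum over the cyclic group of the reflection -/
def Stab_cyc (i : D.ι) (θ : VF n) : VF n :=
  ∑ k ∈ Finset.range (orderOf (D.s i)), D.actV (D.s i ^ k) θ

/-- `actV` as an additive map -/
def Stab_actHom (g : D.G) : VF n →+ VF n :=
  AddMonoidHom.mk' (D.actV g) (fun x y => D.actV_add g x y)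

theorem Stab_actV_sum {T : Type} (g : D.G) (S : Finset T) (θ : T → VF n) :
    D.actV g (∑ s ∈ S, θ s) = ∑ s ∈ S, D.actV g (θ s) := map_sum (D.Stab_actHom g) θ S

theorem Stab_act_C (g : D.G) (c : ℂ) : D.act g (C c : Pol n) = C c := by
  exact (D.act g).commutes c

theorem Stab_cyc_inv (i : D.ι) (θ : VF n) : D.actV (D.s i) (D.Stab_cyc i θ) = D.Stab_cyc i θ := by
  unfold Stab_cyc
  rw [D.Stab_actV_sum]
  have h1 : ∀ k ∈ Finset.range (orderOf (D.s i)), D.actV (D.s i) (D.actV (D.s i ^ k) θ) =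
      D.actV (D.s i ^ (k + 1)) θ := by
    intro k _
    rw [D.actV_actV, pow_succ']
  rw [Finset.sum_congr rfl h1]
  have h2 := Finset.sum_range_succ (fun k => D.actV (D.s i ^ k) θ) (orderOf (D.s i))
  have h3 := Finset.sum_range_succ' (fun k => D.actV (D.s i ^ k) θ) (orderOf (D.s i))
  have h4 : D.actV (D.s i ^ orderOf (D.s i)) θ = D.actV (D.s i ^ 0) θ := by
    rw [pow_orderOf_eq_one, pow_zero]
  rw [h4] at h2
  have h5 := h3.symm.trans h2
  exact add_right_cancel h5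

theorem Stab_rho_fix (i : D.ι) (x : Vec n) (hx : ip (D.a i) x = 0) : D.ρ (D.s i) *ᵥ x = x := by
  rw [D.smul_refl, hx, mul_zero, zero_smul, sub_zero]

theorem Stab_rho_inv_fix (i : D.ι) (x : Vec n) (hx : ip (D.a i) x = 0) :
    D.ρ (D.s i)⁻¹ *ᵥ x = x := by
  have h1 := D.rho_inv_mul (D.s i) x
  rwa [D.Stab_rho_fix i x hx] at h1

theorem Stab_rho_pow_fix (i : D.ι) (x : Vec n) (hx : ip (D.a i) x = 0) (k : ℕ) :
    D.ρ (D.s i ^ k) *ᵥ x = x := by
  induction k with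
  | zero => rw [pow_zero, map_one, Matrix.one_mulVec]
  | succ k ih =>
    rw [pow_succ, map_mul, ← Matrix.mulVec_mulVec, D.Stab_rho_fix i x hx, ih]

theorem Stab_rho_pow_inv_fix (i : D.ι) (x : Vec n) (hx : ip (D.a i) x = 0) (k : ℕ) :
    D.ρ (D.s i ^ k)⁻¹ *ᵥ x = x := by
  have h1 := D.rho_inv_mul (D.s i ^ k) x
  rwa [D.Stab_rho_pow_fix i x hx k] at h1

theorem Stab_ip_rho (i : D.ι) (w : Vec n) :
    ip (D.a i) (D.ρ (D.s i) *ᵥ w) = D.ζ i * ip (D.a i) w := by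
  have h1 : w - ((1 - D.ζ i) * ip (D.a i) w) • D.a i =
      w + (-((1 - D.ζ i) * ip (D.a i) w)) • D.a i := by
    rw [neg_smul, sub_eq_add_neg]
  rw [D.smul_refl, h1, ip_add_right, ip_smul_right, D.unit]
  ring

theorem Stab_rho_a (i : D.ι) : D.ρ (D.s i) *ᵥ D.a i = D.ζ i • D.a i := by
  rw [D.smul_refl, D.unit, mul_one]
  have : (D.a i : Vec n) - (1 - D.ζ i) • D.a i = D.ζ i • D.a i := by
    rw [sub_smul, one_smul, sub_sub_cancel]
  exact this

/-- invariant case -/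
theorem Stab_inv_case (i : D.ι) {θ : VF n} (hθ : θ ∈ D.M) (hs : D.actV (D.s i) θ = θ) :
    D.al i ∣ D.ap i (D.nab (D.a i) (D.nab (D.a i) θ)) := by
  have e1 : D.actV (D.s i) (D.nab (D.a i) θ) = (C (D.ζ i) : Pol n) • D.nab (D.a i) θ := by
    have h1 := D.nab_actV (D.s i) (D.a i) hθ.1
    rw [hs, D.Stab_rho_a, D.nab_smul_left] at h1
    exact h1.symm
  have e2 : D.actV (D.s i) (D.nab (D.a i) (D.nab (D.a i) θ)) =
      (C (D.ζ i) : Pol n) • (C (D.ζ i) : Pol n) • D.nab (D.a i) (D.nab (D.a i) θ) := by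
    have h1 := D.nab_actV (D.s i) (D.a i) (hθ.2 (D.a i))
    rw [e1, D.Stab_rho_a, D.nab_smul_left, D.Stab_nab_C _ _ (hθ.2 (D.a i))] at h1
    exact h1.symm
  rw [D.al_dvd_iff]
  intro x hx
  rw [D.eval_ap]
  set η : VF n := D.nab (D.a i) (D.nab (D.a i) θ) with hη
  have e3 := D.eval_actV (D.s i) η x
  rw [e2, D.Stab_rho_inv_fix i x hx] at e3
  have e4 : (fun l => eval x (((C (D.ζ i) : Pol n) • (C (D.ζ i) : Pol n) • η) l)) =
      (D.ζ i * D.ζ i) • (fun l => eval x (η l)) := by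
    funext l
    simp only [Pi.smul_apply, smul_eq_mul, map_mul, eval_C]
    ring
  rw [e4] at e3
  have e5 := congrArg (ip (D.a i)) e3
  rw [ip_smul_right, D.Stab_ip_rho] at e5
  have e6 : D.ζ i * (D.ζ i - 1) * ip (D.a i) (fun l => eval x (η l)) = 0 := by
    linear_combination e5
  have e7 : D.ζ i * (D.ζ i - 1) ≠ 0 :=
    mul_ne_zero (D.zeta_ne_zero i) (sub_ne_zero.mpr (D.ζne i))
  exact (mul_eq_zero.mp e6).resolve_left e7

/-- case of a field vanishing on `H_i` -/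
theorem Stab_van_case (i : D.ι) {θ : VF n} (hθ : θ ∈ D.M) (hv : ∀ l, D.al i ∣ θ l) :
    D.al i ∣ D.ap i (D.nab (D.a i) (D.nab (D.a i) θ)) := by
  set η : VF n := fun l => quo (D.al i) (θ l) with hη
  have e0 : θ = D.al i • η := by
    funext l
    have : D.al i * quo (D.al i) (θ l) = θ l := quo_spec (hv l)
    exact this.symm
  have e1 : D.al i • η ∈ D.Der := by rw [← e0]; exact hθ.1
  have e2 : η ∈ D.Der := by
    intro k
    by_cases hk : k = i
    · subst hk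
      have h1 := D.ap_nab_al_smul k η e1
      rw [← e0] at h1
      have h2 : D.al k ∣ D.ap k (D.nab (D.a k) θ) := hθ.2 (D.a k) k
      exact (dvd_add_right h2).mp h1
    · have h1 := e1 k
      rw [D.ap_smul] at h1
      exact D.Stab_dvd_other hk η h1
  set ξ : VF n := D.nab (D.a i) η with hξ
  have e3 : dv (D.a i) (D.al i) = 1 := by
    have : dv (D.a i) (D.al i) = C (ip (D.a i) (D.a i)) := dv_lin _ _
    rw [this, D.unit, C_1]
  have e4 : D.nab (D.a i) θ = η + D.al i • ξ := by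
    rw [e0, D.nab_smul _ _ e2, e3, one_smul]
  have e5 : D.al i • ξ ∈ D.Der := by
    have h1 : D.al i • ξ = D.nab (D.a i) θ - η := by rw [e4, add_sub_cancel_left]
    rw [h1]
    exact D.Der.sub_mem (hθ.2 _) e2
  rw [e4, D.nab_add _ e2 e5, D.ap_add]
  have e6 := D.ap_nab_al_smul i ξ e5
  rwa [add_comm] at e6

theorem Stab_double (i : D.ι) {θ : VF n} (hθ : θ ∈ D.M) :
    D.al i ∣ D.ap i (D.nab (D.a i) (D.nab (D.a i) θ)) := by
  set e : ℕ := orderOf (D.s i) with he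
  have he0 : (e : ℂ) ≠ 0 := Nat.cast_ne_zero.mpr (D.Stab_order_pos i).ne'
  set θ0 : VF n := (C ((e : ℂ)⁻¹) : Pol n) • D.Stab_cyc i θ with hθ0
  have h0 : θ0 ∈ D.M := D.Stab_M_C _ (D.Stab_M_sum _ _ fun k _ => D.actV_mem_M _ hθ)
  have h0' : D.actV (D.s i) θ0 = θ0 := by
    rw [hθ0, D.actV_smul, D.Stab_act_C, D.Stab_cyc_inv]
  have h1 : θ - θ0 ∈ D.M := D.Stab_M_sub hθ h0
  have h2 : ∀ l, D.al i ∣ (θ - θ0) l := by
    intro l
    rw [D.al_dvd_iff]
    intro x hx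
    have hx1 : ip (D.a i) (fun l => eval x (θ l)) = 0 := by
      rw [← D.eval_ap]
      exact (D.al_dvd_iff i _).mp (hθ.1 i) x hx
    have hk : ∀ k, (fun l => eval x (D.actV (D.s i ^ k) θ l)) = fun l => eval x (θ l) := by
      intro k
      rw [D.eval_actV, D.Stab_rho_pow_inv_fix i x hx k, D.Stab_rho_pow_fix i _ hx1 k]
    have hk' : ∀ k, eval x (D.actV (D.s i ^ k) θ l) = eval x (θ l) := fun k => congrFun (hk k) l
    have hs : eval x (D.Stab_cyc i θ l) = (e : ℂ) * eval x (θ l) := by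
      unfold Stab_cyc
      rw [Finset.sum_apply, map_sum, Finset.sum_congr rfl fun k _ => hk' k, Finset.sum_const,
        Finset.card_range, nsmul_eq_mul]
    have h3 : (θ - θ0) l = θ l - C ((e : ℂ)⁻¹) * D.Stab_cyc i θ l := rfl
    rw [h3, map_sub, map_mul, eval_C, hs, ← mul_assoc, inv_mul_cancel₀ he0, one_mul, sub_self]
  have h3 := D.Stab_inv_case i h0 h0'
  have h4 := D.Stab_van_case i h1 h2
  have h5 : θ = θ0 + (θ - θ0) := by rw [add_sub_cancel]
  rw [h5, D.nab_add _ h0.1 h1.1, D.nab_add _ (h0.2 _) (h1.2 _), D.ap_add]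
  exact dvd_add h3 h4

theorem Stab_split (i : D.ι) (v : Vec n) :
    ip (D.a i) (v - ip (D.a i) v • D.a i) = 0 ∧
      v = (v - ip (D.a i) v • D.a i) + ip (D.a i) v • D.a i := by
  constructor
  · have h1 : v - ip (D.a i) v • D.a i = v + (-ip (D.a i) v) • D.a i := by
      rw [neg_smul, sub_eq_add_neg]
    rw [h1, ip_add_right, ip_smul_right, D.unit, mul_one, add_neg_cancel]
  · rw [sub_add_cancel]

/-- linearity in the direction -/
theorem Stab_dir (i : D.ι) (v : Vec n) {θ : VF n} (hθ : θ ∈ D.Der)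
    (h : D.al i ∣ D.ap i (D.nab (D.a i) θ)) : D.al i ∣ D.ap i (D.nab v θ) := by
  obtain ⟨h1, h2⟩ := D.Stab_split i v
  rw [h2, D.nab_add_left, D.nab_smul_left, D.ap_add, D.ap_smul]
  exact dvd_add (D.tang i _ h1 hθ) (Dvd.dvd.mul_left h _)

theorem M_stable (v : Vec n) {θ : VF n} (hθ : θ ∈ D.M) : D.nab v θ ∈ D.M := by
  refine ⟨hθ.2 v, fun u i => ?_⟩
  apply D.Stab_dir i u (hθ.2 v)
  rw [D.flat (D.a i) v hθ.1 (hθ.2 _) (hθ.2 _)]
  apply D.Stab_dir i v (hθ.2 _)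
  exact D.Stab_double i hθ

end RD

end RFL
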