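import Pool.Agent.RFL.Base
import Pool.Agent.RFL.Lin2

/-!
# RFL-S : sub-data and the stratification

`subD W`: the reflection data of the roots in the subspace `W`: index type `{i // a i ∈ W}`, group
the subgroup generated by the `s i`, `a i ∈ W`. `full`: if `g ≠ 1` in this group fixes `v^⊥` pointwise,
then `v ∈ span {a j}` for some `j` of `D`; every `s i`, `a i ∈ W`, hence `g`, fixes `W^⊥` pointwise.
If `v ≠ 0` and `g ≠ 1`: the fixed space of `g` is `(a j)^⊥` exactly (dimension), it contains `W^⊥`, so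
`a j ∈ W^{⊥⊥} = W`. (If `v = 0` then `g = 1`.)

`loc x = subD (perp x)`.
-/

open MvPolynomial Matrix Finset

noncomputable section

namespace RFL

namespace RD

variable {n : ℕ} (D : RD n)

/-- double orthogonal complement -/
theorem mem_of_perp (W : Submodule ℂ (Vec n)) (v : Vec n)
    (h : ∀ x, (∀ w ∈ W, ip w x = 0) → ip v x = 0) : v ∈ W := by
  by_contra hv
  obtain ⟨f, hf, hW⟩ := Submodule.exists_le_ker_of_notMem hv
  have hfx : ∀ y : Vec n, f y = ∑ j, y j * f (Pi.single j 1) := by
    intro y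
    conv_lhs => rw [← Finset.univ_sum_single y]
    rw [map_sum]
    refine Finset.sum_congr rfl fun j _ => ?_
    have : (Pi.single j (y j) : Vec n) = y j • Pi.single j 1 := by
      rw [← Pi.single_smul, smul_eq_mul, mul_one]
    rw [this, map_smul, smul_eq_mul]
  let x : Vec n := fun j => star (f (Pi.single j 1))
  have hx : ∀ y, ip y x = star (f y) := by
    intro y
    rw [hfx y, star_sum]
    refine Finset.sum_congr rfl fun j _ => ?_
    rw [star_mul']
  have h1 := h x (fun w hw => by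
    have : f w = 0 := hW hw
    rw [hx, this, star_zero])
  rw [hx, star_eq_zero] at h1
  exact hf h1

theorem SubD_fix (W : Submodule ℂ (Vec n)) (g : D.G)
    (hg : g ∈ Subgroup.closure (Set.range fun i : {i : D.ι // D.a i ∈ W} => D.s i.1))
    (x : Vec n) (hx : ∀ w ∈ W, ip w x = 0) : D.ρ g *ᵥ x = x := by
  induction hg using Subgroup.closure_induction with
  | mem g hg =>
    obtain ⟨i, rfl⟩ := hg
    simp only
    rw [D.smul_refl, hx _ i.2, mul_zero, zero_smul, sub_zero]
  | one => rw [map_one, Matrix.one_mulVec]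
  | mul g g' _ _ h1 h2 =>
    rw [map_mul, ← Matrix.mulVec_mulVec, h2, h1]
  | inv g _ h1 =>
    have h2 := D.rho_inv_mul g x
    rwa [h1] at h2

theorem SubD_eq_one (g : D.G) (h : ∀ y, D.ρ g *ᵥ y = y) : g = 1 := by
  apply D.faith
  rw [map_one]
  apply Matrix.ext_of_mulVec_single
  intro i
  rw [h, Matrix.one_mulVec]

theorem sub_full (W : Submodule ℂ (Vec n)) (g : D.G)
    (hg : g ∈ Subgroup.closure (Set.range fun i : {i : D.ι // D.a i ∈ W} => D.s i.1))
    (hg1 : g ≠ 1) (v : Vec n) (hv : ∀ x, ip v x = 0 → D.ρ g *ᵥ x = x) :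
    ∃ i : {i : D.ι // D.a i ∈ W}, v ∈ Submodule.span ℂ {D.a i.1} := by
  obtain ⟨j, hj⟩ := D.full g hg1 v hv
  have hjW : D.a j ∈ W := by
    apply mem_of_perp W
    intro x hx
    by_contra hne
    apply hg1
    apply D.SubD_eq_one
    intro y
    obtain ⟨t, rfl⟩ := Submodule.mem_span_singleton.1 hj
    have h1 : D.ρ g *ᵥ x = x := D.SubD_fix W g hg x hx
    have h2 : D.ρ g *ᵥ (y - (ip (D.a j) y / ip (D.a j) x) • x) =
        y - (ip (D.a j) y / ip (D.a j) x) • x := by
      apply hv
      rw [ip_smul_left, sub_eq_add_neg, ip_add_right, ← neg_smul, ip_smul_right]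
      field_simp
      ring
    rw [Matrix.mulVec_sub, Matrix.mulVec_smul, h1] at h2
    exact sub_left_injective h2
  exact ⟨⟨j, hjW⟩, hj⟩

open Classical in
/-- sub-data of the roots in `W` -/
def subD (W : Submodule ℂ (Vec n)) : RD n where
  ι := {i : D.ι // D.a i ∈ W}
  a i := D.a i.1
  unit i := D.unit i.1
  indep i j h := D.indep i.1 j.1 (fun h' => h (Subtype.ext h'))
  G := Subgroup.closure (Set.range fun i : {i : D.ι // D.a i ∈ W} => D.s i.1)
  ρ := D.ρ.comp (Subgroup.subtype _)
  uni g := D.uni g.1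
  faith := by
    intro a b h
    exact Subtype.ext (D.faith h)
  s i := ⟨D.s i.1, Subgroup.subset_closure ⟨i, rfl⟩⟩
  ζ i := D.ζ i.1
  ζne i := D.ζne i.1
  refl i := D.refl i.1
  gen := by
    have h := Subgroup.closure_closure_coe_preimage
      (k := Set.range fun i : {i : D.ι // D.a i ∈ W} => D.s i.1)
    rw [← h]
    congr 1
    ext ⟨g, hg⟩
    simp [Subtype.ext_iff]
  full g hg v hv := D.sub_full W g.1 g.2 (fun h => hg (Subtype.ext h)) v hv

/-- localisation at the point `x` -/
def loc (x : Vec n) : RD n := D.subD (perp x)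

theorem J_le_sub (W : Submodule ℂ (Vec n)) : D.J ≤ (D.subD W).J := by
  unfold J
  refine le_iInf fun i => le_iInf fun j => le_iInf fun h => ?_
  have hne : i.1 ≠ j.1 := fun h' => h (Subtype.ext h')
  exact (iInf_le _ i.1).trans ((iInf_le _ j.1).trans (iInf_le _ hne))

theorem Jsym_le_sub (W : Submodule ℂ (Vec n)) (m : ℕ) : D.Jsym m ≤ (D.subD W).Jsym m := by
  unfold Jsym
  refine le_iInf fun i => le_iInf fun j => le_iInf fun h => ?_
  have hne : i.1 ≠ j.1 := fun h' => h (Subtype.ext h')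
  exact (iInf_le _ i.1).trans ((iInf_le _ j.1).trans (iInf_le _ hne))

/-- `q_x J(A_x) ⊆ J(A)` -/
theorem qx_mul_mem (x : Vec n) (f : Pol n) (hf : f ∈ (D.loc x).J) : D.qx x * f ∈ D.J := by
  classical
  unfold J
  rw [Ideal.mem_iInf]
  intro i
  rw [Ideal.mem_iInf]
  intro j
  rw [Ideal.mem_iInf]
  intro hij
  have hq : ∀ k, ip (D.a k) x ≠ 0 → D.al k ∣ D.qx x := by
    intro k hk
    unfold qx
    exact Finset.dvd_prod_of_mem _ (Finset.mem_filter.2 ⟨Finset.mem_univ k, hk⟩)
  by_cases hi : ip (D.a i) x = 0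
  · by_cases hj : ip (D.a j) x = 0
    · have h1 : f ∈ D.IX i j := by
        have h2 : (D.loc x).J ≤ D.IX i j := by
          unfold J
          have hne : (⟨i, hi⟩ : (D.loc x).ι) ≠ ⟨j, hj⟩ := fun h => hij (congrArg Subtype.val h)
          exact (iInf_le _ (⟨i, hi⟩ : (D.loc x).ι)).trans
            ((iInf_le _ (⟨j, hj⟩ : (D.loc x).ι)).trans (iInf_le _ hne))
        exact h2 hf
      exact Ideal.mul_mem_left _ _ h1
    · apply Ideal.mul_mem_right
      exact Ideal.mem_of_dvd _ (hq j hj) (Ideal.subset_span (by simp))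
  · apply Ideal.mul_mem_right
    exact Ideal.mem_of_dvd _ (hq i hi) (Ideal.subset_span (by simp))

theorem eval_qx (x : Vec n) : eval x (D.qx x) ≠ 0 := by
  classical
  unfold qx
  rw [map_prod, Finset.prod_ne_zero_iff]
  intro i hi
  rw [Finset.mem_filter] at hi
  unfold al
  rw [eval_lin]
  exact hi.2

end RD

end RFL
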