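import Pool.Agent.RFL.GEx

/-!
# RFL-F : the syzygies of `g`

`syz_dvd`: `∑ u_k g_k = 0`, `δ ∈ Der`, `Q δ = ∑ w_k θ_k` ⇒ `Q ∣ ∑ w_k u_k`: for each `i`,
`∑ w_k θ_k ≡ 0 mod al i`, so `w_k ≡ κ (v i)_k` (`GData.rel`); and
`0 = ∑ u_k g_k ≡ QH i * ∑ u_k (v i)_k`, `al i ∤ QH i`, prime: `al i ∣ ∑ u_k (v i)_k`; so
`al i ∣ ∑ w_k u_k`. Conclude with `Q_dvd`.

`exists_HB`: `δ, p` from `terao`; `θ_k = ε_k E + ∑_j b_{jk} δ_j`, WLOG (components) `b_{jk}`
homogeneous of degree `h - p j` (`0` if `p j > h`). `Q δ_j = ∑_k w_{jk} θ_k` (`genQ`).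
* `rel`: `Q E = ∑ g_k θ_k = (∑ g_k ε_k) E + ∑_j (∑_k g_k b_{jk}) δ_j`, compare coefficients.
* the matrix `(ε; b)` has nonzero determinant (`Frame.indep`), so its rows are independent (`ind`),
  in particular no row `b_j` is zero, so `p j ≤ h`; `c j = h - p j`; `∑ c_j = m h - (N - 1) = d`
  because `(m+1) h = 2 N`, `d + h = N + 1`.
* `syz`: for `∑ u_k g_k = 0` put `w_j = (∑_k w_{jk} u_k) / Q` (`syz_dvd`). From
  `Q θ_k = ε_k Q E + ∑_j b_{jk} Q δ_j = ∑_l (ε_k g_l + ∑_j b_{jk} w_{jl}) θ_l` we get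
  `ε_k g_l + ∑_j b_{jk} w_{jl} = Q` if `k = l`, else `0`. So
  `Q u_k = ∑_l (ε_k g_l + ∑_j b_{jk} w_{jl}) u_l = ∑_j b_{jk} Q w_j`.
-/

open MvPolynomial Matrix Finset

noncomputable section

namespace RFL

namespace RD

theorem syz_dvd {n : ℕ} (D : RD n) {h d : ℕ} {θ : Fin n → VF n} (hF : Frame D h θ)
    {g : Fin n → Pol n} {v : D.ι → Fin n → ℂ} (hG : GData D θ d g v)
    (u w : Fin n → Pol n) (hu : ∑ k, u k * g k = 0) (δ : VF n)
    (hw : ∀ l, D.Q * δ l = ∑ k, w k * θ k l) : D.Q ∣ ∑ k, w k * u k := by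
  refine D.Q_dvd _ (fun i => ?_)
  have hiQ : D.al i ∣ D.Q := Finset.dvd_prod_of_mem (fun i => D.al i) (Finset.mem_univ i)
  obtain ⟨κ, hκ⟩ := hG.rel i w (fun l => by
    rw [← hw l]
    exact Dvd.dvd.mul_right hiQ _)
  have h1 : D.al i ∣ D.QH i * ∑ k, u k * C (v i k) := by
    have e : D.QH i * ∑ k, u k * C (v i k) =
        - ∑ k, u k * (g k - C (v i k) * D.QH i) := by
      have e1 : ∑ k, u k * (g k - C (v i k) * D.QH i) =
          ∑ k, u k * g k - D.QH i * ∑ k, u k * C (v i k) := by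
        rw [Finset.mul_sum, ← Finset.sum_sub_distrib]
        exact Finset.sum_congr rfl (fun k _ => by ring)
      rw [e1, hu]
      ring
    rw [e]
    exact (dvd_neg).mpr (Finset.dvd_sum (fun k _ => Dvd.dvd.mul_left (hG.res i k) _))
  have h2 : D.al i ∣ ∑ k, u k * C (v i k) :=
    ((D.al_prime i).dvd_or_dvd h1).resolve_left (D.QH_not_dvd i)
  have e2 : ∑ k, w k * u k = ∑ k, (w k - κ * C (v i k)) * u k + κ * ∑ k, u k * C (v i k) := by
    rw [Finset.mul_sum, ← Finset.sum_add_distrib]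
    exact Finset.sum_congr rfl (fun k _ => by ring)
  rw [e2]
  exact dvd_add (Finset.dvd_sum (fun k _ => Dvd.dvd.mul_right (hκ k) _)) (Dvd.dvd.mul_left h2 _)

end RD

end RFL
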