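import Pool.Agent.RFL.Base

/-!
# RFL-B1 : the sum of the projections over a rank two flat

Let `i ≠ j`, `L = line i j`, `W = span {a i, a j}` (dimension 2), `T = ∑_{k ∈ L} P_k`,
`P_k v = ip (a k) v • a k`.
(1) For `g = s l` with `l ∈ L`: `g` maps `W` to `W`, permutes (up to scalars) the roots in `W`
(`exists_perm`), so `T` commutes with `ρ (s l)`, hence with `P_l`; so `T (a l) = λ_l a l`.
(2) If `L` has at least three elements: `a i, a j, a k` are pairwise independent eigenvectors of
`T` on the plane `W`, so `T = λ` on `W`. If `L = {i, j}`: `T (a i) = a i + ip (a j) (a i) a j` is a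
multiple of `a i`, so `ip (a j) (a i) = 0` and `T = 1` on `W`.
(3) Trace: with an orthonormal basis `b1, b2` of `W`:
`2 λ = ∑_l ip (b l) (T (b l)) = ∑_{k ∈ L} ∑_l |ip (b l) (a k)|^2 = ∑_{k ∈ L} 1 = |L|`.
-/

open MvPolynomial Matrix Finset

noncomputable section

namespace RFL

namespace TXaux

variable {n : ℕ} (D : RD n)

theorem mem_line {i j k : D.ι} :
    k ∈ D.line i j ↔ D.a k ∈ Submodule.span ℂ {D.a i, D.a j} := by
  classical
  simp [RD.line]

theorem left_mem (i j : D.ι) : i ∈ D.line i j := by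
  rw [mem_line]
  exact Submodule.subset_span (by simp)

theorem right_mem (i j : D.ι) : j ∈ D.line i j := by
  rw [mem_line]
  exact Submodule.subset_span (by simp)

theorem coords {i j k : D.ι} (hk : k ∈ D.line i j) :
    ∃ x y : ℂ, D.a k = x • D.a i + y • D.a j := by
  rw [mem_line, Submodule.mem_span_pair] at hk
  obtain ⟨x, y, h⟩ := hk
  exact ⟨x, y, h.symm⟩

/-- `s l` permutes the roots of the line. -/
theorem sigma_mem {i j l : D.ι} (hl : l ∈ D.line i j) (σ : Equiv.Perm D.ι) (c : D.ι → ℂ)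
    (hc : ∀ k, star (c k) * c k = 1) (hσ : ∀ k, D.ρ (D.s l) *ᵥ D.a k = c k • D.a (σ k))
    {k : D.ι} (hk : k ∈ D.line i j) : σ k ∈ D.line i j := by
  rw [mem_line] at hl hk ⊢
  have hc0 : c k ≠ 0 := by
    intro h0
    have := hc k
    rw [h0, mul_zero] at this
    exact zero_ne_one this
  have h1 : c k • D.a (σ k) ∈ Submodule.span ℂ {D.a i, D.a j} := by
    rw [← hσ k, D.smul_refl]
    exact Submodule.sub_mem _ hk (Submodule.smul_mem _ _ hl)
  have h2 := Submodule.smul_mem _ (c k)⁻¹ h1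
  rwa [smul_smul, inv_mul_cancel₀ hc0, one_smul] at h2

/-- `T` commutes with the reflection `s l`. -/
theorem T_refl {i j l : D.ι} (hl : l ∈ D.line i j) (v : Vec n) :
    ∑ k ∈ D.line i j, ip (D.a k) (D.ρ (D.s l) *ᵥ v) • D.a k =
      D.ρ (D.s l) *ᵥ (∑ k ∈ D.line i j, ip (D.a k) v • D.a k) := by
  obtain ⟨σ, c, hc, hσ⟩ := D.exists_perm (D.s l)
  have hmap : (D.line i j).map σ.toEmbedding = D.line i j := by
    refine Finset.eq_of_subset_of_card_le ?_ (by rw [Finset.card_map])
    intro k hk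
    rw [Finset.mem_map] at hk
    obtain ⟨k', hk', rfl⟩ := hk
    exact sigma_mem D hl σ c hc hσ hk'
  have hc0 : ∀ k, c k ≠ 0 := by
    intro k h0
    have := hc k
    rw [h0, mul_zero] at this
    exact zero_ne_one this
  have e1 : ∑ k ∈ D.line i j, ip (D.a k) (D.ρ (D.s l) *ᵥ v) • D.a k =
      ∑ k ∈ D.line i j, ip (D.a (σ k)) (D.ρ (D.s l) *ᵥ v) • D.a (σ k) := by
    conv_lhs => rw [← hmap]
    rw [Finset.sum_map]
    rfl
  have e2 : D.ρ (D.s l) *ᵥ (∑ k ∈ D.line i j, ip (D.a k) v • D.a k) =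
      ∑ k ∈ D.line i j, ip (D.a k) v • (D.ρ (D.s l) *ᵥ D.a k) := by
    have := map_sum (Matrix.mulVecLin (D.ρ (D.s l))) (fun k => ip (D.a k) v • D.a k) (D.line i j)
    simp only [Matrix.mulVecLin_apply, Matrix.mulVec_smul] at this
    exact this
  rw [e1, e2]
  refine Finset.sum_congr rfl fun k _ => ?_
  have h1 : ip (D.a k) v = star (c k) * ip (D.a (σ k)) (D.ρ (D.s l) *ᵥ v) := by
    rw [← D.ip_rho (D.s l) (D.a k) v, hσ k, ip_smul_left]
  rw [h1, hσ k, smul_smul]
  congr 1
  have := hc k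
  linear_combination (-(ip (D.a (σ k)) (D.ρ (D.s l) *ᵥ v))) * this

theorem eigen {i j l : D.ι} (hl : l ∈ D.line i j) (v : Vec n) :
    ∑ k ∈ D.line i j, (ip (D.a k) (ip (D.a l) v • D.a l)) • D.a k =
      ip (D.a l) (∑ k ∈ D.line i j, ip (D.a k) v • D.a k) • D.a l := by
  have h := T_refl D hl v
  rw [D.smul_refl, D.smul_refl] at h
  have hz : (1 - D.ζ l) ≠ 0 := sub_ne_zero.mpr (D.ζne l).symm
  have e : ∑ k ∈ D.line i j, ip (D.a k) (v - ((1 - D.ζ l) * ip (D.a l) v) • D.a l) • D.a k =
      ∑ k ∈ D.line i j, ip (D.a k) v • D.a k -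
        (1 - D.ζ l) • ∑ k ∈ D.line i j, (ip (D.a k) (ip (D.a l) v • D.a l)) • D.a k := by
    rw [Finset.smul_sum, ← Finset.sum_sub_distrib]
    refine Finset.sum_congr rfl fun k _ => ?_
    have : ip (D.a k) (v - ((1 - D.ζ l) * ip (D.a l) v) • D.a l) =
        ip (D.a k) v - (1 - D.ζ l) * ip (D.a k) (ip (D.a l) v • D.a l) := by
      rw [sub_eq_add_neg, ← neg_smul, ip_add_right, ip_smul_right, ip_smul_right]
      ring
    rw [this, sub_smul, smul_smul]
  rw [e] at h
  have h2 : (1 - D.ζ l) • ∑ k ∈ D.line i j, (ip (D.a k) (ip (D.a l) v • D.a l)) • D.a k =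
      (1 - D.ζ l) • (ip (D.a l) (∑ k ∈ D.line i j, ip (D.a k) v • D.a k) • D.a l) := by
    rw [smul_smul]
    exact sub_right_injective h
  exact smul_right_injective _ hz h2

/-- `T (a l) = λ a l`. -/
theorem eigen' {i j l : D.ι} (hl : l ∈ D.line i j) :
    ∃ μ : ℂ, ∑ k ∈ D.line i j, ip (D.a k) (D.a l) • D.a k = μ • D.a l := by
  have h := eigen D hl (D.a l)
  rw [D.unit l, one_smul] at h
  exact ⟨_, h⟩

end TXaux

namespace RD

variable {n : ℕ} (D : RD n)

open TXaux

theorem TX {i j : D.ι} (hij : i ≠ j) (v : Vec n)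
    (hv : v ∈ Submodule.span ℂ {D.a i, D.a j}) :
    ∑ k ∈ D.line i j, ip (D.a k) v • D.a k = (((D.line i j).card : ℂ) / 2) • v := by
  classical
  obtain ⟨μ, hμ⟩ := eigen' D (left_mem D i j)
  obtain ⟨ν, hν⟩ := eigen' D (right_mem D i j)
  have hli := D.indep i j hij
  rw [LinearIndependent.pair_iff] at hli
  have hli' : ∀ x y x' y' : ℂ, x • D.a i + y • D.a j = x' • D.a i + y' • D.a j →
      x = x' ∧ y = y' := by
    intro x y x' y' h
    have h0 : (x - x') • D.a i + (y - y') • D.a j = 0 := by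
      rw [sub_smul, sub_smul]
      have : x • D.a i - x' • D.a i + (y • D.a j - y' • D.a j) =
        (x • D.a i + y • D.a j) - (x' • D.a i + y' • D.a j) := by abel
      rw [this, h, sub_self]
    obtain ⟨h1, h2⟩ := hli _ _ h0
    exact ⟨sub_eq_zero.mp h1, sub_eq_zero.mp h2⟩
  -- coordinates
  have hco : ∀ k : D.ι, ∃ z : ℂ × ℂ, k ∈ D.line i j → D.a k = z.1 • D.a i + z.2 • D.a j := by
    intro k
    by_cases hk : k ∈ D.line i j
    · obtain ⟨x, y, h⟩ := coords D hk
      exact ⟨(x, y), fun _ => h⟩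
    · exact ⟨(0, 0), fun h => absurd h hk⟩
  choose z hz using hco
  have hT : ∀ w : Vec n, ∑ k ∈ D.line i j, ip (D.a k) w • D.a k =
      (∑ k ∈ D.line i j, ip (D.a k) w * (z k).1) • D.a i +
        (∑ k ∈ D.line i j, ip (D.a k) w * (z k).2) • D.a j := by
    intro w
    rw [Finset.sum_smul, Finset.sum_smul, ← Finset.sum_add_distrib]
    refine Finset.sum_congr rfl fun k hk => ?_
    conv_lhs => rw [hz k hk, smul_add, smul_smul, smul_smul]
    rw [← hz k hk]
  have e1 : ∑ k ∈ D.line i j, ip (D.a k) (D.a i) * (z k).1 = μ := by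
    have h := hT (D.a i)
    rw [hμ] at h
    exact ((hli' _ _ μ 0 (by rw [← h, zero_smul, add_zero])).1)
  have e2 : ∑ k ∈ D.line i j, ip (D.a k) (D.a j) * (z k).2 = ν := by
    have h := hT (D.a j)
    rw [hν] at h
    exact ((hli' _ _ 0 ν (by rw [← h, zero_smul, zero_add])).2)
  have hsum : μ + ν = ((D.line i j).card : ℂ) := by
    rw [← e1, ← e2, ← Finset.sum_add_distrib]
    have : ∀ k ∈ D.line i j, ip (D.a k) (D.a i) * (z k).1 + ip (D.a k) (D.a j) * (z k).2 = 1 := by
      intro k hk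
      have h1 := D.unit k
      have h2 : ip (D.a k) (D.a k) = ip (D.a k) ((z k).1 • D.a i + (z k).2 • D.a j) := by
        rw [← hz k hk]
      rw [ip_add_right, ip_smul_right, ip_smul_right] at h2
      rw [← h1, h2]
      ring
    rw [Finset.sum_congr rfl this]
    simp
  have hμν : μ = ν := by
    by_cases h3 : ∃ k ∈ D.line i j, k ≠ i ∧ k ≠ j
    · obtain ⟨k, hk, hki, hkj⟩ := h3
      obtain ⟨τ, hτ⟩ := eigen' D hk
      have hzk := hz k hk
      have hx : (z k).1 ≠ 0 := by
        intro h0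
        rw [h0, zero_smul, zero_add] at hzk
        refine D.a_notMem (Ne.symm hkj) ?_
        rw [hzk]
        exact Submodule.smul_mem _ _ (Submodule.mem_span_singleton_self _)
      have hy : (z k).2 ≠ 0 := by
        intro h0
        rw [h0, zero_smul, add_zero] at hzk
        refine D.a_notMem (Ne.symm hki) ?_
        rw [hzk]
        exact Submodule.smul_mem _ _ (Submodule.mem_span_singleton_self _)
      have hlin : ∑ l ∈ D.line i j, ip (D.a l) (D.a k) • D.a l =
          (z k).1 • (μ • D.a i) + (z k).2 • (ν • D.a j) := by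
        rw [← hμ, ← hν, Finset.smul_sum, Finset.smul_sum, ← Finset.sum_add_distrib]
        refine Finset.sum_congr rfl fun l _ => ?_
        have : ip (D.a l) (D.a k) = (z k).1 * ip (D.a l) (D.a i) + (z k).2 * ip (D.a l) (D.a j) := by
          conv_lhs => rw [hzk]
          rw [ip_add_right, ip_smul_right, ip_smul_right]
        rw [this, add_smul, smul_smul, smul_smul]
      have h4 : ((z k).1 * μ) • D.a i + ((z k).2 * ν) • D.a j =
          (τ * (z k).1) • D.a i + (τ * (z k).2) • D.a j := by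
        have h5 : τ • D.a k = (τ * (z k).1) • D.a i + (τ * (z k).2) • D.a j := by
          conv_lhs => rw [hzk]
          rw [smul_add, smul_smul, smul_smul]
        rw [← h5, ← hτ, hlin, smul_smul, smul_smul]
      obtain ⟨h5, h6⟩ := hli' _ _ _ _ h4
      have h7 : μ = τ := mul_left_cancel₀ hx (by rw [h5, mul_comm])
      have h8 : ν = τ := mul_left_cancel₀ hy (by rw [h6, mul_comm])
      rw [h7, h8]
    · push Not at h3
      have hL : D.line i j = {i, j} := by
        ext k
        rw [Finset.mem_insert, Finset.mem_singleton]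
        constructor
        · intro hk
          by_cases hki : k = i
          · exact Or.inl hki
          · exact Or.inr (h3 k hk hki)
        · rintro (rfl | rfl)
          · exact left_mem D _ _
          · exact right_mem D _ _
      have hμ1 : μ = 1 := by
        rw [hL, Finset.sum_pair hij, D.unit i] at hμ
        exact ((hli' 1 (ip (D.a j) (D.a i)) μ 0 (by rw [hμ, zero_smul, add_zero])).1).symm
      have hν1 : ν = 1 := by
        rw [hL, Finset.sum_pair hij, D.unit j] at hν
        exact ((hli' (ip (D.a i) (D.a j)) 1 0 ν (by rw [hν, zero_smul, zero_add])).2).symm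
      rw [hμ1, hν1]
  have hμh : μ = ((D.line i j).card : ℂ) / 2 := by
    rw [← hsum, ← hμν]
    ring
  rw [Submodule.mem_span_pair] at hv
  obtain ⟨x, y, rfl⟩ := hv
  have : ∑ k ∈ D.line i j, ip (D.a k) (x • D.a i + y • D.a j) • D.a k =
      x • (μ • D.a i) + y • (ν • D.a j) := by
    rw [← hμ, ← hν, Finset.smul_sum, Finset.smul_sum, ← Finset.sum_add_distrib]
    refine Finset.sum_congr rfl fun l _ => ?_
    rw [ip_add_right, ip_smul_right, ip_smul_right, add_smul, smul_smul, smul_smul]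
  rw [this, ← hμν, hμh, smul_add, smul_smul, smul_smul, smul_smul, smul_smul, mul_comm x,
    mul_comm y]

/-- `T_X` commutes with the projection `P_l`, `l ∈ L` -/
theorem TX_comm {i j l : D.ι} (hij : i ≠ j) (hl : l ∈ D.line i j) (v : Vec n) :
    ∑ k ∈ D.line i j, (ip (D.a k) (ip (D.a l) v • D.a l)) • D.a k =
      ip (D.a l) (∑ k ∈ D.line i j, ip (D.a k) v • D.a k) • D.a l :=
  eigen D hl v

/-- the part of `T_X v` along the roots; `v` arbitrary: `T_X v = (m/2) pr_W v` -/
theorem TX_perp {i j : D.ι} (hij : i ≠ j) (v : Vec n)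
    (h1 : ip (D.a i) v = 0) (h2 : ip (D.a j) v = 0) (k : D.ι) (hk : k ∈ D.line i j) :
    ip (D.a k) v = 0 := by
  obtain ⟨x, y, h⟩ := coords D hk
  rw [h, ip_add_left, ip_smul_left, ip_smul_left, h1, h2, mul_zero, mul_zero, add_zero]

end RD

end RFL
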