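import Pool.Agent.RFL.Defs

/-!
# RFL-M1 : polynomials in two disjoint sets of variables

`S = MvPolynomial (α ⊕ β) ℂ`, `A = MvPolynomial α ℂ`, `B = MvPolynomial β ℂ`, `inl# = rename Sum.inl`,
`inr# = rename Sum.inr`. The proof uses the linear maps `φ ⊗ ψ` of `A ⊗ B = S`: choose a projection
`σ` of `B` onto `k₂` and a linear map `π : A → k₁` which kills `(q₁)` and with `a - π a ∈ (q₁)` for
`a ∈ k₁`. Then `F = (1 ⊗ σ) F`, `(π ⊗ 1) F ∈ (q₂) k₁` and `F - (π ⊗ 1) F = ((1 - π) ⊗ σ) F ∈ (q₁) k₂`.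
-/

open MvPolynomial TensorProduct

noncomputable section

namespace RFL

variable {α β : Type} [Fintype α] [Fintype β] [DecidableEq α] [DecidableEq β]

private abbrev eS (α β : Type) :
    MvPolynomial α ℂ ⊗[ℂ] MvPolynomial β ℂ ≃ₐ[ℂ] MvPolynomial (α ⊕ β) ℂ :=
  tensorEquivSum ℂ α β ℂ

omit [Fintype α] [Fintype β] [DecidableEq α] [DecidableEq β] in
private theorem eS_left (a : MvPolynomial α ℂ) :
    eS α β (a ⊗ₜ 1) = rename (Sum.inl : α → α ⊕ β) a := by
  have h : ((eS α β).toAlgHom.comp Algebra.TensorProduct.includeLeft) =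
      (rename (Sum.inl : α → α ⊕ β) : MvPolynomial α ℂ →ₐ[ℂ] MvPolynomial (α ⊕ β) ℂ) := by
    apply MvPolynomial.algHom_ext
    intro i
    simp
  exact DFunLike.congr_fun h a

omit [Fintype α] [Fintype β] [DecidableEq α] [DecidableEq β] in
private theorem eS_right (b : MvPolynomial β ℂ) :
    eS α β (1 ⊗ₜ b) = rename (Sum.inr : β → α ⊕ β) b := by
  have h : ((eS α β).toAlgHom.comp Algebra.TensorProduct.includeRight) =
      (rename (Sum.inr : β → α ⊕ β) : MvPolynomial β ℂ →ₐ[ℂ] MvPolynomial (α ⊕ β) ℂ) := by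
    apply MvPolynomial.algHom_ext
    intro i
    simp
  exact DFunLike.congr_fun h b

omit [Fintype α] [Fintype β] [DecidableEq α] [DecidableEq β] in
private theorem eS_tmul (a : MvPolynomial α ℂ) (b : MvPolynomial β ℂ) :
    eS α β (a ⊗ₜ b) = rename (Sum.inl : α → α ⊕ β) a * rename (Sum.inr : β → α ⊕ β) b := by
  rw [← eS_left, ← eS_right, ← map_mul]
  simp

/-- the linear map `φ ⊗ ψ` -/
private def TT (φ : MvPolynomial α ℂ →ₗ[ℂ] MvPolynomial α ℂ)
    (ψ : MvPolynomial β ℂ →ₗ[ℂ] MvPolynomial β ℂ) :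
    MvPolynomial (α ⊕ β) ℂ →ₗ[ℂ] MvPolynomial (α ⊕ β) ℂ :=
  (eS α β).toLinearMap ∘ₗ (TensorProduct.map φ ψ) ∘ₗ (eS α β).symm.toLinearMap

omit [Fintype α] [Fintype β] [DecidableEq α] [DecidableEq β] in
private theorem TT_apply (φ : MvPolynomial α ℂ →ₗ[ℂ] MvPolynomial α ℂ)
    (ψ : MvPolynomial β ℂ →ₗ[ℂ] MvPolynomial β ℂ) (a : MvPolynomial α ℂ)
    (b : MvPolynomial β ℂ) :
    TT φ ψ (rename (Sum.inl : α → α ⊕ β) a * rename (Sum.inr : β → α ⊕ β) b) =
      rename (Sum.inl : α → α ⊕ β) (φ a) * rename (Sum.inr : β → α ⊕ β) (ψ b) := by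
  rw [← eS_tmul, ← eS_tmul]
  simp [TT]

omit [Fintype α] [Fintype β] [DecidableEq α] [DecidableEq β] in
private theorem indS {p : MvPolynomial (α ⊕ β) ℂ → Prop} (h0 : p 0)
    (hadd : ∀ x y, p x → p y → p (x + y))
    (hm : ∀ a b, p (rename (Sum.inl : α → α ⊕ β) a * rename (Sum.inr : β → α ⊕ β) b))
    (s : MvPolynomial (α ⊕ β) ℂ) : p s := by
  obtain ⟨t, rfl⟩ := (eS α β).surjective s
  induction t using TensorProduct.induction_on with
  | zero => simpa using h0
  | tmul a b => rw [eS_tmul]; exact hm a b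
  | add x y hx hy => rw [map_add]; exact hadd _ _ hx hy

omit [Fintype α] [Fintype β] [DecidableEq α] [DecidableEq β] in
private theorem ind1 (k₁ : Ideal (MvPolynomial α ℂ)) {p : MvPolynomial (α ⊕ β) ℂ → Prop}
    (h0 : p 0) (hadd : ∀ x y, p x → p y → p (x + y))
    (hm : ∀ a ∈ k₁, ∀ b, p (rename (Sum.inl : α → α ⊕ β) a *
      rename (Sum.inr : β → α ⊕ β) b))
    {F : MvPolynomial (α ⊕ β) ℂ}
    (hF : F ∈ k₁.map (rename (Sum.inl : α → α ⊕ β)).toRingHom) : p F := by
  have key : ∀ s, p (s * F) := by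
    unfold Ideal.map at hF
    induction hF using Submodule.span_induction with
    | mem x hx =>
      obtain ⟨a, ha, rfl⟩ := hx
      intro s
      induction s using indS with
      | h0 => simpa using h0
      | hadd x y hx hy => rw [add_mul]; exact hadd _ _ hx hy
      | hm a' b' =>
        have h1 : rename (Sum.inl : α → α ⊕ β) a' * rename (Sum.inr : β → α ⊕ β) b' *
            (rename (Sum.inl : α → α ⊕ β)).toRingHom a =
            rename (Sum.inl : α → α ⊕ β) (a' * a) * rename (Sum.inr : β → α ⊕ β) b' := by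
          rw [map_mul]
          show _ * _ * rename (Sum.inl : α → α ⊕ β) a = _
          ring
        rw [h1]
        exact hm _ (k₁.mul_mem_left _ ha) _
    | zero => intro s; simpa using h0
    | add x y _ _ hx hy => intro s; rw [mul_add]; exact hadd _ _ (hx s) (hy s)
    | smul r x _ hx => intro s; rw [smul_eq_mul, ← mul_assoc]; exact hx _
  simpa using key 1

omit [Fintype α] [Fintype β] [DecidableEq α] [DecidableEq β] in
private theorem ind2 (k₂ : Ideal (MvPolynomial β ℂ)) {p : MvPolynomial (α ⊕ β) ℂ → Prop}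
    (h0 : p 0) (hadd : ∀ x y, p x → p y → p (x + y))
    (hm : ∀ a, ∀ b ∈ k₂, p (rename (Sum.inl : α → α ⊕ β) a *
      rename (Sum.inr : β → α ⊕ β) b))
    {F : MvPolynomial (α ⊕ β) ℂ}
    (hF : F ∈ k₂.map (rename (Sum.inr : β → α ⊕ β)).toRingHom) : p F := by
  have key : ∀ s, p (s * F) := by
    unfold Ideal.map at hF
    induction hF using Submodule.span_induction with
    | mem x hx =>
      obtain ⟨b, hb, rfl⟩ := hx
      intro s
      induction s using indS with
      | h0 => simpa using h0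
      | hadd x y hx hy => rw [add_mul]; exact hadd _ _ hx hy
      | hm a' b' =>
        have h1 : rename (Sum.inl : α → α ⊕ β) a' * rename (Sum.inr : β → α ⊕ β) b' *
            (rename (Sum.inr : β → α ⊕ β)).toRingHom b =
            rename (Sum.inl : α → α ⊕ β) a' * rename (Sum.inr : β → α ⊕ β) (b' * b) := by
          rw [map_mul]
          show _ * _ * rename (Sum.inr : β → α ⊕ β) b = _
          ring
        rw [h1]
        exact hm _ _ (k₂.mul_mem_left _ hb)
    | zero => intro s; simpa using h0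
    | add x y _ _ hx hy => intro s; rw [mul_add]; exact hadd _ _ (hx s) (hy s)
    | smul r x _ hx => intro s; rw [smul_eq_mul, ← mul_assoc]; exact hx _
  simpa using key 1

/-- generalised inverse of a linear map -/
private theorem exists_ginv {V W : Type} [AddCommGroup V] [Module ℂ V] [AddCommGroup W]
    [Module ℂ W] (g : V →ₗ[ℂ] W) : ∃ s : W →ₗ[ℂ] V, ∀ v, g (s (g v)) = g v := by
  obtain ⟨r, hr⟩ := g.rangeRestrict.exists_rightInverse_of_surjective
    (LinearMap.range_rangeRestrict g)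
  obtain ⟨q, hq⟩ := LinearMap.exists_leftInverse_of_injective (LinearMap.range g).subtype
    (Submodule.ker_subtype _)
  refine ⟨r ∘ₗ q, fun v => ?_⟩
  have h1 : q (g v) = g.rangeRestrict v := by
    have := DFunLike.congr_fun hq (g.rangeRestrict v)
    simpa using this
  have h2 := DFunLike.congr_fun hr (g.rangeRestrict v)
  rw [LinearMap.comp_apply, h1]
  have h3 := congrArg Subtype.val h2
  simpa using h3

theorem tens_key (k₁ : Ideal (MvPolynomial α ℂ)) (k₂ : Ideal (MvPolynomial β ℂ))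
    (q₁ : MvPolynomial α ℂ) (q₂ : MvPolynomial β ℂ) (F : MvPolynomial (α ⊕ β) ℂ)
    (h₁ : F ∈ k₁.map (rename (Sum.inl : α → α ⊕ β)).toRingHom)
    (h₂ : F ∈ k₂.map (rename (Sum.inr : β → α ⊕ β)).toRingHom)
    (h : F ∈ Ideal.span {rename (Sum.inl : α → α ⊕ β) q₁, rename (Sum.inr : β → α ⊕ β) q₂}) :
    F ∈ Ideal.span {rename (Sum.inl : α → α ⊕ β) q₁} *
        k₂.map (rename (Sum.inr : β → α ⊕ β)).toRingHom ⊔
      Ideal.span {rename (Sum.inr : β → α ⊕ β) q₂} *
        k₁.map (rename (Sum.inl : α → α ⊕ β)).toRingHom := by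
  -- projection onto `k₂`
  obtain ⟨σ, hσ1, hσ2⟩ : ∃ σ : MvPolynomial β ℂ →ₗ[ℂ] MvPolynomial β ℂ,
      (∀ b, σ b ∈ k₂) ∧ ∀ b ∈ k₂, σ b = b := by
    obtain ⟨s, hs⟩ := exists_ginv (k₂.restrictScalars ℂ).subtype
    refine ⟨(k₂.restrictScalars ℂ).subtype ∘ₗ s, fun b => (s b).2, fun b hb => ?_⟩
    exact hs ⟨b, hb⟩
  -- the map `π`
  obtain ⟨π, hπ1, hπ2, hπ3⟩ : ∃ π : MvPolynomial α ℂ →ₗ[ℂ] MvPolynomial α ℂ,
      (∀ a, π a ∈ k₁) ∧ (∀ a, π (q₁ * a) = 0) ∧ ∀ a ∈ k₁, ∃ c, a - π a = q₁ * c := by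
    let I : Submodule ℂ (MvPolynomial α ℂ) := (Ideal.span {q₁}).restrictScalars ℂ
    obtain ⟨s, hs⟩ := exists_ginv (I.mkQ ∘ₗ (k₁.restrictScalars ℂ).subtype)
    refine ⟨(k₁.restrictScalars ℂ).subtype ∘ₗ s ∘ₗ I.mkQ, fun a => (s _).2, fun a => ?_,
      fun a ha => ?_⟩
    · have h1 : I.mkQ (q₁ * a) = 0 := by
        rw [Submodule.mkQ_apply, Submodule.Quotient.mk_eq_zero]
        exact Ideal.mul_mem_right _ _ (Ideal.mem_span_singleton_self q₁)
      simp only [LinearMap.comp_apply, h1, map_zero]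
    · have h1 := hs ⟨a, ha⟩
      simp only [LinearMap.comp_apply] at h1
      have h2 : a - ((k₁.restrictScalars ℂ).subtype (s (I.mkQ a))) ∈ I := by
        rw [← Submodule.Quotient.mk_eq_zero, Submodule.Quotient.mk_sub, sub_eq_zero]
        exact h1.symm
      obtain ⟨c, hc⟩ := Ideal.mem_span_singleton'.1 h2
      exact ⟨c, by rw [mul_comm]; exact hc.symm⟩
  have hid : TT LinearMap.id σ F = F := by
    refine ind2 k₂ (p := fun F => TT LinearMap.id σ F = F) (map_zero _)
      (fun x y hx hy => by simp only [map_add, hx, hy]) (fun a b hb => ?_) h₂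
    simp only [TT_apply, LinearMap.id_apply, hσ2 b hb]
  have hcomp : TT π LinearMap.id (TT LinearMap.id σ F) = TT π σ F := by
    refine indS (p := fun F => TT π LinearMap.id (TT LinearMap.id σ F) = TT π σ F) ?_
      (fun x y hx hy => by simp only [map_add, hx, hy]) (fun a b => ?_) F
    · simp
    · simp only [TT_apply, LinearMap.id_apply]
  rw [hid] at hcomp
  have hdec : F = TT (LinearMap.id - π) σ F + TT π LinearMap.id F := by
    rw [hcomp]
    have h1 : TT (LinearMap.id - π) σ F + TT π σ F = TT LinearMap.id σ F := by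
      refine indS (p := fun F => TT (LinearMap.id - π) σ F + TT π σ F = TT LinearMap.id σ F) ?_
        (fun x y hx hy => ?_) (fun a b => ?_) F
      · simp
      · simp only [map_add]
        rw [← hx, ← hy]
        ring
      · simp only [TT_apply, LinearMap.sub_apply, LinearMap.id_apply, map_sub]
        ring
    rw [h1, hid]
  rw [hdec]
  apply Submodule.add_mem_sup
  · refine ind1 k₁ (p := fun F => TT (LinearMap.id - π) σ F ∈
        Ideal.span {rename (Sum.inl : α → α ⊕ β) q₁} *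
        k₂.map (rename (Sum.inr : β → α ⊕ β)).toRingHom) (by simp)
      (fun x y hx hy => by simp only [map_add]; exact Ideal.add_mem _ hx hy)
      (fun a ha b => ?_) h₁
    obtain ⟨c, hc⟩ := hπ3 a ha
    simp only [TT_apply, LinearMap.sub_apply, LinearMap.id_apply, hc, map_mul]
    rw [mul_assoc]
    apply Ideal.mul_mem_mul (Ideal.mem_span_singleton_self _)
    exact Ideal.mul_mem_left _ _ (Ideal.mem_map_of_mem _ (hσ1 b))
  · obtain ⟨u, v, huv⟩ := Ideal.mem_span_pair.1 h
    rw [← huv, map_add]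
    apply Ideal.add_mem
    · have h0 : ∀ u, TT π LinearMap.id (u * rename (Sum.inl : α → α ⊕ β) q₁) =
          (0 : MvPolynomial (α ⊕ β) ℂ) := by
        intro u
        refine indS (p := fun u => TT π LinearMap.id (u * rename (Sum.inl : α → α ⊕ β) q₁) =
          (0 : MvPolynomial (α ⊕ β) ℂ)) (by simp)
          (fun x y hx hy => by rw [add_mul, map_add, hx, hy, add_zero]) (fun a b => ?_) u
        have h1 : rename (Sum.inl : α → α ⊕ β) a * rename (Sum.inr : β → α ⊕ β) b *
            rename (Sum.inl : α → α ⊕ β) q₁ =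
            rename (Sum.inl : α → α ⊕ β) (q₁ * a) * rename (Sum.inr : β → α ⊕ β) b := by
          rw [map_mul]; ring
        simp only [h1, TT_apply, hπ2, map_zero, zero_mul]
      rw [h0]
      exact Ideal.zero_mem _
    · refine indS (p := fun v => TT π LinearMap.id (v * rename (Sum.inr : β → α ⊕ β) q₂) ∈
          Ideal.span {rename (Sum.inr : β → α ⊕ β) q₂} *
          k₁.map (rename (Sum.inl : α → α ⊕ β)).toRingHom) (by simp)
          (fun x y hx hy => by simp only [add_mul, map_add]; exact Ideal.add_mem _ hx hy)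
          (fun a b => ?_) v
      have h1 : rename (Sum.inl : α → α ⊕ β) a * rename (Sum.inr : β → α ⊕ β) b *
          rename (Sum.inr : β → α ⊕ β) q₂ =
          rename (Sum.inl : α → α ⊕ β) a * rename (Sum.inr : β → α ⊕ β) (b * q₂) := by
        rw [map_mul]; ring
      have h2 : rename (Sum.inl : α → α ⊕ β) (π a) * rename (Sum.inr : β → α ⊕ β) (b * q₂) =
          rename (Sum.inr : β → α ⊕ β) q₂ * (rename (Sum.inr : β → α ⊕ β) b *
            rename (Sum.inl : α → α ⊕ β) (π a)) := by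
        rw [map_mul]; ring
      simp only [h1, TT_apply, LinearMap.id_apply, h2]
      apply Ideal.mul_mem_mul (Ideal.mem_span_singleton_self _)
      exact Ideal.mul_mem_left _ _ (Ideal.mem_map_of_mem _ (hπ1 a))

end RFL
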