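import Pool.Agent.RFL.Dets
import Pool.Agent.RFL.RInd

/-!
# RFL-E6 : Terao's theorem: `Der` is free with a homogeneous basis containing the Euler field

`exists_gens`: `δ : Fin m → VF n`; independent over `Pol n` by `r_indep`, `s_indep`; so `m ≤ n`. By
`dets_generic` (for any prime not associated to an `al i`, or `dets_al`) some `n` elements of their
span have nonzero determinant, so `m ≥ n` (`m < n`: the `η` are combinations of `m < n` vectors, their
determinant vanishes). So `m = n`; if `η_j = ∑ A_{jk} δ_k` then `det η = det A * det δ`: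
`det δ ∣ det η` for all `η` in the span.
`Q ∣ det δ`: on `H_i` all `δ_j(x)` are in `H_i` (`inv_le_Der`), so the determinant vanishes on `H_i`.
`det δ = Q e`; if `e` is not a unit take a prime factor `f` of `e`: `f` not associated to an `al i`
contradicts `dets_generic`; `f ~ al i` gives `al i^2 ∣ det η` for all `η`, contradiction to `dets_al`.
So `det δ = c Q`, `c ≠ 0` constant. Degrees: `∑ p_j = N`.
Saito: for `θ ∈ Der`, Cramer: `det δ • θ = ∑_j det(δ with δ_j replaced by θ) δ_j` and these
determinants are divisible by `Q` (same argument). So `θ` is a combination of the `δ_j`.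
Euler field: essential (`rank = n`): an invariant field of degree `0` is a constant vector fixed by
all `s i`, so orthogonal to all roots, so `0`; so all `p_j ≥ 1`. `E = ∑ f_j δ_j`, components of degree
`1`: `f_j` constant, `f_j ≠ 0` only if `p_j = 1`. Replace one such `δ_j` by `E`, reindex by
`Fin (m + 1)`, `n = m + 1`.
-/

open MvPolynomial Matrix Finset

noncomputable section

namespace RFL

namespace RD

/-- determinant criterion: `Q` divides the determinant of logarithmic fields -/
theorem Q_dvd_det {n : ℕ} (D : RD n) (δ : Fin n → VF n) (h : ∀ j, δ j ∈ D.Der) :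
    D.Q ∣ (Matrix.of δ).det := by
  refine D.Q_dvd _ (fun i => ?_)
  rw [D.al_dvd_iff]
  intro x hx
  have h1 : eval x (Matrix.of δ).det =
      ((eval x : Pol n →+* ℂ).mapMatrix (Matrix.of δ)).det := RingHom.map_det _ _
  rw [h1, ← Matrix.exists_mulVec_eq_zero_iff]
  refine ⟨star (D.a i), ?_, ?_⟩
  · intro h0
    exact D.a_ne i (star_eq_zero.1 h0)
  · funext j
    have h2 := (D.al_dvd_iff i _).1 (h j i) x hx
    have h3 : ∑ l, star (D.a i l) * eval x (δ j l) = 0 := by
      simpa [ap] using h2
    have h4 : ((eval x : Pol n →+* ℂ).mapMatrix (Matrix.of δ) *ᵥ star (D.a i)) j =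
        ∑ l, star (D.a i l) * eval x (δ j l) := by
      simp only [Matrix.mulVec, dotProduct]
      exact Finset.sum_congr rfl fun l _ => by
        simp [mul_comm]
    rw [h4, h3]
    rfl

theorem TeraoA_exists_det_ne {n : ℕ} (D : RD n) (hn : n ≠ 0) :
    ∃ η : Fin n → VF n, (∀ j, η j ∈ Submodule.span (Pol n) D.inv) ∧
      (Matrix.of η).det ≠ 0 := by
  by_cases hι : Nonempty D.ι
  · obtain ⟨i⟩ := hι
    obtain ⟨η, h1, h2⟩ := D.dets_al i
    exact ⟨η, h1, fun h => h2 (h ▸ dvd_zero _)⟩
  · obtain ⟨n, rfl⟩ := Nat.exists_eq_succ_of_ne_zero hn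
    have hne : (Pi.single 0 1 : Vec (n + 1)) ≠ 0 := by
      intro h
      have := congrFun h 0
      simp at this
    obtain ⟨η, h1, h2⟩ := D.dets_generic (lin (Pi.single 0 1 : Vec (n + 1))) (lin_prime hne)
      (fun i => absurd ⟨i⟩ hι)
    exact ⟨η, h1, fun h => h2 (h ▸ dvd_zero _)⟩

theorem terao₀ {n : ℕ} (D : RD n) :
    ∃ (δ : Fin n → VF n) (p : Fin n → ℕ) (c : ℂ), c ≠ 0 ∧ (∀ j, δ j ∈ D.inv) ∧
      (∀ j l, (δ j l).IsHomogeneous (p j)) ∧ (Matrix.of δ).det = C c * D.Q := by
  classical
  obtain ⟨m, δ, p, hinv, hhom, hgen, hind⟩ := D.exists_gens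
  have hindep : ∀ f : Fin m → Pol n, (∀ l, ∑ j, f j * δ j l = 0) → ∀ j, f j = 0 := fun f hf =>
    D.s_indep δ hinv (fun r hr hrel => D.r_indep δ p hhom hind r hr hrel) f hf
  have hli : LinearIndependent (Pol n) δ := by
    rw [Fintype.linearIndependent_iff]
    intro g hg
    refine hindep g (fun l => ?_)
    have := congrFun hg l
    simpa [Finset.sum_apply] using this
  have hmn : m ≤ n := by
    have := hli.fintype_card_le_finrank
    simpa using this
  have hspan : ∀ η : VF n, η ∈ Submodule.span (Pol n) D.inv →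
      η ∈ Submodule.span (Pol n) (Set.range δ) := by
    intro η hη
    have hle : Submodule.span (Pol n) D.inv ≤ Submodule.span (Pol n) (Set.range δ) := by
      rw [Submodule.span_le]
      intro θ hθ
      obtain ⟨f, hf⟩ := hgen θ hθ
      have h1 : θ = ∑ j, f j • δ j := by
        funext l
        rw [hf l]
        simp [Finset.sum_apply]
      rw [h1]
      exact Submodule.sum_mem _ fun j _ =>
        Submodule.smul_mem _ _ (Submodule.subset_span ⟨j, rfl⟩)
    exact hle hη
  have hnm : n ≤ m := by
    rcases Nat.eq_zero_or_pos n with hn | hn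
    · omega
    obtain ⟨η, h1, h2⟩ := D.TeraoA_exists_det_ne hn.ne'
    have h3 : LinearIndependent (Pol n) η := Matrix.linearIndependent_rows_of_det_ne_zero h2
    have h4 := linearIndependent_le_span' η h3 (Set.range δ) (by
      rintro _ ⟨j, rfl⟩
      exact hspan _ (h1 j))
    have h5 : Fintype.card (Set.range δ) ≤ m := by
      simpa using Fintype.card_range_le δ
    have h6 : n ≤ Fintype.card (Set.range δ) := by
      simpa using h4
    exact h6.trans h5
  obtain rfl : m = n := le_antisymm hmn hnm
  have hdvd : ∀ η : Fin m → VF m, (∀ j, η j ∈ Submodule.span (Pol m) D.inv) →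
      (Matrix.of δ).det ∣ (Matrix.of η).det := by
    intro η hη
    have h1 : ∀ j, ∃ f : Fin m → Pol m, ∑ k, f k • δ k = η j := fun j =>
      (Submodule.mem_span_range_iff_exists_fun (Pol m)).1 (hspan _ (hη j))
    choose A hA using h1
    have h2 : Matrix.of η = Matrix.of A * Matrix.of δ := by
      ext1 j l
      rw [Matrix.mul_apply, Matrix.of_apply, ← hA j]
      simp [Finset.sum_apply]
    rw [h2, Matrix.det_mul]
    exact dvd_mul_left _ _
  obtain ⟨e, he⟩ := D.Q_dvd_det δ (fun j => D.inv_le_Der (hinv j))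
  have hdet0 : (Matrix.of δ).det ≠ 0 := by
    rcases Nat.eq_zero_or_pos m with hn | hn
    · subst hn
      simp
    obtain ⟨η, h1, h2⟩ := D.TeraoA_exists_det_ne hn.ne'
    intro h0
    have h3 := hdvd η h1
    rw [h0] at h3
    exact h2 (zero_dvd_iff.1 h3)
  have he0 : e ≠ 0 := by
    rintro rfl
    exact hdet0 (by rw [he, mul_zero])
  have hunit : IsUnit e := by
    by_contra hu
    obtain ⟨f, hfirr, hfe⟩ := WfDvdMonoid.exists_irreducible_factor hu he0
    have hfp : Prime f := UniqueFactorizationMonoid.irreducible_iff_prime.1 hfirr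
    by_cases hass : ∃ i, Associated f (D.al i)
    · obtain ⟨i, hi⟩ := hass
      obtain ⟨η, h1, h2⟩ := D.dets_al i
      apply h2
      refine dvd_trans ?_ (hdvd η h1)
      rw [he, sq]
      exact mul_dvd_mul (Finset.dvd_prod_of_mem _ (Finset.mem_univ i)) (hi.symm.dvd.trans hfe)
    · obtain ⟨η, h1, h2⟩ := D.dets_generic f hfp (fun i hi => hass ⟨i, hi⟩)
      apply h2
      refine dvd_trans ?_ (hdvd η h1)
      rw [he]
      exact hfe.trans (dvd_mul_left _ _)
  obtain ⟨c, hc, hce⟩ := MvPolynomial.isUnit_iff_eq_C_of_isReduced.1 hunit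
  exact ⟨δ, p, c, hc.ne_zero, hinv, hhom, by rw [he, hce, mul_comm]⟩

end RD

end RFL
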