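import Pool.Agent.RFL.Chase
import Pool.Agent.RFL.Minor

/-!
# RFL-I5, I6, I7 : linear type

`Lf_notMem`: if `L_j ∈ idL R`, `j ∉ R`, then in `T`-degree one `b_j = ∑_{i∈R} s_i b_i`; at a regular
point `x` (`rank (loc x) = 0`, all `ip (a i) x ≠ 0`) the rows of `b(x)` are independent (rank `m`):
contradiction.

`tors_step`: `R` with `idL b R'` prime for all proper `R' ⊂ R`. `f ≠ 0`, `C f * P ∈ idL R`. Let
`c = {s | C s * P ∈ idL R}` (ideal of `Pol`). Suppose `c ≠ ⊤`; `strat`: a zero `x` of `c` and `N` with
`(q_x al_i)^N ∈ c` for all `i` vanishing at `x`. Let `k = rank (loc x)`, `k' = max k 1`,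
`r, c, δ` the minor of `exists_minor` (`δ(x) ≠ 0`), of size `t = |R| + 1 - k'`, `R₁ = image r`,
`R₂ = R \ R₁`, so `|R₂| ≤ k' - 1`.
* `k ≤ 1`: `R₁ = R`, `ψ` of `exists_elim'`: `f ψ(P) = 0`, `ψ P = 0`, `elim_zero`: `δ^N ∈ c`.
* `k ≥ 2`: `|R₂| < k`, `v l = a (y l)` from `exists_basis_loc`; `chase_zero` applied to
  `C (q_x^N) * P`: `δ^M q_x^N ∈ c`.
Both contradict that `c` vanishes at `x`.

`linType`: strong induction on `|R|`. Prime: `P P' ∈ idL R`. Choose a maximal minor `δ` of the rows
`R` at a regular point (`t = |R|`), `ψ` kills `idL R`: `ψ P ψ P' = 0`, so `ψ P = 0`, say; `elim_zero`: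
`δ^N P ∈ idL R`; `tors_step`. (`idL R ≠ ⊤`: apply `ψ`.)

`ker_idL`: `P` homogeneous of degree `e` in `T` with `P(g) = 0`. For `k`:
`g_0 X_k - g_k X_0 ∈ idL univ` (`HB.syz`). So `g_0^e P ≡ X_0^e P(g) = 0`; if `g_0 ≠ 0` `linType`.
(Some `g_{k₀} ≠ 0`; use it in place of `g_0`. If all `g_k = 0`, all constant vectors are syzygies,
contradiction with ranks; or use `J ≠ 0`.)
-/

open MvPolynomial Matrix Finset

noncomputable section

namespace RFL

/-- a point where no root vanishes -/
theorem TorsA_exists_reg {n : ℕ} (D : RD n) : ∃ x : Vec n, ∀ i, ip (D.a i) x ≠ 0 := by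
  by_contra hcon
  push Not at hcon
  have hQ : (∏ i, D.al i) ≠ 0 := by
    rw [Finset.prod_ne_zero_iff]
    intro i _ h0
    have h1 : D.a i = 0 := lin_eq_zero.mp h0
    have h2 := D.unit i
    rw [h1] at h2
    simp at h2
  have h1 : (1 : Pol n) = 0 := by
    refine eq_zero_of_eval hQ fun x hx => ?_
    exfalso
    apply hx
    obtain ⟨i, hi⟩ := hcon x
    rw [map_prod]
    refine Finset.prod_eq_zero (Finset.mem_univ i) ?_
    change eval x (lin (D.a i)) = 0
    rw [eval_lin, hi]
  exact one_ne_zero h1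

theorem TorsA_rank_loc_reg {n : ℕ} (D : RD n) (x : Vec n) (hx : ∀ i, ip (D.a i) x ≠ 0) :
    (D.loc x).rank = 0 := by
  unfold RD.rank
  have h1 : Set.range (D.loc x).a = ∅ := by
    rw [Set.range_eq_empty_iff]
    constructor
    rintro ⟨i, hi⟩
    exact hx i hi
  rw [h1, Submodule.span_empty]
  exact finrank_bot ℂ (Vec n)

theorem Lf_notMem {m : ℕ} (D : RD (m + 1)) (b : Fin m → Fin (m + 1) → Pol (m + 1))
    (hb : RankHyp D b) (R : Finset (Fin m)) (j : Fin m) (hj : j ∉ R) : Lf b j ∉ idL b R := by
  obtain ⟨x, hx⟩ := TorsA_exists_reg D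
  have hr : m ≤ (evm x b).rank := by
    have h1 := hb x
    rw [TorsA_rank_loc_reg D x hx] at h1
    simp only [Nat.zero_le, max_eq_right] at h1
    omega
  have hsurj : Function.Surjective (evm x b).mulVecLin := by
    rw [← LinearMap.range_eq_top]
    apply Submodule.eq_top_of_finrank_eq
    rw [Module.finrank_fin_fun]
    refine le_antisymm ?_ hr
    have h2 := Matrix.rank_le_height (evm x b)
    exact h2
  obtain ⟨u, hu⟩ := hsurj (Pi.single j 1)
  have hu' : ∀ i, ∑ k, eval x (b i k) * u k = if i = j then 1 else 0 := by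
    intro i
    have h3 := congrFun hu i
    rw [Matrix.mulVecLin_apply, Pi.single_apply] at h3
    rw [← h3]
    rfl
  intro hmem
  have key : ∀ i, eval₂Hom (eval x : Pol (m + 1) →+* ℂ) u (Lf b i) = if i = j then 1 else 0 := by
    intro i
    rw [← hu' i]
    unfold Lf
    rw [map_sum]
    refine Finset.sum_congr rfl fun k _ => ?_
    rw [map_mul]
    simp
  have hle : idL b R ≤ RingHom.ker (eval₂Hom (eval x : Pol (m + 1) →+* ℂ) u) := by
    unfold idL
    rw [Ideal.span_le]
    rintro _ ⟨i, hi, rfl⟩
    have hij : i ≠ j := by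
      rintro rfl
      exact hj hi
    simp only [SetLike.mem_coe, RingHom.mem_ker]
    rw [key i, if_neg hij]
  have h4 := hle hmem
  rw [RingHom.mem_ker, key j, if_pos rfl] at h4
  exact one_ne_zero h4

theorem tors_step {m : ℕ} (D : RD (m + 1)) (b : Fin m → Fin (m + 1) → Pol (m + 1))
    (hb : RankHyp D b) (R : Finset (Fin m)) (IH : ∀ R' ⊂ R, (idL b R').IsPrime)
    (f : Pol (m + 1)) (hf : f ≠ 0) (P : PT (m + 1)) (hP : C f * P ∈ idL b R) :
    P ∈ idL b R := by
  by_contra hPn
  -- the ideal of multipliers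
  let c : Ideal (Pol (m + 1)) :=
    { carrier := {s | C s * P ∈ idL b R}
      zero_mem' := by simp
      add_mem' := by
        intro s t hs ht
        change C (s + t) * P ∈ idL b R
        rw [map_add, add_mul]
        exact (idL b R).add_mem hs ht
      smul_mem' := by
        intro s t ht
        change C (s * t) * P ∈ idL b R
        rw [map_mul, mul_assoc]
        exact (idL b R).mul_mem_left _ ht }
  have hmemc : ∀ s, s ∈ c ↔ C s * P ∈ idL b R := fun s => Iff.rfl
  have hc : c ≠ ⊤ := by
    intro htop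
    apply hPn
    have h1 : (1 : Pol (m + 1)) ∈ c := by rw [htop]; trivial
    rw [hmemc, map_one, one_mul] at h1
    exact h1
  obtain ⟨x, hx0, N, hN⟩ := D.strat c hc
  obtain ⟨r, cc, hrinj, hrR, hdet⟩ := exists_minor D b hb R x
  have hcard : (univ.image r).card = R.card + 1 - max (D.loc x).rank 1 := by
    rw [Finset.card_image_of_injective _ hrinj, Finset.card_univ, Fintype.card_fin]
  have hsub : univ.image r ⊆ R := by
    intro j hj
    rw [Finset.mem_image] at hj
    obtain ⟨i, _, rfl⟩ := hj
    exact hrR i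
  rcases le_or_gt (D.loc x).rank 1 with hk | hk
  · have hR : univ.image r = R := by
      apply Finset.eq_of_subset_of_card_le hsub
      rw [hcard, max_eq_right hk]
      omega
    obtain ⟨ψ, hψ0, hψh, hψ⟩ := exists_elim' b r cc
    have hker : idL b R ≤ RingHom.ker (ψ : PT (m + 1) →+* PT (m + 1)) := by
      unfold idL
      rw [Ideal.span_le]
      rintro _ ⟨j, hj, rfl⟩
      have hj' : j ∈ univ.image r := by rw [hR]; exact hj
      rw [Finset.mem_image] at hj'
      obtain ⟨i, _, rfl⟩ := hj'
      simp only [SetLike.mem_coe, RingHom.mem_ker]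
      exact hψ0 i
    have h2 : ψ (C f * P) = 0 := by
      have h3 := hker hP
      rw [RingHom.mem_ker] at h3
      exact h3
    have h4 : ψ P = 0 := by
      rw [map_mul] at h2
      have h5 : ψ (C f) = C f := by
        have h6 := ψ.commutes f
        exact h6
      rw [h5] at h2
      rcases mul_eq_zero.mp h2 with h7 | h7
      · exfalso
        apply hf
        exact C_injective _ _ (by rw [h7, map_zero])
      · exact h7
    obtain ⟨M, hM⟩ := elim_zero b r cc ψ hψ hψh P h4
    rw [hR] at hM
    have h8 := hx0 _ ((hmemc _).mpr hM)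
    rw [map_pow] at h8
    exact pow_ne_zero M hdet h8
  · have hun : univ.image r ∪ (R \ univ.image r) = R :=
      Finset.union_sdiff_of_subset hsub
    have hR₂card : (R \ univ.image r).card < (D.loc x).rank := by
      rw [Finset.card_sdiff_of_subset hsub, hcard]
      have h1 : max (D.loc x).rank 1 = (D.loc x).rank := max_eq_left (by omega)
      rw [h1]
      omega
    obtain ⟨y, hyind, hy0⟩ := D.exists_basis_loc x
    have hres := chase_zero b r cc (fun l => D.a (y l)) hyind (R \ univ.image r)
      Finset.disjoint_sdiff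
      (by
        intro R' hR'
        apply IH
        have h1 : univ.image r ∪ R' ⊆ R :=
          Finset.union_subset hsub (hR'.1.trans Finset.sdiff_subset)
        refine ⟨h1, fun h2 => hR'.2 ?_⟩
        intro j hj
        rw [Finset.mem_sdiff] at hj
        have h3 := h2 hj.1
        rw [Finset.mem_union] at h3
        rcases h3 with h3 | h3
        · exact absurd h3 hj.2
        · exact h3)
      (by
        intro R' hR' j hj hj'
        apply Lf_notMem D b hb
        rw [Finset.mem_union, not_or]
        rw [Finset.mem_sdiff] at hj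
        exact ⟨hj.2, hj'⟩)
      hR₂card (C (D.qx x ^ N) * P) N
      (by
        intro l
        rw [hun]
        have h1 := hN (y l) (hy0 l)
        rw [hmemc] at h1
        have h2 : C (lin (D.a (y l)) ^ N) * (C (D.qx x ^ N) * P) =
            C ((D.qx x * D.al (y l)) ^ N) * P := by
          rw [← mul_assoc, ← map_mul, mul_pow, mul_comm (D.qx x ^ N)]
          rfl
        rw [h2]
        exact h1)
    obtain ⟨M, hM⟩ := hres
    rw [hun, ← mul_assoc, ← map_mul] at hM
    have h8 := hx0 _ ((hmemc _).mpr hM)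
    rw [map_mul, map_pow, map_pow] at h8
    exact mul_ne_zero (pow_ne_zero M hdet) (pow_ne_zero N (D.eval_qx x)) h8

end RFL
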