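import Pool.Agent.RFL.Defs

/-!
# RFL-N1 : a finite matrix group is conjugate to a unitary one

`P = ∑_{g ∈ G} gᴴ g` is positive definite, `P = Aᴴ A` with `A` invertible (e.g. `Matrix.PosDef`,
square root), `hᴴ P h = P` for `h ∈ G`, so `A h A⁻¹` is unitary.
-/

open MvPolynomial Matrix Finset

noncomputable section

namespace RFL

open scoped ComplexOrder MatrixOrder in
theorem exists_unitarize {n : ℕ} (G : Subgroup (GL (Fin n) ℂ)) [Finite G] :
    ∃ A : GL (Fin n) ℂ, ∀ g ∈ G, ((A * g * A⁻¹ : GL (Fin n) ℂ) : Matrix (Fin n) (Fin n) ℂ)ᴴ *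
      ((A * g * A⁻¹ : GL (Fin n) ℂ) : Matrix (Fin n) (Fin n) ℂ) = 1 := by
  classical
  have : Fintype G := Fintype.ofFinite G
  set P : Matrix (Fin n) (Fin n) ℂ := ∑ g : G, ((g : GL (Fin n) ℂ) : Matrix (Fin n) (Fin n) ℂ)ᴴ *
    ((g : GL (Fin n) ℂ) : Matrix (Fin n) (Fin n) ℂ) with hP
  have hPD : P.PosDef := by
    rw [hP, ← Finset.add_sum_erase _ _ (Finset.mem_univ (1 : G))]
    refine Matrix.PosDef.add_posSemidef ?_ ?_
    · simpa using (Matrix.PosDef.one : (1 : Matrix (Fin n) (Fin n) ℂ).PosDef)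
    · exact Matrix.posSemidef_sum _ fun i _ => Matrix.posSemidef_conjTranspose_mul_self _
  have hinv : ∀ g ∈ G, (g : Matrix (Fin n) (Fin n) ℂ)ᴴ * P * (g : Matrix (Fin n) (Fin n) ℂ) = P := by
    intro g hg
    rw [hP, Finset.mul_sum, Finset.sum_mul]
    refine Fintype.sum_equiv (Equiv.mulRight (⟨g, hg⟩ : G)) _ _ fun x => ?_
    simp only [Equiv.coe_mulRight, Subgroup.coe_mul, Units.val_mul, Matrix.conjTranspose_mul,
      Matrix.mul_assoc]
  obtain ⟨B, hB⟩ := CStarAlgebra.nonneg_iff_eq_star_mul_self.mp hPD.posSemidef.nonneg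
  have hBu : IsUnit B := by
    have h1 : IsUnit P := hPD.isUnit
    rw [Matrix.isUnit_iff_isUnit_det] at h1 ⊢
    rw [hB, Matrix.det_mul] at h1
    exact isUnit_of_mul_isUnit_right h1
  obtain ⟨A, rfl⟩ := hBu
  refine ⟨A, fun g hg => ?_⟩
  have h2 := hinv g hg
  rw [hB, Matrix.star_eq_conjTranspose] at h2
  have hAA : (A : Matrix (Fin n) (Fin n) ℂ) * ((A⁻¹ : GL (Fin n) ℂ) : Matrix (Fin n) (Fin n) ℂ) = 1 := by
    rw [← Units.val_mul, mul_inv_cancel, Units.val_one]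
  have hAA' : ((A⁻¹ : GL (Fin n) ℂ) : Matrix (Fin n) (Fin n) ℂ)ᴴ * (A : Matrix (Fin n) (Fin n) ℂ)ᴴ
      = 1 := by
    rw [← Matrix.conjTranspose_mul, hAA, Matrix.conjTranspose_one]
  simp only [Units.val_mul, Matrix.conjTranspose_mul]
  calc ((A⁻¹ : GL (Fin n) ℂ) : Matrix (Fin n) (Fin n) ℂ)ᴴ * ((g : Matrix (Fin n) (Fin n) ℂ)ᴴ *
        (A : Matrix (Fin n) (Fin n) ℂ)ᴴ) * ((A : Matrix (Fin n) (Fin n) ℂ) *
        (g : Matrix (Fin n) (Fin n) ℂ) * ((A⁻¹ : GL (Fin n) ℂ) : Matrix (Fin n) (Fin n) ℂ))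
      = ((A⁻¹ : GL (Fin n) ℂ) : Matrix (Fin n) (Fin n) ℂ)ᴴ * ((g : Matrix (Fin n) (Fin n) ℂ)ᴴ *
        ((A : Matrix (Fin n) (Fin n) ℂ)ᴴ * (A : Matrix (Fin n) (Fin n) ℂ)) *
        (g : Matrix (Fin n) (Fin n) ℂ)) * ((A⁻¹ : GL (Fin n) ℂ) : Matrix (Fin n) (Fin n) ℂ) := by
        simp only [Matrix.mul_assoc]
    _ = 1 := by
        rw [h2, ← Matrix.mul_assoc, hAA', Matrix.one_mul, hAA]

theorem Unit_ip_mulVec {n : ℕ} (M : Matrix (Fin n) (Fin n) ℂ) (hM : Mᴴ * M = 1) (x y : Vec n) :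
    ip (M *ᵥ x) (M *ᵥ y) = ip x y := by
  change star (M *ᵥ x) ⬝ᵥ (M *ᵥ y) = star x ⬝ᵥ y
  rw [Matrix.star_mulVec, ← Matrix.dotProduct_mulVec, Matrix.mulVec_mulVec, hM, Matrix.one_mulVec]

/-- two reflections of a finite group with the same hyperplane ... not needed for unitary groups:
a unitary matrix fixing `a^⊥` pointwise (`a` a unit vector) is `1 - (1-ζ) a a*`, `|ζ| = 1` -/
theorem unitary_refl {n : ℕ} (M : Matrix (Fin n) (Fin n) ℂ) (hM : Mᴴ * M = 1) (a : Vec n)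
    (ha : ip a a = 1) (hfix : ∀ x, ip a x = 0 → M *ᵥ x = x) :
    ∃ ζ : ℂ, star ζ * ζ = 1 ∧ M = 1 - (1 - ζ) • Matrix.vecMulVec a (star a) := by
  set ζ : ℂ := ip a (M *ᵥ a) with hζ
  set w : Vec n := M *ᵥ a - ζ • a with hw
  have hsub : ∀ b x y : Vec n, ip b (x - y) = ip b x - ip b y := by
    intro b x y
    rw [sub_eq_add_neg, ip_add_right, show -y = (-1 : ℂ) • y by simp, ip_smul_right]
    ring
  have haw : ip a w = 0 := by
    rw [hw, hsub, ip_smul_right, ha, ← hζ]; ring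
  have hMw : M *ᵥ w = w := hfix w haw
  have hwa : ip w a = 0 := by
    rw [← ip_star, haw, star_zero]
  have hww : ip w w = 0 := by
    have h1 : ip w (M *ᵥ a) = 0 := by
      have := Unit_ip_mulVec M hM w a
      rw [hMw] at this
      rw [this, hwa]
    have h2 : ip w w = ip w (M *ᵥ a) - ζ * ip w a := by
      conv_lhs => rw [hw]
      rw [← hw, hsub, ip_smul_right]
    rw [h2, h1, hwa]; ring
  have hw0 : w = 0 := ip_self_eq_zero.mp hww
  have hMa : M *ᵥ a = ζ • a := by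
    rw [hw, sub_eq_zero] at hw0
    exact hw0
  refine ⟨ζ, ?_, ?_⟩
  · have := Unit_ip_mulVec M hM a a
    rw [hMa, ip_smul_left, ip_smul_right, ha] at this
    simpa using this
  · refine Matrix.ext_of_mulVec_single fun j => ?_
    set e : Vec n := Pi.single j 1
    have h3 : e = (e - ip a e • a) + ip a e • a := by simp
    have h4 : M *ᵥ (e - ip a e • a) = e - ip a e • a := by
      apply hfix
      rw [hsub, ip_smul_right, ha]; ring
    have h5 : M *ᵥ e = (e - ip a e • a) + ip a e • (ζ • a) := by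
      conv_lhs => rw [h3]
      rw [Matrix.mulVec_add, h4, Matrix.mulVec_smul, hMa]
    rw [h5, Matrix.sub_mulVec, Matrix.one_mulVec, Matrix.smul_mulVec, Matrix.vecMulVec_mulVec]
    have h6 : star a ⬝ᵥ e = ip a e := rfl
    rw [h6]
    ext l
    simp only [Pi.add_apply, Pi.sub_apply, Pi.smul_apply, smul_eq_mul, MulOpposite.smul_eq_mul_unop,
      MulOpposite.unop_op]
    ring

end RFL
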